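import Mathlib

set_option autoImplicit false

/-! Characters of prime order `l` modulo `p` attached to homomorphisms `R → ZMod p`. -/

namespace Pool.Agent.KS6_18

open Finset MulChar

section basics

variable {R k : Type*} [CommRing R] [IsDomain R] [Field k] {l : ℕ} {ω : R}

/-- the image of a primitive `l`-th root of unity in a field of characteristic `≠ l` -/
lemma prim_map (hω : IsPrimitiveRoot ω l) (hl : l.Prime) (ρ : R →+* k) (h : (l : k) ≠ 0) :
    IsPrimitiveRoot (ρ ω) l := by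
  have h1 : ρ ω ^ l = 1 := by rw [← map_pow, hω.pow_eq_one, map_one]
  have h2 : ρ ω ≠ 1 := by
    intro h2
    have h3 := congrArg ρ (hω.geom_sum_eq_zero hl.one_lt)
    rw [map_sum, map_zero] at h3
    apply h
    rw [← h3]
    simp only [map_pow, h2, one_pow, sum_const, card_range, nsmul_eq_mul, mul_one]
  have : Fact l.Prime := ⟨hl⟩
  exact IsPrimitiveRoot.iff_orderOf.2 (orderOf_eq_prime h1 h2)

lemma mu_inj (hω : IsPrimitiveRoot ω l) (hl : l.Prime) (ρ : R →+* k) (h : (l : k) ≠ 0) {y y' : R}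
    (hy : y = 0 ∨ y ^ l = 1) (hy' : y' = 0 ∨ y' ^ l = 1) (he : ρ y = ρ y') : y = y' := by
  have : NeZero l := ⟨hl.ne_zero⟩
  have hρ := prim_map hω hl ρ h
  have hnz : ∀ y : R, y ^ l = 1 → ρ y ≠ 0 := by
    intro y hy h0
    have h1 : ρ y ^ l = 1 := by rw [← map_pow, hy, map_one]
    rw [h0, zero_pow hl.ne_zero] at h1
    exact zero_ne_one h1
  rcases hy with rfl | hy
  · rcases hy' with rfl | hy'
    · rfl
    · exact absurd (by rw [← he, map_zero]) (hnz _ hy')
  · rcases hy' with rfl | hy'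
    · exact absurd (by rw [he, map_zero]) (hnz _ hy)
    · obtain ⟨i, hi, rfl⟩ := hω.eq_pow_of_pow_eq_one hy
      obtain ⟨j, hj, rfl⟩ := hω.eq_pow_of_pow_eq_one hy'
      rw [map_pow, map_pow] at he
      rw [hρ.pow_inj hi hj he]

variable {p : ℕ} [Fact p.Prime]

lemma l_ne (hl : l.Prime) (hlp : l ∣ p - 1) : (l : ZMod p) ≠ 0 := by
  have hp : p.Prime := Fact.out
  intro h
  rw [ZMod.natCast_eq_zero_iff] at h
  have h1 := Nat.le_of_dvd hl.pos h
  have h2 := Nat.le_of_dvd (by have := hp.two_le; omega) hlp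
  have := hp.two_le
  omega

lemma chr_exists (hω : IsPrimitiveRoot ω l) (hl : l.Prime) (hlp : l ∣ p - 1) (r : R →+* ZMod p) :
    ∃ χ : MulChar (ZMod p) R, χ ^ l = 1 ∧ ∀ x, r (χ x) = x ^ ((p - 1) / l) := by
  have hp : p.Prime := Fact.out
  have : NeZero l := ⟨hl.ne_zero⟩
  obtain ⟨g, hg⟩ := IsCyclic.exists_generator (α := (ZMod p)ˣ)
  have hρ := prim_map hω hl r (l_ne hl hlp)
  have h1 : ((g : ZMod p) ^ ((p - 1) / l)) ^ l = 1 := by
    rw [← pow_mul, Nat.div_mul_cancel hlp, ZMod.pow_card_sub_one_eq_one g.ne_zero]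
  obtain ⟨j, hj, hj'⟩ := hρ.eq_pow_of_pow_eq_one h1
  have hu : IsUnit ω := hω.isUnit hl.ne_zero
  have hun : hu.unit ^ l = 1 := by
    ext
    rw [Units.val_pow_eq_pow_val, hu.unit_spec, hω.pow_eq_one, Units.val_one]
  have hmem : hu.unit ^ j ∈ rootsOfUnity (Fintype.card (ZMod p)ˣ) R := by
    rw [mem_rootsOfUnity, ZMod.card_units_eq_totient, Nat.totient_prime hp, ← pow_mul,
      ← Nat.mul_div_cancel' hlp, mul_comm, mul_assoc, pow_mul, hun, one_pow]
  set χ : MulChar (ZMod p) R := MulChar.ofRootOfUnity hmem hg with hχ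
  have hχg : χ (g : ZMod p) = ω ^ j := by
    rw [hχ, MulChar.ofRootOfUnity_spec, Units.val_pow_eq_pow_val, hu.unit_spec]
  have hz : ∀ u : (ZMod p)ˣ, ∃ i : ℕ, g ^ i = u := by
    intro u
    obtain ⟨i, hi⟩ := Submonoid.mem_powers_iff _ _ |>.1 (mem_powers_iff_mem_zpowers.2 (hg u))
    exact ⟨i, hi⟩
  refine ⟨χ, ?_, ?_⟩
  · ext u
    obtain ⟨i, rfl⟩ := hz u
    rw [MulChar.pow_apply_coe, MulChar.one_apply_coe, Units.val_pow_eq_pow_val, map_pow, hχg,
      ← pow_mul, ← pow_mul, ← mul_assoc, mul_comm _ l, pow_mul, hω.pow_eq_one, one_pow]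
  · intro x
    by_cases hx : x = 0
    · rw [hx, MulChar.map_zero, map_zero, zero_pow]
      have := Nat.div_pos (Nat.le_of_dvd (by have := hp.two_le; omega) hlp) hl.pos
      omega
    · obtain ⟨i, hi⟩ := hz (Units.mk0 x hx)
      have hx' : x = (g : ZMod p) ^ i := by
        rw [← Units.val_pow_eq_pow_val, hi, Units.val_mk0]
      rw [hx', map_pow, hχg, map_pow, map_pow, hj', ← pow_mul, ← pow_mul, mul_comm]

open Classical in
/-- the character of order `l` with `r (χ x) = x ^ ((p - 1) / l)` -/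
noncomputable def chr (l : ℕ) (r : R →+* ZMod p) : MulChar (ZMod p) R :=
  if h : ∃ χ : MulChar (ZMod p) R, χ ^ l = 1 ∧ ∀ x, r (χ x) = x ^ ((p - 1) / l) then h.choose else 1

variable (hω : IsPrimitiveRoot ω l) (hl : l.Prime) (hlp : l ∣ p - 1) (r : R →+* ZMod p)

include hω hl hlp

lemma chr_pow : (chr l r) ^ l = 1 := by
  have h := chr_exists hω hl hlp r
  unfold chr
  rw [dif_pos h]
  exact h.choose_spec.1

lemma r_chr (x : ZMod p) : r (chr l r x) = x ^ ((p - 1) / l) := by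
  have h := chr_exists hω hl hlp r
  unfold chr
  rw [dif_pos h]
  exact h.choose_spec.2 x

lemma chr_mu {x : ZMod p} (hx : x ≠ 0) : chr l r x ^ l = 1 := by
  have h1 := chr_pow hω hl hlp r
  rw [← MulChar.pow_apply' _ hl.ne_zero, h1, MulChar.one_apply (isUnit_iff_ne_zero.2 hx)]

lemma chr_mu' (x : ZMod p) : chr l r x = 0 ∨ chr l r x ^ l = 1 := by
  by_cases hx : x = 0
  · left; rw [hx, MulChar.map_zero]
  · right; exact chr_mu hω hl hlp r hx

/-- `χ x = 1` iff `x` is an `l`-th power -/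
lemma chr_eq_one {x : ZMod p} : chr l r x = 1 ↔ x ^ ((p - 1) / l) = 1 := by
  rw [← r_chr hω hl hlp r x]
  constructor
  · intro h; rw [h, map_one]
  · intro h
    exact mu_inj hω hl r (l_ne hl hlp) (chr_mu' hω hl hlp r x) (Or.inr (one_pow l))
      (by rw [h, map_one])

lemma chr_ne_one : chr l r ≠ 1 := by
  have hp : p.Prime := Fact.out
  intro h
  obtain ⟨g, hg⟩ := IsCyclic.exists_generator (α := (ZMod p)ˣ)
  have h1 : chr l r (g : ZMod p) = 1 := by rw [h, MulChar.one_apply_coe]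
  rw [chr_eq_one hω hl hlp] at h1
  have h2 : g ^ ((p - 1) / l) = 1 := by
    ext
    rw [Units.val_pow_eq_pow_val, h1, Units.val_one]
  have h3 := orderOf_dvd_of_pow_eq_one h2
  rw [orderOf_eq_card_of_forall_mem_zpowers hg, Nat.card_eq_fintype_card,
    ZMod.card_units_eq_totient, Nat.totient_prime hp] at h3
  have hp1 : 0 < p - 1 := by have := hp.two_le; omega
  have h4 : 0 < (p - 1) / l := Nat.div_pos (Nat.le_of_dvd hp1 hlp) hl.pos
  have h5 := Nat.le_of_dvd h4 h3
  have h6 := Nat.div_lt_self hp1 hl.one_lt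
  omega

lemma chr_order : orderOf (chr l r) = l :=
  have : Fact l.Prime := ⟨hl⟩
  orderOf_eq_prime (chr_pow hω hl hlp r) (chr_ne_one hω hl hlp r)

lemma chr_order_map {k : Type*} [Field k] (ρ : R →+* k) (h : (l : k) ≠ 0) :
    orderOf ((chr l r).ringHomComp ρ) = l := by
  have : Fact l.Prime := ⟨hl⟩
  apply orderOf_eq_prime
  · rw [MulChar.ringHomComp_pow, chr_pow hω hl hlp, MulChar.ringHomComp_one]
  · intro h1
    apply chr_ne_one hω hl hlp r
    ext u
    rw [MulChar.one_apply_coe]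
    have h2 : ((chr l r).ringHomComp ρ) (u : ZMod p) = 1 := by rw [h1, MulChar.one_apply_coe]
    rw [MulChar.ringHomComp_apply] at h2
    exact mu_inj hω hl ρ h (chr_mu' hω hl hlp r u) (Or.inr (one_pow l)) (by rw [h2, map_one])

end basics

/-! Jacobi sums -/

lemma pow_sum_zero {p : ℕ} [Fact p.Prime] (A B : ℕ) (h : A + B < p - 1) :
    ∑ x : ZMod p, x ^ A * (1 - x) ^ B = 0 := by
  have h1 : ∀ x : ZMod p, x ^ A * (1 - x) ^ B =
      ∑ m ∈ range (B + 1), (x ^ (A + (B - m)) * ((-1) ^ (B - m) * (B.choose m : ZMod p))) := by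
    intro x
    rw [sub_eq_add_neg, add_pow, mul_sum]
    apply sum_congr rfl
    intro m _
    rw [one_pow, neg_pow, pow_add]
    ring
  simp only [h1]
  rw [sum_comm]
  apply sum_eq_zero
  intro m hm
  rw [mem_range] at hm
  rw [← sum_mul, FiniteField.sum_pow_lt_card_sub_one, zero_mul]
  rw [ZMod.card]
  omega

/-- the vanishing of a Jacobi sum modulo a prime above `p` -/
lemma jac_zero {p l : ℕ} [Fact p.Prime] (hl : 0 < l) (hlp : l ∣ p - 1) {R : Type*} [CommRing R]
    (f : R →+* ZMod p) (χ₁ χ₂ : MulChar (ZMod p) R) (A B : ℕ) (hAB : A + B < l)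
    (h1 : ∀ x, f (χ₁ x) = x ^ (A * ((p - 1) / l)))
    (h2 : ∀ x, f (χ₂ x) = x ^ (B * ((p - 1) / l))) : f (jacobiSum χ₁ χ₂) = 0 := by
  have hp : p.Prime := Fact.out
  unfold jacobiSum
  rw [map_sum]
  simp only [map_mul, h1, h2]
  apply pow_sum_zero
  have hp1 : 0 < p - 1 := by have := hp.two_le; omega
  have h3 : 0 < (p - 1) / l := Nat.div_pos (Nat.le_of_dvd hp1 hlp) hl
  have h4 : l * ((p - 1) / l) = p - 1 := Nat.mul_div_cancel' hlp
  rw [← add_mul]
  calc (A + B) * ((p - 1) / l) < l * ((p - 1) / l) := Nat.mul_lt_mul_of_pos_right hAB h3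
    _ = p - 1 := h4

end Pool.Agent.KS6_18
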