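import Mathlib

set_option autoImplicit false

/-! The power of a Gauss sum of an order `l` character in characteristic `q`. -/

namespace Pool.Agent.KS6_18

open Finset AddChar MulChar

/-- the `l`-th power of the Gauss sum of `χ` in terms of Jacobi sums -/
noncomputable def Phi {p : ℕ} [Fact p.Prime] {R : Type*} [CommRing R] (χ : MulChar (ZMod p) R)
    (l : ℕ) : R :=
  χ (-1) * (p : R) * ∏ a ∈ Ico 1 (l - 1), jacobiSum χ (χ ^ a)

lemma Phi_map {p : ℕ} [Fact p.Prime] {R k : Type*} [CommRing R] [CommRing k] (ρ : R →+* k)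
    (χ : MulChar (ZMod p) R) (l : ℕ) : Phi (χ.ringHomComp ρ) l = ρ (Phi χ l) := by
  unfold Phi
  rw [map_mul, map_mul, map_prod, map_natCast]
  congr 1
  apply prod_congr rfl
  intro a _
  rw [← jacobiSum_ringHomComp]
  congr 1
  exact MulChar.ringHomComp_pow χ ρ a

lemma gauss_iter {p q : ℕ} [Fact p.Prime] [Fact q.Prime] (hpq : p ≠ q) {k : Type*} [Field k]
    [CharP k q] (χ : MulChar (ZMod p) k) (ψ : AddChar (ZMod p) k) (n : ℕ) :
    χ (q : ZMod p) ^ (n * q ^ n) * gaussSum χ ψ ^ q ^ n = gaussSum (χ ^ q ^ n) ψ := by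
  have hu : IsUnit (q : ZMod p) := by
    rw [ZMod.isUnit_iff_coprime]
    exact (Nat.coprime_primes Fact.out Fact.out).2 hpq.symm
  have hstep : ∀ χ : MulChar (ZMod p) k, χ (q : ZMod p) ^ q * gaussSum χ ψ ^ q =
      gaussSum (χ ^ q) ψ := by
    intro χ
    rw [gaussSum_frob, pow_mulShift, ← MulChar.pow_apply' χ (Fact.out : q.Prime).ne_zero]
    have := gaussSum_mulShift (χ ^ q) ψ hu.unit
    rwa [hu.unit_spec] at this
  induction n with
  | zero => simp
  | succ n ih =>
    have h1 := hstep (χ ^ q ^ n)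
    rw [← ih, ← pow_mul, ← pow_succ] at h1
    rw [← h1, mul_pow, ← pow_mul, ← pow_mul,
      MulChar.pow_apply' χ (pow_ne_zero _ (Fact.out : q.Prime).ne_zero), ← pow_mul, ← mul_assoc,
      ← pow_add, ← pow_succ]
    congr 2
    ring

theorem frob_char {p q : ℕ} [Fact p.Prime] [Fact q.Prime] (hpq : p ≠ q) {R k : Type*} [CommRing R]
    [Field k] [CharP k q] (ρ : R →+* k) (χ : MulChar (ZMod p) R) (l : ℕ) (hl2 : 2 ≤ l)
    (hl : orderOf (χ.ringHomComp ρ) = l) (n : ℕ) (hn : q ^ n ≡ 1 [MOD l]) :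
    ρ (Phi χ l) ^ ((q ^ n - 1) / l) * ρ (χ (q : ZMod p)) ^ n = 1 := by
  have hq1 : 1 ≤ q ^ n := Nat.one_le_pow _ _ (Fact.out : q.Prime).pos
  have hdvd : l ∣ q ^ n - 1 := (Nat.modEq_iff_dvd' hq1).1 hn.symm
  have hring : ringChar k ≠ ringChar (ZMod p) := by
    rw [ringChar.eq k q, ZMod.ringChar_zmod_n]
    exact hpq.symm
  have hprim := (FiniteField.primitiveChar (ZMod p) k hring).prim
  set ψ := (FiniteField.primitiveChar (ZMod p) k hring).char with hψ
  set FF := CyclotomicField (FiniteField.primitiveChar (ZMod p) k hring).n k with hFF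
  have hchFF : CharP FF q := charP_of_injective_algebraMap (algebraMap k FF).injective q
  set χ' : MulChar (ZMod p) FF := (χ.ringHomComp ρ).ringHomComp (algebraMap k FF) with hχ'
  have hinj := (algebraMap k FF).injective
  have ho : orderOf χ' = l := by
    rw [hχ', ← hl]
    apply orderOf_eq_orderOf_iff.2
    intro m
    rw [MulChar.ringHomComp_pow (χ.ringHomComp ρ) (algebraMap k FF) m]
    exact MulChar.ringHomComp_eq_one_iff hinj
  have hne : χ' ≠ 1 := by
    intro h
    rw [h, orderOf_one] at ho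
    omega
  have hcard : (Fintype.card (ZMod p) : FF) ≠ 0 := by
    rw [ZMod.card]
    intro h
    rw [CharP.cast_eq_zero_iff FF q] at h
    exact hpq ((Nat.prime_dvd_prime_iff_eq Fact.out Fact.out).1 h).symm
  have hg0 : gaussSum χ' ψ ≠ 0 := gaussSum_ne_zero_of_nontrivial hcard hne hprim
  have hpowl : χ' ^ q ^ n = χ' := by
    conv_rhs => rw [← pow_one χ']
    rw [pow_eq_pow_iff_modEq, ho]
    exact hn
  have h1 := gauss_iter hpq χ' ψ n
  rw [hpowl] at h1
  have hχq : χ' (q : ZMod p) ^ (n * q ^ n) = χ' (q : ZMod p) ^ n := by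
    have hu : IsUnit (q : ZMod p) := by
      rw [ZMod.isUnit_iff_coprime]
      exact (Nat.coprime_primes Fact.out Fact.out).2 hpq.symm
    have h2 : χ' (q : ZMod p) ^ l = 1 := by
      rw [← MulChar.pow_apply' χ' (by omega : l ≠ 0), ← ho, pow_orderOf_eq_one, MulChar.one_apply hu]
    have h3 : χ' (q : ZMod p) ^ q ^ n = χ' (q : ZMod p) := by
      have h4 : q ^ n = 1 + l * ((q ^ n - 1) / l) := by
        rw [Nat.mul_div_cancel' hdvd]; omega
      rw [h4, pow_add, pow_mul, h2, one_pow, mul_one, pow_one]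
    rw [mul_comm, pow_mul, h3]
  rw [hχq] at h1
  have h5 : χ' (q : ZMod p) ^ n * gaussSum χ' ψ ^ (q ^ n - 1) = 1 := by
    have h6 : gaussSum χ' ψ ^ q ^ n = gaussSum χ' ψ ^ (q ^ n - 1) * gaussSum χ' ψ := by
      rw [← pow_succ, Nat.sub_add_cancel hq1]
    rw [h6, ← mul_assoc] at h1
    exact mul_right_cancel₀ hg0 (by rw [h1, one_mul])
  have h7 : gaussSum χ' ψ ^ l = Phi χ' l := by
    have h8 := gaussSum_pow_eq_prod_jacobiSum (χ := χ') (ψ := ψ) (by rw [ho]; exact hl2) hprim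
    rw [ho, ZMod.card] at h8
    rw [h8]
    rfl
  have h9 : Phi χ' l ^ ((q ^ n - 1) / l) = gaussSum χ' ψ ^ (q ^ n - 1) := by
    rw [← h7, ← pow_mul, Nat.mul_div_cancel' hdvd]
  rw [← h9, hχ', Phi_map, Phi_map, MulChar.ringHomComp_apply, MulChar.ringHomComp_apply] at h5
  apply hinj
  rw [map_one, ← h5, map_mul, map_pow, map_pow, mul_comm]

end Pool.Agent.KS6_18
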