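import Mathlib
import Pool.Agent.KS6_18.Chr
import Pool.Agent.KS6_18.Frob

set_option autoImplicit false

/-! The factorisation of `p` and of the Jacobi sums in the `d`-th cyclotomic ring, `p ≡ 1 mod d`. -/

namespace Pool.Agent.KS6_18

open Finset MulChar NumberField IsCyclotomicExtension

section
variable (d : ℕ) [NeZero d] (K : Type*) [Field K] [NumberField K] [IsCyclotomicExtension {d} ℚ K]

/-- the exponent of a Galois automorphism -/
noncomputable def ax (σ : Gal(K/ℚ)) : ℕ := (IsCyclotomicExtension.Rat.galEquivZMod d K σ).val.val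

/-- a Galois automorphism as a ring homomorphism of the ring of integers -/
noncomputable def sg {K : Type*} [Field K] [NumberField K] (σ : Gal(K/ℚ)) : 𝓞 K →+* 𝓞 K :=
  MulSemiringAction.toRingHom Gal(K/ℚ) (𝓞 K) σ

lemma sg_apply {K : Type*} [Field K] [NumberField K] (σ : Gal(K/ℚ)) (x : 𝓞 K) : sg σ x = σ • x :=
  rfl

lemma sg_pow (σ : Gal(K/ℚ)) {x : 𝓞 K} (hx : x ^ d = 1) : sg σ x = x ^ ax d K σ :=
  IsCyclotomicExtension.Rat.galEquivZMod_smul_of_pow_eq d K σ hx

/-- the standard primitive root of unity of the ring of integers -/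
noncomputable def ze : 𝓞 K := (IsCyclotomicExtension.zeta_spec d ℚ K).toInteger

lemma ze_spec : IsPrimitiveRoot (ze d K) d :=
  (IsCyclotomicExtension.zeta_spec d ℚ K).toInteger_isPrimitiveRoot

lemma ax_coprime (σ : Gal(K/ℚ)) : (ax d K σ).Coprime d := by
  have h := (IsCyclotomicExtension.Rat.galEquivZMod d K σ).isUnit
  have h2 := (ZMod.isUnit_iff_coprime (ax d K σ) d).1 (by
    unfold ax
    rw [ZMod.natCast_zmod_val]
    exact h)
  exact h2

lemma ax_inj {σ τ : Gal(K/ℚ)} (h : ax d K σ ≡ ax d K τ [MOD d]) : σ = τ := by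
  have h1 := (ZMod.natCast_eq_natCast_iff _ _ _).2 h
  unfold ax at h1
  rw [ZMod.natCast_zmod_val, ZMod.natCast_zmod_val] at h1
  exact (IsCyclotomicExtension.Rat.galEquivZMod d K).injective (Units.ext h1)

/-- the residue of the exponent modulo `l` -/
noncomputable def cx (l : ℕ) (σ : Gal(K/ℚ)) : ℕ := ax d K σ % l

lemma cx_pos {l : ℕ} (hl : l.Prime) (hld : l ∣ d) (σ : Gal(K/ℚ)) : 0 < cx d K l σ := by
  rw [Nat.pos_iff_ne_zero]
  intro h
  have h1 : l ∣ ax d K σ := Nat.dvd_of_mod_eq_zero h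
  have h2 := Nat.dvd_gcd h1 hld
  rw [(ax_coprime d K σ)] at h2
  exact hl.one_lt.ne' (Nat.dvd_one.1 h2)

lemma cx_lt {l : ℕ} (hl : l.Prime) (σ : Gal(K/ℚ)) : cx d K l σ < l := Nat.mod_lt _ hl.pos

lemma sg_pow_l {l : ℕ} (hl : l.Prime) (hld : l ∣ d) (σ : Gal(K/ℚ)) {x : 𝓞 K}
    (hx : x = 0 ∨ x ^ l = 1) : sg σ x = x ^ cx d K l σ := by
  rcases hx with rfl | hx
  · rw [map_zero, zero_pow (cx_pos d K hl hld σ).ne']
  · obtain ⟨e, rfl⟩ := hld
    have h1 : x ^ (l * e) = 1 := by rw [pow_mul, hx, one_pow]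
    rw [sg_pow _ K σ h1]
    unfold cx
    conv_lhs => rw [← Nat.mod_add_div (ax (l * e) K σ) l, pow_add, pow_mul, hx, one_pow, mul_one]

variable {p : ℕ} [Fact p.Prime] (r : 𝓞 K →+* ZMod p)

/-- the prime ideals above `p` -/
noncomputable def PP {K : Type*} [Field K] [NumberField K] {p : ℕ} (r : 𝓞 K →+* ZMod p)
    (σ : Gal(K/ℚ)) : Ideal (𝓞 K) := RingHom.ker (r.comp (sg σ))

lemma mem_PP {K : Type*} [Field K] [NumberField K] {p : ℕ} (r : 𝓞 K →+* ZMod p) (σ : Gal(K/ℚ))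
    (x : 𝓞 K) : x ∈ PP r σ ↔ r (sg σ x) = 0 := by
  unfold PP
  rw [RingHom.mem_ker, RingHom.comp_apply]

lemma PP_max (σ : Gal(K/ℚ)) : (PP r σ).IsMaximal :=
  RingHom.ker_isMaximal_of_surjective _ (ZMod.ringHom_surjective _)

lemma p_mem_PP (σ : Gal(K/ℚ)) : (p : 𝓞 K) ∈ PP r σ := by
  rw [mem_PP, map_natCast, map_natCast, CharP.cast_eq_zero]

lemma norm_PP (σ : Gal(K/ℚ)) : Ideal.absNorm (PP r σ) = p := by
  rw [Ideal.absNorm_apply, Submodule.cardQuot_apply]
  have e := RingHom.quotientKerEquivOfSurjective (f := r.comp (sg σ)) (ZMod.ringHom_surjective _)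
  have h := Nat.card_congr e.toEquiv
  rw [Nat.card_zmod] at h
  exact h

lemma r_prim (hpd : d ∣ p - 1) : IsPrimitiveRoot (r (ze d K)) d := by
  have hp : p.Prime := Fact.out
  have hd0 : (d : ZMod p) ≠ 0 := by
    intro h
    rw [ZMod.natCast_eq_zero_iff] at h
    have h1 := Nat.le_of_dvd (NeZero.pos d) h
    have h2 := Nat.le_of_dvd (by have := hp.two_le; omega) hpd
    have := hp.two_le
    omega
  have : NeZero (d : ZMod p) := ⟨hd0⟩
  rw [← Polynomial.isRoot_cyclotomic_iff]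
  have h1 : (Polynomial.cyclotomic d (𝓞 K)).IsRoot (ze d K) :=
    (ze_spec d K).isRoot_cyclotomic (NeZero.pos d)
  have h2 := h1.map (f := r)
  rwa [Polynomial.map_cyclotomic] at h2

lemma PP_inj (hpd : d ∣ p - 1) {σ τ : Gal(K/ℚ)} (h : PP r σ = PP r τ) : σ = τ := by
  have h1 : ∀ x, r (sg σ x) = r (sg τ x) := by
    intro x
    obtain ⟨n, hn⟩ := ZMod.intCast_surjective (r (sg σ x))
    have h2 : x - (n : 𝓞 K) ∈ PP r σ := by
      rw [mem_PP, map_sub, map_sub, map_intCast, map_intCast, hn, sub_self]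
    rw [h, mem_PP, map_sub, map_sub, map_intCast, map_intCast, hn, sub_eq_zero] at h2
    exact h2.symm
  have h3 := h1 (ze d K)
  rw [sg_pow d K σ (ze_spec d K).pow_eq_one, sg_pow d K τ (ze_spec d K).pow_eq_one, map_pow,
    map_pow] at h3
  apply ax_inj d K
  have h4 := (r_prim d K r hpd)
  have h5 := (h4.isOfFinOrder (NeZero.ne d)).pow_eq_pow_iff_modEq.1 h3
  rwa [← h4.eq_orderOf] at h5

/-- the factorisation of `p` -/
theorem prod_PP (hpd : d ∣ p - 1) : ∏ σ : Gal(K/ℚ), PP r σ = Ideal.span {(p : 𝓞 K)} := by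
  have hp : p.Prime := Fact.out
  have hdvd : (∏ σ : Gal(K/ℚ), PP r σ) ∣ Ideal.span {(p : 𝓞 K)} := by
    apply Finset.prod_dvd_of_coprime
    · intro σ _ τ _ hne
      simp only [Function.onFun]
      rw [Ideal.isCoprime_iff_sup_eq]
      exact (PP_max K r σ).coprime_of_ne (PP_max K r τ) (fun h => hne (PP_inj d K r hpd h))
    · intro σ _
      rw [Ideal.dvd_span_singleton]
      exact p_mem_PP K r σ
  obtain ⟨U, hU⟩ := hdvd
  have h1 := congrArg Ideal.absNorm hU
  have hfin : Fintype.card Gal(K/ℚ) = Module.finrank ℚ K := by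
    have : IsGalois ℚ K := IsCyclotomicExtension.isGalois {d} ℚ K
    rw [← Nat.card_eq_fintype_card]
    exact IsGalois.card_aut_eq_finrank ℚ K
  rw [map_mul, map_prod] at h1
  simp only [norm_PP] at h1
  rw [prod_const, card_univ, hfin, Ideal.absNorm_span_singleton] at h1
  have h2 : (Algebra.norm ℤ) ((p : ℕ) : 𝓞 K) = (p : ℤ) ^ Module.finrank ℚ K := by
    have h3 := Algebra.norm_algebraMap (S := 𝓞 K) (p : ℤ)
    rw [RingOfIntegers.rank] at h3
    rw [← h3]
    simp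
  rw [h2, Int.natAbs_pow, Int.natAbs_natCast] at h1
  have h4 : Ideal.absNorm U = 1 := by
    have h5 : 0 < p ^ Module.finrank ℚ K := pow_pos hp.pos _
    exact Nat.eq_of_mul_eq_mul_left h5 (by rw [mul_one]; exact h1.symm)
  rw [Ideal.absNorm_eq_one_iff] at h4
  rw [hU, h4, Ideal.mul_top]

end

/-- abstract factorisation lemma -/
lemma fac_abs {R ι : Type*} [CommRing R] [IsDedekindDomain R] [DecidableEq ι] (S H : Finset ι)
    (hHS : H ⊆ S) (P : ι → Ideal R)
    (hP : (S : Set ι).Pairwise (Function.onFun IsCoprime P)) (x y z : R)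
    (hz : z ≠ 0) (hxy : x * y = z) (hz' : ∏ σ ∈ S, P σ = Ideal.span {z}) (hx : ∀ σ ∈ H, x ∈ P σ)
    (hy : ∀ σ ∈ S \ H, y ∈ P σ) : Ideal.span {x} = ∏ σ ∈ H, P σ := by
  have h1 : (∏ σ ∈ H, P σ) ∣ Ideal.span {x} := by
    apply Finset.prod_dvd_of_coprime
    · exact hP.mono (by exact_mod_cast hHS)
    · intro σ hσ
      rw [Ideal.dvd_span_singleton]
      exact hx σ hσ
  have h2 : (∏ σ ∈ S \ H, P σ) ∣ Ideal.span {y} := by
    apply Finset.prod_dvd_of_coprime
    · exact hP.mono (by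
        intro i hi
        exact (Finset.mem_sdiff.1 (Finset.mem_coe.1 hi)).1)
    · intro σ hσ
      rw [Ideal.dvd_span_singleton]
      exact hy σ hσ
  obtain ⟨U, hU⟩ := h1
  obtain ⟨V, hV⟩ := h2
  have h3 : Ideal.span {z} = Ideal.span {x} * Ideal.span {y} := by
    rw [Ideal.span_singleton_mul_span_singleton, hxy]
  rw [← hz', ← prod_sdiff hHS, hU, hV] at h3
  have h0 : (∏ σ ∈ S \ H, P σ) * ∏ σ ∈ H, P σ ≠ 0 := by
    rw [prod_sdiff hHS, hz']
    intro h
    exact hz (by simpa using h)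
  have h4 : U * V = 1 := by
    apply mul_left_cancel₀ h0
    rw [mul_one]
    conv_rhs => rw [h3]
    ring
  have h5 : U = 1 := by
    have h6 : U * V ≤ U := Ideal.mul_le_left
    rw [h4, Ideal.one_eq_top] at h6
    rw [Ideal.one_eq_top]
    exact top_le_iff.1 h6
  rw [hU, h5, mul_one]

end Pool.Agent.KS6_18
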