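import Mathlib
import Pool.Agent.KS6_18.Fac

set_option autoImplicit false

/-! The factorisation of the Jacobi sums `J(χ, χ ^ a)` and of the `l`-th power of the Gauss sum. -/

namespace Pool.Agent.KS6_18

open Finset MulChar NumberField IsCyclotomicExtension

lemma red_pow {p l : ℕ} [Fact p.Prime] (hl : l.Prime) (hlp : l ∣ p - 1) (x : ZMod p) {e : ℕ}
    (he : e % l ≠ 0) : (x ^ ((p - 1) / l)) ^ e = x ^ ((e % l) * ((p - 1) / l)) := by
  have hp : p.Prime := Fact.out
  have hN : 0 < (p - 1) / l :=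
    Nat.div_pos (Nat.le_of_dvd (by have := hp.two_le; omega) hlp) hl.pos
  by_cases hx : x = 0
  · have he0 : e ≠ 0 := by rintro rfl; simp at he
    rw [hx, zero_pow hN.ne', zero_pow he0, zero_pow (Nat.mul_pos (Nat.pos_of_ne_zero he) hN).ne']
  · have h1 : (x ^ ((p - 1) / l)) ^ l = 1 := by
      rw [← pow_mul, Nat.div_mul_cancel hlp, ZMod.pow_card_sub_one_eq_one hx]
    conv_lhs => rw [← Nat.mod_add_div e l, pow_add, pow_mul _ l, h1, one_pow, mul_one]
    rw [mul_comm (e % l), pow_mul]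

lemma inv_pow_red {p l : ℕ} [Fact p.Prime] (hl : l.Prime) (hlp : l ∣ p - 1) (x : ZMod p) {c : ℕ}
    (hc0 : 0 < c) (hc : c < l) : (x⁻¹) ^ (c * ((p - 1) / l)) = x ^ ((l - c) * ((p - 1) / l)) := by
  have hp : p.Prime := Fact.out
  have hN : 0 < (p - 1) / l :=
    Nat.div_pos (Nat.le_of_dvd (by have := hp.two_le; omega) hlp) hl.pos
  by_cases hx : x = 0
  · rw [hx, inv_zero, zero_pow (Nat.mul_pos hc0 hN).ne',
      zero_pow (Nat.mul_pos (by omega : 0 < l - c) hN).ne']
  · have h1 : x ^ (c * ((p - 1) / l)) * x ^ ((l - c) * ((p - 1) / l)) = 1 := by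
      rw [← pow_add, ← add_mul, Nat.add_sub_cancel' hc.le, Nat.mul_div_cancel' hlp,
        ZMod.pow_card_sub_one_eq_one hx]
    rw [inv_pow]
    exact inv_eq_of_mul_eq_one_right h1

/-- the number of `a` with `c + (a c mod l) < l` -/
lemma count_a {l : ℕ} (hl : l.Prime) {c : ℕ} (hc0 : 0 < c) (hc : c < l) :
    ((Ico 1 (l - 1)).filter (fun a => c + (a * c) % l < l)).card + 1 = l - c := by
  have hl2 := hl.two_le
  have hstep : ∀ a : ℕ, (a + 1) * c / l = a * c / l + if c + (a * c) % l < l then 0 else 1 := by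
    intro a
    have h4 : (a * c) % l < l := Nat.mod_lt _ hl.pos
    have h5 : (a + 1) * c = (c + (a * c) % l) + l * (a * c / l) := by
      have := Nat.mod_add_div (a * c) l
      rw [add_mul, one_mul]; omega
    rw [h5, Nat.add_mul_div_left _ _ hl.pos, add_comm]
    congr 1
    split_ifs with h
    · exact Nat.div_eq_of_lt h
    · rw [Nat.div_eq_iff hl.pos]
      omega
  have hsum : ∀ n : ℕ, (n + 1) * c / l =
      ((Ico 1 (n + 1)).filter (fun a => ¬ (c + (a * c) % l < l))).card := by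
    intro n
    induction n with
    | zero => simp [Nat.div_eq_of_lt hc]
    | succ n ih =>
      rw [hstep (n + 1), ih, Nat.Ico_succ_right_eq_insert_Ico (by omega : 1 ≤ n + 1), filter_insert]
      by_cases h : c + ((n + 1) * c) % l < l
      · rw [if_pos h, if_neg (not_not.2 h), add_zero]
      · rw [if_neg h, if_pos h, card_insert_of_notMem]
        simp
  have h1 := hsum (l - 2)
  have h2 : l - 2 + 1 = l - 1 := by omega
  rw [h2] at h1
  have h3 : (l - 1) * c / l = c - 1 := by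
    obtain ⟨m, rfl⟩ : ∃ m, l = m + 1 := ⟨l - 1, by omega⟩
    obtain ⟨c', rfl⟩ : ∃ c', c = c' + 1 := ⟨c - 1, by omega⟩
    simp only [Nat.add_sub_cancel]
    apply Nat.div_eq_of_lt_le <;> nlinarith
  rw [h3] at h1
  have h4 := card_filter_add_card_filter_not (s := Ico 1 (l - 1)) (fun a => c + (a * c) % l < l)
  rw [← h1, Nat.card_Ico] at h4
  omega

section
variable (d : ℕ) [NeZero d] (K : Type*) [Field K] [NumberField K] [IsCyclotomicExtension {d} ℚ K]
variable {p : ℕ} [Fact p.Prime] (r : 𝓞 K →+* ZMod p) {l : ℕ}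

lemma ze_l (hld : l ∣ d) : IsPrimitiveRoot (ze d K ^ (d / l)) l :=
  (ze_spec d K).pow (NeZero.pos d) (Nat.div_mul_cancel hld).symm

variable (hl : l.Prime) (hld : l ∣ d) (hpd : d ∣ p - 1)
include hl hld hpd

lemma jac_mul (a : ℕ) (ha : a ∈ Ico 1 (l - 1)) :
    jacobiSum (chr l r) (chr l r ^ a) * jacobiSum (chr l r)⁻¹ (chr l r ^ a)⁻¹ = (p : 𝓞 K) := by
  rw [mem_Ico] at ha
  have hω := ze_l d K hld
  have hlp := hld.trans hpd
  have ho := chr_order hω hl hlp r
  have hinj : Function.Injective (algebraMap (𝓞 K) K) := FaithfulSMul.algebraMap_injective _ _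
  have key : ∀ m : ℕ, 0 < m → m < l → (chr l r) ^ m ≠ 1 := by
    intro m hm0 hm h
    have h1 := orderOf_dvd_of_pow_eq_one h
    rw [ho] at h1
    exact absurd (Nat.le_of_dvd hm0 h1) (by omega)
  apply hinj
  rw [map_mul, ← jacobiSum_ringHomComp, ← jacobiSum_ringHomComp, map_natCast,
    ← MulChar.ringHomComp_inv, ← MulChar.ringHomComp_inv, jacobiSum_mul_jacobiSum_inv, ZMod.card]
  · rw [ringChar.eq K 0, ZMod.ringChar_zmod_n]
    exact (NeZero.ne p).symm
  · rw [Ne, MulChar.ringHomComp_eq_one_iff hinj, ← pow_one (chr l r)]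
    exact key 1 one_pos hl.one_lt
  · rw [Ne, MulChar.ringHomComp_eq_one_iff hinj]
    exact key a ha.1 (by omega)
  · rw [← MulChar.ringHomComp_mul, Ne, MulChar.ringHomComp_eq_one_iff hinj, ← pow_succ']
    exact key (a + 1) (by omega) (by omega)

lemma sg_chr (σ : Gal(K/ℚ)) (x : ZMod p) :
    r (sg σ (chr l r x)) = x ^ (cx d K l σ * ((p - 1) / l)) := by
  have hω := ze_l d K hld
  have hlp := hld.trans hpd
  rw [sg_pow_l d K hl hld σ (chr_mu' hω hl hlp r x), map_pow, r_chr hω hl hlp r,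
    red_pow hl hlp]
  · rw [Nat.mod_eq_of_lt (cx_lt d K hl σ)]
  · rw [Nat.mod_eq_of_lt (cx_lt d K hl σ)]
    exact (cx_pos d K hl hld σ).ne'

lemma acx_ne {a : ℕ} (ha : a ∈ Ico 1 (l - 1)) (σ : Gal(K/ℚ)) : (a * cx d K l σ) % l ≠ 0 := by
  rw [mem_Ico] at ha
  intro h
  have h1 := Nat.dvd_of_mod_eq_zero h
  rcases hl.dvd_mul.1 h1 with h2 | h2
  · exact absurd (Nat.le_of_dvd (by omega) h2) (by omega)
  · exact absurd (Nat.le_of_dvd (cx_pos d K hl hld σ) h2) (by have := cx_lt d K hl σ; omega)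

lemma acx_add_ne {a : ℕ} (ha : a ∈ Ico 1 (l - 1)) (σ : Gal(K/ℚ)) :
    cx d K l σ + (a * cx d K l σ) % l ≠ l := by
  rw [mem_Ico] at ha
  intro h
  have h1 : l ∣ (a + 1) * cx d K l σ := by
    rw [Nat.dvd_iff_mod_eq_zero, add_mul, one_mul, Nat.add_mod, add_comm (a * cx d K l σ % l),
      Nat.mod_eq_of_lt (cx_lt d K hl σ), h, Nat.mod_self]
  rcases hl.dvd_mul.1 h1 with h2 | h2
  · exact absurd (Nat.le_of_dvd (by omega) h2) (by omega)
  · exact absurd (Nat.le_of_dvd (cx_pos d K hl hld σ) h2) (by have := cx_lt d K hl σ; omega)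

lemma sg_chr_pow {a : ℕ} (ha : a ∈ Ico 1 (l - 1)) (σ : Gal(K/ℚ)) (x : ZMod p) :
    r (sg σ ((chr l r ^ a) x)) = x ^ (((a * cx d K l σ) % l) * ((p - 1) / l)) := by
  have hω := ze_l d K hld
  have hlp := hld.trans hpd
  have ha' := mem_Ico.1 ha
  have hN : 0 < (p - 1) / l :=
    Nat.div_pos (Nat.le_of_dvd (by have := (Fact.out : p.Prime).two_le; omega) hlp) hl.pos
  rw [MulChar.pow_apply' _ (by omega : a ≠ 0), map_pow,
    sg_pow_l d K hl hld σ (chr_mu' hω hl hlp r x), ← pow_mul, map_pow, r_chr hω hl hlp r,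
    red_pow hl hlp]
  · rw [mul_comm a]
  · rw [mul_comm]; exact acx_ne d K hl hld hpd ha σ

theorem jac_fac {a : ℕ} (ha : a ∈ Ico 1 (l - 1)) :
    Ideal.span {jacobiSum (chr l r) (chr l r ^ a)} =
      ∏ σ ∈ univ.filter (fun σ : Gal(K/ℚ) => cx d K l σ + (a * cx d K l σ) % l < l), PP r σ := by
  classical
  have hp : p.Prime := Fact.out
  have hω := ze_l d K hld
  have hlp := hld.trans hpd
  apply fac_abs univ _ (filter_subset _ _) (PP r) _ (jacobiSum (chr l r) (chr l r ^ a))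
    (jacobiSum (chr l r)⁻¹ (chr l r ^ a)⁻¹) (p : 𝓞 K) _ (jac_mul d K r hl hld hpd a ha)
    (prod_PP d K r hpd)
  · intro σ hσ
    rw [mem_filter] at hσ
    rw [mem_PP]
    exact jac_zero hl.pos hlp (r.comp (sg σ)) _ _ _ _ hσ.2
      (fun x => sg_chr d K r hl hld hpd σ x) (fun x => sg_chr_pow d K r hl hld hpd ha σ x)
  · intro σ hσ
    rw [mem_sdiff, mem_filter, not_and] at hσ
    have h1 := hσ.2 (mem_univ _)
    have h2 := acx_add_ne d K hl hld hpd ha σ
    have h3 := cx_lt d K hl σ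
    have h4 : (a * cx d K l σ) % l < l := Nat.mod_lt _ hl.pos
    rw [mem_PP]
    refine jac_zero hl.pos hlp (r.comp (sg σ)) _ _ (l - cx d K l σ) (l - (a * cx d K l σ) % l)
      (by omega) ?_ ?_
    · intro x
      rw [RingHom.comp_apply, MulChar.inv_apply', sg_chr d K r hl hld hpd σ,
        inv_pow_red hl hlp x (cx_pos d K hl hld σ) h3]
    · intro x
      rw [RingHom.comp_apply, MulChar.inv_apply', sg_chr_pow d K r hl hld hpd ha σ,
        inv_pow_red hl hlp x (Nat.pos_of_ne_zero (acx_ne d K hl hld hpd ha σ)) h4]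
  · intro σ _ τ _ hne
    simp only [Function.onFun]
    rw [Ideal.isCoprime_iff_sup_eq]
    exact (PP_max K r σ).coprime_of_ne (PP_max K r τ) (fun h => hne (PP_inj d K r hpd h))
  · exact_mod_cast hp.ne_zero

/-- the factorisation of the `l`-th power of the Gauss sum -/
theorem Phi_fac : Ideal.span {Phi (chr l r) l} = ∏ σ : Gal(K/ℚ), PP r σ ^ (l - cx d K l σ) := by
  classical
  have hω := ze_l d K hld
  have hlp := hld.trans hpd
  unfold Phi
  rw [← Ideal.span_singleton_mul_span_singleton, ← Ideal.span_singleton_mul_span_singleton,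
    ← prod_PP d K r hpd, ← Ideal.prod_span_singleton]
  have hu : Ideal.span {chr l r (-1)} = (⊤ : Ideal (𝓞 K)) := by
    rw [Ideal.span_singleton_eq_top]
    exact (isUnit_one.neg).map (chr l r)
  rw [hu, Ideal.top_mul, prod_congr rfl (fun a ha => jac_fac d K r hl hld hpd ha)]
  have h1 : ∀ a, ∏ σ ∈ univ.filter (fun σ : Gal(K/ℚ) => cx d K l σ + (a * cx d K l σ) % l < l),
      PP r σ = ∏ σ : Gal(K/ℚ), if cx d K l σ + (a * cx d K l σ) % l < l then PP r σ else 1 := by
    intro a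
    rw [prod_filter]
  simp only [h1]
  rw [prod_comm, ← prod_mul_distrib]
  apply prod_congr rfl
  intro σ _
  rw [← prod_filter, prod_const, ← pow_succ',
    count_a hl (cx_pos d K hl hld σ) (cx_lt d K hl σ)]

end

end Pool.Agent.KS6_18
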