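import Mathlib
import Pool.Agent.KS6_18.Jac

set_option autoImplicit false

/-! The absolute values of the `l`-th power of the Gauss sum. -/

namespace Pool.Agent.KS6_18

open Finset MulChar NumberField IsCyclotomicExtension

lemma star_jacobiSum {p : ℕ} [Fact p.Prime] (χ φ : MulChar (ZMod p) ℂ) :
    star (jacobiSum χ φ) = jacobiSum χ⁻¹ φ⁻¹ := by
  unfold jacobiSum
  rw [star_sum]
  apply sum_congr rfl
  intro x _
  rw [star_mul', MulChar.star_apply', MulChar.star_apply']

section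
variable (d : ℕ) [NeZero d] (K : Type*) [Field K] [NumberField K] [IsCyclotomicExtension {d} ℚ K]
variable {p : ℕ} [Fact p.Prime] (r : 𝓞 K →+* ZMod p) {l : ℕ}
variable (hl : l.Prime) (hld : l ∣ d) (hpd : d ∣ p - 1)
include hl hld hpd

lemma jac_abs (w : 𝓞 K →+* ℂ) (a : ℕ) (ha : a ∈ Ico 1 (l - 1)) :
    ‖w (jacobiSum (chr l r) (chr l r ^ a))‖ ^ 2 = p := by
  have h1 := congrArg w (jac_mul d K r hl hld hpd a ha)
  rw [map_mul, map_natCast, ← jacobiSum_ringHomComp _ _ w, ← jacobiSum_ringHomComp _ _ w,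
    ← MulChar.ringHomComp_inv, ← MulChar.ringHomComp_inv, ← star_jacobiSum] at h1
  rw [← jacobiSum_ringHomComp]
  have h2 : ((‖jacobiSum ((chr l r).ringHomComp w) ((chr l r ^ a).ringHomComp w)‖ ^ 2 : ℝ) : ℂ) =
      (p : ℂ) := by
    rw [← h1]
    push_cast
    rw [← Complex.mul_conj']
    rfl
  exact_mod_cast h2

lemma Phi_abs (w : 𝓞 K →+* ℂ) : ‖w (Phi (chr l r) l)‖ ^ 2 = (p : ℝ) ^ l := by
  have hl2 := hl.two_le
  have hω := ze_l d K hld
  have hlp := hld.trans hpd
  unfold Phi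
  rw [map_mul, map_mul, map_prod, norm_mul, norm_mul, mul_pow, mul_pow, norm_prod, ← prod_pow,
    prod_congr rfl (fun a ha => jac_abs d K r hl hld hpd w a ha), prod_const, Nat.card_Ico,
    map_natCast]
  have h1 : ‖w (chr l r (-1))‖ = 1 := by
    have h2 : (w (chr l r (-1))) ^ l = 1 := by
      rw [← map_pow, chr_mu hω hl hlp r (by simp), map_one]
    exact Complex.norm_eq_one_of_pow_eq_one h2 hl.ne_zero
  rw [h1, one_pow, one_mul, Complex.norm_natCast, ← pow_add]
  congr 1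
  omega

end

end Pool.Agent.KS6_18
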