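import Mathlib
import Pool.Graph.R_pool_sql_team_seeded_63374d34.N430.LK.Final2

set_option autoImplicit false

/-! The sifted primes with a given Jacobi symbol, for all small moduli. -/

namespace Pool.Agent.KS6_18

open Finset
open Pool.Agent.Y855
open Pool.Agent.H442R2.KF
open Pool.Agent.N430.LK (TT_prime TT_le jac_sum)

/-- the primes of `TT x z` with the Jacobi symbol `s` -/
def TS (x z m : ℕ) (s : ℤ) : Finset ℕ := (TT x z).filter (fun p => jacobiSym (p : ℤ) m = s)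

/-- the classes for the sign `s` -/
def clz (z m : ℕ) (s : ℤ) : Finset ℕ :=
  (range m).filter (fun a => (∀ q ∈ m.primeFactors, ¬ (a % q = 0 ∨ (q ≤ z ∧ a % q = 1))) ∧
    jacobiSym (a : ℤ) m = s)

theorem TS_fiber (x z m : ℕ) (s : ℤ) (hs : s ≠ 0) (hm : Squarefree m)
    (hm3 : ∀ q ∈ m.primeFactors, 3 ≤ q) :
    (TS x z m s).card = ∑ a ∈ clz z m s, (NS x m a (OP z \ m.primeFactors)).card := by
  classical
  have hm0 : 0 < m := Nat.pos_of_ne_zero hm.ne_zero
  have hmaps : ∀ p ∈ TS x z m s, p % m ∈ clz z m s := by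
    intro p hp
    unfold TS TT at hp
    rw [mem_filter, mem_filter, mem_Icc] at hp
    obtain ⟨⟨⟨hp1, hpx⟩, hpp, hpq⟩, hj⟩ := hp
    unfold clz
    rw [mem_filter, mem_range]
    refine ⟨Nat.mod_lt _ hm0, ?_, ?_⟩
    · intro q hq
      have hqp := Nat.prime_of_mem_primeFactors hq
      have hqm := Nat.dvd_of_mem_primeFactors hq
      rw [Nat.mod_mod_of_dvd p hqm]
      rintro (h | ⟨hqz, h⟩)
      · have h1 : q ∣ p := Nat.dvd_of_mod_eq_zero h
        have h2 : jacobiSym (p : ℤ) m = 0 := by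
          rw [jacobiSym.eq_zero_iff]
          refine ⟨hm0.ne', ?_⟩
          intro h3
          rw [Int.gcd_natCast_natCast] at h3
          have := Nat.dvd_gcd h1 hqm
          rw [h3] at this
          exact hqp.one_lt.ne' (Nat.dvd_one.1 this)
        exact hs (hj ▸ h2)
      · apply hpq q (mem_OP.2 ⟨hqp, hm3 q hq, hqz⟩)
        exact (Nat.modEq_iff_dvd' hp1).1 (by
          unfold Nat.ModEq
          rw [h, Nat.mod_eq_of_lt hqp.one_lt])
    · have := jacobiSym.mod_left (p : ℤ) m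
      rw [hj] at this
      rw [this]
      push_cast
      rfl
  rw [card_eq_sum_card_fiberwise hmaps]
  apply sum_congr rfl
  intro a ha
  congr 1
  unfold clz at ha
  rw [mem_filter, mem_range] at ha
  ext p
  unfold TS TT NS
  rw [mem_filter, mem_filter, mem_filter, mem_filter]
  constructor
  · rintro ⟨⟨⟨h1, h2, h3⟩, h4⟩, h5⟩
    refine ⟨h1, h2, ?_, ?_⟩
    · unfold Nat.ModEq
      rw [h5, Nat.mod_eq_of_lt ha.1]
    · intro q hq
      exact h3 q (mem_sdiff.1 hq).1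
  · rintro ⟨h1, h2, h3, h4⟩
    have h5 : p % m = a := by
      unfold Nat.ModEq at h3
      rw [h3, Nat.mod_eq_of_lt ha.1]
    refine ⟨⟨⟨h1, h2, ?_⟩, ?_⟩, h5⟩
    · intro q hq hqd
      by_cases hqm : q ∈ m.primeFactors
      · have hqp := Nat.prime_of_mem_primeFactors hqm
        apply ha.2.1 q hqm
        right
        refine ⟨(mem_OP.1 hq).2.2, ?_⟩
        have h6 : 1 ≡ p [MOD q] := (Nat.modEq_iff_dvd' (mem_Icc.1 h1).1).2 hqd
        rw [← h5, Nat.mod_mod_of_dvd p (Nat.dvd_of_mem_primeFactors hqm)]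
        unfold Nat.ModEq at h6
        rw [← h6, Nat.mod_eq_of_lt hqp.one_lt]
      · exact h4 q (mem_sdiff.2 ⟨hq, hqm⟩) hqd
    · have h6 := jacobiSym.mod_left (p : ℤ) m
      rw [h6]
      have h7 : ((p : ℤ) % (m : ℤ)) = ((p % m : ℕ) : ℤ) := by push_cast; rfl
      rw [h7, h5]
      exact ha.2.2

lemma jac_sum_zero (q : ℕ) (hq : q.Prime) (hq3 : 3 ≤ q) :
    ∑ a ∈ range q, ((jacobiSym (a : ℤ) q : ℤ) : ℝ) = 0 := by
  have : Fact q.Prime := ⟨hq⟩
  have h1 : ∀ a : ℕ, jacobiSym (a : ℤ) q = quadraticChar (ZMod q) (a : ZMod q) := by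
    intro a
    rw [← jacobiSym.legendreSym.to_jacobiSym, legendreSym]
    push_cast
    rfl
  have h3 : ∑ a : ZMod q, quadraticChar (ZMod q) a = 0 := by
    apply quadraticChar_sum_zero
    rw [ZMod.ringChar_zmod_n]
    omega
  have h4 : ∑ a ∈ range q, jacobiSym (a : ℤ) q = 0 := by
    rw [← h3]
    simp only [h1]
    refine sum_nbij' (fun a => (a : ZMod q)) (fun a => a.val) ?_ ?_ ?_ ?_ ?_
    · intro a _
      exact mem_univ _
    · intro a _
      exact mem_range.2 (ZMod.val_lt a)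
    · intro a ha
      exact ZMod.val_cast_of_lt (mem_range.1 ha)
    · intro a _
      exact ZMod.natCast_zmod_val a
    · intro a _
      rfl
  exact_mod_cast h4

theorem clz_card (z m : ℕ) (hm : Squarefree m) (hm3 : ∀ q ∈ m.primeFactors, 3 ≤ q)
    (hz : ∃ q ∈ m.primeFactors, z < q) : (clz z m 1).card = (clz z m (-1)).card := by
  classical
  have hpr : ∀ q ∈ m.primeFactors, q.Prime := fun q hq => Nat.prime_of_mem_primeFactors hq
  have hmp : ∏ q ∈ m.primeFactors, q = m := Nat.prod_primeFactors_of_squarefree hm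
  have e2 : (0 : ℝ) = ∑ a ∈ range m, ∏ q ∈ m.primeFactors,
      (if a % q = 0 ∨ (q ≤ z ∧ a % q = 1) then (0 : ℝ)
        else ((jacobiSym ((a % q : ℕ) : ℤ) q : ℤ) : ℝ)) := by
    have h := sum_crt_prod m.primeFactors hpr
      (fun q a => if a = 0 ∨ (q ≤ z ∧ a = 1) then (0 : ℝ) else ((jacobiSym (a : ℤ) q : ℤ) : ℝ))
    rw [hmp] at h
    rw [h]
    symm
    obtain ⟨q, hq, hzq⟩ := hz
    apply prod_eq_zero hq
    refine (sum_congr rfl fun a _ => ?_).trans (jac_sum_zero q (hpr q hq) (hm3 q hq))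
    by_cases ha : a = 0
    · subst ha
      rw [if_pos (Or.inl rfl)]
      have : Fact q.Prime := ⟨hpr q hq⟩
      have h0 : jacobiSym ((0 : ℕ) : ℤ) q = 0 := by
        push_cast
        exact jacobiSym.zero_left (hpr q hq).one_lt
      rw [h0]
      norm_num
    · rw [if_neg]
      rintro (h1 | ⟨h1, -⟩)
      · exact ha h1
      · omega
  have e3 : ∀ a ∈ range m, ∏ q ∈ m.primeFactors,
      (if a % q = 0 ∨ (q ≤ z ∧ a % q = 1) then (0 : ℝ)
        else ((jacobiSym ((a % q : ℕ) : ℤ) q : ℤ) : ℝ)) =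
      (if a ∈ clz z m 1 then (1 : ℝ) else 0) - (if a ∈ clz z m (-1) then (1 : ℝ) else 0) := by
    intro a ha
    have hmem : ∀ {s : ℤ}, a ∈ clz z m s ↔ a ∈ range m ∧
        (∀ q ∈ m.primeFactors, ¬ (a % q = 0 ∨ (q ≤ z ∧ a % q = 1))) ∧ jacobiSym (a : ℤ) m = s := by
      intro s
      unfold clz
      rw [mem_filter]
    by_cases h : ∀ q ∈ m.primeFactors, ¬ (a % q = 0 ∨ (q ≤ z ∧ a % q = 1))
    · have h2 : ∏ q ∈ m.primeFactors, (if a % q = 0 ∨ (q ≤ z ∧ a % q = 1) then (0 : ℝ)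
          else ((jacobiSym ((a % q : ℕ) : ℤ) q : ℤ) : ℝ)) = ((jacobiSym (a : ℤ) m : ℤ) : ℝ) := by
        have h3 := jac_prod m.primeFactors hpr (a : ℤ)
        rw [hmp] at h3
        rw [h3]
        push_cast
        apply prod_congr rfl
        intro q hq
        rw [if_neg (h q hq), ← jacobiSym.mod_left]
      have hcop : Int.gcd (a : ℤ) m = 1 := by
        rw [Int.gcd_natCast_natCast]
        refine Nat.Coprime.symm (Nat.coprime_of_dvd fun k hk hkm hka => ?_)
        exact h k (Nat.mem_primeFactors.2 ⟨hk, hkm, hm.ne_zero⟩)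
          (Or.inl (Nat.mod_eq_zero_of_dvd hka))
      rw [h2]
      rcases (jacobiSym.eq_one_or_neg_one hcop) with h4 | h4
      · rw [if_pos (hmem.2 ⟨ha, h, h4⟩), if_neg, h4]
        · norm_num
        · intro h5
          have h6 := (hmem.1 h5).2.2
          rw [h4] at h6
          norm_num at h6
      · rw [if_neg, if_pos (hmem.2 ⟨ha, h, h4⟩), h4]
        · norm_num
        · intro h5
          have h6 := (hmem.1 h5).2.2
          rw [h4] at h6
          norm_num at h6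
    · have h2 : ∏ q ∈ m.primeFactors, (if a % q = 0 ∨ (q ≤ z ∧ a % q = 1) then (0 : ℝ)
          else ((jacobiSym ((a % q : ℕ) : ℤ) q : ℤ) : ℝ)) = 0 := by
        push Not at h
        obtain ⟨q, hq, hq2⟩ := h
        exact prod_eq_zero hq (by rw [if_pos hq2])
      rw [h2, if_neg (fun h' => h (hmem.1 h').2.1), if_neg (fun h' => h (hmem.1 h').2.1), sub_self]
  rw [sum_congr rfl e3, sum_sub_distrib, ← sum_filter, ← sum_filter, sum_const, sum_const,
    nsmul_eq_mul, nsmul_eq_mul, mul_one, mul_one] at e2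
  have h1 : ∀ s : ℤ, (range m).filter (fun a => a ∈ clz z m s) = clz z m s := by
    intro s
    ext a
    rw [mem_filter]
    constructor
    · exact fun h => h.2
    · intro h
      refine ⟨?_, h⟩
      unfold clz at h
      exact (mem_filter.1 h).1
  rw [h1, h1] at e2
  have h2 : ((clz z m 1).card : ℝ) = ((clz z m (-1)).card : ℝ) := by linarith
  exact_mod_cast h2

/-- the relative density is near `1 / 2` if there is a large prime factor -/
lemma dl_near (m : ℕ) (hm3 : ∀ q ∈ m.primeFactors, 3 ≤ q) (z : ℕ) (hz : 2 ≤ z)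
    (h : ∃ q ∈ m.primeFactors, z < q) : |dl m - 1 / 2| ≤ 1 / (2 * ((z : ℝ) - 1)) := by
  classical
  obtain ⟨q, hq, hzq⟩ := h
  have hz2 : (2 : ℝ) ≤ z := by exact_mod_cast hz
  have hle1 : ∀ q ∈ m.primeFactors, 0 ≤ 1 / ((q : ℝ) - 2) ∧ 1 / ((q : ℝ) - 2) ≤ 1 := by
    intro q hq
    have h4 : (3 : ℝ) ≤ q := by exact_mod_cast hm3 q hq
    constructor
    · apply div_nonneg zero_le_one; linarith
    · rw [div_le_one (by linarith)]; linarith
  have hprod0 : 0 ≤ ∏ q ∈ m.primeFactors, (1 / ((q : ℝ) - 2)) :=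
    prod_nonneg fun q hq => (hle1 q hq).1
  have hprod : ∏ q ∈ m.primeFactors, (1 / ((q : ℝ) - 2)) ≤ 1 / ((z : ℝ) - 1) := by
    rw [← mul_prod_erase _ _ hq]
    have h5 : ∏ q ∈ m.primeFactors.erase q, (1 / ((q : ℝ) - 2)) ≤ 1 :=
      prod_le_one (fun q hq => (hle1 q (mem_of_mem_erase hq)).1)
        (fun q hq => (hle1 q (mem_of_mem_erase hq)).2)
    have h6 : 1 / ((q : ℝ) - 2) ≤ 1 / ((z : ℝ) - 1) := by
      apply one_div_le_one_div_of_le (by linarith)
      have : (z : ℝ) + 1 ≤ q := by exact_mod_cast hzq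
      linarith
    calc _ ≤ 1 / ((q : ℝ) - 2) * 1 := mul_le_mul_of_nonneg_left h5 (hle1 q hq).1
      _ ≤ _ := by linarith
  unfold dl
  have hmu : |((ArithmeticFunction.moebius m : ℤ) : ℝ)| ≤ 1 := by
    have := ArithmeticFunction.abs_moebius_le_one (n := m)
    exact_mod_cast this
  have h8 : 1 / 2 * (1 - ((ArithmeticFunction.moebius m : ℤ) : ℝ) *
      ∏ q ∈ m.primeFactors, (1 / ((q : ℝ) - 2))) - 1 / 2 =
      -(((ArithmeticFunction.moebius m : ℤ) : ℝ) * ∏ q ∈ m.primeFactors, (1 / ((q : ℝ) - 2))) / 2 := by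
    ring
  rw [h8, abs_div, abs_neg, abs_mul, abs_of_nonneg hprod0, abs_two]
  have h9 : |((ArithmeticFunction.moebius m : ℤ) : ℝ)| *
      ∏ q ∈ m.primeFactors, (1 / ((q : ℝ) - 2)) ≤ 1 * (1 / ((z : ℝ) - 1)) :=
    mul_le_mul hmu hprod hprod0 zero_le_one
  calc _ ≤ 1 * (1 / ((z : ℝ) - 1)) / 2 := div_le_div_of_nonneg_right h9 (by norm_num)
    _ = 1 / (2 * ((z : ℝ) - 1)) := by rw [one_mul, div_div, mul_comm]

end Pool.Agent.KS6_18
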