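import Mathlib

set_option autoImplicit false

/-! Collisions of the products of `k` elements modulo primes. -/

namespace Pool.Agent.KS6_18

open Finset

/-- the number of the pairs with the same image is at least the expected one -/
lemma coll_card {α β : Type*} [DecidableEq β] (A : Finset α) (f : α → β) (T : Finset β)
    (hf : ∀ a ∈ A, f a ∈ T) :
    A.card ^ 2 ≤ T.card * ((A ×ˢ A).filter (fun x => f x.1 = f x.2)).card := by
  classical
  have h1 : A.card = ∑ t ∈ T, (A.filter (fun a => f a = t)).card :=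
    card_eq_sum_card_fiberwise hf
  have h2 : ((A ×ˢ A).filter (fun x => f x.1 = f x.2)).card =
      ∑ t ∈ T, (A.filter (fun a => f a = t)).card ^ 2 := by
    rw [card_eq_sum_card_fiberwise (f := fun x => f x.1) (t := T)]
    · refine sum_congr rfl fun t _ => ?_
      rw [sq, ← card_product]
      congr 1
      ext x
      simp only [mem_filter, mem_product]
      constructor
      · rintro ⟨⟨⟨h1, h2⟩, h3⟩, h4⟩
        exact ⟨⟨h1, h4⟩, h2, by rw [← h3, h4]⟩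
      · rintro ⟨⟨h1, h2⟩, h3, h4⟩
        exact ⟨⟨⟨h1, h3⟩, by rw [h2, h4]⟩, h2⟩
    · intro x hx
      have hx' := (mem_filter.1 hx).1
      exact hf _ (mem_product.1 hx').1
  rw [h2]
  nth_rewrite 1 [h1]
  exact sq_sum_le_card_mul_sum_sq

lemma roots_card (p : ℕ) [Fact p.Prime] (g : ℕ) (a : ZMod p) :
    ((univ : Finset (ZMod p)).filter (fun y => y ^ g = a)).card ≤ max g 1 * (if g = 0 then p else 1) := by
  classical
  by_cases hg : g = 0
  · rw [if_pos hg]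
    have h := card_filter_le (univ : Finset (ZMod p)) (fun y => y ^ g = a)
    rw [card_univ, ZMod.card] at h
    calc _ ≤ p := h
      _ = 1 * p := (one_mul p).symm
      _ ≤ _ := Nat.mul_le_mul_right _ (le_max_right _ _)
  · rw [if_neg hg, mul_one]
    have h1 : (univ : Finset (ZMod p)).filter (fun y => y ^ g = a) ⊆
        (Polynomial.nthRoots g a).toFinset := by
      intro y hy
      rw [Multiset.mem_toFinset, Polynomial.mem_nthRoots (Nat.pos_of_ne_zero hg)]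
      exact (mem_filter.1 hy).2
    refine (card_le_card h1).trans ((Multiset.toFinset_card_le _).trans ?_)
    exact (Polynomial.card_nthRoots g a).trans (le_max_left _ _)

/-- the tuples -/
def Tup (k : ℕ) (E : Finset ℤ) : Finset (Fin k → ℤ) := Fintype.piFinset (fun _ : Fin k => E)

lemma card_Tup (k : ℕ) (E : Finset ℤ) : (Tup k E).card = E.card ^ k := by
  unfold Tup
  rw [Fintype.card_piFinset]
  simp

lemma Tup_mono {k : ℕ} {S E : Finset ℤ} (h : S ⊆ E) : Tup k S ⊆ Tup k E :=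
  Fintype.piFinset_subset _ _ fun _ => h

lemma mem_Tup {k : ℕ} {E : Finset ℤ} {u : Fin k → ℤ} : u ∈ Tup k E ↔ ∀ i, u i ∈ E := by
  unfold Tup
  rw [Fintype.mem_piFinset]

/-- the pairs of tuples with congruent products -/
def Cg (k p : ℕ) (E : Finset ℤ) : Finset ((Fin k → ℤ) × (Fin k → ℤ)) :=
  (Tup k E ×ˢ Tup k E).filter (fun x => ((∏ i, x.1 i : ℤ) : ZMod p) = ((∏ i, x.2 i : ℤ) : ZMod p))

/-- the pairs of tuples with equal products -/
def Eqp (k : ℕ) (E : Finset ℤ) : Finset ((Fin k → ℤ) × (Fin k → ℤ)) :=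
  (Tup k E ×ˢ Tup k E).filter (fun x => (∏ i, x.1 i : ℤ) = ∏ i, x.2 i)

/-- the lower bound for one prime -/
lemma coll_one (k p g : ℕ) [Fact p.Prime] (hg : 0 < g) (S : Finset ℤ) (c : ZMod p)
    (hS : ∀ n ∈ S, (n : ZMod p) ^ g = c) : (S.card ^ k) ^ 2 ≤ g * (Cg k p S).card := by
  classical
  have h := coll_card (Tup k S) (fun u => ((∏ i, u i : ℤ) : ZMod p))
    ((univ : Finset (ZMod p)).filter (fun y => y ^ g = c ^ k)) (by
      intro u hu
      rw [mem_Tup] at hu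
      rw [mem_filter]
      refine ⟨mem_univ _, ?_⟩
      push_cast
      rw [← Finset.prod_pow, Finset.prod_congr rfl fun i _ => hS _ (hu i)]
      simp)
  rw [card_Tup] at h
  refine h.trans (Nat.mul_le_mul_right _ ?_)
  have h2 := roots_card p g (c ^ k)
  rw [if_neg hg.ne', mul_one, max_eq_left (by omega : 1 ≤ g)] at h2
  exact h2

lemma natAbs_prod_le {k N : ℕ} {E : Finset ℤ} (hN : ∀ n ∈ E, n.natAbs ≤ N) {u : Fin k → ℤ}
    (hu : u ∈ Tup k E) : (∏ i, u i).natAbs ≤ N ^ k := by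
  rw [mem_Tup] at hu
  have h : (∏ i, u i).natAbs = ∏ i, (u i).natAbs := by
    rw [← Int.natAbsHom_apply, map_prod]
    rfl
  rw [h]
  calc ∏ i, (u i).natAbs ≤ ∏ _i : Fin k, N := prod_le_prod' fun i _ => hN _ (hu i)
    _ = N ^ k := by simp

/-- **the double counting** -/
theorem double_count (k N : ℕ) (E : Finset ℤ) (hN : ∀ n ∈ E, n.natAbs ≤ N) (I : Finset (ℕ × ℕ))
    (S : ℕ × ℕ → Finset ℤ) (hS : ∀ i ∈ I, S i ⊆ E)
    (hI : ∀ i ∈ I, i.2.Prime ∧ 0 < i.1 ∧ i.1 ∣ i.2 - 1)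
    (hc : ∀ i ∈ I, ∃ c : ZMod i.2, ∀ n ∈ S i, (n : ZMod i.2) ^ ((i.2 - 1) / i.1) = c)
    (C0 : ℝ) (hC0 : ∀ M : ℤ, M ≠ 0 → M.natAbs ≤ 2 * N ^ k →
      ((I.filter (fun i => (i.2 : ℤ) ∣ M)).card : ℝ) ≤ C0) (h0 : 0 ≤ C0) :
    ∑ i ∈ I, (((S i).card : ℝ) ^ (2 * k) * (i.1 / i.2) - ((Eqp k E).card : ℝ)) ≤
      (E.card : ℝ) ^ (2 * k) * C0 := by
  classical
  -- one index
  have h1 : ∀ i ∈ I, ((S i).card : ℝ) ^ (2 * k) * (i.1 / i.2) - ((Eqp k E).card : ℝ) ≤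
      (((Tup k E ×ˢ Tup k E).filter (fun x => (∏ j, x.1 j : ℤ) ≠ ∏ j, x.2 j ∧
        (i.2 : ℤ) ∣ (∏ j, x.1 j - ∏ j, x.2 j))).card : ℝ) := by
    intro i hi
    obtain ⟨hp, hl, hlp⟩ := hI i hi
    have : Fact i.2.Prime := ⟨hp⟩
    obtain ⟨c, hcS⟩ := hc i hi
    have hp1 : 0 < i.2 - 1 := by have := hp.two_le; omega
    have hg : 0 < (i.2 - 1) / i.1 := Nat.div_pos (Nat.le_of_dvd hp1 hlp) hl
    have h2 := coll_one k i.2 ((i.2 - 1) / i.1) hg (S i) c hcS
    have h3 : (Cg k i.2 (S i)).card ≤ (Eqp k E).card +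
        ((Tup k E ×ˢ Tup k E).filter (fun x => (∏ j, x.1 j : ℤ) ≠ ∏ j, x.2 j ∧
          (i.2 : ℤ) ∣ (∏ j, x.1 j - ∏ j, x.2 j))).card := by
      rw [← card_union_of_disjoint]
      · apply card_le_card
        intro x hx
        unfold Cg at hx
        rw [mem_filter, mem_product] at hx
        obtain ⟨⟨ha, hb⟩, hxe⟩ := hx
        have ha' := Tup_mono (hS i hi) ha
        have hb' := Tup_mono (hS i hi) hb
        rw [mem_union]
        by_cases he : (∏ j, x.1 j : ℤ) = ∏ j, x.2 j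
        · left
          unfold Eqp
          rw [mem_filter, mem_product]
          exact ⟨⟨ha', hb'⟩, he⟩
        · right
          rw [mem_filter, mem_product]
          refine ⟨⟨ha', hb'⟩, he, ?_⟩
          rw [← ZMod.intCast_zmod_eq_zero_iff_dvd, Int.cast_sub, hxe, sub_self]
      · rw [disjoint_left]
        intro x hx hx2
        unfold Eqp at hx
        exact (mem_filter.1 hx2).2.1 (mem_filter.1 hx).2
    have hlr : (0 : ℝ) < i.1 := by exact_mod_cast hl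
    have hpr : (0 : ℝ) < i.2 := by exact_mod_cast hp.pos
    have hgr : (((i.2 - 1) / i.1 : ℕ) : ℝ) ≤ i.2 / i.1 := by
      refine Nat.cast_div_le.trans ?_
      apply div_le_div_of_nonneg_right _ hlr.le
      exact_mod_cast Nat.sub_le _ _
    have h4 : ((S i).card : ℝ) ^ (2 * k) ≤ (i.2 / i.1) * (Cg k i.2 (S i)).card := by
      have h5 : (((S i).card : ℝ) ^ k) ^ 2 ≤ (((i.2 - 1) / i.1 : ℕ) : ℝ) * (Cg k i.2 (S i)).card := by
        exact_mod_cast h2
      rw [← pow_mul, mul_comm k 2] at h5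
      exact h5.trans (mul_le_mul_of_nonneg_right hgr (Nat.cast_nonneg _))
    have h6 : ((S i).card : ℝ) ^ (2 * k) * (i.1 / i.2) ≤ (Cg k i.2 (S i)).card := by
      calc ((S i).card : ℝ) ^ (2 * k) * (i.1 / i.2)
          ≤ (i.2 / i.1) * (Cg k i.2 (S i)).card * (i.1 / i.2) :=
            mul_le_mul_of_nonneg_right h4 (by positivity)
        _ = (Cg k i.2 (S i)).card := by field_simp
    have h7 : ((Cg k i.2 (S i)).card : ℝ) ≤ (Eqp k E).card +
        ((Tup k E ×ˢ Tup k E).filter (fun x => (∏ j, x.1 j : ℤ) ≠ ∏ j, x.2 j ∧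
          (i.2 : ℤ) ∣ (∏ j, x.1 j - ∏ j, x.2 j))).card := by exact_mod_cast h3
    linarith
  refine (sum_le_sum h1).trans ?_
  -- exchange the sums
  have h2 : ∀ i ∈ I, (((Tup k E ×ˢ Tup k E).filter (fun x => (∏ j, x.1 j : ℤ) ≠ ∏ j, x.2 j ∧
        (i.2 : ℤ) ∣ (∏ j, x.1 j - ∏ j, x.2 j))).card : ℝ) =
      ∑ x ∈ Tup k E ×ˢ Tup k E, if ((∏ j, x.1 j : ℤ) ≠ ∏ j, x.2 j ∧
        (i.2 : ℤ) ∣ (∏ j, x.1 j - ∏ j, x.2 j)) then (1 : ℝ) else 0 := by
    intro i _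
    rw [sum_ite, sum_const_zero, add_zero, sum_const, nsmul_eq_mul, mul_one]
  rw [sum_congr rfl h2, sum_comm]
  have h3 : ∀ x ∈ Tup k E ×ˢ Tup k E, (∑ i ∈ I, if ((∏ j, x.1 j : ℤ) ≠ ∏ j, x.2 j ∧
        (i.2 : ℤ) ∣ (∏ j, x.1 j - ∏ j, x.2 j)) then (1 : ℝ) else 0) ≤ C0 := by
    intro x hx
    rw [mem_product] at hx
    by_cases he : (∏ j, x.1 j : ℤ) = ∏ j, x.2 j
    · rw [sum_eq_zero]
      · exact h0
      · intro i _
        rw [if_neg]
        exact fun h => h.1 he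
    · have h4 : (∑ i ∈ I, if ((∏ j, x.1 j : ℤ) ≠ ∏ j, x.2 j ∧
        (i.2 : ℤ) ∣ (∏ j, x.1 j - ∏ j, x.2 j)) then (1 : ℝ) else 0) =
          ((I.filter (fun i => (i.2 : ℤ) ∣ (∏ j, x.1 j - ∏ j, x.2 j))).card : ℝ) := by
        rw [sum_ite, sum_const_zero, add_zero, sum_const, nsmul_eq_mul, mul_one]
        congr 2
        apply filter_congr
        intro i _
        simp [he]
      rw [h4]
      apply hC0 _ (sub_ne_zero.2 he)
      refine (Int.natAbs_sub_le _ _).trans ?_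
      have h5 := natAbs_prod_le hN hx.1
      have h6 := natAbs_prod_le hN hx.2
      omega
  refine (sum_le_sum h3).trans ?_
  rw [sum_const, card_product, card_Tup, nsmul_eq_mul]
  push_cast
  rw [← pow_add, ← two_mul]

/-- **the sum over the bad pairs** -/
theorem bad_sum (k N : ℕ) (E : Finset ℤ) (hE : E.Nonempty) (hN : ∀ n ∈ E, n.natAbs ≤ N)
    (I : Finset (ℕ × ℕ))
    (S : ℕ × ℕ → Finset ℤ) (hS : ∀ i ∈ I, S i ⊆ E)
    (hI : ∀ i ∈ I, i.2.Prime ∧ 0 < i.1 ∧ i.1 ∣ i.2 - 1)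
    (hc : ∀ i ∈ I, ∃ c : ZMod i.2, ∀ n ∈ S i, (n : ZMod i.2) ^ ((i.2 - 1) / i.1) = c)
    (C0 : ℝ) (hC0 : ∀ M : ℤ, M ≠ 0 → M.natAbs ≤ 2 * N ^ k →
      ((I.filter (fun i => (i.2 : ℤ) ∣ M)).card : ℝ) ≤ C0) (h0 : 0 ≤ C0)
    (K lam P : ℝ) (hK : 0 < K) (hlam : 0 < lam) (hP : 0 < P)
    (hSK : ∀ i ∈ I, (E.card : ℝ) ≤ K * (S i).card)
    (hl : ∀ i ∈ I, lam ≤ i.1) (hpP : ∀ i ∈ I, (i.2 : ℝ) ≤ P)
    (hEq : ((Eqp k E).card : ℝ) * (2 * K ^ (2 * k) * P) ≤ lam * (E.card : ℝ) ^ (2 * k)) :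
    ∑ i ∈ I, 1 / (i.2 : ℝ) ≤ 2 * C0 * K ^ (2 * k) / lam := by
  have h := double_count k N E hN I S hS hI hc C0 hC0 h0
  have hEc : (0 : ℝ) < E.card := by exact_mod_cast hE.card_pos
  set e : ℝ := (E.card : ℝ) ^ (2 * k) with he
  have he0 : 0 < e := by positivity
  have hK2 : 0 < K ^ (2 * k) := by positivity
  have h1 : ∀ i ∈ I, e / K ^ (2 * k) * (lam / 2) * (1 / (i.2 : ℝ)) ≤
      ((S i).card : ℝ) ^ (2 * k) * (i.1 / i.2) - ((Eqp k E).card : ℝ) := by
    intro i hi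
    obtain ⟨hp, hl0, -⟩ := hI i hi
    have hpr : (0 : ℝ) < i.2 := by exact_mod_cast hp.pos
    have h2 : e / K ^ (2 * k) ≤ ((S i).card : ℝ) ^ (2 * k) := by
      rw [div_le_iff₀ hK2, he, ← mul_pow]
      apply pow_le_pow_left₀ hEc.le
      rw [mul_comm]
      exact hSK i hi
    have h3 : lam / i.2 ≤ (i.1 : ℝ) / i.2 := by
      apply div_le_div_of_nonneg_right (hl i hi) hpr.le
    have h4 : e / K ^ (2 * k) * (lam / i.2) ≤ ((S i).card : ℝ) ^ (2 * k) * (i.1 / i.2) :=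
      mul_le_mul h2 h3 (by positivity) (by positivity)
    have h5 : ((Eqp k E).card : ℝ) ≤ e / K ^ (2 * k) * (lam / 2) * (1 / (i.2 : ℝ)) := by
      have h6 : ((Eqp k E).card : ℝ) ≤ lam * e / (2 * K ^ (2 * k) * P) := by
        rw [le_div_iff₀ (by positivity)]
        exact hEq
      refine h6.trans ?_
      rw [show e / K ^ (2 * k) * (lam / 2) * (1 / (i.2 : ℝ)) = lam * e / (2 * K ^ (2 * k) * i.2) by
        field_simp]
      apply div_le_div_of_nonneg_left (by positivity) (by positivity)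
      apply mul_le_mul_of_nonneg_left (hpP i hi) (by positivity)
    have h7 : e / K ^ (2 * k) * (lam / i.2) = 2 * (e / K ^ (2 * k) * (lam / 2) * (1 / (i.2 : ℝ))) := by
      field_simp
    linarith
  have h2 := (sum_le_sum h1).trans h
  rw [← mul_sum] at h2
  rw [le_div_iff₀ hlam]
  have h3 : e / K ^ (2 * k) * (lam / 2) * ∑ i ∈ I, 1 / (i.2 : ℝ) =
      e / (2 * K ^ (2 * k)) * ((∑ i ∈ I, 1 / (i.2 : ℝ)) * lam) := by
    field_simp
  rw [h3] at h2
  have h4 : (∑ i ∈ I, 1 / (i.2 : ℝ)) * lam ≤ e * C0 / (e / (2 * K ^ (2 * k))) := by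
    rw [le_div_iff₀ (by positivity)]
    linarith
  refine h4.trans (le_of_eq ?_)
  field_simp

end Pool.Agent.KS6_18
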