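import Mathlib
import Pool.Graph.R_seed8.Helper112.Arith
import Pool.Agent.KS6_18.Coll

set_option autoImplicit false

/-! The number of the prime factors, and the number of the equal products. -/

namespace Pool.Agent.KS6_18

open Finset Filter

lemma primes_dvd (M : ℤ) (hM : M ≠ 0) (y : ℝ) (hy : 1 < y) (W : Finset ℕ)
    (hW : ∀ p ∈ W, p.Prime ∧ y ≤ p) (hd : ∀ p ∈ W, (p : ℤ) ∣ M) :
    (W.card : ℝ) ≤ Real.log M.natAbs / Real.log y := by
  have hly : 0 < Real.log y := Real.log_pos hy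
  have hM0 : 0 < M.natAbs := Int.natAbs_pos.2 hM
  rw [le_div_iff₀ hly]
  have h1 : ∏ p ∈ W, p ∣ M.natAbs := by
    apply Finset.prod_primes_dvd
    · intro p hp
      exact (hW p hp).1.prime
    · intro p hp
      exact Int.natCast_dvd.1 (hd p hp)
  have h2 : ∏ p ∈ W, p ≤ M.natAbs := Nat.le_of_dvd hM0 h1
  have h3 : y ^ W.card ≤ ∏ p ∈ W, (p : ℝ) := by
    rw [← prod_const]
    exact prod_le_prod (fun _ _ => by linarith) fun p hp => (hW p hp).2
  have h4 : y ^ W.card ≤ (M.natAbs : ℝ) := by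
    refine h3.trans ?_
    rw [← Nat.cast_prod]
    exact Nat.cast_le.2 h2
  have h5 := Real.log_le_log (by positivity) h4
  rwa [Real.log_pow] at h5

lemma idx_count (I : Finset (ℕ × ℕ)) (J y : ℝ) (hJ : 0 ≤ J) (hy : 1 < y)
    (hI : ∀ i ∈ I, i.2.Prime ∧ y ≤ i.2)
    (hJI : ∀ i ∈ I, ((I.filter (fun j => j.2 = i.2)).card : ℝ) ≤ J) (M : ℤ) (hM : M ≠ 0) :
    ((I.filter (fun i => (i.2 : ℤ) ∣ M)).card : ℝ) ≤ J * (Real.log M.natAbs / Real.log y) := by
  classical
  set A := I.filter (fun i => (i.2 : ℤ) ∣ M) with hA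
  have h1 : A.card = ∑ p ∈ A.image Prod.snd, (A.filter (fun i => i.2 = p)).card :=
    card_eq_sum_card_fiberwise (fun i hi => mem_image_of_mem _ hi)
  have h2 : ∀ p ∈ A.image Prod.snd, ((A.filter (fun i => i.2 = p)).card : ℝ) ≤ J := by
    intro p hp
    obtain ⟨i, hi, rfl⟩ := mem_image.1 hp
    refine le_trans ?_ (hJI i (mem_filter.1 hi).1)
    exact_mod_cast card_le_card (filter_subset_filter _ (filter_subset _ _))
  have h3 : (A.card : ℝ) ≤ J * (A.image Prod.snd).card := by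
    rw [h1]
    push_cast
    refine (sum_le_sum h2).trans ?_
    rw [sum_const, nsmul_eq_mul, mul_comm]
  refine h3.trans (mul_le_mul_of_nonneg_left ?_ hJ)
  apply primes_dvd M hM y hy
  · intro p hp
    obtain ⟨i, hi, rfl⟩ := mem_image.1 hp
    exact hI i (mem_filter.1 hi).1
  · intro p hp
    obtain ⟨i, hi, rfl⟩ := mem_image.1 hp
    exact (mem_filter.1 hi).2

/-- the divisors of both signs -/
def DV (M : ℤ) : Finset ℤ :=
  M.natAbs.divisors.image (fun d : ℕ => (d : ℤ)) ∪ M.natAbs.divisors.image (fun d : ℕ => -(d : ℤ))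

lemma card_DV (M : ℤ) : (DV M).card ≤ 2 * M.natAbs.divisors.card := by
  unfold DV
  refine (card_union_le _ _).trans ?_
  have h1 := card_image_le (s := M.natAbs.divisors) (f := fun d : ℕ => (d : ℤ))
  have h2 := card_image_le (s := M.natAbs.divisors) (f := fun d : ℕ => -(d : ℤ))
  omega

lemma mem_DV {M a : ℤ} (hM : M ≠ 0) (h : a ∣ M) : a ∈ DV M := by
  unfold DV
  have h1 : a.natAbs ∈ M.natAbs.divisors := by
    rw [Nat.mem_divisors]
    exact ⟨Int.natAbs_dvd_natAbs.2 h, by simpa using hM⟩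
  rcases Int.natAbs_eq a with h2 | h2
  · exact mem_union_left _ (mem_image.2 ⟨_, h1, h2.symm⟩)
  · exact mem_union_right _ (mem_image.2 ⟨_, h1, h2.symm⟩)

lemma fib_card (k : ℕ) (E : Finset ℤ) (M : ℤ) (hM : M ≠ 0) :
    ((Tup k E).filter (fun v => M = ∏ i, v i)).card ≤ (2 * M.natAbs.divisors.card) ^ k := by
  classical
  have h1 : (Tup k E).filter (fun v => M = ∏ i, v i) ⊆ Tup k (DV M) := by
    intro v hv
    rw [mem_Tup]
    intro i
    apply mem_DV hM
    rw [(mem_filter.1 hv).2]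
    exact dvd_prod_of_mem _ (mem_univ i)
  refine (card_le_card h1).trans ?_
  rw [card_Tup]
  exact pow_le_pow_left₀ (Nat.zero_le _) (card_DV M) k

/-- few pairs of tuples have equal products -/
theorem Eqp_bound (k : ℕ) (δ : ℝ) (hδ : 0 < δ) : ∃ N0 : ℕ, ∀ N : ℕ, N0 ≤ N → ∀ E : Finset ℤ,
    (∀ n ∈ E, n ≠ 0 ∧ n.natAbs ≤ N) → ((Eqp k E).card : ℝ) ≤ (E.card : ℝ) ^ k * (N : ℝ) ^ δ := by
  classical
  set e : ℝ := δ / (2 * ((k : ℝ) ^ 2 + 1)) with he
  have he0 : 0 < e := by positivity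
  obtain ⟨C, hC, hdiv⟩ := Pool.Agent.Helper112.divisor_bound e he0
  have htend : ∀ᶠ N : ℕ in atTop, (2 * C) ^ k ≤ (N : ℝ) ^ (δ / 2) :=
    ((tendsto_rpow_atTop (by positivity : 0 < δ / 2)).comp
      tendsto_natCast_atTop_atTop).eventually_ge_atTop _
  obtain ⟨N0, hN0⟩ := eventually_atTop.1 htend
  refine ⟨max N0 1, fun N hN E hE => ?_⟩
  have hN1 : N0 ≤ N := (le_max_left _ _).trans hN
  have hN2 : 1 ≤ N := (le_max_right _ _).trans hN
  have hNr : (1 : ℝ) ≤ N := by exact_mod_cast hN2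
  have h1 : (Eqp k E).card = ∑ u ∈ Tup k E,
      ((Tup k E).filter (fun v => (∏ i, u i) = ∏ i, v i)).card := by
    unfold Eqp
    rw [card_filter, sum_product]
    refine sum_congr rfl fun u _ => ?_
    rw [card_filter]
  have h2 : ∀ u ∈ Tup k E, (((Tup k E).filter (fun v => (∏ i, u i) = ∏ i, v i)).card : ℝ) ≤
      (N : ℝ) ^ δ := by
    intro u hu
    have hu0 : (∏ i, u i) ≠ 0 := by
      rw [prod_ne_zero_iff]
      intro i _
      exact (hE _ (mem_Tup.1 hu i)).1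
    have h3 := fib_card k E (∏ i, u i) hu0
    have h4 := natAbs_prod_le (fun n hn => (hE n hn).2) hu
    have h5 := hdiv (∏ i, u i).natAbs (Nat.pos_of_ne_zero (Int.natAbs_ne_zero.2 hu0))
    have h6 : (((∏ i, u i).natAbs : ℕ) : ℝ) ^ e ≤ ((N : ℝ) ^ k) ^ e := by
      apply Real.rpow_le_rpow (Nat.cast_nonneg _) _ he0.le
      exact_mod_cast h4
    have h7 : (((∏ i, u i).natAbs.divisors.card : ℕ) : ℝ) ≤ C * ((N : ℝ) ^ k) ^ e :=
      h5.trans (mul_le_mul_of_nonneg_left h6 hC.le)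
    have h8 : (((Tup k E).filter (fun v => (∏ i, u i) = ∏ i, v i)).card : ℝ) ≤
        (2 * (C * ((N : ℝ) ^ k) ^ e)) ^ k := by
      have h3' : (((Tup k E).filter (fun v => (∏ i, u i) = ∏ i, v i)).card : ℝ) ≤
          (2 * (((∏ i, u i).natAbs.divisors.card : ℕ) : ℝ)) ^ k := by exact_mod_cast h3
      refine h3'.trans ?_
      apply pow_le_pow_left₀ (by positivity)
      exact mul_le_mul_of_nonneg_left h7 (by norm_num)
    refine h8.trans ?_
    have h9 : (2 * (C * ((N : ℝ) ^ k) ^ e)) ^ k = (2 * C) ^ k * ((N : ℝ) ^ (e * (k : ℝ) ^ 2)) := by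
      rw [← mul_assoc, mul_pow]
      congr 1
      rw [← Real.rpow_natCast (N : ℝ) k, ← Real.rpow_mul (by positivity),
        ← Real.rpow_natCast ((N : ℝ) ^ _) k, ← Real.rpow_mul (by positivity)]
      congr 1
      ring
    rw [h9]
    have h10 : e * (k : ℝ) ^ 2 ≤ δ / 2 := by
      rw [he, div_mul_eq_mul_div, div_le_div_iff₀ (by positivity) (by norm_num)]
      nlinarith [sq_nonneg (k : ℝ)]
    calc (2 * C) ^ k * ((N : ℝ) ^ (e * (k : ℝ) ^ 2)) ≤ (N : ℝ) ^ (δ / 2) * (N : ℝ) ^ (δ / 2) :=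
          mul_le_mul (hN0 N hN1) (Real.rpow_le_rpow_of_exponent_le hNr h10) (by positivity)
            (by positivity)
      _ = (N : ℝ) ^ δ := by rw [← Real.rpow_add (by linarith)]; congr 1; ring
  rw [h1]
  push_cast
  refine (sum_le_sum h2).trans ?_
  rw [sum_const, card_Tup, nsmul_eq_mul]
  push_cast
  exact le_refl _

end Pool.Agent.KS6_18
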