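import Mathlib
import Pool.Agent.KS6_18.Cnt

set_option autoImplicit false

/-! One dyadic block of prime factors of the index, on average over an arbitrary set of integers. -/

namespace Pool.Agent.KS6_18

open Finset Filter

/-- the prime factors of `p - 1` in the block `j` -/
def Qs (j p : ℕ) : Finset ℕ := (p - 1).primeFactors.filter (fun l => Nat.log 2 l = j)

lemma mem_Qs {j p l : ℕ} (hp : p.Prime) : l ∈ Qs j p ↔ l.Prime ∧ l ∣ p - 1 ∧ Nat.log 2 l = j := by
  unfold Qs
  rw [mem_filter, Nat.mem_primeFactors]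
  have := hp.two_le
  constructor
  · rintro ⟨⟨h1, h2, -⟩, h3⟩
    exact ⟨h1, h2, h3⟩
  · rintro ⟨h1, h2, h3⟩
    exact ⟨⟨h1, h2, by omega⟩, h3⟩

lemma Qs_range {j p l : ℕ} (hl : l ∈ Qs j p) : l ∈ range (2 ^ (j + 1)) := by
  unfold Qs at hl
  rw [mem_filter] at hl
  rw [mem_range, ← hl.2]
  exact Nat.lt_pow_succ_log_self (by norm_num) l

/-- the integers of `E` in the coset for `l`, `p` -/
def Sl (c : ℕ → (p : ℕ) → ZMod p) (E : Finset ℤ) (i : ℕ × ℕ) : Finset ℤ :=
  E.filter (fun n => (n : ZMod i.2) ^ ((i.2 - 1) / i.1) = c i.1 i.2)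

/-- the primes of the block for which `n` is in the coset -/
def Bs (c : ℕ → (p : ℕ) → ZMod p) (j p : ℕ) (n : ℤ) : Finset ℕ :=
  (Qs j p).filter (fun l => (n : ZMod p) ^ ((p - 1) / l) = c l p)

/-- **one block** -/
theorem dyadic (c : ℕ → (p : ℕ) → ZMod p) (k N j : ℕ) (E : Finset ℤ) (hE : E.Nonempty)
    (hN : ∀ n ∈ E, n.natAbs ≤ N) (W : Finset ℕ) (w : ℕ → ℝ) (y P J K V : ℝ) (hy : 1 < y)
    (hN1 : 1 ≤ N)
    (hW : ∀ p ∈ W, p.Prime ∧ y ≤ p ∧ (p : ℝ) ≤ P) (hw : ∀ p ∈ W, 0 ≤ w p ∧ w p ≤ V / p)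
    (hJ : 0 ≤ J) (hK : 0 < K) (hV : 0 ≤ V) (hP : 0 < P)
    (hEq : ((Eqp k E).card : ℝ) * (2 * K ^ (2 * k) * P) ≤ 2 ^ j * (E.card : ℝ) ^ (2 * k)) :
    ∑ n ∈ E, ∑ p ∈ W, w p * ((Bs c j p n).card : ℝ) ≤
      E.card * (∑ p ∈ W.filter (fun p => J < ((Qs j p).card : ℝ)), w p * ((Qs j p).card : ℝ) +
        1 / K * ∑ p ∈ W, w p * ((Qs j p).card : ℝ) +
        V * (2 * (J * (Real.log (2 * N ^ k : ℝ) / Real.log y)) * K ^ (2 * k) / 2 ^ j)) := by
  classical
  have hEc : (0 : ℝ) < E.card := by exact_mod_cast hE.card_pos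
  -- the pairs
  set I : Finset (ℕ × ℕ) := ((range (2 ^ (j + 1))) ×ˢ W).filter (fun i => i.1 ∈ Qs j i.2 ∧
    ((Qs j i.2).card : ℝ) ≤ J ∧ (E.card : ℝ) ≤ K * (Sl c E i).card) with hI
  have hIm : ∀ i ∈ I, i.2 ∈ W ∧ i.1 ∈ Qs j i.2 ∧ ((Qs j i.2).card : ℝ) ≤ J ∧
      (E.card : ℝ) ≤ K * (Sl c E i).card := by
    intro i hi
    rw [hI, mem_filter, mem_product] at hi
    exact ⟨hi.1.2, hi.2⟩
  set C0 : ℝ := J * (Real.log (2 * N ^ k : ℝ) / Real.log y) with hC0
  have hly : 0 < Real.log y := Real.log_pos hy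
  have hNr : (1 : ℝ) ≤ N := by exact_mod_cast hN1
  have hNk : (1 : ℝ) ≤ (N : ℝ) ^ k := one_le_pow₀ hNr
  have hC00 : 0 ≤ C0 := by
    have : 0 ≤ Real.log (2 * N ^ k : ℝ) := Real.log_nonneg (by linarith)
    positivity
  have hbad : ∑ i ∈ I, 1 / (i.2 : ℝ) ≤ 2 * C0 * K ^ (2 * k) / 2 ^ j := by
    refine bad_sum k N E hE hN I (Sl c E) (fun i _ => filter_subset _ _) ?_ ?_ C0 ?_ hC00 K
      (2 ^ j) P hK (by positivity) hP ?_ ?_ ?_ hEq
    · intro i hi
      obtain ⟨h1, h2, -⟩ := hIm i hi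
      have h3 := (mem_Qs (hW _ h1).1).1 h2
      exact ⟨(hW _ h1).1, h3.1.pos, h3.2.1⟩
    · intro i _
      exact ⟨c i.1 i.2, fun n hn => (mem_filter.1 hn).2⟩
    · intro M hM hMN
      refine (idx_count I J y hJ hy ?_ ?_ M hM).trans ?_
      · intro i hi
        obtain ⟨h1, h2, -⟩ := hIm i hi
        exact ⟨(hW _ h1).1, (hW _ h1).2.1⟩
      · intro i hi
        obtain ⟨h1, h2, h3, -⟩ := hIm i hi
        refine le_trans ?_ h3
        have : (I.filter (fun j' => j'.2 = i.2)).card ≤ (Qs j i.2).card := by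
          apply card_le_card_of_injOn Prod.fst
          · intro x hx
            obtain ⟨hx1, hx2⟩ := mem_filter.1 hx
            have h4 := (hIm x hx1).2.1
            rw [hx2] at h4
            exact h4
          · intro x hx x' hx' he
            have h4 := (mem_filter.1 hx).2
            have h5 := (mem_filter.1 hx').2
            exact Prod.ext he (h4.trans h5.symm)
        exact_mod_cast this
      · rw [hC0]
        apply mul_le_mul_of_nonneg_left _ hJ
        apply div_le_div_of_nonneg_right _ hly.le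
        apply Real.log_le_log
        · exact_mod_cast Int.natAbs_pos.2 hM
        · exact_mod_cast hMN
    · intro i hi
      exact (hIm i hi).2.2.2
    · intro i hi
      obtain ⟨h1, h2, -⟩ := hIm i hi
      have h3 := ((mem_Qs (hW _ h1).1).1 h2).2.2
      have h4 := ((mem_Qs (hW _ h1).1).1 h2).1
      have h5 : 2 ^ j ≤ i.1 := by
        rw [← h3]
        exact Nat.pow_log_le_self 2 h4.ne_zero
      exact_mod_cast h5
    · intro i hi
      exact (hW _ (hIm i hi).1).2.2
  -- exchange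
  have hex : ∑ n ∈ E, ∑ p ∈ W, w p * ((Bs c j p n).card : ℝ) =
      ∑ p ∈ W, w p * ∑ l ∈ Qs j p, ((Sl c E (l, p)).card : ℝ) := by
    rw [sum_comm]
    refine sum_congr rfl fun p _ => ?_
    rw [← mul_sum]
    congr 1
    have h1 : ∀ n ∈ E, ((Bs c j p n).card : ℝ) =
        ∑ l ∈ Qs j p, if (n : ZMod p) ^ ((p - 1) / l) = c l p then (1 : ℝ) else 0 := by
      intro n _
      unfold Bs
      rw [sum_ite, sum_const_zero, add_zero, sum_const, nsmul_eq_mul, mul_one]
    rw [sum_congr rfl h1, sum_comm]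
    refine sum_congr rfl fun l _ => ?_
    unfold Sl
    rw [sum_ite, sum_const_zero, add_zero, sum_const, nsmul_eq_mul, mul_one]
  rw [hex]
  have hS : ∀ i : ℕ × ℕ, ((Sl c E i).card : ℝ) ≤ E.card := fun i => by
    exact_mod_cast card_le_card (filter_subset _ _)
  -- one prime
  have hone : ∀ p ∈ W, w p * ∑ l ∈ Qs j p, ((Sl c E (l, p)).card : ℝ) ≤
      E.card * ((if J < ((Qs j p).card : ℝ) then w p * ((Qs j p).card : ℝ) else 0) +
        1 / K * (w p * ((Qs j p).card : ℝ)) +
        V * ∑ l ∈ range (2 ^ (j + 1)), if (l, p) ∈ I then 1 / (p : ℝ) else 0) := by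
    intro p hp
    obtain ⟨hw0, hwV⟩ := hw p hp
    have hpr : (0 : ℝ) < p := by exact_mod_cast (hW p hp).1.pos
    have hsum0 : 0 ≤ ∑ l ∈ range (2 ^ (j + 1)), if (l, p) ∈ I then 1 / (p : ℝ) else 0 := by
      apply sum_nonneg
      intro l _
      split_ifs <;> positivity
    by_cases hJp : J < ((Qs j p).card : ℝ)
    · rw [if_pos hJp]
      have h1 : ∑ l ∈ Qs j p, ((Sl c E (l, p)).card : ℝ) ≤ (Qs j p).card * E.card := by
        refine (sum_le_sum fun l _ => hS (l, p)).trans ?_
        rw [sum_const, nsmul_eq_mul]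
      calc w p * ∑ l ∈ Qs j p, ((Sl c E (l, p)).card : ℝ) ≤ w p * ((Qs j p).card * E.card) :=
            mul_le_mul_of_nonneg_left h1 hw0
        _ = E.card * (w p * ((Qs j p).card : ℝ)) := by ring
        _ ≤ _ := by
          apply mul_le_mul_of_nonneg_left _ hEc.le
          have h2 : 0 ≤ 1 / K * (w p * ((Qs j p).card : ℝ)) := by positivity
          have h3 : 0 ≤ V * ∑ l ∈ range (2 ^ (j + 1)), if (l, p) ∈ I then 1 / (p : ℝ) else 0 :=
            mul_nonneg hV hsum0
          linarith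
    · rw [if_neg hJp, zero_add]
      have h1 : ∀ l ∈ Qs j p, ((Sl c E (l, p)).card : ℝ) ≤
          E.card * (1 / K) + (if (l, p) ∈ I then (E.card : ℝ) else 0) := by
        intro l hl
        by_cases hb : (E.card : ℝ) ≤ K * (Sl c E (l, p)).card
        · have h2 : (l, p) ∈ I := by
            rw [hI, mem_filter, mem_product]
            exact ⟨⟨Qs_range hl, hp⟩, hl, not_lt.1 hJp, hb⟩
          rw [if_pos h2]
          have := hS (l, p)
          have h3 : 0 ≤ (E.card : ℝ) * (1 / K) := by positivity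
          linarith
        · push Not at hb
          have h3 : ((Sl c E (l, p)).card : ℝ) ≤ E.card * (1 / K) := by
            rw [mul_one_div, le_div_iff₀ hK, mul_comm]
            exact hb.le
          have h4 : (0 : ℝ) ≤ if (l, p) ∈ I then (E.card : ℝ) else 0 := by
            split_ifs
            · exact hEc.le
            · exact le_refl _
          linarith
      have h2 : ∑ l ∈ Qs j p, ((Sl c E (l, p)).card : ℝ) ≤
          (Qs j p).card * (E.card * (1 / K)) +
            E.card * ∑ l ∈ range (2 ^ (j + 1)), (if (l, p) ∈ I then (1 : ℝ) else 0) := by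
        refine (sum_le_sum h1).trans ?_
        rw [sum_add_distrib, sum_const, nsmul_eq_mul]
        apply add_le_add_right
        rw [mul_sum]
        calc ∑ l ∈ Qs j p, (if (l, p) ∈ I then (E.card : ℝ) else 0)
            ≤ ∑ l ∈ range (2 ^ (j + 1)), (if (l, p) ∈ I then (E.card : ℝ) else 0) := by
              apply sum_le_sum_of_subset_of_nonneg
              · intro l hl
                exact Qs_range hl
              · intro l _ _
                split_ifs
                · exact hEc.le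
                · exact le_refl _
          _ = _ := by
              refine sum_congr rfl fun l _ => ?_
              split_ifs <;> simp
      have h3 : w p * ∑ l ∈ range (2 ^ (j + 1)), (if (l, p) ∈ I then (1 : ℝ) else 0) ≤
          V * ∑ l ∈ range (2 ^ (j + 1)), (if (l, p) ∈ I then 1 / (p : ℝ) else 0) := by
        have h4 : ∑ l ∈ range (2 ^ (j + 1)), (if (l, p) ∈ I then 1 / (p : ℝ) else 0) =
            1 / (p : ℝ) * ∑ l ∈ range (2 ^ (j + 1)), (if (l, p) ∈ I then (1 : ℝ) else 0) := by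
          rw [mul_sum]
          refine sum_congr rfl fun l _ => ?_
          split_ifs <;> simp
        rw [h4, ← mul_assoc, mul_one_div]
        apply mul_le_mul_of_nonneg_right hwV
        apply sum_nonneg
        intro l _
        split_ifs <;> norm_num
      calc w p * ∑ l ∈ Qs j p, ((Sl c E (l, p)).card : ℝ)
          ≤ w p * ((Qs j p).card * (E.card * (1 / K)) +
            E.card * ∑ l ∈ range (2 ^ (j + 1)), (if (l, p) ∈ I then (1 : ℝ) else 0)) :=
            mul_le_mul_of_nonneg_left h2 hw0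
        _ = E.card * (1 / K * (w p * ((Qs j p).card : ℝ)) +
            w p * ∑ l ∈ range (2 ^ (j + 1)), (if (l, p) ∈ I then (1 : ℝ) else 0)) := by ring
        _ ≤ _ := by
          apply mul_le_mul_of_nonneg_left _ hEc.le
          linarith
  refine (sum_le_sum hone).trans ?_
  rw [← mul_sum]
  apply mul_le_mul_of_nonneg_left _ hEc.le
  rw [sum_add_distrib, sum_add_distrib, ← mul_sum, ← mul_sum, ← sum_filter]
  have hlast : ∑ p ∈ W, ∑ l ∈ range (2 ^ (j + 1)), (if (l, p) ∈ I then 1 / (p : ℝ) else 0) =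
      ∑ i ∈ I, 1 / (i.2 : ℝ) := by
    rw [sum_comm, ← sum_product' (f := fun l p => if (l, p) ∈ I then 1 / (p : ℝ) else 0)]
    rw [← sum_filter]
    apply sum_congr _ fun _ _ => rfl
    ext i
    rw [mem_filter]
    constructor
    · rintro ⟨-, h⟩
      exact h
    · intro h
      exact ⟨(mem_filter.1 h).1, h⟩
  rw [hlast]
  apply add_le_add_right
  exact mul_le_mul_of_nonneg_left hbad hV

end Pool.Agent.KS6_18
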