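import Mathlib
import Pool.Graph.R_seed8.Helper602.MK.J3
import Pool.Agent.KS6_18.Dyad

set_option autoImplicit false

/-! Consequences of the theorem of Brun and Titchmarsh. -/

namespace Pool.Agent.KS6_18

open Finset Filter

/-- primes congruent to `1` -/
theorem bt_one : ∃ C : ℝ, 1 ≤ C ∧ ∀ x d : ℕ, 1 ≤ d → d ^ 2 ≤ x → 2 ≤ x →
    (((Icc 1 x).filter (fun p : ℕ => p.Prime ∧ d ∣ p - 1)).card : ℝ) ≤
      C * (x / (Nat.totient d * Real.log x)) := by
  classical
  obtain ⟨C, hC, h⟩ := Pool.Agent.Helper602.MK.BTLib.brun_titchmarsh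
  refine ⟨4 * C, by linarith, fun x d hd hdx hx => ?_⟩
  have hd0 : (0 : ℝ) < d := by exact_mod_cast hd
  have hx0 : (0 : ℝ) < x := by exact_mod_cast (by omega : 0 < x)
  have hphi : (0 : ℝ) < Nat.totient d := by exact_mod_cast Nat.totient_pos.2 hd
  have hdx1 : d ≤ x := (Nat.le_self_pow two_ne_zero d).trans hdx
  set M := x / d + 1 with hM
  have hM2 : 2 ≤ M := by
    have : 1 ≤ x / d := (Nat.one_le_div_iff hd).2 hdx1
    omega
  have h1 := h 1 d M hd hM2
  have h2 : ((Icc 1 x).filter (fun p : ℕ => p.Prime ∧ d ∣ p - 1)).card ≤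
      ((range M).filter (fun t => (1 + t * d).Prime)).card := by
    apply card_le_card_of_injOn (fun p => (p - 1) / d)
    · intro p hp
      have hp' := mem_filter.1 hp
      obtain ⟨hpI, hpp, hpd⟩ := hp'
      rw [mem_Icc] at hpI
      have h3 : (p - 1) / d * d = p - 1 := Nat.div_mul_cancel hpd
      have h4 : (p - 1) / d ∈ (range M).filter (fun t => (1 + t * d).Prime) := by
        rw [mem_filter, mem_range]
        constructor
        · have h5 : (p - 1) / d ≤ x / d := Nat.div_le_div_right (by omega)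
          omega
        · rw [h3, show 1 + (p - 1) = p by have := hpp.two_le; omega]
          exact hpp
      exact h4
    · intro p hp q hq he
      have hp' := mem_filter.1 hp
      have hq' := mem_filter.1 hq
      have h3 : (p - 1) / d * d = p - 1 := Nat.div_mul_cancel hp'.2.2
      have h4 : (q - 1) / d * d = q - 1 := Nat.div_mul_cancel hq'.2.2
      have he' : (p - 1) / d = (q - 1) / d := he
      rw [he', h4] at h3
      have := hp'.2.1.two_le
      have := hq'.2.1.two_le
      omega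
  have h2' : (((Icc 1 x).filter (fun p : ℕ => p.Prime ∧ d ∣ p - 1)).card : ℝ) ≤
      ((range M).filter (fun t => (1 + t * d).Prime)).card := by exact_mod_cast h2
  refine h2'.trans (h1.trans ?_)
  have hMd : (M : ℝ) ≤ 2 * (x / d) := by
    have h3 : ((x / d : ℕ) : ℝ) ≤ (x : ℝ) / d := Nat.cast_div_le
    have h4 : (1 : ℝ) ≤ (x : ℝ) / d := by
      rw [one_le_div hd0]
      exact_mod_cast hdx1
    rw [hM]
    push_cast
    linarith
  have hMl : (x : ℝ) / d ≤ M := by
    have h3 := Nat.lt_div_mul_add (a := x) (b := d) hd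
    have h4 : (x : ℝ) < (x / d : ℕ) * d + d := by exact_mod_cast h3
    rw [div_le_iff₀ hd0, hM]
    push_cast
    linarith
  have hlx : 0 < Real.log x := Real.log_pos (by exact_mod_cast (by omega : 1 < x))
  have hlog : Real.log x / 2 ≤ Real.log M := by
    have h3 : Real.log ((x : ℝ) / d) ≤ Real.log M := Real.log_le_log (by positivity) hMl
    rw [Real.log_div hx0.ne' hd0.ne'] at h3
    have h4 : 2 * Real.log d ≤ Real.log x := by
      have h5 : ((d : ℝ)) ^ 2 ≤ x := by exact_mod_cast hdx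
      have h6 := Real.log_le_log (by positivity) h5
      rwa [Real.log_pow, Nat.cast_ofNat] at h6
    linarith
  have hMpos : 0 < Real.log M := by linarith
  calc C * ((d : ℝ) / (Nat.totient d : ℝ)) * M / Real.log M
      ≤ C * ((d : ℝ) / (Nat.totient d : ℝ)) * (2 * (x / d)) / (Real.log x / 2) := by
        apply div_le_div₀
        · positivity
        · apply mul_le_mul_of_nonneg_left hMd (by positivity)
        · positivity
        · exact hlog
    _ = 4 * C * (x / (Nat.totient d * Real.log x)) := by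
        field_simp
        ring

/-- weighted form over a set of primes in an interval -/
theorem bt_win : ∃ C : ℝ, 1 ≤ C ∧ ∀ (y P : ℝ) (W : Finset ℕ), 2 ≤ y → y ≤ P →
    (∀ p ∈ W, p.Prime ∧ y ≤ p ∧ (p : ℝ) ≤ P) → ∀ d : ℕ, 1 ≤ d → (d : ℝ) ^ 2 ≤ y →
    ∑ p ∈ W.filter (fun p => d ∣ p - 1), 1 / (p : ℝ) ≤
      C * (Real.log P / Real.log y) / Nat.totient d := by
  classical
  obtain ⟨C, hC, h⟩ := bt_one
  refine ⟨2 * C * (1 / Real.log 2 + 1) + 2 * C / Real.log 2 + 1, ?_, ?_⟩
  · have h2 : 0 < Real.log 2 := Real.log_pos (by norm_num)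
    have : 0 ≤ 2 * C * (1 / Real.log 2 + 1) + 2 * C / Real.log 2 := by positivity
    linarith
  intro y P W hy hyP hW d hd hdy
  have hl2 : 0 < Real.log 2 := Real.log_pos (by norm_num)
  have hphi : (0 : ℝ) < Nat.totient d := by exact_mod_cast Nat.totient_pos.2 hd
  have hly : Real.log 2 ≤ Real.log y := Real.log_le_log (by norm_num) hy
  have hly0 : 0 < Real.log y := by linarith
  have hlyP : Real.log y ≤ Real.log P := Real.log_le_log (by linarith) hyP
  set A := W.filter (fun p => d ∣ p - 1) with hA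
  have hAW : ∀ p ∈ A, p ∈ W ∧ d ∣ p - 1 := fun p hp => mem_filter.1 hp
  -- one block
  have hblk : ∀ i ∈ A.image (Nat.log 2), ∑ p ∈ A.filter (fun p => Nat.log 2 p = i), 1 / (p : ℝ) ≤
      2 * C / (Nat.totient d * Real.log y) := by
    intro i hi
    obtain ⟨p0, hp0, rfl⟩ := mem_image.1 hi
    obtain ⟨hp0W, -⟩ := hAW p0 hp0
    obtain ⟨hp0p, hp0y, hp0P⟩ := hW p0 hp0W
    set i := Nat.log 2 p0 with hi'
    have hlt : p0 < 2 ^ (i + 1) := Nat.lt_pow_succ_log_self (by norm_num) p0
    have hltr : (p0 : ℝ) < 2 ^ (i + 1) := by exact_mod_cast hlt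
    have hcard : ((A.filter (fun p => Nat.log 2 p = i)).card : ℝ) ≤
        C * ((2 ^ (i + 1) : ℕ) / (Nat.totient d * Real.log ((2 ^ (i + 1) : ℕ) : ℝ))) := by
      refine le_trans ?_ (h (2 ^ (i + 1)) d hd ?_ ?_)
      · have : (A.filter (fun p => Nat.log 2 p = i)).card ≤
            ((Icc 1 (2 ^ (i + 1))).filter (fun p : ℕ => p.Prime ∧ d ∣ p - 1)).card := by
          apply card_le_card
          intro p hp
          obtain ⟨hpA, hpi⟩ := mem_filter.1 hp
          obtain ⟨hpW, hpd⟩ := hAW p hpA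
          have hpp := (hW p hpW).1
          rw [mem_filter, mem_Icc]
          refine ⟨⟨hpp.pos, ?_⟩, hpp, hpd⟩
          have : p < 2 ^ (Nat.log 2 p + 1) := Nat.lt_pow_succ_log_self (by norm_num) p
          rw [hpi] at this
          exact this.le
        exact_mod_cast this
      · have h3 : (d : ℝ) ^ 2 ≤ 2 ^ (i + 1) := by linarith
        exact_mod_cast h3
      · exact Nat.le_self_pow (by omega) 2
    have hlog : Real.log y ≤ Real.log ((2 ^ (i + 1) : ℕ) : ℝ) := by
      apply Real.log_le_log (by linarith)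
      push_cast
      linarith
    have hterm : ∀ p ∈ A.filter (fun p => Nat.log 2 p = i), 1 / (p : ℝ) ≤ 1 / 2 ^ i := by
      intro p hp
      obtain ⟨hpA, hpi⟩ := mem_filter.1 hp
      have hpp := (hW p (hAW p hpA).1).1
      have h3 : 2 ^ i ≤ p := by
        rw [← hpi]
        exact Nat.pow_log_le_self 2 hpp.ne_zero
      apply one_div_le_one_div_of_le (by positivity)
      exact_mod_cast h3
    calc ∑ p ∈ A.filter (fun p => Nat.log 2 p = i), 1 / (p : ℝ)
        ≤ (A.filter (fun p => Nat.log 2 p = i)).card * (1 / 2 ^ i) := by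
          refine (sum_le_sum hterm).trans ?_
          rw [sum_const, nsmul_eq_mul]
      _ ≤ C * ((2 ^ (i + 1) : ℕ) / (Nat.totient d * Real.log ((2 ^ (i + 1) : ℕ) : ℝ))) *
          (1 / 2 ^ i) := mul_le_mul_of_nonneg_right hcard (by positivity)
      _ ≤ C * ((2 ^ (i + 1) : ℕ) / (Nat.totient d * Real.log y)) * (1 / 2 ^ i) := by
          apply mul_le_mul_of_nonneg_right _ (by positivity)
          apply mul_le_mul_of_nonneg_left _ (by linarith)
          apply div_le_div_of_nonneg_left (by positivity) (by positivity)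
          exact mul_le_mul_of_nonneg_left hlog hphi.le
      _ = 2 * C / (Nat.totient d * Real.log y) := by
          push_cast
          rw [pow_succ]
          field_simp
  have hsum : ∑ p ∈ A, 1 / (p : ℝ) = ∑ i ∈ A.image (Nat.log 2),
      ∑ p ∈ A.filter (fun p => Nat.log 2 p = i), 1 / (p : ℝ) := by
    rw [sum_fiberwise_of_maps_to]
    intro p hp
    exact mem_image_of_mem _ hp
  have hnum : ((A.image (Nat.log 2)).card : ℝ) ≤ Real.log P / Real.log 2 + 1 := by
    have h3 : A.image (Nat.log 2) ⊆ range (⌊Real.log P / Real.log 2⌋₊ + 1) := by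
      intro i hi
      obtain ⟨p, hp, rfl⟩ := mem_image.1 hi
      obtain ⟨hpp, hpy, hpP⟩ := hW p (hAW p hp).1
      rw [mem_range, Nat.lt_succ_iff]
      apply Nat.le_floor
      rw [le_div_iff₀ hl2, ← Real.log_pow]
      apply Real.log_le_log (by positivity)
      have h4 : 2 ^ Nat.log 2 p ≤ p := Nat.pow_log_le_self 2 hpp.ne_zero
      have h5 : (2 : ℝ) ^ Nat.log 2 p ≤ p := by exact_mod_cast h4
      linarith
    have h4 := card_le_card h3
    rw [card_range] at h4
    have h5 : ((A.image (Nat.log 2)).card : ℝ) ≤ (⌊Real.log P / Real.log 2⌋₊ : ℝ) + 1 := by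
      exact_mod_cast h4
    have h6 : (⌊Real.log P / Real.log 2⌋₊ : ℝ) ≤ Real.log P / Real.log 2 :=
      Nat.floor_le (by
        have : 0 ≤ Real.log P := by linarith
        positivity)
    linarith
  rw [hsum]
  have hP0 : 0 < Real.log P := by linarith
  have hr1 : 1 ≤ Real.log P / Real.log y := by rwa [one_le_div hly0]
  calc ∑ i ∈ A.image (Nat.log 2), ∑ p ∈ A.filter (fun p => Nat.log 2 p = i), 1 / (p : ℝ)
      ≤ (A.image (Nat.log 2)).card * (2 * C / (Nat.totient d * Real.log y)) := by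
        refine (sum_le_sum hblk).trans ?_
        rw [sum_const, nsmul_eq_mul]
    _ ≤ (Real.log P / Real.log 2 + 1) * (2 * C / (Nat.totient d * Real.log y)) := by
        apply mul_le_mul_of_nonneg_right hnum (by positivity)
    _ = (2 * C / Real.log 2 * (Real.log P / Real.log y) + 2 * C / Real.log y) /
          Nat.totient d := by
        field_simp
    _ ≤ (2 * C / Real.log 2 * (Real.log P / Real.log y) +
          2 * C / Real.log 2 * (Real.log P / Real.log y)) / Nat.totient d := by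
        apply div_le_div_of_nonneg_right _ hphi.le
        apply add_le_add_right
        calc 2 * C / Real.log y ≤ 2 * C / Real.log 2 :=
              div_le_div_of_nonneg_left (by positivity) hl2 hly
          _ ≤ 2 * C / Real.log 2 * (Real.log P / Real.log y) :=
              le_mul_of_one_le_right (by positivity) hr1
    _ ≤ _ := by
        apply div_le_div_of_nonneg_right _ hphi.le
        have h7 : 2 * C / Real.log 2 * (Real.log P / Real.log y) +
          2 * C / Real.log 2 * (Real.log P / Real.log y) =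
          (2 * C * (1 / Real.log 2) + 2 * C / Real.log 2) * (Real.log P / Real.log y) := by ring
        rw [h7]
        apply mul_le_mul_of_nonneg_right _ (by linarith)
        have : 0 ≤ 2 * C := by linarith
        nlinarith

/-- the primes of a block -/
def Pb (j : ℕ) : Finset ℕ := (range (2 ^ (j + 1))).filter (fun l => l.Prime ∧ Nat.log 2 l = j)

lemma mem_Pb {j l : ℕ} : l ∈ Pb j ↔ l.Prime ∧ Nat.log 2 l = j := by
  unfold Pb
  rw [mem_filter, mem_range]
  constructor
  · exact fun h => h.2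
  · intro h
    refine ⟨?_, h⟩
    rw [← h.2]
    exact Nat.lt_pow_succ_log_self (by norm_num) l

/-- the sum of the `1 / (l - 1)` over a block -/
theorem blk_sum : ∃ C : ℝ, 1 ≤ C ∧ ∀ j : ℕ, ∑ l ∈ Pb j, 1 / ((l : ℝ) - 1) ≤ C / (j + 1) := by
  classical
  obtain ⟨C, hC, h⟩ := bt_one
  have hl2 : 0 < Real.log 2 := Real.log_pos (by norm_num)
  refine ⟨max 1 (4 * C / Real.log 2), le_max_left _ _, fun j => ?_⟩
  have hj0 : (0 : ℝ) < (j : ℝ) + 1 := by positivity
  have h1 := h (2 ^ (j + 1)) 1 le_rfl (by simpa using Nat.one_le_two_pow) (Nat.le_self_pow (by omega) 2)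
  have h2 : ((Pb j).card : ℝ) ≤ C * (2 ^ (j + 1) / ((j + 1) * Real.log 2)) := by
    have h3 : ((Pb j).card : ℝ) ≤
        (((Icc 1 (2 ^ (j + 1))).filter (fun p : ℕ => p.Prime ∧ 1 ∣ p - 1)).card : ℝ) := by
      have : (Pb j).card ≤ ((Icc 1 (2 ^ (j + 1))).filter (fun p : ℕ => p.Prime ∧ 1 ∣ p - 1)).card := by
        apply card_le_card
        intro l hl
        unfold Pb at hl
        rw [mem_filter, mem_range] at hl
        rw [mem_filter, mem_Icc]
        exact ⟨⟨hl.2.1.pos, hl.1.le⟩, hl.2.1, one_dvd _⟩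
      exact_mod_cast this
    refine h3.trans (h1.trans (le_of_eq ?_))
    push_cast
    rw [Nat.totient_one, Nat.cast_one, one_mul, Real.log_pow]
    push_cast
    rfl
  have h4 : ∀ l ∈ Pb j, 1 / ((l : ℝ) - 1) ≤ 2 / 2 ^ j := by
    intro l hl
    obtain ⟨hlp, hlj⟩ := mem_Pb.1 hl
    have h5 : 2 ^ j ≤ l := by
      rw [← hlj]
      exact Nat.pow_log_le_self 2 hlp.ne_zero
    have h6 : (2 : ℝ) ^ j ≤ l := by exact_mod_cast h5
    have h7 : (2 : ℝ) ≤ l := by exact_mod_cast hlp.two_le
    rw [div_le_div_iff₀ (by linarith) (by positivity)]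
    linarith
  calc ∑ l ∈ Pb j, 1 / ((l : ℝ) - 1) ≤ (Pb j).card * (2 / 2 ^ j) := by
        refine (sum_le_sum h4).trans ?_
        rw [sum_const, nsmul_eq_mul]
    _ ≤ C * (2 ^ (j + 1) / ((j + 1) * Real.log 2)) * (2 / 2 ^ j) :=
        mul_le_mul_of_nonneg_right h2 (by positivity)
    _ = 4 * C / Real.log 2 / (j + 1) := by
        rw [pow_succ]
        field_simp
        ring
    _ ≤ _ := div_le_div_of_nonneg_right (le_max_right _ _) hj0.le

/-- first moment over a block -/
lemma mom_one (j : ℕ) (W : Finset ℕ) (hW : ∀ p ∈ W, p.Prime) (w : ℕ → ℝ) (R D0 s : ℝ)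
    (hR : 0 ≤ R)
    (hBT : ∀ d : ℕ, 1 ≤ d → (d : ℝ) ≤ D0 → ∑ p ∈ W.filter (fun p => d ∣ p - 1), w p ≤
      R / Nat.totient d)
    (hs : ∑ l ∈ Pb j, 1 / ((l : ℝ) - 1) ≤ s) (hj : (2 : ℝ) ^ (j + 1) ≤ D0) :
    ∑ p ∈ W, w p * ((Qs j p).card : ℝ) ≤ R * s := by
  classical
  have h1 : ∀ p ∈ W, w p * ((Qs j p).card : ℝ) = ∑ l ∈ Pb j, if l ∣ p - 1 then w p else 0 := by
    intro p hp
    have h2 : Qs j p = (Pb j).filter (fun l => l ∣ p - 1) := by
      ext l
      rw [mem_Qs (hW p hp), mem_filter, mem_Pb]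
      tauto
    rw [h2, ← sum_filter, sum_const, nsmul_eq_mul, mul_comm]
  rw [sum_congr rfl h1, sum_comm]
  have h3 : ∀ l ∈ Pb j, (∑ p ∈ W, if l ∣ p - 1 then w p else 0) ≤ R * (1 / ((l : ℝ) - 1)) := by
    intro l hl
    obtain ⟨hlp, hlj⟩ := mem_Pb.1 hl
    rw [← sum_filter]
    refine (hBT l hlp.one_le ?_).trans (le_of_eq ?_)
    · refine le_trans ?_ hj
      have : l < 2 ^ (j + 1) := by
        rw [← hlj]
        exact Nat.lt_pow_succ_log_self (by norm_num) l
      exact_mod_cast this.le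
    · rw [Nat.totient_prime hlp, Nat.cast_sub hlp.one_le, Nat.cast_one, mul_one_div]
  refine (sum_le_sum h3).trans ?_
  rw [← mul_sum]
  exact mul_le_mul_of_nonneg_left hs hR

/-- second moment over a block -/
lemma mom_two (j : ℕ) (W : Finset ℕ) (hW : ∀ p ∈ W, p.Prime) (w : ℕ → ℝ)
    (R D0 s : ℝ)
    (hR : 0 ≤ R)
    (hBT : ∀ d : ℕ, 1 ≤ d → (d : ℝ) ≤ D0 → ∑ p ∈ W.filter (fun p => d ∣ p - 1), w p ≤
      R / Nat.totient d)
    (hs : ∑ l ∈ Pb j, 1 / ((l : ℝ) - 1) ≤ s) (hj : (4 : ℝ) ^ (j + 1) ≤ D0) :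
    ∑ p ∈ W, w p * ((Qs j p).card : ℝ) ^ 2 ≤ R * (s + s ^ 2) := by
  classical
  have hPb1 : ∀ l ∈ Pb j, (1 : ℝ) ≤ (l : ℝ) - 1 := by
    intro l hl
    have : (2 : ℝ) ≤ l := by exact_mod_cast (mem_Pb.1 hl).1.two_le
    linarith
  have hlt : ∀ l ∈ Pb j, l < 2 ^ (j + 1) := by
    intro l hl
    obtain ⟨hlp, hlj⟩ := mem_Pb.1 hl
    rw [← hlj]
    exact Nat.lt_pow_succ_log_self (by norm_num) l
  have hs0 : 0 ≤ ∑ l ∈ Pb j, 1 / ((l : ℝ) - 1) := by
    apply sum_nonneg
    intro l hl
    have := hPb1 l hl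
    positivity
  have h1 : ∀ p ∈ W, w p * ((Qs j p).card : ℝ) ^ 2 =
      ∑ l ∈ Pb j, ∑ l' ∈ Pb j, if l ∣ p - 1 ∧ l' ∣ p - 1 then w p else 0 := by
    intro p hp
    have h2 : Qs j p = (Pb j).filter (fun l => l ∣ p - 1) := by
      ext l
      rw [mem_Qs (hW p hp), mem_filter, mem_Pb]
      tauto
    have h3 : ((Qs j p).card : ℝ) = ∑ l ∈ Pb j, if l ∣ p - 1 then (1 : ℝ) else 0 := by
      rw [h2, ← sum_filter, sum_const, nsmul_eq_mul, mul_one]
    rw [h3, sq, sum_mul_sum, mul_sum]
    refine sum_congr rfl fun l _ => ?_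
    rw [mul_sum]
    refine sum_congr rfl fun l' _ => ?_
    by_cases h4 : l ∣ p - 1 <;> by_cases h5 : l' ∣ p - 1 <;> simp [h4, h5]
  rw [sum_congr rfl h1, sum_comm]
  have h3 : ∀ l ∈ Pb j, ∑ p ∈ W, ∑ l' ∈ Pb j, (if l ∣ p - 1 ∧ l' ∣ p - 1 then w p else 0) ≤
      R * (1 / ((l : ℝ) - 1)) + R * (1 / ((l : ℝ) - 1)) * s := by
    intro l hl
    obtain ⟨hlp, hlj⟩ := mem_Pb.1 hl
    rw [sum_comm]
    have h4 : ∀ l' ∈ Pb j, ∑ p ∈ W, (if l ∣ p - 1 ∧ l' ∣ p - 1 then w p else 0) ≤
        (if l' = l then R * (1 / ((l : ℝ) - 1)) else 0) +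
          R * (1 / ((l : ℝ) - 1)) * (1 / ((l' : ℝ) - 1)) := by
      intro l' hl'
      obtain ⟨hlp', hlj'⟩ := mem_Pb.1 hl'
      have h5 := hPb1 l hl
      have h6 := hPb1 l' hl'
      by_cases he : l' = l
      · rw [if_pos he, he]
        have h7 : ∑ p ∈ W, (if l ∣ p - 1 ∧ l ∣ p - 1 then w p else 0) ≤ R * (1 / ((l : ℝ) - 1)) := by
          rw [← sum_filter]
          have h8 : W.filter (fun p => l ∣ p - 1 ∧ l ∣ p - 1) = W.filter (fun p => l ∣ p - 1) := by
            apply filter_congr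
            intro p _
            exact and_self_iff
          rw [h8]
          refine (hBT l hlp.one_le ?_).trans (le_of_eq ?_)
          · refine le_trans ?_ hj
            have h9 : (l : ℝ) ≤ 2 ^ (j + 1) := by exact_mod_cast (hlt l hl).le
            refine h9.trans ?_
            exact pow_le_pow_left₀ (by norm_num) (by norm_num) _
          · rw [Nat.totient_prime hlp, Nat.cast_sub hlp.one_le, Nat.cast_one, mul_one_div]
        have h8 : 0 ≤ R * (1 / ((l : ℝ) - 1)) * (1 / ((l : ℝ) - 1)) := by positivity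
        linarith
      · rw [if_neg he, zero_add, ← sum_filter]
        have hcop : l.Coprime l' := (Nat.coprime_primes hlp hlp').2 (Ne.symm he)
        have h8 : W.filter (fun p => l ∣ p - 1 ∧ l' ∣ p - 1) = W.filter (fun p => l * l' ∣ p - 1) := by
          apply filter_congr
          intro p _
          constructor
          · rintro ⟨h9, h10⟩
            exact hcop.mul_dvd_of_dvd_of_dvd h9 h10
          · intro h9
            exact ⟨(dvd_mul_right _ _).trans h9, (dvd_mul_left _ _).trans h9⟩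
        rw [h8]
        refine (hBT (l * l') (Nat.mul_pos hlp.pos hlp'.pos) ?_).trans (le_of_eq ?_)
        · refine le_trans ?_ hj
          have h9 : (l : ℝ) ≤ 2 ^ (j + 1) := by exact_mod_cast (hlt l hl).le
          have h10 : (l' : ℝ) ≤ 2 ^ (j + 1) := by exact_mod_cast (hlt l' hl').le
          push_cast
          calc (l : ℝ) * l' ≤ 2 ^ (j + 1) * 2 ^ (j + 1) :=
                mul_le_mul h9 h10 (by positivity) (by positivity)
            _ = 4 ^ (j + 1) := by rw [← mul_pow]; norm_num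
        · rw [Nat.totient_mul hcop, Nat.totient_prime hlp, Nat.totient_prime hlp']
          push_cast [Nat.cast_sub hlp.one_le, Nat.cast_sub hlp'.one_le]
          field_simp
    refine (sum_le_sum h4).trans ?_
    rw [sum_add_distrib, ← mul_sum]
    apply add_le_add
    · rw [sum_ite_eq' (Pb j) l, if_pos hl]
    · apply mul_le_mul_of_nonneg_left hs
      have := hPb1 l hl
      positivity
  refine (sum_le_sum h3).trans ?_
  rw [sum_add_distrib, ← sum_mul, ← mul_sum]
  have h4 : 0 ≤ s := hs0.trans hs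
  calc R * ∑ l ∈ Pb j, 1 / ((l : ℝ) - 1) + R * (∑ l ∈ Pb j, 1 / ((l : ℝ) - 1)) * s
      ≤ R * s + R * s * s := by
        apply add_le_add
        · exact mul_le_mul_of_nonneg_left hs hR
        · exact mul_le_mul_of_nonneg_right (mul_le_mul_of_nonneg_left hs hR) h4
    _ = R * (s + s ^ 2) := by ring

/-- the number of the large prime factors of `p - 1` -/
lemma large_card (p j : ℕ) (hj : 1 ≤ j) (hp : p.Prime) (P : ℝ) (hP : (p : ℝ) ≤ P) :
    ((((p - 1).primeFactors.filter (fun l => j ≤ Nat.log 2 l)).card : ℕ) : ℝ) ≤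
      Real.log P / (j * Real.log 2) := by
  classical
  set A := (p - 1).primeFactors.filter (fun l => j ≤ Nat.log 2 l) with hA
  have hl2 : 0 < Real.log 2 := Real.log_pos (by norm_num)
  have hj0 : (0 : ℝ) < j := by exact_mod_cast hj
  rw [le_div_iff₀ (by positivity)]
  have hp1 : p - 1 ≠ 0 := by have := hp.two_le; omega
  have h1 : ∏ l ∈ A, l ∣ p - 1 := by
    apply (prod_dvd_prod_of_subset _ _ _ (filter_subset _ _)).trans
    exact Nat.prod_primeFactors_dvd (p - 1)
  have h2 : ∏ l ∈ A, l ≤ p - 1 := Nat.le_of_dvd (Nat.pos_of_ne_zero hp1) h1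
  have h3 : ∀ l ∈ A, 2 ^ j ≤ l := by
    intro l hl
    obtain ⟨h4, h5⟩ := mem_filter.1 hl
    exact (Nat.pow_le_pow_right (by norm_num) h5).trans
      (Nat.pow_log_le_self 2 (Nat.prime_of_mem_primeFactors h4).ne_zero)
  have h4 : (2 ^ j) ^ A.card ≤ ∏ l ∈ A, l := by
    rw [← prod_const]
    exact prod_le_prod' h3
  have h5 : (2 ^ j) ^ A.card ≤ p := h4.trans (h2.trans (Nat.sub_le _ _))
  have h6 : ((2 : ℝ) ^ j) ^ A.card ≤ P := by
    refine le_trans ?_ hP
    exact_mod_cast h5
  have h7 := Real.log_le_log (by positivity) h6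
  rw [Real.log_pow, Real.log_pow] at h7
  exact h7

end Pool.Agent.KS6_18
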