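import Mathlib
import Pool.Agent.KS6_18.BT

set_option autoImplicit false

/-! All blocks together. -/

namespace Pool.Agent.KS6_18

open Finset Filter

lemma sum_cubes (j0 j2 : ℕ) : ∑ j ∈ Ico j0 j2, 1 / ((j : ℝ) + 1) ^ 3 ≤ 2 / ((j0 : ℝ) + 1) ^ 2 := by
  have key : ∀ j : ℕ, 1 / ((j : ℝ) + 1) ^ 3 ≤ 2 * (1 / ((j : ℝ) + 1) ^ 2 - 1 / ((j : ℝ) + 2) ^ 2) := by
    intro j
    have hj : (0 : ℝ) ≤ j := Nat.cast_nonneg j
    have e : 2 * (1 / ((j : ℝ) + 1) ^ 2 - 1 / ((j : ℝ) + 2) ^ 2) - 1 / ((j : ℝ) + 1) ^ 3 =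
        (3 * (j : ℝ) ^ 2 + 6 * j + 2) / (((j : ℝ) + 1) ^ 3 * ((j : ℝ) + 2) ^ 2) := by
      field_simp
      ring
    have h2 : 0 ≤ (3 * (j : ℝ) ^ 2 + 6 * j + 2) / (((j : ℝ) + 1) ^ 3 * ((j : ℝ) + 2) ^ 2) := by
      positivity
    linarith
  rcases le_or_gt j2 j0 with h | h
  · rw [Ico_eq_empty (by omega), sum_empty]
    positivity
  · refine (sum_le_sum fun j _ => key j).trans ?_
    rw [← mul_sum]
    have h3 : ∀ n : ℕ, ∑ j ∈ Ico j0 (j0 + n), (1 / ((j : ℝ) + 1) ^ 2 - 1 / ((j : ℝ) + 2) ^ 2) =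
        1 / ((j0 : ℝ) + 1) ^ 2 - 1 / ((j0 + n : ℕ) + 1 : ℝ) ^ 2 := by
      intro n
      induction n with
      | zero => simp
      | succ n ih =>
        rw [← add_assoc, sum_Ico_succ_top (by omega), ih]
        push_cast
        ring
    obtain ⟨n, rfl⟩ : ∃ n, j2 = j0 + n := ⟨j2 - j0, by omega⟩
    rw [h3]
    have h4 : (0 : ℝ) ≤ 1 / ((j0 + n : ℕ) + 1 : ℝ) ^ 2 := by positivity
    have h5 : 2 / ((j0 : ℝ) + 1) ^ 2 = 2 * (1 / ((j0 : ℝ) + 1) ^ 2) := by ring
    rw [h5]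
    linarith

/-- exponential decay -/
lemma exp_dec (a : ℝ) (ha : 0 < a) (m : ℕ) : ∃ C : ℝ, 1 ≤ C ∧ ∀ j : ℕ,
    ((j : ℝ) + 1) ^ m ≤ C * (2 : ℝ) ^ (a * j) := by
  have hl2 : 0 < Real.log 2 := Real.log_pos (by norm_num)
  have h1 : ∀ᶠ t : ℝ in atTop, t ^ m ≤ Real.exp (a * Real.log 2 * t) := by
    have h2 := (isLittleO_pow_exp_pos_mul_atTop (k := m) (b := a * Real.log 2)
      (by positivity)).bound (show (0 : ℝ) < 1 by norm_num)
    filter_upwards [h2, eventually_ge_atTop 0] with t ht ht0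
    rw [Real.norm_of_nonneg (by positivity), Real.norm_of_nonneg (Real.exp_pos _).le, one_mul] at ht
    exact ht
  obtain ⟨T, hT⟩ := eventually_atTop.1 h1
  refine ⟨(2 : ℝ) ^ a + (|T| + 2) ^ m + 1, ?_, fun j => ?_⟩
  · have : (0 : ℝ) < (2 : ℝ) ^ a := by positivity
    have : (0 : ℝ) ≤ (|T| + 2) ^ m := by positivity
    linarith
  · have hj : (0 : ℝ) ≤ j := Nat.cast_nonneg j
    have h2a : (0 : ℝ) < (2 : ℝ) ^ a := by positivity
    have hpow : (0 : ℝ) < (2 : ℝ) ^ (a * j) := by positivity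
    have hpow1 : (1 : ℝ) ≤ (2 : ℝ) ^ (a * j) :=
      Real.one_le_rpow (by norm_num) (by positivity)
    by_cases hc : T ≤ (j : ℝ) + 1
    · have h3 := hT _ hc
      have h4 : Real.exp (a * Real.log 2 * ((j : ℝ) + 1)) = (2 : ℝ) ^ a * (2 : ℝ) ^ (a * j) := by
        rw [← Real.rpow_add (by norm_num), Real.rpow_def_of_pos (by norm_num)]
        congr 1
        ring
      rw [h4] at h3
      refine h3.trans (mul_le_mul_of_nonneg_right ?_ hpow.le)
      have : (0 : ℝ) ≤ (|T| + 2) ^ m := by positivity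
      linarith
    · push Not at hc
      have h5 : (j : ℝ) + 1 ≤ |T| + 2 := by
        have := le_abs_self T
        linarith
      have h6 : ((j : ℝ) + 1) ^ m ≤ (|T| + 2) ^ m := pow_le_pow_left₀ (by positivity) h5 m
      calc ((j : ℝ) + 1) ^ m ≤ (|T| + 2) ^ m * 1 := by rw [mul_one]; exact h6
        _ ≤ ((2 : ℝ) ^ a + (|T| + 2) ^ m + 1) * (2 : ℝ) ^ (a * j) := by
            apply mul_le_mul _ hpow1 (by norm_num) (by positivity)
            linarith

/-- **the master estimate** -/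
theorem master (a : ℝ) (ha : 0 < a) : ∃ C : ℝ, 1 ≤ C ∧
    ∀ (c : ℕ → (p : ℕ) → ZMod p) (k N : ℕ) (E : Finset ℤ), E.Nonempty →
    (∀ n ∈ E, n.natAbs ≤ N) → 1 ≤ N → ∀ (W : Finset ℕ) (w : ℕ → ℝ) (y P C1 V R R' D0 : ℝ)
    (j0 j1 j2 : ℕ), 1 < y → (∀ p ∈ W, p.Prime ∧ y ≤ p ∧ (p : ℝ) ≤ P) →
    (∀ p ∈ W, 0 ≤ w p ∧ w p ≤ V / p) → 0 ≤ V → 1 ≤ P → 0 ≤ R → 0 ≤ R' →
    Real.log (2 * N ^ k : ℝ) / Real.log y ≤ C1 →
    (∀ d : ℕ, 1 ≤ d → (d : ℝ) ≤ D0 → ∑ p ∈ W.filter (fun p => d ∣ p - 1), w p ≤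
      R / Nat.totient d) →
    (4 : ℝ) ^ j1 ≤ D0 → 1 ≤ j1 → Real.log P ≤ (2 : ℝ) ^ (a * j1) * (j1 * Real.log 2) →
    (∀ j ∈ Ico j0 j2, V * C1 * ((2 : ℝ) ^ (a * j) * ((j : ℝ) + 1) ^ (4 * k) / 2 ^ j) ≤
      R' / ((j : ℝ) + 1) ^ 3) →
    ((Eqp k E).card : ℝ) * (2 * (j2 : ℝ) ^ (4 * k) * P) ≤ (E.card : ℝ) ^ (2 * k) →
    ∑ j ∈ Ico j0 j2, ∑ n ∈ E, ∑ p ∈ W, w p * ((Bs c j p n).card : ℝ) ≤
      E.card * (C * ((R + R') / ((j0 : ℝ) + 1) ^ 2 + R * Real.log P / (j1 : ℝ) ^ 3)) := by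
  classical
  obtain ⟨Cb, hCb, hblk⟩ := blk_sum
  obtain ⟨Ca, hCa, hexp⟩ := exp_dec a ha 3
  have hl2 : 0 < Real.log 2 := Real.log_pos (by norm_num)
  set C : ℝ := 2 * ((Cb + Cb ^ 2) * Ca + Cb + 2) + 1 / Real.log 2 with hC
  have hC1' : 1 ≤ C := by
    have : 0 < 1 / Real.log 2 := by positivity
    have : 0 ≤ (Cb + Cb ^ 2) * Ca := by positivity
    linarith
  refine ⟨C, hC1', ?_⟩
  intro c k N E hE hN hN1 W w y P C1 V R R' D0 j0 j1 j2 hy hW hw hV hP hR hR' hC1 hBT hD0 hj1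
    hJ hbig hEq
  have hEc : (0 : ℝ) < E.card := by exact_mod_cast hE.card_pos
  have hWp : ∀ p ∈ W, p.Prime := fun p hp => (hW p hp).1
  have hw0 : ∀ p ∈ W, 0 ≤ w p := fun p hp => (hw p hp).1
  have hlP : 0 ≤ Real.log P := Real.log_nonneg hP
  have hD1 : (1 : ℝ) ≤ D0 := le_trans (one_le_pow₀ (by norm_num)) hD0
  have hsumw : ∑ p ∈ W, w p ≤ R := by
    have h := hBT 1 le_rfl (by simpa using hD1)
    rw [Nat.totient_one, Nat.cast_one, div_one] at h
    have e : W.filter (fun p => 1 ∣ p - 1) = W := filter_true_of_mem fun p _ => one_dvd _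
    rwa [e] at h
  -- one block
  have hone : ∀ j ∈ Ico j0 j2, ∑ n ∈ E, ∑ p ∈ W, w p * ((Bs c j p n).card : ℝ) ≤
      E.card * (((Cb + Cb ^ 2) * Ca * R + Cb * R + 2 * R') * (1 / ((j : ℝ) + 1) ^ 3) +
        (if j1 ≤ j then 1 / (j1 : ℝ) ^ 2 * ∑ p ∈ W, w p * ((Qs j p).card : ℝ) else 0)) := by
    intro j hj
    obtain ⟨hj0, hj2⟩ := mem_Ico.1 hj
    have hjr : (0 : ℝ) < (j : ℝ) + 1 := by positivity
    set K : ℝ := ((j : ℝ) + 1) ^ 2 with hK
    set J : ℝ := (2 : ℝ) ^ (a * j) with hJd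
    have hK0 : 0 < K := by positivity
    have hJ0 : 0 < J := by positivity
    have hKk : K ^ (2 * k) = ((j : ℝ) + 1) ^ (4 * k) := by
      rw [hK, ← pow_mul]
      congr 1
      ring
    have hd := dyadic c k N j E hE hN W w y P J K V hy hN1 hW hw hJ0.le hK0 hV (by linarith) (by
      rw [hKk]
      have h1 : ((j : ℝ) + 1) ^ (4 * k) ≤ (j2 : ℝ) ^ (4 * k) := by
        apply pow_le_pow_left₀ hjr.le
        exact_mod_cast hj2
      have h2 : (1 : ℝ) ≤ 2 ^ j := one_le_pow₀ (by norm_num)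
      calc ((Eqp k E).card : ℝ) * (2 * ((j : ℝ) + 1) ^ (4 * k) * P)
          ≤ ((Eqp k E).card : ℝ) * (2 * (j2 : ℝ) ^ (4 * k) * P) := by
            apply mul_le_mul_of_nonneg_left _ (Nat.cast_nonneg _)
            apply mul_le_mul_of_nonneg_right _ (by linarith)
            linarith
        _ ≤ (E.card : ℝ) ^ (2 * k) := hEq
        _ = 1 * (E.card : ℝ) ^ (2 * k) := (one_mul _).symm
        _ ≤ 2 ^ j * (E.card : ℝ) ^ (2 * k) :=
            mul_le_mul_of_nonneg_right h2 (by positivity))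
    refine hd.trans (mul_le_mul_of_nonneg_left ?_ hEc.le)
    -- third term
    have h3 : V * (2 * (J * (Real.log (2 * N ^ k : ℝ) / Real.log y)) * K ^ (2 * k) / 2 ^ j) ≤
        2 * R' * (1 / ((j : ℝ) + 1) ^ 3) := by
      rw [hKk]
      calc V * (2 * (J * (Real.log (2 * N ^ k : ℝ) / Real.log y)) * ((j : ℝ) + 1) ^ (4 * k) / 2 ^ j)
          = 2 * (V * (J * ((j : ℝ) + 1) ^ (4 * k) / 2 ^ j)) *
            (Real.log (2 * N ^ k : ℝ) / Real.log y) := by ring
        _ ≤ 2 * (V * (J * ((j : ℝ) + 1) ^ (4 * k) / 2 ^ j)) * C1 := by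
            apply mul_le_mul_of_nonneg_left hC1 (by positivity)
        _ = 2 * (V * C1 * (J * ((j : ℝ) + 1) ^ (4 * k) / 2 ^ j)) := by ring
        _ ≤ 2 * (R' / ((j : ℝ) + 1) ^ 3) := mul_le_mul_of_nonneg_left (hbig j hj) (by norm_num)
        _ = _ := by ring
    have hR3 : 0 ≤ (Cb + Cb ^ 2) * Ca * R * (1 / ((j : ℝ) + 1) ^ 3) := by positivity
    have hR4 : 0 ≤ Cb * R * (1 / ((j : ℝ) + 1) ^ 3) := by positivity
    rcases lt_or_ge j j1 with hlt | hge
    · rw [if_neg (by omega), add_zero]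
      have hs : ∑ l ∈ Pb j, 1 / ((l : ℝ) - 1) ≤ Cb / (j + 1) := hblk j
      have hpow4 : (4 : ℝ) ^ (j + 1) ≤ D0 := by
        refine le_trans ?_ hD0
        exact pow_le_pow_right₀ (by norm_num) (by omega)
      have hpow2 : (2 : ℝ) ^ (j + 1) ≤ D0 :=
        le_trans (pow_le_pow_left₀ (by norm_num) (by norm_num) _) hpow4
      have hm1 := mom_one j W hWp w R D0 _ hR hBT hs hpow2
      have hm2 := mom_two j W hWp w R D0 _ hR hBT hs hpow4
      -- first term
      have h1 : ∑ p ∈ W.filter (fun p => J < ((Qs j p).card : ℝ)), w p * ((Qs j p).card : ℝ) ≤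
          (Cb + Cb ^ 2) * Ca * R * (1 / ((j : ℝ) + 1) ^ 3) := by
        have h4 : ∑ p ∈ W.filter (fun p => J < ((Qs j p).card : ℝ)), w p * ((Qs j p).card : ℝ) ≤
            1 / J * ∑ p ∈ W, w p * ((Qs j p).card : ℝ) ^ 2 := by
          rw [mul_sum]
          calc ∑ p ∈ W.filter (fun p => J < ((Qs j p).card : ℝ)), w p * ((Qs j p).card : ℝ)
              ≤ ∑ p ∈ W.filter (fun p => J < ((Qs j p).card : ℝ)),
                1 / J * (w p * ((Qs j p).card : ℝ) ^ 2) := by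
                apply sum_le_sum
                intro p hp
                obtain ⟨hpW, hpJ⟩ := mem_filter.1 hp
                have h5 := hw0 p hpW
                rw [one_div, ← div_eq_inv_mul, le_div_iff₀ hJ0]
                have h6 : (0 : ℝ) ≤ (Qs j p).card := Nat.cast_nonneg _
                calc w p * ((Qs j p).card : ℝ) * J ≤ w p * ((Qs j p).card : ℝ) * (Qs j p).card :=
                      mul_le_mul_of_nonneg_left hpJ.le (by positivity)
                  _ = _ := by ring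
            _ ≤ _ := by
                apply sum_le_sum_of_subset_of_nonneg (filter_subset _ _)
                intro p hp _
                have := hw0 p hp
                positivity
        have hs0 : Cb / ((j : ℝ) + 1) ≤ Cb := by
          apply div_le_self (by linarith)
          have : (0 : ℝ) ≤ j := Nat.cast_nonneg j
          linarith
        have hs1 : 0 ≤ Cb / ((j : ℝ) + 1) := by positivity
        have h5 : R * (Cb / (j + 1) + (Cb / (j + 1)) ^ 2) ≤ R * (Cb + Cb ^ 2) := by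
          apply mul_le_mul_of_nonneg_left _ hR
          apply add_le_add hs0
          exact pow_le_pow_left₀ hs1 hs0 2
        have h6 : 1 / J ≤ Ca * (1 / ((j : ℝ) + 1) ^ 3) := by
          rw [mul_one_div, div_le_div_iff₀ hJ0 (by positivity), one_mul]
          exact hexp j
        calc ∑ p ∈ W.filter (fun p => J < ((Qs j p).card : ℝ)), w p * ((Qs j p).card : ℝ)
            ≤ 1 / J * ∑ p ∈ W, w p * ((Qs j p).card : ℝ) ^ 2 := h4
          _ ≤ 1 / J * (R * (Cb + Cb ^ 2)) :=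
              mul_le_mul_of_nonneg_left (hm2.trans h5) (by positivity)
          _ ≤ Ca * (1 / ((j : ℝ) + 1) ^ 3) * (R * (Cb + Cb ^ 2)) :=
              mul_le_mul_of_nonneg_right h6 (by positivity)
          _ = _ := by ring
      have h2 : 1 / K * ∑ p ∈ W, w p * ((Qs j p).card : ℝ) ≤ Cb * R * (1 / ((j : ℝ) + 1) ^ 3) := by
        calc 1 / K * ∑ p ∈ W, w p * ((Qs j p).card : ℝ) ≤ 1 / K * (R * (Cb / (j + 1))) :=
              mul_le_mul_of_nonneg_left hm1 (by positivity)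
          _ = _ := by
              rw [hK]
              field_simp
      linarith
    · rw [if_pos hge]
      have hj1r : (1 : ℝ) ≤ j1 := by exact_mod_cast hj1
      have hjj : (j1 : ℝ) ≤ j := by exact_mod_cast hge
      have h1 : W.filter (fun p => J < ((Qs j p).card : ℝ)) = ∅ := by
        rw [filter_eq_empty_iff]
        intro p hp hlt
        obtain ⟨hpp, -, hpP⟩ := hW p hp
        have h4 := large_card p j1 hj1 hpp P hpP
        have h5 : ((Qs j p).card : ℝ) ≤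
            (((p - 1).primeFactors.filter (fun l => j1 ≤ Nat.log 2 l)).card : ℝ) := by
          have : (Qs j p).card ≤ ((p - 1).primeFactors.filter (fun l => j1 ≤ Nat.log 2 l)).card := by
            apply card_le_card
            intro l hl
            unfold Qs at hl
            rw [mem_filter] at hl ⊢
            exact ⟨hl.1, by omega⟩
          exact_mod_cast this
        have h6 : Real.log P / (j1 * Real.log 2) ≤ (2 : ℝ) ^ (a * j1) := by
          rw [div_le_iff₀ (by positivity)]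
          exact hJ
        have h7 : (2 : ℝ) ^ (a * j1) ≤ J := by
          apply Real.rpow_le_rpow_of_exponent_le (by norm_num)
          exact mul_le_mul_of_nonneg_left hjj ha.le
        linarith
      rw [h1, sum_empty, zero_add]
      have hQ0 : 0 ≤ ∑ p ∈ W, w p * ((Qs j p).card : ℝ) := by
        apply sum_nonneg
        intro p hp
        have := hw0 p hp
        positivity
      have h2 : 1 / K * ∑ p ∈ W, w p * ((Qs j p).card : ℝ) ≤
          1 / (j1 : ℝ) ^ 2 * ∑ p ∈ W, w p * ((Qs j p).card : ℝ) := by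
        apply mul_le_mul_of_nonneg_right _ hQ0
        apply one_div_le_one_div_of_le (by positivity)
        rw [hK]
        apply pow_le_pow_left₀ (by positivity)
        linarith
      linarith
  refine (sum_le_sum hone).trans ?_
  rw [← mul_sum]
  apply mul_le_mul_of_nonneg_left _ hEc.le
  rw [sum_add_distrib, ← mul_sum]
  have hA : ((Cb + Cb ^ 2) * Ca * R + Cb * R + 2 * R') * ∑ j ∈ Ico j0 j2, 1 / ((j : ℝ) + 1) ^ 3 ≤
      2 * ((Cb + Cb ^ 2) * Ca + Cb + 2) * ((R + R') / ((j0 : ℝ) + 1) ^ 2) := by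
    calc ((Cb + Cb ^ 2) * Ca * R + Cb * R + 2 * R') * ∑ j ∈ Ico j0 j2, 1 / ((j : ℝ) + 1) ^ 3
        ≤ ((Cb + Cb ^ 2) * Ca * R + Cb * R + 2 * R') * (2 / ((j0 : ℝ) + 1) ^ 2) :=
          mul_le_mul_of_nonneg_left (sum_cubes j0 j2) (by positivity)
      _ ≤ (((Cb + Cb ^ 2) * Ca + Cb + 2) * (R + R')) * (2 / ((j0 : ℝ) + 1) ^ 2) := by
          apply mul_le_mul_of_nonneg_right _ (by positivity)
          have h1 : 0 ≤ ((Cb + Cb ^ 2) * Ca + Cb) * R' := by positivity
          nlinarith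
      _ = _ := by ring
  have hB : ∑ j ∈ Ico j0 j2, (if j1 ≤ j then 1 / (j1 : ℝ) ^ 2 *
      ∑ p ∈ W, w p * ((Qs j p).card : ℝ) else 0) ≤
      1 / Real.log 2 * (R * Real.log P / (j1 : ℝ) ^ 3) := by
    rw [← sum_filter, ← mul_sum, sum_comm]
    have hj1r : (0 : ℝ) < j1 := by exact_mod_cast (by omega : 0 < j1)
    have h1 : ∀ p ∈ W, ∑ j ∈ (Ico j0 j2).filter (fun j => j1 ≤ j), w p * ((Qs j p).card : ℝ) ≤
        w p * (Real.log P / (j1 * Real.log 2)) := by
      intro p hp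
      rw [← mul_sum]
      apply mul_le_mul_of_nonneg_left _ (hw0 p hp)
      obtain ⟨hpp, -, hpP⟩ := hW p hp
      refine le_trans ?_ (large_card p j1 hj1 hpp P hpP)
      rw [← Nat.cast_sum]
      apply Nat.cast_le.2
      rw [← card_biUnion]
      · apply card_le_card
        intro l hl
        rw [mem_biUnion] at hl
        obtain ⟨j, hj, hlj⟩ := hl
        unfold Qs at hlj
        rw [mem_filter] at hlj ⊢
        refine ⟨hlj.1, ?_⟩
        rw [hlj.2]
        exact (mem_filter.1 hj).2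
      · intro i _ j _ hij
        rw [Function.onFun, disjoint_left]
        intro l hl hl'
        unfold Qs at hl hl'
        exact hij ((mem_filter.1 hl).2.symm.trans (mem_filter.1 hl').2)
    calc 1 / (j1 : ℝ) ^ 2 * ∑ p ∈ W, ∑ j ∈ (Ico j0 j2).filter (fun j => j1 ≤ j),
          w p * ((Qs j p).card : ℝ)
        ≤ 1 / (j1 : ℝ) ^ 2 * (R * (Real.log P / (j1 * Real.log 2))) := by
          apply mul_le_mul_of_nonneg_left _ (by positivity)
          refine (sum_le_sum h1).trans ?_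
          rw [← sum_mul]
          apply mul_le_mul_of_nonneg_right hsumw
          positivity
      _ = _ := by field_simp
  have hD : 0 ≤ (R + R') / ((j0 : ℝ) + 1) ^ 2 := by positivity
  have hD' : 0 ≤ R * Real.log P / (j1 : ℝ) ^ 3 := by positivity
  calc _ ≤ 2 * ((Cb + Cb ^ 2) * Ca + Cb + 2) * ((R + R') / ((j0 : ℝ) + 1) ^ 2) +
        1 / Real.log 2 * (R * Real.log P / (j1 : ℝ) ^ 3) := add_le_add hA hB
    _ ≤ C * ((R + R') / ((j0 : ℝ) + 1) ^ 2) + C * (R * Real.log P / (j1 : ℝ) ^ 3) := by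
        apply add_le_add
        · apply mul_le_mul_of_nonneg_right _ hD
          rw [hC]
          have : 0 < 1 / Real.log 2 := by positivity
          linarith
        · apply mul_le_mul_of_nonneg_right _ hD'
          rw [hC]
          have : 0 ≤ 2 * ((Cb + Cb ^ 2) * Ca + Cb + 2) := by positivity
          linarith
    _ = _ := by ring

end Pool.Agent.KS6_18
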