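import Mathlib
import Pool.Agent.KS6_18.Master

set_option autoImplicit false

/-! Few integers have a large prime factor of the index modulo many primes. -/

namespace Pool.Agent.KS6_18

open Finset Filter

/-- the integer `n` is in the coset for a prime factor `l ≥ 2 ^ j0` of `p - 1` -/
def Bd (c : ℕ → (p : ℕ) → ZMod p) (j0 p : ℕ) (n : ℤ) : Prop :=
  ∃ l : ℕ, l.Prime ∧ l ∣ p - 1 ∧ 2 ^ j0 ≤ l ∧ (n : ZMod p) ^ ((p - 1) / l) = c l p

lemma Bd_sum (c : ℕ → (p : ℕ) → ZMod p) (j0 j2 p : ℕ) (n : ℤ) (hp : p.Prime) (hj2 : p < 2 ^ j2)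
    (h : Bd c j0 p n) : (1 : ℝ) ≤ ∑ j ∈ Ico j0 j2, ((Bs c j p n).card : ℝ) := by
  obtain ⟨l, hl, hlp, hjl, hc⟩ := h
  have h1 : j0 ≤ Nat.log 2 l := Nat.le_log_of_pow_le (by norm_num) hjl
  have hp1 : 0 < p - 1 := by have := hp.two_le; omega
  have h2 : l ≤ p - 1 := Nat.le_of_dvd hp1 hlp
  have h3 : Nat.log 2 l < j2 := Nat.log_lt_of_lt_pow hl.ne_zero (by omega)
  have h4 : 1 ≤ (Bs c (Nat.log 2 l) p n).card := by
    rw [Nat.one_le_iff_ne_zero, ← Nat.pos_iff_ne_zero, card_pos]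
    refine ⟨l, ?_⟩
    unfold Bs
    rw [mem_filter, mem_Qs hp]
    exact ⟨⟨hl, hlp, rfl⟩, hc⟩
  calc (1 : ℝ) ≤ ((Bs c (Nat.log 2 l) p n).card : ℝ) := by exact_mod_cast h4
    _ ≤ _ := single_le_sum (f := fun j => ((Bs c j p n).card : ℝ))
        (fun j _ => Nat.cast_nonneg _) (mem_Ico.2 ⟨h1, h3⟩)

/-- the integers `n ≠ 0`, `|n| ≤ N` -/
noncomputable def ZN (N : ℕ) : Finset ℤ := (Icc (-(N : ℤ)) N).filter (fun n => n ≠ 0)

lemma mem_ZN {N : ℕ} {n : ℤ} : n ∈ ZN N ↔ n ≠ 0 ∧ n.natAbs ≤ N := by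
  unfold ZN
  rw [mem_filter, mem_Icc]
  constructor
  · rintro ⟨⟨h1, h2⟩, h3⟩
    exact ⟨h3, by omega⟩
  · rintro ⟨h1, h2⟩
    exact ⟨by omega, h1⟩

open Classical in
/-- abstract exceptional sets -/
theorem exc_abs (c : ℕ → (p : ℕ) → ZMod p) (j0 j2 : ℕ) (E : Finset ℤ) (hE : E.Nonempty)
    (W : Finset ℕ) (w : ℕ → ℝ) (hw : ∀ p ∈ W, 0 ≤ w p) (hWp : ∀ p ∈ W, p.Prime ∧ p < 2 ^ j2)
    (T : ℝ) (hT : ∀ n ∈ E, T < ∑ p ∈ W.filter (fun p => Bd c j0 p n), w p) (X : ℝ)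
    (h : ∑ j ∈ Ico j0 j2, ∑ n ∈ E, ∑ p ∈ W, w p * ((Bs c j p n).card : ℝ) ≤ E.card * X) : T < X := by
  have hEc : (0 : ℝ) < E.card := by exact_mod_cast hE.card_pos
  have h1 : ∑ n ∈ E, ∑ p ∈ W.filter (fun p => Bd c j0 p n), w p ≤
      ∑ j ∈ Ico j0 j2, ∑ n ∈ E, ∑ p ∈ W, w p * ((Bs c j p n).card : ℝ) := by
    rw [sum_comm]
    apply sum_le_sum
    intro n _
    rw [sum_comm, sum_filter]
    apply sum_le_sum
    intro p hp
    rw [← mul_sum]
    have h0 : 0 ≤ ∑ j ∈ Ico j0 j2, ((Bs c j p n).card : ℝ) := sum_nonneg fun _ _ => Nat.cast_nonneg _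
    split_ifs with hb
    · have := Bd_sum c j0 j2 p n (hWp p hp).1 (hWp p hp).2 hb
      exact le_mul_of_one_le_right (hw p hp) this
    · exact mul_nonneg (hw p hp) h0
  have h2 : (E.card : ℝ) * T < ∑ n ∈ E, ∑ p ∈ W.filter (fun p => Bd c j0 p n), w p := by
    calc (E.card : ℝ) * T = ∑ _n ∈ E, T := by rw [sum_const, nsmul_eq_mul]
      _ < _ := sum_lt_sum_of_nonempty hE hT
  have h3 : (E.card : ℝ) * T < E.card * X := by linarith
  exact lt_of_mul_lt_mul_left h3 hEc.le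

lemma log_tend : Tendsto (fun N : ℕ => Real.log (N : ℝ)) atTop atTop :=
  Real.tendsto_log_atTop.comp tendsto_natCast_atTop_atTop

/-- powers of the logarithm -/
lemma ev_pow (A B : ℝ) (m : ℕ) (δ : ℝ) (hδ : 0 < δ) : ∀ᶠ N : ℕ in atTop,
    A * (B * Real.log N + 1) ^ m ≤ (N : ℝ) ^ δ := by
  have h1 : ∀ᶠ t : ℝ in atTop, |A| * ((|B| + 1) * t) ^ m ≤ Real.exp (δ * t) := by
    have h2 := (isLittleO_pow_exp_pos_mul_atTop (k := m) (b := δ) hδ).bound
      (show (0 : ℝ) < 1 / (|A| * (|B| + 1) ^ m + 1) by positivity)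
    filter_upwards [h2, eventually_ge_atTop 0] with t ht ht0
    rw [Real.norm_of_nonneg (by positivity), Real.norm_of_nonneg (Real.exp_pos _).le] at ht
    have hc : 0 ≤ |A| * (|B| + 1) ^ m := by positivity
    have htm : 0 ≤ t ^ m := by positivity
    calc |A| * ((|B| + 1) * t) ^ m = |A| * (|B| + 1) ^ m * t ^ m := by rw [mul_pow]; ring
      _ ≤ (|A| * (|B| + 1) ^ m + 1) * t ^ m := by nlinarith
      _ ≤ (|A| * (|B| + 1) ^ m + 1) * (1 / (|A| * (|B| + 1) ^ m + 1) * Real.exp (δ * t)) :=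
          mul_le_mul_of_nonneg_left ht (by positivity)
      _ = Real.exp (δ * t) := by field_simp
  filter_upwards [log_tend.eventually h1, log_tend.eventually_ge_atTop 1,
    eventually_ge_atTop 1] with N hN hN1 hN2
  have hN0 : (0 : ℝ) < N := by exact_mod_cast hN2
  rw [Real.rpow_def_of_pos hN0, mul_comm (Real.log (N : ℝ)) δ]
  refine le_trans ?_ hN
  have h3 : |B * Real.log N + 1| ≤ (|B| + 1) * Real.log N := by
    refine (abs_add_le _ _).trans ?_
    rw [abs_mul, abs_one, abs_of_nonneg (by linarith : 0 ≤ Real.log (N : ℝ))]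
    linarith
  calc A * (B * Real.log N + 1) ^ m ≤ |A * (B * Real.log N + 1) ^ m| := le_abs_self _
    _ = |A| * |B * Real.log N + 1| ^ m := by rw [abs_mul, abs_pow]
    _ ≤ |A| * ((|B| + 1) * Real.log N) ^ m := by
        apply mul_le_mul_of_nonneg_left _ (abs_nonneg _)
        exact pow_le_pow_left₀ (abs_nonneg _) h3 m

open Classical in
/-- the primes in the window -/
noncomputable def WW (N : ℕ) (C1 C2 : ℝ) : Finset ℕ :=
  (Icc ⌈(N : ℝ) ^ C1⌉₊ ⌊(N : ℝ) ^ C2⌋₊).filter Nat.Prime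

lemma mem_WW {N : ℕ} {C1 C2 : ℝ} {p : ℕ} : p ∈ WW N C1 C2 ↔
    p.Prime ∧ (N : ℝ) ^ C1 ≤ p ∧ (p : ℝ) ≤ (N : ℝ) ^ C2 := by
  unfold WW
  rw [mem_filter, mem_Icc, Nat.ceil_le, Nat.le_floor_iff (by positivity)]
  tauto

open Classical in
/-- **few integers are bad in the window**, in the sense of the logarithmic measure -/
theorem win_exc (θ C1 C2 : ℝ) (hθ : 0 < θ) (hC1 : 0 < C1) (hC12 : C1 ≤ C2) :
    ∃ C : ℝ, 1 ≤ C ∧ ∃ N0 : ℕ, ∀ N : ℕ, N0 ≤ N → ∀ (c : ℕ → (p : ℕ) → ZMod p) (j0 : ℕ),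
      (((ZN N).filter (fun n => C / ((j0 : ℝ) + 1) ^ 2 <
        ∑ p ∈ (WW N C1 C2).filter (fun p => Bd c j0 p n), 1 / (p : ℝ))).card : ℝ) ≤ (N : ℝ) ^ θ := by
  have hC2 : 0 < C2 := by linarith
  have hl2 : 0 < Real.log 2 := Real.log_pos (by norm_num)
  obtain ⟨k, hk⟩ : ∃ k : ℕ, (C2 + 2) / θ ≤ k := exists_nat_ge _
  have hkθ : C2 + 2 ≤ θ * k := by
    rw [div_le_iff₀ hθ] at hk
    linarith
  obtain ⟨Cm, hCm, hmaster⟩ := master (1 / 2) (by norm_num)
  obtain ⟨Cw, hCw, hwin⟩ := bt_win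
  obtain ⟨Ce, hCe, hexp⟩ := exp_dec (1 / 2) (by norm_num) (4 * k + 3)
  obtain ⟨NE, hNE⟩ := Eqp_bound k 1 one_pos
  set R : ℝ := Cw * (C2 / C1) with hR
  have hR0 : 0 ≤ R := by positivity
  set C1' : ℝ := (k + 1) / C1 with hC1'
  have hC1'0 : 0 ≤ C1' := by positivity
  set R' : ℝ := C1' * Ce with hR'
  have hR'0 : 0 ≤ R' := by positivity
  set cc : ℝ := C1 / (8 * Real.log 2) with hcc
  have hcc0 : 0 < cc := by positivity
  set C : ℝ := Cm * ((R + R') + R * C2 * (C2 / Real.log 2 + 2) ^ 2 / cc ^ 3) + 1 with hC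
  have hCpos : 0 ≤ Cm * ((R + R') + R * C2 * (C2 / Real.log 2 + 2) ^ 2 / cc ^ 3) := by positivity
  refine ⟨C, by linarith, ?_⟩
  -- eventual facts
  have e1 := ev_pow 2 (C2 / Real.log 2) (4 * k) 1 one_pos
  have e2 := log_tend.eventually_ge_atTop (max 1 (8 * Real.log 2 / C1))
  have e3 : ∀ᶠ N : ℕ in atTop, C2 / (cc * Real.log 2) ≤ (2 : ℝ) ^ (1 / 2 * (cc * Real.log N)) := by
    have h1 : Tendsto (fun N : ℕ => (2 : ℝ) ^ (1 / 2 * (cc * Real.log N))) atTop atTop := by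
      have h2 : Tendsto (fun t : ℝ => (2 : ℝ) ^ t) atTop atTop :=
        tendsto_rpow_atTop_of_base_gt_one 2 (by norm_num)
      refine h2.comp ?_
      have h3 : Tendsto (fun N : ℕ => (1 / 2 * cc) * Real.log (N : ℝ)) atTop atTop :=
        log_tend.const_mul_atTop (by positivity)
      refine h3.congr fun N => by ring
    exact h1.eventually_ge_atTop _
  have e4 : ∀ᶠ N : ℕ in atTop, (2 : ℝ) ≤ (N : ℝ) ^ C1 :=
    ((tendsto_rpow_atTop hC1).comp tendsto_natCast_atTop_atTop).eventually_ge_atTop _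
  obtain ⟨N1, hN1⟩ := eventually_atTop.1 (e1.and (e2.and (e3.and e4)))
  refine ⟨max (max N1 NE) 2, fun N hN c j0 => ?_⟩
  have hNN1 : N1 ≤ N := (le_max_left _ _).trans ((le_max_left _ _).trans hN)
  have hNNE : NE ≤ N := (le_max_right _ _).trans ((le_max_left _ _).trans hN)
  have hN2 : 2 ≤ N := (le_max_right _ _).trans hN
  obtain ⟨f1, f2, f3, f4⟩ := hN1 N hNN1
  have hNr : (2 : ℝ) ≤ N := by exact_mod_cast hN2
  have hN0 : (0 : ℝ) < N := by linarith
  set L := Real.log (N : ℝ) with hL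
  have hL1 : 1 ≤ L := (le_max_left _ _).trans f2
  have hL8 : 8 * Real.log 2 / C1 ≤ L := (le_max_right _ _).trans f2
  by_contra hcon
  push Not at hcon
  set E := (ZN N).filter (fun n => C / ((j0 : ℝ) + 1) ^ 2 <
        ∑ p ∈ (WW N C1 C2).filter (fun p => Bd c j0 p n), 1 / (p : ℝ)) with hE
  have hEne : E.Nonempty := by
    rw [nonempty_iff_ne_empty]
    intro h
    rw [h, card_empty, Nat.cast_zero] at hcon
    have : (0 : ℝ) < (N : ℝ) ^ θ := by positivity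
    linarith
  have hEc : (0 : ℝ) < E.card := by exact_mod_cast hEne.card_pos
  have hEm : ∀ n ∈ E, n ≠ 0 ∧ n.natAbs ≤ N := fun n hn => mem_ZN.1 (mem_filter.1 hn).1
  set y : ℝ := (N : ℝ) ^ C1 with hy
  set P : ℝ := (N : ℝ) ^ C2 with hP
  have hyP : y ≤ P := Real.rpow_le_rpow_of_exponent_le (by linarith) hC12
  have hly : Real.log y = C1 * L := by rw [hy, Real.log_rpow hN0]
  have hlP : Real.log P = C2 * L := by rw [hP, Real.log_rpow hN0]
  have hW : ∀ p ∈ WW N C1 C2, p.Prime ∧ y ≤ p ∧ (p : ℝ) ≤ P := fun p hp => mem_WW.1 hp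
  set j1 : ℕ := ⌊2 * cc * L⌋₊ with hj1
  set j2 : ℕ := Nat.log 2 ⌊P⌋₊ + 1 with hj2
  have h2cc : 2 ≤ 2 * cc * L := by
    have h1 : 2 * cc * (8 * Real.log 2 / C1) = 2 := by
      rw [hcc]
      field_simp
    calc (2 : ℝ) = 2 * cc * (8 * Real.log 2 / C1) := h1.symm
      _ ≤ 2 * cc * L := mul_le_mul_of_nonneg_left hL8 (by positivity)
  have hj1r : (j1 : ℝ) ≤ 2 * cc * L := Nat.floor_le (by positivity)
  have hj1l : cc * L ≤ j1 := by
    have := Nat.lt_floor_add_one (2 * cc * L)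
    rw [← hj1] at this
    linarith
  have hj11 : 1 ≤ j1 := by
    have : (0 : ℝ) < j1 := by nlinarith
    exact_mod_cast this
  have hfl : 1 ≤ ⌊P⌋₊ := by
    rw [Nat.one_le_floor_iff]
    linarith
  have hj2r : (j2 : ℝ) ≤ C2 / Real.log 2 * L + 1 := by
    rw [hj2]
    push_cast
    apply add_le_add_left
    have h1 : 2 ^ Nat.log 2 ⌊P⌋₊ ≤ ⌊P⌋₊ := Nat.pow_log_le_self 2 (by omega)
    have h2 : (2 : ℝ) ^ Nat.log 2 ⌊P⌋₊ ≤ P := by
      have h3 : ((2 ^ Nat.log 2 ⌊P⌋₊ : ℕ) : ℝ) ≤ ⌊P⌋₊ := by exact_mod_cast h1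
      push_cast at h3
      exact h3.trans (Nat.floor_le (by positivity))
    have h4 := Real.log_le_log (by positivity) h2
    rw [Real.log_pow, hlP] at h4
    rw [div_mul_eq_mul_div, le_div_iff₀ hl2]
    exact h4
  have hplt : ∀ p ∈ WW N C1 C2, p.Prime ∧ p < 2 ^ j2 := by
    intro p hp
    obtain ⟨h1, h2, h3⟩ := hW p hp
    refine ⟨h1, ?_⟩
    have h4 : p ≤ ⌊P⌋₊ := Nat.le_floor h3
    have h5 : ⌊P⌋₊ < 2 ^ (Nat.log 2 ⌊P⌋₊ + 1) := Nat.lt_pow_succ_log_self (by norm_num) _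
    rw [hj2]
    omega
  have hm := hmaster c k N E hEne (fun n hn => (hEm n hn).2) (by omega) (WW N C1 C2)
    (fun p => 1 / (p : ℝ)) y P C1' 1 R R' (√y) j0 j1 j2 (by linarith) hW
    (fun p hp => ⟨by positivity, le_refl _⟩) zero_le_one (by linarith) hR0 hR'0 ?_ ?_ ?_ hj11 ?_ ?_ ?_
  · -- conclusion
    have hlt := exc_abs c j0 j2 E hEne (WW N C1 C2) (fun p => 1 / (p : ℝ)) (fun p _ => by positivity)
      hplt (C / ((j0 : ℝ) + 1) ^ 2) (fun n hn => (mem_filter.1 hn).2) _ hm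
    -- the case of a large `j0`
    by_cases hjj : j0 < j2
    · have hjr : (j0 : ℝ) + 1 ≤ (C2 / Real.log 2 + 2) * L := by
        have h1 : (j0 : ℝ) + 1 ≤ j2 := by exact_mod_cast hjj
        linarith
      have h2 : R * Real.log P / (j1 : ℝ) ^ 3 ≤
          R * C2 * (C2 / Real.log 2 + 2) ^ 2 / cc ^ 3 / ((j0 : ℝ) + 1) ^ 2 := by
        rw [hlP]
        have h3 : (cc * L) ^ 3 ≤ (j1 : ℝ) ^ 3 := pow_le_pow_left₀ (by positivity) hj1l 3
        calc R * (C2 * L) / (j1 : ℝ) ^ 3 ≤ R * (C2 * L) / (cc * L) ^ 3 :=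
              div_le_div_of_nonneg_left (by positivity) (by positivity) h3
          _ = R * C2 / cc ^ 3 / L ^ 2 := by field_simp
          _ ≤ R * C2 / cc ^ 3 * ((C2 / Real.log 2 + 2) ^ 2 / ((j0 : ℝ) + 1) ^ 2) := by
              rw [div_eq_mul_inv _ (L ^ 2)]
              apply mul_le_mul_of_nonneg_left _ (by positivity)
              rw [inv_eq_one_div, div_le_div_iff₀ (by positivity) (by positivity), one_mul,
                ← mul_pow]
              exact pow_le_pow_left₀ (by positivity) hjr 2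
          _ = _ := by ring
      have h3 : Cm * ((R + R') / ((j0 : ℝ) + 1) ^ 2 + R * Real.log P / (j1 : ℝ) ^ 3) ≤
          C / ((j0 : ℝ) + 1) ^ 2 := by
        calc Cm * ((R + R') / ((j0 : ℝ) + 1) ^ 2 + R * Real.log P / (j1 : ℝ) ^ 3)
            ≤ Cm * ((R + R') / ((j0 : ℝ) + 1) ^ 2 +
              R * C2 * (C2 / Real.log 2 + 2) ^ 2 / cc ^ 3 / ((j0 : ℝ) + 1) ^ 2) := by
              apply mul_le_mul_of_nonneg_left _ (by linarith)
              linarith
          _ = (Cm * ((R + R') + R * C2 * (C2 / Real.log 2 + 2) ^ 2 / cc ^ 3)) /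
              ((j0 : ℝ) + 1) ^ 2 := by ring
          _ ≤ C / ((j0 : ℝ) + 1) ^ 2 := by
              apply div_le_div_of_nonneg_right _ (by positivity)
              rw [hC]
              linarith
      linarith
    · push Not at hjj
      obtain ⟨n, hn⟩ := hEne
      have h1 := (mem_filter.1 hn).2
      have h2 : (WW N C1 C2).filter (fun p => Bd c j0 p n) = ∅ := by
        rw [filter_eq_empty_iff]
        intro p hp hb
        obtain ⟨l, hl, hlp, hjl, -⟩ := hb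
        have h3 := (hplt p hp).2
        have hp1 : 0 < p - 1 := by have := (hplt p hp).1.two_le; omega
        have h4 : l ≤ p - 1 := Nat.le_of_dvd hp1 hlp
        have h5 : 2 ^ j2 ≤ 2 ^ j0 := Nat.pow_le_pow_right (by norm_num) hjj
        omega
      rw [h2, sum_empty] at h1
      have h3 : 0 ≤ C / ((j0 : ℝ) + 1) ^ 2 := by
        have : 0 ≤ C := by linarith
        positivity
      linarith
  · -- `C1'`
    rw [hly, hC1', div_le_div_iff₀ (by positivity) hC1]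
    have h1 : Real.log (2 * N ^ k : ℝ) ≤ (k + 1) * L := by
      rw [Real.log_mul (by norm_num) (by positivity), Real.log_pow]
      have h2 : Real.log 2 ≤ L := Real.log_le_log (by norm_num) hNr
      linarith
    calc Real.log (2 * N ^ k : ℝ) * C1 ≤ (k + 1) * L * C1 := mul_le_mul_of_nonneg_right h1 hC1.le
      _ = (k + 1) * (C1 * L) := by ring
  · -- Brun-Titchmarsh
    intro d hd hdD
    have h1 := hwin y P (WW N C1 C2) f4 hyP hW d hd (by
      have h2 : (d : ℝ) ^ 2 ≤ (√y) ^ 2 := pow_le_pow_left₀ (by positivity) hdD 2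
      rwa [Real.sq_sqrt (by positivity)] at h2)
    refine h1.trans (le_of_eq ?_)
    rw [hlP, hly, hR]
    congr 2
    field_simp
  · -- `4 ^ j1 ≤ D0`
    have h1 : (4 : ℝ) ^ j1 = (2 : ℝ) ^ ((2 * j1 : ℕ) : ℝ) := by
      rw [Real.rpow_natCast, pow_mul]
      norm_num
    rw [h1, Real.sqrt_eq_rpow, hy, ← Real.rpow_mul hN0.le, Real.rpow_def_of_pos (by norm_num),
      Real.rpow_def_of_pos hN0]
    apply Real.exp_le_exp.2
    push_cast
    calc Real.log 2 * (2 * (j1 : ℝ)) ≤ Real.log 2 * (2 * (2 * cc * L)) := by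
          apply mul_le_mul_of_nonneg_left _ hl2.le
          linarith
      _ = Real.log N * (C1 * (1 / 2)) := by
          rw [hcc, ← hL]
          field_simp
          norm_num
  · -- `log P`
    rw [hlP]
    have h1 : (2 : ℝ) ^ (1 / 2 * (cc * L)) ≤ (2 : ℝ) ^ (1 / 2 * (j1 : ℝ)) := by
      apply Real.rpow_le_rpow_of_exponent_le (by norm_num)
      linarith
    have h2 : C2 / (cc * Real.log 2) ≤ (2 : ℝ) ^ (1 / 2 * (j1 : ℝ)) := f3.trans h1
    calc C2 * L = C2 / (cc * Real.log 2) * (cc * L * Real.log 2) := by field_simp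
      _ ≤ (2 : ℝ) ^ (1 / 2 * (j1 : ℝ)) * (j1 * Real.log 2) := by
          apply mul_le_mul h2 _ (by positivity) (by positivity)
          exact mul_le_mul_of_nonneg_right hj1l hl2.le
  · -- the decay
    intro j _
    have hjr : (0 : ℝ) < (j : ℝ) + 1 := by positivity
    rw [one_mul, le_div_iff₀ (by positivity), hR']
    have h1 := hexp j
    have h2 : (2 : ℝ) ^ j = (2 : ℝ) ^ (1 / 2 * (j : ℝ)) * (2 : ℝ) ^ (1 / 2 * (j : ℝ)) := by
      rw [← Real.rpow_add (by norm_num), ← Real.rpow_natCast]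
      congr 1
      ring
    have h3 : (0 : ℝ) < (2 : ℝ) ^ (1 / 2 * (j : ℝ)) := by positivity
    calc C1' * ((2 : ℝ) ^ (1 / 2 * (j : ℝ)) * ((j : ℝ) + 1) ^ (4 * k) / 2 ^ j) * ((j : ℝ) + 1) ^ 3
        = C1' * (((j : ℝ) + 1) ^ (4 * k + 3) / (2 : ℝ) ^ (1 / 2 * (j : ℝ))) := by
          rw [h2, pow_add]
          field_simp
      _ ≤ C1' * Ce := by
          apply mul_le_mul_of_nonneg_left _ hC1'0
          rw [div_le_iff₀ h3]
          exact h1
  · -- few equal products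
    have h1 := hNE N hNNE E hEm
    rw [Real.rpow_one] at h1
    have h2 : 2 * (j2 : ℝ) ^ (4 * k) ≤ N := by
      calc 2 * (j2 : ℝ) ^ (4 * k) ≤ 2 * (C2 / Real.log 2 * L + 1) ^ (4 * k) := by
            apply mul_le_mul_of_nonneg_left _ (by norm_num)
            exact pow_le_pow_left₀ (by positivity) hj2r _
        _ ≤ (N : ℝ) ^ (1 : ℝ) := f1
        _ = N := Real.rpow_one _
    have h3 : (N : ℝ) * N * P ≤ (E.card : ℝ) ^ k := by
      calc (N : ℝ) * N * P = (N : ℝ) ^ (C2 + 2) := by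
            rw [Real.rpow_add hN0, hP, Real.rpow_two]
            ring
        _ ≤ (N : ℝ) ^ (θ * k) := Real.rpow_le_rpow_of_exponent_le (by linarith) hkθ
        _ = ((N : ℝ) ^ θ) ^ k := by rw [Real.rpow_mul hN0.le, Real.rpow_natCast]
        _ ≤ _ := pow_le_pow_left₀ (by positivity) hcon.le k
    have hP0 : 0 < P := by positivity
    calc ((Eqp k E).card : ℝ) * (2 * (j2 : ℝ) ^ (4 * k) * P)
        ≤ ((E.card : ℝ) ^ k * N) * (N * P) := by
          apply mul_le_mul h1 _ (by positivity) (by positivity)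
          exact mul_le_mul_of_nonneg_right h2 hP0.le
      _ = (E.card : ℝ) ^ k * (N * N * P) := by ring
      _ ≤ (E.card : ℝ) ^ k * (E.card : ℝ) ^ k := mul_le_mul_of_nonneg_left h3 (by positivity)
      _ = _ := by rw [← pow_add, two_mul]

end Pool.Agent.KS6_18
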