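import Mathlib
import Pool.Agent.KS6_18.Sift
import Pool.Agent.KS6_18.Win

set_option autoImplicit false

/-! The number of the nonresidues among the sifted primes, for all small moduli and all sieving ranges. -/

namespace Pool.Agent.KS6_18

open Finset Filter
open Pool.Agent.Y855
open Pool.Agent.H442R2.KF
open Pool.Agent.N430.LK (TT_prime TT_le jac_sum)

lemma odd_three {m : ℕ} (hm : Odd m) : ∀ q ∈ m.primeFactors, 3 ≤ q := by
  intro q hq
  have hqp := Nat.prime_of_mem_primeFactors hq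
  have hqd := Nat.dvd_of_mem_primeFactors hq
  rcases hqp.eq_two_or_odd' with h | h
  · exfalso
    rw [h] at hqd
    exact (Nat.not_even_iff_odd.2 hm) (even_iff_two_dvd.2 hqd)
  · have := hqp.two_le
    obtain ⟨t, ht⟩ := h
    omega

/-- the case of a large prime factor, abstractly -/
lemma half_abs (t TSp TSm T0 X M R e PV : ℝ) (ht0 : 0 < t) (he : 0 < e) (he1 : e ≤ 1 / 20)
    (hM : 0 ≤ M) (hX : 0 ≤ X) (hMR : M * R ≤ e * PV) (hPV : PV ≤ 2 * t)
    (h1 : |TSp - M * X| ≤ M * (e * X + R)) (h2 : |TSm - M * X| ≤ M * (e * X + R))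
    (hsum : t = TSp + TSm + T0) (hp0 : 0 ≤ TSp) (hm0 : 0 ≤ TSm) (h00 : 0 ≤ T0) (hT0 : T0 ≤ e * t) :
    |TSm - 1 / 2 * t| ≤ 5 * e * t := by
  have hMX : 0 ≤ M * X := mul_nonneg hM hX
  have e1 : M * (e * X + R) = e * (M * X) + M * R := by ring
  rw [e1] at h1 h2
  have h3 := abs_le.1 h1
  have h4 := abs_le.1 h2
  have h5 : M * R ≤ 2 * e * t := by nlinarith
  have h6 : e * (M * X) ≤ 1 / 20 * (M * X) := mul_le_mul_of_nonneg_right he1 hMX
  have h7 : e * t ≤ 1 / 20 * t := mul_le_mul_of_nonneg_right he1 ht0.le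
  have h8 : M * X ≤ 2 * t := by linarith
  have h9 : e * (M * X) ≤ e * (2 * t) := mul_le_mul_of_nonneg_left h8 he.le
  have h10 : 0 ≤ e * t := by positivity
  rw [abs_le]
  constructor <;> linarith

theorem small_m (ε : ℝ) (hε : 0 < ε) : ∃ K : ℝ, 1 ≤ K ∧ ∃ z₀ : ℕ, 2 ≤ z₀ ∧ ∀ B : ℕ,
    ∀ᶠ x : ℕ in atTop, ∀ z : ℕ, z₀ ≤ z → (z : ℝ) ^ K ≤ x →
    0 < ((TT x z).card : ℝ) ∧ (x : ℝ) / (K * (Real.log x * Real.log z)) ≤ ((TT x z).card : ℝ) ∧
    (∀ m : ℕ, Squarefree m → Odd m → (m : ℝ) ≤ (Real.log x) ^ B →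
      |((TQ x z m).card : ℝ) - dl m * (TT x z).card| ≤ ε * (TT x z).card) := by
  classical
  obtain ⟨e, he⟩ : ∃ e : ℝ, e = min ε 1 / 40 := ⟨_, rfl⟩
  have hmin : 0 < min ε 1 := lt_min hε one_pos
  have he0 : 0 < e := by rw [he]; positivity
  have he1 : e ≤ 1 / 40 := by
    rw [he]
    have := min_le_right ε 1
    linarith
  have heε : 40 * e ≤ ε := by
    rw [he]
    have := min_le_left ε 1
    linarith
  obtain ⟨B₂, hB₂, hasy⟩ := asymp e he0
  obtain ⟨B₃, hB₃, hsc⟩ := sieve_class e he0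
  obtain ⟨B₁, hB₁⟩ : ∃ B₁ : ℕ, B₁ = B₂ + B₃ := ⟨_, rfl⟩
  obtain ⟨cV, hcV, hV⟩ := VP_lower
  obtain ⟨Xπ, hXπ3, hπ⟩ := piN_ge
  obtain ⟨K, hK⟩ : ∃ K : ℝ, K = 5 * B₁ + 4 / cV := ⟨_, rfl⟩
  have hB₁r : (1 : ℝ) ≤ B₁ := by
    have : 1 ≤ B₁ := by omega
    exact_mod_cast this
  have hp1 : 0 < 4 / cV := by positivity
  have hKa : 5 * (B₁ : ℝ) ≤ K := by rw [hK]; linarith
  have hKc : 4 / cV ≤ K := by rw [hK]; linarith
  have hK1 : 1 ≤ K := by linarith
  obtain ⟨z₀, hz₀⟩ : ∃ z₀ : ℕ, z₀ = ⌈1 / ε⌉₊ + 3 := ⟨_, rfl⟩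
  refine ⟨K, hK1, z₀, by omega, fun B => ?_⟩
  obtain ⟨CB, hCB, hBV⟩ := bvEs (B + 4)
  have ev1 := ev_pow 1 1 B (1 / 5) (by norm_num)
  have ev2 := ev_pow (4 / (cV * e)) 1 (B + 2) (1 / 5) (by norm_num)
  have ev3 := log_tend.eventually_ge_atTop (max 120 (8 * CB / (cV * e)))
  filter_upwards [ev1, ev2, ev3, eventually_ge_atTop (max Xπ 3)] with x hx1 hx2 hx3 hx4 z hz hzK
  have hxXπ : Xπ ≤ x := (le_max_left _ _).trans hx4
  have hx3' : 3 ≤ x := (le_max_right _ _).trans hx4
  have hx3r : (3 : ℝ) ≤ x := by exact_mod_cast hx3'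
  have hx0 : (0 : ℝ) < x := by linarith
  obtain ⟨L, hL⟩ : ∃ L : ℝ, L = Real.log x := ⟨_, rfl⟩
  rw [← hL] at hx1 hx2 hx3
  have hL120 : 120 ≤ L := (le_max_left _ _).trans hx3
  have hLc : 8 * CB / (cV * e) ≤ L := (le_max_right _ _).trans hx3
  have hL0 : 0 < L := by linarith
  have hL1 : 1 ≤ L := by linarith
  have hz2 : 2 ≤ z := by omega
  have hz2r : (2 : ℝ) ≤ z := by exact_mod_cast hz2
  have hz1 : (1 : ℝ) ≤ z := by linarith
  obtain ⟨ℓ, hℓ⟩ : ∃ ℓ : ℝ, ℓ = Real.log z := ⟨_, rfl⟩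
  have hℓ0 : 0 < ℓ := by rw [hℓ]; exact Real.log_pos (by linarith)
  have hKℓ : K * ℓ ≤ L := by
    have h1 := Real.log_le_log (by positivity) hzK
    rw [Real.log_rpow (by linarith), ← hL, ← hℓ] at h1
    exact h1
  have hℓL : ℓ ≤ L := by
    have : ℓ ≤ K * ℓ := le_mul_of_one_le_left hℓ0.le hK1
    linarith
  rw [← hL, ← hℓ]
  have hLB5 : L ^ B ≤ (x : ℝ) ^ (1 / 5 : ℝ) := by
    refine le_trans ?_ hx1
    rw [one_mul, one_mul]
    exact pow_le_pow_left₀ hL0.le (by linarith) B
  have hzB : ((z : ℝ)) ^ B₁ ≤ (x : ℝ) ^ (1 / 5 : ℝ) := by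
    have h1 : ((z : ℝ)) ^ (5 * (B₁ : ℝ)) ≤ x :=
      (Real.rpow_le_rpow_of_exponent_le hz1 hKa).trans hzK
    have h2 : (((z : ℝ)) ^ (5 * (B₁ : ℝ))) ^ (1 / 5 : ℝ) ≤ (x : ℝ) ^ (1 / 5 : ℝ) :=
      Real.rpow_le_rpow (by positivity) h1 (by norm_num)
    rw [← Real.rpow_mul (by linarith)] at h2
    rw [← Real.rpow_natCast]
    have e' : 5 * (B₁ : ℝ) * (1 / 5) = (B₁ : ℝ) := by ring
    rw [e'] at h2
    exact h2
  obtain ⟨PV, hPV⟩ : ∃ PV : ℝ, PV = piN x * VP (OP z) := ⟨_, rfl⟩
  obtain ⟨hPVlow, hPVlow2⟩ := PV_low cV hcV x z L ℓ PV hL0 hℓ0 hℓL hPV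
    (by rw [hL]; exact hπ x hxXπ) (by rw [hℓ]; exact hV z hz2)
  have hPV0 : 0 < PV := lt_of_lt_of_le (by positivity) hPVlow2
  obtain ⟨SQ, hSQ⟩ : ∃ SQ : ℝ, SQ = ∑ d ∈ Icc 1 ⌊(x : ℝ) ^ (2 / 5 : ℝ)⌋₊, Es x d := ⟨_, rfl⟩
  have hBVx : SQ ≤ CB * (x / L ^ (B + 4)) := by rw [hSQ, hL]; exact hBV x hx3'
  have hSQ0 : 0 ≤ SQ := by rw [hSQ]; exact sum_nonneg fun d _ => Es_nonneg x d
  have herr : L ^ B * ((4 * L) * SQ) ≤ e * PV := by
    calc L ^ B * ((4 * L) * SQ) ≤ L ^ B * ((4 * L) * (CB * (x / L ^ (B + 4)))) := by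
          apply mul_le_mul_of_nonneg_left _ (by positivity)
          exact mul_le_mul_of_nonneg_left hBVx (by positivity)
      _ = 4 * CB / L * (x / L ^ 2) := by
          rw [pow_add]
          field_simp
      _ ≤ e * (cV / 2) * (x / L ^ 2) := by
          apply mul_le_mul_of_nonneg_right _ (by positivity)
          rw [div_le_iff₀ hL0]
          rw [div_le_iff₀ (by positivity)] at hLc
          linarith
      _ = e * (cV / 2 * (x / L ^ 2)) := by ring
      _ ≤ e * PV := mul_le_mul_of_nonneg_left hPVlow2 he0.le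
  have hlog2 := log2_le z hz2 L (by rw [← hℓ]; exact hℓL) hL120
  have hlog20 : (0 : ℝ) ≤ (Nat.log 2 z : ℝ) + 2 := by positivity
  have hsub : ∀ m : ℕ, ∀ B₀ : ℕ, B₀ ≤ B₁ → (m : ℝ) ≤ L ^ B →
      ((Nat.log 2 z : ℝ) + 2) * ∑ d ∈ Icc 1 (m * z ^ B₀), Es x d ≤ (4 * L) * SQ := by
    intro m B₀ hB₀ hmr
    have h1 : ∑ d ∈ Icc 1 (m * z ^ B₀), Es x d ≤ SQ := by
      rw [hSQ]
      apply sum_le_sum_of_subset_of_nonneg
      · apply Icc_subset_Icc_right
        apply Nat.le_floor
        push_cast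
        calc (m : ℝ) * (z : ℝ) ^ B₀ ≤ (x : ℝ) ^ (1 / 5 : ℝ) * (x : ℝ) ^ (1 / 5 : ℝ) := by
              apply mul_le_mul (hmr.trans hLB5) _ (by positivity) (by positivity)
              exact (pow_le_pow_right₀ hz1 hB₀).trans hzB
          _ = (x : ℝ) ^ (1 / 5 + 1 / 5 : ℝ) := (Real.rpow_add hx0 _ _).symm
          _ = (x : ℝ) ^ (2 / 5 : ℝ) := by norm_num
      · intro d _ _
        exact Es_nonneg x d
    exact mul_le_mul hlog2 h1 (sum_nonneg fun d _ => Es_nonneg x d) (by positivity)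
  have hLB1 : 1 ≤ L ^ B := one_le_pow₀ hL1
  have hm4 : ∀ m : ℕ, (m : ℝ) ≤ L ^ B → (m : ℝ) * ((4 * L) * SQ) ≤ e * PV := by
    intro m hmr
    refine le_trans ?_ herr
    exact mul_le_mul_of_nonneg_right hmr (by positivity)
  obtain ⟨hT, hTQ, -⟩ := hasy z hz2 x
  rw [← hPV] at hT
  obtain ⟨t, ht⟩ : ∃ t : ℝ, t = ((TT x z).card : ℝ) := ⟨_, rfl⟩
  rw [← ht] at hT ⊢
  have hET : ((Nat.log 2 z : ℝ) + 2) * ∑ d ∈ Icc 1 (z ^ B₂), Es x d ≤ e * PV := by
    have h1 := hsub 1 B₂ (by omega) (by rw [Nat.cast_one]; exact hLB1)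
    rw [one_mul] at h1
    have h2 := hm4 1 (by rw [Nat.cast_one]; exact hLB1)
    rw [Nat.cast_one, one_mul] at h2
    linarith
  have hT' : |t - PV| ≤ 2 * e * PV := by linarith
  have hT1 := abs_le.1 hT'
  have hePV : e * PV ≤ 1 / 40 * PV := mul_le_mul_of_nonneg_right he1 hPV0.le
  have htPV : PV ≤ 2 * t := by linarith [hT1.1]
  have ht0 : 0 < t := by linarith
  refine ⟨ht0, ?_, ?_⟩
  · have h1 : 1 / K ≤ cV / 4 := by
      rw [div_le_iff₀ hcV] at hKc
      rw [div_le_iff₀ (by linarith : 0 < K)]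
      linarith
    calc (x : ℝ) / (K * (L * ℓ)) = 1 / K * (x / (L * ℓ)) := by
          rw [div_mul_div_comm, one_mul]
      _ ≤ cV / 4 * (x / (L * ℓ)) := mul_le_mul_of_nonneg_right h1 (by positivity)
      _ = (cV / 2 * (x / (L * ℓ))) / 2 := by ring
      _ ≤ t := by linarith
  · intro m hm hodd hmr
    have hm3 := odd_three hodd
    have hm1 : 1 ≤ m := Nat.pos_of_ne_zero hm.ne_zero
    by_cases hall : m.primeFactors ⊆ OP z
    · have hdl0 := dl_nonneg m hm hm3
      have hdl1 := dl_le_one m hm3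
      have h1 := hTQ m hm hall
      rw [← hPV] at h1
      have hE : (m : ℝ) * ((Nat.log 2 z + 2) * ∑ d ∈ Icc 1 (m * z ^ B₂), Es x d) ≤ e * PV := by
        refine le_trans ?_ (hm4 m hmr)
        exact mul_le_mul_of_nonneg_left (hsub m B₂ (by omega) hmr) (Nat.cast_nonneg _)
      have h4 : |((TQ x z m).card : ℝ) - dl m * PV| ≤ 2 * (e * PV) := by
        refine h1.trans ?_
        linarith
      have h5 : |dl m * PV - dl m * t| ≤ 2 * (e * PV) := by
        rw [← mul_sub, abs_mul, abs_of_nonneg hdl0, abs_sub_comm]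
        calc dl m * |t - PV| ≤ 1 * |t - PV| := mul_le_mul_of_nonneg_right hdl1 (abs_nonneg _)
          _ ≤ _ := by rw [one_mul]; linarith
      have h6 : |((TQ x z m).card : ℝ) - dl m * t| ≤
          |((TQ x z m).card : ℝ) - dl m * PV| + |dl m * PV - dl m * t| := by
        have e' : ((TQ x z m).card : ℝ) - dl m * t =
          (((TQ x z m).card : ℝ) - dl m * PV) + (dl m * PV - dl m * t) := by ring
        rw [e']
        exact abs_add_le _ _
      have h7 : e * PV ≤ e * (2 * t) := mul_le_mul_of_nonneg_left htPV he0.le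
      have h8 : 40 * e * t ≤ ε * t := mul_le_mul_of_nonneg_right heε ht0.le
      have h9 : 0 < e * t := by positivity
      linarith
    · have hex : ∃ q ∈ m.primeFactors, z < q := by
        rw [Finset.not_subset] at hall
        obtain ⟨q, hq, hq2⟩ := hall
        refine ⟨q, hq, ?_⟩
        by_contra hcon
        exact hq2 (mem_OP.2 ⟨Nat.prime_of_mem_primeFactors hq, hm3 q hq, by omega⟩)
      have hcc := clz_card z m hm hm3 hex
      set P' := OP z \ m.primeFactors with hP'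
      have hPz : ∀ p ∈ P', p.Prime ∧ 3 ≤ p ∧ p ≤ z := fun p hp => mem_OP.1 (mem_sdiff.1 hp).1
      have hPm : ∀ p ∈ P', ¬ p ∣ m := fun p hp hpm => (mem_sdiff.1 hp).2
        (Nat.mem_primeFactors.2 ⟨(hPz p hp).1, hpm, hm.ne_zero⟩)
      set X : ℝ := (piN x : ℝ) / (Nat.totient m : ℝ) * VP P' with hX
      have hX0 : 0 ≤ X := by
        have := VP_pos P' fun q hq => (hPz q hq).2.1
        positivity
      set R : ℝ := (Nat.log 2 z + 2) * ErS x m z B₃ P' with hR
      have hR0 : 0 ≤ R := mul_nonneg (by positivity) (ErS_nonneg _ _ _ _ _)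
      have hcl : ∀ s : ℤ, ∀ a ∈ clz z m s, |((NS x m a P').card : ℝ) - X| ≤ e * X + R := by
        intro s a ha
        apply hsc z hz2 P' hPz m hm1 hPm a
        unfold clz at ha
        rw [mem_filter] at ha
        refine Nat.Coprime.symm (Nat.coprime_of_dvd fun k hk hkm hka => ?_)
        exact ha.2.1 k (Nat.mem_primeFactors.2 ⟨hk, hkm, hm.ne_zero⟩)
          (Or.inl (Nat.mod_eq_zero_of_dvd hka))
      have hTS : ∀ s : ℤ, s ≠ 0 → |((TS x z m s).card : ℝ) - (clz z m s).card * X| ≤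
          (clz z m s).card * (e * X + R) := by
        intro s hs
        rw [TS_fiber x z m s hs hm hm3]
        push_cast
        rw [← nsmul_eq_mul, ← sum_const, ← sum_sub_distrib, ← nsmul_eq_mul, ← sum_const]
        exact (abs_sum_le_sum_abs _ _).trans (sum_le_sum (hcl s))
      have hMm : ((clz z m (-1)).card : ℝ) ≤ m := by
        have : (clz z m (-1)).card ≤ m := by
          unfold clz
          exact (card_filter_le _ _).trans (by rw [card_range])
        exact_mod_cast this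
      have hMR : ((clz z m (-1)).card : ℝ) * R ≤ e * PV := by
        have h2 : R ≤ (4 * L) * SQ := by
          refine le_trans ?_ (hsub m B₃ (by omega) hmr)
          apply mul_le_mul_of_nonneg_left _ hlog20
          exact ErS_le x m z B₃ hm1 _ fun p hp => (hPz p hp).1
        calc ((clz z m (-1)).card : ℝ) * R ≤ m * R := mul_le_mul_of_nonneg_right hMm hR0
          _ ≤ m * ((4 * L) * SQ) := mul_le_mul_of_nonneg_left h2 (Nat.cast_nonneg _)
          _ ≤ _ := hm4 m hmr
      have h1 := hTS 1 (by norm_num)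
      rw [hcc] at h1
      have h2 := hTS (-1) (by norm_num)
      -- the decomposition
      have hdec : (TT x z).card = (TS x z m 1).card + (TS x z m (-1)).card +
          ((TT x z).filter (fun p => p ∣ m)).card := by
        have hu : TT x z = (TS x z m 1 ∪ TS x z m (-1)) ∪ (TT x z).filter (fun p => p ∣ m) := by
          ext p
          unfold TS
          rw [mem_union, mem_union, mem_filter, mem_filter, mem_filter]
          constructor
          · intro hp
            have hpp := TT_prime hp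
            by_cases hd : p ∣ m
            · exact Or.inr ⟨hp, hd⟩
            · left
              have h2 : Int.gcd (p : ℤ) m = 1 := by
                rw [Int.gcd_natCast_natCast]
                exact (Nat.Prime.coprime_iff_not_dvd hpp).2 hd
              rcases jacobiSym.eq_one_or_neg_one h2 with h | h
              · exact Or.inl ⟨hp, h⟩
              · exact Or.inr ⟨hp, h⟩
          · rintro ((h | h) | h) <;> exact h.1
        have hj0 : ∀ p ∈ TT x z, p ∣ m → jacobiSym (p : ℤ) m = 0 := by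
          intro p hp hd
          have hpp := TT_prime hp
          have : NeZero m := ⟨hm.ne_zero⟩
          rw [jacobiSym.eq_zero_iff_not_coprime, Int.gcd_natCast_natCast]
          intro h
          exact hpp.one_lt.ne' (Nat.eq_one_of_dvd_coprimes h (dvd_refl p) hd)
        conv_lhs => rw [hu]
        rw [card_union_of_disjoint, card_union_of_disjoint]
        · rw [disjoint_left]
          intro p h3 h4
          unfold TS at h3 h4
          rw [mem_filter] at h3 h4
          rw [h3.2] at h4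
          norm_num at h4
        · rw [disjoint_left]
          intro p h3 h4
          rw [mem_filter] at h4
          have h5 := hj0 p h4.1 h4.2
          unfold TS at h3
          rw [mem_union, mem_filter, mem_filter, h5] at h3
          rcases h3 with h3 | h3
          · exact absurd h3.2 (by norm_num)
          · exact absurd h3.2 (by norm_num)
      have hT0 : (((TT x z).filter (fun p => p ∣ m)).card : ℝ) ≤ e * t := by
        have h3 : ((TT x z).filter (fun p => p ∣ m)).card ≤ m := by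
          have h4 : ((TT x z).filter (fun p => p ∣ m)) ⊆ Icc 1 m := by
            intro p hp
            rw [mem_filter] at hp
            rw [mem_Icc]
            exact ⟨(TT_prime hp.1).one_le, Nat.le_of_dvd hm1 hp.2⟩
          have := card_le_card h4
          rwa [Nat.card_Icc, Nat.add_sub_cancel] at this
        have h4 : (((TT x z).filter (fun p => p ∣ m)).card : ℝ) ≤ m := by exact_mod_cast h3
        have h5 : L ^ B ≤ e * (cV / 4 * (x / L ^ 2)) := by
          have h6 : 4 / (cV * e) * L ^ (B + 2) ≤ x := by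
            calc 4 / (cV * e) * L ^ (B + 2) ≤ 4 / (cV * e) * (1 * L + 1) ^ (B + 2) := by
                  apply mul_le_mul_of_nonneg_left _ (by positivity)
                  exact pow_le_pow_left₀ hL0.le (by linarith) _
              _ ≤ (x : ℝ) ^ (1 / 5 : ℝ) := hx2
              _ ≤ (x : ℝ) ^ (1 : ℝ) := Real.rpow_le_rpow_of_exponent_le (by linarith) (by norm_num)
              _ = x := Real.rpow_one _
          have h7 : L ^ B = (cV * e / 4) / L ^ 2 * (4 / (cV * e) * L ^ (B + 2)) := by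
            rw [pow_add]
            field_simp
          rw [h7]
          calc (cV * e / 4) / L ^ 2 * (4 / (cV * e) * L ^ (B + 2)) ≤ (cV * e / 4) / L ^ 2 * x :=
                mul_le_mul_of_nonneg_left h6 (by positivity)
            _ = e * (cV / 4 * (x / L ^ 2)) := by ring
        have h6 : cV / 4 * (x / L ^ 2) ≤ t := by
          have : cV / 4 * (x / L ^ 2) = (cV / 2 * (x / L ^ 2)) / 2 := by ring
          linarith
        calc (((TT x z).filter (fun p => p ∣ m)).card : ℝ) ≤ L ^ B := h4.trans hmr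
          _ ≤ e * (cV / 4 * (x / L ^ 2)) := h5
          _ ≤ e * t := mul_le_mul_of_nonneg_left h6 he0.le
      have hfin := half_abs t ((TS x z m 1).card) ((TS x z m (-1)).card)
        (((TT x z).filter (fun p => p ∣ m)).card) X ((clz z m (-1)).card) R e PV ht0 he0
        (by linarith) (Nat.cast_nonneg _) hX0 hMR htPV h1 h2 (by rw [ht]; exact_mod_cast hdec)
        (Nat.cast_nonneg _) (Nat.cast_nonneg _) (Nat.cast_nonneg _) hT0
      have hTQS : TQ x z m = TS x z m (-1) := rfl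
      rw [hTQS]
      have hdn := dl_near m hm3 z hz2 hex
      have hdε : 1 / (2 * ((z : ℝ) - 1)) ≤ ε / 2 := by
        have h3 : 1 / ε ≤ (z : ℝ) - 1 := by
          have h4 := Nat.le_ceil (1 / ε)
          have h5 : ((⌈1 / ε⌉₊ : ℕ) : ℝ) + 3 ≤ z := by
            have : ⌈1 / ε⌉₊ + 3 ≤ z := by omega
            exact_mod_cast this
          linarith
        have h4 : 0 < 1 / ε := by positivity
        rw [div_le_iff₀ (by linarith)]
        rw [div_le_iff₀ hε] at h3
        linarith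
      have h3 : |1 / 2 * t - dl m * t| ≤ ε / 2 * t := by
        rw [← sub_mul, abs_mul, abs_of_pos ht0, abs_sub_comm]
        exact mul_le_mul_of_nonneg_right (hdn.trans hdε) ht0.le
      have h4 : |((TS x z m (-1)).card : ℝ) - dl m * t| ≤
          |((TS x z m (-1)).card : ℝ) - 1 / 2 * t| + |1 / 2 * t - dl m * t| := by
        have e' : ((TS x z m (-1)).card : ℝ) - dl m * t =
          (((TS x z m (-1)).card : ℝ) - 1 / 2 * t) + (1 / 2 * t - dl m * t) := by ring
        rw [e']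
        exact abs_add_le _ _
      have h8 : 40 * e * t ≤ ε * t := mul_le_mul_of_nonneg_right heε ht0.le
      linarith

end Pool.Agent.KS6_18
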