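import Mathlib
import Pool.Agent.KS6_18.Small

set_option autoImplicit false

/-! Averages over the logarithmic scale. -/

namespace Pool.Agent.KS6_18

open Finset Filter
open Pool.Agent.Y855
open Pool.Agent.N430.LK (TT_prime TT_le jac_sum few_biased)

/-- the integers `x` of the window -/
noncomputable def WX (N : ℕ) (C1 C2 : ℝ) : Finset ℕ := Icc ⌈(N : ℝ) ^ C1⌉₊ ⌊(N : ℝ) ^ C2⌋₊

lemma mem_WX {N : ℕ} {C1 C2 : ℝ} {x : ℕ} : x ∈ WX N C1 C2 ↔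
    (N : ℝ) ^ C1 ≤ x ∧ (x : ℝ) ≤ (N : ℝ) ^ C2 := by
  unfold WX
  rw [mem_Icc, Nat.ceil_le, Nat.le_floor_iff (by positivity)]

lemma WX_pos {N : ℕ} {C1 C2 : ℝ} (hN : 1 ≤ N) {x : ℕ} (hx : x ∈ WX N C1 C2) : 1 ≤ x := by
  have h1 := (mem_WX.1 hx).1
  have h2 : (0 : ℝ) < (N : ℝ) ^ C1 := by
    have : (0 : ℝ) < N := by exact_mod_cast hN
    positivity
  have h3 : (0 : ℝ) < x := lt_of_lt_of_le h2 h1
  exact_mod_cast h3

lemma WX_sum (N : ℕ) (C1 C2 : ℝ) (hN : 1 ≤ N) (hC2 : 0 ≤ C2) :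
    ∑ x ∈ WX N C1 C2, 1 / (x : ℝ) ≤ C2 * Real.log N + 1 := by
  have hN0 : (0 : ℝ) < N := by exact_mod_cast hN
  have h1 : WX N C1 C2 ⊆ Icc 1 ⌊(N : ℝ) ^ C2⌋₊ := by
    intro x hx
    rw [mem_Icc]
    exact ⟨WX_pos hN hx, Nat.le_floor (mem_WX.1 hx).2⟩
  have h2 : ∑ x ∈ Icc 1 ⌊(N : ℝ) ^ C2⌋₊, 1 / (x : ℝ) = ((harmonic ⌊(N : ℝ) ^ C2⌋₊ : ℚ) : ℝ) := by
    rw [harmonic_eq_sum_Icc]
    push_cast
    exact sum_congr rfl fun x _ => one_div _
  calc ∑ x ∈ WX N C1 C2, 1 / (x : ℝ) ≤ ∑ x ∈ Icc 1 ⌊(N : ℝ) ^ C2⌋₊, 1 / (x : ℝ) :=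
        sum_le_sum_of_subset_of_nonneg h1 fun _ _ _ => by positivity
    _ ≤ 1 + Real.log ⌊(N : ℝ) ^ C2⌋₊ := by rw [h2]; exact harmonic_le_one_add_log _
    _ ≤ 1 + Real.log ((N : ℝ) ^ C2) := by
        have h3 : 1 ≤ ⌊(N : ℝ) ^ C2⌋₊ := by
          rw [Nat.one_le_floor_iff]
          exact Real.one_le_rpow (by exact_mod_cast hN) hC2
        have h4 : Real.log ⌊(N : ℝ) ^ C2⌋₊ ≤ Real.log ((N : ℝ) ^ C2) :=
          Real.log_le_log (by exact_mod_cast h3) (Nat.floor_le (by positivity))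
        linarith
    _ = C2 * Real.log N + 1 := by rw [Real.log_rpow hN0]; ring

/-- few `x` have many elements of `S` below -/
theorem avg (S I : Finset ℕ) (hS : ∀ p ∈ S, 2 ≤ p) (hI : ∀ x ∈ I, 1 ≤ x) (τ : ℝ) (hτ : 0 < τ) :
    ∑ x ∈ I.filter (fun x : ℕ => τ * x ≤ ((S.filter (fun p => p ≤ x)).card : ℝ)), 1 / (x : ℝ) ≤
      2 / τ * ∑ p ∈ S, 1 / (p : ℝ) := by
  classical
  have h1 : ∀ x ∈ I.filter (fun x : ℕ => τ * x ≤ ((S.filter (fun p => p ≤ x)).card : ℝ)),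
      1 / (x : ℝ) ≤ ∑ p ∈ S, (if p ≤ x then 1 / τ * ((x : ℝ) ^ 2)⁻¹ else 0) := by
    intro x hx
    rw [mem_filter] at hx
    have hx1 : (0 : ℝ) < x := by exact_mod_cast hI x hx.1
    rw [← sum_filter, sum_const, nsmul_eq_mul]
    calc 1 / (x : ℝ) = τ * x * (1 / τ * ((x : ℝ) ^ 2)⁻¹) := by field_simp
      _ ≤ _ := mul_le_mul_of_nonneg_right hx.2 (by positivity)
  refine (sum_le_sum h1).trans ?_
  rw [sum_comm, mul_sum]
  apply sum_le_sum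
  intro p hp
  have hp2 := hS p hp
  have hp0 : (0 : ℝ) < p := by exact_mod_cast (by omega : 0 < p)
  rw [← sum_filter]
  obtain ⟨n, hn⟩ := I.exists_nat_subset_range
  have h2 : (I.filter (fun x : ℕ => τ * x ≤ ((S.filter (fun p => p ≤ x)).card : ℝ))).filter
      (fun x => p ≤ x) ⊆ Ioo (p - 1) n := by
    intro x hx
    rw [mem_filter, mem_filter] at hx
    rw [mem_Ioo]
    have := mem_range.1 (hn hx.1.1)
    omega
  calc _ ≤ ∑ x ∈ Ioo (p - 1) n, 1 / τ * ((x : ℝ) ^ 2)⁻¹ :=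
        sum_le_sum_of_subset_of_nonneg h2 fun _ _ _ => by positivity
    _ = 1 / τ * ∑ x ∈ Ioo (p - 1) n, ((x : ℝ) ^ 2)⁻¹ := by rw [mul_sum]
    _ ≤ 1 / τ * (2 / (((p - 1 : ℕ) : ℝ) + 1)) :=
        mul_le_mul_of_nonneg_left (sum_Ioo_inv_sq_le (p - 1) n) (by positivity)
    _ = 2 / τ * (1 / (p : ℝ)) := by
        rw [Nat.cast_sub (by omega), Nat.cast_one, sub_add_cancel]
        field_simp

open Classical in
/-- the moduli with a bias at `x` -/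
noncomputable def BX (δ : ℝ) (x z N : ℕ) : Finset ℕ :=
  (Icc 1 N).filter (fun m : ℕ => Odd m ∧ Squarefree m ∧
    δ * (TT x z).card < |∑ p ∈ TT x z, (jacobiSym (p : ℤ) m : ℝ)|)

theorem BX_card (δ : ℝ) (hδ : 0 < δ) (r x z N : ℕ) (hr : 1 ≤ r) (hxN : (N : ℝ) ^ 2 ≤ (x : ℝ) ^ r)
    (Y : ℝ) (hx : (x : ℝ) ≤ Y * (TT x z).card) (ht : 0 < ((TT x z).card : ℝ)) :
    ((BX δ x z N).card : ℝ) ≤ 12 * (r / δ ^ 2 * Y) ^ r := by
  classical
  have h := few_biased r x N hr (TT x z) (fun p hp => ⟨TT_prime hp, TT_le hp⟩)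
    (δ * (TT x z).card) (by positivity) (BX δ x z N) (by
      intro m hm
      unfold BX at hm
      rw [mem_filter, mem_Icc] at hm
      exact ⟨hm.1.2, hm.2.1, hm.2.2.1, hm.2.2.2.le⟩)
  set t : ℝ := ((TT x z).card : ℝ) with htd
  have h1 : 6 * ((x : ℝ) ^ r + (N : ℝ) ^ 2) * (r * t) ^ r ≤ 12 * ((Y * t) ^ r * (r * t) ^ r) := by
    have h2 : (x : ℝ) ^ r ≤ (Y * t) ^ r := pow_le_pow_left₀ (Nat.cast_nonneg _) hx r
    have h3 : 0 ≤ (r * t) ^ r := by positivity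
    calc 6 * ((x : ℝ) ^ r + (N : ℝ) ^ 2) * (r * t) ^ r ≤ 6 * ((Y * t) ^ r + (Y * t) ^ r) * (r * t) ^ r := by
          apply mul_le_mul_of_nonneg_right _ h3
          linarith
      _ = _ := by ring
  have h4 : ((BX δ x z N).card : ℝ) * (δ * t) ^ (2 * r) ≤ 12 * ((Y * t) ^ r * (r * t) ^ r) :=
    h.trans h1
  have h5 : (0 : ℝ) < (δ * t) ^ (2 * r) := by positivity
  rw [← le_div_iff₀ h5] at h4
  refine h4.trans (le_of_eq ?_)
  rw [pow_mul, mul_pow δ t 2, ← mul_pow, mul_div_assoc, ← div_pow]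
  congr 2
  field_simp

open Classical in
/-- the moduli with a bias for many `x` -/
noncomputable def BB (δ η : ℝ) (N z : ℕ) (C1 C2 : ℝ) (Z : ℝ) : Finset ℕ :=
  (Icc 1 N).filter (fun m : ℕ => Z < m ∧
    η * Real.log N < ∑ x ∈ (WX N C1 C2).filter (fun x => m ∈ BX δ x z N), 1 / (x : ℝ))

theorem BB_card (δ η : ℝ) (hη : 0 < η) (N z : ℕ) (C1 C2 : ℝ) (Z : ℝ)
    (hN : 1 ≤ N) (hL : 0 < Real.log N) (hC2 : 0 ≤ C2) (M : ℝ)
    (hM0 : 0 ≤ M) (hM : ∀ x ∈ WX N C1 C2, ((BX δ x z N).card : ℝ) ≤ M) :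
    ((BB δ η N z C1 C2 Z).card : ℝ) * (η * Real.log N) ≤ M * (C2 * Real.log N + 1) := by
  classical
  calc ((BB δ η N z C1 C2 Z).card : ℝ) * (η * Real.log N) =
      ∑ _m ∈ BB δ η N z C1 C2 Z, η * Real.log N := by rw [sum_const, nsmul_eq_mul]
    _ ≤ ∑ m ∈ BB δ η N z C1 C2 Z, ∑ x ∈ (WX N C1 C2).filter (fun x => m ∈ BX δ x z N),
        1 / (x : ℝ) := by
        apply sum_le_sum
        intro m hm
        unfold BB at hm
        exact (mem_filter.1 hm).2.2.le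
    _ ≤ ∑ m ∈ Icc 1 N, ∑ x ∈ (WX N C1 C2).filter (fun x => m ∈ BX δ x z N), 1 / (x : ℝ) := by
        apply sum_le_sum_of_subset_of_nonneg
        · unfold BB
          exact filter_subset _ _
        · intro _ _ _
          exact sum_nonneg fun _ _ => by positivity
    _ = ∑ x ∈ WX N C1 C2, ∑ m ∈ Icc 1 N, (if m ∈ BX δ x z N then 1 / (x : ℝ) else 0) := by
        rw [sum_comm]
        apply sum_congr rfl
        intro m _
        rw [sum_filter]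
    _ ≤ ∑ x ∈ WX N C1 C2, M * (1 / (x : ℝ)) := by
        apply sum_le_sum
        intro x hx
        rw [← sum_filter, sum_const, nsmul_eq_mul]
        apply mul_le_mul_of_nonneg_right _ (by positivity)
        refine le_trans ?_ (hM x hx)
        exact_mod_cast card_le_card (fun m hm => (mem_filter.1 hm).2)
    _ = M * ∑ x ∈ WX N C1 C2, 1 / (x : ℝ) := by rw [mul_sum]
    _ ≤ M * (C2 * Real.log N + 1) := by
        exact mul_le_mul_of_nonneg_left (WX_sum N C1 C2 hN hC2) hM0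

end Pool.Agent.KS6_18
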