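import Mathlib
import Pool.Agent.KS6_18.Abs

set_option autoImplicit false

/-! The data attached to a prime `p ≡ 1 mod d`: a prime ideal of norm `p`, the characters of order
`l ∣ d` modulo `p` and the `l`-th powers of their Gauss sums. -/

namespace Pool.Agent.KS6_18

open Finset MulChar NumberField IsCyclotomicExtension

section
variable (d : ℕ) [NeZero d] (K : Type*) [Field K] [NumberField K] [IsCyclotomicExtension {d} ℚ K]

/-- existence of a homomorphism -/
lemma exists_r {p : ℕ} [Fact p.Prime] (hpd : d ∣ p - 1) : Nonempty (𝓞 K →+* ZMod p) := by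
  have hp : p.Prime := Fact.out
  have hd0 : (d : ZMod p) ≠ 0 := by
    intro h
    rw [ZMod.natCast_eq_zero_iff] at h
    have h1 := Nat.le_of_dvd (NeZero.pos d) h
    have h2 := Nat.le_of_dvd (by have := hp.two_le; omega) hpd
    have := hp.two_le
    omega
  have : NeZero (d : ZMod p) := ⟨hd0⟩
  -- a primitive `d`-th root of unity modulo `p`
  obtain ⟨ζ, hζ⟩ : ∃ ζ : ZMod p, IsPrimitiveRoot ζ d := by
    obtain ⟨g, hg⟩ := IsCyclic.exists_generator (α := (ZMod p)ˣ)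
    have h1 : orderOf g = p - 1 := by
      rw [orderOf_eq_card_of_forall_mem_zpowers hg, Nat.card_eq_fintype_card,
        ZMod.card_units_eq_totient, Nat.totient_prime hp]
    have h2 : IsPrimitiveRoot (g : ZMod p) (p - 1) := by
      rw [IsPrimitiveRoot.coe_units_iff, ← h1]
      exact IsPrimitiveRoot.orderOf g
    exact ⟨_, h2.pow (by have := hp.two_le; omega) (Nat.div_mul_cancel hpd).symm⟩
  have hz := IsCyclotomicExtension.zeta_spec d ℚ K
  set pb := hz.integralPowerBasis with hpb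
  have hgen : pb.gen = ze d K := hz.integralPowerBasis_gen
  have hmin : minpoly ℤ pb.gen = Polynomial.cyclotomic d ℤ := by
    rw [hgen, Polynomial.cyclotomic_eq_minpoly hz (NeZero.pos d), ← RingOfIntegers.minpoly_coe]
    rfl
  have hroot : Polynomial.aeval ζ (minpoly ℤ pb.gen) = 0 := by
    rw [hmin, Polynomial.aeval_def, Polynomial.eval₂_eq_eval_map, Polynomial.map_cyclotomic]
    exact hζ.isRoot_cyclotomic (NeZero.pos d)
  exact ⟨(pb.lift ζ hroot).toRingHom⟩

/-- the data attached to `p` -/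
structure PData (p : ℕ) where
  m : Ideal (𝓞 K)
  Φ : ℕ → 𝓞 K
  χ : ℕ → MulChar (ZMod p) (𝓞 K)
  norm_m : Ideal.absNorm m = p
  fac : ∀ l, l.Prime → l ∣ d →
    Ideal.span {Φ l} = ∏ σ : Gal(K/ℚ), (m.map (sg σ⁻¹)) ^ (l - cx d K l σ)
  abs : ∀ l, l.Prime → l ∣ d → ∀ w : 𝓞 K →+* ℂ, ‖w (Φ l)‖ ^ 2 = (p : ℝ) ^ l
  frob : ∀ l, l.Prime → l ∣ d → ∀ q : ℕ, ∀ _ : Fact q.Prime, p ≠ q →
    ∀ Q : Ideal (𝓞 K), Q.IsMaximal → (q : 𝓞 K) ∈ Q → ¬ q ∣ d → ∀ n : ℕ, q ^ n ≡ 1 [MOD l] →
    Ideal.Quotient.mk Q ((Φ l) ^ ((q ^ n - 1) / l) * (χ l (q : ZMod p)) ^ n) = 1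
  χ_pow : ∀ l, l.Prime → l ∣ d → (χ l) ^ l = 1
  χ_one : ∀ l, l.Prime → l ∣ d → ∀ x : ZMod p, χ l x = 1 ↔ x ^ ((p - 1) / l) = 1

lemma map_ker {p : ℕ} (r : 𝓞 K →+* ZMod p) (σ : Gal(K/ℚ)) :
    (RingHom.ker r).map (sg σ⁻¹) = PP r σ := by
  apply le_antisymm
  · rw [Ideal.map_le_iff_le_comap]
    intro x hx
    rw [Ideal.mem_comap, mem_PP, sg_apply, sg_apply, smul_inv_smul]
    exact hx
  · intro x hx
    rw [mem_PP] at hx
    have h1 : x = sg σ⁻¹ (sg σ x) := by rw [sg_apply, sg_apply, inv_smul_smul]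
    rw [h1]
    exact Ideal.mem_map_of_mem _ hx

theorem exists_PD {p : ℕ} (hp : p.Prime) (hpd : d ∣ p - 1) : Nonempty (PData d K p) := by
  have : Fact p.Prime := ⟨hp⟩
  obtain ⟨r⟩ := exists_r d K hpd
  refine ⟨⟨RingHom.ker r, fun l => Phi (chr l r) l, fun l => chr l r, ?_, ?_, ?_, ?_, ?_, ?_⟩⟩
  · rw [Ideal.absNorm_apply, Submodule.cardQuot_apply]
    have e := RingHom.quotientKerEquivOfSurjective (f := r) (ZMod.ringHom_surjective _)
    have h := Nat.card_congr e.toEquiv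
    rw [Nat.card_zmod] at h
    exact h
  · intro l hl hld
    rw [Phi_fac d K r hl hld hpd]
    apply prod_congr rfl
    intro σ _
    rw [map_ker]
  · intro l hl hld w
    exact Phi_abs d K r hl hld hpd w
  · intro l hl hld q hq hpq Q hQ hqQ hqd n hn
    let _ : Field (𝓞 K ⧸ Q) := Ideal.Quotient.field Q
    have hchar : CharP (𝓞 K ⧸ Q) q := by
      rw [CharP.charP_iff_prime_eq_zero hq.out, ← map_natCast (Ideal.Quotient.mk Q),
        Ideal.Quotient.eq_zero_iff_mem]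
      exact hqQ
    have hlk : (l : 𝓞 K ⧸ Q) ≠ 0 := by
      apply CharP.cast_ne_zero_of_ne_of_prime _ hl (p := q)
      rintro rfl
      exact hqd hld
    have ho := chr_order_map (ze_l d K hld) hl (hld.trans hpd) r (Ideal.Quotient.mk Q) hlk
    have h1 := frob_char hpq (Ideal.Quotient.mk Q) (chr l r) l hl.two_le ho n hn
    rw [map_mul, map_pow, map_pow]
    exact h1
  · intro l hl hld
    exact chr_pow (ze_l d K hld) hl (hld.trans hpd) r
  · intro l hl hld x
    exact chr_eq_one (ze_l d K hld) hl (hld.trans hpd) r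

end

end Pool.Agent.KS6_18
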