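import Mathlib
import Pool.Agent.KS6_18.PD

set_option autoImplicit false

/-! Small generators and labels. -/

namespace Pool.Agent.KS6_18

open Finset MulChar NumberField IsCyclotomicExtension Module

section
variable (K : Type*) [Field K] [NumberField K]

/-- the index set of the integral basis -/
abbrev IX := Module.Free.ChooseBasisIndex ℤ (𝓞 K)

/-- the integer with given coordinates -/
noncomputable def vec (c : IX K → ℤ) : 𝓞 K := (RingOfIntegers.basis K).equivFun.symm c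

lemma vec_sum (c : IX K → ℤ) : vec K c = ∑ i, c i • RingOfIntegers.basis K i := by
  unfold vec
  rw [Basis.equivFun_symm_apply]

lemma vec_sub (c c' : IX K → ℤ) : vec K (c - c') = vec K c - vec K c' := by
  unfold vec
  rw [map_sub]

lemma vec_inj : Function.Injective (vec K) := (RingOfIntegers.basis K).equivFun.symm.injective

lemma card_IX : Fintype.card (IX K) = Module.finrank ℚ K := by
  rw [← RingOfIntegers.rank, Module.finrank_eq_card_chooseBasisIndex]

/-- the pigeonhole principle -/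
lemma pigeon (I : Ideal (𝓞 K)) (hI : I ≠ ⊥) (h : ℕ)
    (hh : Ideal.absNorm I < (h + 1) ^ Module.finrank ℚ K) :
    ∃ c : IX K → ℤ, c ≠ 0 ∧ (∀ i, |c i| ≤ h) ∧ vec K c ∈ I := by
  classical
  have hfin : Finite (𝓞 K ⧸ I) := Ring.HasFiniteQuotients.finiteQuotient hI
  have := Fintype.ofFinite (𝓞 K ⧸ I)
  have hcard : Fintype.card (𝓞 K ⧸ I) = Ideal.absNorm I := by
    rw [Ideal.absNorm_apply, Submodule.cardQuot_apply, Nat.card_eq_fintype_card]
  set S : Finset (IX K → ℤ) := Fintype.piFinset (fun _ => Icc (0 : ℤ) h) with hS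
  have hSc : S.card = (h + 1) ^ Module.finrank ℚ K := by
    rw [hS, Fintype.card_piFinset, prod_const, Int.card_Icc, card_univ, card_IX]
    congr 1
  obtain ⟨c, hc, c', hc', hne, heq⟩ := Finset.exists_ne_map_eq_of_card_lt_of_maps_to
    (s := S) (t := (univ : Finset (𝓞 K ⧸ I))) (f := fun c => Ideal.Quotient.mk I (vec K c))
    (by rw [card_univ, hcard, hSc]; exact hh) (fun _ _ => mem_univ _)
  refine ⟨c - c', sub_ne_zero.2 hne, ?_, ?_⟩
  · intro i
    rw [hS, Fintype.mem_piFinset] at hc hc'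
    have h1 := mem_Icc.1 (hc i)
    have h2 := mem_Icc.1 (hc' i)
    rw [Pi.sub_apply, abs_le]
    constructor <;> linarith [h1.1, h1.2, h2.1, h2.2]
  · rw [vec_sub]
    exact Ideal.Quotient.eq.1 heq

lemma exists_root (n N : ℕ) (hn : n ≠ 0) : ∃ h : ℕ, h ^ n ≤ N ∧ N < (h + 1) ^ n := by
  have hex : ∃ h : ℕ, N < (h + 1) ^ n :=
    ⟨N, lt_of_lt_of_le (Nat.lt_succ_self N) (Nat.le_self_pow hn _)⟩
  classical
  refine ⟨Nat.find hex, ?_, Nat.find_spec hex⟩
  by_cases h0 : Nat.find hex = 0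
  · rw [h0, zero_pow hn]; exact Nat.zero_le _
  · have h1 := Nat.find_min hex (m := Nat.find hex - 1) (by omega)
    rw [Nat.sub_add_cancel (by omega)] at h1
    exact not_lt.1 h1

/-- size of an element of the box in all embeddings -/
lemma vec_size : ∃ B : ℝ, 1 ≤ B ∧ ∀ (W : K →+* ℂ) (c : IX K → ℤ) (h : ℝ), (∀ i, |(c i : ℝ)| ≤ h) →
    ‖W (algebraMap (𝓞 K) K (vec K c))‖ ≤ B * h := by
  classical
  set B : ℝ := 1 + ∑ w : K →+* ℂ, ∑ i, ‖w (algebraMap (𝓞 K) K (RingOfIntegers.basis K i))‖ with hB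
  have hB1 : 1 ≤ B := by
    rw [hB, le_add_iff_nonneg_right]
    exact sum_nonneg fun _ _ => sum_nonneg fun _ _ => norm_nonneg _
  refine ⟨B, hB1, ?_⟩
  intro W c h hc
  have hh : ∀ i, ‖W (algebraMap (𝓞 K) K (c i • RingOfIntegers.basis K i))‖ ≤
      h * ‖W (algebraMap (𝓞 K) K (RingOfIntegers.basis K i))‖ := by
    intro i
    rw [zsmul_eq_mul, map_mul, map_mul, map_intCast, map_intCast, norm_mul, Complex.norm_intCast]
    exact mul_le_mul_of_nonneg_right (hc i) (norm_nonneg _)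
  rw [vec_sum, map_sum, map_sum]
  by_cases hne : Nonempty (IX K)
  · have hh0 : 0 ≤ h := (abs_nonneg _).trans (hc hne.some)
    calc _ ≤ ∑ i, ‖W (algebraMap (𝓞 K) K (c i • RingOfIntegers.basis K i))‖ := norm_sum_le _ _
      _ ≤ ∑ i, h * ‖W (algebraMap (𝓞 K) K (RingOfIntegers.basis K i))‖ :=
        sum_le_sum fun i _ => hh i
      _ = h * ∑ i, ‖W (algebraMap (𝓞 K) K (RingOfIntegers.basis K i))‖ := by rw [mul_sum]
      _ ≤ h * B := by
        apply mul_le_mul_of_nonneg_left _ hh0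
        rw [hB]
        have := single_le_sum (f := fun w : K →+* ℂ =>
          ∑ i, ‖w (algebraMap (𝓞 K) K (RingOfIntegers.basis K i))‖)
          (fun _ _ => sum_nonneg fun _ _ => norm_nonneg _) (mem_univ W)
        linarith
      _ = B * h := mul_comm _ _
  · exfalso
    apply hne
    rw [← Fintype.card_pos_iff, card_IX]
    exact Module.finrank_pos

lemma norm_prod_aut [IsGalois ℚ K] (β : 𝓞 K) :
    ((Algebra.norm ℤ β : ℤ) : 𝓞 K) = ∏ σ : Gal(K/ℚ), sg σ β := by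
  apply FaithfulSMul.algebraMap_injective (𝓞 K) K
  have h1 := Algebra.norm_eq_prod_automorphisms ℚ (algebraMap (𝓞 K) K β)
  rw [← Algebra.coe_norm_int] at h1
  rw [map_prod, map_intCast]
  rw [eq_ratCast, Rat.cast_intCast] at h1
  exact h1

lemma sg_coe (σ : Gal(K/ℚ)) (x : 𝓞 K) :
    algebraMap (𝓞 K) K (sg σ x) = σ (algebraMap (𝓞 K) K x) := rfl

lemma finite_bdd (B : ℝ) : {x : 𝓞 K | ∀ W : K →+* ℂ, ‖W (algebraMap (𝓞 K) K x)‖ ≤ B}.Finite := by
  have h1 := Embeddings.finite_of_norm_le K ℂ B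
  apply Set.Finite.of_injOn (f := fun x : 𝓞 K => algebraMap (𝓞 K) K x) (t := _) _ _ h1
  · intro x hx
    exact ⟨RingOfIntegers.isIntegral_coe x, hx⟩
  · exact (FaithfulSMul.algebraMap_injective (𝓞 K) K).injOn

end

section
variable (d : ℕ) [NeZero d] (K : Type*) [Field K] [NumberField K] [IsCyclotomicExtension {d} ℚ K]

/-- the Stickelberger element applied to `β` -/
noncomputable def el (l : ℕ) (β : 𝓞 K) : 𝓞 K := ∏ σ : Gal(K/ℚ), (sg σ⁻¹ β) ^ (l - cx d K l σ)

lemma cx_sum {l : ℕ} (hl : l.Prime) (hld : l ∣ d) :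
    2 * ∑ σ : Gal(K/ℚ), (l - cx d K l σ) = Module.finrank ℚ K * l := by
  classical
  have hG : IsGalois ℚ K := IsCyclotomicExtension.isGalois {d} ℚ K
  have hcard : Fintype.card Gal(K/ℚ) = Module.finrank ℚ K := by
    rw [← Nat.card_eq_fintype_card]
    exact IsGalois.card_aut_eq_finrank ℚ K
  set e := IsCyclotomicExtension.Rat.galEquivZMod d K
  -- the involution
  set f : Gal(K/ℚ) ≃ Gal(K/ℚ) := (e.toEquiv.trans (Equiv.neg (ZMod d)ˣ)).trans e.toEquiv.symm with hf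
  have hfc : ∀ σ, cx d K l (f σ) = l - cx d K l σ := by
    intro σ
    have h1 : ax d K (f σ) + ax d K σ ≡ 0 [MOD d] := by
      rw [← ZMod.natCast_eq_natCast_iff]
      unfold ax
      push_cast
      rw [ZMod.natCast_zmod_val, ZMod.natCast_zmod_val]
      have h0 : e (f σ) = -(e σ) := e.apply_symm_apply (-(e σ))
      have h00 : ((e (f σ) : (ZMod d)ˣ) : ZMod d) + ((e σ : (ZMod d)ˣ) : ZMod d) = 0 := by
        rw [h0, Units.val_neg, neg_add_cancel]
      exact h00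
    have h2 : ax d K (f σ) + ax d K σ ≡ 0 [MOD l] := h1.of_dvd hld
    have h3 : cx d K l (f σ) + cx d K l σ ≡ 0 [MOD l] := by
      refine Nat.ModEq.trans ?_ h2
      exact Nat.ModEq.add (Nat.mod_modEq _ _) (Nat.mod_modEq _ _)
    have h4 := cx_pos d K hl hld σ
    have h5 := cx_pos d K hl hld (f σ)
    have h6 := cx_lt d K hl σ
    have h7 := cx_lt d K hl (f σ)
    obtain ⟨m, hm⟩ := (Nat.modEq_zero_iff_dvd).1 h3
    have hm1 : m = 1 := by
      have h8 : m < 2 := by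
        by_contra h
        have : l * 2 ≤ l * m := Nat.mul_le_mul_left _ (by omega)
        omega
      have h9 : m ≠ 0 := by rintro rfl; omega
      omega
    rw [hm1] at hm
    omega
  have h1 : ∑ σ : Gal(K/ℚ), (l - cx d K l σ) = ∑ σ : Gal(K/ℚ), cx d K l σ := by
    rw [← Equiv.sum_comp f]
    apply sum_congr rfl
    intro σ _
    rw [hfc]
    have := cx_lt d K hl σ
    omega
  have h2 : ∑ σ : Gal(K/ℚ), (l - cx d K l σ) + ∑ σ : Gal(K/ℚ), cx d K l σ =
      Module.finrank ℚ K * l := by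
    rw [← sum_add_distrib, sum_congr rfl (fun σ _ => Nat.sub_add_cancel (cx_lt d K hl σ).le),
      sum_const, card_univ, hcard, smul_eq_mul]
  omega

lemma el_size {l : ℕ} (hl : l.Prime) (hld : l ∣ d) (W : K →+* ℂ) (β : 𝓞 K) (M : ℝ)
    (hM : ∀ W : K →+* ℂ, ‖W (algebraMap (𝓞 K) K β)‖ ≤ M) :
    ‖W (algebraMap (𝓞 K) K (el d K l β))‖ ^ 2 ≤ M ^ (Module.finrank ℚ K * l) := by
  unfold el
  rw [map_prod, map_prod, norm_prod, ← prod_pow]
  simp only [map_pow, norm_pow]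
  rw [← cx_sum d K hl hld, mul_comm 2, pow_mul, ← prod_pow_eq_pow_sum, ← prod_pow]
  apply prod_le_prod
  · intro σ _
    positivity
  · intro σ _
    apply pow_le_pow_left₀ (by positivity)
    apply pow_le_pow_left₀ (norm_nonneg _)
    rw [sg_coe]
    exact hM (W.comp ((σ⁻¹ : Gal(K/ℚ)) : K →+* K))

/-- divisibility of the Stickelberger element -/
lemma el_dvd {l : ℕ} (hl : l.Prime) (hld : l ∣ d) {ι : Type*} [Fintype ι] (s : ι → ℕ)
    (D : ∀ j, PData d K (s j)) (β : 𝓞 K) (hβ : β ∈ ∏ j, (D j).m) :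
    ∏ j, (D j).Φ l ∣ el d K l β := by
  rw [← Ideal.mem_span_singleton, ← Ideal.prod_span_singleton,
    prod_congr rfl (fun j _ => (D j).fac l hl hld), prod_comm]
  unfold el
  apply Ideal.prod_mem_prod
  intro σ _
  rw [prod_pow]
  apply Ideal.pow_mem_pow
  have h1 : sg σ⁻¹ β ∈ Ideal.map (sg σ⁻¹) (∏ j, (D j).m) := Ideal.mem_map_of_mem _ hβ
  have h2 : Ideal.map (sg σ⁻¹) (∏ j, (D j).m) = ∏ j, (D j).m.map (sg σ⁻¹) :=
    map_prod (Ideal.mapHom (sg σ⁻¹)) _ _
  rwa [h2] at h1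

lemma sg_inj {K : Type*} [Field K] [NumberField K] (σ : Gal(K/ℚ)) {x : 𝓞 K} (hx : x ≠ 0) :
    sg σ x ≠ 0 := by
  intro h
  apply hx
  have h1 := congrArg (sg σ⁻¹) h
  rwa [sg_apply, sg_apply, inv_smul_smul, map_zero] at h1

lemma el_ne {l : ℕ} {β : 𝓞 K} (hβ : β ≠ 0) : el d K l β ≠ 0 := by
  unfold el
  exact prod_ne_zero_iff.2 fun σ _ => pow_ne_zero _ (sg_inj _ hβ)

/-- the norm of an element of bounded size -/
lemma norm_le_of {K : Type*} [Field K] [NumberField K] [IsGalois ℚ K] (β : 𝓞 K) (M : ℝ)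
    (hM : ∀ W : K →+* ℂ, ‖W (algebraMap (𝓞 K) K β)‖ ≤ M) :
    |((Algebra.norm ℤ β : ℤ) : ℝ)| ≤ M ^ Module.finrank ℚ K := by
  have hcard : Fintype.card Gal(K/ℚ) = Module.finrank ℚ K := by
    rw [← Nat.card_eq_fintype_card]
    exact IsGalois.card_aut_eq_finrank ℚ K
  obtain ⟨W⟩ : Nonempty (K →+* ℂ) := inferInstance
  have h1 := congrArg (fun x => ‖W (algebraMap (𝓞 K) K x)‖) (norm_prod_aut K β)
  simp only [map_intCast, map_prod, norm_prod, Complex.norm_intCast] at h1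
  rw [h1, ← hcard, ← card_univ, ← prod_const]
  apply prod_le_prod
  · intro σ _
    exact norm_nonneg _
  · intro σ _
    rw [sg_coe]
    exact hM (W.comp ((σ : Gal(K/ℚ)) : K →+* K))

/-- small generators, up to finitely many labels -/
theorem labels : ∃ (Γ : Finset (𝓞 K)) (G : ℕ), ∀ (ι : Type) [Fintype ι] (s : ι → ℕ)
    (D : ∀ j, PData d K (s j)), (∀ j, 0 < s j) →
    ∃ c : IX K → ℤ, c ≠ 0 ∧ (∀ i, (c i).natAbs ^ Module.finrank ℚ K ≤ ∏ j, s j) ∧
      (∀ l, l.Prime → l ∣ d → ∃ γ ∈ Γ, γ ≠ 0 ∧ (∏ j, (D j).Φ l) * γ = el d K l (vec K c)) ∧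
      ∃ g : ℤ, g ≠ 0 ∧ g.natAbs ≤ G ∧ Algebra.norm ℤ (vec K c) = g * ∏ j, (s j : ℤ) := by
  classical
  obtain ⟨B, hB1, hB⟩ := vec_size K
  set n := Module.finrank ℚ K with hn
  have hn0 : n ≠ 0 := Module.finrank_pos.ne'
  have hfin := finite_bdd K (B ^ (n * d))
  refine ⟨hfin.toFinset, ⌊B ^ n⌋₊, ?_⟩
  intro ι _ s D hs
  have hB0 : 0 ≤ B := by linarith
  set N := ∏ j, s j with hN
  have hN0 : 0 < N := prod_pos fun j _ => hs j
  have hNr : (0 : ℝ) < N := by exact_mod_cast hN0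
  have hnorm : Ideal.absNorm (∏ j, (D j).m) = N := by
    rw [map_prod, hN]
    exact prod_congr rfl fun j _ => (D j).norm_m
  have hI : ∏ j, (D j).m ≠ ⊥ := by
    intro h
    rw [h, Ideal.absNorm_bot] at hnorm
    omega
  obtain ⟨h, hh1, hh2⟩ := exists_root n N hn0
  obtain ⟨c, hc0, hcb, hcI⟩ := pigeon K _ hI h (by rw [hnorm]; exact hh2)
  have hβ0 : vec K c ≠ 0 := by
    intro h0
    apply hc0
    apply vec_inj K
    rw [h0]
    unfold vec
    rw [map_zero]
  have hsize : ∀ W : K →+* ℂ, ‖W (algebraMap (𝓞 K) K (vec K c))‖ ≤ B * h := by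
    intro W
    apply hB
    intro i
    exact_mod_cast hcb i
  have hhN : (h : ℝ) ^ n ≤ N := by exact_mod_cast hh1
  refine ⟨c, hc0, ?_, ?_, ?_⟩
  · intro i
    have h1 : (c i).natAbs ≤ h := by
      have := hcb i
      rw [Int.abs_eq_natAbs] at this
      exact_mod_cast this
    exact (Nat.pow_le_pow_left h1 n).trans hh1
  · intro l hl hld
    obtain ⟨γ, hγ⟩ := el_dvd d K hl hld s D (vec K c) hcI
    have hγ0 : γ ≠ 0 := by
      rintro rfl
      rw [mul_zero] at hγ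
      exact el_ne d K hβ0 hγ
    refine ⟨γ, ?_, hγ0, hγ.symm⟩
    rw [Set.Finite.mem_toFinset]
    intro W
    have h1 := el_size d K hl hld W (vec K c) (B * h) hsize
    rw [hγ, map_mul, map_mul, norm_mul, mul_pow, map_prod, map_prod, norm_prod, ← prod_pow] at h1
    have h2 : ∀ j, ‖W (algebraMap (𝓞 K) K ((D j).Φ l))‖ ^ 2 = (s j : ℝ) ^ l := by
      intro j
      exact (D j).abs l hl hld (W.comp (algebraMap (𝓞 K) K))
    rw [prod_congr rfl (fun j _ => h2 j), prod_pow, mul_pow, ← hn] at h1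
    have h3 : ((∏ j, (s j : ℝ)) : ℝ) = (N : ℝ) := by rw [hN]; push_cast; rfl
    rw [h3] at h1
    have h4 : (h : ℝ) ^ (n * l) ≤ (N : ℝ) ^ l := by
      rw [pow_mul]
      exact pow_le_pow_left₀ (by positivity) hhN l
    have h5 : (N : ℝ) ^ l * ‖W (algebraMap (𝓞 K) K γ)‖ ^ 2 ≤ (N : ℝ) ^ l * B ^ (n * l) := by
      calc _ ≤ B ^ (n * l) * (h : ℝ) ^ (n * l) := h1
        _ ≤ B ^ (n * l) * (N : ℝ) ^ l := mul_le_mul_of_nonneg_left h4 (by positivity)
        _ = _ := mul_comm _ _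
    have h6 : ‖W (algebraMap (𝓞 K) K γ)‖ ^ 2 ≤ B ^ (n * l) :=
      le_of_mul_le_mul_left h5 (by positivity)
    have h7 : B ^ (n * l) ≤ B ^ (n * d) :=
      pow_le_pow_right₀ hB1 (Nat.mul_le_mul_left _ (Nat.le_of_dvd (NeZero.pos d) hld))
    have h8 : (1 : ℝ) ≤ B ^ (n * d) := one_le_pow₀ hB1
    nlinarith [norm_nonneg (W (algebraMap (𝓞 K) K γ))]
  · obtain ⟨g, hg⟩ := Ideal.absNorm_dvd_norm_of_mem hcI
    have hnz : Algebra.norm ℤ (vec K c) ≠ 0 := by
      rwa [Ne, Algebra.norm_eq_zero_iff]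
    rw [hnorm] at hg
    refine ⟨g, ?_, ?_, ?_⟩
    · rintro rfl
      rw [mul_zero] at hg
      exact hnz hg
    · have hG : IsGalois ℚ K := IsCyclotomicExtension.isGalois {d} ℚ K
      have h1 := norm_le_of (vec K c) (B * h) hsize
      rw [hg, ← hn] at h1
      push_cast at h1
      rw [abs_mul, abs_of_pos hNr, mul_pow] at h1
      have h2 : (N : ℝ) * |(g : ℝ)| ≤ N * B ^ n := by
        calc _ ≤ B ^ n * (h : ℝ) ^ n := h1
          _ ≤ B ^ n * N := mul_le_mul_of_nonneg_left hhN (by positivity)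
          _ = _ := mul_comm _ _
      have h3 : |(g : ℝ)| ≤ B ^ n := le_of_mul_le_mul_left h2 hNr
      apply Nat.le_floor
      rw [Nat.cast_natAbs]
      push_cast
      exact h3
    · rw [hg, hN, mul_comm]
      push_cast
      rfl

end

end Pool.Agent.KS6_18
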