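import Mathlib
import Pool.Agent.KS6_18.Lab

set_option autoImplicit false

/-! Sums of nontrivial periodic multiplicative functions over boxes. -/

namespace Pool.Agent.KS6_18

open Finset NumberField Module

section
variable (K : Type*) [Field K] [NumberField K]

/-- the box -/
noncomputable def bx (h : ℕ) : Finset (IX K → ℤ) := by
  classical exact Fintype.piFinset (fun _ => Icc (-(h : ℤ)) h)

lemma mem_bx {h : ℕ} {c : IX K → ℤ} : c ∈ bx K h ↔ ∀ i, (c i).natAbs ≤ h := by
  classical
  unfold bx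
  rw [Fintype.mem_piFinset]
  apply forall_congr'
  intro i
  rw [mem_Icc]
  omega

lemma card_bx (h : ℕ) : (bx K h).card = (2 * h + 1) ^ Module.finrank ℚ K := by
  classical
  unfold bx
  rw [Fintype.card_piFinset, prod_const, Int.card_Icc, card_univ, card_IX]
  congr 1
  omega

/-- a complete residue system -/
noncomputable def rs (Q : ℕ) : Finset (IX K → ℤ) := by
  classical exact Fintype.piFinset (fun _ => Ico (0 : ℤ) Q)

lemma mem_rs {Q : ℕ} {c : IX K → ℤ} : c ∈ rs K Q ↔ ∀ i, 0 ≤ c i ∧ c i < Q := by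
  classical
  unfold rs
  rw [Fintype.mem_piFinset]
  simp only [mem_Ico]

lemma card_rs (Q : ℕ) : (rs K Q).card = Q ^ Module.finrank ℚ K := by
  classical
  unfold rs
  rw [Fintype.card_piFinset, prod_const, Int.card_Ico, card_univ, card_IX]
  congr 1

lemma vec_add (c c' : IX K → ℤ) : vec K (c + c') = vec K c + vec K c' := by
  unfold vec
  rw [map_add]

lemma vec_surj (x : 𝓞 K) : ∃ c, vec K c = x :=
  ⟨(RingOfIntegers.basis K).equivFun x, (RingOfIntegers.basis K).equivFun.symm_apply_apply x⟩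

lemma vec_nmul (Q : ℕ) (c : IX K → ℤ) : vec K (fun i => Q * c i) = Q * vec K c := by
  have h1 : (fun i => (Q : ℤ) * c i) = (Q : ℤ) • c := by
    ext i
    simp
  rw [h1]
  unfold vec
  rw [map_smul]
  simp

variable {K} (F : 𝓞 K → ℂ) (Q : ℕ) (hper : ∀ x y, F (x + Q * y) = F x)

include hper in
lemma F_congr {x y : 𝓞 K} (h : (Q : 𝓞 K) ∣ x - y) : F x = F y := by
  obtain ⟨z, hz⟩ := h
  have h1 : x = y + Q * z := by rw [← hz]; ring
  rw [h1, hper]

include hper in
/-- complete sums vanish -/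
lemma complete_sum (hQ : 0 < Q) (hmul : ∀ x y, F (x * y) = F x * F y) (w w' : 𝓞 K)
    (hw : (Q : 𝓞 K) ∣ w * w' - 1) (hFw : F w ≠ 1) (c : IX K → ℤ) :
    ∑ s ∈ rs K Q, F (vec K (c + s)) = 0 := by
  classical
  -- the reduction of a vector
  set red : (IX K → ℤ) → (IX K → ℤ) := fun v i => v i % Q with hred
  have hQz : (0 : ℤ) < Q := by exact_mod_cast hQ
  have hredmem : ∀ v, red v ∈ rs K Q := by
    intro v
    rw [mem_rs]
    intro i
    exact ⟨Int.emod_nonneg _ hQz.ne', Int.emod_lt_of_pos _ hQz⟩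
  have hredF : ∀ v v', (∀ i, (Q : ℤ) ∣ v i - v' i) → (Q : 𝓞 K) ∣ vec K v - vec K v' := by
    intro v v' h
    choose m hm using h
    have h1 : v - v' = fun i => (Q : ℤ) * m i := by
      ext i; rw [Pi.sub_apply, hm]
    rw [← vec_sub, h1, vec_nmul]
    exact dvd_mul_right _ _
  have hdvd_coord : ∀ v v', (Q : 𝓞 K) ∣ vec K v - vec K v' → ∀ i, (Q : ℤ) ∣ v i - v' i := by
    intro v v' h i
    obtain ⟨z, hz⟩ := h
    obtain ⟨m, rfl⟩ := vec_surj K z
    rw [← vec_nmul, ← vec_sub] at hz
    have h1 := congrFun (vec_inj K hz) i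
    rw [Pi.sub_apply] at h1
    exact ⟨m i, h1⟩
  -- the coordinates of `x - c` reduced
  set T : 𝓞 K → (IX K → ℤ) := fun x => red ((RingOfIntegers.basis K).equivFun x - c) with hT
  have hTvec : ∀ x, (Q : 𝓞 K) ∣ vec K (c + T x) - x := by
    intro x
    have h1 : vec K ((RingOfIntegers.basis K).equivFun x) = x :=
      (RingOfIntegers.basis K).equivFun.symm_apply_apply x
    have h2 : (Q : 𝓞 K) ∣ vec K (c + T x) - vec K ((RingOfIntegers.basis K).equivFun x) := by
      apply hredF
      intro i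
      simp only [hT, hred, Pi.add_apply, Pi.sub_apply]
      have := Int.emod_add_mul_ediv ((RingOfIntegers.basis K).equivFun x i - c i) Q
      exact ⟨-(((RingOfIntegers.basis K).equivFun x i - c i) / Q), by linarith⟩
    rwa [h1] at h2
  have hTuniq : ∀ x, ∀ s ∈ rs K Q, (Q : 𝓞 K) ∣ vec K (c + s) - x → T x = s := by
    intro x s hs h
    have h1 := dvd_sub (hTvec x) h
    rw [sub_sub_sub_cancel_right] at h1
    have h2 := hdvd_coord _ _ h1
    ext i
    have h3 := h2 i
    simp only [Pi.add_apply, add_sub_add_left_eq_sub] at h3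
    have h4 := (mem_rs K).1 (hredmem ((RingOfIntegers.basis K).equivFun x - c)) i
    have h5 := (mem_rs K).1 hs i
    have h6 : |T x i - s i| < Q := by
      rw [abs_lt]
      constructor <;> linarith [h4.1, h4.2, h5.1, h5.2]
    have h7 := Int.eq_zero_of_abs_lt_dvd h3 h6
    linarith
  have key : ∑ s ∈ rs K Q, F (vec K (c + s)) = F w * ∑ s ∈ rs K Q, F (vec K (c + s)) := by
    rw [mul_sum]
    symm
    apply sum_nbij' (fun s => T (w * vec K (c + s))) (fun s => T (w' * vec K (c + s)))
    · intro s _; exact hredmem _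
    · intro s _; exact hredmem _
    · intro s hs
      apply hTuniq _ s hs
      have h1 := hTvec (w * vec K (c + s))
      have h2 : vec K (c + s) - w' * vec K (c + T (w * vec K (c + s))) =
          -((w * w' - 1) * vec K (c + s)) - w' * (vec K (c + T (w * vec K (c + s))) -
            w * vec K (c + s)) := by ring
      rw [h2]
      exact dvd_sub (dvd_neg.2 (hw.mul_right _)) (h1.mul_left _)
    · intro s hs
      apply hTuniq _ s hs
      have h1 := hTvec (w' * vec K (c + s))
      have h2 : vec K (c + s) - w * vec K (c + T (w' * vec K (c + s))) =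
          -((w * w' - 1) * vec K (c + s)) - w * (vec K (c + T (w' * vec K (c + s))) -
            w' * vec K (c + s)) := by ring
      rw [h2]
      exact dvd_sub (dvd_neg.2 (hw.mul_right _)) (h1.mul_left _)
    · intro s _
      rw [← hmul]
      exact F_congr F Q hper (by
        rw [← dvd_neg, neg_sub]
        exact hTvec _)
  have h1 : (F w - 1) * ∑ s ∈ rs K Q, F (vec K (c + s)) = 0 := by
    rw [sub_mul, one_mul, ← key, sub_self]
  exact (mul_eq_zero.1 h1).resolve_left (sub_ne_zero.2 hFw)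

/-- the number of points of the box near a face -/
lemma card_face (h : ℕ) (i : IX K) :
    ((bx K h).filter (fun c => c i < -(h : ℤ) + Q)).card ≤
      Q * (2 * h + 1) ^ (Module.finrank ℚ K - 1) := by
  classical
  have hsub : (bx K h).filter (fun c => c i < -(h : ℤ) + Q) ⊆
      Fintype.piFinset (fun j => if j = i then Ico (-(h : ℤ)) (-(h : ℤ) + Q) else Icc (-(h : ℤ)) h) := by
    intro c hc
    rw [mem_filter] at hc
    have h1 := hc.1
    unfold bx at h1
    rw [Fintype.mem_piFinset] at h1 ⊢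
    intro j
    split_ifs with hj
    · subst hj
      exact mem_Ico.2 ⟨(mem_Icc.1 (h1 j)).1, hc.2⟩
    · exact h1 j
  refine (card_le_card hsub).trans ?_
  rw [Fintype.card_piFinset, ← mul_prod_erase univ _ (mem_univ i), if_pos rfl]
  have h2 : ∏ j ∈ univ.erase i, ((if j = i then Ico (-(h : ℤ)) (-(h : ℤ) + Q) else
      Icc (-(h : ℤ)) h)).card = (2 * h + 1) ^ (Module.finrank ℚ K - 1) := by
    rw [prod_congr rfl (g := fun _ => 2 * h + 1), prod_const, card_erase_of_mem (mem_univ i),
      card_univ, card_IX]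
    intro j hj
    rw [if_neg (ne_of_mem_erase hj), Int.card_Icc]
    omega
  rw [h2]
  apply Nat.mul_le_mul_right
  rw [Int.card_Ico]
  omega

lemma shift_diff (hb : ∀ x, ‖F x‖ ≤ 1) (h : ℕ) (s : IX K → ℤ) (hs : s ∈ rs K Q) :
    ‖∑ c ∈ bx K h, F (vec K c) - ∑ c ∈ bx K h, F (vec K (c + s))‖ ≤
      2 * (Module.finrank ℚ K * (Q * (2 * h + 1) ^ (Module.finrank ℚ K - 1)) : ℕ) := by
  classical
  set B := bx K h with hB
  set B' := B.map (addRightEmbedding s) with hB'
  have h1 : ∑ c ∈ B, F (vec K (c + s)) = ∑ c ∈ B', F (vec K c) := by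
    rw [hB', sum_map]
    rfl
  have hcard : B'.card = B.card := card_map _
  have h2 : (B \ B').card = (B' \ B).card := by
    have h3 := card_sdiff_add_card_inter B B'
    have h4 := card_sdiff_add_card_inter B' B
    rw [inter_comm] at h4
    omega
  have h3 : (B \ B').card ≤ Module.finrank ℚ K * (Q * (2 * h + 1) ^ (Module.finrank ℚ K - 1)) := by
    have hsub : B \ B' ⊆ (univ : Finset (IX K)).biUnion
        (fun i => (bx K h).filter (fun c => c i < -(h : ℤ) + Q)) := by
      intro c hc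
      rw [mem_sdiff] at hc
      rw [mem_biUnion]
      by_contra hcon
      push Not at hcon
      apply hc.2
      rw [hB', mem_map]
      refine ⟨c - s, ?_, by ext i; simp [addRightEmbedding]⟩
      rw [hB, mem_bx]
      intro i
      have h5 := hcon i (mem_univ i)
      rw [mem_filter, not_and, not_lt] at h5
      have h6 := h5 hc.1
      have h7 := (mem_rs K).1 hs i
      have h8 := (mem_bx K).1 hc.1 i
      rw [Pi.sub_apply]
      omega
    refine (card_le_card hsub).trans (card_biUnion_le.trans ?_)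
    refine (sum_le_sum (fun i _ => card_face Q h i)).trans ?_
    rw [sum_const, card_univ, card_IX, smul_eq_mul]
  have h4 : ∑ c ∈ B, F (vec K c) - ∑ c ∈ B', F (vec K c) =
      ∑ c ∈ B \ B', F (vec K c) - ∑ c ∈ B' \ B, F (vec K c) := by
    rw [← sum_inter_add_sum_sdiff B B', ← sum_inter_add_sum_sdiff B' B, inter_comm B' B]
    ring
  have h5 : ∀ S : Finset (IX K → ℤ), ‖∑ c ∈ S, F (vec K c)‖ ≤ S.card := by
    intro S
    refine (norm_sum_le _ _).trans ((sum_le_sum fun c _ => hb _).trans ?_)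
    rw [sum_const, nsmul_eq_mul, mul_one]
  rw [h1, h4]
  refine (norm_sub_le _ _).trans ?_
  have h6 := h5 (B \ B')
  have h7 := h5 (B' \ B)
  rw [← h2] at h7
  have h8 : ((B \ B').card : ℝ) ≤
      ((Module.finrank ℚ K * (Q * (2 * h + 1) ^ (Module.finrank ℚ K - 1)) : ℕ) : ℝ) := by
    exact_mod_cast h3
  linarith

include hper in
/-- the box sum -/
theorem box_sum (hQ : 0 < Q) (hmul : ∀ x y, F (x * y) = F x * F y) (hb : ∀ x, ‖F x‖ ≤ 1)
    (w w' : 𝓞 K) (hw : (Q : 𝓞 K) ∣ w * w' - 1) (hFw : F w ≠ 1) (h : ℕ) :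
    ‖∑ c ∈ bx K h, F (vec K c)‖ ≤
      2 * (Module.finrank ℚ K * (Q * (2 * h + 1) ^ (Module.finrank ℚ K - 1)) : ℕ) := by
  set X := 2 * ((Module.finrank ℚ K * (Q * (2 * h + 1) ^ (Module.finrank ℚ K - 1)) : ℕ) : ℝ)
    with hX
  have h1 : ∑ s ∈ rs K Q, (∑ c ∈ bx K h, F (vec K c) - ∑ c ∈ bx K h, F (vec K (c + s))) =
      (rs K Q).card * ∑ c ∈ bx K h, F (vec K c) := by
    rw [sum_sub_distrib, sum_const, nsmul_eq_mul, sum_comm,
      sum_congr rfl (fun c _ => complete_sum F Q hper hQ hmul w w' hw hFw c), sum_const_zero,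
      sub_zero]
  have h2 : ‖((rs K Q).card : ℂ) * ∑ c ∈ bx K h, F (vec K c)‖ ≤ (rs K Q).card * X := by
    rw [← h1]
    refine (norm_sum_le _ _).trans ((sum_le_sum fun s hs => shift_diff F Q hb h s hs).trans ?_)
    rw [sum_const, nsmul_eq_mul]
  rw [norm_mul, Complex.norm_natCast] at h2
  have h3 : (0 : ℝ) < (rs K Q).card := by
    rw [card_rs]
    exact_mod_cast pow_pos hQ _
  exact le_of_mul_le_mul_left h2 h3

end

end Pool.Agent.KS6_18
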