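import Mathlib

set_option autoImplicit false

/-! An abstract large sieve. -/

namespace Pool.Agent.KS6_18

open Finset

lemma ls_dual {E B : Type*} [DecidableEq E] (S : Finset E) (T : Finset B) (Ψ : E → B → ℂ)
    (c : B → ℂ) (b : E → ℂ) (hb : ∀ e ∈ S, ‖b e‖ ≤ 1) (X : ℝ) (hX : 0 ≤ X)
    (hΨ : ∀ e ∈ S, ∀ t ∈ T, ‖Ψ e t‖ ≤ 1)
    (hoff : ∀ e ∈ S, ∀ e' ∈ S, e ≠ e' → ‖∑ t ∈ T, Ψ e t * (starRingEnd ℂ) (Ψ e' t)‖ ≤ X) :
    ‖∑ e ∈ S, b e * ∑ t ∈ T, c t * Ψ e t‖ ^ 2 ≤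
      (∑ t ∈ T, ‖c t‖ ^ 2) * (S.card * T.card + (S.card : ℝ) ^ 2 * X) := by
  have h1 : ∑ e ∈ S, b e * ∑ t ∈ T, c t * Ψ e t = ∑ t ∈ T, c t * ∑ e ∈ S, b e * Ψ e t := by
    simp only [mul_sum]
    rw [sum_comm]
    exact sum_congr rfl fun t _ => sum_congr rfl fun e _ => by ring
  have h2 : ‖∑ t ∈ T, c t * ∑ e ∈ S, b e * Ψ e t‖ ^ 2 ≤
      (∑ t ∈ T, ‖c t‖ ^ 2) * ∑ t ∈ T, ‖∑ e ∈ S, b e * Ψ e t‖ ^ 2 := by
    calc _ ≤ (∑ t ∈ T, ‖c t‖ * ‖∑ e ∈ S, b e * Ψ e t‖) ^ 2 := by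
          apply pow_le_pow_left₀ (norm_nonneg _)
          refine (norm_sum_le _ _).trans (sum_le_sum fun t _ => ?_)
          rw [norm_mul]
      _ ≤ _ := sum_mul_sq_le_sq_mul_sq _ _ _
  have h3 : ((∑ t ∈ T, ‖∑ e ∈ S, b e * Ψ e t‖ ^ 2 : ℝ) : ℂ) =
      ∑ e ∈ S, ∑ e' ∈ S, b e * (starRingEnd ℂ) (b e') *
        ∑ t ∈ T, Ψ e t * (starRingEnd ℂ) (Ψ e' t) := by
    push_cast
    have h4 : ∀ t ∈ T, ((‖∑ e ∈ S, b e * Ψ e t‖ : ℂ)) ^ 2 =
        ∑ e ∈ S, ∑ e' ∈ S, b e * (starRingEnd ℂ) (b e') * (Ψ e t * (starRingEnd ℂ) (Ψ e' t)) := by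
      intro t _
      rw [← Complex.mul_conj', map_sum, sum_mul_sum]
      exact sum_congr rfl fun e _ => sum_congr rfl fun e' _ => by rw [map_mul]; ring
    rw [sum_congr rfl h4, sum_comm]
    apply sum_congr rfl
    intro e _
    rw [sum_comm]
    apply sum_congr rfl
    intro e' _
    rw [mul_sum]
  have h5 : ∑ t ∈ T, ‖∑ e ∈ S, b e * Ψ e t‖ ^ 2 ≤ S.card * T.card + (S.card : ℝ) ^ 2 * X := by
    have h6 : ∑ t ∈ T, ‖∑ e ∈ S, b e * Ψ e t‖ ^ 2 =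
        ‖((∑ t ∈ T, ‖∑ e ∈ S, b e * Ψ e t‖ ^ 2 : ℝ) : ℂ)‖ := by
      rw [Complex.norm_real, Real.norm_of_nonneg (sum_nonneg fun _ _ => by positivity)]
    rw [h6, h3]
    have hterm : ∀ e ∈ S, ∀ e' ∈ S, ‖b e * (starRingEnd ℂ) (b e') *
        ∑ t ∈ T, Ψ e t * (starRingEnd ℂ) (Ψ e' t)‖ ≤ (if e = e' then (T.card : ℝ) else 0) + X := by
      intro e he e' he'
      rw [norm_mul, norm_mul, RCLike.norm_conj]
      have hbb : ‖b e‖ * ‖b e'‖ ≤ 1 :=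
        mul_le_one₀ (hb e he) (norm_nonneg _) (hb e' he')
      have h7 : ‖∑ t ∈ T, Ψ e t * (starRingEnd ℂ) (Ψ e' t)‖ ≤
          (if e = e' then (T.card : ℝ) else 0) + X := by
        split_ifs with h
        · refine (norm_sum_le _ _).trans ?_
          have h8 : ∑ t ∈ T, ‖Ψ e t * (starRingEnd ℂ) (Ψ e' t)‖ ≤ ∑ t ∈ T, (1 : ℝ) := by
            apply sum_le_sum
            intro t ht
            rw [norm_mul, RCLike.norm_conj]
            exact mul_le_one₀ (hΨ e he t ht) (norm_nonneg _) (hΨ e' he' t ht)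
          rw [sum_const, nsmul_eq_mul, mul_one] at h8
          linarith
        · rw [zero_add]
          exact hoff e he e' he' h
      calc _ ≤ 1 * ‖∑ t ∈ T, Ψ e t * (starRingEnd ℂ) (Ψ e' t)‖ :=
            mul_le_mul_of_nonneg_right hbb (norm_nonneg _)
        _ ≤ _ := by rw [one_mul]; exact h7
    refine (norm_sum_le _ _).trans ?_
    calc _ ≤ ∑ e ∈ S, ∑ e' ∈ S, ((if e = e' then (T.card : ℝ) else 0) + X) := by
          apply sum_le_sum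
          intro e he
          refine (norm_sum_le _ _).trans (sum_le_sum fun e' he' => hterm e he e' he')
      _ = ∑ e ∈ S, ((T.card : ℝ) + S.card * X) := by
          apply sum_congr rfl
          intro e he
          rw [sum_add_distrib, sum_ite_eq, if_pos he, sum_const, nsmul_eq_mul]
      _ = _ := by
          rw [sum_const, nsmul_eq_mul]
          ring
  rw [h1]
  refine h2.trans (mul_le_mul_of_nonneg_left h5 (sum_nonneg fun _ _ => by positivity))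

lemma ls_dual' {E B : Type*} [DecidableEq E] (S : Finset E) (T : Finset B) (Ψ : E → B → ℂ)
    (c : B → ℂ) (X : ℝ) (hX : 0 ≤ X)
    (hΨ : ∀ e ∈ S, ∀ t ∈ T, ‖Ψ e t‖ ≤ 1)
    (hoff : ∀ e ∈ S, ∀ e' ∈ S, e ≠ e' → ‖∑ t ∈ T, Ψ e t * (starRingEnd ℂ) (Ψ e' t)‖ ≤ X) :
    (∑ e ∈ S, ‖∑ t ∈ T, c t * Ψ e t‖) ^ 2 ≤
      (∑ t ∈ T, ‖c t‖ ^ 2) * (S.card * T.card + (S.card : ℝ) ^ 2 * X) := by
  set z : E → ℂ := fun e => ∑ t ∈ T, c t * Ψ e t with hz
  set b : E → ℂ := fun e => (starRingEnd ℂ) (z e) / ‖z e‖ with hbdef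
  have hb : ∀ e ∈ S, ‖b e‖ ≤ 1 := by
    intro e _
    simp only [hbdef]
    rw [norm_div, RCLike.norm_conj, Complex.norm_real, norm_norm]
    exact div_self_le_one _
  have hbz : ∀ e, b e * z e = (‖z e‖ : ℂ) := by
    intro e
    simp only [hbdef]
    by_cases h0 : ‖z e‖ = 0
    · have : z e = 0 := norm_eq_zero.1 h0
      rw [this, mul_zero, norm_zero, Complex.ofReal_zero]
    · have h0' : (‖z e‖ : ℂ) ≠ 0 := by exact_mod_cast h0
      rw [div_mul_eq_mul_div, div_eq_iff h0', mul_comm, Complex.mul_conj']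
      ring
  have h1 := ls_dual S T Ψ c b hb X hX hΨ hoff
  have h2 : ∑ e ∈ S, b e * ∑ t ∈ T, c t * Ψ e t = ((∑ e ∈ S, ‖z e‖ : ℝ) : ℂ) := by
    push_cast
    exact sum_congr rfl fun e _ => hbz e
  rw [h2, Complex.norm_real, Real.norm_of_nonneg (sum_nonneg fun _ _ => norm_nonneg _)] at h1
  exact h1

/-- the abstract large sieve with labels -/
theorem ls_main {E V B Λ : Type*} [DecidableEq E] [DecidableEq B] [DecidableEq Λ] (S : Finset E)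
    (W : Finset V) (T : Finset B) (L : Finset Λ) (a : V → ℂ) (ha : ∀ v ∈ W, ‖a v‖ ≤ 1)
    (cv : V → B) (hcv : ∀ v ∈ W, cv v ∈ T) (lam : V → Λ) (hlam : ∀ v ∈ W, lam v ∈ L)
    (χ : V → E → ℂ) (C : Λ → E → ℂ) (hC : ∀ e ∈ S, ∀ lm ∈ L, ‖C lm e‖ ≤ 1) (Ψ : E → B → ℂ)
    (hχ : ∀ v ∈ W, ∀ e ∈ S, χ v e = C (lam v) e * Ψ e (cv v)) (M : ℕ)
    (hM : ∀ t ∈ T, (W.filter (fun v => cv v = t)).card ≤ M) (X : ℝ) (hX : 0 ≤ X)
    (hΨ : ∀ e ∈ S, ∀ t ∈ T, ‖Ψ e t‖ ≤ 1)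
    (hoff : ∀ e ∈ S, ∀ e' ∈ S, e ≠ e' → ‖∑ t ∈ T, Ψ e t * (starRingEnd ℂ) (Ψ e' t)‖ ≤ X)
    (Δ : ℝ) (hΔ0 : 0 ≤ Δ) (hΔ : ∀ e ∈ S, Δ ≤ ‖∑ v ∈ W, a v * χ v e‖) :
    (S.card * Δ) ^ 2 ≤ (L.card : ℝ) ^ 2 * ((M * W.card) *
      (S.card * T.card + (S.card : ℝ) ^ 2 * X)) := by
  classical
  set c : Λ → B → ℂ := fun lm t => ∑ v ∈ W.filter (fun v => lam v = lm ∧ cv v = t), a v with hc
  set R : ℝ := (M * W.card) * (S.card * T.card + (S.card : ℝ) ^ 2 * X) with hR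
  have hR0 : 0 ≤ R := by positivity
  -- the coefficients
  have hcc : ∀ lm ∈ L, ∑ t ∈ T, ‖c lm t‖ ^ 2 ≤ M * W.card := by
    intro lm _
    have h1 : ∀ t ∈ T, ‖c lm t‖ ^ 2 ≤ M * ((W.filter (fun v => cv v = t)).card : ℝ) := by
      intro t ht
      have h2 : ‖c lm t‖ ≤ ((W.filter (fun v => cv v = t)).card : ℝ) := by
        simp only [hc]
        refine (norm_sum_le _ _).trans ?_
        calc _ ≤ ∑ v ∈ W.filter (fun v => lam v = lm ∧ cv v = t), (1 : ℝ) :=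
              sum_le_sum fun v hv => ha v (mem_filter.1 hv).1
          _ = ((W.filter (fun v => lam v = lm ∧ cv v = t)).card : ℝ) := by
              rw [sum_const, nsmul_eq_mul, mul_one]
          _ ≤ _ := by
              exact_mod_cast card_le_card (fun v hv => by
                rw [mem_filter] at hv ⊢
                exact ⟨hv.1, hv.2.2⟩)
      have h3 : ((W.filter (fun v => cv v = t)).card : ℝ) ≤ M := by exact_mod_cast hM t ht
      have h0 := norm_nonneg (c lm t)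
      calc ‖c lm t‖ ^ 2 = ‖c lm t‖ * ‖c lm t‖ := sq _
        _ ≤ M * ((W.filter (fun v => cv v = t)).card : ℝ) :=
          mul_le_mul (h2.trans h3) h2 h0 (Nat.cast_nonneg _)
    refine (sum_le_sum h1).trans ?_
    rw [← mul_sum]
    apply mul_le_mul_of_nonneg_left _ (Nat.cast_nonneg _)
    have h4 := card_eq_sum_card_fiberwise (s := W) (t := T) (f := cv) (fun v hv => hcv v hv)
    rw [h4]
    push_cast
    exact le_refl _
  have hY : ∀ lm ∈ L, ∑ e ∈ S, ‖∑ t ∈ T, c lm t * Ψ e t‖ ≤ Real.sqrt R := by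
    intro lm hlm
    apply Real.le_sqrt_of_sq_le
    refine (ls_dual' S T Ψ (c lm) X hX hΨ hoff).trans ?_
    exact mul_le_mul_of_nonneg_right (hcc lm hlm) (by positivity)
  -- the decomposition
  have hdec : ∀ e ∈ S, ∑ v ∈ W, a v * χ v e = ∑ lm ∈ L, C lm e * ∑ t ∈ T, c lm t * Ψ e t := by
    intro e he
    have h1 : ∀ lm ∈ L, ∑ t ∈ T, c lm t * Ψ e t =
        ∑ v ∈ W.filter (fun v => lam v = lm), a v * Ψ e (cv v) := by
      intro lm _
      rw [← sum_fiberwise_of_maps_to (s := W.filter (fun v => lam v = lm)) (t := T) (g := cv)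
        (fun v hv => hcv v (mem_filter.1 hv).1)]
      apply sum_congr rfl
      intro t _
      simp only [hc]
      rw [sum_mul, filter_filter]
      apply sum_congr rfl
      intro v hv
      rw [(mem_filter.1 hv).2.2]
    rw [← sum_fiberwise_of_maps_to (s := W) (t := L) (g := lam) hlam]
    apply sum_congr rfl
    intro lm hlm
    rw [h1 lm hlm, mul_sum]
    apply sum_congr rfl
    intro v hv
    rw [hχ v (mem_filter.1 hv).1 e he, (mem_filter.1 hv).2]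
    ring
  have hmain : (S.card : ℝ) * Δ ≤ L.card * Real.sqrt R := by
    calc (S.card : ℝ) * Δ = ∑ e ∈ S, Δ := by rw [sum_const, nsmul_eq_mul]
      _ ≤ ∑ e ∈ S, ∑ lm ∈ L, ‖∑ t ∈ T, c lm t * Ψ e t‖ := by
        apply sum_le_sum
        intro e he
        refine (hΔ e he).trans ?_
        rw [hdec e he]
        refine (norm_sum_le _ _).trans (sum_le_sum fun lm hlm => ?_)
        rw [norm_mul]
        calc _ ≤ 1 * ‖∑ t ∈ T, c lm t * Ψ e t‖ :=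
              mul_le_mul_of_nonneg_right (hC e he lm hlm) (norm_nonneg _)
          _ = _ := one_mul _
      _ = ∑ lm ∈ L, ∑ e ∈ S, ‖∑ t ∈ T, c lm t * Ψ e t‖ := sum_comm
      _ ≤ ∑ lm ∈ L, Real.sqrt R := sum_le_sum hY
      _ = _ := by rw [sum_const, nsmul_eq_mul]
  calc (S.card * Δ) ^ 2 ≤ (L.card * Real.sqrt R) ^ 2 :=
        pow_le_pow_left₀ (by positivity) hmain 2
    _ = (L.card : ℝ) ^ 2 * R := by rw [mul_pow, Real.sq_sqrt hR0]

end Pool.Agent.KS6_18
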