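import Mathlib
import Pool.Agent.KS6_18.Lab

set_option autoImplicit false

/-! The reciprocity law: the characters of order `l` at `q` as periodic functions modulo `q`. -/

namespace Pool.Agent.KS6_18

open Finset MulChar NumberField IsCyclotomicExtension Module

section
variable (d : ℕ) [NeZero d] (K : Type*) [Field K] [NumberField K] [IsCyclotomicExtension {d} ℚ K]

lemma ax_mul (σ τ : Gal(K/ℚ)) : ax d K (σ * τ) ≡ ax d K σ * ax d K τ [MOD d] := by
  rw [← ZMod.natCast_eq_natCast_iff]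
  unfold ax
  push_cast
  rw [ZMod.natCast_zmod_val, ZMod.natCast_zmod_val, ZMod.natCast_zmod_val, map_mul, Units.val_mul]

lemma cx_mul_one {l : ℕ} (hld : l ∣ d) {σ τ : Gal(K/ℚ)} (hτ : ax d K τ ≡ 1 [MOD l]) :
    cx d K l (σ * τ) = cx d K l σ := by
  have h1 := (ax_mul d K σ τ).of_dvd hld
  have h2 : ax d K (σ * τ) ≡ ax d K σ * 1 [MOD l] := h1.trans (Nat.ModEq.mul_left _ hτ)
  rw [mul_one] at h2
  exact h2

lemma el_mul (l : ℕ) (x y : 𝓞 K) : el d K l (x * y) = el d K l x * el d K l y := by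
  unfold el
  rw [← prod_mul_distrib]
  exact prod_congr rfl fun σ _ => by rw [map_mul, mul_pow]

lemma el_one (l : ℕ) : el d K l 1 = 1 := by
  unfold el
  exact prod_eq_one fun σ _ => by rw [map_one, one_pow]

lemma sg_mul {K : Type*} [Field K] [NumberField K] (σ τ : Gal(K/ℚ)) (x : 𝓞 K) :
    sg σ (sg τ x) = sg (σ * τ) x := by
  rw [sg_apply, sg_apply, sg_apply, mul_smul]

lemma el_inv {l : ℕ} (hld : l ∣ d) {τ : Gal(K/ℚ)} (hτ : ax d K τ ≡ 1 [MOD l]) (x : 𝓞 K) :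
    sg τ (el d K l x) = el d K l x := by
  unfold el
  rw [map_prod]
  simp only [map_pow, sg_mul]
  rw [← Equiv.prod_comp (Equiv.mulRight τ)]
  apply prod_congr rfl
  intro σ _
  rw [Equiv.coe_mulRight, cx_mul_one d K hld hτ, mul_inv_rev, mul_inv_cancel_left]

/-- the Frobenius automorphism -/
noncomputable def fq {q : ℕ} (hq : q.Coprime d) : Gal(K/ℚ) :=
  (IsCyclotomicExtension.Rat.galEquivZMod d K).symm (ZMod.unitOfCoprime q hq)

lemma ax_fq {q : ℕ} (hq : q.Coprime d) (i : ℕ) : ax d K (fq d K hq ^ i) ≡ q ^ i [MOD d] := by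
  rw [← ZMod.natCast_eq_natCast_iff]
  unfold ax fq
  rw [ZMod.natCast_zmod_val, map_pow, MulEquiv.apply_symm_apply, Units.val_pow_eq_pow_val,
    ZMod.coe_unitOfCoprime]
  push_cast
  rfl

lemma cx_fq {q l : ℕ} (hld : l ∣ d) (hq : q.Coprime d) (i : ℕ) :
    cx d K l (fq d K hq ^ i) = q ^ i % l := (ax_fq d K hq i).of_dvd hld

/-- homomorphisms are determined by the root of unity -/
lemma hom_ext {k : Type*} [CommRing k] (f g : 𝓞 K →+* k) (h : f (ze d K) = g (ze d K)) : f = g := by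
  have hz := IsCyclotomicExtension.zeta_spec d ℚ K
  have h1 : f.toIntAlgHom = g.toIntAlgHom := by
    apply hz.integralPowerBasis.algHom_ext
    rw [hz.integralPowerBasis_gen]
    exact h
  ext x
  exact congrArg (fun F => F x) h1

variable {q : ℕ} [hqf : Fact q.Prime] (hq : q.Coprime d) (Q : Ideal (𝓞 K)) [hQ : Q.IsMaximal]
  (hqQ : (q : 𝓞 K) ∈ Q)

include hqf hqQ in
lemma charP_Q : CharP (𝓞 K ⧸ Q) q := by
  rw [CharP.charP_iff_prime_eq_zero hqf.out, ← map_natCast (Ideal.Quotient.mk Q),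
    Ideal.Quotient.eq_zero_iff_mem]
  exact hqQ

include hqQ in
lemma fq_pow (i : ℕ) (x : 𝓞 K) : Ideal.Quotient.mk Q (sg (fq d K hq ^ i) x) =
    Ideal.Quotient.mk Q x ^ q ^ i := by
  have hch := charP_Q K Q hqQ
  have h1 : ∀ x, Ideal.Quotient.mk Q (sg (fq d K hq) x) = Ideal.Quotient.mk Q x ^ q := by
    intro x
    have h2 : (Ideal.Quotient.mk Q).comp (sg (fq d K hq)) =
        (frobenius (𝓞 K ⧸ Q) q).comp (Ideal.Quotient.mk Q) := by
      apply hom_ext d K
      rw [RingHom.comp_apply, RingHom.comp_apply, frobenius_def,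
        sg_pow d K _ (ze_spec d K).pow_eq_one, ← map_pow]
      congr 1
      have h3 := ax_fq d K hq 1
      rw [pow_one, pow_one] at h3
      exact ((ze_spec d K).isOfFinOrder (NeZero.ne d)).pow_eq_pow_iff_modEq.2
        (by rw [← (ze_spec d K).eq_orderOf]; exact h3)
    exact congrArg (fun F => F x) h2
  induction i with
  | zero => rw [pow_zero, pow_zero, pow_one, sg_apply, one_smul]
  | succ i ih => rw [pow_succ', ← sg_mul, h1, ih, ← pow_mul, ← pow_succ]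

variable {l : ℕ} (hl : l.Prime) (hld : l ∣ d)

/-- the exponent -/
def Eq' (q l : ℕ) : ℕ := (q ^ (l - 1) - 1) / l

include hq hl hld in
lemma q_pow_mod : q ^ (l - 1) ≡ 1 [MOD l] := by
  have : Fact l.Prime := ⟨hl⟩
  have h1 : q.Coprime l := Nat.Coprime.coprime_dvd_right hld hq
  have h2 := Nat.ModEq.pow_totient h1
  rwa [Nat.totient_prime hl] at h2

include hq hl hld hqf in
lemma Eq_mul : l * Eq' q l = q ^ (l - 1) - 1 := by
  unfold Eq'
  exact Nat.mul_div_cancel' ((Nat.modEq_iff_dvd' (Nat.one_le_pow _ _ hqf.out.pos)).1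
    (q_pow_mod d hq hl hld).symm)

/-- the power residue symbol in the residue field -/
noncomputable def th (q l : ℕ) (x : 𝓞 K) : 𝓞 K ⧸ Q := Ideal.Quotient.mk Q (el d K l x) ^ Eq' q l

include hq hqQ hl hld in
lemma th_mu (x : 𝓞 K) : th d K Q q l x = 0 ∨ th d K Q q l x ^ l = 1 := by
  let _ : Field (𝓞 K ⧸ Q) := Ideal.Quotient.field Q
  by_cases h0 : Ideal.Quotient.mk Q (el d K l x) = 0
  · left
    unfold th
    rw [h0, zero_pow]
    intro h
    have h1 := Eq_mul d hq hl hld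
    rw [h, mul_zero] at h1
    have h2 : 2 ≤ q ^ (l - 1) := (hqf.out.two_le).trans
      (Nat.le_self_pow (by have := hl.two_le; omega) q)
    omega
  · right
    unfold th
    rw [← pow_mul, mul_comm, Eq_mul d hq hl hld]
    have h1 : Ideal.Quotient.mk Q (el d K l x) ^ q ^ (l - 1) = Ideal.Quotient.mk Q (el d K l x) := by
      rw [← fq_pow d K hq Q hqQ, el_inv d K hld]
      exact ((ax_fq d K hq (l - 1)).of_dvd hld).trans (q_pow_mod d hq hl hld)
    have h2 : q ^ (l - 1) = q ^ (l - 1) - 1 + 1 := by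
      have := Nat.one_le_pow (l - 1) q hqf.out.pos
      omega
    rw [h2, pow_succ] at h1
    exact mul_right_cancel₀ h0 (by rw [h1, one_mul])

lemma th_mul (x y : 𝓞 K) : th d K Q q l (x * y) = th d K Q q l x * th d K Q q l y := by
  unfold th
  rw [el_mul, map_mul, mul_pow]

include hqQ in
lemma th_add (x y : 𝓞 K) : th d K Q q l (x + q * y) = th d K Q q l x := by
  unfold th
  congr 1
  unfold el
  rw [map_prod, map_prod]
  apply prod_congr rfl
  intro σ _
  rw [map_pow, map_pow, map_add, map_add, map_mul, map_natCast, map_mul, map_natCast,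
    ← map_natCast (Ideal.Quotient.mk Q), Ideal.Quotient.eq_zero_iff_mem.2 hqQ, zero_mul, add_zero]

open Classical in
/-- the lift of roots of unity -/
noncomputable def Lf {K : Type*} [Field K] [NumberField K] (Q : Ideal (𝓞 K)) (io : 𝓞 K →+* ℂ) (l : ℕ)
    (y : 𝓞 K ⧸ Q) : ℂ :=
  if h : ∃ x : 𝓞 K, x ^ l = 1 ∧ Ideal.Quotient.mk Q x = y then io h.choose else 0

variable (io : 𝓞 K →+* ℂ)

include hqf hq hqQ hl hld

lemma l_ne_Q : (l : 𝓞 K ⧸ Q) ≠ 0 := by
  have hch := charP_Q K Q hqQ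
  apply CharP.cast_ne_zero_of_ne_of_prime _ hl (p := q)
  rintro rfl
  have h1 := Nat.Coprime.coprime_dvd_right hld hq
  rw [Nat.coprime_self] at h1
  exact hl.one_lt.ne' h1

lemma Lf_spec {x : 𝓞 K} (hx : x ^ l = 1) : Lf Q io l (Ideal.Quotient.mk Q x) = io x := by
  let _ : Field (𝓞 K ⧸ Q) := Ideal.Quotient.field Q
  have h : ∃ x' : 𝓞 K, x' ^ l = 1 ∧ Ideal.Quotient.mk Q x' = Ideal.Quotient.mk Q x := ⟨x, hx, rfl⟩
  unfold Lf
  rw [dif_pos h]
  congr 1
  exact mu_inj (ze_l d K hld) hl (Ideal.Quotient.mk Q) (l_ne_Q d K hq Q hqQ hl hld)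
    (Or.inr h.choose_spec.1) (Or.inr hx) h.choose_spec.2

omit hqf hq hqQ hld in
lemma Lf_zero : Lf Q io l 0 = 0 := by
  unfold Lf
  rw [dif_neg]
  rintro ⟨x, hx, hx'⟩
  have h1 : (Ideal.Quotient.mk Q x) ^ l = 1 := by rw [← map_pow, hx, map_one]
  rw [hx', zero_pow hl.ne_zero] at h1
  exact zero_ne_one h1

lemma mu_surj {y : 𝓞 K ⧸ Q} (hy : y ^ l = 1) :
    ∃ x : 𝓞 K, x ^ l = 1 ∧ Ideal.Quotient.mk Q x = y := by
  let _ : Field (𝓞 K ⧸ Q) := Ideal.Quotient.field Q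
  have : NeZero l := ⟨hl.ne_zero⟩
  have h1 := prim_map (ze_l d K hld) hl (Ideal.Quotient.mk Q) (l_ne_Q d K hq Q hqQ hl hld)
  obtain ⟨i, hi, rfl⟩ := h1.eq_pow_of_pow_eq_one hy
  exact ⟨(ze d K ^ (d / l)) ^ i, by rw [← pow_mul, mul_comm i l, pow_mul, (ze_l d K hld).pow_eq_one,
    one_pow], by rw [map_pow]⟩

lemma Lf_mul {y y' : 𝓞 K ⧸ Q} (hy : y = 0 ∨ y ^ l = 1) (hy' : y' = 0 ∨ y' ^ l = 1) :
    Lf Q io l (y * y') = Lf Q io l y * Lf Q io l y' := by
  rcases hy with rfl | hy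
  · rw [zero_mul, Lf_zero K Q hl, zero_mul]
  · rcases hy' with rfl | hy'
    · rw [mul_zero, Lf_zero K Q hl, mul_zero]
    · obtain ⟨x, hx, rfl⟩ := mu_surj d K hq Q hqQ hl hld hy
      obtain ⟨x', hx', rfl⟩ := mu_surj d K hq Q hqQ hl hld hy'
      rw [← map_mul, Lf_spec d K hq Q hqQ hl hld io hx, Lf_spec d K hq Q hqQ hl hld io hx',
        Lf_spec d K hq Q hqQ hl hld io (by rw [mul_pow, hx, hx', one_mul]), map_mul]

lemma Lf_mu {y : 𝓞 K ⧸ Q} (hy : y ^ l = 1) : Lf Q io l y ^ l = 1 := by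
  obtain ⟨x, hx, rfl⟩ := mu_surj d K hq Q hqQ hl hld hy
  rw [Lf_spec d K hq Q hqQ hl hld io hx, ← map_pow, hx, map_one]

end

end Pool.Agent.KS6_18
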