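import Mathlib
import Pool.Agent.KS6_18.Psi

set_option autoImplicit false

/-! Nontriviality of the periodic functions. -/

namespace Pool.Agent.KS6_18

open Finset MulChar NumberField IsCyclotomicExtension Module
open scoped Pointwise

/-- the geometric identity -/
lemma geo_id (u : ℕ → ℤ) (q : ℤ) (a : ℕ) (hu : ∀ i, u (i + a) = u i) (b : ℕ) :
    (∑ i ∈ range (a * b), q ^ (a * b - i) * u i) * (q ^ a - 1) =
      (∑ i ∈ range a, q ^ (a - i) * u i) * (q ^ (a * b) - 1) := by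
  have hper : ∀ b i, u (i + a * b) = u i := by
    intro b
    induction b with
    | zero => intro i; rw [mul_zero, add_zero]
    | succ b ih => intro i; rw [Nat.mul_succ, ← add_assoc, hu, ih]
  induction b with
  | zero => simp
  | succ b ih =>
    have h1 : ∑ i ∈ range (a * (b + 1)), q ^ (a * (b + 1) - i) * u i =
        q ^ a * ∑ i ∈ range (a * b), q ^ (a * b - i) * u i + ∑ i ∈ range a, q ^ (a - i) * u i := by
      rw [Nat.mul_succ, sum_range_add, mul_sum]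
      congr 1
      · apply sum_congr rfl
        intro i hi
        rw [mem_range] at hi
        rw [← mul_assoc, ← pow_add]
        congr 2
        omega
      · apply sum_congr rfl
        intro i hi
        rw [add_comm (a * b) i, hper]
        congr 2
        omega
    rw [h1, add_mul, mul_assoc, ih, Nat.mul_succ, pow_add]
    ring

/-- the comparison of the exponents -/
lemma exp_cmp {q l f : ℕ} (hq2 : 2 ≤ q) (hl : l.Prime) (hf : 0 < f) (hqf : q ^ f ≡ 1 [MOD l])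
    (hql : q ^ (l - 1) ≡ 1 [MOD l]) :
    ¬ (q ^ f - 1) ∣ (∑ i ∈ range f, q ^ (f - i) * (l - q ^ i % l)) * Eq' q l := by
  intro hdvd
  set u : ℕ → ℤ := fun i => (l : ℤ) - ((q ^ i % l : ℕ) : ℤ) with hu
  have hmod : ∀ a : ℕ, q ^ a ≡ 1 [MOD l] → ∀ i, u (i + a) = u i := by
    intro a ha i
    simp only [hu]
    have h1 : q ^ (i + a) ≡ q ^ i [MOD l] := by
      rw [pow_add]
      simpa using Nat.ModEq.mul_left (q ^ i) ha
    rw [h1]
  have hl1 : 0 < l - 1 := by have := hl.two_le; omega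
  have h1 := geo_id u q f (hmod f hqf) (l - 1)
  have h2 := geo_id u q (l - 1) (hmod (l - 1) hql) f
  rw [mul_comm (l - 1) f] at h2
  set S : ℤ := ∑ i ∈ range f, (q : ℤ) ^ (f - i) * u i with hS
  set S' : ℤ := ∑ i ∈ range (l - 1), (q : ℤ) ^ (l - 1 - i) * u i with hS'
  set W : ℤ := ∑ i ∈ range (f * (l - 1)), (q : ℤ) ^ (f * (l - 1) - i) * u i with hW
  have hq1 : (1 : ℤ) < q := by exact_mod_cast hq2
  have hM : (q : ℤ) ^ (f * (l - 1)) - 1 ≠ 0 := by
    have := one_lt_pow₀ hq1 (Nat.mul_pos hf hl1).ne'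
    linarith
  have h3 : S * ((q : ℤ) ^ (l - 1) - 1) = S' * ((q : ℤ) ^ f - 1) := by
    apply mul_right_cancel₀ hM
    calc S * ((q : ℤ) ^ (l - 1) - 1) * ((q : ℤ) ^ (f * (l - 1)) - 1) =
        (S * ((q : ℤ) ^ (f * (l - 1)) - 1)) * ((q : ℤ) ^ (l - 1) - 1) := by ring
      _ = (W * ((q : ℤ) ^ f - 1)) * ((q : ℤ) ^ (l - 1) - 1) := by rw [h1]
      _ = (W * ((q : ℤ) ^ (l - 1) - 1)) * ((q : ℤ) ^ f - 1) := by ring
      _ = _ := by rw [h2]; ring
  -- `S' ≡ 1 mod l`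
  have hS'1 : (l : ℤ) ∣ S' - 1 := by
    rw [← ZMod.intCast_zmod_eq_zero_iff_dvd, hS']
    push_cast
    have h4 : ∀ i ∈ range (l - 1), (q : ZMod l) ^ (l - 1 - i) * ((u i : ℤ) : ZMod l) = -1 := by
      intro i hi
      rw [mem_range] at hi
      simp only [hu]
      push_cast
      rw [ZMod.natCast_self, zero_sub, mul_neg, ← pow_add, Nat.sub_add_cancel hi.le]
      have h5 := (ZMod.natCast_eq_natCast_iff _ _ _).2 hql
      push_cast at h5
      rw [h5]
    rw [sum_congr rfl h4, sum_const, card_range, nsmul_eq_mul,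
      Nat.cast_sub hl.one_lt.le, ZMod.natCast_self]
    push_cast
    ring
  -- the divisibility
  have hS0 : ((∑ i ∈ range f, q ^ (f - i) * (l - q ^ i % l) : ℕ) : ℤ) = S := by
    rw [hS]
    push_cast
    apply sum_congr rfl
    intro i _
    simp only [hu]
    rw [Nat.cast_sub (Nat.mod_lt _ hl.pos).le]
  obtain ⟨m, hm⟩ := hdvd
  have hE : (l : ℤ) * (Eq' q l : ℤ) = (q : ℤ) ^ (l - 1) - 1 := by
    have h5 : l * Eq' q l = q ^ (l - 1) - 1 := by
      unfold Eq'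
      exact Nat.mul_div_cancel' ((Nat.modEq_iff_dvd' (Nat.one_le_pow _ _ (by omega))).1 hql.symm)
    have h6 : 1 ≤ q ^ (l - 1) := Nat.one_le_pow _ _ (by omega)
    rw [← Nat.cast_mul, h5, Nat.cast_sub h6]
    push_cast
    ring
  have h7 : S * (Eq' q l : ℤ) = ((q : ℤ) ^ f - 1) * m := by
    rw [← hS0, ← Nat.cast_mul, hm, Nat.cast_mul, Nat.cast_sub (Nat.one_le_pow _ _ (by omega))]
    push_cast
    ring
  have h8 : S' * ((q : ℤ) ^ f - 1) = (l * m) * ((q : ℤ) ^ f - 1) := by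
    rw [← h3, ← hE]
    calc S * ((l : ℤ) * (Eq' q l : ℤ)) = l * (S * (Eq' q l : ℤ)) := by ring
      _ = l * (((q : ℤ) ^ f - 1) * m) := by rw [h7]
      _ = _ := by ring
  have h9 : (q : ℤ) ^ f - 1 ≠ 0 := by
    have := one_lt_pow₀ hq1 hf.ne'
    linarith
  have h10 := mul_right_cancel₀ h9 h8
  rw [h10] at hS'1
  have h11 : (l : ℤ) ∣ 1 := by
    have := dvd_sub (dvd_mul_right (l : ℤ) m) hS'1
    simpa using this
  have h12 : l ∣ 1 := by exact_mod_cast h11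
  exact hl.one_lt.ne' (Nat.dvd_one.1 h12)

lemma exp_cmp2 {q f : ℕ} (hq2 : 2 ≤ q) (hodd : q % 2 = 1) (hf : 0 < f) :
    ¬ (q ^ f - 1) ∣ (∑ i ∈ range f, q ^ (f - i)) * (q / 2) := by
  rintro ⟨m, hm⟩
  have h1 := geo_id (fun _ => 1) q 1 (fun _ => rfl) f
  simp only [one_mul, mul_one, pow_one, range_one, sum_singleton, Nat.sub_zero] at h1
  have h2 : (2 : ℤ) * ((q / 2 : ℕ) : ℤ) = q - 1 := by omega
  have h3 : ((∑ i ∈ range f, q ^ (f - i) : ℕ) : ℤ) = ∑ i ∈ range f, (q : ℤ) ^ (f - i) := by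
    push_cast; rfl
  have h4 : (q : ℤ) * ((q : ℤ) ^ f - 1) = (2 * m) * ((q : ℤ) ^ f - 1) := by
    rw [← h1, ← h3, ← h2]
    calc ((∑ i ∈ range f, q ^ (f - i) : ℕ) : ℤ) * (2 * ((q / 2 : ℕ) : ℤ)) =
        2 * (((∑ i ∈ range f, q ^ (f - i)) * (q / 2) : ℕ) : ℤ) := by push_cast; ring
      _ = 2 * ((((q ^ f - 1) * m : ℕ)) : ℤ) := by rw [hm]
      _ = _ := by
        rw [Nat.cast_mul, Nat.cast_sub (Nat.one_le_pow _ _ (by omega))]
        push_cast
        ring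
  have hq1 : (1 : ℤ) < q := by exact_mod_cast hq2
  have h9 : (q : ℤ) ^ f - 1 ≠ 0 := by
    have := one_lt_pow₀ hq1 hf.ne'
    linarith
  have h10 := mul_right_cancel₀ h9 h4
  omega

section
variable (d : ℕ) [NeZero d] (K : Type*) [Field K] [NumberField K] [IsCyclotomicExtension {d} ℚ K]
variable {q : ℕ} [hqf : Fact q.Prime] (hq : q.Coprime d) (Q : Ideal (𝓞 K)) [hQ : Q.IsMaximal]
  (hqQ : (q : 𝓞 K) ∈ Q)

include hqf hq hqQ

/-- an automorphism which is not a power of the Frobenius moves `Q` -/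
lemma moves {σ : Gal(K/ℚ)} (hσ : ∀ i : ℕ, σ ≠ fq d K hq ^ i) :
    ∃ u : 𝓞 K, Ideal.Quotient.mk Q (sg σ⁻¹ u) = 0 ∧ Ideal.Quotient.mk Q u ≠ 0 := by
  by_contra hcon
  push Not at hcon
  have h1 : ∀ u ∈ Q, σ • u ∈ Q := by
    intro u hu
    have h2 := hcon (σ • u) (by
      rw [sg_apply, inv_smul_smul]
      exact Ideal.Quotient.eq_zero_iff_mem.2 hu)
    exact Ideal.Quotient.eq_zero_iff_mem.1 h2
  have hpow : ∀ n : ℕ, ∀ u ∈ Q, σ ^ n • u ∈ Q := by
    intro n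
    induction n with
    | zero => intro u hu; rwa [pow_zero, one_smul]
    | succ n ih => intro u hu; rw [pow_succ', mul_smul]; exact h1 _ (ih u hu)
  have h3 : ∀ u ∈ Q, σ⁻¹ • u ∈ Q := by
    intro u hu
    have h4 : σ⁻¹ = σ ^ (orderOf σ - 1) := by
      rw [eq_comm, ← mul_eq_one_iff_eq_inv, ← pow_succ,
        Nat.sub_add_cancel (orderOf_pos σ), pow_orderOf_eq_one]
    rw [h4]
    exact hpow _ u hu
  have hstab : σ ∈ MulAction.stabilizer Gal(K/ℚ) Q := by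
    rw [MulAction.mem_stabilizer_iff]
    ext x
    rw [Ideal.mem_pointwise_smul_iff_inv_smul_mem]
    constructor
    · intro h
      have h5 := h1 _ h
      rwa [smul_inv_smul] at h5
    · exact h3 x
  have hlo : Q.LiesOver (Ideal.span {(q : ℤ)}) := by
    constructor
    have hmax : (Ideal.span {(q : ℤ)}).IsMaximal := by
      apply PrincipalIdealRing.isMaximal_of_irreducible
      exact (Nat.prime_iff_prime_int.1 hqf.out).irreducible
    apply hmax.eq_of_le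
    · intro h
      have h6 := (Ideal.eq_top_iff_one _).1 h
      rw [Ideal.mem_comap, map_one] at h6
      exact hQ.ne_top ((Ideal.eq_top_iff_one _).2 h6)
    · rw [Ideal.span_singleton_le_iff_mem, Ideal.mem_comap, map_natCast]
      exact hqQ
  have h7 := IsCyclotomicExtension.Rat.mem_zpowers_galEquivZMod_of_mem_stabilizer d K q Q hq hstab
  rw [← mem_powers_iff_mem_zpowers, Submonoid.mem_powers_iff] at h7
  obtain ⟨i, hi⟩ := h7
  apply hσ i
  apply (IsCyclotomicExtension.Rat.galEquivZMod d K).injective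
  rw [← hi, map_pow, fq, MulEquiv.apply_symm_apply]

omit hQ hqQ in
lemma fq_period {f : ℕ} (hqfd : q ^ f ≡ 1 [MOD d]) : fq d K hq ^ f = 1 := by
  apply ax_inj d K
  have h1 := ax_fq d K hq 0
  rw [pow_zero, pow_zero] at h1
  exact (ax_fq d K hq f).trans (hqfd.trans h1.symm)

theorem exists_w : ∃ w w' : 𝓞 K, (q : 𝓞 K) ∣ w * w' - 1 ∧
    (∀ l, l.Prime → l ∣ d → th d K Q q l w ≠ 1) ∧
    (q % 2 = 1 → jacobiSym (Algebra.norm ℤ w) q = -1) := by
  classical
  let _ : Field (𝓞 K ⧸ Q) := Ideal.Quotient.field Q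
  have hGal : IsGalois ℚ K := IsCyclotomicExtension.isGalois {d} ℚ K
  have hch := charP_Q K Q hqQ
  have hQ0 : Q ≠ ⊥ := by
    rintro rfl
    have h1 : (q : 𝓞 K) = 0 := by simpa using hqQ
    exact hqf.out.ne_zero (by exact_mod_cast h1)
  have hfin : Finite (𝓞 K ⧸ Q) := Ring.HasFiniteQuotients.finiteQuotient hQ0
  have := Fintype.ofFinite (𝓞 K ⧸ Q)
  obtain ⟨⟨f, hf⟩, _, hcard⟩ := FiniteField.card (𝓞 K ⧸ Q) q
  simp only [PNat.mk_coe] at hcard
  obtain ⟨g, hg⟩ := IsCyclic.exists_generator (α := (𝓞 K ⧸ Q)ˣ)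
  have hgo : orderOf g = q ^ f - 1 := by
    rw [orderOf_eq_card_of_forall_mem_zpowers hg, Nat.card_eq_fintype_card, Fintype.card_units,
      hcard]
  have hgo' : ∀ e : ℕ, (g : 𝓞 K ⧸ Q) ^ e = 1 → q ^ f - 1 ∣ e := by
    intro e he
    rw [← hgo]
    apply orderOf_dvd_of_pow_eq_one
    ext
    rw [Units.val_pow_eq_pow_val, he, Units.val_one]
  have hqf1 : 1 ≤ q ^ f := Nat.one_le_pow _ _ hqf.out.pos
  -- `d ∣ q ^ f - 1`
  have hqfd : q ^ f ≡ 1 [MOD d] := by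
    have hd0 : (d : 𝓞 K ⧸ Q) ≠ 0 := by
      intro h
      rw [CharP.cast_eq_zero_iff (𝓞 K ⧸ Q) q] at h
      exact hqf.out.one_lt.ne' (Nat.Coprime.eq_one_of_dvd hq h)
    have : NeZero (d : 𝓞 K ⧸ Q) := ⟨hd0⟩
    have h0 : IsPrimitiveRoot (Ideal.Quotient.mk Q (ze d K)) d := by
      rw [← Polynomial.isRoot_cyclotomic_iff]
      have h1 : (Polynomial.cyclotomic d (𝓞 K)).IsRoot (ze d K) :=
        (ze_spec d K).isRoot_cyclotomic (NeZero.pos d)
      have h2 := h1.map (f := Ideal.Quotient.mk Q)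
      rwa [Polynomial.map_cyclotomic] at h2
    have h1 : Ideal.Quotient.mk Q (ze d K) ^ (q ^ f - 1) = 1 := by
      rw [← hcard]
      apply FiniteField.pow_card_sub_one_eq_one
      intro h
      have := h0.pow_eq_one
      rw [h, zero_pow (NeZero.ne d)] at this
      exact zero_ne_one this
    exact ((Nat.modEq_iff_dvd' hqf1).2 (h0.dvd_of_pow_eq_one _ h1)).symm
  have hfq := fq_period d K hq hqfd
  have hfqo : orderOf (fq d K hq) = f := by
    rw [orderOf_eq_iff hf]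
    refine ⟨hfq, ?_⟩
    intro m hm hm0 h
    obtain ⟨x, hx⟩ := Ideal.Quotient.mk_surjective (g : 𝓞 K ⧸ Q)
    have h1 := fq_pow d K hq Q hqQ m x
    rw [h, sg_apply, one_smul, hx] at h1
    have h2 : (g : 𝓞 K ⧸ Q) ^ (q ^ m - 1) = 1 := by
      have h3 : (g : 𝓞 K ⧸ Q) * g ^ (q ^ m - 1) = g * 1 := by
        rw [← pow_succ', Nat.sub_add_cancel (Nat.one_le_pow _ _ hqf.out.pos), mul_one, ← h1]
      exact mul_left_cancel₀ g.ne_zero h3
    have h4 := hgo' _ h2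
    have h5 : q ^ m < q ^ f := Nat.pow_lt_pow_right hqf.out.one_lt hm
    have h6 : 1 < q ^ m := Nat.one_lt_pow hm0.ne' hqf.out.one_lt
    have h7 := Nat.le_of_dvd (by omega) h4
    omega
  set Ds : Finset Gal(K/ℚ) := (range f).image (fun i => fq d K hq ^ i) with hDs
  have hnot : ∀ σ ∉ Ds, ∀ i : ℕ, σ ≠ fq d K hq ^ i := by
    intro σ hσ i hi
    apply hσ
    rw [hDs, mem_image]
    refine ⟨i % f, mem_range.2 (Nat.mod_lt _ hf), ?_⟩
    rw [hi]
    conv_rhs => rw [← Nat.mod_add_div i f, pow_add, pow_mul, hfq, one_pow, mul_one]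
  have hu : ∀ σ : Gal(K/ℚ), ∃ u : 𝓞 K, Ideal.Quotient.mk Q u ≠ 0 ∧
      (σ ∉ Ds → Ideal.Quotient.mk Q (sg σ⁻¹ u) = 0) := by
    intro σ
    by_cases h : σ ∈ Ds
    · exact ⟨1, by rw [map_one]; exact one_ne_zero, fun h' => absurd h h'⟩
    · obtain ⟨u, hu1, hu2⟩ := moves d K hq Q hqQ (hnot σ h)
      exact ⟨u, hu2, fun _ => hu1⟩
  choose u hu1 hu2 using hu
  set U : 𝓞 K := ∏ σ, u σ with hU
  have hU0 : Ideal.Quotient.mk Q U ≠ 0 := by
    rw [hU, map_prod]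
    exact prod_ne_zero_iff.2 fun σ _ => hu1 σ
  have hU1 : ∀ σ ∉ Ds, Ideal.Quotient.mk Q (sg σ⁻¹ U) = 0 := by
    intro σ hσ
    rw [hU, map_prod, map_prod]
    exact prod_eq_zero (mem_univ σ) (hu2 σ hσ)
  obtain ⟨u', hu'⟩ := Ideal.Quotient.mk_surjective ((Ideal.Quotient.mk Q U)⁻¹ * ((g : 𝓞 K ⧸ Q) - 1))
  set w : 𝓞 K := 1 + U * u' with hw
  have hw1 : Ideal.Quotient.mk Q w = g := by
    rw [hw, map_add, map_one, map_mul, hu', mul_inv_cancel_left₀ hU0]
    ring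
  have hw2 : ∀ σ ∉ Ds, Ideal.Quotient.mk Q (sg σ⁻¹ w) = 1 := by
    intro σ hσ
    rw [hw, map_add, map_add, map_one, map_one, map_mul, map_mul, hU1 σ hσ, zero_mul, add_zero]
  have hform : ∀ c : Gal(K/ℚ) → ℕ, Ideal.Quotient.mk Q (∏ σ : Gal(K/ℚ), (sg σ⁻¹ w) ^ c σ) =
      (g : 𝓞 K ⧸ Q) ^ (∑ i ∈ range f, q ^ (f - i) * c (fq d K hq ^ i)) := by
    intro c
    rw [map_prod, ← prod_subset (subset_univ Ds), hDs, prod_image, ← prod_pow_eq_pow_sum]
    · apply prod_congr rfl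
      intro i hi
      rw [mem_range] at hi
      have h1 : (fq d K hq ^ i)⁻¹ = fq d K hq ^ (f - i) := by
        rw [eq_comm, ← mul_eq_one_iff_eq_inv, ← pow_add, Nat.sub_add_cancel hi.le, hfq]
      rw [map_pow, h1, fq_pow d K hq Q hqQ, hw1, ← pow_mul]
    · intro i hi j hj hij
      rw [coe_range] at hi hj
      rw [← hfqo] at hi hj
      exact pow_injOn_Iio_orderOf hi hj hij
    · intro σ _ hσ
      rw [map_pow, hw2 σ hσ, one_pow]
  -- the norm
  have hN1 : Ideal.Quotient.mk Q ((Algebra.norm ℤ w : ℤ) : 𝓞 K) =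
      (g : 𝓞 K ⧸ Q) ^ (∑ i ∈ range f, q ^ (f - i)) := by
    have h1 := hform (fun _ => 1)
    simp only [pow_one, mul_one] at h1
    rw [← h1, norm_prod_aut, ← Equiv.prod_comp (Equiv.inv Gal(K/ℚ))]
    rfl
  have hN0 : ((Algebra.norm ℤ w : ℤ) : ZMod q) ≠ 0 := by
    intro h
    rw [ZMod.intCast_zmod_eq_zero_iff_dvd] at h
    obtain ⟨m, hm⟩ := h
    rw [hm] at hN1
    push_cast at hN1
    rw [map_mul, Ideal.Quotient.eq_zero_iff_mem.2 hqQ, zero_mul] at hN1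
    exact pow_ne_zero _ g.ne_zero hN1.symm
  obtain ⟨a, ha⟩ := ZMod.intCast_surjective (((Algebra.norm ℤ w : ℤ) : ZMod q)⁻¹)
  have ha1 : (q : ℤ) ∣ a * Algebra.norm ℤ w - 1 := by
    rw [← ZMod.intCast_zmod_eq_zero_iff_dvd]
    push_cast
    rw [ha, inv_mul_cancel₀ hN0, sub_self]
  refine ⟨w, (a : 𝓞 K) * ∏ σ ∈ univ.erase (1 : Gal(K/ℚ)), sg σ w, ?_, ?_, ?_⟩
  · have h1 : w * ((a : 𝓞 K) * ∏ σ ∈ univ.erase (1 : Gal(K/ℚ)), sg σ w) =
        a * ((Algebra.norm ℤ w : ℤ) : 𝓞 K) := by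
      rw [norm_prod_aut, ← mul_prod_erase univ _ (mem_univ (1 : Gal(K/ℚ)))]
      have h2 : sg (1 : Gal(K/ℚ)) w = w := by rw [sg_apply, one_smul]
      rw [h2]
      ring
    rw [h1]
    obtain ⟨m, hm⟩ := ha1
    refine ⟨(m : 𝓞 K), ?_⟩
    have h2 := congrArg (fun z : ℤ => (z : 𝓞 K)) hm
    push_cast at h2
    exact h2
  · intro l hl hld h
    unfold th at h
    unfold el at h
    rw [hform, ← pow_mul] at h
    have h1 := hgo' _ h
    simp only [cx_fq d K hld hq] at h1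
    exact exp_cmp hqf.out.two_le hl hf (hqfd.of_dvd hld) (q_pow_mod d hq hl hld) h1
  · intro hodd
    rw [← jacobiSym.legendreSym.to_jacobiSym]
    have h1 : legendreSym q (Algebra.norm ℤ w) ≠ 1 := by
      intro h
      have h2 := legendreSym.eq_pow q (Algebra.norm ℤ w)
      rw [h] at h2
      push_cast at h2
      have h3 := congrArg (ZMod.castHom (dvd_refl q) (𝓞 K ⧸ Q)) h2
      rw [map_one, map_pow, map_intCast] at h3
      have h4 : ((Algebra.norm ℤ w : ℤ) : 𝓞 K ⧸ Q) = (g : 𝓞 K ⧸ Q) ^ (∑ i ∈ range f, q ^ (f - i)) := by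
        rw [← hN1, map_intCast]
      rw [h4, ← pow_mul] at h3
      exact exp_cmp2 hqf.out.two_le hodd hf (hgo' _ h3.symm)
    exact (legendreSym.eq_one_or_neg_one q hN0).resolve_left h1

end

end Pool.Agent.KS6_18
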