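import Mathlib
import Pool.Agent.KS6_18.Psi

set_option autoImplicit false

/-! The reciprocity law for tuples. -/

namespace Pool.Agent.KS6_18

open Finset MulChar NumberField IsCyclotomicExtension Module

section
variable (d : ℕ) [NeZero d] (K : Type*) [Field K] [NumberField K] [IsCyclotomicExtension {d} ℚ K]
variable {q : ℕ} [hqf : Fact q.Prime] (hq : q.Coprime d) (Q : Ideal (𝓞 K)) [hQ : Q.IsMaximal]
  (hqQ : (q : 𝓞 K) ∈ Q) {l : ℕ} (hl : l.Prime) (hld : l ∣ d) (io : 𝓞 K →+* ℂ)

include hqf hq hqQ hl hld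

theorem recip {ι : Type} [Fintype ι] (s : ι → ℕ) (D : ∀ j, PData d K (s j))
    (hs : ∀ j, (s j).Prime) (γ β : 𝓞 K) (hγ : (∏ j, (D j).Φ l) * γ = el d K l β) (hγQ : γ ∉ Q)
    (g : ℤ) (hN : Algebra.norm ℤ β = g * ∏ j, (s j : ℤ)) :
    ∏ j, io ((D j).χ l (q : ZMod (s j))) =
      (Lf Q io l (Ideal.Quotient.mk Q γ ^ Eq' q l))⁻¹ * Lf Q io l (th d K Q q l β) := by
  classical
  let _ : Field (𝓞 K ⧸ Q) := Ideal.Quotient.field Q
  have hch := charP_Q K Q hqQ
  have hG : IsGalois ℚ K := IsCyclotomicExtension.isGalois {d} ℚ K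
  by_cases hall : ∀ j, s j ≠ q
  · have hchi : ∀ j, (D j).χ l (q : ZMod (s j)) ^ l = 1 := by
      intro j
      have : Fact (s j).Prime := ⟨hs j⟩
      have hu : IsUnit ((q : ZMod (s j))) := by
        rw [ZMod.isUnit_iff_coprime]
        exact (Nat.coprime_primes hqf.out (hs j)).2 (hall j).symm
      rw [← MulChar.pow_apply' _ hl.ne_zero, (D j).χ_pow l hl hld, MulChar.one_apply hu]
    set χv : 𝓞 K := ∏ j, (D j).χ l (q : ZMod (s j)) with hχv
    have hχvl : χv ^ l = 1 := by
      rw [hχv, ← prod_pow]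
      exact prod_eq_one fun j _ => hchi j
    have hfr : Ideal.Quotient.mk Q ((∏ j, (D j).Φ l) ^ Eq' q l * χv ^ (l - 1)) = 1 := by
      rw [hχv, ← prod_pow, ← prod_pow, ← prod_mul_distrib, map_prod]
      apply prod_eq_one
      intro j _
      exact (D j).frob l hl hld q hqf (hall j) Q hQ hqQ (by
        intro h
        have h1 := Nat.Coprime.eq_one_of_dvd hq h
        exact hqf.out.one_lt.ne' h1) (l - 1) (q_pow_mod d hq hl hld)
    have h1 : Ideal.Quotient.mk Q ((∏ j, (D j).Φ l)) ^ Eq' q l = Ideal.Quotient.mk Q χv := by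
      have h2 : (∏ j, (D j).Φ l) ^ Eq' q l = (∏ j, (D j).Φ l) ^ Eq' q l * χv ^ (l - 1) * χv := by
        rw [mul_assoc, ← pow_succ, Nat.sub_add_cancel hl.one_lt.le, hχvl, mul_one]
      rw [← map_pow, h2, map_mul, hfr, one_mul]
    have h3 : th d K Q q l β = Ideal.Quotient.mk Q χv * Ideal.Quotient.mk Q γ ^ Eq' q l := by
      unfold th
      rw [← hγ, map_mul, mul_pow, h1]
    have h4 : (Ideal.Quotient.mk Q χv) ^ l = 1 := by rw [← map_pow, hχvl, map_one]
    have h5 : (Ideal.Quotient.mk Q γ ^ Eq' q l) ^ l = 1 := by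
      rcases th_mu d K hq Q hqQ hl hld β with h | h
      · exfalso
        rw [h3, mul_eq_zero] at h
        rcases h with h | h
        · rw [h, zero_pow hl.ne_zero] at h4
          exact zero_ne_one h4
        · exact hγQ (Ideal.Quotient.eq_zero_iff_mem.1 (eq_zero_of_pow_eq_zero h))
      · rw [h3, mul_pow, h4, one_mul] at h
        exact h
    have h6 : Lf Q io l (Ideal.Quotient.mk Q γ ^ Eq' q l) ≠ 0 := by
      intro h
      have h7 := Lf_mu d K hq Q hqQ hl hld io h5
      rw [h, zero_pow hl.ne_zero] at h7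
      exact zero_ne_one h7
    rw [h3, Lf_mul d K hq Q hqQ hl hld io (Or.inr h4) (Or.inr h5),
      Lf_spec d K hq Q hqQ hl hld io hχvl, mul_comm (io χv), inv_mul_cancel_left₀ h6, hχv, map_prod]
  · push Not at hall
    obtain ⟨j, hj⟩ := hall
    have h1 : ∏ j, io ((D j).χ l (q : ZMod (s j))) = 0 := by
      apply prod_eq_zero (mem_univ j)
      have : Nontrivial (ZMod (s j)) := by rw [hj]; infer_instance
      have h2 : (q : ZMod (s j)) = 0 := by rw [← hj]; exact ZMod.natCast_self _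
      rw [h2, MulChar.map_zero, map_zero]
    have h2 : Ideal.Quotient.mk Q ((Algebra.norm ℤ β : ℤ) : 𝓞 K) = 0 := by
      rw [hN]
      push_cast
      rw [map_mul, map_prod, ← mul_prod_erase univ _ (mem_univ j)]
      have h3 : Ideal.Quotient.mk Q ((s j : ℕ) : 𝓞 K) = 0 := by
        rw [hj, Ideal.Quotient.eq_zero_iff_mem]
        exact hqQ
      rw [h3, zero_mul, mul_zero]
    rw [norm_prod_aut, map_prod, prod_eq_zero_iff] at h2
    obtain ⟨σ, _, hσ⟩ := h2
    have h3 : th d K Q q l β = 0 := by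
      unfold th
      have h4 : Ideal.Quotient.mk Q (el d K l β) = 0 := by
        unfold el
        rw [map_prod]
        apply prod_eq_zero (mem_univ σ⁻¹)
        rw [inv_inv, map_pow, hσ, zero_pow]
        have := cx_lt d K hl σ⁻¹
        omega
      rw [h4, zero_pow]
      intro h
      have h1 := Eq_mul d hq hl hld
      rw [h, mul_zero] at h1
      have h2 : 2 ≤ q ^ (l - 1) := (hqf.out.two_le).trans
        (Nat.le_self_pow (by have := hl.two_le; omega) q)
      omega
    rw [h1, h3, Lf_zero K Q hl, mul_zero]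

end

end Pool.Agent.KS6_18
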