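import Mathlib
import Pool.Agent.KS6_18.Nontr
import Pool.Agent.KS6_18.Recip

set_option autoImplicit false

/-! The periodic functions attached to an integer `ν`. -/

namespace Pool.Agent.KS6_18

open Finset MulChar NumberField IsCyclotomicExtension Module

lemma norm_mod (K : Type*) [Field K] [NumberField K] [IsGalois ℚ K] (q : ℕ) (x y : 𝓞 K) : (q : ℤ) ∣ Algebra.norm ℤ (x + q * y) - Algebra.norm ℤ x := by
  -- divisibility in the ring of integers
  have h1 : (q : 𝓞 K) ∣ ((Algebra.norm ℤ (x + q * y) : ℤ) : 𝓞 K) - ((Algebra.norm ℤ x : ℤ) : 𝓞 K) := by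
    rw [norm_prod_aut, norm_prod_aut, ← Ideal.mem_span_singleton, ← Ideal.Quotient.eq, map_prod,
      map_prod]
    apply prod_congr rfl
    intro σ _
    rw [Ideal.Quotient.eq, Ideal.mem_span_singleton, map_add, map_mul, map_natCast, add_sub_cancel_left]
    exact dvd_mul_right _ _
  rw [← Int.cast_sub] at h1
  set z : ℤ := Algebra.norm ℤ (x + q * y) - Algebra.norm ℤ x
  by_cases hq0 : q = 0
  · rw [hq0, Nat.cast_zero, zero_dvd_iff] at h1
    rw [hq0, Nat.cast_zero, zero_dvd_iff]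
    exact_mod_cast h1
  obtain ⟨y', hy'⟩ := h1
  have h2 : IsIntegral ℤ ((z : ℚ) / q) := by
    have h3 : algebraMap (𝓞 K) K y' = algebraMap ℚ K ((z : ℚ) / q) := by
      have h4 := congrArg (algebraMap (𝓞 K) K) hy'
      rw [map_intCast, map_mul, map_natCast] at h4
      have h5 : (q : K) ≠ 0 := by exact_mod_cast hq0
      rw [map_div₀, map_intCast, map_natCast, eq_div_iff h5, h4]
      ring
    have h6 : IsIntegral ℤ (algebraMap ℚ K ((z : ℚ) / q)) := by
      rw [← h3]
      exact RingOfIntegers.isIntegral_coe y'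
    exact (isIntegral_algebraMap_iff (algebraMap ℚ K).injective).1 h6
  obtain ⟨m, hm⟩ := IsIntegrallyClosed.isIntegral_iff.1 h2
  refine ⟨m, ?_⟩
  have h7 : (q : ℚ) ≠ 0 := by exact_mod_cast hq0
  rw [eq_div_iff h7, eq_intCast] at hm
  have h8 : (z : ℚ) = ((q * m : ℤ) : ℚ) := by
    rw [← hm]
    push_cast
    ring
  exact_mod_cast h8

section
variable (d : ℕ) [NeZero d] (K : Type*) [Field K] [NumberField K] [IsCyclotomicExtension {d} ℚ K]

open Classical in
/-- a maximal ideal above `q` -/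
noncomputable def QQ (K : Type*) [Field K] [NumberField K] (q : ℕ) : Ideal (𝓞 K) :=
  if h : ∃ Q : Ideal (𝓞 K), Q.IsMaximal ∧ (q : 𝓞 K) ∈ Q then h.choose else ⊤

lemma QQ_spec {q : ℕ} (hq : q.Prime) : (QQ K q).IsMaximal ∧ (q : 𝓞 K) ∈ QQ K q := by
  have h : ∃ Q : Ideal (𝓞 K), Q.IsMaximal ∧ (q : 𝓞 K) ∈ Q := by
    have h1 : Ideal.span {(q : 𝓞 K)} ≠ ⊤ := by
      intro h
      rw [Ideal.span_singleton_eq_top] at h
      have h2 : IsUnit (Algebra.norm ℤ (q : 𝓞 K)) := h.map (Algebra.norm ℤ)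
      have h3 := Algebra.norm_algebraMap (S := 𝓞 K) (q : ℤ)
      rw [map_natCast] at h3
      rw [h3] at h2
      rw [isUnit_pow_iff (by rw [RingOfIntegers.rank]; exact Module.finrank_pos.ne')] at h2
      exact (Nat.prime_iff_prime_int.1 hq).not_isUnit h2
    obtain ⟨Q, hQ, hle⟩ := Ideal.exists_le_maximal _ h1
    exact ⟨Q, hQ, hle (Ideal.mem_span_singleton_self _)⟩
  unfold QQ
  rw [dif_pos h]
  exact h.choose_spec

variable (io : 𝓞 K →+* ℂ) (j : ℕ → ℕ) (b : ℕ)

/-- the character of order `l` at `q` -/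
noncomputable def psl (q l : ℕ) (β : 𝓞 K) : ℂ := Lf (QQ K q) io l (th d K (QQ K q) q l β)

/-- the character at `q` -/
noncomputable def psq (q : ℕ) (β : 𝓞 K) : ℂ :=
  (∏ l ∈ d.primeFactors, psl d K io q l β ^ j l) *
    ((jacobiSym (Algebra.norm ℤ β) q : ℤ) : ℂ) ^ b

/-- the character at `ν` -/
noncomputable def psn (ν : ℕ) (β : 𝓞 K) : ℂ :=
  ∏ q ∈ ν.primeFactors, psq d K io j b q β ^ ν.factorization q

section atq
variable {q : ℕ} (hqp : q.Prime) (hq : q.Coprime d)
include hqp hq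

lemma psl_mul {l : ℕ} (hl : l ∈ d.primeFactors) (x y : 𝓞 K) :
    psl d K io q l (x * y) = psl d K io q l x * psl d K io q l y := by
  have : Fact q.Prime := ⟨hqp⟩
  have := (QQ_spec K hqp).1
  have hl1 := Nat.prime_of_mem_primeFactors hl
  have hld := Nat.dvd_of_mem_primeFactors hl
  unfold psl
  rw [th_mul, Lf_mul d K hq (QQ K q) (QQ_spec K hqp).2 hl1 hld io
    (th_mu d K hq _ (QQ_spec K hqp).2 hl1 hld x) (th_mu d K hq _ (QQ_spec K hqp).2 hl1 hld y)]

lemma psl_one {l : ℕ} (hl : l ∈ d.primeFactors) : psl d K io q l 1 = 1 := by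
  have : Fact q.Prime := ⟨hqp⟩
  have := (QQ_spec K hqp).1
  have hl1 := Nat.prime_of_mem_primeFactors hl
  have hld := Nat.dvd_of_mem_primeFactors hl
  unfold psl th
  rw [el_one, map_one, one_pow, ← map_one (Ideal.Quotient.mk (QQ K q)),
    Lf_spec d K hq (QQ K q) (QQ_spec K hqp).2 hl1 hld io (one_pow l), map_one]

lemma psl_mu {l : ℕ} (hl : l ∈ d.primeFactors) (x : 𝓞 K) :
    psl d K io q l x = 0 ∨ psl d K io q l x ^ l = 1 := by
  have : Fact q.Prime := ⟨hqp⟩
  have := (QQ_spec K hqp).1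
  have hl1 := Nat.prime_of_mem_primeFactors hl
  have hld := Nat.dvd_of_mem_primeFactors hl
  unfold psl
  rcases th_mu d K hq _ (QQ_spec K hqp).2 hl1 hld x with h | h
  · left
    rw [h, Lf_zero K _ hl1]
  · right
    exact Lf_mu d K hq (QQ K q) (QQ_spec K hqp).2 hl1 hld io h

lemma psl_norm {l : ℕ} (hl : l ∈ d.primeFactors) (x : 𝓞 K) : ‖psl d K io q l x‖ ≤ 1 := by
  rcases psl_mu d K io hqp hq hl x with h | h
  · rw [h, norm_zero]; exact zero_le_one
  · exact (Complex.norm_eq_one_of_pow_eq_one h (Nat.prime_of_mem_primeFactors hl).ne_zero).le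

omit hq in
lemma psl_add {l : ℕ} (x y : 𝓞 K) : psl d K io q l (x + q * y) = psl d K io q l x := by
  have : Fact q.Prime := ⟨hqp⟩
  have := (QQ_spec K hqp).1
  unfold psl
  rw [th_add d K (QQ K q) (QQ_spec K hqp).2]

lemma psq_mul (x y : 𝓞 K) :
    psq d K io j b q (x * y) = psq d K io j b q x * psq d K io j b q y := by
  unfold psq
  rw [map_mul, jacobiSym.mul_left, prod_congr rfl (fun l hl => by
    rw [psl_mul d K io hqp hq hl x y, mul_pow]), prod_mul_distrib]
  push_cast
  ring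

lemma psq_one : psq d K io j b q 1 = 1 := by
  unfold psq
  rw [map_one, jacobiSym.one_left, prod_congr rfl (fun l hl => by
    rw [psl_one d K io hqp hq hl, one_pow]), prod_const_one]
  push_cast
  ring

lemma psq_norm (x : 𝓞 K) : ‖psq d K io j b q x‖ ≤ 1 := by
  unfold psq
  rw [norm_mul, norm_prod, norm_pow]
  have h1 : ∏ l ∈ d.primeFactors, ‖psl d K io q l x ^ j l‖ ≤ 1 := by
    apply prod_le_one (fun l _ => norm_nonneg _)
    intro l hl
    rw [norm_pow]
    exact pow_le_one₀ (norm_nonneg _) (psl_norm d K io hqp hq hl x)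
  have h2 : ‖((jacobiSym (Algebra.norm ℤ x) q : ℤ) : ℂ)‖ ≤ 1 := by
    rcases jacobiSym.trichotomy (Algebra.norm ℤ x) q with h | h | h <;> rw [h] <;> simp
  exact mul_le_one₀ h1 (by positivity) (pow_le_one₀ (norm_nonneg _) h2)

omit hq in
lemma psq_add (x y : 𝓞 K) : psq d K io j b q (x + q * y) = psq d K io j b q x := by
  unfold psq
  congr 1
  · exact prod_congr rfl (fun l _ => by rw [psl_add d K io hqp x y])
  · have hG : IsGalois ℚ K := IsCyclotomicExtension.isGalois {d} ℚ K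
    have h1 : jacobiSym (Algebra.norm ℤ (x + q * y)) q = jacobiSym (Algebra.norm ℤ x) q := by
      apply jacobiSym.mod_left'
      exact Int.emod_eq_emod_iff_emod_sub_eq_zero.2 (Int.emod_eq_zero_of_dvd (norm_mod K q x y))
    rw [h1]

/-- a test element: its value has order divisible by all the relevant primes -/
lemma psq_w (hdodd : Odd d) (hb : b ≤ 1) (hqb : b = 1 → q % 2 = 1)
    (hj : ∀ l ∈ d.primeFactors, ¬ l ∣ j l) (hdsq : Squarefree d) :
    ∃ w w' : 𝓞 K, (q : 𝓞 K) ∣ w * w' - 1 ∧ ‖psq d K io j b q w‖ = 1 ∧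
      ∀ e e' l : ℕ, l.Prime → l ∣ d * 2 ^ b → psq d K io j b q w ^ e = psq d K io j b q w ^ e' →
        e ≡ e' [MOD l] := by
  classical
  have : Fact q.Prime := ⟨hqp⟩
  have := (QQ_spec K hqp).1
  obtain ⟨w, w', hww, hth, hjac⟩ := exists_w d K hq (QQ K q) (QQ_spec K hqp).2
  refine ⟨w, w', hww, ?_⟩
  -- the values at `w` are non-zero
  have hpp : psq d K io j b q w * psq d K io j b q w' = 1 := by
    obtain ⟨z, hz⟩ := hww
    rw [← psq_mul d K io j b hqp hq, show w * w' = 1 + q * z by rw [← hz]; ring,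
      psq_add d K io j b hqp, psq_one d K io j b hqp hq]
  have hnorm : ‖psq d K io j b q w‖ = 1 := by
    have h1 := congrArg norm hpp
    rw [norm_mul, norm_one] at h1
    have h2 := psq_norm d K io j b hqp hq w
    have h3 := psq_norm d K io j b hqp hq w'
    apply le_antisymm h2
    rw [← h1]
    exact mul_le_of_le_one_right (norm_nonneg _) h3
  refine ⟨hnorm, ?_⟩
  have hz0 : ∀ l ∈ d.primeFactors, psl d K io q l w ^ l = 1 ∧ psl d K io q l w ≠ 1 := by
    intro l hl
    have hl1 := Nat.prime_of_mem_primeFactors hl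
    have hld := Nat.dvd_of_mem_primeFactors hl
    have h1 : psl d K io q l w * psl d K io q l w' = 1 := by
      obtain ⟨z, hz⟩ := hww
      rw [← psl_mul d K io hqp hq hl, show w * w' = 1 + q * z by rw [← hz]; ring,
        psl_add d K io hqp, psl_one d K io hqp hq hl]
    have h2 : psl d K io q l w ≠ 0 := left_ne_zero_of_mul_eq_one h1
    refine ⟨(psl_mu d K io hqp hq hl w).resolve_left h2, ?_⟩
    intro h3
    rcases th_mu d K hq (QQ K q) (QQ_spec K hqp).2 hl1 hld w with h4 | h4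
    · apply h2
      unfold psl
      rw [h4, Lf_zero K _ hl1]
    · obtain ⟨x, hx, hx'⟩ := mu_surj d K hq (QQ K q) (QQ_spec K hqp).2 hl1 hld h4
      unfold psl at h3
      rw [← hx', Lf_spec d K hq (QQ K q) (QQ_spec K hqp).2 hl1 hld io hx] at h3
      have h5 : x = 1 := mu_inj (ze_l d K hld) hl1 io (by exact_mod_cast hl1.ne_zero)
        (Or.inr hx) (Or.inr (one_pow l)) (by rw [h3, map_one])
      rw [h5, map_one] at hx'
      exact hth l hl1 hld hx'.symm
  have hJ : ((jacobiSym (Algebra.norm ℤ w) q : ℤ) : ℂ) ^ b = (-1) ^ b := by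
    rcases Nat.le_one_iff_eq_zero_or_eq_one.1 hb with h0 | h1
    · rw [h0, pow_zero, pow_zero]
    · rw [hjac (hqb h1)]
      push_cast
      rfl
  intro e e' l hl hlm heq
  have hy : psq d K io j b q w = (∏ l ∈ d.primeFactors, psl d K io q l w ^ j l) * (-1) ^ b := by
    unfold psq
    rw [hJ]
  -- raise to the power `m / l`
  obtain ⟨M, hM⟩ := hlm
  have hpw : (psq d K io j b q w ^ M) ^ e = (psq d K io j b q w ^ M) ^ e' := by
    rw [← pow_mul, ← pow_mul, mul_comm M, mul_comm M, pow_mul, pow_mul, heq]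
  have hmsq : Squarefree (d * 2 ^ b) := by
    rw [Nat.squarefree_mul (Nat.Coprime.pow_right b (Nat.coprime_two_right.2 hdodd))]
    refine ⟨hdsq, ?_⟩
    rcases Nat.le_one_iff_eq_zero_or_eq_one.1 hb with h0 | h1
    · rw [h0, pow_zero]; exact squarefree_one
    · rw [h1, pow_one]; exact Nat.prime_two.prime.squarefree
  have hlM : ¬ l ∣ M := by
    rintro ⟨t, ht⟩
    rw [hM, ht, ← mul_assoc] at hmsq
    have := hmsq l (Dvd.intro _ rfl)
    exact hl.one_lt.ne' (Nat.isUnit_iff.1 this)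
  have hdvdM : ∀ l' : ℕ, l'.Prime → l' ∣ d * 2 ^ b → l' ≠ l → l' ∣ M := by
    intro l' hl' h1 hne
    rw [hM] at h1
    exact (hl'.dvd_mul.1 h1).resolve_left (fun h => hne ((Nat.prime_dvd_prime_iff_eq hl' hl).1 h))
  by_cases hl2 : l = 2
  · -- the quadratic component
    subst hl2
    have hb1 : b = 1 := by
      rcases Nat.le_one_iff_eq_zero_or_eq_one.1 hb with h0 | h1
      · exfalso
        rw [h0, pow_zero, mul_one] at hM
        exact (Nat.not_even_iff_odd.2 hdodd) (by rw [hM]; exact even_two_mul M)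
      · exact h1
    have hMd : M = d := by
      rw [hb1, pow_one, mul_comm] at hM
      omega
    have hval : psq d K io j b q w ^ M = -1 := by
      rw [hy, mul_pow, hb1, pow_one, hMd, hdodd.neg_one_pow, ← prod_pow, prod_eq_one, one_mul]
      intro l hl
      have h1 := (hz0 l hl).1
      obtain ⟨t, ht⟩ := Nat.dvd_of_mem_primeFactors hl
      have h3 : j l * d = l * (j l * t) := by rw [ht]; ring
      rw [← pow_mul, h3, pow_mul, h1, one_pow]
    rw [hval] at hpw
    rcases Nat.even_or_odd e with he | he <;> rcases Nat.even_or_odd e' with he' | he'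
    · exact (Nat.even_iff.1 he).trans (Nat.even_iff.1 he').symm
    · rw [he.neg_one_pow, he'.neg_one_pow] at hpw
      norm_num at hpw
    · rw [he.neg_one_pow, he'.neg_one_pow] at hpw
      norm_num at hpw
    · exact (Nat.odd_iff.1 he).trans (Nat.odd_iff.1 he').symm
  · have hld : l ∣ d := by
      have h1 : l ∣ d * 2 ^ b := by rw [hM]; exact dvd_mul_right _ _
      rcases hl.dvd_mul.1 h1 with h | h
      · exact h
      · exact absurd ((Nat.prime_dvd_prime_iff_eq hl Nat.prime_two).1 (hl.dvd_of_dvd_pow h)) hl2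
    have hlmem : l ∈ d.primeFactors := Nat.mem_primeFactors.2 ⟨hl, hld, NeZero.ne d⟩
    have hprim : IsPrimitiveRoot (psl d K io q l w) l := by
      have : Fact l.Prime := ⟨hl⟩
      exact IsPrimitiveRoot.iff_orderOf.2 (orderOf_eq_prime (hz0 l hlmem).1 (hz0 l hlmem).2)
    have hval : psq d K io j b q w ^ M = psl d K io q l w ^ (j l * M) := by
      have hneg : (((-1 : ℂ)) ^ b) ^ M = 1 := by
        rcases Nat.le_one_iff_eq_zero_or_eq_one.1 hb with h0 | h1
        · rw [h0, pow_zero, one_pow]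
        · rw [h1, pow_one]
          have h2 : 2 ∣ M := hdvdM 2 Nat.prime_two (by rw [h1, pow_one]; exact dvd_mul_left _ _)
            (Ne.symm hl2)
          exact (even_iff_two_dvd.2 h2).neg_one_pow
      rw [hy, mul_pow, hneg, mul_one, ← prod_pow, ← mul_prod_erase _ _ hlmem, prod_eq_one, mul_one,
        ← pow_mul]
      intro l' hl'
      have hl'1 := mem_of_mem_erase hl'
      obtain ⟨t, ht⟩ := hdvdM l' (Nat.prime_of_mem_primeFactors hl'1)
        ((Nat.dvd_of_mem_primeFactors hl'1).mul_right _) (ne_of_mem_erase hl')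
      rw [← pow_mul, ht, mul_comm (j l'), mul_assoc, pow_mul, (hz0 l' hl'1).1, one_pow]
    rw [hval, ← pow_mul, ← pow_mul] at hpw
    have h1 := (hprim.isOfFinOrder hl.ne_zero).pow_eq_pow_iff_modEq.1 hpw
    rw [← hprim.eq_orderOf] at h1
    apply Nat.ModEq.cancel_left_of_coprime _ h1
    exact Nat.Coprime.mul_right ((Nat.Prime.coprime_iff_not_dvd hl).2 (hj l hlmem))
      ((Nat.Prime.coprime_iff_not_dvd hl).2 hlM)

end atq

section atn
variable {ν : ℕ} (hν : ∀ q ∈ ν.primeFactors, q.Coprime d)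
include hν

lemma psn_mul (x y : 𝓞 K) :
    psn d K io j b ν (x * y) = psn d K io j b ν x * psn d K io j b ν y := by
  unfold psn
  rw [← prod_mul_distrib]
  exact prod_congr rfl fun q hq => by
    rw [psq_mul d K io j b (Nat.prime_of_mem_primeFactors hq) (hν q hq), mul_pow]

lemma psn_norm (x : 𝓞 K) : ‖psn d K io j b ν x‖ ≤ 1 := by
  unfold psn
  rw [norm_prod]
  apply prod_le_one (fun l _ => norm_nonneg _)
  intro q hq
  rw [norm_pow]
  exact pow_le_one₀ (norm_nonneg _)
    (psq_norm d K io j b (Nat.prime_of_mem_primeFactors hq) (hν q hq) x)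

omit hν in
lemma psn_add (Q : ℕ) (hQ : ∀ q ∈ ν.primeFactors, q ∣ Q) (x y : 𝓞 K) :
    psn d K io j b ν (x + Q * y) = psn d K io j b ν x := by
  unfold psn
  apply prod_congr rfl
  intro q hq
  obtain ⟨t, rfl⟩ := hQ q hq
  push_cast
  rw [mul_assoc, psq_add d K io j b (Nat.prime_of_mem_primeFactors hq)]

end atn

/-- nontriviality for a pair -/
lemma pair_w (hdodd : Odd d) (hb : b ≤ 1) (hj : ∀ l ∈ d.primeFactors, ¬ l ∣ j l)
    (hdsq : Squarefree d) {ν ν' : ℕ} (hν : ∀ q ∈ ν.primeFactors, q.Coprime d)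
    (hν' : ∀ q ∈ ν'.primeFactors, q.Coprime d)
    (hν2 : ∀ q ∈ ν.primeFactors, q % 2 = 1) (hν2' : ∀ q ∈ ν'.primeFactors, q % 2 = 1)
    (q₀ l : ℕ) (hq₀ : q₀.Prime) (hl : l.Prime) (hlm : l ∣ d * 2 ^ b)
    (hne : ¬ ν.factorization q₀ ≡ ν'.factorization q₀ [MOD l]) :
    ∃ w w' : 𝓞 K, ((∏ q ∈ ν.primeFactors ∪ ν'.primeFactors, q : ℕ) : 𝓞 K) ∣ w * w' - 1 ∧
      psn d K io j b ν w * (starRingEnd ℂ) (psn d K io j b ν' w) ≠ 1 := by
  classical
  set P := ν.primeFactors ∪ ν'.primeFactors with hP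
  have hq₀P : q₀ ∈ P := by
    by_contra h
    rw [hP, mem_union, not_or] at h
    apply hne
    rw [← Nat.support_factorization, ← Nat.support_factorization, Finsupp.notMem_support_iff,
      Finsupp.notMem_support_iff] at h
    rw [h.1, h.2]
  have hPp : ∀ q ∈ P, q.Prime := by
    intro q hq
    rcases mem_union.1 hq with h | h <;> exact Nat.prime_of_mem_primeFactors h
  have hPd : ∀ q ∈ P, q.Coprime d := by
    intro q hq
    rcases mem_union.1 hq with h | h
    · exact hν q h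
    · exact hν' q h
  have hP2 : ∀ q ∈ P, q % 2 = 1 := by
    intro q hq
    rcases mem_union.1 hq with h | h
    · exact hν2 q h
    · exact hν2' q h
  obtain ⟨w₀, w₀', hww, hnorm, hord⟩ := psq_w d K io j b hq₀ (hPd q₀ hq₀P) hdodd hb
    (fun _ => hP2 q₀ hq₀P) hj hdsq
  set R : ℕ := ∏ q ∈ P.erase q₀, q with hR
  have hcop : IsCoprime (q₀ : ℤ) (R : ℤ) := by
    rw [Nat.isCoprime_iff_coprime, hR]
    apply Nat.Coprime.prod_right
    intro q hq
    exact (Nat.coprime_primes hq₀ (hPp q (mem_of_mem_erase hq))).2 (ne_of_mem_erase hq).symm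
  obtain ⟨s, t, hst⟩ := hcop
  -- `u = t R`
  have hcopK : (s : 𝓞 K) * q₀ + (t : 𝓞 K) * R = 1 := by
    have := congrArg (fun z : ℤ => (z : 𝓞 K)) hst
    push_cast at this
    exact this
  set w : 𝓞 K := 1 + (w₀ - 1) * (t * R) with hw
  set w' : 𝓞 K := 1 + (w₀' - 1) * (t * R) with hw'
  have hw1 : w = w₀ + q₀ * (-(s * (w₀ - 1))) := by
    have : (t : 𝓞 K) * R = 1 - s * q₀ := by rw [← hcopK]; ring
    rw [hw, this]; ring
  have hw1' : w' = w₀' + q₀ * (-(s * (w₀' - 1))) := by
    have : (t : 𝓞 K) * R = 1 - s * q₀ := by rw [← hcopK]; ring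
    rw [hw', this]; ring
  have hw2 : w = 1 + R * ((w₀ - 1) * t) := by rw [hw]; ring
  have hw2' : w' = 1 + R * ((w₀' - 1) * t) := by rw [hw']; ring
  have hprodP : ∏ q ∈ P, q = q₀ * R := (mul_prod_erase P (fun q => q) hq₀P).symm
  refine ⟨w, w', ?_, ?_⟩
  · rw [hprodP]
    push_cast
    have hc : IsCoprime (q₀ : 𝓞 K) (R : 𝓞 K) := ⟨s, t, hcopK⟩
    apply hc.mul_dvd
    · rw [hw1, hw1']
      obtain ⟨z, hz⟩ := hww
      refine ⟨z + (w₀ * (-(s * (w₀' - 1))) + (-(s * (w₀ - 1))) * w₀' +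
        q₀ * ((-(s * (w₀ - 1))) * (-(s * (w₀' - 1))))), ?_⟩
      linear_combination hz
    · rw [hw2, hw2']
      refine ⟨((w₀ - 1) * t) + ((w₀' - 1) * t) + R * (((w₀ - 1) * t) * ((w₀' - 1) * t)), ?_⟩
      ring
  · have hval : ∀ μ : ℕ, μ.primeFactors ⊆ P →
        psn d K io j b μ w = psq d K io j b q₀ w₀ ^ μ.factorization q₀ := by
      intro μ hμ
      unfold psn
      have h1 : ∏ q ∈ μ.primeFactors, psq d K io j b q w ^ μ.factorization q =
          ∏ q ∈ P, psq d K io j b q w ^ μ.factorization q := by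
        apply prod_subset hμ
        intro q _ hq
        rw [← Nat.support_factorization, Finsupp.notMem_support_iff] at hq
        rw [hq, pow_zero]
      rw [h1, ← mul_prod_erase P _ hq₀P, prod_eq_one, mul_one]
      · rw [hw1, psq_add d K io j b hq₀]
      · intro q hq
        have hqP := mem_of_mem_erase hq
        obtain ⟨z, hz⟩ := dvd_prod_of_mem (fun q => q) hq
        rw [hw2]
        have h2 : (R : 𝓞 K) = q * (z : 𝓞 K) := by
          have h3 : R = q * z := hz
          rw [h3]; push_cast; rfl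
        rw [h2, mul_assoc, psq_add d K io j b (hPp q hqP), psq_one d K io j b (hPp q hqP) (hPd q hqP),
          one_pow]
    rw [hval ν subset_union_left, hval ν' subset_union_right]
    intro h
    apply hne
    apply hord _ _ l hl hlm
    rw [map_pow] at h
    have h1 : (starRingEnd ℂ) (psq d K io j b q₀ w₀) * psq d K io j b q₀ w₀ = 1 := by
      rw [mul_comm, Complex.mul_conj', hnorm]
      norm_num
    calc psq d K io j b q₀ w₀ ^ ν.factorization q₀ =
        psq d K io j b q₀ w₀ ^ ν.factorization q₀ *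
          ((starRingEnd ℂ) (psq d K io j b q₀ w₀) * psq d K io j b q₀ w₀) ^ ν'.factorization q₀ := by
          rw [h1, one_pow, mul_one]
      _ = (psq d K io j b q₀ w₀ ^ ν.factorization q₀ *
          (starRingEnd ℂ) (psq d K io j b q₀ w₀) ^ ν'.factorization q₀) *
            psq d K io j b q₀ w₀ ^ ν'.factorization q₀ := by rw [mul_pow]; ring
      _ = _ := by rw [h, one_mul]

end

end Pool.Agent.KS6_18
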