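import Mathlib
import Pool.Agent.KS6_18.PsiN

set_option autoImplicit false

/-! The reciprocity law for integers `ν`. -/

namespace Pool.Agent.KS6_18

open Finset MulChar NumberField IsCyclotomicExtension Module

/-- completely multiplicative functions -/
lemma cm_fac (f : ℕ → ℂ) (h1 : f 1 = 1) (hm : ∀ m n, m ≠ 0 → n ≠ 0 → f (m * n) = f m * f n) {ν : ℕ}
    (hν : ν ≠ 0) : f ν = ∏ q ∈ ν.primeFactors, f q ^ ν.factorization q := by
  have h : ∀ ν : ℕ, ν ≠ 0 → f ν = ν.factorization.prod (fun q e => f q ^ e) := by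
    intro ν
    induction ν using induction_on_primes with
    | zero => intro h; exact absurd rfl h
    | one => intro _; rw [h1, Nat.factorization_one, Finsupp.prod_zero_index]
    | prime_mul p a hp ih =>
      intro h0
      have ha : a ≠ 0 := right_ne_zero_of_mul h0
      rw [hm p a hp.ne_zero ha, ih ha, Nat.factorization_mul hp.ne_zero ha,
        Finsupp.prod_add_index' (fun _ => pow_zero _) (fun _ _ _ => pow_add _ _ _)]
      have h2 : (Finsupp.single p 1).prod (fun q e => f q ^ e) = f p := by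
        rw [Finsupp.prod_single_index (h := fun q e => f q ^ e) (pow_zero _), pow_one]
      rw [hp.factorization]
      exact congrArg (· * _) h2.symm
  rw [h ν hν]
  rfl

lemma jac_cm (a : ℤ) (b : ℕ) {ν : ℕ} (hν : ν ≠ 0) : ((jacobiSym a ν : ℤ) : ℂ) ^ b =
    ∏ q ∈ ν.primeFactors, (((jacobiSym a q : ℤ) : ℂ) ^ b) ^ ν.factorization q := by
  apply cm_fac (fun n => ((jacobiSym a n : ℤ) : ℂ) ^ b) _ _ hν
  · simp only [jacobiSym.one_right, Int.cast_one, one_pow]
  · intro m n hm hn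
    have : NeZero m := ⟨hm⟩
    have : NeZero n := ⟨hn⟩
    simp only [jacobiSym.mul_right]
    push_cast
    rw [mul_pow]

section
variable (d : ℕ) [NeZero d] (K : Type*) [Field K] [NumberField K] [IsCyclotomicExtension {d} ℚ K]

/-- the chosen data at `p` -/
noncomputable def PDc (p : ℕ) (h : p.Prime ∧ d ∣ p - 1) : PData d K p := (exists_PD d K h.1 h.2).some

variable (io : 𝓞 K →+* ℂ) (j : ℕ → ℕ) (b : ℕ)

open Classical in
/-- the character of order `l` modulo `p` -/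
noncomputable def XX (l p : ℕ) (n : ℤ) : ℂ :=
  if h : p.Prime ∧ d ∣ p - 1 then io ((PDc d K p h).χ l (n : ZMod p)) else 0

/-- the character modulo `p` as a function of `ν` -/
noncomputable def XP (p ν : ℕ) : ℂ :=
  (∏ l ∈ d.primeFactors, XX d K io l p ν ^ j l) * ((jacobiSym p ν : ℤ) : ℂ) ^ b

lemma XX_mul {l p : ℕ} (hp : p.Prime ∧ d ∣ p - 1) (m n : ℤ) :
    XX d K io l p (m * n) = XX d K io l p m * XX d K io l p n := by
  unfold XX
  rw [dif_pos hp, dif_pos hp, dif_pos hp]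
  push_cast
  rw [map_mul, map_mul]

lemma XX_one {l p : ℕ} (hp : p.Prime ∧ d ∣ p - 1) : XX d K io l p 1 = 1 := by
  unfold XX
  rw [dif_pos hp]
  push_cast
  rw [map_one, map_one]

lemma XX_mu {l p : ℕ} (hl : l ∈ d.primeFactors) (hp : p.Prime ∧ d ∣ p - 1) (n : ℤ)
    (hn : ¬ (p : ℤ) ∣ n) : XX d K io l p n ^ l = 1 := by
  have : Fact p.Prime := ⟨hp.1⟩
  have hl1 := Nat.prime_of_mem_primeFactors hl
  have hld := Nat.dvd_of_mem_primeFactors hl
  unfold XX
  rw [dif_pos hp, ← map_pow, ← MulChar.pow_apply' _ hl1.ne_zero, (PDc d K p hp).χ_pow l hl1 hld,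
    MulChar.one_apply, map_one]
  rw [isUnit_iff_ne_zero, Ne, ZMod.intCast_zmod_eq_zero_iff_dvd]
  exact hn

lemma XX_zero {l p : ℕ} (n : ℤ) (hn : (p : ℤ) ∣ n) : XX d K io l p n = 0 := by
  unfold XX
  split_ifs with hp
  · have : Fact p.Prime := ⟨hp.1⟩
    rw [(ZMod.intCast_zmod_eq_zero_iff_dvd n p).2 hn, MulChar.map_zero, map_zero]
  · rfl

lemma XX_norm {l p : ℕ} (hl : l ∈ d.primeFactors) (n : ℤ) : ‖XX d K io l p n‖ ≤ 1 := by
  by_cases hp : p.Prime ∧ d ∣ p - 1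
  · by_cases hn : (p : ℤ) ∣ n
    · rw [XX_zero d K io n hn, norm_zero]; exact zero_le_one
    · exact (Complex.norm_eq_one_of_pow_eq_one (XX_mu d K io hl hp n hn)
        (Nat.prime_of_mem_primeFactors hl).ne_zero).le
  · unfold XX
    rw [dif_neg hp, norm_zero]; exact zero_le_one

/-- the value is `1` iff `n` is an `l`-th power -/
lemma XX_eq_one {l p : ℕ} (hl : l ∈ d.primeFactors) (hp : p.Prime ∧ d ∣ p - 1) (n : ℤ) :
    XX d K io l p n = 1 ↔ (n : ZMod p) ^ ((p - 1) / l) = 1 := by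
  have : Fact p.Prime := ⟨hp.1⟩
  have hl1 := Nat.prime_of_mem_primeFactors hl
  have hld := Nat.dvd_of_mem_primeFactors hl
  rw [← (PDc d K p hp).χ_one l hl1 hld]
  unfold XX
  rw [dif_pos hp]
  constructor
  · intro h
    have h1 : (PDc d K p hp).χ l (n : ZMod p) = 0 ∨ (PDc d K p hp).χ l (n : ZMod p) ^ l = 1 := by
      by_cases hn : (n : ZMod p) = 0
      · left; rw [hn, MulChar.map_zero]
      · right
        rw [← MulChar.pow_apply' _ hl1.ne_zero, (PDc d K p hp).χ_pow l hl1 hld,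
          MulChar.one_apply (isUnit_iff_ne_zero.2 hn)]
    exact mu_inj (ze_l d K hld) hl1 io (by exact_mod_cast hl1.ne_zero) h1 (Or.inr (one_pow l))
      (by rw [h, map_one])
  · intro h
    rw [h, map_one]

lemma XP_cm {p ν : ℕ} (hp : p.Prime ∧ d ∣ p - 1) (hν : ν ≠ 0) :
    XP d K io j b p ν = ∏ q ∈ ν.primeFactors, XP d K io j b p q ^ ν.factorization q := by
  have h1 : ∏ l ∈ d.primeFactors, XX d K io l p ν ^ j l =
      ∏ q ∈ ν.primeFactors, (∏ l ∈ d.primeFactors, XX d K io l p q ^ j l) ^ ν.factorization q := by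
    apply cm_fac (fun n => ∏ l ∈ d.primeFactors, XX d K io l p n ^ j l) _ _ hν
    · apply prod_eq_one
      intro l _
      have := XX_one d K io (l := l) hp
      rw [Nat.cast_one, this, one_pow]
    · intro m n _ _
      rw [← prod_mul_distrib]
      apply prod_congr rfl
      intro l _
      rw [Nat.cast_mul, XX_mul d K io hp, mul_pow]
  unfold XP
  rw [h1, jac_cm _ _ hν, ← prod_mul_distrib]
  exact prod_congr rfl fun q _ => by rw [mul_pow]

/-- the constant at `q` attached to a label -/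
noncomputable def Cq (γ : ℕ → 𝓞 K) (g : ℤ) (q : ℕ) : ℂ :=
  (∏ l ∈ d.primeFactors,
    ((Lf (QQ K q) io l (Ideal.Quotient.mk (QQ K q) (γ l) ^ Eq' q l))⁻¹) ^ j l) *
    ((jacobiSym g q : ℤ) : ℂ) ^ b

/-- the constant at `ν` -/
noncomputable def Cn (γ : ℕ → 𝓞 K) (g : ℤ) (ν : ℕ) : ℂ :=
  ∏ q ∈ ν.primeFactors, Cq d K io j b γ g q ^ ν.factorization q

lemma Cq_norm (γ : ℕ → 𝓞 K) (g : ℤ) {q : ℕ} (hqp : q.Prime) (hq : q.Coprime d) :
    ‖Cq d K io j b γ g q‖ ≤ 1 := by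
  have : Fact q.Prime := ⟨hqp⟩
  have := (QQ_spec K hqp).1
  unfold Cq
  rw [norm_mul, norm_prod, norm_pow]
  have h2 : ‖((jacobiSym g q : ℤ) : ℂ)‖ ≤ 1 := by
    rcases jacobiSym.trichotomy g q with h | h | h <;> rw [h] <;> simp
  refine mul_le_one₀ ?_ (by positivity) (pow_le_one₀ (norm_nonneg _) h2)
  apply prod_le_one (fun l _ => norm_nonneg _)
  intro l hl
  have hl1 := Nat.prime_of_mem_primeFactors hl
  have hld := Nat.dvd_of_mem_primeFactors hl
  rw [norm_pow, norm_inv]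
  apply pow_le_one₀ (by positivity)
  set y := Ideal.Quotient.mk (QQ K q) (γ l) ^ Eq' q l
  by_cases hy : ∃ x : 𝓞 K, x ^ l = 1 ∧ Ideal.Quotient.mk (QQ K q) x = y
  · obtain ⟨x, hx, hxy⟩ := hy
    have h3 : y ^ l = 1 := by rw [← hxy, ← map_pow, hx, map_one]
    have h4 := Lf_mu d K hq (QQ K q) (QQ_spec K hqp).2 hl1 hld io h3
    rw [Complex.norm_eq_one_of_pow_eq_one h4 hl1.ne_zero, inv_one]
  · unfold Lf
    rw [dif_neg hy, norm_zero, inv_zero]
    exact zero_le_one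

lemma Cn_norm (γ : ℕ → 𝓞 K) (g : ℤ) {ν : ℕ} (hν : ∀ q ∈ ν.primeFactors, q.Coprime d) :
    ‖Cn d K io j b γ g ν‖ ≤ 1 := by
  unfold Cn
  rw [norm_prod]
  apply prod_le_one (fun l _ => norm_nonneg _)
  intro q hq
  rw [norm_pow]
  exact pow_le_one₀ (norm_nonneg _)
    (Cq_norm d K io j b γ g (Nat.prime_of_mem_primeFactors hq) (hν q hq))

/-- reciprocity at a prime `q` -/
lemma recip_q {q : ℕ} (hqp : q.Prime) (hq : q.Coprime d) {k : ℕ} (v : Fin k → ℕ)
    (hv : ∀ i, (v i).Prime ∧ d ∣ v i - 1) (γ : ℕ → 𝓞 K) (g : ℤ) (β : 𝓞 K)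
    (hγ : ∀ l ∈ d.primeFactors, (∏ i, (PDc d K (v i) (hv i)).Φ l) * γ l = el d K l β)
    (hγQ : ∀ l ∈ d.primeFactors, γ l ∉ QQ K q) (hN : Algebra.norm ℤ β = g * ∏ i, (v i : ℤ))
    (hgq : ¬ (q : ℤ) ∣ g) :
    ∏ i, XP d K io j b (v i) q = Cq d K io j b γ g q * psq d K io j b q β := by
  have : Fact q.Prime := ⟨hqp⟩
  have := (QQ_spec K hqp).1
  have h1 : ∀ l ∈ d.primeFactors, ∏ i, XX d K io l (v i) q =
      (Lf (QQ K q) io l (Ideal.Quotient.mk (QQ K q) (γ l) ^ Eq' q l))⁻¹ * psl d K io q l β := by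
    intro l hl
    have hl1 := Nat.prime_of_mem_primeFactors hl
    have hld := Nat.dvd_of_mem_primeFactors hl
    have h2 := recip d K hq (QQ K q) (QQ_spec K hqp).2 hl1 hld io v (fun i => PDc d K (v i) (hv i))
      (fun i => (hv i).1) (γ l) β (hγ l hl) (hγQ l hl) g hN
    unfold psl
    rw [← h2]
    apply prod_congr rfl
    intro i _
    unfold XX
    rw [dif_pos (hv i)]
    push_cast
    rfl
  have h2 : ∏ i, (((jacobiSym (v i : ℤ) q : ℤ) : ℂ) ^ b) =
      ((jacobiSym g q : ℤ) : ℂ) ^ b * ((jacobiSym (Algebra.norm ℤ β) q : ℤ) : ℂ) ^ b := by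
    have h3 : jacobiSym (∏ i, (v i : ℤ)) q = ∏ i, jacobiSym (v i : ℤ) q := by
      have h4 : ∀ s : Finset (Fin k), jacobiSym (∏ i ∈ s, (v i : ℤ)) q =
          ∏ i ∈ s, jacobiSym (v i : ℤ) q := by
        intro s
        classical
        induction s using Finset.induction_on with
        | empty => simp [jacobiSym.one_left]
        | insert a s ha ih => rw [prod_insert ha, prod_insert ha, jacobiSym.mul_left, ih]
      exact h4 univ
    have h5 : jacobiSym g q * jacobiSym g q = 1 := by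
      rw [← jacobiSym.legendreSym.to_jacobiSym, ← sq]
      exact legendreSym.sq_one q (by rwa [Ne, ZMod.intCast_zmod_eq_zero_iff_dvd])
    rw [hN, jacobiSym.mul_left, h3, prod_pow]
    push_cast
    rw [← mul_pow, ← mul_assoc]
    have h6 : ((jacobiSym g q : ℤ) : ℂ) * ((jacobiSym g q : ℤ) : ℂ) = 1 := by exact_mod_cast h5
    rw [h6, one_mul]
  unfold XP
  rw [prod_mul_distrib, h2, prod_comm, prod_congr rfl (fun l hl => by
    rw [prod_pow, h1 l hl, mul_pow]), prod_mul_distrib]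
  unfold Cq psq
  ring

/-- reciprocity for `ν` -/
theorem recip_n {ν : ℕ} (hν0 : ν ≠ 0) (hν : ∀ q ∈ ν.primeFactors, q.Coprime d) {k : ℕ}
    (v : Fin k → ℕ) (hv : ∀ i, (v i).Prime ∧ d ∣ v i - 1) (γ : ℕ → 𝓞 K) (g : ℤ) (β : 𝓞 K)
    (hγ : ∀ l ∈ d.primeFactors, (∏ i, (PDc d K (v i) (hv i)).Φ l) * γ l = el d K l β)
    (hγQ : ∀ q ∈ ν.primeFactors, ∀ l ∈ d.primeFactors, γ l ∉ QQ K q)
    (hN : Algebra.norm ℤ β = g * ∏ i, (v i : ℤ))
    (hgq : ∀ q ∈ ν.primeFactors, ¬ (q : ℤ) ∣ g) :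
    ∏ i, XP d K io j b (v i) ν = Cn d K io j b γ g ν * psn d K io j b ν β := by
  rw [prod_congr rfl (fun i _ => XP_cm d K io j b (hv i) hν0), prod_comm]
  unfold Cn psn
  rw [← prod_mul_distrib]
  apply prod_congr rfl
  intro q hq
  rw [prod_pow, recip_q d K io j b (Nat.prime_of_mem_primeFactors hq) (hν q hq) v hv γ g β hγ
    (hγQ q hq) hN (hgq q hq), mul_pow]

end

end Pool.Agent.KS6_18
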