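import Mathlib
import Pool.Agent.KS6_18.RecN
import Pool.Agent.KS6_18.BoxSum
import Pool.Agent.KS6_18.LSv

set_option autoImplicit false

/-! Few integers `ν` have a large character sum: the finite form. -/

namespace Pool.Agent.KS6_18

open Finset MulChar NumberField IsCyclotomicExtension Module

section
variable (d : ℕ) [NeZero d] (K : Type*) [Field K] [NumberField K] [IsCyclotomicExtension {d} ℚ K]

include d in
lemma q_le_norm {q : ℕ} (hqp : q.Prime) {γ : 𝓞 K} (hγ0 : γ ≠ 0) (hγ : γ ∈ QQ K q) :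
    q ≤ (Algebra.norm ℤ γ).natAbs := by
  classical
  have hG : IsGalois ℚ K := IsCyclotomicExtension.isGalois {d} ℚ K
  have : Fact q.Prime := ⟨hqp⟩
  have := (QQ_spec K hqp).1
  have hch := charP_Q K (QQ K q) (QQ_spec K hqp).2
  have h1 : Ideal.Quotient.mk (QQ K q) ((Algebra.norm ℤ γ : ℤ) : 𝓞 K) = 0 := by
    rw [norm_prod_aut, ← mul_prod_erase univ _ (mem_univ (1 : Gal(K/ℚ))), map_mul, sg_apply,
      one_smul, Ideal.Quotient.eq_zero_iff_mem.2 hγ, zero_mul]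
  rw [map_intCast, CharP.intCast_eq_zero_iff (𝓞 K ⧸ QQ K q) q] at h1
  have h2 := Int.natAbs_dvd_natAbs.2 h1
  rw [Int.natAbs_natCast] at h2
  refine Nat.le_of_dvd ?_ h2
  rw [Int.natAbs_pos]
  rwa [Ne, Algebra.norm_eq_zero_iff]

variable (io : 𝓞 K →+* ℂ) (j : ℕ → ℕ) (b : ℕ)

/-- multiplicity bound -/
lemma mult_bound (x k G : ℕ) (hx : 2 ≤ x) (hGx : G ^ 2 ≤ x) (T : Finset ℕ)
    (hT : ∀ p ∈ T, p.Prime ∧ p ≤ x ∧ x < p ^ 2) (z : ℤ) (hz : z ≠ 0) (hzG : z.natAbs ≤ G * x ^ k) :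
    (T.filter (fun p : ℕ => (p : ℤ) ∣ z)).card ≤ 2 * k + 1 := by
  set P := T.filter (fun p : ℕ => (p : ℤ) ∣ z) with hP
  have h1 : ∏ p ∈ P, p ∣ z.natAbs := by
    apply Finset.prod_primes_dvd
    · intro p hp
      exact (hT p (mem_filter.1 hp).1).1.prime
    · intro p hp
      have := (mem_filter.1 hp).2
      rwa [← Int.natCast_dvd]
  have h2 : ∏ p ∈ P, p ≤ G * x ^ k :=
    (Nat.le_of_dvd (Int.natAbs_pos.2 hz) h1).trans hzG
  have h3 : x ^ P.card ≤ (∏ p ∈ P, p) ^ 2 := by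
    rw [← prod_pow, ← prod_const]
    exact prod_le_prod' fun p hp => (hT p (mem_filter.1 hp).1).2.2.le
  have h4 : x ^ P.card ≤ x ^ (2 * k + 1) := by
    calc x ^ P.card ≤ (G * x ^ k) ^ 2 := h3.trans (Nat.pow_le_pow_left h2 2)
      _ = G ^ 2 * x ^ (2 * k) := by rw [mul_pow, ← pow_mul, mul_comm k 2]
      _ ≤ x * x ^ (2 * k) := Nat.mul_le_mul_right _ hGx
      _ = x ^ (2 * k + 1) := by rw [pow_succ, mul_comm]
  exact (Nat.pow_le_pow_iff_right (by omega : 1 < x)).1 h4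

theorem fb_fin (hdodd : Odd d) (hb : b ≤ 1) (hj : ∀ l ∈ d.primeFactors, ¬ l ∣ j l)
    (hdsq : Squarefree d) :
    ∃ Z L : ℕ, 2 ≤ Z ∧ d ≤ Z ∧ ∀ (x k N h : ℕ) (T : Finset ℕ), Z ^ 2 ≤ x → 
      (∀ p ∈ T, (p.Prime ∧ d ∣ p - 1) ∧ p ≤ x ∧ x < p ^ 2) →
      ∀ a : ℕ → ℂ, (∀ p ∈ T, ‖a p‖ ≤ 1) → x ^ k < (h + 1) ^ Module.finrank ℚ K →
      ∀ S : Finset ℕ, (∀ ν ∈ S, ν ≠ 0 ∧ ν ≤ N ∧ ∀ q ∈ ν.primeFactors, Z < q) →
      (∀ ν ∈ S, ∀ ν' ∈ S, ν ≠ ν' → ∃ q l : ℕ, q.Prime ∧ l.Prime ∧ l ∣ d * 2 ^ b ∧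
        ¬ ν.factorization q ≡ ν'.factorization q [MOD l]) →
      ∀ Δ : ℝ, 0 ≤ Δ → (∀ ν ∈ S, Δ ≤ ‖∑ p ∈ T, a p * XP d K io j b p ν‖) →
      (S.card * Δ ^ k) ^ 2 ≤ (L : ℝ) ^ 2 * ((((2 * k + 1) ^ k : ℕ) * ((T.card ^ k : ℕ) : ℝ)) *
        (S.card * ((2 * h + 1) ^ Module.finrank ℚ K : ℕ) + (S.card : ℝ) ^ 2 *
          (2 * (Module.finrank ℚ K * (N ^ 2 * (2 * h + 1) ^ (Module.finrank ℚ K - 1)) : ℕ)))) := by
  classical
  obtain ⟨Γ, G, hlab⟩ := labels d K
  set n := Module.finrank ℚ K with hn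
  have hn0 : n ≠ 0 := Module.finrank_pos.ne'
  set Z : ℕ := 2 + d + G + ∑ γ ∈ Γ, (Algebra.norm ℤ γ).natAbs with hZ
  -- the label set
  set L : Finset (({l // l ∈ d.primeFactors} → 𝓞 K) × ℤ) :=
    (Fintype.piFinset (fun _ => Γ)) ×ˢ Icc (-(G : ℤ)) G with hL
  refine ⟨Z, L.card, by omega, by omega, ?_⟩
  intro x k N h T hZx hT a ha hxk S hS hS2 Δ hΔ0 hΔ
  have hZq : ∀ ν ∈ S, ∀ q ∈ ν.primeFactors, q.Prime ∧ q.Coprime d ∧ q % 2 = 1 ∧ G < q ∧
      ∀ γ ∈ Γ, γ ≠ 0 → γ ∉ QQ K q := by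
    intro ν hν q hq
    have hqp := Nat.prime_of_mem_primeFactors hq
    have h1 := (hS ν hν).2.2 q hq
    refine ⟨hqp, ?_, ?_, by omega, ?_⟩
    · rw [Nat.Prime.coprime_iff_not_dvd hqp]
      intro h2
      have := Nat.le_of_dvd (NeZero.pos d) h2
      omega
    · rcases hqp.eq_two_or_odd with h2 | h2
      · omega
      · exact h2
    · intro γ hγ hγ0 hmem
      have h2 := q_le_norm d K hqp hγ0 hmem
      have h3 := single_le_sum (f := fun γ : 𝓞 K => (Algebra.norm ℤ γ).natAbs)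
        (fun _ _ => Nat.zero_le _) hγ
      omega
  -- the coordinates and the labels
  set W : Finset (Fin k → ℕ) := Fintype.piFinset (fun _ => T) with hW
  have hWT : ∀ v ∈ W, ∀ i, v i ∈ T := fun v hv i => Fintype.mem_piFinset.1 hv i
  have hex : ∀ v : Fin k → ℕ, ∃ (c : IX K → ℤ) (γ : ℕ → 𝓞 K) (g : ℤ),
      ∀ hv : (∀ i, (v i).Prime ∧ d ∣ v i - 1), c ≠ 0 ∧
        (∀ i, (c i).natAbs ^ n ≤ ∏ i, v i) ∧
        (∀ l ∈ d.primeFactors, γ l ∈ Γ ∧ γ l ≠ 0 ∧
          (∏ i, (PDc d K (v i) (hv i)).Φ l) * γ l = el d K l (vec K c)) ∧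
        (∀ l, l ∉ d.primeFactors → γ l = 0) ∧
        g ≠ 0 ∧ g.natAbs ≤ G ∧ Algebra.norm ℤ (vec K c) = g * ∏ i, (v i : ℤ) := by
    intro v
    by_cases hv : ∀ i, (v i).Prime ∧ d ∣ v i - 1
    · obtain ⟨c, hc0, hcb, hcl, g, hg0, hgG, hgn⟩ := hlab (Fin k) v
        (fun i => PDc d K (v i) (hv i)) (fun i => (hv i).1.pos)
      have hγ : ∀ l : ℕ, ∃ γ : 𝓞 K, (l ∈ d.primeFactors → γ ∈ Γ ∧ γ ≠ 0 ∧
          (∏ i, (PDc d K (v i) (hv i)).Φ l) * γ = el d K l (vec K c)) ∧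
          (l ∉ d.primeFactors → γ = 0) := by
        intro l
        by_cases hl : l ∈ d.primeFactors
        · obtain ⟨γ, h1, h2, h3⟩ := hcl l (Nat.prime_of_mem_primeFactors hl)
            (Nat.dvd_of_mem_primeFactors hl)
          exact ⟨γ, fun _ => ⟨h1, h2, h3⟩, fun h => absurd hl h⟩
        · exact ⟨0, fun h => absurd h hl, fun _ => rfl⟩
      choose γ hγ1 hγ2 using hγ
      exact ⟨c, γ, g, fun _ => ⟨hc0, hcb, hγ1, hγ2, hg0, hgG, hgn⟩⟩
    · exact ⟨0, fun _ => 0, 0, fun h => absurd h hv⟩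
  choose cv γv gv hcv using hex
  have hWv : ∀ v ∈ W, ∀ i, (v i).Prime ∧ d ∣ v i - 1 := fun v hv i => (hT _ (hWT v hv i)).1
  have hprodv : ∀ v ∈ W, ∏ i, v i ≤ x ^ k := by
    intro v hv
    calc ∏ i, v i ≤ ∏ _i : Fin k, x := prod_le_prod' fun i _ => (hT _ (hWT v hv i)).2.1
      _ = x ^ k := by rw [prod_const, card_univ, Fintype.card_fin]
  -- the label and the constants
  set lam : (Fin k → ℕ) → (({l // l ∈ d.primeFactors} → 𝓞 K) × ℤ) :=
    fun v => (fun l => γv v l.1, gv v) with hlam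
  set ext : ({l // l ∈ d.primeFactors} → 𝓞 K) → ℕ → 𝓞 K :=
    fun γ l => if h : l ∈ d.primeFactors then γ ⟨l, h⟩ else 0 with hext
  have hextv : ∀ v ∈ W, ext (lam v).1 = γv v := by
    intro v hv
    ext l
    simp only [hext, hlam]
    split_ifs with h1
    · rfl
    · rw [(hcv v (hWv v hv)).2.2.2.1 l h1]
  have hmain := ls_main S W (bx K h) L (fun v => ∏ i, a (v i)) ?_ cv ?_ lam ?_
    (fun v ν => ∏ i, XP d K io j b (v i) ν) (fun lm ν => Cn d K io j b (ext lm.1) lm.2 ν) ?_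
    (fun ν c => psn d K io j b ν (vec K c)) ?_ ((2 * k + 1) ^ k) ?_
    (2 * ((n * (N ^ 2 * (2 * h + 1) ^ (n - 1)) : ℕ) : ℝ)) (by positivity) ?_ ?_ (Δ ^ k)
    (by positivity) ?_
  · rw [card_bx, ← hn, hW, Fintype.card_piFinset, prod_const, card_univ, Fintype.card_fin] at hmain
    exact_mod_cast hmain
  · -- the weights
    intro v hv
    rw [norm_prod]
    exact prod_le_one (fun _ _ => norm_nonneg _) fun i _ => ha _ (hWT v hv i)
  · -- the coordinates are in the box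
    intro v hv
    rw [mem_bx]
    intro i
    have h1 := (hcv v (hWv v hv)).2.1 i
    have h2 := lt_of_le_of_lt (h1.trans (hprodv v hv)) hxk
    exact Nat.lt_succ_iff.1 (lt_of_pow_lt_pow_left₀ n (Nat.zero_le _) h2)
  · -- the labels
    intro v hv
    obtain ⟨_, _, h3, _, h5, h6, _⟩ := hcv v (hWv v hv)
    rw [hL, mem_product, Fintype.mem_piFinset, mem_Icc]
    refine ⟨fun l => (h3 l.1 l.2).1, ?_⟩
    simp only [hlam]
    omega
  · -- the constants are bounded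
    intro ν hν lm _
    exact Cn_norm d K io j b _ _ (fun q hq => (hZq ν hν q hq).2.1)
  · -- reciprocity
    intro v hv ν hν
    obtain ⟨_, _, h3, _, h5, h6, h7⟩ := hcv v (hWv v hv)
    have h8 := recip_n d K io j b (hS ν hν).1 (fun q hq => (hZq ν hν q hq).2.1) v (hWv v hv)
      (γv v) (gv v) (vec K (cv v)) (fun l hl => (h3 l hl).2.2)
      (fun q hq l hl => (hZq ν hν q hq).2.2.2.2 _ (h3 l hl).1 (h3 l hl).2.1) h7
      (fun q hq hdvd => by
        have h9 := Int.natAbs_dvd_natAbs.2 hdvd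
        rw [Int.natAbs_natCast] at h9
        have h10 := Nat.le_of_dvd (Int.natAbs_pos.2 h5) h9
        have h11 := (hZq ν hν q hq).2.2.2.1
        omega)
    rw [h8, hextv v hv]
  · -- the multiplicity
    intro t _
    by_cases hne : (W.filter (fun v => cv v = t)).Nonempty
    · obtain ⟨v₀, hv₀⟩ := hne
      rw [mem_filter] at hv₀
      obtain ⟨h1, _, _, _, h5, h6, h7⟩ := hcv v₀ (hWv v₀ hv₀.1)
      rw [hv₀.2] at h7 h1
      have hz : Algebra.norm ℤ (vec K t) ≠ 0 := by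
        rw [Ne, Algebra.norm_eq_zero_iff]
        intro h0
        apply h1
        apply vec_inj K
        rw [h0]
        unfold vec
        rw [map_zero]
      have hzG : (Algebra.norm ℤ (vec K t)).natAbs ≤ G * x ^ k := by
        rw [h7, Int.natAbs_mul]
        apply Nat.mul_le_mul h6
        have h8 : (∏ i, (v₀ i : ℤ)).natAbs = ∏ i, v₀ i := by
          rw [← Nat.cast_prod, Int.natAbs_natCast]
        rw [h8]
        exact hprodv v₀ hv₀.1
      have hG2 : G ^ 2 ≤ x := (Nat.pow_le_pow_left (by omega : G ≤ Z) 2).trans hZx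
      have hx2 : 2 ≤ x := by
        have : 2 ^ 2 ≤ Z ^ 2 := Nat.pow_le_pow_left (by omega) 2
        omega
      have hP := mult_bound x k G hx2 hG2 T (fun p hp => ⟨(hT p hp).1.1, (hT p hp).2⟩) _ hz hzG
      have hsub : W.filter (fun v => cv v = t) ⊆ Fintype.piFinset
          (fun _ : Fin k => T.filter (fun p : ℕ => (p : ℤ) ∣ Algebra.norm ℤ (vec K t))) := by
        intro v hv
        rw [mem_filter] at hv
        rw [Fintype.mem_piFinset]
        intro i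
        rw [mem_filter]
        refine ⟨hWT v hv.1 i, ?_⟩
        have h8 := (hcv v (hWv v hv.1)).2.2.2.2.2.2
        rw [hv.2] at h8
        rw [h8]
        exact (dvd_prod_of_mem (fun i => (v i : ℤ)) (mem_univ i)).mul_left _
      refine (card_le_card hsub).trans ?_
      rw [Fintype.card_piFinset, prod_const, card_univ, Fintype.card_fin]
      exact Nat.pow_le_pow_left hP k
    · rw [not_nonempty_iff_eq_empty] at hne
      rw [hne, card_empty]
      exact Nat.zero_le _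
  · intro ν hν c _
    exact psn_norm d K io j b (fun q hq => (hZq ν hν q hq).2.1) _
  · -- off-diagonal terms
    intro ν hν ν' hν' hne
    obtain ⟨q₀, l, hq₀, hl, hlm, hmod⟩ := hS2 ν hν ν' hν' hne
    obtain ⟨w, w', hww, hw1⟩ := pair_w d K io j b hdodd hb hj hdsq
      (fun q hq => (hZq ν hν q hq).2.1) (fun q hq => (hZq ν' hν' q hq).2.1)
      (fun q hq => (hZq ν hν q hq).2.2.1) (fun q hq => (hZq ν' hν' q hq).2.2.1) q₀ l hq₀ hl hlm hmod
    set Q : ℕ := ∏ q ∈ ν.primeFactors ∪ ν'.primeFactors, q with hQ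
    have hQpos : 0 < Q := by
      apply prod_pos
      intro q hq
      rcases mem_union.1 hq with h1 | h1 <;> exact (Nat.prime_of_mem_primeFactors h1).pos
    have hQN : Q ≤ N ^ 2 := by
      have h1 : ∀ μ : ℕ, μ ≠ 0 → μ ≤ N → ∏ q ∈ μ.primeFactors, q ≤ N := by
        intro μ hμ hμN
        exact (Nat.le_of_dvd (Nat.pos_of_ne_zero hμ) (Nat.prod_primeFactors_dvd μ)).trans hμN
      have h2 : Q ≤ (∏ q ∈ ν.primeFactors, q) * ∏ q ∈ ν'.primeFactors, q := by
        rw [hQ]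
        have h3 : ν.primeFactors ∪ ν'.primeFactors =
            ν.primeFactors ∪ (ν'.primeFactors \ ν.primeFactors) := by
          rw [union_sdiff_self_eq_union]
        rw [h3, prod_union disjoint_sdiff]
        apply Nat.mul_le_mul_left
        exact prod_le_prod_of_subset_of_one_le' sdiff_subset
          (fun q hq _ => (Nat.prime_of_mem_primeFactors hq).pos)
      calc Q ≤ _ := h2
        _ ≤ N * N := Nat.mul_le_mul (h1 ν (hS ν hν).1 (hS ν hν).2.1)
            (h1 ν' (hS ν' hν').1 (hS ν' hν').2.1)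
        _ = N ^ 2 := (sq N).symm
    have hbs := box_sum (K := K) (fun y => psn d K io j b ν y * (starRingEnd ℂ) (psn d K io j b ν' y)) Q
      (fun y z => by
        rw [psn_add d K io j b Q (fun q hq => dvd_prod_of_mem (fun q => q) (mem_union_left _ hq)) y z,
          psn_add d K io j b Q (fun q hq => dvd_prod_of_mem (fun q => q) (mem_union_right _ hq)) y z])
      hQpos (fun y z => by
        rw [psn_mul d K io j b (fun q hq => (hZq ν hν q hq).2.1) y z,
          psn_mul d K io j b (fun q hq => (hZq ν' hν' q hq).2.1) y z, map_mul]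
        ring)
      (fun y => by
        rw [norm_mul, RCLike.norm_conj]
        exact mul_le_one₀ (psn_norm d K io j b (fun q hq => (hZq ν hν q hq).2.1) y)
          (norm_nonneg _) (psn_norm d K io j b (fun q hq => (hZq ν' hν' q hq).2.1) y))
      w w' hww hw1 h
    refine hbs.trans ?_
    rw [← hn]
    apply mul_le_mul_of_nonneg_left _ (by norm_num)
    exact_mod_cast Nat.mul_le_mul_left _ (Nat.mul_le_mul_right _ hQN)
  · -- the lower bound
    intro ν hν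
    have h1 : ∑ v ∈ W, (∏ i, a (v i)) * ∏ i, XP d K io j b (v i) ν =
        (∑ p ∈ T, a p * XP d K io j b p ν) ^ k := by
      have h2 : (∑ p ∈ T, a p * XP d K io j b p ν) ^ k =
          ∏ _i : Fin k, ∑ p ∈ T, a p * XP d K io j b p ν := by
        rw [prod_const, card_univ, Fintype.card_fin]
      rw [h2, prod_univ_sum, hW]
      apply sum_congr rfl
      intro v _
      rw [prod_mul_distrib]
    rw [h1, norm_pow]
    exact pow_le_pow_left₀ hΔ0 (hΔ ν hν) k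

end

end Pool.Agent.KS6_18
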