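import Mathlib
import Pool.Agent.KS6_18.FB
import Pool.Agent.KS6_18.Win
import Pool.Agent.KS6_18.BT

set_option autoImplicit false

/-! Few integers `ν` have a large character sum. -/

namespace Pool.Agent.KS6_18

open Finset MulChar NumberField IsCyclotomicExtension Module Filter

/-- the real inequality behind the final bound -/
lemma fba_real (s R y Y eps : ℝ) (hs : 0 ≤ s) (hY : 0 ≤ Y) (hR : 0 ≤ R) (hy : 0 ≤ y)
    (h1 : s ^ 2 ≤ R * Y * (s + s ^ 2 * eps)) (h2 : R * Y * eps ≤ 1 / 2) : s ≤ 2 * (R * Y) := by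
  rcases eq_or_lt_of_le hs with h0 | h0
  · rw [← h0]; positivity
  · have h3 : s ^ 2 ≤ R * Y * s + 1 / 2 * s ^ 2 := by
      calc s ^ 2 ≤ R * Y * (s + s ^ 2 * eps) := h1
        _ = R * Y * s + (R * Y * eps) * s ^ 2 := by ring
        _ ≤ _ := by nlinarith [sq_nonneg s]
    have h4 : s * s ≤ (2 * (R * Y)) * s := by nlinarith
    exact le_of_mul_le_mul_right h4 h0

section
variable (d : ℕ) [NeZero d] (K : Type*) [Field K] [NumberField K] [IsCyclotomicExtension {d} ℚ K]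
  (io : 𝓞 K →+* ℂ)

lemma XP_norm (j : ℕ → ℕ) (b p ν : ℕ) : ‖XP d K io j b p ν‖ ≤ 1 := by
  unfold XP
  rw [norm_mul, norm_prod, norm_pow]
  have h2 : ‖((jacobiSym (p : ℤ) ν : ℤ) : ℂ)‖ ≤ 1 := by
    rcases jacobiSym.trichotomy (p : ℤ) ν with h | h | h <;> rw [h] <;> simp
  refine mul_le_one₀ ?_ (by positivity) (pow_le_one₀ (norm_nonneg _) h2)
  apply prod_le_one (fun l _ => norm_nonneg _)
  intro l hl
  rw [norm_pow]
  exact pow_le_one₀ (norm_nonneg _) (XX_norm d K io hl _)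

theorem fba (j : ℕ → ℕ) (b : ℕ) (hdodd : Odd d) (hb : b ≤ 1) (hj : ∀ l ∈ d.primeFactors, ¬ l ∣ j l)
    (hdsq : Squarefree d) (C1 C2 η : ℝ) (hC1 : 0 < C1) (hC2 : 0 < C2) (hη : 0 < η) :
    ∃ Z A : ℕ, 2 ≤ Z ∧ d ≤ Z ∧ ∀ᶠ N : ℕ in atTop, ∀ x : ℕ, (N : ℝ) ^ C1 ≤ x → (x : ℝ) ≤ (N : ℝ) ^ C2 →
      ∀ T : Finset ℕ, (∀ p ∈ T, (p.Prime ∧ d ∣ p - 1) ∧ p ≤ x) →
      ∀ a : ℕ → ℂ, (∀ p ∈ T, ‖a p‖ ≤ 1) →
      ∀ S : Finset ℕ, (∀ ν ∈ S, ν ≠ 0 ∧ ν ≤ N ∧ ∀ q ∈ ν.primeFactors, Z < q) →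
      (∀ ν ∈ S, ∀ ν' ∈ S, ν ≠ ν' → ∃ q l : ℕ, q.Prime ∧ l.Prime ∧ l ∣ d * 2 ^ b ∧
        ¬ ν.factorization q ≡ ν'.factorization q [MOD l]) →
      (∀ ν ∈ S, η * (x / Real.log x) ≤ ‖∑ p ∈ T, a p * XP d K io j b p ν‖) →
      (S.card : ℝ) ≤ (Real.log N) ^ A := by
  classical
  obtain ⟨Z, L, hZ2, hdZ, hfin⟩ := fb_fin d K io j b hdodd hb hj hdsq
  obtain ⟨Cπ, hCπ, hbt⟩ := bt_one
  set n := Module.finrank ℚ K with hn
  have hn0 : n ≠ 0 := Module.finrank_pos.ne'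
  obtain ⟨k, hk⟩ : ∃ k : ℕ, 3 * (n : ℝ) / C1 ≤ k := exists_nat_ge _
  have hk' : 3 * (n : ℝ) ≤ C1 * k := by
    rw [div_le_iff₀ hC1] at hk
    linarith
  have hk0 : k ≠ 0 := by
    rintro rfl
    have : (0 : ℝ) < n := by exact_mod_cast Nat.pos_of_ne_zero hn0
    simp at hk'
    linarith
  set c : ℝ := η / 2 with hc
  have hc0 : 0 < c := by positivity
  set M : ℝ := (((2 * k + 1) ^ k : ℕ) : ℝ) with hM
  have hM0 : 0 ≤ M := Nat.cast_nonneg _
  set R : ℝ := (L : ℝ) ^ 2 * M * 3 ^ n * Cπ ^ k / c ^ (2 * k) with hR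
  have hR0 : 0 ≤ R := by positivity
  refine ⟨Z, k + 1, hZ2, hdZ, ?_⟩
  -- eventual facts
  have e1 : ∀ᶠ N : ℕ in atTop, max ((Z : ℝ) ^ 2) 4 ≤ (N : ℝ) ^ C1 :=
    ((tendsto_rpow_atTop hC1).comp tendsto_natCast_atTop_atTop).eventually_ge_atTop _
  have e2 : ∀ᶠ N : ℕ in atTop, (C2 * Real.log N) ≤ c * (N : ℝ) ^ (C1 / 2) := by
    have h1 := (isLittleO_log_rpow_atTop (show (0 : ℝ) < C1 / 2 by positivity)).bound
      (show (0 : ℝ) < c / C2 by positivity)
    have h2 := tendsto_natCast_atTop_atTop.eventually h1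
    filter_upwards [h2, eventually_ge_atTop 1] with N hN hN1
    have hN0 : (0 : ℝ) < N := by exact_mod_cast hN1
    rw [Real.norm_of_nonneg (Real.log_nonneg (by exact_mod_cast hN1)),
      Real.norm_of_nonneg (by positivity)] at hN
    calc C2 * Real.log N ≤ C2 * (c / C2 * (N : ℝ) ^ (C1 / 2)) := mul_le_mul_of_nonneg_left hN hC2.le
      _ = c * (N : ℝ) ^ (C1 / 2) := by field_simp
  have e3 : ∀ᶠ N : ℕ in atTop, R * (C2 * Real.log N) ^ k * (2 * n / N) ≤ 1 / 2 := by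
    have h1 := (isLittleO_log_rpow_rpow_atTop (k : ℝ) (show (0 : ℝ) < 1 by norm_num)).bound
      (show (0 : ℝ) < 1 / (4 * (R * C2 ^ k * n + 1)) by positivity)
    have h2 := tendsto_natCast_atTop_atTop.eventually h1
    filter_upwards [h2, eventually_ge_atTop 1] with N hN hN1
    have hN0 : (0 : ℝ) < N := by exact_mod_cast hN1
    have hlog : 0 ≤ Real.log N := Real.log_nonneg (by exact_mod_cast hN1)
    rw [Real.rpow_natCast, Real.rpow_one, Real.norm_of_nonneg (by positivity),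
      Real.norm_of_nonneg hN0.le] at hN
    have h3 : R * (C2 * Real.log N) ^ k * (2 * n / N) =
        2 * (R * C2 ^ k * n) * ((Real.log N) ^ k / N) := by
      rw [mul_pow]; ring
    rw [h3]
    have h4 : (Real.log N) ^ k / N ≤ 1 / (4 * (R * C2 ^ k * n + 1)) := by
      rw [div_le_iff₀ hN0]; exact hN
    have h5 : 0 ≤ R * C2 ^ k * n := by positivity
    calc 2 * (R * C2 ^ k * n) * ((Real.log N) ^ k / N) ≤
        2 * (R * C2 ^ k * n + 1) * (1 / (4 * (R * C2 ^ k * n + 1))) := by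
          apply mul_le_mul (by linarith) h4 (by positivity) (by positivity)
      _ = 1 / 2 := by field_simp; norm_num
  have e4 : ∀ᶠ N : ℕ in atTop, max 1 (2 * R * C2 ^ k) ≤ Real.log N :=
    log_tend.eventually_ge_atTop _
  filter_upwards [e1, e2, e3, e4, eventually_ge_atTop 2] with N h1 h2 h3 h4 hN2
  intro x hx1 hx2 T hT a ha S hS hS2 hΔ
  have hN0 : (0 : ℝ) < N := by exact_mod_cast (by omega : 0 < N)
  have hx4 : (4 : ℝ) ≤ x := (le_max_right _ _).trans (h1.trans hx1)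
  have hx4' : 4 ≤ x := by exact_mod_cast hx4
  have hxZ : Z ^ 2 ≤ x := by
    have : ((Z ^ 2 : ℕ) : ℝ) ≤ x := by
      push_cast
      exact (le_max_left _ _).trans (h1.trans hx1)
    exact_mod_cast this
  have hx0 : (0 : ℝ) < x := by linarith
  have hy : 0 < Real.log x := Real.log_pos (by linarith)
  have hyN : Real.log x ≤ C2 * Real.log N := by
    rw [← Real.log_rpow hN0]
    exact Real.log_le_log hx0 hx2
  have hlN : 1 ≤ Real.log N := (le_max_left _ _).trans h4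
  -- the primes `> √x`
  set T' := T.filter (fun p => x < p ^ 2) with hT'
  have hsq : (N : ℝ) ^ (C1 / 2) ≤ Real.sqrt x := by
    apply Real.le_sqrt_of_sq_le
    rw [← Real.rpow_natCast, ← Real.rpow_mul hN0.le]
    convert hx1 using 2
    push_cast; ring
  have hsmall : Real.sqrt x ≤ c * (x / Real.log x) := by
    have h5 : Real.log x ≤ c * Real.sqrt x := hyN.trans (h2.trans (mul_le_mul_of_nonneg_left hsq hc0.le))
    rw [← mul_div_assoc, le_div_iff₀ hy]
    calc Real.sqrt x * Real.log x ≤ Real.sqrt x * (c * Real.sqrt x) :=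
          mul_le_mul_of_nonneg_left h5 (Real.sqrt_nonneg _)
      _ = c * (Real.sqrt x * Real.sqrt x) := by ring
      _ = c * x := by rw [Real.mul_self_sqrt hx0.le]
  have hΔ' : ∀ ν ∈ S, c * (x / Real.log x) ≤ ‖∑ p ∈ T', a p * XP d K io j b p ν‖ := by
    intro ν hν
    have h5 := hΔ ν hν
    have h6 : ∑ p ∈ T, a p * XP d K io j b p ν = ∑ p ∈ T', a p * XP d K io j b p ν +
        ∑ p ∈ T.filter (fun p => ¬ x < p ^ 2), a p * XP d K io j b p ν :=
      (sum_filter_add_sum_filter_not T _ _).symm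
    have h7 : ‖∑ p ∈ T.filter (fun p => ¬ x < p ^ 2), a p * XP d K io j b p ν‖ ≤ Real.sqrt x := by
      have h8 : (T.filter (fun p => ¬ x < p ^ 2)).card ≤ Nat.sqrt x := by
        have : T.filter (fun p => ¬ x < p ^ 2) ⊆ Icc 1 (Nat.sqrt x) := by
          intro p hp
          rw [mem_filter, not_lt] at hp
          rw [mem_Icc]
          exact ⟨(hT p hp.1).1.1.one_le, Nat.le_sqrt'.2 hp.2⟩
        simpa using card_le_card this
      refine (norm_sum_le _ _).trans ?_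
      calc _ ≤ ∑ p ∈ T.filter (fun p => ¬ x < p ^ 2), (1 : ℝ) := by
            apply sum_le_sum
            intro p hp
            rw [norm_mul]
            exact mul_le_one₀ (ha p (mem_filter.1 hp).1) (norm_nonneg _) (XP_norm d K io j b p ν)
        _ = ((T.filter (fun p => ¬ x < p ^ 2)).card : ℝ) := by rw [sum_const, nsmul_eq_mul, mul_one]
        _ ≤ (Nat.sqrt x : ℝ) := by exact_mod_cast h8
        _ ≤ Real.sqrt x := Real.nat_sqrt_le_real_sqrt
    have h8 : ‖∑ p ∈ T, a p * XP d K io j b p ν‖ ≤ ‖∑ p ∈ T', a p * XP d K io j b p ν‖ +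
        ‖∑ p ∈ T.filter (fun p => ¬ x < p ^ 2), a p * XP d K io j b p ν‖ := by
      rw [h6]; exact norm_add_le _ _
    have h9 : η * (x / Real.log x) = 2 * (c * (x / Real.log x)) := by rw [hc]; ring
    linarith
  -- the root
  obtain ⟨h, hh1, hh2⟩ := exists_root n (x ^ k) hn0
  have hNh : N ^ 3 < h + 1 := by
    have h5 : N ^ (3 * n) ≤ x ^ k := by
      have h6 : ((N : ℝ)) ^ (3 * n) ≤ (x : ℝ) ^ k := by
        calc ((N : ℝ)) ^ (3 * n) = (N : ℝ) ^ (((3 * n : ℕ)) : ℝ) := (Real.rpow_natCast _ _).symm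
          _ ≤ (N : ℝ) ^ (C1 * k) := by
              apply Real.rpow_le_rpow_of_exponent_le (by exact_mod_cast (by omega : 1 ≤ N))
              push_cast
              exact hk'
          _ = ((N : ℝ) ^ C1) ^ k := by rw [Real.rpow_mul hN0.le, Real.rpow_natCast]
          _ ≤ (x : ℝ) ^ k := pow_le_pow_left₀ (by positivity) hx1 k
      exact_mod_cast h6
    have h6 : (N ^ 3) ^ n < (h + 1) ^ n := by
      rw [← pow_mul]
      exact lt_of_le_of_lt h5 hh2
    exact lt_of_pow_lt_pow_left₀ n (Nat.zero_le _) h6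
  have hfin' := hfin x k N h T' hxZ (fun p hp => ⟨(hT p (mem_filter.1 hp).1).1,
    (hT p (mem_filter.1 hp).1).2, (mem_filter.1 hp).2⟩) a (fun p hp => ha p (mem_filter.1 hp).1)
    hh2 S hS hS2 (c * (x / Real.log x)) (by positivity) hΔ'
  -- bounds for the quantities
  have hh1' : 1 ≤ h := by
    have : 1 ≤ N ^ 3 := Nat.one_le_pow _ _ (by omega)
    omega
  have ht : (((T'.card ^ k : ℕ)) : ℝ) ≤ Cπ ^ k * (x / Real.log x) ^ k := by
    push_cast
    rw [← mul_pow]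
    apply pow_le_pow_left₀ (Nat.cast_nonneg _)
    have h5 := hbt x 1 le_rfl (by rw [one_pow]; omega) (by omega)
    rw [Nat.totient_one, Nat.cast_one, one_mul] at h5
    refine le_trans ?_ h5
    have h6 : T' ⊆ (Icc 1 x).filter (fun p : ℕ => p.Prime ∧ 1 ∣ p - 1) := by
      intro p hp
      have h7 := hT p (mem_filter.1 hp).1
      rw [mem_filter, mem_Icc]
      exact ⟨⟨h7.1.1.one_le, h7.2⟩, h7.1.1, one_dvd _⟩
    exact_mod_cast card_le_card h6
  have hbox : (((2 * h + 1) ^ n : ℕ) : ℝ) ≤ 3 ^ n * (x : ℝ) ^ k := by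
    have h5 : (2 * h + 1) ^ n ≤ 3 ^ n * x ^ k := by
      calc (2 * h + 1) ^ n ≤ (3 * h) ^ n := Nat.pow_le_pow_left (by omega) n
        _ = 3 ^ n * h ^ n := mul_pow _ _ _
        _ ≤ 3 ^ n * x ^ k := Nat.mul_le_mul_left _ hh1
    exact_mod_cast h5
  have hX : (2 * (n * (N ^ 2 * (2 * h + 1) ^ (n - 1)) : ℕ) : ℝ) ≤ 3 ^ n * (x : ℝ) ^ k * (2 * n / N) := by
    have h5 : N * (2 * (n * (N ^ 2 * (2 * h + 1) ^ (n - 1)))) ≤ 2 * n * (2 * h + 1) ^ n := by
      have h6 : (2 * h + 1) ^ n = (2 * h + 1) ^ (n - 1) * (2 * h + 1) := by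
        rw [← pow_succ, Nat.sub_add_cancel (Nat.pos_of_ne_zero hn0)]
      calc N * (2 * (n * (N ^ 2 * (2 * h + 1) ^ (n - 1)))) =
          2 * n * ((2 * h + 1) ^ (n - 1) * N ^ 3) := by ring
        _ ≤ 2 * n * ((2 * h + 1) ^ (n - 1) * (2 * h + 1)) := by
            apply Nat.mul_le_mul_left
            apply Nat.mul_le_mul_left
            omega
        _ = _ := by rw [h6]
    have h7 : (N : ℝ) * (2 * ((n * (N ^ 2 * (2 * h + 1) ^ (n - 1)) : ℕ) : ℝ)) ≤
        2 * n * (((2 * h + 1) ^ n : ℕ) : ℝ) := by exact_mod_cast h5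
    have h8 : (N : ℝ) * (2 * ((n * (N ^ 2 * (2 * h + 1) ^ (n - 1)) : ℕ) : ℝ)) ≤
        2 * n * (3 ^ n * (x : ℝ) ^ k) := h7.trans (mul_le_mul_of_nonneg_left hbox (by positivity))
    have h9 : 3 ^ n * (x : ℝ) ^ k * (2 * n / N) = (2 * n * (3 ^ n * (x : ℝ) ^ k)) / N := by ring
    rw [h9, le_div_iff₀ hN0, mul_comm]
    exact h8
  set s : ℝ := (S.card : ℝ) with hs
  have hs0 : 0 ≤ s := Nat.cast_nonneg _
  set y := Real.log x with hyd
  have hineq : s ^ 2 ≤ R * y ^ k * (s + s ^ 2 * (2 * n / N)) := by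
    have h5 : (s * (c * (x / y)) ^ k) ^ 2 ≤ (L : ℝ) ^ 2 * ((M * (Cπ ^ k * (x / y) ^ k)) *
        (s * (3 ^ n * (x : ℝ) ^ k) + s ^ 2 * (3 ^ n * (x : ℝ) ^ k * (2 * n / N)))) := by
      refine hfin'.trans ?_
      apply mul_le_mul_of_nonneg_left _ (by positivity)
      apply mul_le_mul
      · exact mul_le_mul_of_nonneg_left ht hM0
      · apply add_le_add
        · exact mul_le_mul_of_nonneg_left hbox hs0
        · exact mul_le_mul_of_nonneg_left hX (by positivity)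
      · positivity
      · positivity
    have hxy : 0 < (x : ℝ) / y := by positivity
    have h6 : (s * (c * (x / y)) ^ k) ^ 2 = s ^ 2 * (c ^ (2 * k) * ((x / y) ^ k * (x / y) ^ k)) := by
      rw [mul_pow, mul_pow, mul_pow]; ring
    have h7 : (x : ℝ) ^ k = (x / y) ^ k * y ^ k := by
      rw [← mul_pow, div_mul_cancel₀ _ hy.ne']
    have h8 : (L : ℝ) ^ 2 * ((M * (Cπ ^ k * (x / y) ^ k)) *
        (s * (3 ^ n * (x : ℝ) ^ k) + s ^ 2 * (3 ^ n * (x : ℝ) ^ k * (2 * n / N)))) =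
        ((L : ℝ) ^ 2 * M * 3 ^ n * Cπ ^ k * y ^ k * (s + s ^ 2 * (2 * n / N))) *
          ((x / y) ^ k * (x / y) ^ k) := by
      rw [h7]; ring
    rw [h6, h8, ← mul_assoc] at h5
    have h9 := le_of_mul_le_mul_right h5 (by positivity)
    have hck : 0 < c ^ (2 * k) := by positivity
    calc s ^ 2 = (s ^ 2 * c ^ (2 * k)) / c ^ (2 * k) := by field_simp
      _ ≤ ((L : ℝ) ^ 2 * M * 3 ^ n * Cπ ^ k * y ^ k * (s + s ^ 2 * (2 * n / N))) / c ^ (2 * k) :=
          div_le_div_of_nonneg_right h9 hck.le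
      _ = _ := by rw [hR]; ring
  have hyk : y ^ k ≤ (C2 * Real.log N) ^ k := pow_le_pow_left₀ hy.le hyN k
  have hfinal := fba_real s R y (y ^ k) (2 * n / N) hs0 (by positivity) hR0 hy.le hineq (by
    refine le_trans ?_ h3
    apply mul_le_mul_of_nonneg_right _ (by positivity)
    exact mul_le_mul_of_nonneg_left hyk hR0)
  calc s ≤ 2 * (R * y ^ k) := hfinal
    _ ≤ 2 * (R * (C2 * Real.log N) ^ k) := by
        apply mul_le_mul_of_nonneg_left _ (by norm_num)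
        exact mul_le_mul_of_nonneg_left hyk hR0
    _ = (2 * R * C2 ^ k) * (Real.log N) ^ k := by rw [mul_pow]; ring
    _ ≤ Real.log N * (Real.log N) ^ k := by
        apply mul_le_mul_of_nonneg_right ((le_max_right _ _).trans h4)
        positivity
    _ = (Real.log N) ^ (k + 1) := by rw [pow_succ]; ring

end

end Pool.Agent.KS6_18
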