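import Mathlib
import Pool.Agent.KS6_18.LSv

set_option autoImplicit false

/-! The abstract large sieve with labels and classes. -/

namespace Pool.Agent.KS6_18

open Finset

/-- the abstract large sieve with labels and classes -/
theorem ls_main2 {E V B Λ R : Type*} [DecidableEq E] [DecidableEq B] [DecidableEq Λ] [DecidableEq R]
    (S : Finset E) (W : Finset V) (T : Finset B) (L : Finset Λ) (a : V → ℂ)
    (ha : ∀ v ∈ W, ‖a v‖ ≤ 1) (cv : V → B) (hcv : ∀ v ∈ W, cv v ∈ T) (lam : V → Λ)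
    (hlam : ∀ v ∈ W, lam v ∈ L) (cl : Λ → E → R) (Cl : Λ → Finset R)
    (hcl : ∀ lm ∈ L, ∀ e ∈ S, cl lm e ∈ Cl lm) (Q : ℕ) (hQ : ∀ lm ∈ L, (Cl lm).card ≤ Q)
    (A : V → R → ℂ) (hA : ∀ v ∈ W, ∀ r, ‖A v r‖ ≤ 1)
    (χ : V → E → ℂ) (C : Λ → E → ℂ) (hC : ∀ e ∈ S, ∀ lm ∈ L, ‖C lm e‖ ≤ 1) (Ψ : Λ → E → B → ℂ)
    (hχ : ∀ v ∈ W, ∀ e ∈ S, χ v e = A v (cl (lam v) e) * C (lam v) e * Ψ (lam v) e (cv v)) (M : ℕ)
    (hM : ∀ t ∈ T, (W.filter (fun v => cv v = t)).card ≤ M) (X : ℝ) (hX : 0 ≤ X)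
    (hΨ : ∀ lm ∈ L, ∀ e ∈ S, ∀ t ∈ T, ‖Ψ lm e t‖ ≤ 1)
    (hoff : ∀ lm ∈ L, ∀ e ∈ S, ∀ e' ∈ S, e ≠ e' → cl lm e = cl lm e' →
      ‖∑ t ∈ T, Ψ lm e t * (starRingEnd ℂ) (Ψ lm e' t)‖ ≤ X)
    (Δ : ℝ) (hΔ0 : 0 ≤ Δ) (hΔ : ∀ e ∈ S, Δ ≤ ‖∑ v ∈ W, a v * χ v e‖) :
    (S.card * Δ) ^ 2 ≤ ((L.card * Q : ℕ) : ℝ) ^ 2 * ((M * W.card) *
      (S.card * T.card + (S.card : ℝ) ^ 2 * X)) := by
  classical
  set c : Λ → R → B → ℂ := fun lm r t => ∑ v ∈ W.filter (fun v => lam v = lm ∧ cv v = t), a v * A v r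
    with hc
  set Y : ℝ := (M * W.card) * (S.card * T.card + (S.card : ℝ) ^ 2 * X) with hY
  have hY0 : 0 ≤ Y := by positivity
  -- the coefficients
  have hcc : ∀ lm ∈ L, ∀ r, ∑ t ∈ T, ‖c lm r t‖ ^ 2 ≤ M * W.card := by
    intro lm _ r
    have h1 : ∀ t ∈ T, ‖c lm r t‖ ^ 2 ≤ M * ((W.filter (fun v => cv v = t)).card : ℝ) := by
      intro t ht
      have h2 : ‖c lm r t‖ ≤ ((W.filter (fun v => cv v = t)).card : ℝ) := by
        simp only [hc]
        refine (norm_sum_le _ _).trans ?_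
        calc _ ≤ ∑ v ∈ W.filter (fun v => lam v = lm ∧ cv v = t), (1 : ℝ) := by
              apply sum_le_sum
              intro v hv
              rw [norm_mul]
              exact mul_le_one₀ (ha v (mem_filter.1 hv).1) (norm_nonneg _) (hA v (mem_filter.1 hv).1 r)
          _ = ((W.filter (fun v => lam v = lm ∧ cv v = t)).card : ℝ) := by
              rw [sum_const, nsmul_eq_mul, mul_one]
          _ ≤ _ := by
              exact_mod_cast card_le_card (fun v hv => by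
                rw [mem_filter] at hv ⊢
                exact ⟨hv.1, hv.2.2⟩)
      have h3 : ((W.filter (fun v => cv v = t)).card : ℝ) ≤ M := by exact_mod_cast hM t ht
      have h0 := norm_nonneg (c lm r t)
      calc ‖c lm r t‖ ^ 2 = ‖c lm r t‖ * ‖c lm r t‖ := sq _
        _ ≤ M * ((W.filter (fun v => cv v = t)).card : ℝ) :=
          mul_le_mul (h2.trans h3) h2 h0 (Nat.cast_nonneg _)
    refine (sum_le_sum h1).trans ?_
    rw [← mul_sum]
    apply mul_le_mul_of_nonneg_left _ (Nat.cast_nonneg _)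
    have h4 := card_eq_sum_card_fiberwise (s := W) (t := T) (f := cv) (fun v hv => hcv v hv)
    rw [h4]
    push_cast
    exact le_refl _
  have hone : ∀ lm ∈ L, ∀ r ∈ Cl lm,
      ∑ e ∈ S.filter (fun e => cl lm e = r), ‖∑ t ∈ T, c lm r t * Ψ lm e t‖ ≤ Real.sqrt Y := by
    intro lm hlm r _
    apply Real.le_sqrt_of_sq_le
    set S' := S.filter (fun e => cl lm e = r) with hS'
    have hS'S : (S'.card : ℝ) ≤ S.card := by exact_mod_cast card_filter_le _ _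
    refine (ls_dual' S' T (Ψ lm) (c lm r) X hX
      (fun e he t ht => hΨ lm hlm e (mem_filter.1 he).1 t ht)
      (fun e he e' he' hne => hoff lm hlm e (mem_filter.1 he).1 e' (mem_filter.1 he').1 hne
        ((mem_filter.1 he).2.trans (mem_filter.1 he').2.symm))).trans ?_
    apply mul_le_mul (hcc lm hlm r) _ (by positivity) (by positivity)
    apply add_le_add
    · exact mul_le_mul_of_nonneg_right hS'S (Nat.cast_nonneg _)
    · apply mul_le_mul_of_nonneg_right _ hX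
      exact pow_le_pow_left₀ (Nat.cast_nonneg _) hS'S 2
  -- the decomposition
  have hdec : ∀ e ∈ S, ∑ v ∈ W, a v * χ v e =
      ∑ lm ∈ L, C lm e * ∑ t ∈ T, c lm (cl lm e) t * Ψ lm e t := by
    intro e he
    have h1 : ∀ lm ∈ L, ∑ t ∈ T, c lm (cl lm e) t * Ψ lm e t =
        ∑ v ∈ W.filter (fun v => lam v = lm), a v * A v (cl lm e) * Ψ lm e (cv v) := by
      intro lm _
      rw [← sum_fiberwise_of_maps_to (s := W.filter (fun v => lam v = lm)) (t := T) (g := cv)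
        (fun v hv => hcv v (mem_filter.1 hv).1)]
      apply sum_congr rfl
      intro t _
      simp only [hc]
      rw [sum_mul, filter_filter]
      apply sum_congr rfl
      intro v hv
      rw [(mem_filter.1 hv).2.2]
    rw [← sum_fiberwise_of_maps_to (s := W) (t := L) (g := lam) hlam]
    apply sum_congr rfl
    intro lm hlm
    rw [h1 lm hlm, mul_sum]
    apply sum_congr rfl
    intro v hv
    rw [hχ v (mem_filter.1 hv).1 e he, (mem_filter.1 hv).2]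
    ring
  have hlmsum : ∀ lm ∈ L, ∑ e ∈ S, ‖∑ t ∈ T, c lm (cl lm e) t * Ψ lm e t‖ ≤ Q * Real.sqrt Y := by
    intro lm hlm
    rw [← sum_fiberwise_of_maps_to (s := S) (t := Cl lm) (g := cl lm) (hcl lm hlm)]
    have h1 : ∀ r ∈ Cl lm, ∑ e ∈ S.filter (fun e => cl lm e = r),
        ‖∑ t ∈ T, c lm (cl lm e) t * Ψ lm e t‖ ≤ Real.sqrt Y := by
      intro r hr
      refine le_trans (le_of_eq ?_) (hone lm hlm r hr)
      apply sum_congr rfl
      intro e he
      rw [(mem_filter.1 he).2]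
    refine (sum_le_sum h1).trans ?_
    rw [sum_const, nsmul_eq_mul]
    apply mul_le_mul_of_nonneg_right _ (Real.sqrt_nonneg _)
    exact_mod_cast hQ lm hlm
  have hmain : (S.card : ℝ) * Δ ≤ ((L.card * Q : ℕ) : ℝ) * Real.sqrt Y := by
    calc (S.card : ℝ) * Δ = ∑ e ∈ S, Δ := by rw [sum_const, nsmul_eq_mul]
      _ ≤ ∑ e ∈ S, ∑ lm ∈ L, ‖∑ t ∈ T, c lm (cl lm e) t * Ψ lm e t‖ := by
        apply sum_le_sum
        intro e he
        refine (hΔ e he).trans ?_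
        rw [hdec e he]
        refine (norm_sum_le _ _).trans (sum_le_sum fun lm hlm => ?_)
        rw [norm_mul]
        calc _ ≤ 1 * ‖∑ t ∈ T, c lm (cl lm e) t * Ψ lm e t‖ :=
              mul_le_mul_of_nonneg_right (hC e he lm hlm) (norm_nonneg _)
          _ = _ := one_mul _
      _ = ∑ lm ∈ L, ∑ e ∈ S, ‖∑ t ∈ T, c lm (cl lm e) t * Ψ lm e t‖ := sum_comm
      _ ≤ ∑ lm ∈ L, Q * Real.sqrt Y := sum_le_sum hlmsum
      _ = _ := by rw [sum_const, nsmul_eq_mul]; push_cast; ring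
  calc (S.card * Δ) ^ 2 ≤ (((L.card * Q : ℕ) : ℝ) * Real.sqrt Y) ^ 2 :=
        pow_le_pow_left₀ (by positivity) hmain 2
    _ = ((L.card * Q : ℕ) : ℝ) ^ 2 * Y := by rw [mul_pow, Real.sq_sqrt hY0]

end Pool.Agent.KS6_18
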