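import Mathlib

set_option autoImplicit false

/-! The number of the ideals of a given norm. -/

namespace Pool.Agent.KS6_18

open Finset NumberField

section
variable (K : Type*) [Field K] [NumberField K]

/-- the ideals of norm `m` -/
noncomputable def FI (m : ℕ) : Finset (Ideal (𝓞 K)) :=
  (Ideal.finite_setOfPred_absNorm_eq (S := 𝓞 K) m).toFinset

lemma mem_FI {m : ℕ} {I : Ideal (𝓞 K)} : I ∈ FI K m ↔ Ideal.absNorm I = m := by
  unfold FI
  rw [Set.Finite.mem_toFinset]
  exact Iff.rfl

/-- the number of the maximal ideals above `q` -/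
lemma above_card {q : ℕ} (hq : q.Prime) (s : Finset (Ideal (𝓞 K)))
    (hs : ∀ P ∈ s, P.IsMaximal ∧ (q : 𝓞 K) ∈ P) : s.card ≤ Module.finrank ℚ K := by
  classical
  have h1 : (∏ P ∈ s, P) ∣ Ideal.span {(q : 𝓞 K)} := by
    apply Finset.prod_dvd_of_coprime
    · intro P hP Q hQ hne
      simp only [Function.onFun]
      rw [Ideal.isCoprime_iff_sup_eq]
      have := (hs P hP).1
      have := (hs Q hQ).1
      exact (hs P hP).1.coprime_of_ne (hs Q hQ).1 hne
    · intro P hP
      rw [Ideal.dvd_span_singleton]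
      exact (hs P hP).2
  have hn : Ideal.absNorm (Ideal.span {(q : 𝓞 K)}) = q ^ Module.finrank ℚ K := by
    rw [Ideal.absNorm_span_natCast, RingOfIntegers.rank]
  have h2 : ∏ P ∈ s, Ideal.absNorm P ∣ q ^ Module.finrank ℚ K := by
    rw [← hn, ← map_prod]
    exact map_dvd Ideal.absNorm h1
  have h3 : ∀ P ∈ s, q ≤ Ideal.absNorm P := by
    intro P hP
    have h4 : Ideal.absNorm P ∣ q ^ Module.finrank ℚ K := by
      rw [← hn]
      apply map_dvd Ideal.absNorm
      rw [Ideal.dvd_span_singleton]
      exact (hs P hP).2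
    obtain ⟨j, hj, hj'⟩ := (Nat.dvd_prime_pow hq).1 h4
    have h5 : j ≠ 0 := by
      rintro rfl
      rw [pow_zero, Ideal.absNorm_eq_one_iff] at hj'
      exact (hs P hP).1.ne_top hj'
    rw [hj']
    exact Nat.le_self_pow h5 q
  have h4 : q ^ s.card ≤ q ^ Module.finrank ℚ K := by
    calc q ^ s.card = ∏ _P ∈ s, q := (prod_const q).symm
      _ ≤ ∏ P ∈ s, Ideal.absNorm P := prod_le_prod' h3
      _ ≤ _ := Nat.le_of_dvd (pow_pos hq.pos _) h2
  exact (Nat.pow_le_pow_iff_right hq.one_lt).1 h4

/-- the number of the ideals of norm `m` -/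
theorem card_FI (m : ℕ) (hm : m ≠ 0) : (FI K m).card ≤ Module.finrank ℚ K ^ Nat.log 2 m := by
  classical
  have hn0 : 0 < Module.finrank ℚ K := Module.finrank_pos
  induction m using Nat.strong_induction_on with
  | _ m ih =>
    by_cases h1 : m = 1
    · subst h1
      have : FI K 1 ⊆ {⊤} := by
        intro I hI
        rw [mem_FI, Ideal.absNorm_eq_one_iff] at hI
        rw [mem_singleton, hI]
      refine (card_le_card this).trans ?_
      simp
    · set q := m.minFac with hq
      have hqp : q.Prime := Nat.minFac_prime h1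
      have hm2 : 2 ≤ m := by omega
      set Pq : Finset (Ideal (𝓞 K)) := (m.divisors.biUnion (FI K)).filter
        (fun P => P.IsMaximal ∧ (q : 𝓞 K) ∈ P) with hPq
      have hPqc : Pq.card ≤ Module.finrank ℚ K :=
        above_card K hqp Pq fun P hP => (mem_filter.1 hP).2
      have hPn : ∀ P ∈ Pq, 2 ≤ Ideal.absNorm P ∧ Ideal.absNorm P ∣ m := by
        intro P hP
        obtain ⟨h2, h3, -⟩ := mem_filter.1 hP
        obtain ⟨i, hi, hPi⟩ := mem_biUnion.1 h2
        rw [mem_FI] at hPi
        have h4 := Nat.dvd_of_mem_divisors hi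
        rw [← hPi] at h4
        have h5 : Ideal.absNorm P ≠ 0 := fun h => hm (Nat.eq_zero_of_zero_dvd (h ▸ h4))
        have h6 : Ideal.absNorm P ≠ 1 := by
          rw [Ne, Ideal.absNorm_eq_one_iff]
          exact h3.ne_top
        exact ⟨by omega, h4⟩
      have hsub : FI K m ⊆ Pq.biUnion
          (fun P => (FI K (m / Ideal.absNorm P)).image (fun J => P * J)) := by
        intro I hI
        rw [mem_FI] at hI
        obtain ⟨P, hP, hPu, J, hJ⟩ := Ideal.exists_isMaximal_dvd_of_dvd_absNorm' hqp I
          (by rw [hI]; exact Nat.minFac_dvd m)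
        have hqP : (q : 𝓞 K) ∈ P := by
          have h2 : (q : ℤ) ∈ P.under ℤ := by
            rw [hPu]
            exact Ideal.mem_span_singleton_self _
          rw [Ideal.mem_comap] at h2
          rwa [map_natCast] at h2
        have hPJ : Ideal.absNorm P * Ideal.absNorm J = m := by rw [← hI, hJ, map_mul]
        have hPm : P ∈ Pq := by
          rw [hPq, mem_filter, mem_biUnion]
          exact ⟨⟨Ideal.absNorm P, Nat.mem_divisors.2 ⟨⟨_, hPJ.symm⟩, hm⟩, (mem_FI K).2 rfl⟩, hP, hqP⟩
        rw [mem_biUnion]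
        refine ⟨P, hPm, mem_image.2 ⟨J, ?_, hJ.symm⟩⟩
        rw [mem_FI, ← hPJ, Nat.mul_div_cancel_left]
        have := (hPn P hPm).1
        omega
      have hlog : 1 ≤ Nat.log 2 m := Nat.log_pos (by norm_num) hm2
      calc (FI K m).card ≤ _ := card_le_card hsub
        _ ≤ ∑ P ∈ Pq, ((FI K (m / Ideal.absNorm P)).image (fun J => P * J)).card := card_biUnion_le
        _ ≤ ∑ _P ∈ Pq, Module.finrank ℚ K ^ (Nat.log 2 m - 1) := by
          apply sum_le_sum
          intro P hP
          obtain ⟨h2, h3⟩ := hPn P hP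
          refine card_image_le.trans ?_
          have h4 : m / Ideal.absNorm P < m := Nat.div_lt_self (by omega) (by omega)
          have h5 : m / Ideal.absNorm P ≠ 0 := by
            have := Nat.div_pos (Nat.le_of_dvd (by omega) h3) (by omega : 0 < Ideal.absNorm P)
            omega
          refine (ih _ h4 h5).trans (Nat.pow_le_pow_right hn0 ?_)
          rw [← Nat.log_div_base]
          exact Nat.log_mono_right (Nat.div_le_div_left h2 (by norm_num))
        _ = Pq.card * Module.finrank ℚ K ^ (Nat.log 2 m - 1) := by rw [sum_const, smul_eq_mul]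
        _ ≤ Module.finrank ℚ K * Module.finrank ℚ K ^ (Nat.log 2 m - 1) :=
          Nat.mul_le_mul_right _ hPqc
        _ = Module.finrank ℚ K ^ Nat.log 2 m := by
          rw [← pow_succ', Nat.sub_add_cancel hlog]

end

end Pool.Agent.KS6_18
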