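import Mathlib
import Pool.Agent.KS6_18.BoxU
import Pool.Agent.KS6_18.IdC

set_option autoImplicit false

/-! Labels, with explicit bounds. -/

namespace Pool.Agent.KS6_18

open Finset MulChar NumberField IsCyclotomicExtension Module

section
variable (d : ℕ) [NeZero d] (K : Type*) [Field K] [NumberField K] [IsCyclotomicExtension {d} ℚ K]

/-- complex conjugation -/
lemma exists_cc : ∃ τ : Gal(K/ℚ), (∀ (W : K →+* ℂ) (x : 𝓞 K),
      W (algebraMap (𝓞 K) K (sg τ x)) = (starRingEnd ℂ) (W (algebraMap (𝓞 K) K x))) ∧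
    ∀ l : ℕ, l.Prime → l ∣ d → ∀ σ : Gal(K/ℚ), cx d K l (σ * τ) + cx d K l σ = l := by
  set e := IsCyclotomicExtension.Rat.galEquivZMod d K with he
  set τ : Gal(K/ℚ) := e.symm (-1) with hτd
  have hτ : ((ax d K τ : ℕ) : ZMod d) = -1 := by
    unfold ax
    rw [ZMod.natCast_zmod_val, ← he, hτd, MulEquiv.apply_symm_apply, Units.val_neg, Units.val_one]
  refine ⟨τ, ?_, ?_⟩
  · intro W x
    set f : 𝓞 K →+* ℂ := (W.comp (algebraMap (𝓞 K) K)).comp (sg τ) with hf
    set g : 𝓞 K →+* ℂ := (starRingEnd ℂ).comp (W.comp (algebraMap (𝓞 K) K)) with hg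
    have h : f = g := by
      apply hom_ext d K
      rw [hf, hg, RingHom.comp_apply, RingHom.comp_apply,
        sg_pow d K τ (ze_spec d K).pow_eq_one, map_pow]
      set w : ℂ := (W.comp (algebraMap (𝓞 K) K)) (ze d K) with hw
      have hwd : w ^ d = 1 := by
        rw [hw, ← map_pow, (ze_spec d K).pow_eq_one, map_one]
      have hw1 : ‖w‖ = 1 := Complex.norm_eq_one_of_pow_eq_one hwd (NeZero.ne d)
      have hdvd : d ∣ ax d K τ + 1 := by
        rw [← ZMod.natCast_eq_zero_iff]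
        push_cast
        rw [hτ, neg_add_cancel]
      have h1 : w ^ ax d K τ * w = 1 := by
        rw [← pow_succ]
        obtain ⟨m, hm⟩ := hdvd
        rw [hm, pow_mul, hwd, one_pow]
      have h2 : (starRingEnd ℂ) w * w = 1 := by
        rw [mul_comm, Complex.mul_conj', hw1]
        norm_num
      have hw0 : w ≠ 0 := by
        intro h0
        rw [h0, norm_zero] at hw1
        exact zero_ne_one hw1
      have h3 := mul_right_cancel₀ hw0 (h1.trans h2.symm)
      rw [map_pow]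
      exact h3
    exact congrArg (fun F => F x) h
  · intro l hl hld σ
    have h1 : ax d K (σ * τ) + ax d K σ ≡ 0 [MOD l] := by
      have h2 := ax_mul d K σ τ
      have h3 : ax d K (σ * τ) + ax d K σ ≡ 0 [MOD d] := by
        rw [← ZMod.natCast_eq_natCast_iff] at h2 ⊢
        push_cast at h2 ⊢
        rw [h2, hτ]
        ring
      exact h3.of_dvd hld
    have h3 : cx d K l (σ * τ) + cx d K l σ ≡ 0 [MOD l] :=
      Nat.ModEq.trans (Nat.ModEq.add (Nat.mod_modEq _ _) (Nat.mod_modEq _ _)) h1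
    have h4 := cx_pos d K hl hld σ
    have h5 := cx_pos d K hl hld (σ * τ)
    have h6 := cx_lt d K hl σ
    have h7 := cx_lt d K hl (σ * τ)
    obtain ⟨m, hm⟩ := (Nat.modEq_zero_iff_dvd).1 h3
    have hm1 : m = 1 := by
      have h8 : m < 2 := by
        by_contra h
        have : l * 2 ≤ l * m := Nat.mul_le_mul_left _ (by omega)
        omega
      have h9 : m ≠ 0 := by rintro rfl; omega
      omega
    rw [hm1] at hm
    omega

/-- the absolute values of the Stickelberger element -/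
lemma el_abs {l : ℕ} (hl : l.Prime) (hld : l ∣ d) (W : K →+* ℂ) (β : 𝓞 K) :
    ‖W (algebraMap (𝓞 K) K (el d K l β))‖ ^ 2 = |((Algebra.norm ℤ β : ℤ) : ℝ)| ^ l := by
  classical
  have hG : IsGalois ℚ K := IsCyclotomicExtension.isGalois {d} ℚ K
  obtain ⟨τ, hτ1, hτ2⟩ := exists_cc d K
  set a : Gal(K/ℚ) → ℝ := fun σ => ‖W (algebraMap (𝓞 K) K (sg σ⁻¹ β))‖ with ha
  have haτ : ∀ σ, a (σ * τ) = a σ := by
    intro σ
    simp only [ha]
    have h1 := hτ1 W (sg (σ * τ)⁻¹ β)
    rw [sg_mul, mul_inv_rev, mul_inv_cancel_left] at h1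
    rw [h1, RCLike.norm_conj, mul_inv_rev]
  have h1 : ‖W (algebraMap (𝓞 K) K (el d K l β))‖ = ∏ σ, a σ ^ (l - cx d K l σ) := by
    unfold el
    rw [map_prod, map_prod, norm_prod]
    apply prod_congr rfl
    intro σ _
    rw [map_pow, map_pow, norm_pow]
  have h2 : ∏ σ, a σ ^ (l - cx d K l σ) = ∏ σ, a σ ^ cx d K l σ := by
    rw [← Equiv.prod_comp (Equiv.mulRight τ)]
    apply prod_congr rfl
    intro σ _
    rw [Equiv.coe_mulRight, haτ]
    congr 1
    have := hτ2 l hl hld σ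
    change l - cx d K l (σ * τ) = cx d K l σ
    omega
  have h3 : (∏ σ, a σ ^ (l - cx d K l σ)) ^ 2 = (∏ σ, a σ) ^ l := by
    rw [sq]
    nth_rewrite 2 [h2]
    rw [← prod_mul_distrib, ← prod_pow]
    apply prod_congr rfl
    intro σ _
    rw [← pow_add, Nat.sub_add_cancel (cx_lt d K hl σ).le]
  rw [h1, h3]
  congr 1
  have h4 := congrArg (fun x => ‖W (algebraMap (𝓞 K) K x)‖) (norm_prod_aut K β)
  simp only [map_intCast, map_prod, norm_prod, Complex.norm_intCast] at h4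
  rw [h4, ← Equiv.prod_comp (Equiv.inv Gal(K/ℚ))]
  apply prod_congr rfl
  intro σ _
  simp only [ha, Equiv.inv_apply, inv_inv]

/-- the Stickelberger element applied to an ideal -/
noncomputable def Stu (l : ℕ) (J : Ideal (𝓞 K)) : Ideal (𝓞 K) :=
  ∏ σ : Gal(K/ℚ), (J.map (sg σ⁻¹)) ^ (l - cx d K l σ)

lemma St_mul (l : ℕ) (I J : Ideal (𝓞 K)) : Stu d K l (I * J) = Stu d K l I * Stu d K l J := by
  unfold Stu
  rw [← prod_mul_distrib]
  apply prod_congr rfl
  intro σ _
  rw [Ideal.map_mul, mul_pow]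

lemma St_span (l : ℕ) (β : 𝓞 K) : Stu d K l (Ideal.span {β}) = Ideal.span {el d K l β} := by
  unfold Stu el
  rw [← Ideal.prod_span_singleton]
  apply prod_congr rfl
  intro σ _
  rw [Ideal.map_span, Set.image_singleton, Ideal.span_singleton_pow]

/-- the facts about labels -/
lemma lab_facts {l : ℕ} (hl : l.Prime) (hld : l ∣ d) {ι : Type*} [Fintype ι] (s : ι → ℕ)
    (D : ∀ j, PData d K (s j)) (hs : ∀ j, 0 < s j) (β : 𝓞 K) (hβ0 : β ≠ 0)
    (hβ : β ∈ ∏ j, (D j).m) :
    ∃ (γ : 𝓞 K) (g : ℤ) (J : Ideal (𝓞 K)), γ ≠ 0 ∧ (∏ j, (D j).Φ l) * γ = el d K l β ∧ g ≠ 0 ∧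
      Algebra.norm ℤ β = g * ∏ j, (s j : ℤ) ∧
      (∀ W : K →+* ℂ, ‖W (algebraMap (𝓞 K) K γ)‖ ^ 2 = |(g : ℝ)| ^ l) ∧
      Ideal.absNorm J = g.natAbs ∧ Ideal.span {γ} = Stu d K l J := by
  classical
  set N := ∏ j, s j with hN
  have hN0 : 0 < N := prod_pos fun j _ => hs j
  have hNr : (0 : ℝ) < N := by exact_mod_cast hN0
  have hnorm : Ideal.absNorm (∏ j, (D j).m) = N := by
    rw [map_prod, hN]
    exact prod_congr rfl fun j _ => (D j).norm_m
  obtain ⟨γ, hγ⟩ := el_dvd d K hl hld s D β hβ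
  have hγ0 : γ ≠ 0 := by
    rintro rfl
    rw [mul_zero] at hγ
    exact el_ne d K hβ0 hγ
  obtain ⟨g, hg⟩ := Ideal.absNorm_dvd_norm_of_mem hβ
  have hnz : Algebra.norm ℤ β ≠ 0 := by
    rwa [Ne, Algebra.norm_eq_zero_iff]
  rw [hnorm] at hg
  have hg0 : g ≠ 0 := by
    rintro rfl
    rw [mul_zero] at hg
    exact hnz hg
  have hprodN : (∏ j, (s j : ℤ)) = (N : ℤ) := by rw [hN]; push_cast; rfl
  obtain ⟨J, hJ⟩ : (∏ j, (D j).m) ∣ Ideal.span {β} := by
    rw [Ideal.dvd_span_singleton]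
    exact hβ
  refine ⟨γ, g, J, hγ0, hγ.symm, hg0, by rw [hprodN, hg, mul_comm], ?_, ?_, ?_⟩
  · intro W
    have h1 := el_abs d K hl hld W β
    rw [hγ, map_mul, map_mul, norm_mul, mul_pow, map_prod, map_prod, norm_prod, ← prod_pow] at h1
    have h2 : ∀ j, ‖W (algebraMap (𝓞 K) K ((D j).Φ l))‖ ^ 2 = (s j : ℝ) ^ l := by
      intro j
      exact (D j).abs l hl hld (W.comp (algebraMap (𝓞 K) K))
    rw [prod_congr rfl (fun j _ => h2 j), prod_pow] at h1
    have h3 : ((∏ j, (s j : ℝ)) : ℝ) = (N : ℝ) := by rw [hN]; push_cast; rfl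
    rw [h3, hg] at h1
    push_cast at h1
    rw [abs_mul, mul_pow, abs_of_pos hNr] at h1
    exact mul_left_cancel₀ (pow_ne_zero _ hNr.ne') h1
  · have h1 := congrArg Ideal.absNorm hJ
    rw [map_mul, hnorm, Ideal.absNorm_span_singleton, hg, Int.natAbs_mul, Int.natAbs_natCast] at h1
    exact (Nat.eq_of_mul_eq_mul_left hN0 h1).symm
  · have h1 : Ideal.span {∏ j, (D j).Φ l} = Stu d K l (∏ j, (D j).m) := by
      unfold Stu
      rw [← Ideal.prod_span_singleton, prod_congr rfl (fun j _ => (D j).fac l hl hld), prod_comm]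
      apply prod_congr rfl
      intro σ _
      rw [prod_pow]
      congr 1
      exact (map_prod (Ideal.mapHom (sg σ⁻¹)) _ _).symm
    have h2 : Ideal.span {∏ j, (D j).Φ l} * Ideal.span {γ} =
        Ideal.span {∏ j, (D j).Φ l} * Stu d K l J := by
      rw [Ideal.span_singleton_mul_span_singleton, ← hγ, ← St_span, hJ, St_mul, h1]
    have h3 : Ideal.span {∏ j, (D j).Φ l} ≠ ⊥ := by
      rw [Ne, Ideal.span_singleton_eq_bot]
      intro h0
      rw [h0, zero_mul] at hγ
      exact el_ne d K hβ0 hγ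
    exact mul_left_cancel₀ h3 h2

/-- elements with the same ideal and the same absolute values -/
lemma unit_of (hd : Odd d) {γ γ' : 𝓞 K} (hγ : γ ≠ 0)
    (h : Ideal.span {γ} = Ideal.span {γ'})
    (habs : ∀ W : K →+* ℂ, ‖W (algebraMap (𝓞 K) K γ)‖ = ‖W (algebraMap (𝓞 K) K γ')‖) :
    ∃ r < d, ∃ s < 2, γ' = (-1) ^ s * ze d K ^ r * γ := by
  rw [Ideal.span_singleton_eq_span_singleton] at h
  obtain ⟨u, hu⟩ := h
  have hinj : Function.Injective (algebraMap (𝓞 K) K) := FaithfulSMul.algebraMap_injective _ _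
  set x : K := algebraMap (𝓞 K) K u with hx
  have hγK : ∀ W : K →+* ℂ, ‖W (algebraMap (𝓞 K) K γ)‖ ≠ 0 := by
    intro W
    rw [norm_ne_zero_iff, Ne, map_eq_zero, map_eq_zero_iff _ hinj]
    exact hγ
  have h1 : ∀ W : K →+* ℂ, ‖W x‖ = 1 := by
    intro W
    have h2 := habs W
    rw [← hu, map_mul, map_mul, norm_mul] at h2
    have h3 : ‖W (algebraMap (𝓞 K) K γ)‖ * 1 = ‖W (algebraMap (𝓞 K) K γ)‖ * ‖W x‖ := by
      rw [mul_one]; exact h2
    exact (mul_left_cancel₀ (hγK W) h3).symm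
  obtain ⟨m, hm, hxm⟩ := Embeddings.pow_eq_one_of_norm_eq_one K ℂ
    (RingOfIntegers.isIntegral_coe (u : 𝓞 K)) h1
  have hfin : IsOfFinOrder x := isOfFinOrder_iff_pow_eq_one.2 ⟨m, hm, hxm⟩
  obtain ⟨r, hr, hr'⟩ := (IsCyclotomicExtension.zeta_spec d ℚ K).exists_pow_or_neg_mul_pow_of_isOfFinOrder
    hd hfin
  have hze : algebraMap (𝓞 K) K (ze d K) = IsCyclotomicExtension.zeta d ℚ K := rfl
  rcases hr' with h2 | h2
  · refine ⟨r, hr, 0, by norm_num, ?_⟩
    have h3 : (u : 𝓞 K) = ze d K ^ r := by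
      apply hinj
      rw [map_pow, hze]
      exact h2
    rw [← hu, h3, pow_zero, one_mul, mul_comm]
  · refine ⟨r, hr, 1, by norm_num, ?_⟩
    have h3 : (u : 𝓞 K) = -ze d K ^ r := by
      apply hinj
      rw [map_neg, map_pow, hze]
      exact h2
    rw [← hu, h3, pow_one]
    ring

/-- the number of labels -/
lemma lab_count (hd : Odd d) (l : ℕ) {V : Type*} (W : Finset V) (γ : V → 𝓞 K) (g : V → ℤ)
    (J : V → Ideal (𝓞 K)) (G0 : ℕ)
    (h : ∀ v ∈ W, γ v ≠ 0 ∧ g v ≠ 0 ∧ (g v).natAbs ≤ G0 ∧ Ideal.absNorm (J v) = (g v).natAbs ∧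
      (∀ ρ : K →+* ℂ, ‖ρ (algebraMap (𝓞 K) K (γ v))‖ ^ 2 = |(g v : ℝ)| ^ l) ∧
      Ideal.span {γ v} = Stu d K l (J v)) [DecidableEq (𝓞 K × ℤ)] :
    (W.image (fun v => (γ v, g v))).card ≤
      G0 * Module.finrank ℚ K ^ Nat.log 2 G0 * (4 * d) := by
  classical
  set lam : V → 𝓞 K × ℤ := fun v => (γ v, g v) with hlam
  have hn0 : 0 < Module.finrank ℚ K := Module.finrank_pos
  have hsub : W.image lam ⊆ (W.image J).biUnion
      (fun I => (W.filter (fun v => J v = I)).image lam) := by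
    intro y hy
    obtain ⟨v, hv, rfl⟩ := mem_image.1 hy
    rw [mem_biUnion]
    exact ⟨J v, mem_image_of_mem _ hv, mem_image_of_mem _ (mem_filter.2 ⟨hv, rfl⟩)⟩
  have hfib : ∀ I ∈ W.image J, ((W.filter (fun v => J v = I)).image lam).card ≤ 4 * d := by
    intro I hI
    obtain ⟨v₀, hv₀, hv₀I⟩ := mem_image.1 hI
    obtain ⟨a1, a2, a3, a4, a5, a6⟩ := h v₀ hv₀
    set T : Finset (ℕ × ℕ × ℕ) := range d ×ˢ (range 2 ×ˢ range 2) with hT
    have hsub2 : (W.filter (fun v => J v = I)).image lam ⊆ T.image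
        (fun t => ((-1) ^ t.2.1 * ze d K ^ t.1 * γ v₀, (-1) ^ t.2.2 * g v₀)) := by
      intro y hy
      obtain ⟨v, hv, rfl⟩ := mem_image.1 hy
      obtain ⟨hvW, hvI⟩ := mem_filter.1 hv
      obtain ⟨b1, b2, b3, b4, b5, b6⟩ := h v hvW
      have hJJ : J v = J v₀ := by rw [hvI, hv₀I]
      have hgg : (g v).natAbs = (g v₀).natAbs := by rw [← a4, ← b4, hJJ]
      have habs : |(g v : ℝ)| = |(g v₀ : ℝ)| := by
        rw [← Int.cast_abs, ← Int.cast_abs, Int.abs_eq_natAbs, Int.abs_eq_natAbs, hgg]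
      obtain ⟨r, hr, s, hs, hrs⟩ := unit_of d K hd a1 (by rw [a6, b6, hJJ]) (γ' := γ v) (by
        intro ρ
        have h1 : ‖ρ (algebraMap (𝓞 K) K (γ v₀))‖ ^ 2 = ‖ρ (algebraMap (𝓞 K) K (γ v))‖ ^ 2 := by
          rw [a5, b5, habs]
        exact (pow_left_inj₀ (norm_nonneg _) (norm_nonneg _) two_ne_zero).1 h1)
      rw [mem_image]
      rcases Int.natAbs_eq_natAbs_iff.1 hgg with h2 | h2
      · refine ⟨(r, s, 0), ?_, ?_⟩
        · rw [hT, mem_product, mem_product, mem_range, mem_range, mem_range]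
          exact ⟨hr, hs, by norm_num⟩
        · simp only [hlam, pow_zero, one_mul]
          rw [hrs, h2]
      · refine ⟨(r, s, 1), ?_, ?_⟩
        · rw [hT, mem_product, mem_product, mem_range, mem_range, mem_range]
          exact ⟨hr, hs, by norm_num⟩
        · simp only [hlam, pow_one]
          rw [hrs, h2]
          congr 1
          ring
    refine (card_le_card hsub2).trans (card_image_le.trans ?_)
    rw [hT, card_product, card_product, card_range, card_range]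
    omega
  have hideals : (W.image J).card ≤ G0 * Module.finrank ℚ K ^ Nat.log 2 G0 := by
    have h1 : W.image J ⊆ (Icc 1 G0).biUnion (FI K) := by
      intro I hI
      obtain ⟨v, hv, rfl⟩ := mem_image.1 hI
      obtain ⟨a1, a2, a3, a4, a5, a6⟩ := h v hv
      rw [mem_biUnion]
      refine ⟨(g v).natAbs, ?_, (mem_FI K).2 a4⟩
      rw [mem_Icc]
      exact ⟨Int.natAbs_pos.2 a2, a3⟩
    refine (card_le_card h1).trans (card_biUnion_le.trans ?_)
    calc ∑ m ∈ Icc 1 G0, (FI K m).card ≤ ∑ _m ∈ Icc 1 G0, Module.finrank ℚ K ^ Nat.log 2 G0 := by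
          apply sum_le_sum
          intro m hm
          rw [mem_Icc] at hm
          refine (card_FI K m (by omega)).trans (Nat.pow_le_pow_right hn0 ?_)
          exact Nat.log_mono_right hm.2
      _ = _ := by
          rw [sum_const, Nat.card_Icc, smul_eq_mul]
          simp
  calc (W.image lam).card ≤ _ := card_le_card hsub
    _ ≤ ∑ I ∈ W.image J, ((W.filter (fun v => J v = I)).image lam).card := card_biUnion_le
    _ ≤ ∑ _I ∈ W.image J, 4 * d := sum_le_sum hfib
    _ = (W.image J).card * (4 * d) := by rw [sum_const, smul_eq_mul]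
    _ ≤ _ := Nat.mul_le_mul_right _ hideals

/-- the degree -/
noncomputable abbrev dmd : ℕ := (IsCyclotomicExtension.zeta_spec d ℚ K).integralPowerBasis.dim

/-- the power basis -/
noncomputable def bsd : Basis (Fin (dmd d K)) ℤ (𝓞 K) :=
  (IsCyclotomicExtension.zeta_spec d ℚ K).integralPowerBasis.basis

/-- the size of the elements of a box -/
lemma bsd_size (W : K →+* ℂ) (c : Fin _ → ℤ) (h : ℝ) (hc : ∀ i, |(c i : ℝ)| ≤ h) :
    ‖W (algebraMap (𝓞 K) K (UB.vec (bsd d K) c))‖ ≤ Module.finrank ℚ K * h := by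
  rw [UB.vec_sum, map_sum, map_sum]
  have h1 : ∀ i, ‖W (algebraMap (𝓞 K) K (c i • bsd d K i))‖ ≤ h := by
    intro i
    rw [zsmul_eq_mul, map_mul, map_mul, map_intCast, map_intCast, norm_mul, Complex.norm_intCast]
    have h2 : ‖W (algebraMap (𝓞 K) K (bsd d K i))‖ = 1 := by
      unfold bsd
      rw [PowerBasis.basis_eq_pow, (IsCyclotomicExtension.zeta_spec d ℚ K).integralPowerBasis_gen,
        map_pow, map_pow, norm_pow]
      have h3 : ‖W (algebraMap (𝓞 K) K (IsCyclotomicExtension.zeta_spec d ℚ K).toInteger)‖ = 1 := by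
        apply Complex.norm_eq_one_of_pow_eq_one _ (NeZero.ne d)
        rw [← map_pow, ← map_pow]
        have h4 := (ze_spec d K).pow_eq_one
        unfold ze at h4
        rw [h4, map_one, map_one]
      rw [h3, one_pow]
    rw [h2, mul_one]
    exact hc i
  refine (norm_sum_le _ _).trans ((sum_le_sum fun i _ => h1 i).trans ?_)
  rw [sum_const, card_univ, UB.card_IX (bsd d K), nsmul_eq_mul]

/-- small elements in products of prime ideals -/
theorem labelsU {ι : Type*} [Fintype ι] (s : ι → ℕ) (D : ∀ j, PData d K (s j))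
    (hs : ∀ j, 0 < s j) :
    ∃ c : Fin (dmd d K) → ℤ, c ≠ 0 ∧
      (∀ i, (c i).natAbs ^ Module.finrank ℚ K ≤ ∏ j, s j) ∧
      UB.vec (bsd d K) c ≠ 0 ∧ UB.vec (bsd d K) c ∈ ∏ j, (D j).m ∧
      (Algebra.norm ℤ (UB.vec (bsd d K) c)).natAbs ≤
        Module.finrank ℚ K ^ Module.finrank ℚ K * ∏ j, s j := by
  classical
  set n := Module.finrank ℚ K with hn
  have hn0 : n ≠ 0 := Module.finrank_pos.ne'
  set N := ∏ j, s j with hN
  have hN0 : 0 < N := prod_pos fun j _ => hs j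
  have hnorm : Ideal.absNorm (∏ j, (D j).m) = N := by
    rw [map_prod, hN]
    exact prod_congr rfl fun j _ => (D j).norm_m
  have hI : ∏ j, (D j).m ≠ ⊥ := by
    intro h
    rw [h, Ideal.absNorm_bot] at hnorm
    omega
  obtain ⟨h, hh1, hh2⟩ := exists_root n N hn0
  obtain ⟨c, hc0, hcb, hcI⟩ := UB.pigeon (bsd d K) _ hI h (by rw [hnorm]; exact hh2)
  have hβ0 : UB.vec (bsd d K) c ≠ 0 := by
    intro h0
    apply hc0
    apply UB.vec_inj (bsd d K)
    rw [h0]
    unfold UB.vec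
    rw [map_zero]
  refine ⟨c, hc0, ?_, hβ0, hcI, ?_⟩
  · intro i
    have h1 : (c i).natAbs ≤ h := by
      have := hcb i
      rw [Int.abs_eq_natAbs] at this
      exact_mod_cast this
    exact (Nat.pow_le_pow_left h1 n).trans hh1
  · have hG : IsGalois ℚ K := IsCyclotomicExtension.isGalois {d} ℚ K
    have h1 := norm_le_of (UB.vec (bsd d K) c) (n * h) (fun W => bsd_size d K W c h (fun i => by
      exact_mod_cast hcb i))
    rw [← hn, mul_pow] at h1
    have h2 : ((Algebra.norm ℤ (UB.vec (bsd d K) c)).natAbs : ℝ) ≤ n ^ n * N := by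
      rw [Nat.cast_natAbs]
      push_cast
      refine h1.trans ?_
      apply mul_le_mul_of_nonneg_left _ (by positivity)
      exact_mod_cast hh1
    exact_mod_cast h2

end

end Pool.Agent.KS6_18
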