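import Mathlib
import Pool.Agent.KS6_18.LabU
import Pool.Agent.KS6_18.LSv2
import Pool.Agent.KS6_18.FBA

set_option autoImplicit false

/-! Few integers `ν` have a large character sum: the finite form, with explicit constants. -/

namespace Pool.Agent.KS6_18

open Finset MulChar NumberField IsCyclotomicExtension Module

section
variable (d : ℕ) [NeZero d] (K : Type*) [Field K] [NumberField K] [IsCyclotomicExtension {d} ℚ K]
  (io : 𝓞 K →+* ℂ) (j : ℕ → ℕ)

lemma XP_one {p : ℕ} (hp : p.Prime ∧ d ∣ p - 1) : XP d K io j 0 p 1 = 1 := by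
  unfold XP
  rw [pow_zero, mul_one]
  apply prod_eq_one
  intro l _
  have := XX_one d K io (l := l) hp
  rw [Nat.cast_one, this, one_pow]

lemma XP_mul {p : ℕ} (hp : p.Prime ∧ d ∣ p - 1) (m n : ℕ) :
    XP d K io j 0 p (m * n) = XP d K io j 0 p m * XP d K io j 0 p n := by
  unfold XP
  rw [pow_zero, mul_one, pow_zero, mul_one, pow_zero, mul_one, ← prod_mul_distrib]
  apply prod_congr rfl
  intro l _
  rw [Nat.cast_mul, XX_mul d K io hp, mul_pow]

/-- the character as a homomorphism -/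
noncomputable def XPh {p : ℕ} (hp : p.Prime ∧ d ∣ p - 1) : ℕ →* ℂ where
  toFun := XP d K io j 0 p
  map_one' := XP_one d K io j hp
  map_mul' := XP_mul d K io j hp

lemma XP_pow {p : ℕ} (hp : p.Prime ∧ d ∣ p - 1) {q : ℕ} (hq : ¬ p ∣ q) :
    XP d K io j 0 p q ^ d = 1 := by
  unfold XP
  rw [pow_zero, mul_one, ← prod_pow]
  apply prod_eq_one
  intro l hl
  obtain ⟨t, ht⟩ := Nat.dvd_of_mem_primeFactors hl
  have h1 := XX_mu d K io hl hp (q : ℤ) (by rwa [Int.natCast_dvd_natCast])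
  calc (XX d K io l p q ^ j l) ^ d = (XX d K io l p q ^ l) ^ (j l * t) := by
        rw [← pow_mul, ← pow_mul]
        congr 1
        conv_lhs => rw [ht]
        ring
    _ = 1 := by rw [h1, one_pow]

/-- the representative of the class of the part of `ν` at `P` -/
def rgn (P : Finset ℕ) (l ν : ℕ) : ℕ := ∏ q ∈ P, q ^ (ν.factorization q % l)

/-- the part of `ν` outside `P` -/
noncomputable def nu2 (P : Finset ℕ) (ν : ℕ) : ℕ :=
  (ν.factorization.filter (fun q => q ∉ P)).prod (fun q e => q ^ e)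

lemma nu2_fac (P : Finset ℕ) (ν : ℕ) :
    (nu2 P ν).factorization = ν.factorization.filter (fun q => q ∉ P) := by
  apply Nat.prod_pow_factorization_eq_self
  intro q hq
  rw [Finsupp.support_filter, mem_filter, Nat.support_factorization] at hq
  exact Nat.prime_of_mem_primeFactors hq.1

lemma nu2_mul (P : Finset ℕ) {ν : ℕ} (hν : ν ≠ 0) :
    (ν.factorization.filter (fun q => q ∈ P)).prod (fun q e => q ^ e) * nu2 P ν = ν := by
  unfold nu2
  rw [Finsupp.prod_filter_mul_prod_filter_not]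
  exact Nat.prod_factorization_pow_eq_self hν

lemma nu2_dvd (P : Finset ℕ) {ν : ℕ} (hν : ν ≠ 0) : nu2 P ν ∣ ν :=
  ⟨_, by rw [mul_comm]; exact (nu2_mul P hν).symm⟩

lemma nu2_ne (P : Finset ℕ) {ν : ℕ} (hν : ν ≠ 0) : nu2 P ν ≠ 0 := by
  intro h
  have := nu2_dvd P hν
  rw [h, zero_dvd_iff] at this
  exact hν this

lemma nu2_pf (P : Finset ℕ) {ν q : ℕ} (hq : q ∈ (nu2 P ν).primeFactors) :
    q.Prime ∧ q ∉ P := by
  refine ⟨Nat.prime_of_mem_primeFactors hq, ?_⟩
  rw [← Nat.support_factorization, nu2_fac, Finsupp.support_filter, mem_filter] at hq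
  exact hq.2

/-- the splitting of the character -/
lemma XP_split {p : ℕ} (hp : p.Prime ∧ d ∣ p - 1) (P : Finset ℕ) (hP : ∀ q ∈ P, ¬ p ∣ q) {ν : ℕ}
    (hν : ν ≠ 0) : XP d K io j 0 p ν = XP d K io j 0 p (rgn P d ν) * XP d K io j 0 p (nu2 P ν) := by
  have h1 : XP d K io j 0 p ν = XP d K io j 0 p
      ((ν.factorization.filter (fun q => q ∈ P)).prod (fun q e => q ^ e)) *
        XP d K io j 0 p (nu2 P ν) := by
    rw [← XP_mul d K io j hp, nu2_mul P hν]
  rw [h1]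
  congr 1
  have h2 : ∀ n, XP d K io j 0 p n = XPh d K io j hp n := fun _ => rfl
  rw [h2, h2]
  unfold rgn
  rw [Finsupp.prod, map_prod, map_prod, Finsupp.support_filter]
  have hsub : ν.factorization.support.filter (fun q => q ∈ P) ⊆ P := by
    intro q hq
    exact (mem_filter.1 hq).2
  rw [prod_congr rfl (g := fun q => XPh d K io j hp (q ^ ν.factorization q)), prod_subset hsub]
  · apply prod_congr rfl
    intro q hq
    rw [map_pow, map_pow]
    have h3 : XPh d K io j hp q ^ d = 1 := XP_pow d K io j hp (hP q hq)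
    conv_lhs => rw [← Nat.mod_add_div (ν.factorization q) d, pow_add, pow_mul, h3, one_pow, mul_one]
  · intro q hq hq'
    rw [mem_filter, not_and_or] at hq'
    have h4 : ν.factorization q = 0 := by
      rcases hq' with h | h
      · exact Finsupp.notMem_support_iff.1 h
      · exact absurd hq h
    rw [h4, pow_zero, map_one]
  · intro q hq
    rw [Finsupp.filter_apply_pos _ _ (mem_filter.1 hq).2]

/-- the classes -/
noncomputable def Cls (P : Finset ℕ) (l : ℕ) : Finset ℕ :=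
  (Fintype.piFinset (fun _ : {q // q ∈ P} => range l)).image (fun f => ∏ q, q.1 ^ f q)

lemma Cls_card (P : Finset ℕ) (l : ℕ) : (Cls P l).card ≤ l ^ P.card := by
  refine card_image_le.trans ?_
  rw [Fintype.card_piFinset, prod_const, card_range, card_univ, Fintype.card_coe]

lemma rgn_mem (P : Finset ℕ) {l : ℕ} (hl : 0 < l) (ν : ℕ) : rgn P l ν ∈ Cls P l := by
  unfold Cls rgn
  rw [mem_image]
  refine ⟨fun q => ν.factorization q.1 % l, ?_, ?_⟩
  · rw [Fintype.mem_piFinset]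
    intro q
    rw [mem_range]
    exact Nat.mod_lt _ hl
  · exact prod_coe_sort P (fun q => q ^ (ν.factorization q % l))

lemma rgn_inj (P : Finset ℕ) (hP : ∀ q ∈ P, q.Prime) {l ν ν' : ℕ} (h : rgn P l ν = rgn P l ν')
    {q : ℕ} (hq : q ∈ P) : ν.factorization q ≡ ν'.factorization q [MOD l] := by
  have key : ∀ ν : ℕ, (rgn P l ν).factorization q = ν.factorization q % l := by
    intro ν
    unfold rgn
    rw [Nat.factorization_prod (fun q hq => pow_ne_zero _ (hP q hq).ne_zero),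
      Finset.sum_apply', sum_eq_single q]
    · rw [(hP q hq).factorization_pow, Finsupp.single_eq_same]
    · intro q' hq' hne
      rw [(hP q' hq').factorization_pow, Finsupp.single_eq_of_ne (Ne.symm hne)]
    · intro h
      exact absurd hq h
  have h1 := congrArg (fun m => m.factorization q) h
  simp only [key] at h1
  exact h1

/-- the primes attached to a label -/
def PS (d : ℕ) (g : ℤ) : Finset ℕ := (2 * g.natAbs * d).primeFactors

lemma PS_card {d : ℕ} {g : ℤ} {G0 : ℕ} (hd : d ≠ 0) (hg : g ≠ 0) (hG : g.natAbs ≤ G0) :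
    (PS d g).card ≤ Nat.log 2 (2 * G0 * d) := by
  unfold PS
  have h0 : 2 * g.natAbs * d ≠ 0 := by
    have := Int.natAbs_pos.2 hg
    positivity
  have h1 : 2 ^ (2 * g.natAbs * d).primeFactors.card ≤ 2 * g.natAbs * d := by
    calc 2 ^ (2 * g.natAbs * d).primeFactors.card = ∏ _q ∈ (2 * g.natAbs * d).primeFactors, 2 := by
          rw [prod_const]
      _ ≤ ∏ q ∈ (2 * g.natAbs * d).primeFactors, q :=
          prod_le_prod' fun q hq => (Nat.prime_of_mem_primeFactors hq).two_le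
      _ ≤ _ := Nat.le_of_dvd (Nat.pos_of_ne_zero h0) (Nat.prod_primeFactors_dvd _)
  apply Nat.le_log_of_pow_le (by norm_num)
  refine h1.trans ?_
  apply Nat.mul_le_mul_right
  exact Nat.mul_le_mul_left _ hG

include d in
/-- the element `γ` of a label is prime to the primes not dividing `g` -/
lemma gam_q {l : ℕ} {γ : 𝓞 K} {g : ℤ}
    (hγ : ∀ W : K →+* ℂ, ‖W (algebraMap (𝓞 K) K γ)‖ ^ 2 = |(g : ℝ)| ^ l) {q : ℕ} (hqp : q.Prime)
    (hqg : ¬ (q : ℤ) ∣ g) : γ ∉ QQ K q := by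
  classical
  intro hmem
  have hG : IsGalois ℚ K := IsCyclotomicExtension.isGalois {d} ℚ K
  have hcard : Fintype.card Gal(K/ℚ) = Module.finrank ℚ K := by
    rw [← Nat.card_eq_fintype_card]
    exact IsGalois.card_aut_eq_finrank ℚ K
  have : Fact q.Prime := ⟨hqp⟩
  have := (QQ_spec K hqp).1
  have hch := charP_Q K (QQ K q) (QQ_spec K hqp).2
  have h1 : Ideal.Quotient.mk (QQ K q) ((Algebra.norm ℤ γ : ℤ) : 𝓞 K) = 0 := by
    rw [norm_prod_aut, ← mul_prod_erase univ _ (mem_univ (1 : Gal(K/ℚ))), map_mul, sg_apply,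
      one_smul, Ideal.Quotient.eq_zero_iff_mem.2 hmem, zero_mul]
  rw [map_intCast, CharP.intCast_eq_zero_iff (𝓞 K ⧸ QQ K q) q] at h1
  obtain ⟨W⟩ : Nonempty (K →+* ℂ) := inferInstance
  have h2 := congrArg (fun x => ‖W (algebraMap (𝓞 K) K x)‖) (norm_prod_aut K γ)
  simp only [map_intCast, map_prod, norm_prod, Complex.norm_intCast] at h2
  have h3 : |((Algebra.norm ℤ γ : ℤ) : ℝ)| ^ 2 = |(g : ℝ)| ^ (l * Module.finrank ℚ K) := by
    rw [h2, ← prod_pow, pow_mul, ← hcard, ← card_univ, ← prod_const]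
    apply prod_congr rfl
    intro σ _
    rw [sg_coe]
    exact hγ (W.comp ((σ : Gal(K/ℚ)) : K →+* K))
  have h4 : (Algebra.norm ℤ γ).natAbs ^ 2 = g.natAbs ^ (l * Module.finrank ℚ K) := by
    have h5 : (((Algebra.norm ℤ γ).natAbs : ℕ) : ℝ) ^ 2 =
        ((g.natAbs : ℕ) : ℝ) ^ (l * Module.finrank ℚ K) := by
      rw [Nat.cast_natAbs, Nat.cast_natAbs]
      push_cast
      exact h3
    exact_mod_cast h5
  have h5 : q ∣ (Algebra.norm ℤ γ).natAbs := by
    have := Int.natAbs_dvd_natAbs.2 h1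
    rwa [Int.natAbs_natCast] at this
  have h6 : q ∣ g.natAbs ^ (l * Module.finrank ℚ K) := by
    rw [← h4]
    exact dvd_pow h5 two_ne_zero
  have h7 := hqp.dvd_of_dvd_pow h6
  exact hqg (Int.natCast_dvd.2 h7)

theorem fb_finU (hd : d.Prime) (hdodd : Odd d) (hj : ¬ d ∣ j d) (x k N h G0 : ℕ)
    (hG0 : G0 = Module.finrank ℚ K ^ Module.finrank ℚ K) (hx2 : 2 ≤ x)
    (hGx : (2 * G0 * d) ^ 2 ≤ x) (T : Finset ℕ)
    (hT : ∀ p ∈ T, (p.Prime ∧ d ∣ p - 1) ∧ p ≤ x ∧ x < p ^ 2)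
    (a : ℕ → ℂ) (ha : ∀ p ∈ T, ‖a p‖ ≤ 1) (hxk : x ^ k < (h + 1) ^ Module.finrank ℚ K)
    (S : Finset ℕ) (hS : ∀ ν ∈ S, ν ≠ 0 ∧ ν ≤ N)
    (hS2 : ∀ ν ∈ S, ∀ ν' ∈ S, ν ≠ ν' → ∃ q : ℕ, q.Prime ∧
      ¬ ν.factorization q ≡ ν'.factorization q [MOD d])
    (Δ : ℝ) (hΔ0 : 0 ≤ Δ) (hΔ : ∀ ν ∈ S, Δ ≤ ‖∑ p ∈ T, a p * XP d K io j 0 p ν‖) :
    (S.card * Δ ^ k) ^ 2 ≤
      (((G0 * Module.finrank ℚ K ^ Nat.log 2 G0 * (4 * d)) * d ^ Nat.log 2 (2 * G0 * d) : ℕ) : ℝ) ^ 2 *
      ((((2 * k + 1) ^ k : ℕ) * ((T.card ^ k : ℕ) : ℝ)) *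
        (S.card * ((2 * h + 1) ^ Module.finrank ℚ K : ℕ) + (S.card : ℝ) ^ 2 *
          (2 * (Module.finrank ℚ K * (N ^ 2 * (2 * h + 1) ^ (Module.finrank ℚ K - 1)) : ℕ)))) := by
  classical
  set n := Module.finrank ℚ K with hn
  have hn0 : n ≠ 0 := Module.finrank_pos.ne'
  have hdpf : d.primeFactors = {d} := hd.primeFactors
  have hdmem : d ∈ d.primeFactors := by rw [hdpf, mem_singleton]
  have hj' : ∀ l ∈ d.primeFactors, ¬ l ∣ j l := by
    intro l hl
    rw [hdpf, mem_singleton] at hl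
    rw [hl]
    exact hj
  have hdsq : Squarefree d := hd.prime.squarefree
  have hG01 : 1 ≤ G0 := by
    rw [hG0]
    exact Nat.one_le_pow _ _ (Nat.pos_of_ne_zero hn0)
  -- the coordinates and the labels
  set W : Finset (Fin k → ℕ) := Fintype.piFinset (fun _ => T) with hW
  have hWT : ∀ v ∈ W, ∀ i, v i ∈ T := fun v hv i => Fintype.mem_piFinset.1 hv i
  have hex : ∀ v : Fin k → ℕ, ∃ (c : Fin (dmd d K) → ℤ) (γ : 𝓞 K) (g : ℤ) (J : Ideal (𝓞 K)),
      ∀ hv : (∀ i, (v i).Prime ∧ d ∣ v i - 1), UB.vec (bsd d K) c ≠ 0 ∧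
        (∀ i, (c i).natAbs ^ n ≤ ∏ i, v i) ∧ γ ≠ 0 ∧
        (∏ i, (PDc d K (v i) (hv i)).Φ d) * γ = el d K d (UB.vec (bsd d K) c) ∧
        g ≠ 0 ∧ g.natAbs ≤ G0 ∧ Algebra.norm ℤ (UB.vec (bsd d K) c) = g * ∏ i, (v i : ℤ) ∧
        (∀ ρ : K →+* ℂ, ‖ρ (algebraMap (𝓞 K) K γ)‖ ^ 2 = |(g : ℝ)| ^ d) ∧
        Ideal.absNorm J = g.natAbs ∧ Ideal.span {γ} = Stu d K d J := by
    intro v
    by_cases hv : ∀ i, (v i).Prime ∧ d ∣ v i - 1
    · obtain ⟨c, hc0, hcb, hb0, hbm, hbn⟩ := labelsU d K v (fun i => PDc d K (v i) (hv i))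
        (fun i => (hv i).1.pos)
      obtain ⟨γ, g, J, h1, h2, h3, h4, h5, h6, h7⟩ := lab_facts d K hd dvd_rfl v
        (fun i => PDc d K (v i) (hv i)) (fun i => (hv i).1.pos) _ hb0 hbm
      refine ⟨c, γ, g, J, fun _ => ⟨hb0, hcb, h1, h2, h3, ?_, h4, h5, h6, h7⟩⟩
      rw [h4, Int.natAbs_mul, ← Nat.cast_prod, Int.natAbs_natCast, ← hG0] at hbn
      have hpos : 0 < ∏ i, v i := prod_pos fun i _ => (hv i).1.pos
      exact le_of_mul_le_mul_right hbn hpos
    · exact ⟨0, 0, 0, ⊥, fun h => absurd h hv⟩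
  choose cv γv gv Jv hcv using hex
  have hWv : ∀ v ∈ W, ∀ i, (v i).Prime ∧ d ∣ v i - 1 := fun v hv i => (hT _ (hWT v hv i)).1
  have hprodv : ∀ v ∈ W, ∏ i, v i ≤ x ^ k := by
    intro v hv
    calc ∏ i, v i ≤ ∏ _i : Fin k, x := prod_le_prod' fun i _ => (hT _ (hWT v hv i)).2.1
      _ = x ^ k := by rw [prod_const, card_univ, Fintype.card_fin]
  set lam : (Fin k → ℕ) → (𝓞 K × ℤ) := fun v => (γv v, gv v) with hlam
  set L : Finset (𝓞 K × ℤ) := W.image lam with hL
  have hLc : L.card ≤ G0 * n ^ Nat.log 2 G0 * (4 * d) := by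
    apply lab_count d K hdodd d W γv gv Jv G0
    intro v hv
    obtain ⟨h1, h2, h3, h4, h5, h6, h7, h8, h9, h10⟩ := hcv v (hWv v hv)
    exact ⟨h3, h5, h6, h9, h8, h10⟩
  -- the facts about labels
  have hLf : ∀ lm ∈ L, lm.2 ≠ 0 ∧ lm.2.natAbs ≤ G0 ∧
      ∀ ρ : K →+* ℂ, ‖ρ (algebraMap (𝓞 K) K lm.1)‖ ^ 2 = |(lm.2 : ℝ)| ^ d := by
    intro lm hlm
    obtain ⟨v, hv, rfl⟩ := mem_image.1 hlm
    obtain ⟨h1, h2, h3, h4, h5, h6, h7, h8, h9, h10⟩ := hcv v (hWv v hv)
    exact ⟨h5, h6, h8⟩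
  have hPSp : ∀ g : ℤ, ∀ q ∈ PS d g, q.Prime := fun g q hq => Nat.prime_of_mem_primeFactors hq
  have hPSn : ∀ lm ∈ L, ∀ q : ℕ, q.Prime → q ∉ PS d lm.2 →
      q.Coprime d ∧ q % 2 = 1 ∧ ¬ (q : ℤ) ∣ lm.2 := by
    intro lm hlm q hqp hq
    have h0 : 2 * lm.2.natAbs * d ≠ 0 := by
      have := Int.natAbs_pos.2 (hLf lm hlm).1
      have := hd.pos
      positivity
    have h1 : ¬ q ∣ 2 * lm.2.natAbs * d := fun h => hq (Nat.mem_primeFactors.2 ⟨hqp, h, h0⟩)
    refine ⟨?_, ?_, ?_⟩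
    · rw [Nat.Prime.coprime_iff_not_dvd hqp]
      exact fun h => h1 (h.mul_left _)
    · rcases hqp.eq_two_or_odd with h2 | h2
      · exfalso
        apply h1
        rw [h2, mul_assoc]
        exact dvd_mul_right _ _
      · exact h2
    · intro h
      apply h1
      have h2 := Int.natAbs_dvd_natAbs.2 h
      rw [Int.natAbs_natCast] at h2
      exact (h2.mul_left 2).mul_right d
  have hPSlt : ∀ lm ∈ L, ∀ q ∈ PS d lm.2, ∀ p ∈ T, ¬ p ∣ q := by
    intro lm hlm q hq p hp hpq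
    have hqp := hPSp _ q hq
    have h0 : 0 < 2 * lm.2.natAbs * d := by
      have := Int.natAbs_pos.2 (hLf lm hlm).1
      have := hd.pos
      positivity
    have h1 : q ≤ 2 * G0 * d := by
      refine (Nat.le_of_dvd h0 (Nat.dvd_of_mem_primeFactors hq)).trans ?_
      apply Nat.mul_le_mul_right
      exact Nat.mul_le_mul_left _ (hLf lm hlm).2.1
    have h2 := (Nat.prime_dvd_prime_iff_eq (hT p hp).1.1 hqp).1 hpq
    have h3 := (hT p hp).2.2
    have h4 : p ^ 2 ≤ (2 * G0 * d) ^ 2 := Nat.pow_le_pow_left (by rw [h2]; exact h1) 2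
    omega
  have hmain := ls_main2 S W (UB.bx (Fin (dmd d K)) h) L (fun v => ∏ i, a (v i)) ?_ cv ?_ lam
    (fun v hv => mem_image_of_mem _ hv) (fun lm ν => rgn (PS d lm.2) d ν)
    (fun lm => Cls (PS d lm.2) d) (fun lm _ ν _ => rgn_mem _ hd.pos ν) (d ^ Nat.log 2 (2 * G0 * d)) ?_
    (fun v r => ∏ i, XP d K io j 0 (v i) r) ?_
    (fun v ν => ∏ i, XP d K io j 0 (v i) ν)
    (fun lm ν => Cn d K io j 0 (fun _ => lm.1) lm.2 (nu2 (PS d lm.2) ν)) ?_
    (fun lm ν c => psn d K io j 0 (nu2 (PS d lm.2) ν) (UB.vec (bsd d K) c)) ?_ ((2 * k + 1) ^ k) ?_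
    (2 * ((n * (N ^ 2 * (2 * h + 1) ^ (n - 1)) : ℕ) : ℝ)) (by positivity) ?_ ?_ (Δ ^ k)
    (by positivity) ?_
  · rw [UB.card_bx (bsd d K), ← hn, hW, Fintype.card_piFinset, prod_const, card_univ, Fintype.card_fin]
      at hmain
    refine hmain.trans ?_
    apply mul_le_mul _ (by push_cast; exact le_refl _) (by positivity) (by positivity)
    apply pow_le_pow_left₀ (by positivity)
    exact_mod_cast Nat.mul_le_mul_right _ hLc
  · -- the weights
    intro v hv
    rw [norm_prod]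
    exact prod_le_one (fun _ _ => norm_nonneg _) fun i _ => ha _ (hWT v hv i)
  · -- the coordinates are in the box
    intro v hv
    rw [UB.mem_bx]
    intro i
    have h1 := (hcv v (hWv v hv)).2.1 i
    have h2 := lt_of_le_of_lt (h1.trans (hprodv v hv)) hxk
    exact Nat.lt_succ_iff.1 (lt_of_pow_lt_pow_left₀ n (Nat.zero_le _) h2)
  · -- the number of classes
    intro lm hlm
    refine (Cls_card _ _).trans (Nat.pow_le_pow_right hd.pos ?_)
    exact PS_card hd.ne_zero (hLf lm hlm).1 (hLf lm hlm).2.1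
  · intro v _ r
    rw [norm_prod]
    exact prod_le_one (fun _ _ => norm_nonneg _) fun i _ => XP_norm d K io j 0 _ _
  · -- the constants are bounded
    intro ν hν lm hlm
    exact Cn_norm d K io j 0 _ _ (fun q hq =>
      (hPSn lm hlm q (nu2_pf _ hq).1 (nu2_pf _ hq).2).1)
  · -- reciprocity
    intro v hv ν hν
    obtain ⟨h1, h2, h3, h4, h5, h6, h7, h8, h9, h10⟩ := hcv v (hWv v hv)
    have hlm : lam v ∈ L := mem_image_of_mem _ hv
    have hsplit : ∏ i, XP d K io j 0 (v i) ν = (∏ i, XP d K io j 0 (v i) (rgn (PS d (gv v)) d ν)) *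
        ∏ i, XP d K io j 0 (v i) (nu2 (PS d (gv v)) ν) := by
      rw [← prod_mul_distrib]
      apply prod_congr rfl
      intro i _
      exact XP_split d K io j (hWv v hv i) _ (fun q hq => hPSlt _ hlm q hq _ (hWT v hv i)) (hS ν hν).1
    have h11 := recip_n d K io j 0 (nu2_ne (PS d (gv v)) (hS ν hν).1) (fun q hq =>
      (hPSn _ hlm q (nu2_pf _ hq).1 (nu2_pf _ hq).2).1) v (hWv v hv)
      (fun _ => γv v) (gv v) (UB.vec (bsd d K) (cv v)) (fun l hl => by
        rw [hdpf, mem_singleton] at hl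
        subst hl
        exact h4)
      (fun q hq l _ => gam_q d K h8 (nu2_pf _ hq).1
        (hPSn _ hlm q (nu2_pf _ hq).1 (nu2_pf _ hq).2).2.2) h7
      (fun q hq => (hPSn _ hlm q (nu2_pf _ hq).1 (nu2_pf _ hq).2).2.2)
    change ∏ i, XP d K io j 0 (v i) ν = (∏ i, XP d K io j 0 (v i) (rgn (PS d (gv v)) d ν)) *
      Cn d K io j 0 (fun _ => γv v) (gv v) (nu2 (PS d (gv v)) ν) *
        psn d K io j 0 (nu2 (PS d (gv v)) ν) (UB.vec (bsd d K) (cv v))
    rw [hsplit, h11]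
    ring
  · -- the multiplicity
    intro t _
    by_cases hne : (W.filter (fun v => cv v = t)).Nonempty
    · obtain ⟨v₀, hv₀⟩ := hne
      rw [mem_filter] at hv₀
      obtain ⟨h1, _, _, _, h5, h6, h7, _⟩ := hcv v₀ (hWv v₀ hv₀.1)
      rw [hv₀.2] at h7 h1
      have hz : Algebra.norm ℤ (UB.vec (bsd d K) t) ≠ 0 := by
        rw [Ne, Algebra.norm_eq_zero_iff]
        exact h1
      have hzG : (Algebra.norm ℤ (UB.vec (bsd d K) t)).natAbs ≤ G0 * x ^ k := by
        rw [h7, Int.natAbs_mul]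
        apply Nat.mul_le_mul h6
        have h8 : (∏ i, (v₀ i : ℤ)).natAbs = ∏ i, v₀ i := by
          rw [← Nat.cast_prod, Int.natAbs_natCast]
        rw [h8]
        exact hprodv v₀ hv₀.1
      have hG2 : G0 ^ 2 ≤ x := by
        refine (Nat.pow_le_pow_left ?_ 2).trans hGx
        have : 1 ≤ d := hd.pos
        nlinarith
      have hP := mult_bound x k G0 hx2 hG2 T (fun p hp => ⟨(hT p hp).1.1, (hT p hp).2⟩) _ hz hzG
      have hsub : W.filter (fun v => cv v = t) ⊆ Fintype.piFinset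
          (fun _ : Fin k => T.filter (fun p : ℕ => (p : ℤ) ∣ Algebra.norm ℤ (UB.vec (bsd d K) t))) := by
        intro v hv
        rw [mem_filter] at hv
        rw [Fintype.mem_piFinset]
        intro i
        rw [mem_filter]
        refine ⟨hWT v hv.1 i, ?_⟩
        have h8 := (hcv v (hWv v hv.1)).2.2.2.2.2.2.1
        rw [hv.2] at h8
        rw [h8]
        exact (dvd_prod_of_mem (fun i => (v i : ℤ)) (mem_univ i)).mul_left _
      refine (card_le_card hsub).trans ?_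
      rw [Fintype.card_piFinset, prod_const, card_univ, Fintype.card_fin]
      exact Nat.pow_le_pow_left hP k
    · rw [not_nonempty_iff_eq_empty] at hne
      rw [hne, card_empty]
      exact Nat.zero_le _
  · intro lm hlm ν hν c _
    exact psn_norm d K io j 0 (fun q hq => (hPSn lm hlm q (nu2_pf _ hq).1 (nu2_pf _ hq).2).1) _
  · -- off-diagonal terms
    intro lm hlm ν hν ν' hν' hne hcl
    obtain ⟨q₀, hq₀, hmod⟩ := hS2 ν hν ν' hν' hne
    have hq₀P : q₀ ∉ PS d lm.2 := by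
      intro hq
      exact hmod (rgn_inj _ (hPSp _) hcl hq)
    set μ := nu2 (PS d lm.2) ν with hμ
    set μ' := nu2 (PS d lm.2) ν' with hμ'
    have hc1 : ∀ q ∈ μ.primeFactors, q.Coprime d ∧ q % 2 = 1 := fun q hq =>
      ⟨(hPSn lm hlm q (nu2_pf _ hq).1 (nu2_pf _ hq).2).1,
        (hPSn lm hlm q (nu2_pf _ hq).1 (nu2_pf _ hq).2).2.1⟩
    have hc2 : ∀ q ∈ μ'.primeFactors, q.Coprime d ∧ q % 2 = 1 := fun q hq =>
      ⟨(hPSn lm hlm q (nu2_pf _ hq).1 (nu2_pf _ hq).2).1,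
        (hPSn lm hlm q (nu2_pf _ hq).1 (nu2_pf _ hq).2).2.1⟩
    obtain ⟨w, w', hww, hw1⟩ := pair_w d K io j 0 hdodd (by norm_num) hj' hdsq
      (fun q hq => (hc1 q hq).1) (fun q hq => (hc2 q hq).1)
      (fun q hq => (hc1 q hq).2) (fun q hq => (hc2 q hq).2) q₀ d hq₀ hd (by
        rw [pow_zero, mul_one]) (by
        rw [hμ, hμ', nu2_fac, nu2_fac,
          Finsupp.filter_apply_pos (fun q => q ∉ PS d lm.2) _ hq₀P,
          Finsupp.filter_apply_pos (fun q => q ∉ PS d lm.2) _ hq₀P]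
        exact hmod)
    set Q : ℕ := ∏ q ∈ μ.primeFactors ∪ μ'.primeFactors, q with hQ
    have hQpos : 0 < Q := by
      apply prod_pos
      intro q hq
      rcases mem_union.1 hq with h1 | h1 <;> exact (Nat.prime_of_mem_primeFactors h1).pos
    have hQN : Q ≤ N ^ 2 := by
      have h1 : ∀ μ : ℕ, μ ≠ 0 → μ ≤ N → ∏ q ∈ μ.primeFactors, q ≤ N := by
        intro μ hμ hμN
        exact (Nat.le_of_dvd (Nat.pos_of_ne_zero hμ) (Nat.prod_primeFactors_dvd μ)).trans hμN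
      have h2 : Q ≤ (∏ q ∈ μ.primeFactors, q) * ∏ q ∈ μ'.primeFactors, q := by
        rw [hQ]
        have h3 : μ.primeFactors ∪ μ'.primeFactors =
            μ.primeFactors ∪ (μ'.primeFactors \ μ.primeFactors) := by
          rw [union_sdiff_self_eq_union]
        rw [h3, prod_union disjoint_sdiff]
        apply Nat.mul_le_mul_left
        exact prod_le_prod_of_subset_of_one_le' sdiff_subset
          (fun q hq _ => (Nat.prime_of_mem_primeFactors hq).pos)
      have h3 : ∀ ν ∈ S, nu2 (PS d lm.2) ν ≠ 0 ∧ nu2 (PS d lm.2) ν ≤ N := fun ν hν =>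
        ⟨nu2_ne _ (hS ν hν).1, (Nat.le_of_dvd (Nat.pos_of_ne_zero (hS ν hν).1)
          (nu2_dvd _ (hS ν hν).1)).trans (hS ν hν).2⟩
      calc Q ≤ _ := h2
        _ ≤ N * N := Nat.mul_le_mul (h1 μ (h3 ν hν).1 (h3 ν hν).2)
            (h1 μ' (h3 ν' hν').1 (h3 ν' hν').2)
        _ = N ^ 2 := (sq N).symm
    have hbs := UB.box_sum (bsd d K) (fun y => psn d K io j 0 μ y * (starRingEnd ℂ) (psn d K io j 0 μ' y)) Q
      (fun y z => by
        rw [psn_add d K io j 0 Q (fun q hq => dvd_prod_of_mem (fun q => q) (mem_union_left _ hq)) y z,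
          psn_add d K io j 0 Q (fun q hq => dvd_prod_of_mem (fun q => q) (mem_union_right _ hq)) y z])
      hQpos (fun y z => by
        rw [psn_mul d K io j 0 (fun q hq => (hc1 q hq).1) y z,
          psn_mul d K io j 0 (fun q hq => (hc2 q hq).1) y z, map_mul]
        ring)
      (fun y => by
        rw [norm_mul, RCLike.norm_conj]
        exact mul_le_one₀ (psn_norm d K io j 0 (fun q hq => (hc1 q hq).1) y)
          (norm_nonneg _) (psn_norm d K io j 0 (fun q hq => (hc2 q hq).1) y))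
      w w' hww hw1 h
    refine hbs.trans ?_
    rw [← hn]
    apply mul_le_mul_of_nonneg_left _ (by norm_num)
    exact_mod_cast Nat.mul_le_mul_left _ (Nat.mul_le_mul_right _ hQN)
  · -- the lower bound
    intro ν hν
    have h1 : ∑ v ∈ W, (∏ i, a (v i)) * ∏ i, XP d K io j 0 (v i) ν =
        (∑ p ∈ T, a p * XP d K io j 0 p ν) ^ k := by
      have h2 : (∑ p ∈ T, a p * XP d K io j 0 p ν) ^ k =
          ∏ _i : Fin k, ∑ p ∈ T, a p * XP d K io j 0 p ν := by
        rw [prod_const, card_univ, Fintype.card_fin]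
      rw [h2, prod_univ_sum, hW]
      apply sum_congr rfl
      intro v _
      rw [prod_mul_distrib]
    rw [h1, norm_pow]
    exact pow_le_pow_left₀ hΔ0 (hΔ ν hν) k

end

end Pool.Agent.KS6_18
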