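import Mathlib
import Pool.Agent.KS6_18.Win

set_option autoImplicit false

/-! The parameters of the uniform large sieve. -/

namespace Pool.Agent.KS6_18

open Finset Filter

lemma pow_exp {X a b : ℝ} {m : ℕ} (hX0 : 0 ≤ X) (hX : X ≤ Real.exp a) (ha : 0 ≤ a)
    (hm : (m : ℝ) ≤ b) : X ^ m ≤ Real.exp (a * b) := by
  calc X ^ m ≤ Real.exp a ^ m := pow_le_pow_left₀ hX0 hX m
    _ = Real.exp (m * a) := (Real.exp_nat_mul a m).symm
    _ ≤ Real.exp (a * b) := by
        apply Real.exp_le_exp.2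
        rw [mul_comm a b]
        exact mul_le_mul_of_nonneg_right hm ha

lemma nat_log_le {m : ℕ} (hm : m ≠ 0) {a : ℝ} (h : (m : ℝ) ≤ Real.exp a) (ha : 0 ≤ a) :
    ((Nat.log 2 m : ℕ) : ℝ) ≤ 2 * a := by
  have h1 : ((2 : ℝ)) ^ Nat.log 2 m ≤ m := by exact_mod_cast Nat.pow_log_le_self 2 hm
  have h2 := Real.log_le_log (by positivity) (h1.trans h)
  rw [Real.log_pow, Real.log_exp] at h2
  have h3 : (1 / 2 : ℝ) ≤ Real.log 2 := by
    have := Real.log_two_gt_d9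
    linarith
  have h4 : (0 : ℝ) ≤ (Nat.log 2 m : ℕ) := Nat.cast_nonneg _
  nlinarith

lemma mul6 {a b c e f g a' b' c' e' f' g' : ℝ} (ha0 : 0 ≤ a) (hb0 : 0 ≤ b) (hc0 : 0 ≤ c)
    (he0 : 0 ≤ e) (hf0 : 0 ≤ f) (hg0 : 0 ≤ g) (ha : a ≤ a') (hb : b ≤ b') (hc : c ≤ c') (he : e ≤ e')
    (hf : f ≤ f') (hg : g ≤ g') : a * b * c * e * f * g ≤ a' * b' * c' * e' * f' * g' := by
  have h1 := mul_le_mul ha hb hb0 (ha0.trans ha)
  have i1 : 0 ≤ a * b := mul_nonneg ha0 hb0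
  have h2 := mul_le_mul h1 hc hc0 (i1.trans h1)
  have i2 : 0 ≤ a * b * c := mul_nonneg i1 hc0
  have h3 := mul_le_mul h2 he he0 (i2.trans h2)
  have i3 : 0 ≤ a * b * c * e := mul_nonneg i2 he0
  have h4 := mul_le_mul h3 hf hf0 (i3.trans h3)
  have i4 : 0 ≤ a * b * c * e * f := mul_nonneg i3 hf0
  exact mul_le_mul h4 hg hg0 (i4.trans h4)

/-- the size of the constants -/
lemma par_bound (K1 C2 Cπ : ℝ) (A : ℕ) (hK1 : 1 ≤ K1) (hC2 : 0 < C2) (hCπ : 1 ≤ Cπ) :
    ∃ C3 : ℝ, 1 ≤ C3 ∧ ∀ᶠ N : ℕ in atTop, ∀ d n k : ℕ, 1 ≤ n → n ≤ d → (d : ℝ) ≤ Real.log N →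
      (k : ℝ) ≤ K1 * d → ∀ y : ℝ, 0 < y → y ≤ C2 * Real.log N →
      (((n ^ n * n ^ Nat.log 2 (n ^ n) * (4 * d)) * d ^ Nat.log 2 (2 * n ^ n * d) : ℕ) : ℝ) ^ 2 *
        (((2 * k + 1) ^ k : ℕ) : ℝ) * 3 ^ n * Cπ ^ k / (1 / (2 * (Real.log N) ^ A)) ^ (2 * k) * y ^ k ≤
      Real.exp (C3 * d * (Real.log (Real.log N)) ^ 2) ∧
      ((2 * n ^ n * d : ℕ) : ℝ) ≤ Real.exp (C3 * d * (Real.log (Real.log N)) ^ 2) := by
  refine ⟨22 + 3 * K1 + 1 + 2 * K1 + 2 * ((A : ℝ) + 1) * K1, by nlinarith [Nat.cast_nonneg (α := ℝ) A], ?_⟩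
  filter_upwards [log_tend.eventually_ge_atTop (max (max 4 (2 * K1 + 1)) (max (max C2 Cπ) (Real.exp 1)))]
    with N hN
  intro d n k hn hnd hd hk y hy0 hy
  set L := Real.log (N : ℝ) with hL
  have hL4 : 4 ≤ L := (le_max_left _ _).trans ((le_max_left _ _).trans hN)
  have hLK : 2 * K1 + 1 ≤ L := (le_max_right _ _).trans ((le_max_left _ _).trans hN)
  have hLC2 : C2 ≤ L := (le_max_left _ _).trans ((le_max_left _ _).trans ((le_max_right _ _).trans hN))
  have hLCπ : Cπ ≤ L := (le_max_right _ _).trans ((le_max_left _ _).trans ((le_max_right _ _).trans hN))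
  have hLe : Real.exp 1 ≤ L := (le_max_right _ _).trans ((le_max_right _ _).trans hN)
  have hL0 : 0 < L := by linarith
  set u := Real.log L with hu
  have hu1 : 1 ≤ u := by
    rw [hu, Real.le_log_iff_exp_le hL0]
    exact hLe
  have hLu : L = Real.exp u := (Real.exp_log hL0).symm
  have hd1 : (1 : ℝ) ≤ d := by exact_mod_cast hn.trans hnd
  have hn1 : (1 : ℝ) ≤ n := by exact_mod_cast hn
  have hnd' : (n : ℝ) ≤ d := by exact_mod_cast hnd
  have hdu : (d : ℝ) ≤ Real.exp u := by rw [← hLu]; exact hd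
  have hnu : (n : ℝ) ≤ Real.exp u := hnd'.trans hdu
  have hu0 : 0 ≤ u := by linarith
  have hnpos : 0 < n := hn
  have hdpos : 0 < d := lt_of_lt_of_le hn hnd
  set D : ℝ := d * u ^ 2 with hD
  have hduD : d * u ≤ D := by
    rw [hD]
    have : u ≤ u ^ 2 := by nlinarith
    exact mul_le_mul_of_nonneg_left this (by linarith)
  have huD : u ≤ D := by
    calc u = 1 * u := (one_mul u).symm
      _ ≤ d * u := mul_le_mul_of_nonneg_right hd1 hu0
      _ ≤ D := hduD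
  have hD0 : 0 ≤ D := hu0.trans huD
  -- `G0`
  have hG : ((n ^ n : ℕ) : ℝ) ≤ Real.exp (u * d) := by
    push_cast
    exact pow_exp (by positivity) hnu hu0 hnd'
  have hG' : ((n ^ n : ℕ) : ℝ) ≤ Real.exp D := hG.trans (Real.exp_le_exp.2 (by rw [mul_comm]; exact hduD))
  have hlogG : ((Nat.log 2 (n ^ n) : ℕ) : ℝ) ≤ 2 * (u * d) :=
    nat_log_le (pow_pos hnpos n).ne' hG (by positivity)
  have h1 : ((n : ℝ)) ^ Nat.log 2 (n ^ n) ≤ Real.exp (2 * D) := by
    refine (pow_exp (by positivity) hnu hu0 hlogG).trans (Real.exp_le_exp.2 (le_of_eq ?_))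
    rw [hD]; ring
  have h4d : (4 * d : ℝ) ≤ Real.exp (2 * D) := by
    calc (4 * d : ℝ) ≤ L * L := mul_le_mul hL4 hd (by linarith) hL0.le
      _ = Real.exp (u + u) := by rw [hLu, ← Real.exp_add]
      _ ≤ _ := Real.exp_le_exp.2 (by linarith)
  have hLm : ((n : ℝ) ^ n * (n : ℝ) ^ Nat.log 2 (n ^ n) * (4 * d)) ≤ Real.exp (5 * D) := by
    push_cast at hG'
    calc ((n : ℝ) ^ n * (n : ℝ) ^ Nat.log 2 (n ^ n) * (4 * d)) ≤
        Real.exp D * Real.exp (2 * D) * Real.exp (2 * D) := by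
          apply mul_le_mul _ h4d (by positivity) (by positivity)
          exact mul_le_mul hG' h1 (by positivity) (by positivity)
      _ = _ := by rw [← Real.exp_add, ← Real.exp_add]; congr 1; ring
  have h2Gd : ((2 * n ^ n * d : ℕ) : ℝ) ≤ Real.exp (3 * (u * d)) := by
    push_cast
    push_cast at hG
    calc 2 * (n : ℝ) ^ n * d ≤ Real.exp u * Real.exp (u * d) * Real.exp u := by
          apply mul_le_mul _ hdu (by linarith) (by positivity)
          apply mul_le_mul _ hG (by positivity) (by positivity)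
          rw [← hLu]; linarith
      _ = Real.exp (u + u * d + u) := by rw [← Real.exp_add, ← Real.exp_add]
      _ ≤ _ := by
          apply Real.exp_le_exp.2
          nlinarith
  have hlog2 : ((Nat.log 2 (2 * n ^ n * d) : ℕ) : ℝ) ≤ 2 * (3 * (u * d)) := by
    apply nat_log_le _ h2Gd (by positivity)
    positivity
  have hQm : ((d : ℝ)) ^ Nat.log 2 (2 * n ^ n * d) ≤ Real.exp (6 * D) := by
    refine (pow_exp (by positivity) hdu hu0 hlog2).trans (Real.exp_le_exp.2 (le_of_eq ?_))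
    rw [hD]; ring
  have hLQ : ((((n ^ n * n ^ Nat.log 2 (n ^ n) * (4 * d)) * d ^ Nat.log 2 (2 * n ^ n * d) : ℕ) : ℝ)) ^ 2 ≤
      Real.exp (22 * D) := by
    push_cast
    calc _ ≤ (Real.exp (5 * D) * Real.exp (6 * D)) ^ 2 := by
          apply pow_le_pow_left₀ (by positivity)
          exact mul_le_mul hLm hQm (by positivity) (by positivity)
      _ = Real.exp (22 * D) := by
          rw [← Real.exp_add, ← Real.exp_nat_mul]
          congr 1
          push_cast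
          ring
  -- the multiplicity
  have hM : (((2 * k + 1) ^ k : ℕ) : ℝ) ≤ Real.exp (2 * K1 * D) := by
    push_cast
    have h5 : (2 * (k : ℝ) + 1) ≤ Real.exp (2 * u) := by
      calc (2 * (k : ℝ) + 1) ≤ 2 * (K1 * d) + 1 := by linarith
        _ ≤ (2 * K1 + 1) * d := by nlinarith
        _ ≤ L * L := mul_le_mul hLK hd (by linarith) hL0.le
        _ = Real.exp (2 * u) := by rw [hLu, ← Real.exp_add]; congr 1; ring
    refine (pow_exp (by positivity) h5 (by positivity) hk).trans (Real.exp_le_exp.2 ?_)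
    calc 2 * u * (K1 * d) = 2 * K1 * (d * u) := by ring
      _ ≤ 2 * K1 * D := mul_le_mul_of_nonneg_left hduD (by linarith)
  have h3 : (3 : ℝ) ^ n ≤ Real.exp (1 * D) := by
    refine (pow_exp (by norm_num) (by rw [← hLu]; linarith : (3 : ℝ) ≤ Real.exp u) hu0 hnd').trans
      (Real.exp_le_exp.2 ?_)
    rw [mul_comm, one_mul]
    exact hduD
  have hC : Cπ ^ k ≤ Real.exp (K1 * D) := by
    refine (pow_exp (by linarith) (by rw [← hLu]; exact hLCπ : Cπ ≤ Real.exp u) hu0 hk).trans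
      (Real.exp_le_exp.2 ?_)
    calc u * (K1 * d) = K1 * (d * u) := by ring
      _ ≤ K1 * D := mul_le_mul_of_nonneg_left hduD (by linarith)
  have hyk : y ^ k ≤ Real.exp (2 * K1 * D) := by
    have h5 : y ≤ Real.exp (2 * u) := by
      calc y ≤ C2 * L := hy
        _ ≤ L * L := mul_le_mul_of_nonneg_right hLC2 hL0.le
        _ = Real.exp (2 * u) := by rw [hLu, ← Real.exp_add]; congr 1; ring
    refine (pow_exp hy0.le h5 (by positivity) hk).trans (Real.exp_le_exp.2 ?_)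
    calc 2 * u * (K1 * d) = 2 * K1 * (d * u) := by ring
      _ ≤ 2 * K1 * D := mul_le_mul_of_nonneg_left hduD (by linarith)
  have hc : 1 / (1 / (2 * L ^ A)) ^ (2 * k) ≤ Real.exp (2 * ((A : ℝ) + 1) * K1 * D) := by
    have h5 : 2 * L ^ A ≤ Real.exp (((A : ℝ) + 1) * u) := by
      calc 2 * L ^ A ≤ L * L ^ A := mul_le_mul_of_nonneg_right (by linarith) (by positivity)
        _ = L ^ (A + 1) := by ring
        _ = Real.exp (((A : ℝ) + 1) * u) := by
            rw [hLu, ← Real.exp_nat_mul]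
            congr 1
            push_cast
            ring
    rw [one_div_pow, one_div_one_div]
    have h6 : (((2 * k : ℕ)) : ℝ) ≤ 2 * (K1 * d) := by
      push_cast
      linarith
    refine (pow_exp (by positivity) h5 (by positivity) h6).trans (Real.exp_le_exp.2 ?_)
    calc ((A : ℝ) + 1) * u * (2 * (K1 * d)) = 2 * ((A : ℝ) + 1) * K1 * (d * u) := by ring
      _ ≤ _ := mul_le_mul_of_nonneg_left hduD (by positivity)
  constructor
  · have p1 : (0 : ℝ) ≤ ((((n ^ n * n ^ Nat.log 2 (n ^ n) * (4 * d)) *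
        d ^ Nat.log 2 (2 * n ^ n * d) : ℕ) : ℝ)) ^ 2 := by positivity
    have p2 : (0 : ℝ) ≤ (((2 * k + 1) ^ k : ℕ) : ℝ) := by positivity
    have p3 : (0 : ℝ) ≤ (3 : ℝ) ^ n := by positivity
    have p4 : (0 : ℝ) ≤ Cπ ^ k := by positivity
    have p5 : (0 : ℝ) ≤ 1 / (1 / (2 * L ^ A)) ^ (2 * k) := by positivity
    have p6 : (0 : ℝ) ≤ y ^ k := by positivity
    generalize ((((n ^ n * n ^ Nat.log 2 (n ^ n) * (4 * d)) *
        d ^ Nat.log 2 (2 * n ^ n * d) : ℕ) : ℝ)) ^ 2 = t1 at p1 hLQ ⊢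
    generalize (((2 * k + 1) ^ k : ℕ) : ℝ) = t2 at p2 hM ⊢
    generalize (3 : ℝ) ^ n = t3 at p3 h3 ⊢
    generalize Cπ ^ k = t4 at p4 hC ⊢
    generalize (1 / (2 * L ^ A)) ^ (2 * k) = t5 at p5 hc ⊢
    generalize y ^ k = t6 at p6 hyk ⊢
    have h9 := mul6 p1 p2 p3 p4 p5 p6 hLQ hM h3 hC hc hyk
    have e1 : t1 * t2 * t3 * t4 / t5 * t6 = t1 * t2 * t3 * t4 * (1 / t5) * t6 := by ring
    rw [e1]
    refine h9.trans (le_of_eq ?_)
    rw [← Real.exp_add, ← Real.exp_add, ← Real.exp_add, ← Real.exp_add, ← Real.exp_add]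
    congr 1
    rw [hD]
    ring
  · refine h2Gd.trans (Real.exp_le_exp.2 ?_)
    have h5 : 0 ≤ (A : ℝ) := Nat.cast_nonneg A
    have h7 : 0 ≤ 2 * ((A : ℝ) + 1) * K1 := by positivity
    have h6 : (3 : ℝ) ≤ 22 + 3 * K1 + 1 + 2 * K1 + 2 * ((A : ℝ) + 1) * K1 := by
      clear * - h7 hK1
      linarith
    calc 3 * (u * d) = 3 * (d * u) := by ring
      _ ≤ 3 * D := mul_le_mul_of_nonneg_left hduD (by norm_num)
      _ ≤ (22 + 3 * K1 + 1 + 2 * K1 + 2 * ((A : ℝ) + 1) * K1) * D := mul_le_mul_of_nonneg_right h6 hD0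
      _ = _ := by rw [hD]; ring

end Pool.Agent.KS6_18
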