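import Mathlib
import Pool.Agent.KS6_18.FBU
import Pool.Agent.KS6_18.Par

set_option autoImplicit false

/-! Few integers `ν` have a large character sum, uniformly in the order `d ≤ (log N) ^ (1 - κ)`. -/

namespace Pool.Agent.KS6_18

open Finset MulChar NumberField IsCyclotomicExtension Module Filter

lemma sub_lin (C κ ε : ℝ) (hκ : 0 < κ) (hε : 0 < ε) : ∀ᶠ t : ℝ in atTop,
    C * t ^ (1 - κ) * (Real.log t) ^ 2 ≤ ε * t ^ (1 - κ / 2) := by
  have h1 := (isLittleO_log_rpow_rpow_atTop (2 : ℝ) (show (0 : ℝ) < κ / 2 by positivity)).bound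
    (show (0 : ℝ) < ε / (|C| + 1) by positivity)
  filter_upwards [h1, eventually_ge_atTop 1] with t ht ht1
  have ht0 : 0 < t := by linarith
  have hl : 0 ≤ Real.log t := Real.log_nonneg ht1
  rw [Real.norm_of_nonneg (by positivity), Real.norm_of_nonneg (by positivity), Real.rpow_two] at ht
  have h2 : t ^ (1 - κ / 2) = t ^ (1 - κ) * t ^ (κ / 2) := by
    rw [← Real.rpow_add ht0]
    congr 1
    ring
  rw [h2]
  have h3 : 0 < t ^ (1 - κ) := by positivity
  calc C * t ^ (1 - κ) * (Real.log t) ^ 2 ≤ (|C| + 1) * t ^ (1 - κ) * (Real.log t) ^ 2 := by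
        apply mul_le_mul_of_nonneg_right _ (by positivity)
        apply mul_le_mul_of_nonneg_right _ h3.le
        linarith [le_abs_self C]
    _ ≤ (|C| + 1) * t ^ (1 - κ) * (ε / (|C| + 1) * t ^ (κ / 2)) :=
        mul_le_mul_of_nonneg_left ht (by positivity)
    _ = ε * (t ^ (1 - κ) * t ^ (κ / 2)) := by field_simp

lemma pow_sub (κ ε : ℝ) (hκ : 0 < κ) (hε : 0 < ε) : ∀ᶠ t : ℝ in atTop,
    t ^ (1 - κ) ≤ ε * t := by
  have h1 : ∀ᶠ t : ℝ in atTop, 1 / ε ≤ t ^ κ := (tendsto_rpow_atTop hκ).eventually_ge_atTop _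
  filter_upwards [h1, eventually_gt_atTop 0] with t ht ht0
  have h2 : t = t ^ (1 - κ) * t ^ κ := by
    rw [← Real.rpow_add ht0]
    norm_num
  have h3 : 0 < t ^ (1 - κ) := by positivity
  have h4 : 1 ≤ ε * t ^ κ := by
    rw [div_le_iff₀ hε] at ht
    linarith
  calc t ^ (1 - κ) = t ^ (1 - κ) * 1 := (mul_one _).symm
    _ ≤ t ^ (1 - κ) * (ε * t ^ κ) := mul_le_mul_of_nonneg_left h4 h3.le
    _ = ε * (t ^ (1 - κ) * t ^ κ) := by ring
    _ = ε * t := by rw [← h2]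

theorem fba_u (C1 C2 κ : ℝ) (A : ℕ) (hC1 : 0 < C1) (hC2 : 0 < C2) (hκ : 0 < κ) (hκ1 : κ < 1) :
    ∀ᶠ N : ℕ in atTop, ∀ (d : ℕ) [NeZero d], d.Prime → Odd d → (d : ℝ) ≤ (Real.log N) ^ (1 - κ) →
      ∀ (K : Type) [Field K] [NumberField K] [IsCyclotomicExtension {d} ℚ K] (io : 𝓞 K →+* ℂ)
        (j : ℕ → ℕ), ¬ d ∣ j d → ∀ x : ℕ, (N : ℝ) ^ C1 ≤ x → (x : ℝ) ≤ (N : ℝ) ^ C2 →
      ∀ T : Finset ℕ, (∀ p ∈ T, (p.Prime ∧ d ∣ p - 1) ∧ p ≤ x) →
      ∀ a : ℕ → ℂ, (∀ p ∈ T, ‖a p‖ ≤ 1) →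
      ∀ S : Finset ℕ, (∀ ν ∈ S, ν ≠ 0 ∧ ν ≤ N) →
      (∀ ν ∈ S, ∀ ν' ∈ S, ν ≠ ν' → ∃ q : ℕ, q.Prime ∧
        ¬ ν.factorization q ≡ ν'.factorization q [MOD d]) →
      (∀ ν ∈ S, 1 / (Real.log N) ^ A * (x / Real.log x) ≤ ‖∑ p ∈ T, a p * XP d K io j 0 p ν‖) →
      (S.card : ℝ) ≤ Real.exp ((Real.log N) ^ (1 - κ / 2)) := by
  classical
  obtain ⟨Cπ, hCπ, hbt⟩ := bt_one
  set K1 : ℝ := 3 / C1 + 1 with hK1
  have hK11 : 1 ≤ K1 := by
    have : 0 < 3 / C1 := by positivity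
    linarith
  obtain ⟨C3, hC3, hpar⟩ := par_bound K1 C2 Cπ A hK11 hC2 hCπ
  have hC30 : 0 < C3 := by linarith
  -- eventual facts
  have f1 := log_tend.eventually (sub_lin C3 κ (1 / 2) hκ (by norm_num))
  have f2 := log_tend.eventually (pow_sub (κ / 2) (min (C1 / 2) (1 / 2)) (by positivity)
    (lt_min (by positivity) (by norm_num)))
  have f3 : ∀ᶠ N : ℕ in atTop, Real.log 2 ≤ 1 / 2 * (Real.log N) ^ (1 - κ / 2) := by
    have h1 : Tendsto (fun N : ℕ => (Real.log (N : ℝ)) ^ (1 - κ / 2)) atTop atTop :=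
      (tendsto_rpow_atTop (by linarith)).comp log_tend
    filter_upwards [h1.eventually_ge_atTop (2 * Real.log 2)] with N hN
    linarith
  have f4 : ∀ᶠ N : ℕ in atTop, 4 * Real.log N ≤ (N : ℝ) ^ (1 / 2 : ℝ) := by
    have h1 := ev_pow 4 1 1 (1 / 2) (by norm_num)
    filter_upwards [h1] with N hN
    rw [pow_one, one_mul] at hN
    linarith
  have e1 : ∀ᶠ N : ℕ in atTop, (4 : ℝ) ≤ (N : ℝ) ^ C1 :=
    ((tendsto_rpow_atTop hC1).comp tendsto_natCast_atTop_atTop).eventually_ge_atTop _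
  have e2 : ∀ᶠ N : ℕ in atTop, (C2 * Real.log N) * (2 * (Real.log N) ^ A) ≤ (N : ℝ) ^ (C1 / 2) := by
    have h1 := ev_pow (2 * C2) 1 (A + 1) (C1 / 2) (by positivity)
    filter_upwards [h1, log_tend.eventually_ge_atTop 0] with N hN hN0
    refine le_trans ?_ hN
    calc (C2 * Real.log N) * (2 * (Real.log N) ^ A) = 2 * C2 * (Real.log N) ^ (A + 1) := by ring
      _ ≤ _ := by
        apply mul_le_mul_of_nonneg_left _ (by positivity)
        apply pow_le_pow_left₀ hN0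
        linarith
  filter_upwards [hpar, f1, f2, f3, f4, e1, e2, log_tend.eventually_ge_atTop 1,
    eventually_ge_atTop 2] with N hparN f1 f2 f3 f4 e1 e2 hlN hN2
  intro d _ hd hdodd hdL K _ _ _ io j hj x hx1 hx2 T hT a ha S hS hS2 hΔ
  set L := Real.log (N : ℝ) with hL
  have hN0 : (0 : ℝ) < N := by exact_mod_cast (by omega : 0 < N)
  have hL0 : 0 < L := by linarith
  set n := Module.finrank ℚ K with hn
  have hn0 : n ≠ 0 := Module.finrank_pos.ne'
  have hnd : n ≤ d := by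
    rw [hn, IsCyclotomicExtension.finrank K (Polynomial.cyclotomic.irreducible_rat hd.pos)]
    exact Nat.totient_le d
  have hn1 : 1 ≤ n := Nat.one_le_iff_ne_zero.2 hn0
  have hd0 : (0 : ℝ) < d := by exact_mod_cast hd.pos
  have hd1 : (1 : ℝ) ≤ d := by exact_mod_cast hd.one_le
  have hnd' : (n : ℝ) ≤ d := by exact_mod_cast hnd
  have hdL' : (d : ℝ) ≤ L := by
    refine hdL.trans ?_
    calc L ^ (1 - κ) ≤ L ^ (1 : ℝ) := Real.rpow_le_rpow_of_exponent_le hlN (by linarith)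
      _ = L := Real.rpow_one L
  set k : ℕ := ⌈3 * (n : ℝ) / C1⌉₊ with hkdef
  have hk' : 3 * (n : ℝ) ≤ C1 * k := by
    have := Nat.le_ceil (3 * (n : ℝ) / C1)
    rw [← hkdef, div_le_iff₀ hC1] at this
    linarith
  have hkK : (k : ℝ) ≤ K1 * d := by
    have h1 := (Nat.ceil_lt_add_one (show 0 ≤ 3 * (n : ℝ) / C1 by positivity)).le
    rw [← hkdef] at h1
    calc (k : ℝ) ≤ 3 * (n : ℝ) / C1 + 1 := h1
      _ ≤ 3 * (d : ℝ) / C1 + d := by
          apply add_le_add _ hd1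
          apply div_le_div_of_nonneg_right _ hC1.le
          linarith
      _ = K1 * d := by rw [hK1]; ring
  have hk0 : k ≠ 0 := by
    rintro hk0
    rw [hk0] at hk'
    have : (0 : ℝ) < n := by exact_mod_cast Nat.pos_of_ne_zero hn0
    simp at hk'
    linarith
  have hx4 : (4 : ℝ) ≤ x := e1.trans hx1
  have hx4' : 4 ≤ x := by exact_mod_cast hx4
  have hx0 : (0 : ℝ) < x := by linarith
  have hy : 0 < Real.log x := Real.log_pos (by linarith)
  have hyN : Real.log x ≤ C2 * L := by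
    rw [hL, ← Real.log_rpow hN0]
    exact Real.log_le_log hx0 hx2
  obtain ⟨hR, hG⟩ := hparN d n k hn1 hnd hdL' hkK (Real.log x) hy hyN
  set u := Real.log L with hu
  -- the bound for the exponential
  have hE : C3 * d * u ^ 2 ≤ 1 / 2 * L ^ (1 - κ / 2) := by
    refine le_trans ?_ f1
    apply mul_le_mul_of_nonneg_right _ (sq_nonneg _)
    exact mul_le_mul_of_nonneg_left hdL hC30.le
  have hE1 : L ^ (1 - κ / 2) ≤ C1 / 2 * L :=
    f2.trans (mul_le_mul_of_nonneg_right (min_le_left _ _) hL0.le)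
  have hE2 : L ^ (1 - κ / 2) ≤ 1 / 2 * L :=
    f2.trans (mul_le_mul_of_nonneg_right (min_le_right _ _) hL0.le)
  have hEpos : 0 < L ^ (1 - κ / 2) := by positivity
  -- the condition on `x`
  have hGx : (2 * n ^ n * d) ^ 2 ≤ x := by
    have h1 : (((2 * n ^ n * d : ℕ) : ℝ)) ^ 2 ≤ x := by
      calc (((2 * n ^ n * d : ℕ) : ℝ)) ^ 2 ≤ (Real.exp (C3 * d * u ^ 2)) ^ 2 :=
            pow_le_pow_left₀ (Nat.cast_nonneg _) hG 2
        _ = Real.exp (2 * (C3 * d * u ^ 2)) := by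
            rw [← Real.exp_nat_mul]
            norm_num
        _ ≤ Real.exp (C1 * L) := by
            apply Real.exp_le_exp.2
            have : 0 < C1 * L := by positivity
            linarith
        _ = (N : ℝ) ^ C1 := by
            rw [Real.rpow_def_of_pos hN0, mul_comm]
        _ ≤ x := hx1
    exact_mod_cast h1
  set c : ℝ := 1 / (2 * L ^ A) with hc
  have hc0 : 0 < c := by positivity
  -- the primes `> √x`
  set T' := T.filter (fun p => x < p ^ 2) with hT'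
  have hsq : (N : ℝ) ^ (C1 / 2) ≤ Real.sqrt x := by
    apply Real.le_sqrt_of_sq_le
    rw [← Real.rpow_natCast, ← Real.rpow_mul hN0.le]
    convert hx1 using 2
    push_cast; ring
  have hsmall : Real.sqrt x ≤ c * (x / Real.log x) := by
    have h5 : Real.log x * (2 * L ^ A) ≤ Real.sqrt x := by
      refine le_trans ?_ (e2.trans hsq)
      exact mul_le_mul_of_nonneg_right hyN (by positivity)
    have h6 : Real.sqrt x * (Real.log x * (2 * L ^ A)) ≤ x := by
      calc _ ≤ Real.sqrt x * Real.sqrt x := mul_le_mul_of_nonneg_left h5 (Real.sqrt_nonneg _)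
        _ = x := Real.mul_self_sqrt hx0.le
    rw [hc, div_mul_div_comm, one_mul, le_div_iff₀ (by positivity)]
    calc Real.sqrt x * (2 * L ^ A * Real.log x) = Real.sqrt x * (Real.log x * (2 * L ^ A)) := by ring
      _ ≤ x := h6
  have hΔ' : ∀ ν ∈ S, c * (x / Real.log x) ≤ ‖∑ p ∈ T', a p * XP d K io j 0 p ν‖ := by
    intro ν hν
    have h5 := hΔ ν hν
    have h6 : ∑ p ∈ T, a p * XP d K io j 0 p ν = ∑ p ∈ T', a p * XP d K io j 0 p ν +
        ∑ p ∈ T.filter (fun p => ¬ x < p ^ 2), a p * XP d K io j 0 p ν :=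
      (sum_filter_add_sum_filter_not T _ _).symm
    have h7 : ‖∑ p ∈ T.filter (fun p => ¬ x < p ^ 2), a p * XP d K io j 0 p ν‖ ≤ Real.sqrt x := by
      have h8 : (T.filter (fun p => ¬ x < p ^ 2)).card ≤ Nat.sqrt x := by
        have : T.filter (fun p => ¬ x < p ^ 2) ⊆ Icc 1 (Nat.sqrt x) := by
          intro p hp
          rw [mem_filter, not_lt] at hp
          rw [mem_Icc]
          exact ⟨(hT p hp.1).1.1.one_le, Nat.le_sqrt'.2 hp.2⟩
        simpa using card_le_card this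
      refine (norm_sum_le _ _).trans ?_
      calc _ ≤ ∑ p ∈ T.filter (fun p => ¬ x < p ^ 2), (1 : ℝ) := by
            apply sum_le_sum
            intro p hp
            rw [norm_mul]
            exact mul_le_one₀ (ha p (mem_filter.1 hp).1) (norm_nonneg _) (XP_norm d K io j 0 p ν)
        _ = ((T.filter (fun p => ¬ x < p ^ 2)).card : ℝ) := by rw [sum_const, nsmul_eq_mul, mul_one]
        _ ≤ (Nat.sqrt x : ℝ) := by exact_mod_cast h8
        _ ≤ Real.sqrt x := Real.nat_sqrt_le_real_sqrt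
    have h8 : ‖∑ p ∈ T, a p * XP d K io j 0 p ν‖ ≤ ‖∑ p ∈ T', a p * XP d K io j 0 p ν‖ +
        ‖∑ p ∈ T.filter (fun p => ¬ x < p ^ 2), a p * XP d K io j 0 p ν‖ := by
      rw [h6]; exact norm_add_le _ _
    have h9 : 1 / L ^ A * (x / Real.log x) = 2 * (c * (x / Real.log x)) := by
      rw [hc]
      field_simp
    linarith
  -- the root
  obtain ⟨h, hh1, hh2⟩ := exists_root n (x ^ k) hn0
  have hNh : N ^ 3 < h + 1 := by
    have h5 : N ^ (3 * n) ≤ x ^ k := by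
      have h6 : ((N : ℝ)) ^ (3 * n) ≤ (x : ℝ) ^ k := by
        calc ((N : ℝ)) ^ (3 * n) = (N : ℝ) ^ (((3 * n : ℕ)) : ℝ) := (Real.rpow_natCast _ _).symm
          _ ≤ (N : ℝ) ^ (C1 * k) := by
              apply Real.rpow_le_rpow_of_exponent_le (by exact_mod_cast (by omega : 1 ≤ N))
              push_cast
              exact hk'
          _ = ((N : ℝ) ^ C1) ^ k := by rw [Real.rpow_mul hN0.le, Real.rpow_natCast]
          _ ≤ (x : ℝ) ^ k := pow_le_pow_left₀ (by positivity) hx1 k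
      exact_mod_cast h6
    have h6 : (N ^ 3) ^ n < (h + 1) ^ n := by
      rw [← pow_mul]
      exact lt_of_le_of_lt h5 hh2
    exact lt_of_pow_lt_pow_left₀ n (Nat.zero_le _) h6
  have hfin' := fb_finU d K io j hd hdodd hj x k N h (n ^ n) rfl (by omega) hGx T'
    (fun p hp => ⟨(hT p (mem_filter.1 hp).1).1,
    (hT p (mem_filter.1 hp).1).2, (mem_filter.1 hp).2⟩) a (fun p hp => ha p (mem_filter.1 hp).1)
    hh2 S hS hS2 (c * (x / Real.log x)) (by positivity) hΔ'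
  -- bounds for the quantities
  have hh1' : 1 ≤ h := by
    have : 1 ≤ N ^ 3 := Nat.one_le_pow _ _ (by omega)
    omega
  have ht : (((T'.card ^ k : ℕ)) : ℝ) ≤ Cπ ^ k * (x / Real.log x) ^ k := by
    push_cast
    rw [← mul_pow]
    apply pow_le_pow_left₀ (Nat.cast_nonneg _)
    have h5 := hbt x 1 le_rfl (by rw [one_pow]; omega) (by omega)
    rw [Nat.totient_one, Nat.cast_one, one_mul] at h5
    refine le_trans ?_ h5
    have h6 : T' ⊆ (Icc 1 x).filter (fun p : ℕ => p.Prime ∧ 1 ∣ p - 1) := by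
      intro p hp
      have h7 := hT p (mem_filter.1 hp).1
      rw [mem_filter, mem_Icc]
      exact ⟨⟨h7.1.1.one_le, h7.2⟩, h7.1.1, one_dvd _⟩
    exact_mod_cast card_le_card h6
  have hbox : (((2 * h + 1) ^ n : ℕ) : ℝ) ≤ 3 ^ n * (x : ℝ) ^ k := by
    have h5 : (2 * h + 1) ^ n ≤ 3 ^ n * x ^ k := by
      calc (2 * h + 1) ^ n ≤ (3 * h) ^ n := Nat.pow_le_pow_left (by omega) n
        _ = 3 ^ n * h ^ n := mul_pow _ _ _
        _ ≤ 3 ^ n * x ^ k := Nat.mul_le_mul_left _ hh1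
    exact_mod_cast h5
  have hX : (2 * (n * (N ^ 2 * (2 * h + 1) ^ (n - 1)) : ℕ) : ℝ) ≤ 3 ^ n * (x : ℝ) ^ k * (2 * n / N) := by
    have h5 : N * (2 * (n * (N ^ 2 * (2 * h + 1) ^ (n - 1)))) ≤ 2 * n * (2 * h + 1) ^ n := by
      have h6 : (2 * h + 1) ^ n = (2 * h + 1) ^ (n - 1) * (2 * h + 1) := by
        rw [← pow_succ, Nat.sub_add_cancel (Nat.pos_of_ne_zero hn0)]
      calc N * (2 * (n * (N ^ 2 * (2 * h + 1) ^ (n - 1)))) =
          2 * n * ((2 * h + 1) ^ (n - 1) * N ^ 3) := by ring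
        _ ≤ 2 * n * ((2 * h + 1) ^ (n - 1) * (2 * h + 1)) := by
            apply Nat.mul_le_mul_left
            apply Nat.mul_le_mul_left
            omega
        _ = _ := by rw [h6]
    have h7 : (N : ℝ) * (2 * ((n * (N ^ 2 * (2 * h + 1) ^ (n - 1)) : ℕ) : ℝ)) ≤
        2 * n * (((2 * h + 1) ^ n : ℕ) : ℝ) := by exact_mod_cast h5
    have h8 : (N : ℝ) * (2 * ((n * (N ^ 2 * (2 * h + 1) ^ (n - 1)) : ℕ) : ℝ)) ≤
        2 * n * (3 ^ n * (x : ℝ) ^ k) := h7.trans (mul_le_mul_of_nonneg_left hbox (by positivity))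
    have h9 : 3 ^ n * (x : ℝ) ^ k * (2 * n / N) = (2 * n * (3 ^ n * (x : ℝ) ^ k)) / N := by ring
    rw [h9, le_div_iff₀ hN0, mul_comm]
    exact h8
  set s : ℝ := (S.card : ℝ) with hs
  have hs0 : 0 ≤ s := Nat.cast_nonneg _
  set y := Real.log x with hyd
  generalize hLLdef : ((((n ^ n * n ^ Nat.log 2 (n ^ n) * (4 * d)) *
        d ^ Nat.log 2 (2 * n ^ n * d) : ℕ) : ℝ)) = LL at hfin' hR
  have hLL0 : 0 ≤ LL := by rw [← hLLdef]; positivity
  generalize hMdef : (((2 * k + 1) ^ k : ℕ) : ℝ) = M at hfin' hR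
  have hM0 : 0 ≤ M := by rw [← hMdef]; positivity
  set R : ℝ := LL ^ 2 * M * 3 ^ n * Cπ ^ k / c ^ (2 * k) with hRdef
  have hR0 : 0 ≤ R := by positivity
  have hineq : s ^ 2 ≤ R * y ^ k * (s + s ^ 2 * (2 * n / N)) := by
    have h5 : (s * (c * (x / y)) ^ k) ^ 2 ≤ LL ^ 2 * ((M * (Cπ ^ k * (x / y) ^ k)) *
        (s * (3 ^ n * (x : ℝ) ^ k) + s ^ 2 * (3 ^ n * (x : ℝ) ^ k * (2 * n / N)))) := by
      refine hfin'.trans ?_
      apply mul_le_mul_of_nonneg_left _ (by positivity)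
      apply mul_le_mul
      · exact mul_le_mul_of_nonneg_left ht hM0
      · apply add_le_add
        · exact mul_le_mul_of_nonneg_left hbox hs0
        · exact mul_le_mul_of_nonneg_left hX (by positivity)
      · positivity
      · positivity
    have hxy : 0 < (x : ℝ) / y := by positivity
    have h6 : (s * (c * (x / y)) ^ k) ^ 2 = s ^ 2 * (c ^ (2 * k) * ((x / y) ^ k * (x / y) ^ k)) := by
      rw [mul_pow, mul_pow, mul_pow]; ring
    have h7 : (x : ℝ) ^ k = (x / y) ^ k * y ^ k := by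
      rw [← mul_pow, div_mul_cancel₀ _ hy.ne']
    have h8 : LL ^ 2 * ((M * (Cπ ^ k * (x / y) ^ k)) *
        (s * (3 ^ n * (x : ℝ) ^ k) + s ^ 2 * (3 ^ n * (x : ℝ) ^ k * (2 * n / N)))) =
        (LL ^ 2 * M * 3 ^ n * Cπ ^ k * y ^ k * (s + s ^ 2 * (2 * n / N))) *
          ((x / y) ^ k * (x / y) ^ k) := by
      rw [h7]; ring
    rw [h6, h8, ← mul_assoc] at h5
    have h9 := le_of_mul_le_mul_right h5 (by positivity)
    have hck : 0 < c ^ (2 * k) := by positivity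
    calc s ^ 2 = (s ^ 2 * c ^ (2 * k)) / c ^ (2 * k) := by field_simp
      _ ≤ (LL ^ 2 * M * 3 ^ n * Cπ ^ k * y ^ k * (s + s ^ 2 * (2 * n / N))) / c ^ (2 * k) :=
          div_le_div_of_nonneg_right h9 hck.le
      _ = _ := by rw [hRdef]; ring
  have hRE : R * y ^ k ≤ Real.exp (1 / 2 * L ^ (1 - κ / 2)) := hR.trans (Real.exp_le_exp.2 hE)
  have hfinal := fba_real s R y (y ^ k) (2 * n / N) hs0 (by positivity) hR0 hy.le hineq (by
    calc R * y ^ k * (2 * n / N) ≤ Real.exp (1 / 2 * L ^ (1 - κ / 2)) * (2 * L / N) := by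
          apply mul_le_mul hRE _ (by positivity) (by positivity)
          apply div_le_div_of_nonneg_right _ hN0.le
          linarith
      _ ≤ Real.exp (1 / 2 * L) * (2 * L / N) := by
          apply mul_le_mul_of_nonneg_right _ (by positivity)
          apply Real.exp_le_exp.2
          linarith
      _ = (N : ℝ) ^ (1 / 2 : ℝ) * (2 * L / N) := by
          rw [Real.rpow_def_of_pos hN0, mul_comm (1 / 2 : ℝ) L]
      _ ≤ (N : ℝ) ^ (1 / 2 : ℝ) * ((N : ℝ) ^ (1 / 2 : ℝ) / 2 / N) := by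
          apply mul_le_mul_of_nonneg_left _ (by positivity)
          apply div_le_div_of_nonneg_right _ hN0.le
          linarith
      _ = ((N : ℝ) ^ (1 / 2 : ℝ) * (N : ℝ) ^ (1 / 2 : ℝ)) / 2 / N := by ring
      _ = 1 / 2 := by
          rw [← Real.rpow_add hN0]
          norm_num
          field_simp)
  calc s ≤ 2 * (R * y ^ k) := hfinal
    _ ≤ Real.exp (Real.log 2) * Real.exp (1 / 2 * L ^ (1 - κ / 2)) := by
        rw [Real.exp_log (by norm_num)]
        linarith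
    _ = Real.exp (Real.log 2 + 1 / 2 * L ^ (1 - κ / 2)) := (Real.exp_add _ _).symm
    _ ≤ _ := Real.exp_le_exp.2 (by linarith)

end Pool.Agent.KS6_18
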