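import Mathlib

set_option autoImplicit false

/-! Decomposition of integers, representatives of classes modulo powers. -/

namespace Pool.Agent.KS6_18

open Finset

/-- the class modulo `l`-th powers for all primes `l ∣ m` -/
def rel (m ν ν' : ℕ) : Prop :=
  ∀ q l : ℕ, q.Prime → l.Prime → l ∣ m → ν.factorization q ≡ ν'.factorization q [MOD l]

lemma rel_symm {m ν ν' : ℕ} (h : rel m ν ν') : rel m ν' ν := fun q l hq hl hm => (h q l hq hl hm).symm

lemma rel_trans {m a b c : ℕ} (h : rel m a b) (h' : rel m b c) : rel m a c :=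
  fun q l hq hl hm => (h q l hq hl hm).trans (h' q l hq hl hm)

lemma rel_refl (m a : ℕ) : rel m a a := fun _ _ _ _ _ => rfl

lemma cover (m : ℕ) (X : Finset ℕ) : ∃ S ⊆ X, (∀ ν ∈ S, ∀ ν' ∈ S, ν ≠ ν' → ¬ rel m ν ν') ∧
    ∀ x ∈ X, ∃ s ∈ S, rel m x s := by
  classical
  refine ⟨X.filter (fun x => ∀ y ∈ X, rel m x y → x ≤ y), filter_subset _ _, ?_, ?_⟩
  · intro ν hν ν' hν' hne hr
    rw [mem_filter] at hν hν'
    exact hne (le_antisymm (hν.2 ν' hν'.1 hr) (hν'.2 ν hν.1 (rel_symm hr)))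
  · intro x hx
    have hne : (X.filter (fun y => rel m x y)).Nonempty := ⟨x, mem_filter.2 ⟨hx, rel_refl m x⟩⟩
    refine ⟨(X.filter (fun y => rel m x y)).min' hne, ?_, ?_⟩
    · have h1 := min'_mem _ hne
      rw [mem_filter] at h1 ⊢
      refine ⟨h1.1, fun y hy hr => ?_⟩
      exact min'_le _ _ (mem_filter.2 ⟨hy, rel_trans h1.2 hr⟩)
    · exact (mem_filter.1 (min'_mem _ hne)).2

lemma perfect (l n : ℕ) (hl : l ≠ 0) (hn : n ≠ 0) (h : ∀ q, q.Prime → l ∣ n.factorization q) :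
    ∃ u : ℕ, u ^ l = n := by
  refine ⟨n.factorization.prod (fun q e => q ^ (e / l)), ?_⟩
  conv_rhs => rw [← Nat.prod_factorization_pow_eq_self hn]
  rw [Finsupp.prod, Finsupp.prod, ← prod_pow]
  apply prod_congr rfl
  intro q hq
  rw [← pow_mul, Nat.div_mul_cancel]
  exact h q (Nat.prime_of_mem_primeFactors (by rwa [← Nat.support_factorization]))

lemma rel_quot {m ν ν' : ℕ} (hν : ν ≠ 0) (hν' : ν' ≠ 0) (h : rel m ν ν') {l : ℕ} (hl : l.Prime)
    (hlm : l ∣ m) : ∃ y : ℚ, (ν : ℚ) = ν' * y ^ l := by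
  obtain ⟨u, hu⟩ := perfect l (ν * ν' ^ (l - 1)) hl.ne_zero
    (mul_ne_zero hν (pow_ne_zero _ hν')) (by
      intro q hq
      rw [Nat.factorization_mul hν (pow_ne_zero _ hν'), Nat.factorization_pow]
      simp only [Finsupp.coe_add, Finsupp.coe_smul, Pi.add_apply, Pi.smul_apply, smul_eq_mul]
      have h1 := h q l hq hl hlm
      have h2 : ν.factorization q + (l - 1) * ν'.factorization q ≡
          ν'.factorization q + (l - 1) * ν'.factorization q [MOD l] := h1.add_right _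
      have h3 : ν'.factorization q + (l - 1) * ν'.factorization q = l * ν'.factorization q := by
        obtain ⟨t, rfl⟩ : ∃ t, l = t + 1 := ⟨l - 1, by have := hl.two_le; omega⟩
        rw [Nat.add_sub_cancel]; ring
      rw [h3] at h2
      exact (Nat.modEq_zero_iff_dvd).1 (h2.trans ((Nat.modEq_zero_iff_dvd).2 (dvd_mul_right _ _))))
  refine ⟨(u : ℚ) / ν', ?_⟩
  have h0 : (ν' : ℚ) ≠ 0 := by exact_mod_cast hν'
  have h1 : ((u : ℚ)) ^ l = ν * (ν' : ℚ) ^ (l - 1) := by exact_mod_cast hu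
  rw [div_pow, h1]
  have h2 : (ν' : ℚ) ^ l = ν' ^ (l - 1) * ν' := by
    rw [← pow_succ, Nat.sub_add_cancel hl.one_lt.le]
  rw [h2]
  field_simp

/-- decomposition into a small part, a power and a rough part -/
lemma decomp (Z m : ℕ) (hm : m ≠ 0) (n : ℤ) (hn : n ≠ 0) : ∃ (s : ℤ) (t ν : ℕ), n = s * (t : ℤ) ^ m * ν ∧
    s.natAbs ≤ Z.factorial ^ m ∧ s ≠ 0 ∧ t ≠ 0 ∧ ν ≠ 0 ∧ ν ≤ n.natAbs ∧
    (∀ q : ℕ, q.Prime → (q : ℤ) ∣ s → q ≤ Z) ∧ (∀ q : ℕ, q.Prime → q ∣ t → q ≤ Z) ∧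
    (∀ q ∈ ν.primeFactors, Z < q) := by
  classical
  set a := n.natAbs with ha
  have ha0 : a ≠ 0 := Int.natAbs_ne_zero.2 hn
  set P := a.primeFactors.filter (fun q => q ≤ Z) with hP
  set P' := a.primeFactors.filter (fun q => ¬ q ≤ Z) with hP'
  have hPp : ∀ q ∈ P, q.Prime ∧ q ≤ Z := fun q hq =>
    ⟨Nat.prime_of_mem_primeFactors (mem_filter.1 hq).1, (mem_filter.1 hq).2⟩
  have hP'p : ∀ q ∈ P', q.Prime ∧ Z < q := fun q hq =>
    ⟨Nat.prime_of_mem_primeFactors (mem_filter.1 hq).1, not_le.1 (mem_filter.1 hq).2⟩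
  set u := ∏ q ∈ P, q ^ (a.factorization q % m) with hu
  set t := ∏ q ∈ P, q ^ (a.factorization q / m) with ht
  set ν := ∏ q ∈ P', q ^ a.factorization q with hν
  have hprod : a = u * t ^ m * ν := by
    conv_lhs => rw [← Nat.prod_factorization_pow_eq_self ha0]
    rw [Finsupp.prod, Nat.support_factorization, hu, ht, hν, ← prod_pow, ← prod_mul_distrib,
      ← prod_filter_mul_prod_filter_not a.primeFactors (fun q => q ≤ Z)]
    congr 1
    apply prod_congr rfl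
    intro q _
    rw [← pow_mul, ← pow_add]
    congr 1
    rw [mul_comm (a.factorization q / m) m]
    exact (Nat.mod_add_div _ _).symm
  have hu0 : u ≠ 0 := prod_ne_zero_iff.2 fun q hq => pow_ne_zero _ (hPp q hq).1.ne_zero
  have ht0 : t ≠ 0 := prod_ne_zero_iff.2 fun q hq => pow_ne_zero _ (hPp q hq).1.ne_zero
  have hν0 : ν ≠ 0 := prod_ne_zero_iff.2 fun q hq => pow_ne_zero _ (hP'p q hq).1.ne_zero
  have hdvd_prod : ∀ (R : Finset ℕ) (e : ℕ → ℕ), (∀ q ∈ R, q.Prime) → ∀ p : ℕ, p.Prime →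
      p ∣ ∏ q ∈ R, q ^ e q → p ∈ R := by
    intro R e hR p hp h
    obtain ⟨q, hq, hpq⟩ := (hp.prime.dvd_finsetProd_iff _).1 h
    have := (Nat.prime_dvd_prime_iff_eq hp (hR q hq)).1 (hp.dvd_of_dvd_pow hpq)
    rwa [this]
  refine ⟨n.sign * u, t, ν, ?_, ?_, ?_, ht0, hν0, ?_, ?_, ?_, ?_⟩
  · conv_lhs => rw [← Int.sign_mul_natAbs n, ← ha, hprod]
    push_cast
    ring
  · rw [Int.natAbs_mul, Int.natAbs_sign_of_ne_zero hn, one_mul, Int.natAbs_natCast]
    calc u ≤ ∏ q ∈ P, q ^ m := by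
            apply prod_le_prod'
            intro q hq
            exact Nat.pow_le_pow_right (hPp q hq).1.pos (Nat.mod_lt _ (Nat.pos_of_ne_zero hm)).le
        _ = (∏ q ∈ P, q) ^ m := prod_pow _ _ _
        _ ≤ Z.factorial ^ m := by
            apply Nat.pow_le_pow_left
            rw [← prod_Ico_id_eq_factorial]
            apply prod_le_prod_of_subset_of_one_le'
            · intro q hq
              exact mem_Ico.2 ⟨(hPp q hq).1.one_le, Nat.lt_succ_iff.2 (hPp q hq).2⟩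
            · intro q hq _
              exact (mem_Ico.1 hq).1
  · exact mul_ne_zero (by rwa [Ne, Int.sign_eq_zero_iff_zero]) (by exact_mod_cast hu0)
  · rw [hprod]
    exact Nat.le_mul_of_pos_left _ (Nat.pos_of_ne_zero (mul_ne_zero hu0 (pow_ne_zero _ ht0)))
  · intro q hq hdvd
    have h1 : q ∣ u := by
      have h2 := Int.natAbs_dvd_natAbs.2 hdvd
      rwa [Int.natAbs_mul, Int.natAbs_sign_of_ne_zero hn, one_mul, Int.natAbs_natCast,
        Int.natAbs_natCast] at h2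
    exact (hPp q (hdvd_prod P _ (fun q hq => (hPp q hq).1) q hq h1)).2
  · intro q hq hdvd
    exact (hPp q (hdvd_prod P _ (fun q hq => (hPp q hq).1) q hq hdvd)).2
  · intro q hq
    exact (hP'p q (hdvd_prod P' _ (fun q hq => (hP'p q hq).1) q (Nat.prime_of_mem_primeFactors hq)
      (Nat.dvd_of_mem_primeFactors hq))).2

end Pool.Agent.KS6_18
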