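import Mathlib
import Pool.Agent.KS6_18.FBA
import Pool.Agent.KS6_18.Dec

set_option autoImplicit false

/-! Few classes of integers `n` have a large sum over the primes of the local factors at `d`. -/

namespace Pool.Agent.KS6_18

open Finset MulChar NumberField IsCyclotomicExtension Module Filter

open Classical in
/-- the local factor -/
noncomputable def gl (l p : ℕ) (n : ℤ) : ℝ :=
  if (n : ZMod p) ^ ((p - 1) / l) = 1 then (l : ℝ) - 1 else -1

lemma gl_abs {l p : ℕ} (hl : 2 ≤ l) (n : ℤ) : |gl l p n| ≤ l := by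
  have hl' : (2 : ℝ) ≤ l := by exact_mod_cast hl
  unfold gl
  split_ifs
  · rw [abs_le]; constructor <;> linarith
  · rw [abs_neg, abs_one]; linarith

/-- the fixed embedding -/
noncomputable def IO (d : ℕ) : 𝓞 (CyclotomicField d ℚ) →+* ℂ :=
  (Classical.arbitrary (CyclotomicField d ℚ →+* ℂ)).comp (algebraMap _ _)

section
variable (d : ℕ) [NeZero d]

instance instCyc : IsCyclotomicExtension {d} ℚ (CyclotomicField d ℚ) :=
  haveI : NeZero (d : ℚ) := ⟨by exact_mod_cast NeZero.ne d⟩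
  CyclotomicField.isCyclotomicExtension d ℚ

/-- the character of order `l` -/
noncomputable def XY (l p : ℕ) (n : ℤ) : ℂ := XX d (CyclotomicField d ℚ) (IO d) l p n

lemma gl_sum {l p : ℕ} (hl : l ∈ d.primeFactors) (hp : p.Prime ∧ d ∣ p - 1) (n : ℤ)
    (hn : ¬ (p : ℤ) ∣ n) : ((gl l p n : ℝ) : ℂ) = ∑ j ∈ Ico 1 l, XY d l p n ^ j := by
  have hl1 := Nat.prime_of_mem_primeFactors hl
  have hmu : XY d l p n ^ l = 1 := XX_mu d _ (IO d) hl hp n hn
  have hone := XX_eq_one d (CyclotomicField d ℚ) (IO d) hl hp n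
  by_cases h : (n : ZMod p) ^ ((p - 1) / l) = 1
  · have h1 : XY d l p n = 1 := hone.2 h
    unfold gl
    rw [if_pos h, h1]
    simp only [one_pow, sum_const, Nat.card_Ico, nsmul_eq_mul, mul_one]
    rw [Nat.cast_sub hl1.one_lt.le]
    push_cast
    rfl
  · have h1 : XY d l p n ≠ 1 := fun h' => h (hone.1 h')
    unfold gl
    rw [if_neg h]
    have h2 : (∑ j ∈ range l, XY d l p n ^ j) = 0 := by
      have h3 := mul_neg_geom_sum (XY d l p n) l
      rw [hmu, sub_self] at h3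
      exact (mul_eq_zero.1 h3).resolve_left (sub_ne_zero.2 (Ne.symm h1))
    rw [range_eq_Ico, sum_eq_sum_Ico_succ_bot hl1.pos, pow_zero] at h2
    push_cast
    linear_combination -h2

/-- the extension of a choice of exponents -/
def jx {d : ℕ} (jp : (l : ℕ) → l ∈ d.primeFactors → ℕ) (l : ℕ) : ℕ :=
  if h : l ∈ d.primeFactors then jp l h else 1

lemma prod_gl {p : ℕ} (hp : p.Prime ∧ d ∣ p - 1) (n : ℤ) (hn : ¬ (p : ℤ) ∣ n) :
    ((∏ l ∈ d.primeFactors, gl l p n : ℝ) : ℂ) =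
      ∑ jp ∈ d.primeFactors.pi (fun l => Ico 1 l), ∏ l ∈ d.primeFactors, XY d l p n ^ jx jp l := by
  push_cast
  rw [prod_congr rfl (fun l hl => gl_sum d hl hp n hn), prod_sum]
  apply sum_congr rfl
  intro jp _
  rw [← prod_attach d.primeFactors (fun l => XY d l p n ^ jx jp l)]
  apply prod_congr rfl
  intro x _
  unfold jx
  rw [dif_pos x.2]

/-- the sign of the quadratic reciprocity law -/
def sgr (c p : ℕ) : ℤ := if c % 4 = 3 ∧ p % 4 = 3 then -1 else 1

lemma recip_sgr {ν p : ℕ} (hν : ν % 2 = 1) (hp : p % 2 = 1) :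
    jacobiSym (ν : ℤ) p = sgr (ν % 4) p * jacobiSym (p : ℤ) ν := by
  unfold sgr
  have h1 : ν % 4 = 1 ∨ ν % 4 = 3 := by omega
  have h2 : p % 4 = 1 ∨ p % 4 = 3 := by omega
  rw [Nat.mod_mod]
  rcases h1 with h1 | h1
  · rw [if_neg (by omega), one_mul]
    exact jacobiSym.quadratic_reciprocity_one_mod_four h1 (Nat.odd_iff.2 hp)
  · rcases h2 with h2 | h2
    · rw [if_neg (by omega), one_mul]
      exact jacobiSym.quadratic_reciprocity_one_mod_four' (Nat.odd_iff.2 hν) h2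
    · rw [if_pos ⟨h1, h2⟩, neg_one_mul]
      exact jacobiSym.quadratic_reciprocity_three_mod_four h1 h2

lemma sgr_norm (c p : ℕ) : ‖((sgr c p : ℤ) : ℂ)‖ = 1 := by
  unfold sgr
  split_ifs <;> simp

/-- the weights -/
noncomputable def wt (b : ℕ) (w : ℕ → ℝ) (s : ℤ) (c : ℕ)
    (jp : (l : ℕ) → l ∈ d.primeFactors → ℕ) (p : ℕ) : ℂ :=
  (w p : ℂ) * (∏ l ∈ d.primeFactors, XY d l p s ^ jx jp l) * ((jacobiSym s p : ℤ) : ℂ) ^ b *
    ((sgr c p : ℤ) : ℂ) ^ b

lemma wt_norm (b : ℕ) (w : ℕ → ℝ) (s : ℤ) (c : ℕ) (jp : (l : ℕ) → l ∈ d.primeFactors → ℕ) (p : ℕ)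
    (hw : |w p| ≤ 1) : ‖wt d b w s c jp p‖ ≤ 1 := by
  unfold wt
  rw [norm_mul, norm_mul, norm_mul, norm_pow, norm_pow, sgr_norm, one_pow, mul_one, norm_prod,
    Complex.norm_real, Real.norm_eq_abs]
  have h2 : ‖((jacobiSym s p : ℤ) : ℂ)‖ ≤ 1 := by
    rcases jacobiSym.trichotomy s p with h | h | h <;> rw [h] <;> simp
  refine mul_le_one₀ (mul_le_one₀ hw (prod_nonneg fun _ _ => norm_nonneg _) ?_) (by positivity)
    (pow_le_one₀ (norm_nonneg _) h2)
  apply prod_le_one (fun l _ => norm_nonneg _)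
  intro l hl
  rw [norm_pow]
  exact pow_le_one₀ (norm_nonneg _) (XX_norm d _ (IO d) hl _)

/-- the decomposition of the summand -/
lemma term_dec (b : ℕ) (hb : b ≤ 1) (hdb : 1 < d ∨ b = 1) (w : ℕ → ℝ) (n s : ℤ) (t ν : ℕ)
    (hn : n = s * (t : ℤ) ^ (d * 2 ^ b) * ν) (hs : s ≠ 0) (jp : (l : ℕ) → l ∈ d.primeFactors → ℕ)
    (hjp : ∀ l h, 1 ≤ jp l h)
    (Z : ℕ) (hZ : 2 ≤ Z) (hsZ : ∀ q : ℕ, q.Prime → (q : ℤ) ∣ s → q ≤ Z)
    (htZ : ∀ q : ℕ, q.Prime → q ∣ t → q ≤ Z) (hν : ν % 2 = 1) {p : ℕ} (hp : p.Prime ∧ d ∣ p - 1)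
    (hpZ : Z < p) :
    (if (p : ℤ) ∣ n then 0 else (w p : ℂ) * (∏ l ∈ d.primeFactors, XY d l p n ^ jx jp l) *
      ((jacobiSym n p : ℤ) : ℂ) ^ b) =
    wt d b w s (ν % 4) jp p * XP d (CyclotomicField d ℚ) (IO d) (jx jp) b p ν := by
  have hp' : Fact p.Prime := ⟨hp.1⟩
  have hpp : Prime (p : ℤ) := Nat.prime_iff_prime_int.1 hp.1
  have hps : ¬ (p : ℤ) ∣ s := fun h => absurd (hsZ p hp.1 h) (by omega)
  have hpt : ¬ (p : ℤ) ∣ (t : ℤ) := fun h =>
    absurd (htZ p hp.1 (Int.natCast_dvd_natCast.1 h)) (by omega)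
  by_cases hpn : (p : ℤ) ∣ n
  · rw [if_pos hpn]
    have hpν : (p : ℤ) ∣ (ν : ℤ) := by
      rw [hn] at hpn
      rcases hpp.dvd_mul.1 hpn with h | h
      · rcases hpp.dvd_mul.1 h with h | h
        · exact absurd h hps
        · exact absurd (hpp.dvd_of_dvd_pow h) hpt
      · exact h
    have h0 : XP d (CyclotomicField d ℚ) (IO d) (jx jp) b p ν = 0 := by
      unfold XP
      rcases hdb with hd1 | hb1
      · obtain ⟨l, hl⟩ : d.primeFactors.Nonempty := Nat.nonempty_primeFactors.2 hd1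
        rw [prod_eq_zero hl, zero_mul]
        rw [XX_zero d _ (IO d) _ hpν, zero_pow]
        unfold jx
        rw [dif_pos hl]
        have := hjp l hl
        omega
      · have h1 : jacobiSym (p : ℤ) ν = 0 := by
          have hν0 : NeZero ν := ⟨by omega⟩
          rw [jacobiSym.eq_zero_iff_not_coprime]
          intro hco
          have h2 := Nat.dvd_gcd (dvd_refl p) (Int.natCast_dvd_natCast.1 hpν)
          have h3 : (Int.gcd (p : ℤ) (ν : ℤ)) = Nat.gcd p ν := rfl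
          rw [h3] at hco
          rw [hco] at h2
          exact hp.1.one_lt.ne' (Nat.dvd_one.1 h2)
        rw [h1, hb1]
        simp
    rw [h0, mul_zero]
  · rw [if_neg hpn]
    unfold wt XP
    have hX : ∀ l ∈ d.primeFactors, XY d l p n = XY d l p s * XX d _ (IO d) l p ν := by
      intro l hl
      unfold XY
      rw [hn, XX_mul d _ (IO d) hp, XX_mul d _ (IO d) hp]
      have h1 : XX d (CyclotomicField d ℚ) (IO d) l p ((t : ℤ) ^ (d * 2 ^ b)) = 1 := by
        obtain ⟨e, he⟩ := Nat.dvd_of_mem_primeFactors hl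
        have h2 : (t : ℤ) ^ (d * 2 ^ b) = ((t : ℤ) ^ (e * 2 ^ b)) ^ l := by
          rw [← pow_mul]
          congr 1
          rw [he]; ring
        have h3 : ∀ m : ℤ, ∀ k : ℕ, XX d (CyclotomicField d ℚ) (IO d) l p (m ^ k) =
            XX d (CyclotomicField d ℚ) (IO d) l p m ^ k := by
          intro m k
          induction k with
          | zero => rw [pow_zero, pow_zero, XX_one d _ (IO d) hp]
          | succ k ih => rw [pow_succ, XX_mul d _ (IO d) hp, ih, pow_succ]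
        rw [h2, h3]
        exact XX_mu d _ (IO d) hl hp _ (fun h => hpt (hpp.dvd_of_dvd_pow h))
      rw [h1, mul_one]
    have hJ : ((jacobiSym n p : ℤ) : ℂ) ^ b = ((jacobiSym s p : ℤ) : ℂ) ^ b *
        ((sgr (ν % 4) p : ℤ) : ℂ) ^ b * ((jacobiSym (p : ℤ) ν : ℤ) : ℂ) ^ b := by
      rcases Nat.le_one_iff_eq_zero_or_eq_one.1 hb with h0 | h1
      · rw [h0]; simp
      · rw [h1, pow_one, pow_one, pow_one, pow_one]
        have hp2 : p % 2 = 1 := by
          rcases hp.1.eq_two_or_odd with h | h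
          · omega
          · exact h
        have h2 : jacobiSym ((t : ℤ) ^ (d * 2 ^ b)) p = 1 := by
          rw [h1, pow_one, pow_mul, jacobiSym.pow_left]
          have h3 : jacobiSym ((t : ℤ) ^ d) p ≠ 0 := by
            rw [Ne, ← jacobiSym.legendreSym.to_jacobiSym, legendreSym.eq_zero_iff,
              ZMod.intCast_zmod_eq_zero_iff_dvd]
            exact fun h => hpt (hpp.dvd_of_dvd_pow h)
          rcases jacobiSym.trichotomy ((t : ℤ) ^ d) p with h | h | h
          · exact absurd h h3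
          · rw [h]; rfl
          · rw [h]; rfl
        rw [hn, jacobiSym.mul_left, jacobiSym.mul_left, h2, mul_one, recip_sgr hν hp2]
        push_cast
        ring
    rw [prod_congr rfl (fun l hl => by rw [hX l hl, mul_pow]), prod_mul_distrib, hJ]
    ring

lemma x_log_large (C1 C2 M : ℝ) (hC1 : 0 < C1) (hC2 : 0 < C2) (hM : 0 ≤ M) :
    ∀ᶠ N : ℕ in atTop, ∀ x : ℕ, (N : ℝ) ^ C1 ≤ x → (x : ℝ) ≤ (N : ℝ) ^ C2 → M ≤ x / Real.log x := by
  have h1 := (isLittleO_log_rpow_atTop hC1).bound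
    (show (0 : ℝ) < 1 / (M * C2 + 1) by positivity)
  have h2 := tendsto_natCast_atTop_atTop.eventually h1
  have e1 : ∀ᶠ N : ℕ in atTop, (2 : ℝ) ≤ (N : ℝ) ^ C1 :=
    ((tendsto_rpow_atTop hC1).comp tendsto_natCast_atTop_atTop).eventually_ge_atTop _
  filter_upwards [h2, e1, eventually_ge_atTop 1] with N hN hN2 hN1 x hx1 hx2
  have hN0 : (0 : ℝ) < N := by exact_mod_cast hN1
  have hx0 : (2 : ℝ) ≤ x := hN2.trans hx1
  have hlogN : 0 ≤ Real.log N := Real.log_nonneg (by exact_mod_cast hN1)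
  rw [Real.norm_of_nonneg hlogN, Real.norm_of_nonneg (by positivity)] at hN
  have hlx : 0 < Real.log x := Real.log_pos (by linarith)
  have hlx2 : Real.log x ≤ C2 * Real.log N := by
    rw [← Real.log_rpow hN0]
    exact Real.log_le_log (by linarith) hx2
  rw [le_div_iff₀ hlx]
  have hMC : 0 ≤ M * C2 := by positivity
  calc M * Real.log x ≤ M * (C2 * Real.log N) := mul_le_mul_of_nonneg_left hlx2 hM
    _ = (M * C2) * Real.log N := by ring
    _ ≤ (M * C2 + 1) * (1 / (M * C2 + 1) * (N : ℝ) ^ C1) := by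
        apply mul_le_mul (by linarith) hN hlogN (by positivity)
    _ = (N : ℝ) ^ C1 := by field_simp
    _ ≤ x := hx1

/-- few classes have a large sum -/
theorem sm (b : ℕ) (hdodd : Odd d) (hdsq : Squarefree d) (hb : b ≤ 1) (hdb : 1 < d ∨ b = 1)
    (C1 C2 η : ℝ) (hC1 : 0 < C1) (hC2 : 0 < C2) (hη : 0 < η) :
    ∃ A : ℕ, ∀ᶠ N : ℕ in atTop, ∀ x : ℕ, (N : ℝ) ^ C1 ≤ x → (x : ℝ) ≤ (N : ℝ) ^ C2 →
      ∀ T : Finset ℕ, (∀ p ∈ T, (p.Prime ∧ d ∣ p - 1) ∧ p ≤ x) →
      ∀ w : ℕ → ℝ, (∀ p ∈ T, |w p| ≤ 1) →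
      ∃ F : Finset ℤ, (F.card : ℝ) ≤ (Real.log N) ^ A ∧
        ∀ n : ℤ, n ≠ 0 → n.natAbs ≤ N →
          η * (x / Real.log x) < |∑ p ∈ T.filter (fun p : ℕ => ¬ (p : ℤ) ∣ n),
            w p * (∏ l ∈ d.primeFactors, gl l p n) * (jacobiSym n p : ℝ) ^ b| →
          ∃ f ∈ F, f ≠ 0 ∧ ∀ l : ℕ, l.Prime → l ∣ d * 2 ^ b → ∃ y : ℚ, (n : ℚ) = f * y ^ l := by
  classical
  set J := d.primeFactors.pi (fun l => Ico 1 l) with hJ
  have hJm : ∀ jp ∈ J, ∀ l h, 1 ≤ jp l h ∧ jp l h < l := by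
    intro jp hjp l h
    rw [hJ, Finset.mem_pi] at hjp
    exact mem_Ico.1 (hjp l h)
  set η' : ℝ := η / (2 * (J.card + 1)) with hη'
  have hη'0 : 0 < η' := by positivity
  have H : ∀ jp : (l : ℕ) → l ∈ d.primeFactors → ℕ, ∃ Z A : ℕ, jp ∈ J →
      (∀ᶠ N : ℕ in atTop, ∀ x : ℕ, (N : ℝ) ^ C1 ≤ x → (x : ℝ) ≤ (N : ℝ) ^ C2 →
      ∀ T : Finset ℕ, (∀ p ∈ T, (p.Prime ∧ d ∣ p - 1) ∧ p ≤ x) →
      ∀ a : ℕ → ℂ, (∀ p ∈ T, ‖a p‖ ≤ 1) →
      ∀ S : Finset ℕ, (∀ ν ∈ S, ν ≠ 0 ∧ ν ≤ N ∧ ∀ q ∈ ν.primeFactors, Z < q) →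
      (∀ ν ∈ S, ∀ ν' ∈ S, ν ≠ ν' → ∃ q l : ℕ, q.Prime ∧ l.Prime ∧ l ∣ d * 2 ^ b ∧
        ¬ ν.factorization q ≡ ν'.factorization q [MOD l]) →
      (∀ ν ∈ S, η' * (x / Real.log x) ≤
        ‖∑ p ∈ T, a p * XP d (CyclotomicField d ℚ) (IO d) (jx jp) b p ν‖) →
      (S.card : ℝ) ≤ (Real.log N) ^ A) := by
    intro jp
    by_cases hjp : jp ∈ J
    · obtain ⟨Z, A, _, _, h⟩ := fba d (CyclotomicField d ℚ) (IO d) (jx jp) b hdodd hb (by
        intro l hl hdvd
        unfold jx at hdvd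
        rw [dif_pos hl] at hdvd
        have h1 := hJm jp hjp l hl
        exact absurd (Nat.le_of_dvd (by omega) hdvd) (by omega)) hdsq C1 C2 η' hC1 hC2 hη'0
      exact ⟨Z, A, fun _ => h⟩
    · exact ⟨0, 0, fun h => absurd h hjp⟩
  choose Zf Af hf using H
  set Zs : ℕ := 2 + ∑ jp ∈ J, Zf jp with hZs
  have hZf : ∀ jp ∈ J, Zf jp ≤ Zs := by
    intro jp hjp
    have := single_le_sum (f := Zf) (fun _ _ => Nat.zero_le _) hjp
    omega
  set As : ℕ := ∑ jp ∈ J, Af jp with hAs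
  have hAf : ∀ jp ∈ J, Af jp ≤ As := fun jp hjp =>
    single_le_sum (f := Af) (fun _ _ => Nat.zero_le _) hjp
  set m : ℕ := d * 2 ^ b with hm
  have hm0 : m ≠ 0 := mul_ne_zero (NeZero.ne d) (by positivity)
  set B : ℕ := Zs.factorial ^ m with hB
  set R : ℕ := (2 * B + 1) * (4 * J.card) with hR
  refine ⟨As + 1, ?_⟩
  have e1 : ∀ᶠ N : ℕ in atTop, ∀ jp ∈ J, _ := (eventually_all_finset J).2 (fun jp hjp => hf jp hjp)
  have e2 := x_log_large C1 C2 (2 / η * (Zs * d)) hC1 hC2 (by positivity)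
  have e3 : ∀ᶠ N : ℕ in atTop, max 1 (R : ℝ) ≤ Real.log N := log_tend.eventually_ge_atTop _
  filter_upwards [e1, e2, e3] with N h1 h2 h3
  intro x hx1 hx2 T hT w hw
  have hlN : 1 ≤ Real.log N := (le_max_left _ _).trans h3
  have hxl0 : 0 ≤ (x : ℝ) / Real.log x := by
    have h4 := h2 x hx1 hx2
    exact le_trans (by positivity) h4
  set T2 := T.filter (fun p => Zs < p) with hT2
  set X : ℤ → ℕ → ((l : ℕ) → l ∈ d.primeFactors → ℕ) → Finset ℕ := fun s c jp =>
    (Icc 1 N).filter (fun ν => (∀ q ∈ ν.primeFactors, Zs < q) ∧ η' * (x / Real.log x) ≤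
      ‖∑ p ∈ T2, wt d b w s c jp p * XP d (CyclotomicField d ℚ) (IO d) (jx jp) b p ν‖) with hX
  choose S hSX hSp hSc using fun s c jp => cover m (X s c jp)
  have hScard : ∀ s c, ∀ jp ∈ J, ((S s c jp).card : ℝ) ≤ (Real.log N) ^ As := by
    intro s c jp hjp
    have h4 := h1 jp hjp x hx1 hx2 T2 (fun p hp => hT p (mem_filter.1 hp).1)
      (wt d b w s c jp) (fun p hp => wt_norm d b w s c jp p (hw p (mem_filter.1 hp).1)) (S s c jp)
      (by
        intro ν hν
        have h5 := hSX s c jp hν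
        rw [hX, mem_filter, mem_Icc] at h5
        exact ⟨by omega, h5.1.2, fun q hq => lt_of_le_of_lt (hZf jp hjp) (h5.2.1 q hq)⟩)
      (by
        intro ν hν ν' hν' hne
        have h5 := hSp s c jp ν hν ν' hν' hne
        unfold rel at h5
        push Not at h5
        obtain ⟨q, l, hq, hl, hlm, h6⟩ := h5
        exact ⟨q, l, hq, hl, hlm, h6⟩)
      (by
        intro ν hν
        have h5 := hSX s c jp hν
        rw [hX, mem_filter] at h5
        exact h5.2.2)
    exact h4.trans (pow_le_pow_right₀ hlN (hAf jp hjp))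
  set F : Finset ℤ := (Icc (-(B : ℤ)) B).biUnion fun s => (range 4).biUnion fun c =>
    J.biUnion fun jp => (S s c jp).image (fun ν' : ℕ => s * (ν' : ℤ)) with hF
  refine ⟨F, ?_, ?_⟩
  · have h4 : (F.card : ℝ) ≤ ∑ s ∈ Icc (-(B : ℤ)) B, ∑ c ∈ range 4, ∑ jp ∈ J,
        ((S s c jp).card : ℝ) := by
      have h5 : F.card ≤ ∑ s ∈ Icc (-(B : ℤ)) B, ∑ c ∈ range 4, ∑ jp ∈ J, (S s c jp).card := by
        refine card_biUnion_le.trans (sum_le_sum fun s _ => ?_)
        refine card_biUnion_le.trans (sum_le_sum fun c _ => ?_)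
        exact card_biUnion_le.trans (sum_le_sum fun jp _ => card_image_le)
      exact_mod_cast h5
    refine h4.trans ?_
    calc _ ≤ ∑ s ∈ Icc (-(B : ℤ)) B, ∑ c ∈ range 4, ∑ jp ∈ J, (Real.log N) ^ As :=
          sum_le_sum fun s _ => sum_le_sum fun c _ => sum_le_sum fun jp hjp => hScard s c jp hjp
      _ = (R : ℝ) * (Real.log N) ^ As := by
          rw [sum_const, sum_const, sum_const, card_range, Int.card_Icc, hR]
          have h5 : ((B : ℤ) + 1 - -(B : ℤ)).toNat = 2 * B + 1 := by omega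
          rw [h5]
          simp only [nsmul_eq_mul]
          push_cast
          ring
      _ ≤ Real.log N * (Real.log N) ^ As :=
          mul_le_mul_of_nonneg_right ((le_max_right _ _).trans h3) (by positivity)
      _ = (Real.log N) ^ (As + 1) := by rw [pow_succ]; ring
  · intro n hn0 hnN hbig
    obtain ⟨s, t, ν, hn, hsB, hs0, ht0, hν0, hνn, hsZ, htZ, hνZ⟩ := decomp Zs m hm0 n hn0
    have hνodd : ν % 2 = 1 := by
      by_contra h
      have h4 : 2 ∈ ν.primeFactors := Nat.mem_primeFactors.2 ⟨Nat.prime_two, by omega, hν0⟩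
      have := hνZ 2 h4
      omega
    set f : ℕ → ℝ := fun p => w p * (∏ l ∈ d.primeFactors, gl l p n) * (jacobiSym n p : ℝ) ^ b with hf'
    have hfb : ∀ p ∈ T, |f p| ≤ d := by
      intro p hp
      simp only [hf']
      rw [abs_mul, abs_mul, abs_pow, abs_prod]
      have h4 : |((jacobiSym n p : ℤ) : ℝ)| ≤ 1 := by
        rcases jacobiSym.trichotomy n p with h | h | h <;> rw [h] <;> simp
      have h5 : ∏ l ∈ d.primeFactors, |gl l p n| ≤ d := by
        calc _ ≤ ∏ l ∈ d.primeFactors, (l : ℝ) := by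
              apply prod_le_prod (fun _ _ => abs_nonneg _)
              intro l hl
              exact gl_abs (Nat.prime_of_mem_primeFactors hl).two_le n
          _ = ((∏ l ∈ d.primeFactors, l : ℕ) : ℝ) := by push_cast; rfl
          _ ≤ d := by
              exact_mod_cast Nat.le_of_dvd (NeZero.pos d) (Nat.prod_primeFactors_dvd d)
      calc (|w p| * ∏ l ∈ d.primeFactors, |gl l p n|) * |((jacobiSym n p : ℤ) : ℝ)| ^ b ≤
          (1 * d) * 1 := by
            apply mul_le_mul _ (pow_le_one₀ (abs_nonneg _) h4) (by positivity) (by positivity)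
            exact mul_le_mul (hw p hp) h5 (prod_nonneg fun _ _ => abs_nonneg _) zero_le_one
        _ = d := by ring
    have hsplit : ∑ p ∈ T.filter (fun p : ℕ => ¬ (p : ℤ) ∣ n), f p =
        ∑ p ∈ T2.filter (fun p : ℕ => ¬ (p : ℤ) ∣ n), f p +
        ∑ p ∈ (T.filter (fun p => ¬ Zs < p)).filter (fun p : ℕ => ¬ (p : ℤ) ∣ n), f p := by
      have hc1 : T2.filter (fun p : ℕ => ¬ (p : ℤ) ∣ n) =
          (T.filter (fun p : ℕ => ¬ (p : ℤ) ∣ n)).filter (fun p => Zs < p) := by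
        rw [hT2, filter_filter, filter_filter]
        exact filter_congr fun p _ => and_comm
      have hc2 : (T.filter (fun p => ¬ Zs < p)).filter (fun p : ℕ => ¬ (p : ℤ) ∣ n) =
          (T.filter (fun p : ℕ => ¬ (p : ℤ) ∣ n)).filter (fun p => ¬ Zs < p) := by
        rw [filter_filter, filter_filter]
        exact filter_congr fun p _ => and_comm
      rw [hc1, hc2]
      exact (sum_filter_add_sum_filter_not _ _ _).symm
    have hsmall : |∑ p ∈ (T.filter (fun p => ¬ Zs < p)).filter (fun p : ℕ => ¬ (p : ℤ) ∣ n), f p| ≤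
        Zs * d := by
      refine (abs_sum_le_sum_abs _ _).trans ?_
      calc _ ≤ ∑ p ∈ (T.filter (fun p => ¬ Zs < p)).filter (fun p : ℕ => ¬ (p : ℤ) ∣ n), (d : ℝ) :=
            sum_le_sum fun p hp => hfb p (mem_filter.1 (mem_filter.1 hp).1).1
        _ = (((T.filter (fun p => ¬ Zs < p)).filter (fun p : ℕ => ¬ (p : ℤ) ∣ n)).card : ℝ) * d := by
            rw [sum_const, nsmul_eq_mul]
        _ ≤ (Zs : ℝ) * d := by
            apply mul_le_mul_of_nonneg_right _ (Nat.cast_nonneg _)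
            have h5 : (T.filter (fun p => ¬ Zs < p)).filter (fun p : ℕ => ¬ (p : ℤ) ∣ n) ⊆
                Icc 1 Zs := by
              intro p hp
              have h6 := mem_filter.1 (mem_filter.1 hp).1
              exact mem_Icc.2 ⟨(hT p h6.1).1.1.one_le, not_lt.1 h6.2⟩
            have h6 := card_le_card h5
            rw [Nat.card_Icc, Nat.add_sub_cancel] at h6
            exact_mod_cast h6
    have hmain : ((∑ p ∈ T2.filter (fun p : ℕ => ¬ (p : ℤ) ∣ n), f p : ℝ) : ℂ) =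
        ∑ jp ∈ J, ∑ p ∈ T2, wt d b w s (ν % 4) jp p *
          XP d (CyclotomicField d ℚ) (IO d) (jx jp) b p ν := by
      rw [sum_comm, sum_filter]
      push_cast
      apply sum_congr rfl
      intro p hp
      have hpT := mem_filter.1 hp
      rw [sum_congr rfl (fun jp hjp => (term_dec d b hb hdb w n s t ν hn hs0 jp
        (fun l h => (hJm jp hjp l h).1) Zs (by omega) hsZ htZ hνodd (hT p hpT.1).1 hpT.2).symm)]
      by_cases hpn : (p : ℤ) ∣ n
      · rw [if_neg (not_not.2 hpn)]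
        simp only [if_pos hpn, sum_const_zero]
        exact Complex.ofReal_zero
      · rw [if_pos hpn]
        simp only [if_neg hpn]
        rw [← sum_mul, ← mul_sum]
        simp only [hf']
        have h4 := prod_gl d (hT p hpT.1).1 n hpn
        push_cast at h4 ⊢
        rw [h4]
    -- some `jp` is large
    have hex : ∃ jp ∈ J, η' * (x / Real.log x) ≤ ‖∑ p ∈ T2, wt d b w s (ν % 4) jp p *
        XP d (CyclotomicField d ℚ) (IO d) (jx jp) b p ν‖ := by
      by_contra hcon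
      push Not at hcon
      have h4 : |∑ p ∈ T2.filter (fun p : ℕ => ¬ (p : ℤ) ∣ n), f p| ≤ η / 2 * (x / Real.log x) := by
        rw [← Real.norm_eq_abs, ← Complex.norm_real, hmain]
        refine (norm_sum_le _ _).trans ((sum_le_sum fun jp hjp => (hcon jp hjp).le).trans ?_)
        rw [sum_const, nsmul_eq_mul, ← mul_assoc]
        apply mul_le_mul_of_nonneg_right _ hxl0
        rw [hη', mul_div_assoc', div_le_div_iff₀ (by positivity) (by norm_num)]
        nlinarith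
      have h5 : (Zs : ℝ) * d ≤ η / 2 * (x / Real.log x) := by
        have h6 := h2 x hx1 hx2
        calc (Zs : ℝ) * d = η / 2 * (2 / η * (Zs * d)) := by field_simp
          _ ≤ _ := mul_le_mul_of_nonneg_left h6 (by positivity)
      rw [hsplit] at hbig
      have h6 := abs_add_le (∑ p ∈ T2.filter (fun p : ℕ => ¬ (p : ℤ) ∣ n), f p)
        (∑ p ∈ (T.filter (fun p => ¬ Zs < p)).filter (fun p : ℕ => ¬ (p : ℤ) ∣ n), f p)
      linarith
    obtain ⟨jp, hjp, hlarge⟩ := hex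
    have hνX : ν ∈ X s (ν % 4) jp := by
      simp only [hX]
      rw [mem_filter, mem_Icc]
      exact ⟨⟨Nat.pos_of_ne_zero hν0, hνn.trans hnN⟩, hνZ, hlarge⟩
    obtain ⟨ν', hν', hrel⟩ := hSc s (ν % 4) jp ν hνX
    have hν'0 : ν' ≠ 0 := by
      have h5 := hSX s (ν % 4) jp hν'
      simp only [hX] at h5
      rw [mem_filter, mem_Icc] at h5
      omega
    refine ⟨s * ν', ?_, mul_ne_zero hs0 (by exact_mod_cast hν'0), ?_⟩
    · rw [hF, mem_biUnion]
      refine ⟨s, mem_Icc.2 (by omega), ?_⟩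
      rw [mem_biUnion]
      refine ⟨ν % 4, mem_range.2 (Nat.mod_lt _ (by norm_num)), ?_⟩
      rw [mem_biUnion]
      exact ⟨jp, hjp, mem_image_of_mem _ hν'⟩
    · intro l hl hlm
      obtain ⟨y, hy⟩ := rel_quot hν0 hν'0 hrel hl hlm
      obtain ⟨e, he⟩ := hlm
      refine ⟨(t : ℚ) ^ e * y, ?_⟩
      rw [hn]
      push_cast
      rw [hy, he, mul_pow, ← pow_mul, mul_comm e l]
      ring

end

end Pool.Agent.KS6_18
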