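import Mathlib
import Pool.Agent.KS6_18.SM

set_option autoImplicit false

/-! The primes modulo which `n` is a nonresidue and no `l`-th power, `3 ≤ l ≤ z`. -/

namespace Pool.Agent.KS6_18

open Finset Filter

/-- the odd primes `≤ z` -/
def OZ (z : ℕ) : Finset ℕ := (Icc 3 z).filter Nat.Prime

lemma mem_OZ {z l : ℕ} : l ∈ OZ z ↔ l.Prime ∧ 3 ≤ l ∧ l ≤ z := by
  unfold OZ
  rw [mem_filter, mem_Icc]
  tauto

/-- the odd primes `p ≤ x` -/
def OX (x : ℕ) : Finset ℕ := (Icc 1 x).filter (fun p => p.Prime ∧ p ≠ 2)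

/-- the odd primes `p ≤ x` not dividing `n` -/
def UU (n : ℤ) (x : ℕ) : Finset ℕ := (OX x).filter (fun p : ℕ => ¬ (p : ℤ) ∣ n)

lemma mem_UU {n : ℤ} {x p : ℕ} : p ∈ UU n x ↔ (p.Prime ∧ p ≠ 2 ∧ p ≤ x) ∧ ¬ (p : ℤ) ∣ n := by
  unfold UU OX
  rw [mem_filter, mem_filter, mem_Icc]
  constructor
  · rintro ⟨⟨⟨h1, h2⟩, h3, h4⟩, h5⟩
    exact ⟨⟨h3, h4, h2⟩, h5⟩
  · rintro ⟨⟨h1, h2, h3⟩, h4⟩
    exact ⟨⟨⟨h1.one_le, h3⟩, h1, h2⟩, h4⟩

/-- the primes `l ≤ z` dividing `p - 1` -/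
def La (z p : ℕ) : Finset ℕ := (OZ z).filter (fun l => l ∣ p - 1)

open Classical in
/-- `n` is a nonresidue and no `l`-th power -/
noncomputable def PZ (n : ℤ) (x z : ℕ) : Finset ℕ :=
  (UU n x).filter (fun p : ℕ => jacobiSym n p = -1 ∧ ∀ l ∈ La z p, (n : ZMod p) ^ ((p - 1) / l) ≠ 1)

/-- the density of the small part -/
noncomputable def rz (z p : ℕ) : ℝ := ∏ l ∈ La z p, (1 - 1 / (l : ℝ))

/-- the weight of a set of primes -/
noncomputable def wz (z : ℕ) (t : Finset ℕ) (p : ℕ) : ℝ :=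
  (∏ l ∈ t, (-1 / (l : ℝ))) * ∏ l ∈ La z p \ t, (1 - 1 / (l : ℝ))

lemma l_frac {z p l : ℕ} (hl : l ∈ La z p) : 0 ≤ 1 - 1 / (l : ℝ) ∧ 1 - 1 / (l : ℝ) ≤ 1 := by
  unfold La at hl
  have h1 := (mem_OZ.1 (mem_filter.1 hl).1).2.1
  have h2 : (3 : ℝ) ≤ l := by exact_mod_cast h1
  constructor
  · rw [sub_nonneg, div_le_one (by linarith)]
    linarith
  · have : (0 : ℝ) ≤ 1 / l := by positivity
    linarith

lemma rz_bd (z p : ℕ) : 0 ≤ rz z p ∧ rz z p ≤ 1 := by
  unfold rz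
  exact ⟨prod_nonneg fun l hl => (l_frac hl).1, prod_le_one (fun l hl => (l_frac hl).1)
    fun l hl => (l_frac hl).2⟩

lemma wz_abs (z : ℕ) (t : Finset ℕ) (ht : t ⊆ OZ z) (p : ℕ) : |wz z t p| ≤ 1 := by
  unfold wz
  rw [abs_mul, abs_prod, abs_prod]
  apply mul_le_one₀ _ (prod_nonneg fun _ _ => abs_nonneg _)
  · apply prod_le_one (fun _ _ => abs_nonneg _)
    intro l hl
    have := l_frac (mem_sdiff.1 hl).1
    rw [abs_of_nonneg this.1]
    exact this.2
  · apply prod_le_one (fun _ _ => abs_nonneg _)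
    intro l hl
    have h1 := (mem_OZ.1 (ht hl)).2.1
    have h2 : (3 : ℝ) ≤ l := by exact_mod_cast h1
    rw [abs_div, abs_neg, abs_one, abs_of_nonneg (by linarith : (0 : ℝ) ≤ l),
      div_le_one (by linarith)]
    linarith

/-- the expansion of the indicator function -/
lemma ind_eq (z p : ℕ) (n : ℤ) :
    (if ∀ l ∈ La z p, (n : ZMod p) ^ ((p - 1) / l) ≠ 1 then (1 : ℝ) else 0) =
      ∑ t ∈ (La z p).powerset, wz z t p * ∏ l ∈ t, gl l p n := by
  classical
  have h1 : ∏ l ∈ La z p, (-gl l p n / l + (1 - 1 / (l : ℝ))) =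
      if ∀ l ∈ La z p, (n : ZMod p) ^ ((p - 1) / l) ≠ 1 then (1 : ℝ) else 0 := by
    have hval : ∀ l ∈ La z p, -gl l p n / l + (1 - 1 / (l : ℝ)) =
        if (n : ZMod p) ^ ((p - 1) / l) ≠ 1 then (1 : ℝ) else 0 := by
      intro l hl
      have h1 := (mem_OZ.1 (mem_filter.1 hl).1).2.1
      have h2 : (l : ℝ) ≠ 0 := by
        have : (3 : ℝ) ≤ l := by exact_mod_cast h1
        linarith
      unfold gl
      by_cases h : (n : ZMod p) ^ ((p - 1) / l) = 1
      · rw [if_pos h, if_neg (not_not.2 h)]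
        field_simp
        ring
      · rw [if_neg h, if_pos h]
        field_simp
        ring
    rw [prod_congr rfl hval]
    by_cases hall : ∀ l ∈ La z p, (n : ZMod p) ^ ((p - 1) / l) ≠ 1
    · rw [if_pos hall]
      exact prod_eq_one fun l hl => by rw [if_pos (hall l hl)]
    · rw [if_neg hall]
      push Not at hall
      obtain ⟨l, hl, h⟩ := hall
      exact prod_eq_zero hl (by rw [if_neg (not_not.2 h)])
  rw [← h1, prod_add]
  apply sum_congr rfl
  intro t _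
  unfold wz
  have h2 : ∏ l ∈ t, (-gl l p n / l) = (∏ l ∈ t, (-1 / (l : ℝ))) * ∏ l ∈ t, gl l p n := by
    rw [← prod_mul_distrib]
    exact prod_congr rfl fun l _ => by ring
  rw [h2]
  ring

/-- the sum over a set of primes -/
noncomputable def St (n : ℤ) (x z b : ℕ) (t : Finset ℕ) : ℝ :=
  ∑ p ∈ (UU n x).filter (fun p => t ⊆ La z p), wz z t p * (∏ l ∈ t, gl l p n) *
    (jacobiSym n p : ℝ) ^ b

lemma jac_pm {n : ℤ} {x p : ℕ} (hp : p ∈ UU n x) : jacobiSym n p = 1 ∨ jacobiSym n p = -1 := by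
  have h := mem_UU.1 hp
  have : Fact p.Prime := ⟨h.1.1⟩
  rw [← jacobiSym.legendreSym.to_jacobiSym]
  apply legendreSym.eq_one_or_neg_one
  rw [Ne, ZMod.intCast_zmod_eq_zero_iff_dvd]
  exact h.2

lemma PZ_card (n : ℤ) (x z : ℕ) : ((PZ n x z).card : ℝ) =
    ∑ t ∈ (OZ z).powerset, 1 / 2 * (St n x z 0 t - St n x z 1 t) := by
  classical
  have h1 : ((PZ n x z).card : ℝ) = ∑ p ∈ UU n x, 1 / 2 * (1 - (jacobiSym n p : ℝ)) *
      (if ∀ l ∈ La z p, (n : ZMod p) ^ ((p - 1) / l) ≠ 1 then (1 : ℝ) else 0) := by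
    unfold PZ
    rw [card_filter]
    push_cast
    apply sum_congr rfl
    intro p hp
    rcases jac_pm hp with h | h
    · rw [h, if_neg (by norm_num)]
      push_cast
      ring
    · rw [h]
      by_cases h2 : ∀ l ∈ La z p, (n : ZMod p) ^ ((p - 1) / l) ≠ 1
      · rw [if_pos ⟨rfl, h2⟩, if_pos h2]
        push_cast
        norm_num
      · rw [if_neg (fun h3 => h2 h3.2), if_neg h2, mul_zero]
  rw [h1]
  have h2 : ∀ p ∈ UU n x, 1 / 2 * (1 - (jacobiSym n p : ℝ)) *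
      (if ∀ l ∈ La z p, (n : ZMod p) ^ ((p - 1) / l) ≠ 1 then (1 : ℝ) else 0) =
      ∑ t ∈ (OZ z).powerset, if t ⊆ La z p then 1 / 2 * (1 - (jacobiSym n p : ℝ)) *
        (wz z t p * ∏ l ∈ t, gl l p n) else 0 := by
    intro p _
    rw [ind_eq, mul_sum, ← sum_filter]
    apply sum_congr _ fun _ _ => rfl
    ext t
    rw [mem_powerset, mem_filter, mem_powerset]
    exact ⟨fun h => ⟨h.trans (filter_subset _ _), h⟩, fun h => h.2⟩
  rw [sum_congr rfl h2, sum_comm]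
  apply sum_congr rfl
  intro t _
  unfold St
  rw [← sum_sub_distrib, mul_sum, ← sum_filter]
  apply sum_congr rfl
  intro p _
  rw [pow_zero, pow_one]
  ring

/-- the main part -/
noncomputable def Mz (n : ℤ) (x z : ℕ) : ℝ := ∑ p ∈ UU n x, 1 / 2 * (1 - (jacobiSym n p : ℝ)) * rz z p

lemma St_empty (n : ℤ) (x z : ℕ) : 1 / 2 * (St n x z 0 ∅ - St n x z 1 ∅) = Mz n x z := by
  classical
  unfold St Mz
  rw [← sum_sub_distrib, mul_sum]
  have h1 : (UU n x).filter (fun p => (∅ : Finset ℕ) ⊆ La z p) = UU n x :=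
    filter_true_of_mem fun p _ => empty_subset _
  rw [h1]
  apply sum_congr rfl
  intro p _
  unfold wz rz
  rw [prod_empty, prod_empty, sdiff_empty, pow_zero, pow_one]
  ring

/-- few classes for all sets of primes -/
theorem pz_x (z : ℕ) (C1 C2 η : ℝ) (hC1 : 0 < C1) (hC2 : 0 < C2) (hη : 0 < η) :
    ∃ A : ℕ, ∀ᶠ N : ℕ in atTop, ∀ x : ℕ, (N : ℝ) ^ C1 ≤ x → (x : ℝ) ≤ (N : ℝ) ^ C2 →
      ∃ F : Finset ℤ, (F.card : ℝ) ≤ (Real.log N) ^ A ∧ (∀ f ∈ F, f ≠ 0) ∧
        ∀ n : ℤ, n ≠ 0 → n.natAbs ≤ N →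
          (∀ f ∈ F, ∀ l : ℕ, l.Prime → 3 ≤ l → l ≤ z → ∀ y : ℚ, (n : ℚ) ≠ f * y ^ l) →
          |((PZ n x z).card : ℝ) - Mz n x z| ≤ η * (x / Real.log x) := by
  classical
  set P := (OZ z).powerset.erase ∅ with hP
  set η' : ℝ := η / (P.card + 1) with hη'
  have hη'0 : 0 < η' := by positivity
  -- the product of a set of primes
  have hprops : ∀ t ∈ P, 0 < ∏ l ∈ t, l ∧ Odd (∏ l ∈ t, l) ∧ Squarefree (∏ l ∈ t, l) ∧
      (∏ l ∈ t, l).primeFactors = t ∧ 1 < ∏ l ∈ t, l := by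
    intro t ht
    rw [hP, mem_erase, mem_powerset] at ht
    have htp : ∀ l ∈ t, l.Prime := fun l hl => (mem_OZ.1 (ht.2 hl)).1
    have ht3 : ∀ l ∈ t, 3 ≤ l := fun l hl => (mem_OZ.1 (ht.2 hl)).2.1
    have hpf : (∏ l ∈ t, l).primeFactors = t := Nat.primeFactors_prod htp
    refine ⟨prod_pos fun l hl => (htp l hl).pos, ?_, ?_, hpf, ?_⟩
    · rw [← Nat.not_even_iff_odd, even_iff_two_dvd]
      intro h
      obtain ⟨l, hl, h2⟩ := (Nat.prime_two.prime.dvd_finsetProd_iff _).1 h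
      have := (Nat.prime_dvd_prime_iff_eq Nat.prime_two (htp l hl)).1 h2
      have := ht3 l hl
      omega
    · apply Finset.squarefree_prod_of_pairwise_isCoprime
      · intro l hl l' hl' hne
        simp only [Function.onFun]
        rw [← Nat.coprime_iff_isRelPrime]
        exact (Nat.coprime_primes (htp l hl) (htp l' hl')).2 hne
      · intro l hl
        exact (htp l hl).prime.squarefree
    · obtain ⟨l, hl⟩ := nonempty_iff_ne_empty.2 ht.1
      have h1 := Nat.le_of_dvd (prod_pos fun l hl => (htp l hl).pos) (dvd_prod_of_mem (fun l => l) hl)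
      exact lt_of_lt_of_le (htp l hl).one_lt h1
  have hsub : ∀ t ∈ P, ∀ p : ℕ, t ⊆ La z p ↔ (∏ l ∈ t, l) ∣ p - 1 := by
    intro t ht p
    have ht' : t ⊆ OZ z := by
      rw [hP, mem_erase, mem_powerset] at ht
      exact ht.2
    constructor
    · intro h
      apply Finset.prod_primes_dvd
      · intro l hl
        exact (mem_OZ.1 (ht' hl)).1.prime
      · intro l hl
        exact (mem_filter.1 (h hl)).2
    · intro h l hl
      unfold La
      rw [mem_filter]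
      exact ⟨ht' hl, (dvd_prod_of_mem (fun l => l) hl).trans h⟩
  have H : ∀ (t : Finset ℕ) (b : ℕ), ∃ A : ℕ, t ∈ P → b ≤ 1 →
      ∀ᶠ N : ℕ in atTop, ∀ x : ℕ, (N : ℝ) ^ C1 ≤ x → (x : ℝ) ≤ (N : ℝ) ^ C2 →
        ∃ F : Finset ℤ, (F.card : ℝ) ≤ (Real.log N) ^ A ∧
          ∀ n : ℤ, n ≠ 0 → n.natAbs ≤ N → η' * (x / Real.log x) < |St n x z b t| →
            ∃ f ∈ F, f ≠ 0 ∧ ∀ l ∈ t, ∃ y : ℚ, (n : ℚ) = f * y ^ l := by
    intro t b
    by_cases hcond : t ∈ P ∧ b ≤ 1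
    · obtain ⟨ht, hb⟩ := hcond
      obtain ⟨h1, h2, h3, h4, h5⟩ := hprops t ht
      have : NeZero (∏ l ∈ t, l) := ⟨h1.ne'⟩
      obtain ⟨A, hA⟩ := sm (∏ l ∈ t, l) b h2 h3 hb (Or.inl h5) C1 C2 η' hC1 hC2 hη'0
      refine ⟨A, fun _ _ => ?_⟩
      filter_upwards [hA] with N hN x hx1 hx2
      obtain ⟨F, hF1, hF2⟩ := hN x hx1 hx2 ((OX x).filter (fun p => (∏ l ∈ t, l) ∣ p - 1))
        (by
          intro p hp
          rw [mem_filter] at hp
          unfold OX at hp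
          have := mem_filter.1 hp.1
          exact ⟨⟨this.2.1, hp.2⟩, (mem_Icc.1 this.1).2⟩)
        (wz z t) (fun p _ => wz_abs z t (by
          rw [hP, mem_erase, mem_powerset] at ht
          exact ht.2) p)
      refine ⟨F, hF1, fun n hn0 hnN hbig => ?_⟩
      have heq : ((OX x).filter (fun p => (∏ l ∈ t, l) ∣ p - 1)).filter
          (fun p : ℕ => ¬ (p : ℤ) ∣ n) = (UU n x).filter (fun p => t ⊆ La z p) := by
        unfold UU
        rw [filter_filter, filter_filter]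
        apply filter_congr
        intro p _
        rw [hsub t ht p]
        exact and_comm
      obtain ⟨f, hf, hf0, hfl⟩ := hF2 n hn0 hnN (by
        rw [heq, h4]
        exact hbig)
      refine ⟨f, hf, hf0, fun l hl => hfl l ?_ ?_⟩
      · rw [hP, mem_erase, mem_powerset] at ht
        exact (mem_OZ.1 (ht.2 hl)).1
      · exact (dvd_prod_of_mem (fun l => l) hl).mul_right _
    · exact ⟨0, fun h1 h2 => absurd ⟨h1, h2⟩ hcond⟩
  choose Af hAf using H
  set As : ℕ := ∑ t ∈ P, ∑ b ∈ range 2, Af t b with hAs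
  have hAle : ∀ t ∈ P, ∀ b ∈ range 2, Af t b ≤ As := by
    intro t ht b hb
    calc Af t b ≤ ∑ b ∈ range 2, Af t b :=
          single_le_sum (f := fun b => Af t b) (fun _ _ => Nat.zero_le _) hb
      _ ≤ As := single_le_sum (f := fun t => ∑ b ∈ range 2, Af t b) (fun _ _ => Nat.zero_le _) ht
  refine ⟨As + 1, ?_⟩
  have e1 : ∀ᶠ N : ℕ in atTop, ∀ t ∈ P, ∀ b ∈ range 2, _ :=
    (eventually_all_finset P).2 (fun t ht => (eventually_all_finset (range 2)).2
      (fun b hb => hAf t b ht (by rw [mem_range] at hb; omega)))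
  have e2 : ∀ᶠ N : ℕ in atTop, max 1 ((P.card * 2 : ℕ) : ℝ) ≤ Real.log N :=
    log_tend.eventually_ge_atTop _
  filter_upwards [e1, e2] with N h1 h2 x hx1 hx2
  have hlN : 1 ≤ Real.log N := (le_max_left _ _).trans h2
  have H2 : ∀ (t : Finset ℕ) (b : ℕ), ∃ F : Finset ℤ, t ∈ P → b ∈ range 2 →
      (F.card : ℝ) ≤ (Real.log N) ^ (Af t b) ∧
          ∀ n : ℤ, n ≠ 0 → n.natAbs ≤ N → η' * (x / Real.log x) < |St n x z b t| →
            ∃ f ∈ F, f ≠ 0 ∧ ∀ l ∈ t, ∃ y : ℚ, (n : ℚ) = f * y ^ l := by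
    intro t b
    by_cases hcond : t ∈ P ∧ b ∈ range 2
    · obtain ⟨F, hF⟩ := h1 t hcond.1 b hcond.2 x hx1 hx2
      exact ⟨F, fun _ _ => hF⟩
    · exact ⟨∅, fun h1 h2 => absurd ⟨h1, h2⟩ hcond⟩
  choose Ff hFf using H2
  set F : Finset ℤ := (P.biUnion fun t => (range 2).biUnion fun b => Ff t b).filter (fun f => f ≠ 0)
    with hF
  refine ⟨F, ?_, fun f hf => (mem_filter.1 hf).2, ?_⟩
  · have h4 : (F.card : ℝ) ≤ ∑ t ∈ P, ∑ b ∈ range 2, ((Ff t b).card : ℝ) := by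
      have h5 : F.card ≤ ∑ t ∈ P, ∑ b ∈ range 2, (Ff t b).card := by
        refine (card_filter_le _ _).trans (card_biUnion_le.trans (sum_le_sum fun t _ => ?_))
        exact card_biUnion_le
      exact_mod_cast h5
    refine h4.trans ?_
    calc _ ≤ ∑ t ∈ P, ∑ b ∈ range 2, (Real.log N) ^ As :=
          sum_le_sum fun t ht => sum_le_sum fun b hb =>
            ((hFf t b ht hb).1).trans (pow_le_pow_right₀ hlN (hAle t ht b hb))
      _ = ((P.card * 2 : ℕ) : ℝ) * (Real.log N) ^ As := by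
          rw [sum_const, sum_const, card_range]
          simp only [nsmul_eq_mul]
          push_cast
          ring
      _ ≤ Real.log N * (Real.log N) ^ As :=
          mul_le_mul_of_nonneg_right ((le_max_right _ _).trans h2) (by positivity)
      _ = (Real.log N) ^ (As + 1) := by rw [pow_succ]; ring
  · intro n hn0 hnN hexcl
    by_contra hcon
    rw [not_le] at hcon
    have hdiff : ((PZ n x z).card : ℝ) - Mz n x z = ∑ t ∈ P, 1 / 2 * (St n x z 0 t - St n x z 1 t) := by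
      rw [PZ_card, ← add_sum_erase _ _ (empty_mem_powerset (OZ z)), St_empty, ← hP]
      ring
    have hXl : 0 ≤ (x : ℝ) / Real.log x := by
      by_cases h0 : x = 0
      · rw [h0]; simp
      · have : (1 : ℝ) ≤ x := by exact_mod_cast Nat.one_le_iff_ne_zero.2 h0
        exact div_nonneg (by linarith) (Real.log_nonneg this)
    obtain ⟨t, ht, b, hb, hbig⟩ : ∃ t ∈ P, ∃ b ∈ range 2, η' * (x / Real.log x) < |St n x z b t| := by
      by_contra hall
      push Not at hall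
      apply absurd hcon
      rw [not_lt, hdiff]
      refine (abs_sum_le_sum_abs _ _).trans ?_
      calc _ ≤ ∑ t ∈ P, η' * (x / Real.log x) := by
            apply sum_le_sum
            intro t ht
            have h3 := hall t ht 0 (by simp)
            have h4 := hall t ht 1 (by simp)
            rw [abs_mul, abs_of_pos (by norm_num : (0 : ℝ) < 1 / 2)]
            have h5 := abs_sub (St n x z 0 t) (St n x z 1 t)
            linarith
        _ = P.card * η' * (x / Real.log x) := by rw [sum_const, nsmul_eq_mul]; ring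
        _ ≤ η * (x / Real.log x) := by
            apply mul_le_mul_of_nonneg_right _ hXl
            rw [hη', mul_div_assoc', div_le_iff₀ (by positivity)]
            nlinarith
    obtain ⟨f, hf, hf0, hfl⟩ := (hFf t b ht hb).2 n hn0 hnN hbig
    have ht' := ht
    rw [hP, mem_erase, mem_powerset] at ht'
    obtain ⟨l, hl⟩ := nonempty_iff_ne_empty.2 ht'.1
    obtain ⟨y, hy⟩ := hfl l hl
    have hl' := mem_OZ.1 (ht'.2 hl)
    refine hexcl f ?_ l hl'.1 hl'.2.1 hl'.2.2 y hy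
    rw [hF, mem_filter, mem_biUnion]
    exact ⟨⟨t, ht, mem_biUnion.2 ⟨b, hb, hf⟩⟩, hf0⟩

end Pool.Agent.KS6_18
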