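import Mathlib
import Pool.Agent.KS6_18.Pz
import Pool.Graph.R_pool_sql_team_seeded_64922ed1.X55.Art.Ml

set_option autoImplicit false

/-! The main term. -/

namespace Pool.Agent.KS6_18

open Finset Filter
open Pool.Agent.H730R2.AA (rho PR mainT dens cnt cls_tendsto clsP)
open Pool.Agent.H730R2.AA.Euler (uu)
open Pool.Agent.H730R2.AA.MTLib (pi_lower)

lemma one_sub_sum_le (s : Finset ℕ) (f : ℕ → ℝ) (h0 : ∀ i ∈ s, 0 ≤ f i) (h1 : ∀ i ∈ s, f i ≤ 1) :
    1 - ∑ i ∈ s, f i ≤ ∏ i ∈ s, (1 - f i) := by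
  classical
  induction s using Finset.induction_on with
  | empty => simp
  | insert a s ha ih =>
    rw [sum_insert ha, prod_insert ha]
    have h2 := ih (fun i hi => h0 i (mem_insert_of_mem hi)) (fun i hi => h1 i (mem_insert_of_mem hi))
    have h3 := h0 a (mem_insert_self _ _)
    have h4 := h1 a (mem_insert_self _ _)
    have h5 : ∏ i ∈ s, (1 - f i) ≤ 1 := prod_le_one (fun i hi => by
      have := h1 i (mem_insert_of_mem hi); linarith) (fun i hi => by
      have := h0 i (mem_insert_of_mem hi); linarith)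
    have h6 : 0 ≤ ∏ i ∈ s, (1 - f i) := prod_nonneg (fun i hi => by
      have := h1 i (mem_insert_of_mem hi); linarith)
    nlinarith

/-- `φ(p-1)/(p-1)` as a product -/
lemma rho_prod' (p : ℕ) (hp : 1 < p) :
    rho p = ∏ l ∈ (p - 1).primeFactors, (1 - 1 / (l : ℝ)) := by
  have h0 : p - 1 ≠ 0 := by omega
  have h1 : (((p - 1 : ℕ)) : ℝ) ≠ 0 := by exact_mod_cast h0
  unfold rho
  have h2 := Nat.totient_eq_mul_prod_factors (p - 1)
  have h3 : ((Nat.totient (p - 1) : ℕ) : ℝ) = ((p - 1 : ℕ) : ℝ) * ∏ l ∈ (p - 1).primeFactors, (1 - (l : ℝ)⁻¹) := by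
    have h4 : (((Nat.totient (p - 1) : ℕ) : ℚ) : ℝ) = (((p - 1 : ℕ) : ℚ) * ∏ l ∈ (p - 1).primeFactors, (1 - (l : ℚ)⁻¹) : ℚ) := by
      rw [h2]
    push_cast at h4
    exact_mod_cast h4
  rw [h3, mul_div_cancel_left₀ _ h1]
  refine prod_congr rfl fun l _ => ?_
  rw [one_div]

/-- the large prime factors of `p - 1` -/
def Lb (z p : ℕ) : Finset ℕ := (p - 1).primeFactors.filter (fun l => z < l)

lemma rho_rz (z p : ℕ) (hz : 2 ≤ z) (hp : p.Prime) (hp2 : p ≠ 2) :
    0 ≤ 1 / 2 * rz z p - rho p ∧ 1 / 2 * rz z p - rho p ≤ 1 / 2 * ∑ l ∈ Lb z p, 1 / (l : ℝ) := by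
  have hpge : 3 ≤ p := by have := hp.two_le; omega
  have h2mem : 2 ∈ (p - 1).primeFactors := by
    rw [Nat.mem_primeFactors]
    refine ⟨Nat.prime_two, ?_, by omega⟩
    have := hp.eq_two_or_odd
    omega
  have hsplit : (p - 1).primeFactors = insert 2 (La z p ∪ Lb z p) := by
    ext l
    unfold La Lb
    rw [mem_insert, mem_union, mem_filter, mem_filter, mem_OZ]
    constructor
    · intro hl
      have hlp := Nat.prime_of_mem_primeFactors hl
      have hld := Nat.dvd_of_mem_primeFactors hl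
      by_cases h2 : l = 2
      · left; exact h2
      · right
        have := hlp.two_le
        by_cases hlz : l ≤ z
        · left; exact ⟨⟨hlp, by omega, hlz⟩, hld⟩
        · right; exact ⟨hl, by omega⟩
    · rintro (rfl | ⟨⟨h1, h2, h3⟩, h4⟩ | ⟨h1, h2⟩)
      · exact h2mem
      · exact Nat.mem_primeFactors.2 ⟨h1, h4, by omega⟩
      · exact h1
  have hd1 : (2 : ℕ) ∉ La z p ∪ Lb z p := by
    rw [mem_union]
    rintro (h | h)
    · unfold La at h
      have := (mem_OZ.1 (mem_filter.1 h).1).2.1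
      omega
    · unfold Lb at h
      have := (mem_filter.1 h).2
      omega
  have hd2 : Disjoint (La z p) (Lb z p) := by
    rw [disjoint_left]
    intro l h1 h2
    unfold La at h1
    unfold Lb at h2
    have h3 := (mem_OZ.1 (mem_filter.1 h1).1).2.2
    have h4 := (mem_filter.1 h2).2
    omega
  have hLb : ∀ l ∈ Lb z p, (0 : ℝ) ≤ 1 / l ∧ 1 / (l : ℝ) ≤ 1 := by
    intro l hl
    unfold Lb at hl
    have h3 : 1 ≤ l := by have := (mem_filter.1 hl).2; omega
    have h4 : (1 : ℝ) ≤ l := by exact_mod_cast h3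
    exact ⟨by positivity, by rw [div_le_one (by linarith)]; exact h4⟩
  have heq : rho p = 1 / 2 * rz z p * ∏ l ∈ Lb z p, (1 - 1 / (l : ℝ)) := by
    rw [rho_prod' p (by omega), hsplit, prod_insert hd1, prod_union hd2]
    unfold rz
    push_cast
    ring
  have h1 := one_sub_sum_le (Lb z p) (fun l => 1 / (l : ℝ)) (fun l hl => (hLb l hl).1)
    (fun l hl => (hLb l hl).2)
  have h2 : ∏ l ∈ Lb z p, (1 - 1 / (l : ℝ)) ≤ 1 := prod_le_one
    (fun l hl => by have := (hLb l hl).2; linarith) (fun l hl => by have := (hLb l hl).1; linarith)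
  have h3 := rz_bd z p
  have h4 : 0 ≤ ∑ l ∈ Lb z p, 1 / (l : ℝ) := sum_nonneg fun l hl => (hLb l hl).1
  rw [heq]
  constructor
  · nlinarith [h3.1, h3.2]
  · nlinarith [h3.1, h3.2]

/-- the tail -/
theorem tail_sum (ε : ℝ) (hε : 0 < ε) : ∃ z₀ : ℕ, 2 ≤ z₀ ∧ ∀ z : ℕ, z₀ ≤ z → ∀ᶠ x : ℕ in atTop,
    ∑ p ∈ OX x, ∑ l ∈ Lb z p, 1 / (l : ℝ) ≤ ε * (x / Real.log x) := by
  obtain ⟨C, hC, hbt⟩ := bt_one
  obtain ⟨z₀, hz₀⟩ : ∃ z₀ : ℕ, 4 * C / ε ≤ z₀ := exists_nat_ge _
  refine ⟨max z₀ 2, le_max_right _ _, ?_⟩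
  intro z hz
  have hz2 : 2 ≤ z := (le_max_right _ _).trans hz
  have hzC : 4 * C / ε ≤ z := hz₀.trans (by exact_mod_cast (le_max_left _ _).trans hz)
  have ev : ∀ᶠ x : ℕ in atTop, 4 * Real.log x ≤ ε * Real.sqrt x := by
    have h1 := (isLittleO_log_rpow_atTop (show (0 : ℝ) < 1 / 2 by norm_num)).bound
      (show (0 : ℝ) < ε / 4 by positivity)
    have h2 := tendsto_natCast_atTop_atTop.eventually h1
    filter_upwards [h2, eventually_ge_atTop 1] with x hx hx1
    rw [Real.norm_of_nonneg (Real.log_nonneg (by exact_mod_cast hx1)),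
      Real.norm_of_nonneg (by positivity), ← Real.sqrt_eq_rpow] at hx
    linarith
  filter_upwards [ev, eventually_ge_atTop 16] with x hx hx16
  have hx0 : (0 : ℝ) < x := by exact_mod_cast (by omega : 0 < x)
  have hx1 : (1 : ℝ) < x := by exact_mod_cast (by omega : 1 < x)
  have hlog : 0 < Real.log x := Real.log_pos hx1
  -- swap
  have hswap : ∑ p ∈ OX x, ∑ l ∈ Lb z p, 1 / (l : ℝ) ≤
      ∑ l ∈ (Icc 1 x).filter (fun l => l.Prime ∧ z < l),
        (((Icc 1 x).filter (fun p : ℕ => p.Prime ∧ l ∣ p - 1)).card : ℝ) * (1 / (l : ℝ)) := by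
    have h1 : ∀ p ∈ OX x, ∑ l ∈ Lb z p, 1 / (l : ℝ) ≤
        ∑ l ∈ (Icc 1 x).filter (fun l => l.Prime ∧ z < l), if l ∣ p - 1 then 1 / (l : ℝ) else 0 := by
      intro p hp
      rw [← sum_filter]
      apply sum_le_sum_of_subset_of_nonneg
      · intro l hl
        unfold Lb at hl
        unfold OX at hp
        rw [mem_filter] at hl hp
        have h2 := Nat.prime_of_mem_primeFactors hl.1
        have h3 := Nat.dvd_of_mem_primeFactors hl.1
        have h4 := (mem_Icc.1 hp.1).2
        have h5 := Nat.le_of_dvd (by have := hp.2.1.two_le; omega) h3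
        rw [mem_filter, mem_filter, mem_Icc]
        exact ⟨⟨⟨h2.one_le, by omega⟩, h2, hl.2⟩, h3⟩
      · intro l _ _
        positivity
    refine (sum_le_sum h1).trans ?_
    rw [sum_comm]
    apply sum_le_sum
    intro l _
    rw [← sum_filter, sum_const, nsmul_eq_mul]
    apply mul_le_mul_of_nonneg_right _ (by positivity)
    have h2 : (OX x).filter (fun p => l ∣ p - 1) ⊆ (Icc 1 x).filter (fun p : ℕ => p.Prime ∧ l ∣ p - 1) := by
      intro p hp
      unfold OX at hp
      rw [mem_filter, mem_filter] at hp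
      rw [mem_filter]
      exact ⟨hp.1.1, hp.1.2.1, hp.2⟩
    exact_mod_cast card_le_card h2
  refine hswap.trans ?_
  -- the two ranges
  set s := Nat.sqrt x with hs
  have hs4 : 4 ≤ s := by
    rw [hs, Nat.le_sqrt']
    omega
  have hterm : ∀ l ∈ (Icc 1 x).filter (fun l => l.Prime ∧ z < l),
      (((Icc 1 x).filter (fun p : ℕ => p.Prime ∧ l ∣ p - 1)).card : ℝ) * (1 / (l : ℝ)) ≤
        (if l ≤ s then (2 * C * (x / Real.log x)) * ((l : ℝ) ^ 2)⁻¹ else x * ((l : ℝ) ^ 2)⁻¹) := by
    intro l hl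
    rw [mem_filter, mem_Icc] at hl
    have hl2 : 2 ≤ l := hl.2.1.two_le
    have hl0 : (0 : ℝ) < l := by exact_mod_cast (by omega : 0 < l)
    split_ifs with h
    · have h1 := hbt x l (by omega) ((Nat.le_sqrt').1 h) (by omega)
      rw [Nat.totient_prime hl.2.1] at h1
      have h3 : (((l - 1 : ℕ)) : ℝ) = l - 1 := by
        rw [Nat.cast_sub (by omega)]; push_cast; ring
      rw [h3] at h1
      have h4 : (2 : ℝ) ≤ l := by exact_mod_cast hl2
      calc _ ≤ C * (x / (((l : ℝ) - 1) * Real.log x)) * (1 / l) :=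
            mul_le_mul_of_nonneg_right h1 (by positivity)
        _ = C * (x / Real.log x) * (1 / (((l : ℝ) - 1) * l)) := by
            field_simp
        _ ≤ C * (x / Real.log x) * (2 * ((l : ℝ) ^ 2)⁻¹) := by
            apply mul_le_mul_of_nonneg_left _ (by positivity)
            rw [← one_div, mul_one_div, div_le_div_iff₀ (by nlinarith) (by positivity)]
            nlinarith
        _ = _ := by ring
    · have h1 : ((Icc 1 x).filter (fun p : ℕ => p.Prime ∧ l ∣ p - 1)).card ≤ x / l := by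
        have h2 : ((Icc 1 x).filter (fun p : ℕ => p.Prime ∧ l ∣ p - 1)) ⊆
            (Icc 1 (x / l)).image (fun m => l * m + 1) := by
          intro p hp
          rw [mem_filter, mem_Icc] at hp
          obtain ⟨m, hm⟩ := hp.2.2
          have hp2 := hp.2.1.two_le
          rw [mem_image]
          refine ⟨m, ?_, by omega⟩
          rw [mem_Icc]
          constructor
          · rcases Nat.eq_zero_or_pos m with h0 | h0
            · rw [h0, mul_zero] at hm; omega
            · exact h0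
          · rw [Nat.le_div_iff_mul_le (by omega), mul_comm]
            omega
        refine (card_le_card h2).trans (card_image_le.trans ?_)
        rw [Nat.card_Icc, Nat.add_sub_cancel]
      calc _ ≤ ((x / l : ℕ) : ℝ) * (1 / l) :=
            mul_le_mul_of_nonneg_right (by exact_mod_cast h1) (by positivity)
        _ ≤ ((x : ℝ) / l) * (1 / l) := mul_le_mul_of_nonneg_right Nat.cast_div_le (by positivity)
        _ = _ := by field_simp
  refine (sum_le_sum hterm).trans ?_
  rw [← sum_filter_add_sum_filter_not _ (fun l => l ≤ s)]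
  have hA : ∑ l ∈ ((Icc 1 x).filter (fun l => l.Prime ∧ z < l)).filter (fun l => l ≤ s),
      (if l ≤ s then (2 * C * (x / Real.log x)) * ((l : ℝ) ^ 2)⁻¹ else x * ((l : ℝ) ^ 2)⁻¹) ≤
        ε / 2 * (x / Real.log x) := by
    calc _ = ∑ l ∈ ((Icc 1 x).filter (fun l => l.Prime ∧ z < l)).filter (fun l => l ≤ s),
          (2 * C * (x / Real.log x)) * ((l : ℝ) ^ 2)⁻¹ :=
          sum_congr rfl fun l hl => by rw [if_pos (mem_filter.1 hl).2]
      _ = (2 * C * (x / Real.log x)) * ∑ l ∈ ((Icc 1 x).filter (fun l => l.Prime ∧ z < l)).filter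
          (fun l => l ≤ s), ((l : ℝ) ^ 2)⁻¹ := by rw [mul_sum]
      _ ≤ (2 * C * (x / Real.log x)) * (z : ℝ)⁻¹ := by
          apply mul_le_mul_of_nonneg_left _ (by positivity)
          have h1 : ((Icc 1 x).filter (fun l => l.Prime ∧ z < l)).filter (fun l => l ≤ s) ⊆
              Ioc z (max z x) := by
            intro l hl
            rw [mem_filter, mem_filter, mem_Icc] at hl
            exact mem_Ioc.2 ⟨hl.1.2.2, hl.1.1.2.trans (le_max_right _ _)⟩
          refine (sum_le_sum_of_subset_of_nonneg h1 fun _ _ _ => by positivity).trans ?_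
          have h2 := sum_Ioc_inv_sq_le_sub (α := ℝ) (by omega : z ≠ 0) (le_max_left z x)
          have h3 : (0 : ℝ) ≤ ((max z x : ℕ) : ℝ)⁻¹ := by positivity
          linarith
      _ ≤ ε / 2 * (x / Real.log x) := by
          have hz0 : (0 : ℝ) < z := by exact_mod_cast (by omega : 0 < z)
          rw [div_le_iff₀ hε] at hzC
          have h1 : 2 * C * (z : ℝ)⁻¹ ≤ ε / 2 := by
            rw [← div_eq_mul_inv, div_le_iff₀ hz0]
            linarith
          calc _ = (2 * C * (z : ℝ)⁻¹) * (x / Real.log x) := by ring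
            _ ≤ _ := mul_le_mul_of_nonneg_right h1 (by positivity)
  have hB : ∑ l ∈ ((Icc 1 x).filter (fun l => l.Prime ∧ z < l)).filter (fun l => ¬ l ≤ s),
      (if l ≤ s then (2 * C * (x / Real.log x)) * ((l : ℝ) ^ 2)⁻¹ else x * ((l : ℝ) ^ 2)⁻¹) ≤
        ε / 2 * (x / Real.log x) := by
    calc _ = ∑ l ∈ ((Icc 1 x).filter (fun l => l.Prime ∧ z < l)).filter (fun l => ¬ l ≤ s),
          x * ((l : ℝ) ^ 2)⁻¹ :=
          sum_congr rfl fun l hl => by rw [if_neg (mem_filter.1 hl).2]
      _ = x * ∑ l ∈ ((Icc 1 x).filter (fun l => l.Prime ∧ z < l)).filter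
          (fun l => ¬ l ≤ s), ((l : ℝ) ^ 2)⁻¹ := by rw [mul_sum]
      _ ≤ x * (s : ℝ)⁻¹ := by
          apply mul_le_mul_of_nonneg_left _ (by positivity)
          have h1 : ((Icc 1 x).filter (fun l => l.Prime ∧ z < l)).filter (fun l => ¬ l ≤ s) ⊆
              Ioc s (max s x) := by
            intro l hl
            rw [mem_filter, mem_filter, mem_Icc, not_le] at hl
            exact mem_Ioc.2 ⟨hl.2, hl.1.1.2.trans (le_max_right _ _)⟩
          refine (sum_le_sum_of_subset_of_nonneg h1 fun _ _ _ => by positivity).trans ?_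
          have h2 := sum_Ioc_inv_sq_le_sub (α := ℝ) (by omega : s ≠ 0) (le_max_left s x)
          have h3 : (0 : ℝ) ≤ ((max s x : ℕ) : ℝ)⁻¹ := by positivity
          linarith
      _ ≤ x * (2 / Real.sqrt x) := by
          apply mul_le_mul_of_nonneg_left _ (by positivity)
          have h1 : Real.sqrt x < s + 1 := by
            rw [Real.sqrt_lt' (by positivity)]
            exact_mod_cast Nat.lt_succ_sqrt' x
          have h2 : (4 : ℝ) ≤ s := by exact_mod_cast hs4
          have h3 : 0 < Real.sqrt x := Real.sqrt_pos.2 hx0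
          rw [← one_div, div_le_div_iff₀ (by linarith) h3]
          linarith
      _ = 2 * Real.sqrt x := by
          have h3 : 0 < Real.sqrt x := Real.sqrt_pos.2 hx0
          have h4 := Real.mul_self_sqrt hx0.le
          field_simp
          nlinarith
      _ ≤ ε / 2 * (x / Real.log x) := by
          rw [mul_div_assoc', le_div_iff₀ hlog]
          have h3 : 0 < Real.sqrt x := Real.sqrt_pos.2 hx0
          have h4 := Real.mul_self_sqrt hx0.le
          calc 2 * Real.sqrt x * Real.log x = Real.sqrt x * (4 * Real.log x) / 2 := by ring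
            _ ≤ Real.sqrt x * (ε * Real.sqrt x) / 2 := by
                apply div_le_div_of_nonneg_right _ (by norm_num)
                exact mul_le_mul_of_nonneg_left hx h3.le
            _ = ε / 2 * (Real.sqrt x * Real.sqrt x) := by ring
            _ = ε / 2 * x := by rw [h4]
  linarith

end Pool.Agent.KS6_18
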