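import Mathlib
import Pool.Agent.KS6_18.Mt

set_option autoImplicit false

/-! The main term, continued. -/

namespace Pool.Agent.KS6_18

open Finset Filter Topology
open Pool.Agent.H730R2.AA (rho PR mainT dens cnt cls_tendsto clsP)
open Pool.Agent.H730R2.AA.Euler (uu)
open Pool.Agent.H730R2.AA.MTLib (pi_lower)

lemma sqf_unique (a b : ℕ) (r : ℚ) (ha : Squarefree a) (hb : Squarefree b)
    (h : (a : ℚ) = b * r ^ 2) : a = b := by
  have h1 : (a : ℤ) * (r.den : ℤ) ^ 2 = b * r.num ^ 2 := by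
    have h2 : (r : ℚ) = r.num / r.den := (Rat.num_div_den r).symm
    have hd : (r.den : ℚ) ≠ 0 := by exact_mod_cast r.den_nz
    have h3 : (a : ℚ) * (r.den : ℚ) ^ 2 = b * (r.num : ℚ) ^ 2 := by
      rw [h, h2]
      have h4 : ((r.num : ℚ) / r.den) ^ 2 * (r.den : ℚ) ^ 2 = (r.num : ℚ) ^ 2 := by
        field_simp
      rw [mul_assoc]
      simp only [Rat.num_div_den]
      rw [← mul_pow]
      congr 2
      exact Rat.mul_den_eq_num r
    exact_mod_cast h3
  have h1' : a * r.den ^ 2 = b * r.num.natAbs ^ 2 := by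
    have h2 := congrArg Int.natAbs h1
    simpa [Int.natAbs_mul, Int.natAbs_pow] using h2
  have hco : Nat.Coprime (r.num.natAbs ^ 2) (r.den ^ 2) := Nat.Coprime.pow 2 2 r.reduced
  have hd1 : r.den ^ 2 ∣ b := by
    have : r.den ^ 2 ∣ b * r.num.natAbs ^ 2 := ⟨a, by rw [← h1']; ring⟩
    exact hco.symm.dvd_of_dvd_mul_right this
  have hn1 : r.num.natAbs ^ 2 ∣ a := by
    have : r.num.natAbs ^ 2 ∣ a * r.den ^ 2 := ⟨b, by rw [h1']; ring⟩
    exact hco.dvd_of_dvd_mul_right this
  have hd2 : r.den = 1 := Nat.isUnit_iff.1 (hb _ (by rwa [← sq]))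
  have hn2 : r.num.natAbs = 1 := Nat.isUnit_iff.1 (ha _ (by rwa [← sq]))
  rw [hd2, hn2] at h1'
  simpa using h1'

theorem quad_x (z : ℕ) (C1 C2 η : ℝ) (hC1 : 0 < C1) (hC2 : 0 < C2) (hη : 0 < η) :
    ∃ A : ℕ, ∀ᶠ N : ℕ in atTop, ∀ x : ℕ, (N : ℝ) ^ C1 ≤ x → (x : ℝ) ≤ (N : ℝ) ^ C2 →
      ∃ F : Finset ℕ, (F.card : ℝ) ≤ (Real.log N) ^ A ∧
        ∀ n D m : ℤ, n = D * m ^ 2 → n ≠ 0 → n.natAbs ≤ N → Squarefree D → D.natAbs ∉ F →
          |∑ p ∈ UU n x, rz z p * (jacobiSym n p : ℝ)| ≤ η * (x / Real.log x) := by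
  classical
  obtain ⟨A, hA⟩ := sm 1 1 odd_one squarefree_one le_rfl (Or.inr rfl) C1 C2 η hC1 hC2 hη
  refine ⟨A, ?_⟩
  filter_upwards [hA] with N hN x hx1 hx2
  obtain ⟨F, hF1, hF2⟩ := hN x hx1 hx2 (OX x) (by
    intro p hp
    unfold OX at hp
    have := mem_filter.1 hp
    exact ⟨⟨this.2.1, one_dvd _⟩, (mem_Icc.1 this.1).2⟩) (rz z) (by
    intro p _
    have := rz_bd z p
    rw [abs_of_nonneg this.1]
    exact this.2)
  -- the squarefree kernel
  have hker : ∀ f : ℤ, ∃ b : ℕ, f ≠ 0 → ∃ a : ℕ, a ≠ 0 ∧ f.natAbs = a ^ 2 * b ∧ Squarefree b := by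
    intro f
    obtain ⟨b, a, h1, h2⟩ := Nat.sq_mul_squarefree f.natAbs
    refine ⟨b, fun hf => ⟨a, ?_, ?_, h2⟩⟩
    · rintro rfl
      have : f.natAbs = 0 := by rw [← h1]; simp
      exact hf (Int.natAbs_eq_zero.1 this)
    · rw [← h1]
  choose K hK using hker
  refine ⟨F.image K, ?_, ?_⟩
  · refine le_trans ?_ hF1
    exact_mod_cast card_image_le
  · intro n D m hn hn0 hnN hD hDF
    by_contra hcon
    rw [not_le] at hcon
    obtain ⟨f, hf, hf0, hfl⟩ := hF2 n hn0 hnN (by
      refine hcon.trans_le (le_of_eq ?_)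
      congr 1
      unfold UU
      apply sum_congr rfl
      intro p _
      rw [Nat.primeFactors_one, prod_empty, mul_one, pow_one])
    obtain ⟨y, hy⟩ := hfl 2 Nat.prime_two (by norm_num)
    obtain ⟨a, ha0, hfa, hKsq⟩ := hK f hf0
    apply hDF
    rw [mem_image]
    refine ⟨f, hf, ?_⟩
    symm
    have hm0 : m ≠ 0 := by
      rintro rfl
      apply hn0
      rw [hn]; ring
    have hm0' : (m : ℚ) ≠ 0 := by exact_mod_cast hm0
    apply sqf_unique _ _ (a * y / m) (Int.squarefree_natAbs.2 hD) hKsq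
    -- |D| = K a² y² / m²
    have h1 : (D : ℚ) * m ^ 2 = f * y ^ 2 := by
      rw [← hy, hn]; push_cast; ring
    have h2 : |(D : ℚ)| * m ^ 2 = |(f : ℚ)| * y ^ 2 := by
      have := congrArg abs h1
      rw [abs_mul, abs_mul, abs_of_nonneg (sq_nonneg (m : ℚ)), abs_of_nonneg (sq_nonneg y)] at this
      exact this
    have h3 : |(D : ℚ)| = (D.natAbs : ℚ) := by
      rw [Nat.cast_natAbs, Int.cast_abs]
    have h4 : |(f : ℚ)| = (a : ℚ) ^ 2 * K f := by
      rw [← Int.cast_abs, ← Nat.cast_natAbs, hfa]; push_cast; rfl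
    rw [h3, h4] at h2
    have h5 : (D.natAbs : ℚ) = (a : ℚ) ^ 2 * K f * y ^ 2 / m ^ 2 := by
      rw [eq_div_iff (pow_ne_zero 2 hm0')]
      exact h2
    rw [h5]
    ring

/-! ### the limit for fixed `z` -/

lemma card_cls (d : ℕ) (hd : 1 ≤ d) (x : ℕ) :
    (((OX x).filter (fun p => d ∣ p - 1)).card : ℝ) ≤ ((clsP d ((1 : (ZMod d)ˣ) : ZMod d) x).card : ℝ) ∧
    ((clsP d ((1 : (ZMod d)ˣ) : ZMod d) x).card : ℝ) ≤
      (((OX x).filter (fun p => d ∣ p - 1)).card : ℝ) + 1 := by
  classical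
  have hiff : ∀ p : ℕ, p.Prime → ((p : ZMod d) = ((1 : (ZMod d)ˣ) : ZMod d) ↔ d ∣ p - 1) := by
    intro p hp
    rw [Units.val_one]
    have h1 : ((p : ZMod d) = 1) ↔ (((p - 1 : ℕ)) : ZMod d) = 0 := by
      rw [Nat.cast_sub hp.one_le, Nat.cast_one, sub_eq_zero]
    rw [h1, ZMod.natCast_eq_zero_iff]
  constructor
  · have h1 : (OX x).filter (fun p => d ∣ p - 1) ⊆ clsP d ((1 : (ZMod d)ˣ) : ZMod d) x := by
      intro p hp
      rw [mem_filter] at hp
      unfold OX at hp
      rw [mem_filter] at hp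
      unfold clsP
      rw [mem_filter]
      exact ⟨hp.1.1, hp.1.2.1, (hiff p hp.1.2.1).2 hp.2⟩
    exact_mod_cast card_le_card h1
  · have h1 : clsP d ((1 : (ZMod d)ˣ) : ZMod d) x ⊆ insert 2 ((OX x).filter (fun p => d ∣ p - 1)) := by
      intro p hp
      unfold clsP at hp
      rw [mem_filter] at hp
      rw [mem_insert, mem_filter]
      unfold OX
      rw [mem_filter]
      by_cases h2 : p = 2
      · left; exact h2
      · right
        exact ⟨⟨hp.1, hp.2.1, h2⟩, (hiff p hp.2.1).1 hp.2.2⟩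
    have h2 := (card_le_card h1).trans (card_insert_le _ _)
    exact_mod_cast h2

lemma pi_tend : Tendsto (fun x : ℕ => (Nat.primeCounting x : ℝ)) atTop atTop :=
  tendsto_natCast_atTop_atTop.comp Nat.tendsto_primeCounting

lemma cls_lim (d : ℕ) (hd : 1 ≤ d) :
    Tendsto (fun x : ℕ => (((OX x).filter (fun p => d ∣ p - 1)).card : ℝ) / Nat.primeCounting x) atTop
      (𝓝 ((d.totient : ℝ)⁻¹)) := by
  have : NeZero d := ⟨by omega⟩
  have h1 := cls_tendsto d 1
  have h2 : Tendsto (fun x : ℕ => ((clsP d ((1 : (ZMod d)ˣ) : ZMod d) x).card : ℝ) /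
      Nat.primeCounting x - 1 / Nat.primeCounting x) atTop (𝓝 ((d.totient : ℝ)⁻¹)) := by
    have h3 : Tendsto (fun x : ℕ => (1 : ℝ) / Nat.primeCounting x) atTop (𝓝 0) :=
      Tendsto.const_div_atTop pi_tend 1
    have h4 := h1.sub h3
    rw [sub_zero] at h4
    exact h4
  refine tendsto_of_tendsto_of_tendsto_of_le_of_le h2 h1 (fun x => ?_) (fun x => ?_)
  · have h5 := (card_cls d hd x).2
    show _ / _ - _ / _ ≤ _ / _
    rw [← sub_div]
    apply div_le_div_of_nonneg_right _ (Nat.cast_nonneg _)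
    linarith
  · exact div_le_div_of_nonneg_right (card_cls d hd x).1 (Nat.cast_nonneg _)

lemma rz_expand (z p : ℕ) : rz z p = ∑ t ∈ (OZ z).powerset, if t ⊆ La z p then
    ∏ l ∈ t, (-1 / (l : ℝ)) else 0 := by
  classical
  have h1 : rz z p = ∏ l ∈ La z p, ((-1 / (l : ℝ)) + 1) := by
    unfold rz
    exact prod_congr rfl fun l _ => by ring
  rw [h1, prod_add, ← sum_filter]
  have h2 : (OZ z).powerset.filter (fun t => t ⊆ La z p) = (La z p).powerset := by
    ext t
    rw [mem_filter, mem_powerset, mem_powerset]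
    exact ⟨fun h => h.2, fun h => ⟨h.trans (filter_subset _ _), h⟩⟩
  rw [h2]
  apply sum_congr rfl
  intro t _
  rw [prod_const_one, mul_one]

theorem rz_lim (z : ℕ) : Tendsto (fun x : ℕ => (∑ p ∈ OX x, rz z p) / Nat.primeCounting x) atTop
    (𝓝 (∏ l ∈ OZ z, (1 - uu l))) := by
  classical
  have hp : ∏ l ∈ OZ z, (1 - uu l) = ∑ t ∈ (OZ z).powerset, ∏ l ∈ t, (-uu l) := by
    have : ∏ l ∈ OZ z, (1 - uu l) = ∏ l ∈ OZ z, (-uu l + 1) := prod_congr rfl fun l _ => by ring
    rw [this, prod_add]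
    apply sum_congr rfl
    intro t _
    rw [prod_const_one, mul_one]
  rw [hp]
  have hx : ∀ x : ℕ, (∑ p ∈ OX x, rz z p) / Nat.primeCounting x = ∑ t ∈ (OZ z).powerset,
      (∏ l ∈ t, (-1 / (l : ℝ))) * ((((OX x).filter (fun p => (∏ l ∈ t, l) ∣ p - 1)).card : ℝ) /
        Nat.primeCounting x) := by
    intro x
    rw [sum_congr rfl (fun p _ => rz_expand z p), sum_comm, sum_div]
    apply sum_congr rfl
    intro t ht
    have ht' := mem_powerset.1 ht
    rw [← sum_filter, sum_const, nsmul_eq_mul]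
    have h1 : (OX x).filter (fun p => t ⊆ La z p) = (OX x).filter (fun p => (∏ l ∈ t, l) ∣ p - 1) := by
      apply filter_congr
      intro p _
      constructor
      · intro h
        apply Finset.prod_primes_dvd
        · intro l hl
          exact (mem_OZ.1 (ht' hl)).1.prime
        · intro l hl
          exact (mem_filter.1 (h hl)).2
      · intro h l hl
        unfold La
        rw [mem_filter]
        exact ⟨ht' hl, (dvd_prod_of_mem (fun l => l) hl).trans h⟩
    rw [h1]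
    ring
  simp_rw [hx]
  apply tendsto_finsetSum
  intro t ht
  have ht' := mem_powerset.1 ht
  have htp : ∀ l ∈ t, l.Prime := fun l hl => (mem_OZ.1 (ht' hl)).1
  have h1 : ∏ l ∈ t, (-uu l) = (∏ l ∈ t, (-1 / (l : ℝ))) * (((∏ l ∈ t, l).totient : ℝ))⁻¹ := by
    have h2 : (((∏ l ∈ t, l).totient : ℕ) : ℝ) = ∏ l ∈ t, ((l : ℝ) - 1) := by
      have h3 : ∀ s : Finset ℕ, (∀ l ∈ s, l.Prime) →
          (((∏ l ∈ s, l).totient : ℕ) : ℝ) = ∏ l ∈ s, ((l : ℝ) - 1) := by
        intro s
        induction s using Finset.induction_on with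
        | empty => intro _; simp
        | insert a s ha ih =>
          intro hs
          rw [prod_insert ha, prod_insert ha, Nat.totient_mul]
          · push_cast
            rw [ih (fun l hl => hs l (mem_insert_of_mem hl)), Nat.totient_prime (hs a (mem_insert_self _ _)),
              Nat.cast_sub (hs a (mem_insert_self _ _)).one_le]
            push_cast
            rfl
          · apply Nat.Coprime.prod_right
            intro l hl
            rw [Nat.coprime_primes (hs a (mem_insert_self _ _)) (hs l (mem_insert_of_mem hl))]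
            rintro rfl
            exact ha hl
      exact h3 t htp
    rw [h2, ← prod_inv_distrib, ← prod_mul_distrib]
    apply prod_congr rfl
    intro l hl
    have h3 : (2 : ℝ) ≤ l := by exact_mod_cast (htp l hl).two_le
    have h4 : (l : ℝ) - 1 ≠ 0 := by linarith
    unfold uu
    field_simp
  rw [h1]
  exact (cls_lim _ (prod_pos fun l hl => (htp l hl).pos)).const_mul _

/-- Artin's constant -/
noncomputable def AC : ℝ := ∏' p : Nat.Primes, (1 - 1 / (((p : ℕ) : ℝ) * (((p : ℕ) : ℝ) - 1)))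

theorem art_lim : Tendsto (fun z : ℕ => 1 / 2 * ∏ l ∈ OZ z, (1 - uu l)) atTop (𝓝 AC) := by
  classical
  have h1 := Pool.Agent.H730R2.AA.Euler.hh_euler
  rw [← Pool.Agent.H730R2.AA.Euler.tprod_eq] at h1
  have hmono : Tendsto (fun z : ℕ => ((range (z + 1)).filter Nat.Prime).subtype Nat.Prime) atTop atTop := by
    apply tendsto_atTop_finset_of_monotone
    · intro a b hab
      apply Finset.subtype_mono
      apply filter_subset_filter
      exact range_subset_range.2 (by omega)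
    · intro p
      refine ⟨p, ?_⟩
      rw [mem_subtype, mem_filter, mem_range]
      exact ⟨Nat.lt_succ_self _, p.2⟩
  have h2 := Tendsto.comp h1 hmono
  refine Tendsto.congr' ?_ h2
  filter_upwards [eventually_ge_atTop 2] with z hz
  simp only [Function.comp]
  have h3 : ∏ p ∈ (((range (z + 1)).filter Nat.Prime).subtype Nat.Prime), (1 - uu (p : ℕ)) =
      ∏ p ∈ (range (z + 1)).filter Nat.Prime, (1 - uu p) := by
    rw [Finset.prod_subtype_eq_prod_filter (s := (range (z + 1)).filter Nat.Prime) (p := Nat.Prime)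
      (f := fun l : ℕ => 1 - uu l), filter_filter]
    simp
  have h4 : (range (z + 1)).filter Nat.Prime = insert 2 (OZ z) := by
    ext l
    rw [mem_filter, mem_range, mem_insert, mem_OZ]
    constructor
    · rintro ⟨h5, h6⟩
      by_cases h7 : l = 2
      · left; exact h7
      · right
        have := h6.two_le
        exact ⟨h6, by omega, by omega⟩
    · rintro (rfl | ⟨h5, h6, h7⟩)
      · exact ⟨by omega, Nat.prime_two⟩
      · exact ⟨by omega, h5⟩
  have h5 : (2 : ℕ) ∉ OZ z := by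
    rw [mem_OZ]
    omega
  refine h3.trans ?_
  rw [h4, prod_insert h5]
  congr 1
  unfold uu
  norm_num

lemma AC_bd : 0 ≤ AC ∧ AC ≤ 1 := by
  have h := art_lim
  have hb : ∀ z : ℕ, 0 ≤ 1 / 2 * ∏ l ∈ OZ z, (1 - uu l) ∧ 1 / 2 * ∏ l ∈ OZ z, (1 - uu l) ≤ 1 := by
    intro z
    have h1 : ∀ l ∈ OZ z, 0 ≤ 1 - uu l := fun l hl =>
      (Pool.Agent.H730R2.AA.Euler.one_sub_uu_pos (mem_OZ.1 hl).1).le
    have h2 : ∀ l ∈ OZ z, 1 - uu l ≤ 1 := fun l hl => by
      have := Pool.Agent.H730R2.AA.Euler.uu_pos (mem_OZ.1 hl).1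
      linarith
    have h3 := prod_nonneg h1
    have h4 := prod_le_one h1 h2
    constructor <;> linarith
  exact ⟨ge_of_tendsto' h fun z => (hb z).1, le_of_tendsto' h fun z => (hb z).2⟩

lemma dens_AC (D : ℤ) (hD : Squarefree D) (hD1 : D % 4 = 1) :
    |dens D - AC| ≤ 1 / (D.natAbs : ℝ) ∧ |dens D| ≤ 2 := by
  have hprod : 0 ≤ ∏ q ∈ D.natAbs.primeFactors, (1 / ((q : ℝ) ^ 2 - (q : ℝ) - 1)) ∧
      ∏ q ∈ D.natAbs.primeFactors, (1 / ((q : ℝ) ^ 2 - (q : ℝ) - 1)) ≤ 1 / (D.natAbs : ℝ) := by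
    have hq : ∀ q ∈ D.natAbs.primeFactors, (3 : ℝ) ≤ q := by
      intro q hq
      have h1 := Nat.prime_of_mem_primeFactors hq
      have h2 := Nat.dvd_of_mem_primeFactors hq
      have h3 : q ≠ 2 := by
        rintro rfl
        have : (2 : ℤ) ∣ D := Int.natCast_dvd.2 h2
        omega
      have := h1.two_le
      exact_mod_cast (by omega : 3 ≤ q)
    have h1 : (1 : ℝ) / (D.natAbs : ℝ) = ∏ q ∈ D.natAbs.primeFactors, (1 / (q : ℝ)) := by
      have h2 := Nat.prod_primeFactors_of_squarefree (Int.squarefree_natAbs.2 hD)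
      have h3 : (D.natAbs : ℝ) = ∏ q ∈ D.natAbs.primeFactors, (q : ℝ) := by
        conv_lhs => rw [← h2]
        push_cast
        rfl
      rw [h3]
      simp only [one_div, prod_inv_distrib]
    rw [h1]
    constructor
    · apply prod_nonneg
      intro q hq'
      have := hq q hq'
      apply div_nonneg zero_le_one
      nlinarith
    · apply Finset.prod_le_prod
      · intro q hq'
        have := hq q hq'
        apply div_nonneg zero_le_one
        nlinarith
      · intro q hq'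
        have := hq q hq'
        apply one_div_le_one_div_of_le (by linarith)
        nlinarith
  have hAC := AC_bd
  have hmu : |((ArithmeticFunction.moebius D.natAbs : ℤ) : ℝ)| ≤ 1 := by
    have := ArithmeticFunction.abs_moebius_le_one (n := D.natAbs)
    exact_mod_cast this
  have h1 : |dens D - AC| ≤ 1 / (D.natAbs : ℝ) := by
    have h2 : dens D - AC = -(((ArithmeticFunction.moebius D.natAbs : ℤ) : ℝ) *
      (∏ q ∈ D.natAbs.primeFactors, (1 / ((q : ℝ) ^ 2 - (q : ℝ) - 1))) * AC) := by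
      unfold Pool.Agent.H730R2.AA.dens AC
      ring
    rw [h2, abs_neg, abs_mul, abs_mul, abs_of_nonneg hprod.1, abs_of_nonneg hAC.1]
    calc _ ≤ 1 * (1 / (D.natAbs : ℝ)) * 1 := by
          apply mul_le_mul _ hAC.2 hAC.1 (by positivity)
          exact mul_le_mul hmu hprod.2 hprod.1 zero_le_one
      _ = _ := by ring
  refine ⟨h1, ?_⟩
  have hD0 : (1 : ℝ) ≤ D.natAbs := by
    have : D ≠ 0 := hD.ne_zero
    exact_mod_cast Int.natAbs_pos.2 this
  have h2 : (1 : ℝ) / D.natAbs ≤ 1 := by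
    rw [div_le_one (by linarith)]; exact hD0
  rw [abs_le] at h1 ⊢
  constructor <;> linarith [h1.1, h1.2, hAC.1, hAC.2]

end Pool.Agent.KS6_18
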