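import Mathlib
import Pool.Agent.KS6_18.Mt2

set_option autoImplicit false

/-! The main term, uniformly in the square class. -/

namespace Pool.Agent.KS6_18

open Finset Filter Topology
open Pool.Agent.H730R2.AA (rho PR mainT dens cnt cls_tendsto clsP)
open Pool.Agent.H730R2.AA.Euler (uu)
open Pool.Agent.H730R2.AA.MTLib (pi_lower)

lemma card_pf (n : ℕ) (hn : n ≠ 0) : (n.primeFactors.card : ℝ) ≤ 2 * Real.log n := by
  have h1 : 2 ^ n.primeFactors.card ≤ n := by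
    calc 2 ^ n.primeFactors.card ≤ ∏ p ∈ n.primeFactors, p :=
          Finset.pow_card_le_prod _ _ _ (fun p hp => (Nat.prime_of_mem_primeFactors hp).two_le)
      _ ≤ n := Nat.le_of_dvd (Nat.pos_of_ne_zero hn) (Nat.prod_primeFactors_dvd n)
  have h2 : (2 : ℝ) ^ n.primeFactors.card ≤ n := by exact_mod_cast h1
  have h3 := Real.log_le_log (by positivity) h2
  rw [Real.log_pow] at h3
  have h4 : (1 : ℝ) / 2 ≤ Real.log 2 := by
    have := Real.log_two_gt_d9
    linarith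
  have h5 : (0 : ℝ) ≤ n.primeFactors.card := Nat.cast_nonneg _
  nlinarith

lemma pi_upper : ∃ C : ℝ, 1 ≤ C ∧ ∀ x : ℕ, 2 ≤ x → (Nat.primeCounting x : ℝ) ≤ C * (x / Real.log x) := by
  classical
  obtain ⟨C, hC, h⟩ := bt_one
  refine ⟨C, hC, fun x hx => ?_⟩
  have h1 := h x 1 le_rfl (by omega) hx
  rw [Nat.totient_one, Nat.cast_one, one_mul] at h1
  refine le_trans (le_of_eq ?_) h1
  have e : Nat.primeCounting x = ((Icc 1 x).filter (fun p : ℕ => p.Prime ∧ 1 ∣ p - 1)).card := by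
    rw [Nat.primeCounting, Nat.primeCounting', Nat.count_eq_card_filter_range]
    congr 1
    ext p
    simp only [Finset.mem_filter, Finset.mem_range, Finset.mem_Icc]
    constructor
    · rintro ⟨h1, h2⟩
      exact ⟨⟨h2.one_lt.le, by omega⟩, h2, one_dvd _⟩
    · rintro ⟨⟨h1, h3⟩, h2, _⟩
      exact ⟨by omega, h2⟩
  rw [e]

/-- `log N` is small against `x / log x` -/
lemma logN_small (C1 C2 ε : ℝ) (hC1 : 0 < C1) (hC2 : 0 < C2) (hε : 0 < ε) :
    ∀ᶠ N : ℕ in atTop, ∀ x : ℕ, (N : ℝ) ^ C1 ≤ x → (x : ℝ) ≤ (N : ℝ) ^ C2 →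
      Real.log N ≤ ε * (x / Real.log x) := by
  have h1 := (isLittleO_log_rpow_rpow_atTop 2 hC1).bound
    (show (0 : ℝ) < ε / C2 by positivity)
  have h2 := tendsto_natCast_atTop_atTop.eventually h1
  have e1 : ∀ᶠ N : ℕ in atTop, (2 : ℝ) ≤ (N : ℝ) ^ C1 :=
    ((tendsto_rpow_atTop hC1).comp tendsto_natCast_atTop_atTop).eventually_ge_atTop _
  filter_upwards [h2, e1, eventually_ge_atTop 1] with N hN hN2 hN1 x hx1 hx2
  have hN0 : (0 : ℝ) < N := by exact_mod_cast hN1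
  have hx0 : (2 : ℝ) ≤ x := hN2.trans hx1
  have hlogN : 0 ≤ Real.log N := Real.log_nonneg (by exact_mod_cast hN1)
  rw [Real.norm_of_nonneg (by positivity), Real.norm_of_nonneg (by positivity)] at hN
  have hlx : 0 < Real.log x := Real.log_pos (by linarith)
  have hlx2 : Real.log x ≤ C2 * Real.log N := by
    rw [← Real.log_rpow hN0]
    exact Real.log_le_log (by linarith) hx2
  rw [mul_div_assoc', le_div_iff₀ hlx]
  have h3 : Real.log N ^ (2 : ℝ) = Real.log N * Real.log N := by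
    rw [Real.rpow_two, sq]
  rw [h3] at hN
  calc Real.log N * Real.log x ≤ Real.log N * (C2 * Real.log N) :=
        mul_le_mul_of_nonneg_left hlx2 hlogN
    _ = C2 * (Real.log N * Real.log N) := by ring
    _ ≤ C2 * (ε / C2 * (N : ℝ) ^ C1) := mul_le_mul_of_nonneg_left hN hC2.le
    _ = ε * (N : ℝ) ^ C1 := by field_simp
    _ ≤ ε * x := mul_le_mul_of_nonneg_left hx1 hε.le

/-- an eventual property of `x` holds in the whole range for large `N` -/
lemma ev_x (P : ℕ → Prop) (C1 : ℝ) (hC1 : 0 < C1) (h : ∀ᶠ x : ℕ in atTop, P x) :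
    ∀ᶠ N : ℕ in atTop, ∀ x : ℕ, (N : ℝ) ^ C1 ≤ x → P x := by
  obtain ⟨x₀, hx₀⟩ := eventually_atTop.1 h
  have e1 : ∀ᶠ N : ℕ in atTop, (x₀ : ℝ) ≤ (N : ℝ) ^ C1 :=
    ((tendsto_rpow_atTop hC1).comp tendsto_natCast_atTop_atTop).eventually_ge_atTop _
  filter_upwards [e1] with N hN x hx
  exact hx₀ x (by exact_mod_cast hN.trans hx)

lemma jac_sq {n D m : ℤ} (h : n = D * m ^ 2) {p : ℕ} (hp : p.Prime) (hpn : ¬ (p : ℤ) ∣ n) :
    jacobiSym n p = jacobiSym D p := by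
  rw [h, jacobiSym.mul_left]
  have hm : ¬ (p : ℤ) ∣ m := fun h' => hpn (h ▸ (Dvd.dvd.mul_left (dvd_pow h' two_ne_zero) _))
  have hco : Int.gcd m p = 1 := by
    rw [Int.gcd_comm]
    have := (Int.prime_iff_natAbs_prime.2 (by simpa using hp) : Prime (p : ℤ))
    exact Int.isCoprime_iff_gcd_eq_one.1 ((Prime.coprime_iff_not_dvd this).2 hm)
  rw [jacobiSym.pow_left, ← sq_abs]
  have := jacobiSym.sq_one hco
  rw [sq_abs, this, mul_one]

/-- small square classes -/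
theorem mt_small (ε : ℝ) (hε : 0 < ε) : ∃ z₀ : ℕ, 2 ≤ z₀ ∧ ∀ z : ℕ, z₀ ≤ z →
    ∀ (C1 C2 : ℝ), 0 < C1 → 0 < C2 → ∀ B : ℕ,
    ∀ᶠ N : ℕ in atTop, ∀ x : ℕ, (N : ℝ) ^ C1 ≤ x → (x : ℝ) ≤ (N : ℝ) ^ C2 →
      ∀ n D m : ℤ, n = D * m ^ 2 → n ≠ 0 → n.natAbs ≤ N → Squarefree D → D % 4 = 1 → D ≠ 1 →
        (D.natAbs : ℝ) ≤ (Real.log N) ^ B →
        |Mz n x z - dens D * (Nat.primeCounting x : ℝ)| ≤ ε * (x / Real.log x) := by
  classical
  obtain ⟨z₀, hz₀, htail⟩ := tail_sum (ε / 3) (by positivity)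
  refine ⟨z₀, hz₀, fun z hz C1 C2 hC1 hC2 B => ?_⟩
  have e1 := ev_x _ C1 hC1 (htail z hz)
  obtain ⟨x₁, hx₁⟩ := Pool.Agent.X55.Art.ml 2 (B + 1)
  have e2 := ev_x _ C1 hC1 (eventually_atTop.2 ⟨x₁, hx₁⟩)
  have e3 := logN_small C1 C2 (ε / 12) hC1 hC2 (by positivity)
  have e4 : ∀ᶠ x : ℕ in atTop, 3 / ε ≤ Real.log x := log_tend.eventually_ge_atTop _
  have e5 := ev_x _ C1 hC1 e4
  have e6 : ∀ᶠ N : ℕ in atTop, max 1 (1 / C1 ^ (B + 1)) ≤ Real.log N := log_tend.eventually_ge_atTop _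
  have e7 := ev_x _ C1 hC1 (eventually_ge_atTop 3)
  filter_upwards [e1, e2, e3, e5, e6, e7, eventually_ge_atTop 1] with N h1 h2 h3 h5 h6 h7 hN1
  intro x hx1 hx2 n D m hn hn0 hnN hD hD1 hD2 hDB
  have hN0 : (0 : ℝ) < N := by exact_mod_cast hN1
  have hx3 : 3 ≤ x := h7 x hx1
  have hx0 : (0 : ℝ) < x := by exact_mod_cast (by omega : 0 < x)
  have hlx : 0 < Real.log x := Real.log_pos (by exact_mod_cast (by omega : 1 < x))
  have hlN : 1 ≤ Real.log N := (le_max_left _ _).trans h6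
  have hlx1 : C1 * Real.log N ≤ Real.log x := by
    rw [← Real.log_rpow hN0]
    exact Real.log_le_log (by positivity) hx1
  have hDx : (D.natAbs : ℝ) ≤ (Real.log x) ^ (B + 1) := by
    have h8 : 1 / C1 ^ (B + 1) ≤ Real.log N := (le_max_right _ _).trans h6
    rw [div_le_iff₀ (by positivity)] at h8
    calc (D.natAbs : ℝ) ≤ (Real.log N) ^ B := hDB
      _ = 1 * (Real.log N) ^ B := by ring
      _ ≤ (Real.log N * C1 ^ (B + 1)) * (Real.log N) ^ B :=
          mul_le_mul_of_nonneg_right h8 (by positivity)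
      _ = (C1 * Real.log N) ^ (B + 1) := by rw [mul_pow, pow_succ (Real.log N)]; ring
      _ ≤ (Real.log x) ^ (B + 1) := pow_le_pow_left₀ (by positivity) hlx1 _
  have hml := h2 x hx1 D hD hD1 hD2 hDx
  have hml' : (x : ℝ) / Real.log x ^ 2 ≤ ε / 3 * (x / Real.log x) := by
    have h8 := h5 x hx1
    rw [div_le_iff₀ hε] at h8
    rw [mul_div_assoc', div_le_div_iff₀ (by positivity) hlx]
    nlinarith [mul_pos hx0 hlx]
  -- comparison
  have hsub : UU n x ⊆ PR D x := by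
    intro p hp
    have h8 := mem_UU.1 hp
    unfold PR
    rw [mem_filter, mem_range]
    refine ⟨by omega, h8.1.1, h8.1.2.1, fun h9 => h8.2 ?_⟩
    rw [hn]
    exact h9.mul_right _
  have hmain : Mz n x z - mainT D x =
      ∑ p ∈ UU n x, (1 / 2 * rz z p - rho p) * (1 - (jacobiSym D p : ℝ)) -
      ∑ p ∈ PR D x \ UU n x, rho p * (1 - (jacobiSym D p : ℝ)) := by
    unfold Mz mainT
    rw [← sum_sdiff hsub]
    have h8 : ∑ p ∈ UU n x, 1 / 2 * (1 - (jacobiSym n p : ℝ)) * rz z p =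
        ∑ p ∈ UU n x, 1 / 2 * (1 - (jacobiSym D p : ℝ)) * rz z p := by
      apply sum_congr rfl
      intro p hp
      have h9 := mem_UU.1 hp
      rw [jac_sq hn h9.1.1 h9.2]
    rw [h8]
    have h9 : ∑ p ∈ UU n x, (1 / 2 * rz z p - rho p) * (1 - (jacobiSym D p : ℝ)) =
        ∑ p ∈ UU n x, 1 / 2 * (1 - (jacobiSym D p : ℝ)) * rz z p -
        ∑ p ∈ UU n x, rho p * (1 - (jacobiSym D p : ℝ)) := by
      rw [← sum_sub_distrib]
      exact sum_congr rfl fun p _ => by ring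
    rw [h9]
    ring
  have hj : ∀ p : ℕ, 0 ≤ 1 - (jacobiSym D p : ℝ) ∧ 1 - (jacobiSym D p : ℝ) ≤ 2 := by
    intro p
    rcases jacobiSym.trichotomy D p with h | h | h <;> rw [h] <;> norm_num
  have hrho : ∀ p : ℕ, 0 ≤ rho p ∧ rho p ≤ 1 := by
    intro p
    unfold rho
    constructor
    · positivity
    · apply div_le_one_of_le₀ _ (Nat.cast_nonneg _)
      exact_mod_cast Nat.totient_le _
  have hA : |∑ p ∈ UU n x, (1 / 2 * rz z p - rho p) * (1 - (jacobiSym D p : ℝ))| ≤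
      ε / 3 * (x / Real.log x) := by
    refine (abs_sum_le_sum_abs _ _).trans (le_trans ?_ (h1 x hx1))
    refine le_trans ?_ (sum_le_sum_of_subset_of_nonneg (filter_subset _ _ : UU n x ⊆ OX x)
      (fun p _ _ => sum_nonneg fun l _ => by positivity))
    apply sum_le_sum
    intro p hp
    have h8 := mem_UU.1 hp
    have h9 := rho_rz z p (by omega) h8.1.1 h8.1.2.1
    rw [abs_mul, abs_of_nonneg h9.1, abs_of_nonneg (hj p).1]
    calc _ ≤ (1 / 2 * ∑ l ∈ Lb z p, 1 / (l : ℝ)) * 2 :=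
          mul_le_mul h9.2 (hj p).2 (hj p).1 (h9.1.trans h9.2)
      _ = _ := by ring
  have hB : |∑ p ∈ PR D x \ UU n x, rho p * (1 - (jacobiSym D p : ℝ))| ≤
      ε / 3 * (x / Real.log x) := by
    refine (abs_sum_le_sum_abs _ _).trans ?_
    have h8 : PR D x \ UU n x ⊆ n.natAbs.primeFactors := by
      intro p hp
      rw [Finset.mem_sdiff, mem_UU] at hp
      unfold PR at hp
      rw [mem_filter, mem_range] at hp
      obtain ⟨⟨h9, h10, h11, h12⟩, h13⟩ := hp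
      push Not at h13
      have h14 := h13 ⟨h10, h11, by omega⟩
      exact Nat.mem_primeFactors.2 ⟨h10, Int.natCast_dvd.1 h14, Int.natAbs_ne_zero.2 hn0⟩
    calc _ ≤ ∑ p ∈ PR D x \ UU n x, (2 : ℝ) := by
          apply sum_le_sum
          intro p _
          rw [abs_mul, abs_of_nonneg (hrho p).1, abs_of_nonneg (hj p).1]
          nlinarith [(hrho p).1, (hrho p).2, (hj p).1, (hj p).2]
      _ = (PR D x \ UU n x).card * 2 := by rw [sum_const, nsmul_eq_mul]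
      _ ≤ (n.natAbs.primeFactors.card : ℝ) * 2 := by
          apply mul_le_mul_of_nonneg_right _ (by norm_num)
          exact_mod_cast card_le_card h8
      _ ≤ (2 * Real.log n.natAbs) * 2 :=
          mul_le_mul_of_nonneg_right (card_pf _ (Int.natAbs_ne_zero.2 hn0)) (by norm_num)
      _ ≤ (2 * Real.log N) * 2 := by
          have h9 : (0 : ℝ) < n.natAbs := by exact_mod_cast Int.natAbs_pos.2 hn0
          have h10 : Real.log n.natAbs ≤ Real.log N := Real.log_le_log h9 (by exact_mod_cast hnN)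
          linarith
      _ ≤ ε / 3 * (x / Real.log x) := by
          have h9 := h3 x hx1 hx2
          linarith
  have hfin : Mz n x z - dens D * (Nat.primeCounting x : ℝ) =
      (Mz n x z - mainT D x) + (mainT D x - dens D * (Nat.primeCounting x : ℝ)) := by ring
  rw [hfin]
  refine (abs_add_le _ _).trans ?_
  rw [hmain]
  have h8 := abs_sub (∑ p ∈ UU n x, (1 / 2 * rz z p - rho p) * (1 - (jacobiSym D p : ℝ)))
    (∑ p ∈ PR D x \ UU n x, rho p * (1 - (jacobiSym D p : ℝ)))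
  linarith

/-- large square classes -/
theorem mt_large (ε : ℝ) (hε : 0 < ε) : ∃ z₀ : ℕ, 2 ≤ z₀ ∧ ∀ z : ℕ, z₀ ≤ z →
    ∀ (C1 C2 : ℝ), 0 < C1 → 0 < C2 → ∃ A K : ℕ,
    ∀ᶠ N : ℕ in atTop, ∀ x : ℕ, (N : ℝ) ^ C1 ≤ x → (x : ℝ) ≤ (N : ℝ) ^ C2 →
      ∃ F : Finset ℕ, (F.card : ℝ) ≤ (Real.log N) ^ A ∧
      ∀ n D m : ℤ, n = D * m ^ 2 → n ≠ 0 → n.natAbs ≤ N → Squarefree D → D % 4 = 1 →
        K ≤ D.natAbs → D.natAbs ∉ F →
        |Mz n x z - dens D * (Nat.primeCounting x : ℝ)| ≤ ε * (x / Real.log x) := by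
  classical
  obtain ⟨Cp, hCp, hpi⟩ := pi_upper
  set ε' : ℝ := ε / (5 * Cp) with hε'
  have hCp0 : 0 < Cp := by linarith
  have hε'0 : 0 < ε' := by positivity
  have hart := (Metric.tendsto_nhds.1 art_lim) ε' hε'0
  obtain ⟨z₁, hz₁⟩ := eventually_atTop.1 hart
  refine ⟨max 2 z₁, le_max_left _ _, fun z hz C1 C2 hC1 hC2 => ?_⟩
  obtain ⟨A, hA⟩ := quad_x z C1 C2 (ε / 5) hC1 hC2 (by positivity)
  obtain ⟨K, hK⟩ : ∃ K : ℕ, 1 / ε' ≤ K := exists_nat_ge _
  refine ⟨A, K + 1, ?_⟩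
  have hrz := (Metric.tendsto_nhds.1 (rz_lim z)) ε' hε'0
  have e1 := ev_x _ C1 hC1 hrz
  have e3 := logN_small C1 C2 (ε / 5) hC1 hC2 (by positivity)
  have e7 := ev_x _ C1 hC1 (eventually_ge_atTop 3)
  filter_upwards [hA, e1, e3, e7, eventually_ge_atTop 1] with N h0 h1 h3 h7 hN1
  intro x hx1 hx2
  obtain ⟨F, hF1, hF2⟩ := h0 x hx1 hx2
  refine ⟨F, hF1, fun n D m hn hn0 hnN hD hD1 hDK hDF => ?_⟩
  have hN0 : (0 : ℝ) < N := by exact_mod_cast hN1
  have hx3 : 3 ≤ x := h7 x hx1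
  have hx0 : (0 : ℝ) < x := by exact_mod_cast (by omega : 0 < x)
  have hlx : 0 < Real.log x := Real.log_pos (by exact_mod_cast (by omega : 1 < x))
  have hpx := hpi x (by omega)
  have hpx0 : (0 : ℝ) < Nat.primeCounting x := by
    have := pi_lower x (by omega)
    exact lt_of_lt_of_le (by positivity) this
  -- the pieces
  have p1 : |1 / 2 * ∑ p ∈ UU n x, rz z p * (jacobiSym n p : ℝ)| ≤ ε / 5 * (x / Real.log x) := by
    have := hF2 n D m hn hn0 hnN hD hDF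
    rw [abs_mul, abs_of_pos (by norm_num : (0 : ℝ) < 1 / 2)]
    have h8 := abs_nonneg (∑ p ∈ UU n x, rz z p * (jacobiSym n p : ℝ))
    linarith
  have p2 : |1 / 2 * ∑ p ∈ OX x \ UU n x, rz z p| ≤ ε / 5 * (x / Real.log x) := by
    rw [abs_mul, abs_of_pos (by norm_num : (0 : ℝ) < 1 / 2)]
    have h8 : OX x \ UU n x ⊆ n.natAbs.primeFactors := by
      intro p hp
      rw [Finset.mem_sdiff] at hp
      unfold UU at hp
      rw [mem_filter] at hp
      obtain ⟨h9, h13⟩ := hp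
      have h9' := h9
      unfold OX at h9'
      rw [mem_filter] at h9'
      push Not at h13
      exact Nat.mem_primeFactors.2 ⟨h9'.2.1, Int.natCast_dvd.1 (h13 h9), Int.natAbs_ne_zero.2 hn0⟩
    have h9 : |∑ p ∈ OX x \ UU n x, rz z p| ≤ 2 * Real.log N := by
      refine (abs_sum_le_sum_abs _ _).trans ?_
      calc _ ≤ ∑ p ∈ OX x \ UU n x, (1 : ℝ) := by
            apply sum_le_sum
            intro p _
            have := rz_bd z p
            rw [abs_of_nonneg this.1]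
            exact this.2
        _ = ((OX x \ UU n x).card : ℝ) := by rw [sum_const, nsmul_eq_mul, mul_one]
        _ ≤ (n.natAbs.primeFactors.card : ℝ) := by exact_mod_cast card_le_card h8
        _ ≤ 2 * Real.log n.natAbs := card_pf _ (Int.natAbs_ne_zero.2 hn0)
        _ ≤ 2 * Real.log N := by
            have h9 : (0 : ℝ) < n.natAbs := by exact_mod_cast Int.natAbs_pos.2 hn0
            have h10 : Real.log n.natAbs ≤ Real.log N := Real.log_le_log h9 (by exact_mod_cast hnN)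
            linarith
    have h10 := h3 x hx1 hx2
    linarith
  have p3 : |1 / 2 * (∑ p ∈ OX x, rz z p - (∏ l ∈ OZ z, (1 - uu l)) * Nat.primeCounting x)| ≤
      ε / 5 * (x / Real.log x) := by
    have h8 := h1 x hx1
    rw [Real.dist_eq] at h8
    have h9 : ∑ p ∈ OX x, rz z p - (∏ l ∈ OZ z, (1 - uu l)) * Nat.primeCounting x =
        ((∑ p ∈ OX x, rz z p) / Nat.primeCounting x - ∏ l ∈ OZ z, (1 - uu l)) *
          Nat.primeCounting x := by
      field_simp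
    rw [h9, abs_mul, abs_mul, abs_of_pos (by norm_num : (0 : ℝ) < 1 / 2), abs_of_pos hpx0]
    calc _ ≤ 1 / 2 * (ε' * (Cp * (x / Real.log x))) := by
          apply mul_le_mul_of_nonneg_left _ (by norm_num)
          exact mul_le_mul h8.le hpx hpx0.le hε'0.le
      _ = ε / 10 * (x / Real.log x) := by
          rw [hε']
          field_simp
          ring
      _ ≤ _ := by
          apply mul_le_mul_of_nonneg_right _ (by positivity)
          linarith
  have p4 : |(1 / 2 * ∏ l ∈ OZ z, (1 - uu l) - AC) * Nat.primeCounting x| ≤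
      ε / 5 * (x / Real.log x) := by
    have h8 := hz₁ z ((le_max_right _ _).trans hz)
    rw [Real.dist_eq] at h8
    rw [abs_mul, abs_of_pos hpx0]
    calc _ ≤ ε' * (Cp * (x / Real.log x)) := mul_le_mul h8.le hpx hpx0.le hε'0.le
      _ = ε / 5 * (x / Real.log x) := by
          rw [hε']
          field_simp
  have p5 : |(AC - dens D) * Nat.primeCounting x| ≤ ε / 5 * (x / Real.log x) := by
    have h8 := (dens_AC D hD hD1).1
    rw [abs_sub_comm] at h8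
    have h9 : 1 / (D.natAbs : ℝ) ≤ ε' := by
      have h10 : (K : ℝ) + 1 ≤ D.natAbs := by exact_mod_cast hDK
      have h11 : (0 : ℝ) ≤ K := Nat.cast_nonneg _
      rw [div_le_iff₀ (by linarith)]
      rw [div_le_iff₀ hε'0] at hK
      nlinarith
    rw [abs_mul, abs_of_pos hpx0]
    calc _ ≤ ε' * (Cp * (x / Real.log x)) := mul_le_mul (h8.trans h9) hpx hpx0.le hε'0.le
      _ = ε / 5 * (x / Real.log x) := by
          rw [hε']
          field_simp
  have hsum : ∑ p ∈ OX x, rz z p = ∑ p ∈ OX x \ UU n x, rz z p + ∑ p ∈ UU n x, rz z p :=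
    (sum_sdiff (filter_subset _ _ : UU n x ⊆ OX x)).symm
  have hM : Mz n x z = 1 / 2 * ∑ p ∈ UU n x, rz z p -
      1 / 2 * ∑ p ∈ UU n x, rz z p * (jacobiSym n p : ℝ) := by
    unfold Mz
    rw [mul_sum, mul_sum, ← sum_sub_distrib]
    exact sum_congr rfl fun p _ => by ring
  have hfin : Mz n x z - dens D * (Nat.primeCounting x : ℝ) =
      -(1 / 2 * ∑ p ∈ UU n x, rz z p * (jacobiSym n p : ℝ)) - 1 / 2 * ∑ p ∈ OX x \ UU n x, rz z p +
      1 / 2 * (∑ p ∈ OX x, rz z p - (∏ l ∈ OZ z, (1 - uu l)) * Nat.primeCounting x) +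
      (1 / 2 * ∏ l ∈ OZ z, (1 - uu l) - AC) * Nat.primeCounting x +
      (AC - dens D) * Nat.primeCounting x := by
    rw [hM, hsum]
    ring
  rw [hfin]
  rw [abs_le] at p1 p2 p3 p4 p5 ⊢
  constructor
  · linarith [p1.1, p1.2, p2.1, p2.2, p3.1, p3.2, p4.1, p4.2, p5.1, p5.2]
  · linarith [p1.1, p1.2, p2.1, p2.2, p3.1, p3.2, p4.1, p4.2, p5.1, p5.2]

/-- both -/
theorem mz_x (ε : ℝ) (hε : 0 < ε) : ∃ z₀ : ℕ, 2 ≤ z₀ ∧ ∀ z : ℕ, z₀ ≤ z →
    ∀ (C1 C2 : ℝ), 0 < C1 → 0 < C2 → ∃ A : ℕ, ∀ B : ℕ,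
    ∀ᶠ N : ℕ in atTop, ∀ x : ℕ, (N : ℝ) ^ C1 ≤ x → (x : ℝ) ≤ (N : ℝ) ^ C2 →
      ∃ F : Finset ℕ, (F.card : ℝ) ≤ (Real.log N) ^ A ∧ (∀ f ∈ F, (Real.log N) ^ B < f) ∧
      ∀ n D m : ℤ, n = D * m ^ 2 → n ≠ 0 → n.natAbs ≤ N → Squarefree D → D % 4 = 1 → D ≠ 1 →
        D.natAbs ∉ F →
        |Mz n x z - dens D * (Nat.primeCounting x : ℝ)| ≤ ε * (x / Real.log x) := by
  classical
  obtain ⟨z₁, hz₁, h1⟩ := mt_small ε hε
  obtain ⟨z₂, hz₂, h2⟩ := mt_large ε hε
  refine ⟨max z₁ z₂, hz₁.trans (le_max_left _ _), fun z hz C1 C2 hC1 hC2 => ?_⟩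
  obtain ⟨A, K, h4⟩ := h2 z ((le_max_right _ _).trans hz) C1 C2 hC1 hC2
  refine ⟨A, fun B => ?_⟩
  have h3 := h1 z ((le_max_left _ _).trans hz) C1 C2 hC1 hC2 (B + 1)
  have e6 : ∀ᶠ N : ℕ in atTop, max 1 (K : ℝ) ≤ Real.log N := log_tend.eventually_ge_atTop _
  filter_upwards [h3, h4, e6] with N h5 h6 h7 x hx1 hx2
  obtain ⟨F, hF1, hF2⟩ := h6 x hx1 hx2
  have hlN : 1 ≤ Real.log N := (le_max_left _ _).trans h7
  refine ⟨F.filter (fun f => (Real.log N) ^ B < (f : ℝ)), ?_, fun f hf => (mem_filter.1 hf).2, ?_⟩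
  · refine le_trans ?_ hF1
    exact_mod_cast card_filter_le _ _
  · intro n D m hn hn0 hnN hD hD1 hD2 hDF
    by_cases hsm : (D.natAbs : ℝ) ≤ (Real.log N) ^ (B + 1)
    · exact h5 x hx1 hx2 n D m hn hn0 hnN hD hD1 hD2 hsm
    · rw [not_le] at hsm
      apply hF2 n D m hn hn0 hnN hD hD1
      · have h8 : (K : ℝ) ≤ D.natAbs := by
          calc (K : ℝ) ≤ Real.log N := (le_max_right _ _).trans h7
            _ = (Real.log N) ^ 1 := (pow_one _).symm
            _ ≤ (Real.log N) ^ (B + 1) := pow_le_pow_right₀ hlN (by omega)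
            _ ≤ _ := hsm.le
        exact_mod_cast h8
      · intro h8
        apply hDF
        rw [mem_filter]
        refine ⟨h8, lt_of_le_of_lt ?_ hsm⟩
        exact pow_le_pow_right₀ hlN (by omega)

end Pool.Agent.KS6_18
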