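import Mathlib
import Pool.Agent.KS6_18.Mt3

set_option autoImplicit false

/-! All `x` of a long range from a grid. -/

namespace Pool.Agent.KS6_18

open Finset Filter Topology
open Pool.Agent.H730R2.AA (dens)
open Pool.Agent.H730R2.AA.MTLib (pi_lower)

/-- the grid -/
noncomputable def Gr (κ : ℝ) (N : ℕ) (C1 C2 : ℝ) : Finset ℕ :=
  ((range (⌊C2 * Real.log N / Real.log (1 + κ)⌋₊ + 1)).image (fun i => ⌊(1 + κ) ^ i⌋₊)).filter
    (fun x : ℕ => (N : ℝ) ^ C1 ≤ x ∧ (x : ℝ) ≤ (N : ℝ) ^ C2)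

lemma Gr_card (κ : ℝ) (hκ : 0 < κ) (N : ℕ) (C1 C2 : ℝ) (hN : 1 ≤ N) (hC2 : 0 ≤ C2) :
    ((Gr κ N C1 C2).card : ℝ) ≤ C2 * Real.log N / Real.log (1 + κ) + 1 := by
  have h1 : (Gr κ N C1 C2).card ≤ ⌊C2 * Real.log N / Real.log (1 + κ)⌋₊ + 1 := by
    unfold Gr
    refine (card_filter_le _ _).trans (card_image_le.trans ?_)
    rw [card_range]
  have h2 : 0 ≤ C2 * Real.log N / Real.log (1 + κ) := by
    have h3 : 0 ≤ Real.log N := Real.log_nonneg (by exact_mod_cast hN)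
    have h4 : 0 < Real.log (1 + κ) := Real.log_pos (by linarith)
    positivity
  have h3 := Nat.floor_le h2
  have h4 : ((Gr κ N C1 C2).card : ℝ) ≤ (⌊C2 * Real.log N / Real.log (1 + κ)⌋₊ : ℝ) + 1 := by
    exact_mod_cast h1
  linarith

lemma Gr_near (κ : ℝ) (hκ : 0 < κ) (hκ2 : κ ≤ 1 / 4) (C0 C1 C2 : ℝ) (hC0 : 0 < C0) (hC01 : C0 < C1) :
    ∀ᶠ N : ℕ in atTop, ∀ x : ℕ, (N : ℝ) ^ C1 ≤ x → (x : ℝ) ≤ (N : ℝ) ^ C2 →
      ∃ x' ∈ Gr κ N C0 C2, x' ≤ x ∧ (1 - 2 * κ) * x ≤ x' := by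
  have e1 : ∀ᶠ N : ℕ in atTop, 1 / κ ≤ (N : ℝ) ^ C1 :=
    ((tendsto_rpow_atTop (hC0.trans hC01)).comp tendsto_natCast_atTop_atTop).eventually_ge_atTop _
  have e2 : ∀ᶠ N : ℕ in atTop, 2 ≤ (N : ℝ) ^ (C1 - C0) :=
    ((tendsto_rpow_atTop (by linarith)).comp tendsto_natCast_atTop_atTop).eventually_ge_atTop _
  filter_upwards [e1, e2, eventually_ge_atTop 1] with N h1 h2 hN1 x hx1 hx2
  have hN0 : (0 : ℝ) < N := by exact_mod_cast hN1
  have hκx : 1 ≤ κ * x := by
    rw [div_le_iff₀ hκ] at h1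
    nlinarith
  have hx0 : (1 : ℝ) ≤ x := by nlinarith
  obtain ⟨i, hi1, hi2⟩ := exists_nat_pow_near hx0 (by linarith : 1 < 1 + κ)
  have hlog : 0 < Real.log (1 + κ) := Real.log_pos (by linarith)
  have hfl : x * (1 - 2 * κ) ≤ (⌊(1 + κ) ^ i⌋₊ : ℝ) := by
    have h3 := Nat.lt_floor_add_one ((1 + κ) ^ i)
    have h4 : x * (1 - κ) ≤ (1 + κ) ^ i := by
      rw [pow_succ] at hi2
      have h5 : (x : ℝ) * (1 - κ) ≤ (1 + κ) ^ i * ((1 + κ) * (1 - κ)) := by
        nlinarith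
      have h6 : (0 : ℝ) < (1 + κ) ^ i := by positivity
      nlinarith
    nlinarith
  refine ⟨⌊(1 + κ) ^ i⌋₊, ?_, ?_, ?_⟩
  · unfold Gr
    rw [mem_filter, mem_image]
    have hle : ((⌊(1 + κ) ^ i⌋₊ : ℕ) : ℝ) ≤ x := (Nat.floor_le (by positivity)).trans hi1
    refine ⟨⟨i, ?_, rfl⟩, ?_, hle.trans hx2⟩
    · rw [mem_range, Nat.lt_succ_iff]
      apply Nat.le_floor
      rw [le_div_iff₀ hlog]
      have h3 := Real.log_le_log (by positivity) (hi1.trans hx2)
      rw [Real.log_pow, Real.log_rpow hN0] at h3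
      exact h3
    · refine le_trans ?_ hfl
      have h3 : (N : ℝ) ^ C1 = (N : ℝ) ^ C0 * (N : ℝ) ^ (C1 - C0) := by
        rw [← Real.rpow_add hN0]
        congr 1
        ring
      have h4 : (0 : ℝ) < (N : ℝ) ^ C0 := by positivity
      have h5 : (N : ℝ) ^ C0 * 2 ≤ x := by
        refine le_trans ?_ hx1
        rw [h3]
        exact mul_le_mul_of_nonneg_left h2 h4.le
      nlinarith
  · exact_mod_cast (Nat.floor_le (by positivity)).trans hi1
  · linarith

/-- short intervals by the prime number theorem -/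
lemma pi_short (ε : ℝ) (hε : 0 < ε) : ∃ κ : ℝ, 0 < κ ∧ κ ≤ 1 / 4 ∧ ∃ x₀ : ℕ, ∀ x x' : ℕ, x₀ ≤ x' →
    x' ≤ x → (1 - 2 * κ) * x ≤ x' →
    (Nat.primeCounting x : ℝ) - Nat.primeCounting x' ≤ ε * (x / Real.log x) := by
  set e : ℝ := min (ε / 4) (1 / 4) with he
  have he0 : 0 < e := by rw [he]; positivity
  have he1 : e ≤ ε / 4 := min_le_left _ _
  have he2 : e ≤ 1 / 4 := min_le_right _ _
  have h1 := Pool.Agent.Helper923.H403.PNT602.pi_tendsto.comp (tendsto_natCast_atTop_atTop (R := ℝ))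
  have h2 := (Metric.tendsto_nhds.1 h1) e he0
  obtain ⟨x₀, hx₀⟩ := eventually_atTop.1 h2
  refine ⟨e, he0, he2, max x₀ 2, fun x x' hx' hxx hnear => ?_⟩
  have hx'2 : 2 ≤ x' := (le_max_right _ _).trans hx'
  have hx2 : 2 ≤ x := hx'2.trans hxx
  have hx'0 : (0 : ℝ) < x' := by exact_mod_cast (by omega : 0 < x')
  have hx0 : (0 : ℝ) < x := by exact_mod_cast (by omega : 0 < x)
  have hlx' : 0 < Real.log x' := Real.log_pos (by exact_mod_cast (by omega : 1 < x'))
  have hlx : 0 < Real.log x := Real.log_pos (by exact_mod_cast (by omega : 1 < x))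
  have hll : Real.log x' ≤ Real.log x := Real.log_le_log hx'0 (by exact_mod_cast hxx)
  have a1 := hx₀ x (((le_max_left _ _).trans hx').trans hxx)
  have a2 := hx₀ x' ((le_max_left _ _).trans hx')
  simp only [Function.comp, Nat.floor_natCast, Real.dist_eq] at a1 a2
  have b1 := (abs_lt.1 a1).2
  have b2 := (abs_lt.1 a2).1
  have c1 : (Nat.primeCounting x : ℝ) ≤ (1 + e) * (x / Real.log x) := by
    have : (Nat.primeCounting x : ℝ) * Real.log x / x ≤ 1 + e := by linarith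
    rw [div_le_iff₀ hx0] at this
    rw [mul_div_assoc', le_div_iff₀ hlx]
    exact this
  have c2 : (1 - e) * (x' / Real.log x') ≤ (Nat.primeCounting x' : ℝ) := by
    have : 1 - e ≤ (Nat.primeCounting x' : ℝ) * Real.log x' / x' := by linarith
    rw [le_div_iff₀ hx'0] at this
    rw [mul_div_assoc', div_le_iff₀ hlx']
    exact this
  have c3 : (1 - 2 * e) * (x / Real.log x) ≤ x' / Real.log x' := by
    calc (1 - 2 * e) * (x / Real.log x) = ((1 - 2 * e) * x) / Real.log x := by ring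
      _ ≤ x' / Real.log x := div_le_div_of_nonneg_right hnear hlx.le
      _ ≤ x' / Real.log x' := div_le_div_of_nonneg_left hx'0.le hlx' hll
  have hX : 0 < x / Real.log x := by positivity
  calc (Nat.primeCounting x : ℝ) - Nat.primeCounting x' ≤ (1 + e) * (x / Real.log x) -
        (1 - e) * ((1 - 2 * e) * (x / Real.log x)) := by
        have := mul_le_mul_of_nonneg_left c3 (by linarith : 0 ≤ 1 - e)
        linarith
    _ = (4 * e - 2 * e ^ 2) * (x / Real.log x) := by ring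
    _ ≤ ε * (x / Real.log x) := by
        apply mul_le_mul_of_nonneg_right _ hX.le
        nlinarith

lemma OX_sub {x x' : ℕ} (h : x' ≤ x) : OX x' ⊆ OX x := by
  unfold OX
  exact filter_subset_filter _ (Icc_subset_Icc le_rfl h)

lemma PZ_diff (n : ℤ) {x x' : ℕ} (z : ℕ) (h : x' ≤ x) : (PZ n x' z).card ≤ (PZ n x z).card ∧
    ((PZ n x z).card : ℝ) ≤ (PZ n x' z).card + ((Nat.primeCounting x : ℝ) - Nat.primeCounting x') := by
  classical
  have hsub : PZ n x' z ⊆ PZ n x z := by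
    unfold PZ UU
    apply filter_subset_filter
    exact filter_subset_filter _ (OX_sub h)
  refine ⟨card_le_card hsub, ?_⟩
  have h1 : PZ n x z ⊆ PZ n x' z ∪ (Ioc x' x).filter Nat.Prime := by
    intro p hp
    have hp' := hp
    unfold PZ at hp'
    rw [mem_filter, mem_UU] at hp'
    rw [mem_union]
    by_cases hpx : p ≤ x'
    · left
      unfold PZ
      rw [mem_filter, mem_UU]
      exact ⟨⟨⟨hp'.1.1.1, hp'.1.1.2.1, hpx⟩, hp'.1.2⟩, hp'.2⟩
    · right
      rw [mem_filter, mem_Ioc]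
      exact ⟨⟨by omega, hp'.1.1.2.2⟩, hp'.1.1.1⟩
  have h2 : ((Ioc x' x).filter Nat.Prime).card + Nat.primeCounting x' = Nat.primeCounting x := by
    have e : ∀ y : ℕ, Nat.primeCounting y = ((Icc 1 y).filter Nat.Prime).card := by
      intro y
      rw [Nat.primeCounting, Nat.primeCounting', Nat.count_eq_card_filter_range]
      congr 1
      ext p
      simp only [Finset.mem_filter, Finset.mem_range, Finset.mem_Icc]
      constructor
      · rintro ⟨h1, h2⟩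
        exact ⟨⟨h2.one_lt.le, by omega⟩, h2⟩
      · rintro ⟨⟨h1, h3⟩, h2⟩
        exact ⟨by omega, h2⟩
    rw [e, e, ← card_union_of_disjoint]
    · congr 1
      ext p
      simp only [mem_union, mem_filter, mem_Ioc, mem_Icc]
      constructor
      · rintro (⟨⟨h1, h2⟩, h3⟩ | ⟨⟨h1, h2⟩, h3⟩)
        · exact ⟨⟨by omega, h2⟩, h3⟩
        · exact ⟨⟨h1, by omega⟩, h3⟩
      · rintro ⟨⟨h1, h2⟩, h3⟩
        by_cases h4 : p ≤ x'
        · right; exact ⟨⟨h1, h4⟩, h3⟩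
        · left; exact ⟨⟨by omega, h2⟩, h3⟩
    · rw [disjoint_left]
      intro p hp hq
      rw [mem_filter, mem_Ioc] at hp
      rw [mem_filter, mem_Icc] at hq
      omega
  have h3 := (card_le_card h1).trans (card_union_le _ _)
  have h4 : ((PZ n x z).card : ℝ) ≤ (PZ n x' z).card + (((Ioc x' x).filter Nat.Prime).card : ℝ) := by
    exact_mod_cast h3
  have h5 : ((((Ioc x' x).filter Nat.Prime).card : ℕ) : ℝ) + Nat.primeCounting x' =
      Nat.primeCounting x := by exact_mod_cast h2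
  linarith

/-- **The small part, for all `x` of the range at once.** -/
theorem pz_all (ε : ℝ) (hε : 0 < ε) : ∃ z₀ : ℕ, 2 ≤ z₀ ∧ ∀ z : ℕ, z₀ ≤ z →
    ∀ (C1 C2 : ℝ), 0 < C1 → 0 < C2 → ∃ A : ℕ, ∀ B : ℕ,
    ∀ᶠ N : ℕ in atTop, ∃ (F : Finset ℕ) (G : Finset ℤ), (F.card : ℝ) ≤ (Real.log N) ^ A ∧
      (∀ f ∈ F, (Real.log N) ^ B < f) ∧ (G.card : ℝ) ≤ (Real.log N) ^ A ∧ (∀ g ∈ G, g ≠ 0) ∧
      ∀ n D m : ℤ, n = D * m ^ 2 → n ≠ 0 → n.natAbs ≤ N → Squarefree D → D % 4 = 1 → D ≠ 1 →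
        D.natAbs ∉ F →
        (∀ g ∈ G, ∀ l : ℕ, l.Prime → 3 ≤ l → l ≤ z → ∀ y : ℚ, (n : ℚ) ≠ g * y ^ l) →
        ∀ x : ℕ, (N : ℝ) ^ C1 ≤ x → (x : ℝ) ≤ (N : ℝ) ^ C2 →
          |((PZ n x z).card : ℝ) - dens D * (Nat.primeCounting x : ℝ)| ≤ ε * (x / Real.log x) := by
  classical
  obtain ⟨κ, hκ0, hκ1, x₀, hshort⟩ := pi_short (ε / 8) (by positivity)
  obtain ⟨z₀, hz₀, hmz⟩ := mz_x (ε / 8) (by positivity)
  refine ⟨z₀, hz₀, fun z hz C1 C2 hC1 hC2 => ?_⟩
  obtain ⟨A1, h1⟩ := hmz z hz (C1 / 2) C2 (by positivity) hC2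
  obtain ⟨A2, h2⟩ := pz_x z (C1 / 2) C2 (ε / 8) (by positivity) hC2 (by positivity)
  refine ⟨max A1 A2 + 2, fun B => ?_⟩
  have hlog : 0 < Real.log (1 + κ) := Real.log_pos (by linarith)
  have e1 := h1 B
  have e2 := h2
  have e3 := Gr_near κ hκ0 hκ1 (C1 / 2) C1 C2 (by positivity) (by linarith)
  have e4 : ∀ᶠ N : ℕ in atTop, max 1 (C2 / Real.log (1 + κ) + 1) ≤ Real.log N :=
    log_tend.eventually_ge_atTop _
  have e5 : ∀ᶠ N : ℕ in atTop, ((max x₀ 4 : ℕ) : ℝ) ≤ (N : ℝ) ^ (C1 / 2) :=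
    ((tendsto_rpow_atTop (by positivity)).comp tendsto_natCast_atTop_atTop).eventually_ge_atTop _
  filter_upwards [e1, e2, e3, e4, e5, eventually_ge_atTop 1] with N g1 g2 g3 g4 g5 hN1
  have hlN : 1 ≤ Real.log N := (le_max_left _ _).trans g4
  have hmemG : ∀ x ∈ Gr κ N (C1 / 2) C2, (N : ℝ) ^ (C1 / 2) ≤ x ∧ (x : ℝ) ≤ (N : ℝ) ^ C2 := by
    intro x hx
    unfold Gr at hx
    exact (mem_filter.1 hx).2
  have H1 : ∀ x : ℕ, ∃ F : Finset ℕ, x ∈ Gr κ N (C1 / 2) C2 → ((F.card : ℝ) ≤ (Real.log N) ^ A1 ∧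
      (∀ f ∈ F, (Real.log N) ^ B < f) ∧
      ∀ n D m : ℤ, n = D * m ^ 2 → n ≠ 0 → n.natAbs ≤ N → Squarefree D → D % 4 = 1 → D ≠ 1 →
        D.natAbs ∉ F →
        |Mz n x z - dens D * (Nat.primeCounting x : ℝ)| ≤ ε / 8 * (x / Real.log x)) := by
    intro x
    by_cases hx : x ∈ Gr κ N (C1 / 2) C2
    · obtain ⟨F, hF⟩ := g1 x (hmemG x hx).1 (hmemG x hx).2
      exact ⟨F, fun _ => hF⟩
    · exact ⟨∅, fun h => absurd h hx⟩
  have H2 : ∀ x : ℕ, ∃ G : Finset ℤ, x ∈ Gr κ N (C1 / 2) C2 → ((G.card : ℝ) ≤ (Real.log N) ^ A2 ∧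
      (∀ f ∈ G, f ≠ 0) ∧
        ∀ n : ℤ, n ≠ 0 → n.natAbs ≤ N →
          (∀ f ∈ G, ∀ l : ℕ, l.Prime → 3 ≤ l → l ≤ z → ∀ y : ℚ, (n : ℚ) ≠ f * y ^ l) →
          |((PZ n x z).card : ℝ) - Mz n x z| ≤ ε / 8 * (x / Real.log x)) := by
    intro x
    by_cases hx : x ∈ Gr κ N (C1 / 2) C2
    · obtain ⟨F, hF⟩ := g2 x (hmemG x hx).1 (hmemG x hx).2
      exact ⟨F, fun _ => hF⟩
    · exact ⟨∅, fun h => absurd h hx⟩
  choose Ff hFf using H1
  choose Gf hGf using H2
  have hcardG : ((Gr κ N (C1 / 2) C2).card : ℝ) ≤ (Real.log N) ^ 2 := by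
    refine (Gr_card κ hκ0 N (C1 / 2) C2 hN1 hC2.le).trans ?_
    have h3 : C2 / Real.log (1 + κ) + 1 ≤ Real.log N := (le_max_right _ _).trans g4
    calc C2 * Real.log N / Real.log (1 + κ) + 1 ≤ C2 * Real.log N / Real.log (1 + κ) + Real.log N := by
          linarith
      _ = (C2 / Real.log (1 + κ) + 1) * Real.log N := by ring
      _ ≤ Real.log N * Real.log N := mul_le_mul_of_nonneg_right h3 (by linarith)
      _ = (Real.log N) ^ 2 := by ring
  refine ⟨(Gr κ N (C1 / 2) C2).biUnion Ff, (Gr κ N (C1 / 2) C2).biUnion Gf, ?_, ?_, ?_, ?_, ?_⟩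
  · have h3 : ((((Gr κ N (C1 / 2) C2).biUnion Ff).card : ℕ) : ℝ) ≤
        ∑ x ∈ Gr κ N (C1 / 2) C2, ((Ff x).card : ℝ) := by exact_mod_cast card_biUnion_le
    refine h3.trans ?_
    calc _ ≤ ∑ x ∈ Gr κ N (C1 / 2) C2, (Real.log N) ^ (max A1 A2) := by
          apply sum_le_sum
          intro x hx
          exact ((hFf x hx).1).trans (pow_le_pow_right₀ hlN (le_max_left _ _))
      _ = ((Gr κ N (C1 / 2) C2).card : ℝ) * (Real.log N) ^ (max A1 A2) := by
          rw [sum_const, nsmul_eq_mul]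
      _ ≤ (Real.log N) ^ 2 * (Real.log N) ^ (max A1 A2) :=
          mul_le_mul_of_nonneg_right hcardG (by positivity)
      _ = (Real.log N) ^ (max A1 A2 + 2) := by rw [← pow_add, add_comm]
  · intro f hf
    rw [mem_biUnion] at hf
    obtain ⟨x, hx, hfx⟩ := hf
    exact (hFf x hx).2.1 f hfx
  · have h3 : ((((Gr κ N (C1 / 2) C2).biUnion Gf).card : ℕ) : ℝ) ≤
        ∑ x ∈ Gr κ N (C1 / 2) C2, ((Gf x).card : ℝ) := by exact_mod_cast card_biUnion_le
    refine h3.trans ?_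
    calc _ ≤ ∑ x ∈ Gr κ N (C1 / 2) C2, (Real.log N) ^ (max A1 A2) := by
          apply sum_le_sum
          intro x hx
          exact ((hGf x hx).1).trans (pow_le_pow_right₀ hlN (le_max_right _ _))
      _ = ((Gr κ N (C1 / 2) C2).card : ℝ) * (Real.log N) ^ (max A1 A2) := by
          rw [sum_const, nsmul_eq_mul]
      _ ≤ (Real.log N) ^ 2 * (Real.log N) ^ (max A1 A2) :=
          mul_le_mul_of_nonneg_right hcardG (by positivity)
      _ = (Real.log N) ^ (max A1 A2 + 2) := by rw [← pow_add, add_comm]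
  · intro f hf
    rw [mem_biUnion] at hf
    obtain ⟨x, hx, hfx⟩ := hf
    exact (hGf x hx).2.1 f hfx
  · intro n D m hn hn0 hnN hD hD1 hD2 hDF hnG x hx1 hx2
    obtain ⟨x', hx'G, hx'x, hx'near⟩ := g3 x hx1 hx2
    have hx'mem := hmemG x' hx'G
    have hx'3 : max x₀ 4 ≤ x' := by exact_mod_cast g5.trans hx'mem.1
    have hx'3' : 4 ≤ x' := (le_max_right _ _).trans hx'3
    have hx'0 : (0 : ℝ) < x' := by exact_mod_cast (by omega : 0 < x')
    have hx0 : (0 : ℝ) < x := by exact_mod_cast (by omega : 0 < x)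
    have hlx' : 0 < Real.log x' := Real.log_pos (by exact_mod_cast (by omega : 1 < x'))
    have hlx : 0 < Real.log x := Real.log_pos (by exact_mod_cast (by omega : 1 < x))
    have q1 := (hFf x' hx'G).2.2 n D m hn hn0 hnN hD hD1 hD2 (fun h => hDF
      (mem_biUnion.2 ⟨x', hx'G, h⟩))
    have q2 := (hGf x' hx'G).2.2 n hn0 hnN (fun g hg => hnG g (mem_biUnion.2 ⟨x', hx'G, hg⟩))
    have q3 := hshort x x' ((le_max_left _ _).trans hx'3) hx'x hx'near
    have q4 := PZ_diff n z hx'x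
    have q41 : ((PZ n x' z).card : ℝ) ≤ (PZ n x z).card := by exact_mod_cast q4.1
    have q5 := (dens_AC D hD hD1).2
    -- monotonicity of x / log x up to the factor
    have q6 : x' / Real.log x' ≤ 1.5 * (x / Real.log x) := by
      -- x' / log x' ≤ x / log x * (log x / log x'), log x ≤ 1.5 log x'
      have hll : Real.log x ≤ 1.5 * Real.log x' := by
        have h3 : (x : ℝ) ≤ 2 * x' := by nlinarith
        have h4 : Real.log x ≤ Real.log 2 + Real.log x' := by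
          rw [← Real.log_mul (by norm_num) hx'0.ne']
          exact Real.log_le_log hx0 h3
        have h6 : Real.log 4 ≤ Real.log x' := Real.log_le_log (by norm_num) (by exact_mod_cast hx'3')
        have h7 : Real.log 4 = 2 * Real.log 2 := by
          rw [show (4 : ℝ) = 2 ^ 2 by norm_num, Real.log_pow]
          push_cast
          ring
        linarith
      rw [mul_div_assoc', div_le_div_iff₀ hlx' hlx]
      have h3 : (x' : ℝ) ≤ x := by exact_mod_cast hx'x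
      nlinarith
    have hX : 0 < x / Real.log x := by positivity
    have q7 : |dens D * ((Nat.primeCounting x : ℝ) - Nat.primeCounting x')| ≤ ε / 4 * (x / Real.log x) := by
      have h3 : 0 ≤ (Nat.primeCounting x : ℝ) - Nat.primeCounting x' := by
        have : (Nat.primeCounting x' : ℝ) ≤ Nat.primeCounting x := by
          exact_mod_cast Nat.monotone_primeCounting hx'x
        linarith
      rw [abs_mul, abs_of_nonneg h3]
      calc _ ≤ 2 * (ε / 8 * (x / Real.log x)) := mul_le_mul q5 q3 h3 (by norm_num)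
        _ = _ := by ring
    have hfin : ((PZ n x z).card : ℝ) - dens D * (Nat.primeCounting x : ℝ) =
        (((PZ n x z).card : ℝ) - (PZ n x' z).card) + (((PZ n x' z).card : ℝ) - Mz n x' z) +
        (Mz n x' z - dens D * (Nat.primeCounting x' : ℝ)) -
        dens D * ((Nat.primeCounting x : ℝ) - Nat.primeCounting x') := by ring
    rw [hfin]
    have q8 : ε / 8 * (x' / Real.log x') ≤ ε / 8 * (1.5 * (x / Real.log x)) :=
      mul_le_mul_of_nonneg_left q6 (by positivity)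
    have q9 : |((PZ n x z).card : ℝ) - (PZ n x' z).card| ≤ ε / 8 * (x / Real.log x) := by
      rw [abs_of_nonneg (by linarith)]
      linarith [q4.2]
    have q10 := abs_sub ((((PZ n x z).card : ℝ) - (PZ n x' z).card) +
      (((PZ n x' z).card : ℝ) - Mz n x' z) + (Mz n x' z - dens D * (Nat.primeCounting x' : ℝ)))
      (dens D * ((Nat.primeCounting x : ℝ) - Nat.primeCounting x'))
    have q11 := abs_add_three (((PZ n x z).card : ℝ) - (PZ n x' z).card)
      (((PZ n x' z).card : ℝ) - Mz n x' z) (Mz n x' z - dens D * (Nat.primeCounting x' : ℝ))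
    have q12 : 0 < ε * (x / Real.log x) := by positivity
    linarith

end Pool.Agent.KS6_18
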