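import Mathlib
import Pool.Agent.KS6_18.Grid

set_option autoImplicit false

/-! Arbitrary sets of primes and arbitrary local conditions: the small part. -/

namespace Pool.Agent.KS6_18

open Finset Filter Topology

/-- the primes `≤ z` -/
def QZ (z : ℕ) : Finset ℕ := (Icc 2 z).filter Nat.Prime

lemma mem_QZ {z l : ℕ} : l ∈ QZ z ↔ l.Prime ∧ l ≤ z := by
  unfold QZ
  rw [mem_filter, mem_Icc]
  constructor
  · rintro ⟨⟨_, h2⟩, h3⟩
    exact ⟨h3, h2⟩
  · rintro ⟨h1, h2⟩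
    exact ⟨⟨h1.two_le, h2⟩, h1⟩

/-- a set of primes with sets of prime divisors of `p - 1` -/
structure Sys where
  T : Set ℕ
  Λ : ℕ → Finset ℕ
  hT : ∀ p ∈ T, p.Prime
  hΛ : ∀ p ∈ T, ∀ l ∈ Λ p, l.Prime ∧ l ∣ p - 1

variable (σ : Sys)

open Classical in
/-- the odd primes `p ≤ x` of `T` -/
noncomputable def TX (x : ℕ) : Finset ℕ := (OX x).filter (fun p => p ∈ σ.T)

/-- the odd primes `p ≤ x` of `T` not dividing `n` -/
noncomputable def UT (n : ℤ) (x : ℕ) : Finset ℕ := (TX σ x).filter (fun p : ℕ => ¬ (p : ℤ) ∣ n)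

lemma mem_TX {x p : ℕ} : p ∈ TX σ x ↔ (p ≠ 2 ∧ p ≤ x) ∧ p ∈ σ.T := by
  classical
  unfold TX OX
  rw [mem_filter, mem_filter, mem_Icc]
  constructor
  · rintro ⟨⟨⟨h1, h2⟩, h3, h4⟩, h5⟩
    exact ⟨⟨h4, h2⟩, h5⟩
  · rintro ⟨⟨h1, h2⟩, h3⟩
    have := σ.hT p h3
    exact ⟨⟨⟨this.one_le, h2⟩, this, h1⟩, h3⟩

lemma mem_UT {n : ℤ} {x p : ℕ} : p ∈ UT σ n x ↔ ((p ≠ 2 ∧ p ≤ x) ∧ p ∈ σ.T) ∧ ¬ (p : ℤ) ∣ n := by
  unfold UT
  rw [mem_filter, mem_TX]

/-- the primes `l ≤ z` of `Λ p` -/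
def Lz (z p : ℕ) : Finset ℕ := (σ.Λ p).filter (fun l => l ≤ z)

open Classical in
/-- `n` is no `l`-th power for `l ∈ Λ p`, `l ≤ z` -/
noncomputable def PG (n : ℤ) (x z : ℕ) : Finset ℕ :=
  (UT σ n x).filter (fun p : ℕ => ∀ l ∈ Lz σ z p, (n : ZMod p) ^ ((p - 1) / l) ≠ 1)

/-- the density of the small part -/
noncomputable def rg (z p : ℕ) : ℝ := ∏ l ∈ Lz σ z p, (1 - 1 / (l : ℝ))

/-- the weight of a set of primes -/
noncomputable def wg (z : ℕ) (t : Finset ℕ) (p : ℕ) : ℝ :=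
  (∏ l ∈ t, (-1 / (l : ℝ))) * ∏ l ∈ Lz σ z p \ t, (1 - 1 / (l : ℝ))

lemma Lz_sub {x z p : ℕ} (hp : p ∈ TX σ x) : Lz σ z p ⊆ QZ z := by
  intro l hl
  unfold Lz at hl
  rw [mem_filter] at hl
  exact mem_QZ.2 ⟨(σ.hΛ p ((mem_TX σ).1 hp).2 l hl.1).1, hl.2⟩

lemma l_frac' {l : ℕ} (hl : l.Prime) : 0 ≤ 1 - 1 / (l : ℝ) ∧ 1 - 1 / (l : ℝ) ≤ 1 := by
  have h2 : (2 : ℝ) ≤ l := by exact_mod_cast hl.two_le
  constructor
  · rw [sub_nonneg, div_le_one (by linarith)]
    linarith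
  · have : (0 : ℝ) ≤ 1 / l := by positivity
    linarith

lemma rg_bd {x : ℕ} (z : ℕ) {p : ℕ} (hp : p ∈ TX σ x) : 0 ≤ rg σ z p ∧ rg σ z p ≤ 1 := by
  unfold rg
  have h := fun l (hl : l ∈ Lz σ z p) => l_frac' (mem_QZ.1 (Lz_sub σ hp hl)).1
  exact ⟨prod_nonneg fun l hl => (h l hl).1, prod_le_one (fun l hl => (h l hl).1)
    fun l hl => (h l hl).2⟩

lemma wg_abs (z : ℕ) (t : Finset ℕ) (ht : t ⊆ QZ z) {x p : ℕ} (hp : p ∈ TX σ x) :
    |wg σ z t p| ≤ 1 := by
  unfold wg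
  rw [abs_mul, abs_prod, abs_prod]
  apply mul_le_one₀ _ (prod_nonneg fun _ _ => abs_nonneg _)
  · apply prod_le_one (fun _ _ => abs_nonneg _)
    intro l hl
    have := l_frac' (mem_QZ.1 (Lz_sub σ hp (Finset.mem_sdiff.1 hl).1)).1
    rw [abs_of_nonneg this.1]
    exact this.2
  · apply prod_le_one (fun _ _ => abs_nonneg _)
    intro l hl
    have h1 := (mem_QZ.1 (ht hl)).1.two_le
    have h2 : (2 : ℝ) ≤ l := by exact_mod_cast h1
    rw [abs_div, abs_neg, abs_one, abs_of_nonneg (by linarith : (0 : ℝ) ≤ l),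
      div_le_one (by linarith)]
    linarith

/-- the expansion of the indicator function -/
lemma ind_eq' (z : ℕ) {x p : ℕ} (hp : p ∈ TX σ x) (n : ℤ) :
    (open Classical in (if ∀ l ∈ Lz σ z p, (n : ZMod p) ^ ((p - 1) / l) ≠ 1 then (1 : ℝ) else 0)) =
      ∑ t ∈ (Lz σ z p).powerset, wg σ z t p * ∏ l ∈ t, gl l p n := by
  classical
  have h1 : ∏ l ∈ Lz σ z p, (-gl l p n / l + (1 - 1 / (l : ℝ))) =
      if ∀ l ∈ Lz σ z p, (n : ZMod p) ^ ((p - 1) / l) ≠ 1 then (1 : ℝ) else 0 := by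
    have hval : ∀ l ∈ Lz σ z p, -gl l p n / l + (1 - 1 / (l : ℝ)) =
        if (n : ZMod p) ^ ((p - 1) / l) ≠ 1 then (1 : ℝ) else 0 := by
      intro l hl
      have h1 := (mem_QZ.1 (Lz_sub σ hp hl)).1.two_le
      have h2 : (l : ℝ) ≠ 0 := by
        have : (2 : ℝ) ≤ l := by exact_mod_cast h1
        linarith
      unfold gl
      by_cases h : (n : ZMod p) ^ ((p - 1) / l) = 1
      · rw [if_pos h, if_neg (not_not.2 h)]
        field_simp
        ring
      · rw [if_neg h, if_pos h]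
        field_simp
        ring
    rw [prod_congr rfl hval]
    by_cases hall : ∀ l ∈ Lz σ z p, (n : ZMod p) ^ ((p - 1) / l) ≠ 1
    · rw [if_pos hall]
      exact prod_eq_one fun l hl => by rw [if_pos (hall l hl)]
    · rw [if_neg hall]
      push Not at hall
      obtain ⟨l, hl, h⟩ := hall
      exact prod_eq_zero hl (by rw [if_neg (not_not.2 h)])
  rw [← h1, prod_add]
  apply sum_congr rfl
  intro t _
  unfold wg
  have h2 : ∏ l ∈ t, (-gl l p n / l) = (∏ l ∈ t, (-1 / (l : ℝ))) * ∏ l ∈ t, gl l p n := by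
    rw [← prod_mul_distrib]
    exact prod_congr rfl fun l _ => by ring
  rw [h2]
  ring

/-- the sum over a set of primes -/
noncomputable def Sg (n : ℤ) (x z : ℕ) (t : Finset ℕ) : ℝ :=
  ∑ p ∈ (UT σ n x).filter (fun p => t ⊆ Lz σ z p), wg σ z t p * (∏ l ∈ t, gl l p n)

lemma UT_TX {n : ℤ} {x p : ℕ} (hp : p ∈ UT σ n x) : p ∈ TX σ x := (mem_filter.1 hp).1

lemma PG_card (n : ℤ) (x z : ℕ) : ((PG σ n x z).card : ℝ) =
    ∑ t ∈ (QZ z).powerset, Sg σ n x z t := by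
  classical
  have h1 : ((PG σ n x z).card : ℝ) = ∑ p ∈ UT σ n x,
      (if ∀ l ∈ Lz σ z p, (n : ZMod p) ^ ((p - 1) / l) ≠ 1 then (1 : ℝ) else 0) := by
    unfold PG
    rw [card_filter]
    push_cast
    rfl
  rw [h1]
  have h2 : ∀ p ∈ UT σ n x,
      (if ∀ l ∈ Lz σ z p, (n : ZMod p) ^ ((p - 1) / l) ≠ 1 then (1 : ℝ) else 0) =
      ∑ t ∈ (QZ z).powerset, if t ⊆ Lz σ z p then
        (wg σ z t p * ∏ l ∈ t, gl l p n) else 0 := by
    intro p hp
    rw [ind_eq' σ z (UT_TX σ hp), ← sum_filter]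
    apply sum_congr _ fun _ _ => rfl
    ext t
    rw [mem_powerset, mem_filter, mem_powerset]
    exact ⟨fun h => ⟨h.trans (Lz_sub σ (UT_TX σ hp)), h⟩, fun h => h.2⟩
  rw [sum_congr rfl h2, sum_comm]
  apply sum_congr rfl
  intro t _
  unfold Sg
  rw [sum_filter]

/-- the main part -/
noncomputable def Mg (n : ℤ) (x z : ℕ) : ℝ := ∑ p ∈ UT σ n x, rg σ z p

lemma Sg_empty (n : ℤ) (x z : ℕ) : Sg σ n x z ∅ = Mg σ n x z := by
  classical
  unfold Sg Mg
  have h1 : (UT σ n x).filter (fun p => (∅ : Finset ℕ) ⊆ Lz σ z p) = UT σ n x :=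
    filter_true_of_mem fun p _ => empty_subset _
  rw [h1]
  apply sum_congr rfl
  intro p _
  unfold wg rg
  rw [prod_empty, prod_empty, sdiff_empty]
  ring

lemma gl_two {n : ℤ} {p : ℕ} (hp : p.Prime) (hp2 : p ≠ 2) (hn : ¬ (p : ℤ) ∣ n) :
    gl 2 p n = (jacobiSym n p : ℝ) := by
  have : Fact p.Prime := ⟨hp⟩
  have hp3 : 2 < p := by have := hp.two_le; omega
  have : Fact (2 < p) := ⟨hp3⟩
  have hodd : p % 2 = 1 := by
    have := hp.eq_two_or_odd
    omega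
  have h1 : (p - 1) / 2 = p / 2 := by omega
  have hn0 : (n : ZMod p) ≠ 0 := by
    rw [Ne, ZMod.intCast_zmod_eq_zero_iff_dvd]
    exact hn
  unfold gl
  rw [h1, ← legendreSym.eq_pow, ← jacobiSym.legendreSym.to_jacobiSym]
  rcases legendreSym.eq_one_or_neg_one p hn0 with h | h
  · rw [h, if_pos (by push_cast; rfl)]
    norm_num
  · rw [h, if_neg]
    · norm_num
    · push_cast
      exact ZMod.neg_one_ne_one

/-- few classes for all sets of primes -/
theorem pg_x (z : ℕ) (C1 C2 η : ℝ) (hC1 : 0 < C1) (hC2 : 0 < C2) (hη : 0 < η) :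
    ∃ A : ℕ, ∀ᶠ N : ℕ in atTop, ∀ x : ℕ, (N : ℝ) ^ C1 ≤ x → (x : ℝ) ≤ (N : ℝ) ^ C2 → ∀ σ : Sys,
      ∃ F : Finset ℤ, (F.card : ℝ) ≤ (Real.log N) ^ A ∧ (∀ f ∈ F, f ≠ 0) ∧
        ∀ n : ℤ, n ≠ 0 → n.natAbs ≤ N →
          (∀ f ∈ F, ∀ l : ℕ, l.Prime → l ≤ z → (∃ p ∈ σ.T, l ∈ σ.Λ p) → ∀ y : ℚ, (n : ℚ) ≠ f * y ^ l) →
          |((PG σ n x z).card : ℝ) - Mg σ n x z| ≤ η * (x / Real.log x) := by
  classical
  set P := (QZ z).powerset.erase ∅ with hP
  set η' : ℝ := η / (P.card + 1) with hη'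
  have hη'0 : 0 < η' := by positivity
  -- the product of a set of primes
  have hprops : ∀ t ∈ P, 0 < ∏ l ∈ t.erase 2, l ∧ Odd (∏ l ∈ t.erase 2, l) ∧
      Squarefree (∏ l ∈ t.erase 2, l) ∧
      (∏ l ∈ t.erase 2, l).primeFactors = t.erase 2 ∧
      (1 < ∏ l ∈ t.erase 2, l ∨ (if 2 ∈ t then 1 else 0) = 1) := by
    intro t ht
    rw [hP, mem_erase, mem_powerset] at ht
    have htp : ∀ l ∈ t.erase 2, l.Prime := fun l hl => (mem_QZ.1 (ht.2 (mem_of_mem_erase hl))).1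
    have ht3 : ∀ l ∈ t.erase 2, 3 ≤ l := fun l hl => by
      have h1 := (htp l hl).two_le
      have h2 := ne_of_mem_erase hl
      omega
    have hpf : (∏ l ∈ t.erase 2, l).primeFactors = t.erase 2 := Nat.primeFactors_prod htp
    refine ⟨prod_pos fun l hl => (htp l hl).pos, ?_, ?_, hpf, ?_⟩
    · rw [← Nat.not_even_iff_odd, even_iff_two_dvd]
      intro h
      obtain ⟨l, hl, h2⟩ := (Nat.prime_two.prime.dvd_finsetProd_iff _).1 h
      have := (Nat.prime_dvd_prime_iff_eq Nat.prime_two (htp l hl)).1 h2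
      have := ht3 l hl
      omega
    · apply Finset.squarefree_prod_of_pairwise_isCoprime
      · intro l hl l' hl' hne
        simp only [Function.onFun]
        rw [← Nat.coprime_iff_isRelPrime]
        exact (Nat.coprime_primes (htp l hl) (htp l' hl')).2 hne
      · intro l hl
        exact (htp l hl).prime.squarefree
    · by_cases h2 : 2 ∈ t
      · right; rw [if_pos h2]
      · left
        obtain ⟨l, hl⟩ := nonempty_iff_ne_empty.2 ht.1
        have hl' : l ∈ t.erase 2 := mem_erase.2 ⟨fun h => h2 (h ▸ hl), hl⟩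
        have h1 := Nat.le_of_dvd (prod_pos fun l hl => (htp l hl).pos)
          (dvd_prod_of_mem (fun l => l) hl')
        exact lt_of_lt_of_le (htp l hl').one_lt h1
  have H : ∀ (t : Finset ℕ), ∃ A : ℕ, t ∈ P →
      ∀ᶠ N : ℕ in atTop, ∀ x : ℕ, (N : ℝ) ^ C1 ≤ x → (x : ℝ) ≤ (N : ℝ) ^ C2 → ∀ σ : Sys,
        ∃ F : Finset ℤ, (F.card : ℝ) ≤ (Real.log N) ^ A ∧
          ∀ n : ℤ, n ≠ 0 → n.natAbs ≤ N → η' * (x / Real.log x) < |Sg σ n x z t| →
            ∃ f ∈ F, f ≠ 0 ∧ ∀ l ∈ t, ∃ y : ℚ, (n : ℚ) = f * y ^ l := by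
    intro t
    by_cases ht : t ∈ P
    · obtain ⟨h1, h2, h3, h4, h5⟩ := hprops t ht
      have ht' := ht
      rw [hP, mem_erase, mem_powerset] at ht'
      have : NeZero (∏ l ∈ t.erase 2, l) := ⟨h1.ne'⟩
      obtain ⟨A, hA⟩ := sm (∏ l ∈ t.erase 2, l) (if 2 ∈ t then 1 else 0) h2 h3
        (by split_ifs <;> norm_num) h5 C1 C2 η' hC1 hC2 hη'0
      refine ⟨A, fun _ => ?_⟩
      filter_upwards [hA] with N hN x hx1 hx2 σ
      have hdvd : ∀ p ∈ (TX σ x).filter (fun p => t ⊆ Lz σ z p), (∏ l ∈ t.erase 2, l) ∣ p - 1 := by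
        intro p hp
        rw [mem_filter] at hp
        apply Finset.prod_primes_dvd
        · intro l hl
          exact (mem_QZ.1 (ht'.2 (mem_of_mem_erase hl))).1.prime
        · intro l hl
          have h6 := hp.2 (mem_of_mem_erase hl)
          unfold Lz at h6
          exact (σ.hΛ p ((mem_TX σ).1 hp.1).2 l (mem_filter.1 h6).1).2
      obtain ⟨F, hF1, hF2⟩ := hN x hx1 hx2 ((TX σ x).filter (fun p => t ⊆ Lz σ z p))
        (by
          intro p hp
          have h6 := (mem_TX σ).1 (mem_filter.1 hp).1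
          exact ⟨⟨σ.hT p h6.2, hdvd p hp⟩, h6.1.2⟩)
        (wg σ z t) (fun p hp => wg_abs σ z t ht'.2 (mem_filter.1 hp).1)
      refine ⟨F, hF1, fun n hn0 hnN hbig => ?_⟩
      have heq : ((TX σ x).filter (fun p => t ⊆ Lz σ z p)).filter
          (fun p : ℕ => ¬ (p : ℤ) ∣ n) = (UT σ n x).filter (fun p => t ⊆ Lz σ z p) := by
        unfold UT
        rw [filter_filter, filter_filter]
        apply filter_congr
        intro p _
        exact and_comm
      have hprod : ∀ p ∈ (UT σ n x).filter (fun p => t ⊆ Lz σ z p),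
          wg σ z t p * (∏ l ∈ (∏ l ∈ t.erase 2, l).primeFactors, gl l p n) *
            (jacobiSym n p : ℝ) ^ (if 2 ∈ t then 1 else 0) =
          wg σ z t p * (∏ l ∈ t, gl l p n) := by
        intro p hp
        have hp1 := (mem_UT σ).1 (mem_filter.1 hp).1
        rw [h4, mul_assoc]
        congr 1
        by_cases h6 : 2 ∈ t
        · rw [if_pos h6, pow_one, ← mul_prod_erase t (fun l => gl l p n) h6,
            gl_two (σ.hT p hp1.1.2) hp1.1.1.1 hp1.2]
          ring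
        · rw [if_neg h6, pow_zero, mul_one, erase_eq_of_notMem h6]
      obtain ⟨f, hf, hf0, hfl⟩ := hF2 n hn0 hnN (by
        rw [heq, sum_congr rfl hprod]
        exact hbig)
      refine ⟨f, hf, hf0, fun l hl => hfl l ?_ ?_⟩
      · exact (mem_QZ.1 (ht'.2 hl)).1
      · by_cases h6 : l = 2
        · rw [h6] at hl ⊢
          rw [if_pos hl, pow_one]
          exact dvd_mul_left _ _
        · exact (dvd_prod_of_mem (fun l => l) (mem_erase.2 ⟨h6, hl⟩)).mul_right _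
    · exact ⟨0, fun h1 => absurd h1 ht⟩
  choose Af hAf using H
  set As : ℕ := ∑ t ∈ P, Af t with hAs
  have hAle : ∀ t ∈ P, Af t ≤ As := by
    intro t ht
    exact single_le_sum (f := fun t => Af t) (fun _ _ => Nat.zero_le _) ht
  refine ⟨As + 1, ?_⟩
  have e1 : ∀ᶠ N : ℕ in atTop, ∀ t ∈ P, _ :=
    (eventually_all_finset P).2 (fun t ht => hAf t ht)
  have e2 : ∀ᶠ N : ℕ in atTop, max 1 (P.card : ℝ) ≤ Real.log N :=
    log_tend.eventually_ge_atTop _
  filter_upwards [e1, e2] with N h1 h2 x hx1 hx2 σ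
  have hlN : 1 ≤ Real.log N := (le_max_left _ _).trans h2
  have H2 : ∀ (t : Finset ℕ), ∃ F : Finset ℤ, t ∈ P →
      (F.card : ℝ) ≤ (Real.log N) ^ (Af t) ∧
          ∀ n : ℤ, n ≠ 0 → n.natAbs ≤ N → η' * (x / Real.log x) < |Sg σ n x z t| →
            ∃ f ∈ F, f ≠ 0 ∧ ∀ l ∈ t, ∃ y : ℚ, (n : ℚ) = f * y ^ l := by
    intro t
    by_cases hcond : t ∈ P
    · obtain ⟨F, hF⟩ := h1 t hcond x hx1 hx2 σ
      exact ⟨F, fun _ => hF⟩
    · exact ⟨∅, fun h1 => absurd h1 hcond⟩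
  choose Ff hFf using H2
  set F : Finset ℤ := (P.biUnion fun t => Ff t).filter (fun f => f ≠ 0)
    with hF
  refine ⟨F, ?_, fun f hf => (mem_filter.1 hf).2, ?_⟩
  · have h4 : (F.card : ℝ) ≤ ∑ t ∈ P, ((Ff t).card : ℝ) := by
      have h5 : F.card ≤ ∑ t ∈ P, (Ff t).card :=
        (card_filter_le _ _).trans card_biUnion_le
      exact_mod_cast h5
    refine h4.trans ?_
    calc _ ≤ ∑ t ∈ P, (Real.log N) ^ As :=
          sum_le_sum fun t ht => ((hFf t ht).1).trans (pow_le_pow_right₀ hlN (hAle t ht))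
      _ = (P.card : ℝ) * (Real.log N) ^ As := by
          rw [sum_const, nsmul_eq_mul]
      _ ≤ Real.log N * (Real.log N) ^ As :=
          mul_le_mul_of_nonneg_right ((le_max_right _ _).trans h2) (by positivity)
      _ = (Real.log N) ^ (As + 1) := by rw [pow_succ]; ring
  · intro n hn0 hnN hexcl
    by_contra hcon
    rw [not_le] at hcon
    have hdiff : ((PG σ n x z).card : ℝ) - Mg σ n x z = ∑ t ∈ P, Sg σ n x z t := by
      rw [PG_card, ← add_sum_erase _ _ (empty_mem_powerset (QZ z)), Sg_empty, ← hP]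
      ring
    have hXl : 0 ≤ (x : ℝ) / Real.log x := by
      by_cases h0 : x = 0
      · rw [h0]; simp
      · have : (1 : ℝ) ≤ x := by exact_mod_cast Nat.one_le_iff_ne_zero.2 h0
        exact div_nonneg (by linarith) (Real.log_nonneg this)
    obtain ⟨t, ht, hbig⟩ : ∃ t ∈ P, η' * (x / Real.log x) < |Sg σ n x z t| := by
      by_contra hall
      push Not at hall
      apply absurd hcon
      rw [not_lt, hdiff]
      refine (abs_sum_le_sum_abs _ _).trans ?_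
      calc _ ≤ ∑ t ∈ P, η' * (x / Real.log x) := sum_le_sum fun t ht => hall t ht
        _ = P.card * η' * (x / Real.log x) := by rw [sum_const, nsmul_eq_mul]; ring
        _ ≤ η * (x / Real.log x) := by
            apply mul_le_mul_of_nonneg_right _ hXl
            rw [hη', mul_div_assoc', div_le_iff₀ (by positivity)]
            nlinarith
    obtain ⟨f, hf, hf0, hfl⟩ := (hFf t ht).2 n hn0 hnN hbig
    have ht' := ht
    rw [hP, mem_erase, mem_powerset] at ht'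
    obtain ⟨l, hl⟩ := nonempty_iff_ne_empty.2 ht'.1
    obtain ⟨y, hy⟩ := hfl l hl
    have hl' := mem_QZ.1 (ht'.2 hl)
    have hne : ∃ p ∈ σ.T, l ∈ σ.Λ p := by
      by_contra hno
      push Not at hno
      have : Sg σ n x z t = 0 := by
        unfold Sg
        rw [filter_false_of_mem, sum_empty]
        intro p hp hsub
        have h6 := hsub hl
        unfold Lz at h6
        exact hno p ((mem_UT σ).1 hp).1.2 (mem_filter.1 h6).1
      rw [this, abs_zero] at hbig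
      have : 0 ≤ η' * (x / Real.log x) := mul_nonneg hη'0.le hXl
      linarith
    refine hexcl f ?_ l hl'.1 hl'.2 hne y hy
    rw [hF, mem_filter, mem_biUnion]
    exact ⟨⟨t, ht, hf⟩, hf0⟩

end Pool.Agent.KS6_18
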