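import Mathlib
import Pool.Agent.KS6_18.Grid
import Pool.Agent.KS6_18.Avg

set_option autoImplicit false

/-! Artin's density for almost all integers of a long range. -/

namespace Pool.Agent.KS6_18

open Finset Filter Topology
open Pool.Agent.H730R2.AA (dens)
open Pool.Agent.H730R2.AA.MTLib (pi_lower)

/-- the trivial coset -/
def one' : ℕ → (p : ℕ) → ZMod p := fun _ _ => 1

open Classical in
/-- the primes `p ≤ x` with the primitive root `n` -/
noncomputable def Pp (n : ℤ) (x : ℕ) : Finset ℕ :=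
  (Icc 1 x).filter (fun p : ℕ => p.Prime ∧ ¬ (p : ℤ) ∣ n ∧ orderOf (n : ZMod p) = p - 1)

lemma half_ne {n : ℤ} {p : ℕ} (hp : p.Prime) (hp2 : p ≠ 2) (hn : ¬ (p : ℤ) ∣ n) :
    jacobiSym n p = -1 ↔ (n : ZMod p) ^ ((p - 1) / 2) ≠ 1 := by
  have : Fact p.Prime := ⟨hp⟩
  have hp3 : 2 < p := by have := hp.two_le; omega
  have : Fact (2 < p) := ⟨hp3⟩
  have hodd : p % 2 = 1 := by
    have := hp.eq_two_or_odd
    omega
  have h1 : (p - 1) / 2 = p / 2 := by omega
  have hn0 : (n : ZMod p) ≠ 0 := by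
    rw [Ne, ZMod.intCast_zmod_eq_zero_iff_dvd]
    exact hn
  rw [h1, ← legendreSym.eq_pow, ← jacobiSym.legendreSym.to_jacobiSym]
  rcases legendreSym.eq_one_or_neg_one p hn0 with h | h
  · rw [h]
    constructor
    · intro h'; norm_num at h'
    · intro h'; exact absurd (by push_cast; rfl) h'
  · rw [h]
    constructor
    · intro _
      push_cast
      exact ZMod.neg_one_ne_one
    · intro _; rfl

lemma prim_of {n : ℤ} {x z p : ℕ} (hp : p ∈ PZ n x z)
    (hl : ∀ l : ℕ, l.Prime → z < l → l ∣ p - 1 → (n : ZMod p) ^ ((p - 1) / l) ≠ 1) :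
    orderOf (n : ZMod p) = p - 1 := by
  unfold PZ at hp
  rw [mem_filter, mem_UU] at hp
  obtain ⟨⟨⟨h1, h2, h3⟩, h4⟩, h5, h6⟩ := hp
  have : Fact p.Prime := ⟨h1⟩
  have hn0 : (n : ZMod p) ≠ 0 := by
    rw [Ne, ZMod.intCast_zmod_eq_zero_iff_dvd]
    exact h4
  apply orderOf_eq_of_pow_and_pow_div_prime (by have := h1.two_le; omega)
  · exact ZMod.pow_card_sub_one_eq_one hn0
  · intro l hlp hld
    by_cases hl2 : l = 2
    · rw [hl2]
      exact (half_ne h1 h2 h4).1 h5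
    · by_cases hlz : l ≤ z
      · apply h6 l
        unfold La
        rw [mem_filter, mem_OZ]
        have := hlp.two_le
        exact ⟨⟨hlp, by omega, hlz⟩, hld⟩
      · exact hl l hlp (by omega) hld

lemma PZ_of {n : ℤ} {x z p : ℕ} (hp : p ∈ Pp n x) (hp2 : p ≠ 2) : p ∈ PZ n x z := by
  unfold Pp at hp
  rw [mem_filter, mem_Icc] at hp
  obtain ⟨⟨h1, h2⟩, h3, h4, h5⟩ := hp
  have hp3 : 3 ≤ p := by have := h3.two_le; omega
  have hne : ∀ l : ℕ, 2 ≤ l → l ∣ p - 1 → (n : ZMod p) ^ ((p - 1) / l) ≠ 1 := by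
    intro l hl hld h
    have h6 := orderOf_dvd_of_pow_eq_one h
    rw [h5] at h6
    have h7 : 0 < (p - 1) / l := Nat.div_pos (Nat.le_of_dvd (by omega) hld) (by omega)
    have h8 := Nat.le_of_dvd h7 h6
    have h9 : (p - 1) / l < p - 1 := Nat.div_lt_self (by omega) (by omega)
    omega
  unfold PZ
  rw [mem_filter, mem_UU]
  refine ⟨⟨⟨h3, hp2, h2⟩, h4⟩, ?_, ?_⟩
  · apply (half_ne h3 hp2 h4).2
    apply hne 2 le_rfl
    have : p % 2 = 1 := by
      have := h3.eq_two_or_odd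
      omega
    omega
  · intro l hl
    unfold La at hl
    rw [mem_filter, mem_OZ] at hl
    exact hne l (by omega) hl.2

lemma Pp_le (n : ℤ) (x z : ℕ) : (Pp n x).card ≤ (PZ n x z).card + 1 := by
  classical
  have h1 : Pp n x ⊆ insert 2 (PZ n x z) := by
    intro p hp
    rw [mem_insert]
    by_cases h : p = 2
    · left; exact h
    · right; exact PZ_of hp h
  exact (card_le_card h1).trans (card_insert_le _ _)

open Classical in
/-- the bad primes of the window -/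
noncomputable def SBz (N z : ℕ) (C1 C2 : ℝ) (n : ℤ) : Finset ℕ :=
  (WW N C1 C2).filter (fun p => Bd one' (Nat.log 2 z) p n)

lemma Pp_ge (N z : ℕ) (C0 C2 : ℝ) (hz : 1 ≤ z) (n : ℤ) (x : ℕ) (hx : (x : ℝ) ≤ (N : ℝ) ^ C2) :
    ((PZ n x z).card : ℝ) ≤ (Pp n x).card + (N : ℝ) ^ C0 +
      (((SBz N z C0 C2 n).filter (fun p => p ≤ x)).card : ℝ) := by
  classical
  have h1 : PZ n x z ⊆ Pp n x ∪ (Icc 1 ⌊(N : ℝ) ^ C0⌋₊ ∪ (SBz N z C0 C2 n).filter (fun p => p ≤ x)) := by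
    intro p hp
    have hp' := hp
    unfold PZ at hp'
    rw [mem_filter, mem_UU] at hp'
    obtain ⟨⟨⟨h1, h2, h3⟩, h4⟩, h5, h6⟩ := hp'
    rw [mem_union, mem_union]
    by_cases hall : ∀ l : ℕ, l.Prime → z < l → l ∣ p - 1 → (n : ZMod p) ^ ((p - 1) / l) ≠ 1
    · left
      unfold Pp
      rw [mem_filter, mem_Icc]
      exact ⟨⟨h1.one_le, h3⟩, h1, h4, prim_of hp hall⟩
    · right
      push Not at hall
      obtain ⟨l, hl, hzl, hlp, hln⟩ := hall
      by_cases h : (p : ℝ) ≤ (N : ℝ) ^ C0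
      · left
        rw [mem_Icc]
        exact ⟨h1.one_le, Nat.le_floor h⟩
      · right
        rw [mem_filter]
        refine ⟨?_, h3⟩
        unfold SBz
        rw [mem_filter, mem_WW]
        refine ⟨⟨h1, (not_le.1 h).le, ?_⟩, l, hl, hlp, ?_, hln⟩
        · exact le_trans (by exact_mod_cast h3) hx
        · exact (Nat.pow_log_le_self 2 (by omega)).trans hzl.le
  have h2 := (card_le_card h1).trans ((card_union_le _ _).trans
    (Nat.add_le_add_left (card_union_le _ _) _))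
  rw [Nat.card_Icc, Nat.add_sub_cancel] at h2
  have h3 : ((⌊(N : ℝ) ^ C0⌋₊ : ℕ) : ℝ) ≤ (N : ℝ) ^ C0 := Nat.floor_le (by positivity)
  have h4 : ((PZ n x z).card : ℝ) ≤ ((Pp n x).card : ℝ) + (((⌊(N : ℝ) ^ C0⌋₊ : ℕ) : ℝ) +
      (((SBz N z C0 C2 n).filter (fun p => p ≤ x)).card : ℝ)) := by exact_mod_cast h2
  linarith

open Classical in
/-- **Artin's density.** -/
theorem t0 (θ ε C1 C2 : ℝ) (hθ : 0 < θ) (hε : 0 < ε) (hC1 : 0 < C1) (hC12 : C1 ≤ C2) :
    ∃ z A : ℕ, ∀ B : ℕ, ∀ᶠ N : ℕ in atTop,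
      ∃ (E : Finset ℤ) (F : Finset ℕ) (G : Finset ℤ), (E.card : ℝ) ≤ (N : ℝ) ^ θ ∧
        (F.card : ℝ) ≤ (Real.log N) ^ A ∧ (∀ f ∈ F, (Real.log N) ^ B < f) ∧
        (G.card : ℝ) ≤ (Real.log N) ^ A ∧ (∀ g ∈ G, g ≠ 0) ∧
        ∀ n D m : ℤ, n = D * m ^ 2 → n ≠ 0 → n.natAbs ≤ N → Squarefree D → D % 4 = 1 → D ≠ 1 →
          D.natAbs ∉ F →
          (∀ g ∈ G, ∀ l : ℕ, l.Prime → 3 ≤ l → l ≤ z → ∀ y : ℚ, (n : ℚ) ≠ g * y ^ l) →
          (∀ x : ℕ, (N : ℝ) ^ C1 ≤ x → (x : ℝ) ≤ (N : ℝ) ^ C2 →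
            ((Pp n x).card : ℝ) ≤ (dens D + ε) * Nat.primeCounting x) ∧
          (n ∉ E → ∑ x ∈ (WX N C1 C2).filter (fun x : ℕ =>
              ((Pp n x).card : ℝ) < (dens D - ε) * Nat.primeCounting x), 1 / (x : ℝ) ≤
            ε * Real.log N) := by
  have hC2 : 0 < C2 := lt_of_lt_of_le hC1 hC12
  obtain ⟨Cw, hCw, Nw, hwin⟩ := win_exc θ (C1 / 2) C2 hθ (by positivity) (by linarith)
  obtain ⟨z₀, hz₀, hall⟩ := pz_all (ε / 40) (by positivity)
  obtain ⟨Q, hQ⟩ : ∃ Q : ℝ, Q = 80 * C2 * Cw / ε ^ 2 := ⟨_, rfl⟩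
  obtain ⟨J, hJ⟩ : ∃ J : ℕ, Q ≤ J := exists_nat_ge _
  obtain ⟨z, hz⟩ : ∃ z : ℕ, z = max z₀ (2 ^ J) := ⟨_, rfl⟩
  have hzz₀ : z₀ ≤ z := by rw [hz]; exact le_max_left _ _
  have hzJ : 2 ^ J ≤ z := by rw [hz]; exact le_max_right _ _
  have hz2 : 2 ≤ z := hz₀.trans hzz₀
  obtain ⟨A, hA⟩ := hall z hzz₀ C1 C2 hC1 hC2
  refine ⟨z, A, fun B => ?_⟩
  have e1 := hA B
  have e2 := ev_pow (C2 * (40 / ε)) 1 1 (C1 / 2) (by positivity)
  have e3 : ∀ᶠ x : ℕ in atTop, 4 / ε ≤ (Nat.primeCounting x : ℝ) := pi_tend.eventually_ge_atTop _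
  have e4 := ev_x _ C1 hC1 e3
  have e5 := ev_x _ C1 hC1 (eventually_ge_atTop 3)
  have e6 : ∀ᶠ N : ℕ in atTop, 1 ≤ Real.log N := log_tend.eventually_ge_atTop _
  filter_upwards [e1, e2, e4, e5, e6, eventually_ge_atTop (max Nw 3)] with N f1 f2 f3 f5 f6 f4
  have hN3 : 3 ≤ N := (le_max_right _ _).trans f4
  have hNw : Nw ≤ N := (le_max_left _ _).trans f4
  have hN0 : (0 : ℝ) < N := by exact_mod_cast (by omega : 0 < N)
  obtain ⟨F, G, hF1, hF2, hG1, hG2, hmain⟩ := f1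
  obtain ⟨L, hL⟩ : ∃ L : ℝ, L = Real.log (N : ℝ) := ⟨_, rfl⟩
  have hL0 : 0 < L := by rw [hL]; linarith
  refine ⟨(ZN N).filter (fun n => Cw / ((Nat.log 2 z : ℕ) + 1 : ℝ) ^ 2 <
    ∑ p ∈ (WW N (C1 / 2) C2).filter (fun p => Bd one' (Nat.log 2 z) p n), 1 / (p : ℝ)),
    F, G, hwin N hNw one' (Nat.log 2 z), hF1, hF2, hG1, hG2, ?_⟩
  intro n D m hn hn0 hnN hD hD1 hD2 hDF hnG
  have hx := hmain n D m hn hn0 hnN hD hD1 hD2 hDF hnG
  have hpi : ∀ x : ℕ, (N : ℝ) ^ C1 ≤ x → ε / 40 * (x / Real.log x) ≤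
      ε / 4 * Nat.primeCounting x := by
    intro x hx1
    have h1 := pi_lower x (by have := f5 x hx1; omega)
    have h2 : (x : ℝ) / Real.log x = 10 * (x / (10 * Real.log x)) := by
      rw [mul_div_assoc', mul_div_mul_left _ _ (by norm_num)]
    rw [h2]
    nlinarith
  refine ⟨fun x hx1 hx2 => ?_, fun hnE => ?_⟩
  · have h1 := (abs_le.1 (hx x hx1 hx2)).2
    have h2 : ((Pp n x).card : ℝ) ≤ (PZ n x z).card + 1 := by exact_mod_cast Pp_le n x z
    have h3 := hpi x hx1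
    have h4 := f3 x hx1
    rw [div_le_iff₀ hε] at h4
    linarith
  · have hSsum : ∑ p ∈ SBz N z (C1 / 2) C2 n, 1 / (p : ℝ) ≤ Cw / ((Nat.log 2 z : ℕ) + 1 : ℝ) ^ 2 := by
      by_contra hcon
      apply hnE
      rw [mem_filter, mem_ZN]
      exact ⟨⟨hn0, hnN⟩, not_le.1 hcon⟩
    obtain ⟨τ, hτ⟩ : ∃ τ : ℝ, τ = ε / (40 * C2 * L) := ⟨_, rfl⟩
    have hτ0 : 0 < τ := by rw [hτ]; positivity
    have havg := avg (SBz N z (C1 / 2) C2 n) (WX N C1 C2) (fun p hp => by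
      unfold SBz at hp
      exact (mem_WW.1 (mem_filter.1 hp).1).1.two_le) (fun x hx => WX_pos (by omega) hx) τ hτ0
    refine le_trans (sum_le_sum_of_subset_of_nonneg ?_ fun _ _ _ => by positivity)
      (havg.trans ?_)
    · intro x hxm
      rw [mem_filter] at hxm ⊢
      refine ⟨hxm.1, ?_⟩
      by_contra hcon
      rw [not_le] at hcon
      obtain ⟨hx1, hx2⟩ := mem_WX.1 hxm.1
      have hx3 := f5 x hx1
      have hx0 : (0 : ℝ) < x := by exact_mod_cast (by omega : 0 < x)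
      have hlx : 0 < Real.log x := Real.log_pos (by exact_mod_cast (by omega : 1 < x))
      have hlx2 : Real.log x ≤ C2 * L := by
        rw [hL, ← Real.log_rpow hN0]
        exact Real.log_le_log hx0 hx2
      have h1 := (abs_le.1 (hx x hx1 hx2)).1
      have h2 := Pp_ge N z (C1 / 2) C2 (by omega) n x hx2
      have h3 := hpi x hx1
      have h5 : τ * x ≤ ε / 40 * (x / Real.log x) := by
        rw [hτ, mul_div_assoc', le_div_iff₀ hlx]
        calc ε / (40 * C2 * L) * x * Real.log x ≤ ε / (40 * C2 * L) * x * (C2 * L) :=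
              mul_le_mul_of_nonneg_left hlx2 (by positivity)
          _ = ε / 40 * x := by field_simp
      have h6 : (N : ℝ) ^ (C1 / 2) ≤ ε / 40 * (x / Real.log x) := by
        rw [mul_div_assoc', le_div_iff₀ hlx]
        rw [pow_one, one_mul, ← hL] at f2
        have h7 : (0 : ℝ) < (N : ℝ) ^ (C1 / 2) := by positivity
        have h8 : (N : ℝ) ^ C1 = (N : ℝ) ^ (C1 / 2) * (N : ℝ) ^ (C1 / 2) := by
          rw [← Real.rpow_add hN0]
          congr 1
          ring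
        calc (N : ℝ) ^ (C1 / 2) * Real.log x ≤ (N : ℝ) ^ (C1 / 2) * (C2 * L) :=
              mul_le_mul_of_nonneg_left hlx2 h7.le
          _ ≤ (N : ℝ) ^ (C1 / 2) * (ε / 40 * (C2 * (40 / ε) * (L + 1))) := by
              apply mul_le_mul_of_nonneg_left _ h7.le
              have : ε / 40 * (C2 * (40 / ε) * (L + 1)) = C2 * (L + 1) := by field_simp
              rw [this]
              nlinarith
          _ ≤ (N : ℝ) ^ (C1 / 2) * (ε / 40 * (N : ℝ) ^ (C1 / 2)) := by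
              apply mul_le_mul_of_nonneg_left _ h7.le
              exact mul_le_mul_of_nonneg_left f2 (by positivity)
          _ = ε / 40 * (N : ℝ) ^ C1 := by rw [h8]; ring
          _ ≤ ε / 40 * x := mul_le_mul_of_nonneg_left hx1 (by positivity)
      have h9 := hxm.2
      have h10 : (0 : ℝ) < Nat.primeCounting x := lt_of_lt_of_le (by positivity) (f3 x hx1)
      have h11 : 0 < ε * (Nat.primeCounting x : ℝ) := by positivity
      linarith
    · obtain ⟨j, hj⟩ : ∃ j : ℝ, j = (Nat.log 2 z : ℝ) + 1 := ⟨_, rfl⟩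
      rw [← hj] at hSsum
      have hj1 : 1 ≤ j := by
        rw [hj]
        have : (0 : ℝ) ≤ (Nat.log 2 z : ℝ) := Nat.cast_nonneg _
        linarith
      have hjJ : Q ≤ j := by
        have h1 : J ≤ Nat.log 2 z := Nat.le_log_of_pow_le (by norm_num) hzJ
        have h2 : (J : ℝ) ≤ Nat.log 2 z := by exact_mod_cast h1
        linarith
      rw [← hL]
      calc 2 / τ * ∑ p ∈ SBz N z (C1 / 2) C2 n, 1 / (p : ℝ) ≤ 2 / τ * (Cw / j ^ 2) :=
            mul_le_mul_of_nonneg_left hSsum (by positivity)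
        _ ≤ 2 / τ * (Cw / j) := by
            apply mul_le_mul_of_nonneg_left _ (by positivity)
            apply div_le_div_of_nonneg_left (by linarith) (by linarith)
            nlinarith
        _ = (ε * Q) / j * L := by
            rw [hτ, hQ]
            field_simp
            norm_num
        _ ≤ ε * L := by
            apply mul_le_mul_of_nonneg_right _ hL0.le
            rw [div_le_iff₀ (by linarith)]
            exact mul_le_mul_of_nonneg_left hjJ hε.le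

end Pool.Agent.KS6_18
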