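import Mathlib
import Pool.Agent.KS6_18.GenP
import Pool.Agent.KS6_18.T0

set_option autoImplicit false

/-! Arbitrary sets of primes and arbitrary local conditions. -/

namespace Pool.Agent.KS6_18

open Finset Filter Topology
open Pool.Agent.H730R2.AA.MTLib (pi_lower)

variable (σ : Sys)

open Classical in
/-- the primes `p ≤ x` of `T` for which `n` is no `l`-th power for all `l ∈ Λ p` -/
noncomputable def CT (n : ℤ) (x : ℕ) : Finset ℕ :=
  (Icc 1 x).filter (fun p : ℕ => p ∈ σ.T ∧ ¬ (p : ℤ) ∣ n ∧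
    ∀ l ∈ σ.Λ p, (n : ZMod p) ^ ((p - 1) / l) ≠ 1)

open Classical in
/-- the primes `p ≤ x` of `T` -/
noncomputable def TA (x : ℕ) : Finset ℕ := (Icc 1 x).filter (fun p : ℕ => p ∈ σ.T)

/-- the local density -/
noncomputable def rf (p : ℕ) : ℝ := ∏ l ∈ σ.Λ p, (1 - 1 / (l : ℝ))

/-- the expected number -/
noncomputable def Rf (x : ℕ) : ℝ := ∑ p ∈ TA σ x, rf σ p

lemma mem_TA {x p : ℕ} : p ∈ TA σ x ↔ p ≤ x ∧ p ∈ σ.T := by
  classical
  unfold TA
  rw [mem_filter, mem_Icc]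
  constructor
  · rintro ⟨⟨_, h⟩, h'⟩
    exact ⟨h, h'⟩
  · rintro ⟨h, h'⟩
    exact ⟨⟨(σ.hT p h').one_le, h⟩, h'⟩

lemma rf_bd {p : ℕ} (hp : p ∈ σ.T) : 0 ≤ rf σ p ∧ rf σ p ≤ 1 := by
  unfold rf
  have h := fun l (hl : l ∈ σ.Λ p) => l_frac' (σ.hΛ p hp l hl).1
  exact ⟨prod_nonneg fun l hl => (h l hl).1, prod_le_one (fun l hl => (h l hl).1)
    fun l hl => (h l hl).2⟩

lemma rg_rf {z p : ℕ} (hz : 2 ≤ z) (hp : p ∈ σ.T) (hp2 : p ≠ 2) :
    0 ≤ rg σ z p - rf σ p ∧ rg σ z p - rf σ p ≤ ∑ l ∈ Lb z p, 1 / (l : ℝ) := by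
  classical
  have hpp := σ.hT p hp
  have hp3 : 3 ≤ p := by have := hpp.two_le; omega
  set X := (σ.Λ p).filter (fun l => ¬ l ≤ z) with hX
  have heq : rf σ p = rg σ z p * ∏ l ∈ X, (1 - 1 / (l : ℝ)) := by
    unfold rf rg Lz
    rw [hX, prod_filter_mul_prod_filter_not]
  have hXl : ∀ l ∈ X, (0 : ℝ) ≤ 1 / l ∧ 1 / (l : ℝ) ≤ 1 := by
    intro l hl
    have h1 := (σ.hΛ p hp l (mem_filter.1 hl).1).1.two_le
    have h2 : (2 : ℝ) ≤ l := by exact_mod_cast h1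
    exact ⟨by positivity, by rw [div_le_one (by linarith)]; linarith⟩
  have h1 := one_sub_sum_le X (fun l => 1 / (l : ℝ)) (fun l hl => (hXl l hl).1)
    (fun l hl => (hXl l hl).2)
  have h2 : ∏ l ∈ X, (1 - 1 / (l : ℝ)) ≤ 1 := prod_le_one
    (fun l hl => by have := (hXl l hl).2; linarith) (fun l hl => by have := (hXl l hl).1; linarith)
  have h3 : 0 ≤ rg σ z p ∧ rg σ z p ≤ 1 := by
    apply rg_bd σ (x := p) z
    rw [mem_TX]
    exact ⟨⟨hp2, le_rfl⟩, hp⟩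
  have h4 : 0 ≤ ∑ l ∈ X, 1 / (l : ℝ) := sum_nonneg fun l hl => (hXl l hl).1
  have h5 : ∑ l ∈ X, 1 / (l : ℝ) ≤ ∑ l ∈ Lb z p, 1 / (l : ℝ) := by
    apply sum_le_sum_of_subset_of_nonneg
    · intro l hl
      rw [hX, mem_filter] at hl
      have h6 := σ.hΛ p hp l hl.1
      unfold Lb
      rw [mem_filter, Nat.mem_primeFactors]
      exact ⟨⟨h6.1, h6.2, by omega⟩, by omega⟩
    · intro l _ _
      positivity
  rw [heq]
  constructor
  · nlinarith [h3.1, h3.2]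
  · nlinarith [h3.1, h3.2]

lemma pi_diff {x x' : ℕ} (h : x' ≤ x) : (((Ioc x' x).filter Nat.Prime).card : ℝ) =
    (Nat.primeCounting x : ℝ) - Nat.primeCounting x' := by
  have h2 : ((Ioc x' x).filter Nat.Prime).card + Nat.primeCounting x' = Nat.primeCounting x := by
    have e : ∀ y : ℕ, Nat.primeCounting y = ((Icc 1 y).filter Nat.Prime).card := by
      intro y
      rw [Nat.primeCounting, Nat.primeCounting', Nat.count_eq_card_filter_range]
      congr 1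
      ext p
      simp only [Finset.mem_filter, Finset.mem_range, Finset.mem_Icc]
      constructor
      · rintro ⟨h1, h2⟩
        exact ⟨⟨h2.one_lt.le, by omega⟩, h2⟩
      · rintro ⟨⟨h1, h3⟩, h2⟩
        exact ⟨by omega, h2⟩
    rw [e, e, ← card_union_of_disjoint]
    · congr 1
      ext p
      simp only [mem_union, mem_filter, mem_Ioc, mem_Icc]
      constructor
      · rintro (⟨⟨h1, h2⟩, h3⟩ | ⟨⟨h1, h2⟩, h3⟩)
        · exact ⟨⟨by omega, h2⟩, h3⟩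
        · exact ⟨⟨h1, by omega⟩, h3⟩
      · rintro ⟨⟨h1, h2⟩, h3⟩
        by_cases h4 : p ≤ x'
        · right; exact ⟨⟨h1, h4⟩, h3⟩
        · left; exact ⟨⟨by omega, h2⟩, h3⟩
    · rw [disjoint_left]
      intro p hp hq
      rw [mem_filter, mem_Ioc] at hp
      rw [mem_filter, mem_Icc] at hq
      omega
  have h5 : ((((Ioc x' x).filter Nat.Prime).card : ℕ) : ℝ) + Nat.primeCounting x' =
      Nat.primeCounting x := by exact_mod_cast h2
  linarith

lemma PG_diff (n : ℤ) {x x' : ℕ} (z : ℕ) (h : x' ≤ x) : (PG σ n x' z).card ≤ (PG σ n x z).card ∧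
    ((PG σ n x z).card : ℝ) ≤ (PG σ n x' z).card + ((Nat.primeCounting x : ℝ) - Nat.primeCounting x') := by
  classical
  have hsub : PG σ n x' z ⊆ PG σ n x z := by
    intro p hp
    unfold PG at hp ⊢
    rw [mem_filter, mem_UT] at hp ⊢
    exact ⟨⟨⟨⟨hp.1.1.1.1, hp.1.1.1.2.trans h⟩, hp.1.1.2⟩, hp.1.2⟩, hp.2⟩
  refine ⟨card_le_card hsub, ?_⟩
  have h1 : PG σ n x z ⊆ PG σ n x' z ∪ (Ioc x' x).filter Nat.Prime := by
    intro p hp
    have hp' := hp
    unfold PG at hp'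
    rw [mem_filter, mem_UT] at hp'
    rw [mem_union]
    by_cases hpx : p ≤ x'
    · left
      unfold PG
      rw [mem_filter, mem_UT]
      exact ⟨⟨⟨⟨hp'.1.1.1.1, hpx⟩, hp'.1.1.2⟩, hp'.1.2⟩, hp'.2⟩
    · right
      rw [mem_filter, mem_Ioc]
      exact ⟨⟨by omega, hp'.1.1.1.2⟩, σ.hT p hp'.1.1.2⟩
  have h3 := (card_le_card h1).trans (card_union_le _ _)
  have h4 : ((PG σ n x z).card : ℝ) ≤ (PG σ n x' z).card + (((Ioc x' x).filter Nat.Prime).card : ℝ) := by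
    exact_mod_cast h3
  rw [pi_diff h] at h4
  exact h4

lemma Rf_diff {x x' : ℕ} (h : x' ≤ x) : Rf σ x' ≤ Rf σ x ∧
    Rf σ x ≤ Rf σ x' + ((Nat.primeCounting x : ℝ) - Nat.primeCounting x') := by
  classical
  have hsub : TA σ x' ⊆ TA σ x := by
    intro p hp
    rw [mem_TA] at hp ⊢
    exact ⟨hp.1.trans h, hp.2⟩
  have hs : Rf σ x = ∑ p ∈ TA σ x \ TA σ x', rf σ p + Rf σ x' := (sum_sdiff hsub).symm
  have h1 : 0 ≤ ∑ p ∈ TA σ x \ TA σ x', rf σ p := sum_nonneg fun p hp =>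
    (rf_bd σ ((mem_TA σ).1 (Finset.mem_sdiff.1 hp).1).2).1
  have h2 : ∑ p ∈ TA σ x \ TA σ x', rf σ p ≤ (Nat.primeCounting x : ℝ) - Nat.primeCounting x' := by
    calc ∑ p ∈ TA σ x \ TA σ x', rf σ p ≤ ∑ p ∈ TA σ x \ TA σ x', (1 : ℝ) :=
          sum_le_sum fun p hp => (rf_bd σ ((mem_TA σ).1 (Finset.mem_sdiff.1 hp).1).2).2
      _ = ((TA σ x \ TA σ x').card : ℝ) := by rw [sum_const, nsmul_eq_mul, mul_one]
      _ ≤ (((Ioc x' x).filter Nat.Prime).card : ℝ) := by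
          have : TA σ x \ TA σ x' ⊆ (Ioc x' x).filter Nat.Prime := by
            intro p hp
            rw [Finset.mem_sdiff, mem_TA, mem_TA] at hp
            rw [mem_filter, mem_Ioc]
            refine ⟨⟨?_, hp.1.1⟩, σ.hT p hp.1.2⟩
            by_contra hcon
            exact hp.2 ⟨by omega, hp.1.2⟩
          exact_mod_cast card_le_card this
      _ = _ := pi_diff h
  constructor <;> linarith

/-- the main part and the expected number -/
lemma Mg_Rf {n : ℤ} {x z N : ℕ} (hz : 2 ≤ z) (hn : n ≠ 0) (hnN : n.natAbs ≤ N) :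
    |Mg σ n x z - Rf σ x| ≤ 2 * Real.log N + ∑ p ∈ OX x, ∑ l ∈ Lb z p, 1 / (l : ℝ) + 1 := by
  classical
  have hTXA : TX σ x ⊆ TA σ x := by
    intro p hp
    rw [mem_TX] at hp
    rw [mem_TA]
    exact ⟨hp.1.2, hp.2⟩
  have hA : |Rf σ x - ∑ p ∈ TX σ x, rf σ p| ≤ 1 := by
    have hs : Rf σ x = ∑ p ∈ TA σ x \ TX σ x, rf σ p + ∑ p ∈ TX σ x, rf σ p := (sum_sdiff hTXA).symm
    have h1 : ∀ p ∈ TA σ x \ TX σ x, p ∈ σ.T := fun p hp =>
      ((mem_TA σ).1 (Finset.mem_sdiff.1 hp).1).2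
    rw [hs, add_sub_cancel_right, abs_of_nonneg (sum_nonneg fun p hp => (rf_bd σ (h1 p hp)).1)]
    calc ∑ p ∈ TA σ x \ TX σ x, rf σ p ≤ ∑ p ∈ TA σ x \ TX σ x, (1 : ℝ) :=
          sum_le_sum fun p hp => (rf_bd σ (h1 p hp)).2
      _ = ((TA σ x \ TX σ x).card : ℝ) := by rw [sum_const, nsmul_eq_mul, mul_one]
      _ ≤ ((({2} : Finset ℕ).card : ℕ) : ℝ) := by
          have : TA σ x \ TX σ x ⊆ {2} := by
            intro p hp
            rw [Finset.mem_sdiff, mem_TA, mem_TX] at hp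
            rw [mem_singleton]
            by_contra hcon
            exact hp.2 ⟨⟨hcon, hp.1.1⟩, hp.1.2⟩
          exact_mod_cast card_le_card this
      _ = 1 := by simp
  have hB : |∑ p ∈ TX σ x, rg σ z p - ∑ p ∈ TX σ x, rf σ p| ≤
      ∑ p ∈ OX x, ∑ l ∈ Lb z p, 1 / (l : ℝ) := by
    rw [← sum_sub_distrib]
    refine (abs_sum_le_sum_abs _ _).trans ?_
    refine le_trans ?_ (sum_le_sum_of_subset_of_nonneg (filter_subset _ _ : TX σ x ⊆ OX x)
      (fun p _ _ => sum_nonneg fun l _ => by positivity))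
    apply sum_le_sum
    intro p hp
    have h8 := (mem_TX σ).1 hp
    have h9 := rg_rf σ hz h8.2 h8.1.1
    rw [abs_of_nonneg h9.1]
    exact h9.2
  have hC : |∑ p ∈ TX σ x, rg σ z p - Mg σ n x z| ≤ 2 * Real.log N := by
    have hs : ∑ p ∈ TX σ x, rg σ z p = ∑ p ∈ TX σ x \ UT σ n x, rg σ z p + Mg σ n x z :=
      (sum_sdiff (filter_subset _ _ : UT σ n x ⊆ TX σ x)).symm
    have h1 : ∀ p ∈ TX σ x \ UT σ n x, p ∈ TX σ x := fun p hp => (Finset.mem_sdiff.1 hp).1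
    rw [hs, add_sub_cancel_right, abs_of_nonneg (sum_nonneg fun p hp => (rg_bd σ z (h1 p hp)).1)]
    have h8 : TX σ x \ UT σ n x ⊆ n.natAbs.primeFactors := by
      intro p hp
      rw [Finset.mem_sdiff] at hp
      unfold UT at hp
      rw [mem_filter] at hp
      obtain ⟨h9, h13⟩ := hp
      push Not at h13
      exact Nat.mem_primeFactors.2 ⟨σ.hT p ((mem_TX σ).1 h9).2, Int.natCast_dvd.1 (h13 h9),
        Int.natAbs_ne_zero.2 hn⟩
    calc ∑ p ∈ TX σ x \ UT σ n x, rg σ z p ≤ ∑ p ∈ TX σ x \ UT σ n x, (1 : ℝ) :=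
          sum_le_sum fun p hp => (rg_bd σ z (h1 p hp)).2
      _ = ((TX σ x \ UT σ n x).card : ℝ) := by rw [sum_const, nsmul_eq_mul, mul_one]
      _ ≤ (n.natAbs.primeFactors.card : ℝ) := by exact_mod_cast card_le_card h8
      _ ≤ 2 * Real.log n.natAbs := card_pf _ (Int.natAbs_ne_zero.2 hn)
      _ ≤ 2 * Real.log N := by
          have h9 : (0 : ℝ) < n.natAbs := by exact_mod_cast Int.natAbs_pos.2 hn
          have h10 : Real.log n.natAbs ≤ Real.log N := Real.log_le_log h9 (by exact_mod_cast hnN)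
          linarith
  rw [abs_le] at hA hB hC ⊢
  constructor <;> linarith [hA.1, hA.2, hB.1, hB.2, hC.1, hC.2]

/-- **The small part, for all `x` of the range at once.** -/
theorem pg_all (ε : ℝ) (hε : 0 < ε) : ∃ z₀ : ℕ, 2 ≤ z₀ ∧ ∀ z : ℕ, z₀ ≤ z →
    ∀ (C1 C2 : ℝ), 0 < C1 → 0 < C2 → ∃ A : ℕ,
    ∀ᶠ N : ℕ in atTop, ∀ σ : Sys, ∃ (G : Finset ℤ),
      (G.card : ℝ) ≤ (Real.log N) ^ A ∧ (∀ g ∈ G, g ≠ 0) ∧
      ∀ n : ℤ, n ≠ 0 → n.natAbs ≤ N →
        (∀ g ∈ G, ∀ l : ℕ, l.Prime → l ≤ z → (∃ p ∈ σ.T, l ∈ σ.Λ p) → ∀ y : ℚ, (n : ℚ) ≠ g * y ^ l) →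
        ∀ x : ℕ, (N : ℝ) ^ C1 ≤ x → (x : ℝ) ≤ (N : ℝ) ^ C2 →
          |((PG σ n x z).card : ℝ) - Rf σ x| ≤ ε * (x / Real.log x) := by
  classical
  obtain ⟨κ, hκ0, hκ1, x₀, hshort⟩ := pi_short (ε / 8) (by positivity)
  obtain ⟨z₀, hz₀, htail⟩ := tail_sum (ε / 16) (by positivity)
  refine ⟨z₀, hz₀, fun z hz C1 C2 hC1 hC2 => ?_⟩
  obtain ⟨A2, h2⟩ := pg_x z (C1 / 2) C2 (ε / 16) (by positivity) hC2 (by positivity)
  refine ⟨A2 + 2, ?_⟩
  have hlog : 0 < Real.log (1 + κ) := Real.log_pos (by linarith)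
  have e2 := h2
  have e3 := Gr_near κ hκ0 hκ1 (C1 / 2) C1 C2 (by positivity) (by linarith)
  have e4 : ∀ᶠ N : ℕ in atTop, max 1 (C2 / Real.log (1 + κ) + 1) ≤ Real.log N :=
    log_tend.eventually_ge_atTop _
  have e5 : ∀ᶠ N : ℕ in atTop, ((max x₀ 4 : ℕ) : ℝ) ≤ (N : ℝ) ^ (C1 / 2) :=
    ((tendsto_rpow_atTop (by positivity)).comp tendsto_natCast_atTop_atTop).eventually_ge_atTop _
  have e6 := ev_x _ (C1 / 2) (by positivity) (htail z hz)
  have e7 := logN_small (C1 / 2) C2 (ε / 64) (by positivity) hC2 (by positivity)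
  have e8 := x_log_large (C1 / 2) C2 (32 / ε) (by positivity) hC2 (by positivity)
  filter_upwards [e2, e3, e4, e5, e6, e7, e8, eventually_ge_atTop 1] with N g2 g3 g4 g5 g6 g7 g8 hN1 σ
  have hlN : 1 ≤ Real.log N := (le_max_left _ _).trans g4
  have hmemG : ∀ x ∈ Gr κ N (C1 / 2) C2, (N : ℝ) ^ (C1 / 2) ≤ x ∧ (x : ℝ) ≤ (N : ℝ) ^ C2 := by
    intro x hx
    unfold Gr at hx
    exact (mem_filter.1 hx).2
  have H2 : ∀ x : ℕ, ∃ G : Finset ℤ, x ∈ Gr κ N (C1 / 2) C2 → ((G.card : ℝ) ≤ (Real.log N) ^ A2 ∧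
      (∀ f ∈ G, f ≠ 0) ∧
        ∀ n : ℤ, n ≠ 0 → n.natAbs ≤ N →
          (∀ f ∈ G, ∀ l : ℕ, l.Prime → l ≤ z → (∃ p ∈ σ.T, l ∈ σ.Λ p) → ∀ y : ℚ, (n : ℚ) ≠ f * y ^ l) →
          |((PG σ n x z).card : ℝ) - Mg σ n x z| ≤ ε / 16 * (x / Real.log x)) := by
    intro x
    by_cases hx : x ∈ Gr κ N (C1 / 2) C2
    · obtain ⟨F, hF⟩ := g2 x (hmemG x hx).1 (hmemG x hx).2 σ
      exact ⟨F, fun _ => hF⟩
    · exact ⟨∅, fun h => absurd h hx⟩
  choose Gf hGf using H2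
  have hcardG : ((Gr κ N (C1 / 2) C2).card : ℝ) ≤ (Real.log N) ^ 2 := by
    refine (Gr_card κ hκ0 N (C1 / 2) C2 hN1 hC2.le).trans ?_
    have h3 : C2 / Real.log (1 + κ) + 1 ≤ Real.log N := (le_max_right _ _).trans g4
    calc C2 * Real.log N / Real.log (1 + κ) + 1 ≤ C2 * Real.log N / Real.log (1 + κ) + Real.log N := by
          linarith
      _ = (C2 / Real.log (1 + κ) + 1) * Real.log N := by ring
      _ ≤ Real.log N * Real.log N := mul_le_mul_of_nonneg_right h3 (by linarith)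
      _ = (Real.log N) ^ 2 := by ring
  refine ⟨(Gr κ N (C1 / 2) C2).biUnion Gf, ?_, ?_, ?_⟩
  · have h3 : ((((Gr κ N (C1 / 2) C2).biUnion Gf).card : ℕ) : ℝ) ≤
        ∑ x ∈ Gr κ N (C1 / 2) C2, ((Gf x).card : ℝ) := by exact_mod_cast card_biUnion_le
    refine h3.trans ?_
    calc _ ≤ ∑ x ∈ Gr κ N (C1 / 2) C2, (Real.log N) ^ A2 := by
          apply sum_le_sum
          intro x hx
          exact (hGf x hx).1
      _ = ((Gr κ N (C1 / 2) C2).card : ℝ) * (Real.log N) ^ A2 := by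
          rw [sum_const, nsmul_eq_mul]
      _ ≤ (Real.log N) ^ 2 * (Real.log N) ^ A2 :=
          mul_le_mul_of_nonneg_right hcardG (by positivity)
      _ = (Real.log N) ^ (A2 + 2) := by rw [← pow_add, add_comm]
  · intro f hf
    rw [mem_biUnion] at hf
    obtain ⟨x, hx, hfx⟩ := hf
    exact (hGf x hx).2.1 f hfx
  · intro n hn0 hnN hnG x hx1 hx2
    obtain ⟨x', hx'G, hx'x, hx'near⟩ := g3 x hx1 hx2
    have hx'mem := hmemG x' hx'G
    have hx'3 : max x₀ 4 ≤ x' := by exact_mod_cast g5.trans hx'mem.1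
    have hx'3' : 4 ≤ x' := (le_max_right _ _).trans hx'3
    have hx'0 : (0 : ℝ) < x' := by exact_mod_cast (by omega : 0 < x')
    have hx0 : (0 : ℝ) < x := by exact_mod_cast (by omega : 0 < x)
    have hlx' : 0 < Real.log x' := Real.log_pos (by exact_mod_cast (by omega : 1 < x'))
    have hlx : 0 < Real.log x := Real.log_pos (by exact_mod_cast (by omega : 1 < x))
    have q2 := (hGf x' hx'G).2.2 n hn0 hnN (fun g hg => hnG g (mem_biUnion.2 ⟨x', hx'G, hg⟩))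
    have q3 := hshort x x' ((le_max_left _ _).trans hx'3) hx'x hx'near
    have q4 := PG_diff σ n z hx'x
    have q41 : ((PG σ n x' z).card : ℝ) ≤ (PG σ n x z).card := by exact_mod_cast q4.1
    have q5 := Rf_diff σ hx'x
    have q51 := Mg_Rf σ (x := x') (hz₀.trans hz) hn0 hnN
    -- monotonicity of x / log x up to the factor
    have q6 : x' / Real.log x' ≤ 1.5 * (x / Real.log x) := by
      have hll : Real.log x ≤ 1.5 * Real.log x' := by
        have h3 : (x : ℝ) ≤ 2 * x' := by nlinarith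
        have h4 : Real.log x ≤ Real.log 2 + Real.log x' := by
          rw [← Real.log_mul (by norm_num) hx'0.ne']
          exact Real.log_le_log hx0 h3
        have h6 : Real.log 4 ≤ Real.log x' := Real.log_le_log (by norm_num) (by exact_mod_cast hx'3')
        have h7 : Real.log 4 = 2 * Real.log 2 := by
          rw [show (4 : ℝ) = 2 ^ 2 by norm_num, Real.log_pow]
          push_cast
          ring
        linarith
      rw [mul_div_assoc', div_le_div_iff₀ hlx' hlx]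
      have h3 : (x' : ℝ) ≤ x := by exact_mod_cast hx'x
      nlinarith
    have hX : 0 < x / Real.log x := by positivity
    have hX' : 0 < x' / Real.log x' := by positivity
    have r1 := g6 x' hx'mem.1
    have r2 := g7 x' hx'mem.1 hx'mem.2
    have r3 := g8 x' hx'mem.1 hx'mem.2
    rw [div_le_iff₀ hε] at r3
    have q8 : ε * (x' / Real.log x') ≤ ε * (1.5 * (x / Real.log x)) :=
      mul_le_mul_of_nonneg_left q6 hε.le
    have hεX : 0 < ε * (x / Real.log x) := by positivity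
    have q7 : |Mg σ n x' z - Rf σ x'| ≤ ε / 8 * (x' / Real.log x') := by
      refine q51.trans ?_
      linarith
    rw [abs_le] at q2 q7 ⊢
    constructor
    · linarith [q2.1, q2.2, q7.1, q7.2, q4.2, q5.1, q5.2]
    · linarith [q2.1, q2.2, q7.1, q7.2, q4.2, q5.1, q5.2]

lemma CT_le (n : ℤ) (x z : ℕ) : (CT σ n x).card ≤ (PG σ n x z).card + 1 := by
  classical
  have h1 : CT σ n x ⊆ insert 2 (PG σ n x z) := by
    intro p hp
    unfold CT at hp
    rw [mem_filter, mem_Icc] at hp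
    rw [mem_insert]
    by_cases h : p = 2
    · left; exact h
    · right
      unfold PG
      rw [mem_filter, mem_UT]
      refine ⟨⟨⟨⟨h, hp.1.2⟩, hp.2.1⟩, hp.2.2.1⟩, fun l hl => hp.2.2.2 l ?_⟩
      unfold Lz at hl
      exact (mem_filter.1 hl).1
  exact (card_le_card h1).trans (card_insert_le _ _)

lemma CT_ge (N z : ℕ) (C0 C2 : ℝ) (hz : 1 ≤ z) (n : ℤ) (x : ℕ) (hx : (x : ℝ) ≤ (N : ℝ) ^ C2) :
    ((PG σ n x z).card : ℝ) ≤ (CT σ n x).card + (N : ℝ) ^ C0 +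
      (((SBz N z C0 C2 n).filter (fun p => p ≤ x)).card : ℝ) := by
  classical
  have h1 : PG σ n x z ⊆ CT σ n x ∪
      (Icc 1 ⌊(N : ℝ) ^ C0⌋₊ ∪ (SBz N z C0 C2 n).filter (fun p => p ≤ x)) := by
    intro p hp
    have hp' := hp
    unfold PG at hp'
    rw [mem_filter, mem_UT] at hp'
    obtain ⟨⟨⟨⟨h2, h3⟩, h1'⟩, h4⟩, h6⟩ := hp'
    have h1 := σ.hT p h1'
    rw [mem_union, mem_union]
    by_cases hall : ∀ l : ℕ, l.Prime → z < l → l ∣ p - 1 → (n : ZMod p) ^ ((p - 1) / l) ≠ 1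
    · left
      unfold CT
      rw [mem_filter, mem_Icc]
      refine ⟨⟨h1.one_le, h3⟩, h1', h4, fun l hl => ?_⟩
      by_cases hlz : l ≤ z
      · apply h6
        unfold Lz
        exact mem_filter.2 ⟨hl, hlz⟩
      · have h7 := σ.hΛ p h1' l hl
        exact hall l h7.1 (by omega) h7.2
    · right
      push Not at hall
      obtain ⟨l, hl, hzl, hlp, hln⟩ := hall
      by_cases h : (p : ℝ) ≤ (N : ℝ) ^ C0
      · left
        rw [mem_Icc]
        exact ⟨h1.one_le, Nat.le_floor h⟩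
      · right
        rw [mem_filter]
        refine ⟨?_, h3⟩
        unfold SBz
        rw [mem_filter, mem_WW]
        refine ⟨⟨h1, (not_le.1 h).le, ?_⟩, l, hl, hlp, ?_, hln⟩
        · exact le_trans (by exact_mod_cast h3) hx
        · exact (Nat.pow_log_le_self 2 (by omega)).trans hzl.le
  have h2 := (card_le_card h1).trans ((card_union_le _ _).trans
    (Nat.add_le_add_left (card_union_le _ _) _))
  rw [Nat.card_Icc, Nat.add_sub_cancel] at h2
  have h3 : ((⌊(N : ℝ) ^ C0⌋₊ : ℕ) : ℝ) ≤ (N : ℝ) ^ C0 := Nat.floor_le (by positivity)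
  have h4 : ((PG σ n x z).card : ℝ) ≤ ((CT σ n x).card : ℝ) + (((⌊(N : ℝ) ^ C0⌋₊ : ℕ) : ℝ) +
      (((SBz N z C0 C2 n).filter (fun p => p ≤ x)).card : ℝ)) := by exact_mod_cast h2
  linarith

open Classical in
/-- **Arbitrary sets of primes.** -/
theorem gen (θ ε C1 C2 : ℝ) (hθ : 0 < θ) (hε : 0 < ε) (hC1 : 0 < C1) (hC12 : C1 ≤ C2) :
    ∃ z A : ℕ, ∀ᶠ N : ℕ in atTop,
      ∃ (E : Finset ℤ), (E.card : ℝ) ≤ (N : ℝ) ^ θ ∧ ∀ σ : Sys, ∃ (G : Finset ℤ),
        (G.card : ℝ) ≤ (Real.log N) ^ A ∧ (∀ g ∈ G, g ≠ 0) ∧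
        ∀ n : ℤ, n ≠ 0 → n.natAbs ≤ N →
          (∀ g ∈ G, ∀ l : ℕ, l.Prime → l ≤ z → (∃ p ∈ σ.T, l ∈ σ.Λ p) →
            ∀ y : ℚ, (n : ℚ) ≠ g * y ^ l) →
          (∀ x : ℕ, (N : ℝ) ^ C1 ≤ x → (x : ℝ) ≤ (N : ℝ) ^ C2 →
            ((CT σ n x).card : ℝ) ≤ Rf σ x + ε * Nat.primeCounting x) ∧
          (n ∉ E → ∑ x ∈ (WX N C1 C2).filter (fun x : ℕ =>
              ((CT σ n x).card : ℝ) < Rf σ x - ε * Nat.primeCounting x), 1 / (x : ℝ) ≤
            ε * Real.log N) := by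
  have hC2 : 0 < C2 := lt_of_lt_of_le hC1 hC12
  obtain ⟨Cw, hCw, Nw, hwin⟩ := win_exc θ (C1 / 2) C2 hθ (by positivity) (by linarith)
  obtain ⟨z₀, hz₀, hall⟩ := pg_all (ε / 40) (by positivity)
  obtain ⟨Q, hQ⟩ : ∃ Q : ℝ, Q = 80 * C2 * Cw / ε ^ 2 := ⟨_, rfl⟩
  obtain ⟨J, hJ⟩ : ∃ J : ℕ, Q ≤ J := exists_nat_ge _
  obtain ⟨z, hz⟩ : ∃ z : ℕ, z = max z₀ (2 ^ J) := ⟨_, rfl⟩
  have hzz₀ : z₀ ≤ z := by rw [hz]; exact le_max_left _ _
  have hzJ : 2 ^ J ≤ z := by rw [hz]; exact le_max_right _ _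
  have hz2 : 2 ≤ z := hz₀.trans hzz₀
  obtain ⟨A, hA⟩ := hall z hzz₀ C1 C2 hC1 hC2
  refine ⟨z, A, ?_⟩
  have e1 := hA
  have e2 := ev_pow (C2 * (40 / ε)) 1 1 (C1 / 2) (by positivity)
  have e3 : ∀ᶠ x : ℕ in atTop, 4 / ε ≤ (Nat.primeCounting x : ℝ) := pi_tend.eventually_ge_atTop _
  have e4 := ev_x _ C1 hC1 e3
  have e5 := ev_x _ C1 hC1 (eventually_ge_atTop 3)
  have e6 : ∀ᶠ N : ℕ in atTop, 1 ≤ Real.log N := log_tend.eventually_ge_atTop _
  filter_upwards [e1, e2, e4, e5, e6, eventually_ge_atTop (max Nw 3)] with N f1 f2 f3 f5 f6 f4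
  have hN3 : 3 ≤ N := (le_max_right _ _).trans f4
  have hNw : Nw ≤ N := (le_max_left _ _).trans f4
  have hN0 : (0 : ℝ) < N := by exact_mod_cast (by omega : 0 < N)
  obtain ⟨L, hL⟩ : ∃ L : ℝ, L = Real.log (N : ℝ) := ⟨_, rfl⟩
  have hL0 : 0 < L := by rw [hL]; linarith
  refine ⟨(ZN N).filter (fun n => Cw / ((Nat.log 2 z : ℕ) + 1 : ℝ) ^ 2 <
    ∑ p ∈ (WW N (C1 / 2) C2).filter (fun p => Bd one' (Nat.log 2 z) p n), 1 / (p : ℝ)),
    hwin N hNw one' (Nat.log 2 z), fun σ => ?_⟩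
  obtain ⟨G, hG1, hG2, hmain⟩ := f1 σ
  refine ⟨G, hG1, hG2, ?_⟩
  intro n hn0 hnN hnG
  have hx := hmain n hn0 hnN hnG
  have hpi : ∀ x : ℕ, (N : ℝ) ^ C1 ≤ x → ε / 40 * (x / Real.log x) ≤
      ε / 4 * Nat.primeCounting x := by
    intro x hx1
    have h1 := pi_lower x (by have := f5 x hx1; omega)
    have h2 : (x : ℝ) / Real.log x = 10 * (x / (10 * Real.log x)) := by
      rw [mul_div_assoc', mul_div_mul_left _ _ (by norm_num)]
    rw [h2]
    nlinarith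
  refine ⟨fun x hx1 hx2 => ?_, fun hnE => ?_⟩
  · have h1 := (abs_le.1 (hx x hx1 hx2)).2
    have h2 : ((CT σ n x).card : ℝ) ≤ (PG σ n x z).card + 1 := by exact_mod_cast CT_le σ n x z
    have h3 := hpi x hx1
    have h4 := f3 x hx1
    rw [div_le_iff₀ hε] at h4
    linarith
  · have hSsum : ∑ p ∈ SBz N z (C1 / 2) C2 n, 1 / (p : ℝ) ≤ Cw / ((Nat.log 2 z : ℕ) + 1 : ℝ) ^ 2 := by
      by_contra hcon
      apply hnE
      rw [mem_filter, mem_ZN]
      exact ⟨⟨hn0, hnN⟩, not_le.1 hcon⟩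
    obtain ⟨τ, hτ⟩ : ∃ τ : ℝ, τ = ε / (40 * C2 * L) := ⟨_, rfl⟩
    have hτ0 : 0 < τ := by rw [hτ]; positivity
    have havg := avg (SBz N z (C1 / 2) C2 n) (WX N C1 C2) (fun p hp => by
      unfold SBz at hp
      exact (mem_WW.1 (mem_filter.1 hp).1).1.two_le) (fun x hx => WX_pos (by omega) hx) τ hτ0
    refine le_trans (sum_le_sum_of_subset_of_nonneg ?_ fun _ _ _ => by positivity)
      (havg.trans ?_)
    · intro x hxm
      rw [mem_filter] at hxm ⊢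
      refine ⟨hxm.1, ?_⟩
      by_contra hcon
      rw [not_le] at hcon
      obtain ⟨hx1, hx2⟩ := mem_WX.1 hxm.1
      have hx3 := f5 x hx1
      have hx0 : (0 : ℝ) < x := by exact_mod_cast (by omega : 0 < x)
      have hlx : 0 < Real.log x := Real.log_pos (by exact_mod_cast (by omega : 1 < x))
      have hlx2 : Real.log x ≤ C2 * L := by
        rw [hL, ← Real.log_rpow hN0]
        exact Real.log_le_log hx0 hx2
      have h1 := (abs_le.1 (hx x hx1 hx2)).1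
      have h2 := CT_ge σ N z (C1 / 2) C2 (by omega) n x hx2
      have h3 := hpi x hx1
      have h5 : τ * x ≤ ε / 40 * (x / Real.log x) := by
        rw [hτ, mul_div_assoc', le_div_iff₀ hlx]
        calc ε / (40 * C2 * L) * x * Real.log x ≤ ε / (40 * C2 * L) * x * (C2 * L) :=
              mul_le_mul_of_nonneg_left hlx2 (by positivity)
          _ = ε / 40 * x := by field_simp
      have h6 : (N : ℝ) ^ (C1 / 2) ≤ ε / 40 * (x / Real.log x) := by
        rw [mul_div_assoc', le_div_iff₀ hlx]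
        rw [pow_one, one_mul, ← hL] at f2
        have h7 : (0 : ℝ) < (N : ℝ) ^ (C1 / 2) := by positivity
        have h8 : (N : ℝ) ^ C1 = (N : ℝ) ^ (C1 / 2) * (N : ℝ) ^ (C1 / 2) := by
          rw [← Real.rpow_add hN0]
          congr 1
          ring
        calc (N : ℝ) ^ (C1 / 2) * Real.log x ≤ (N : ℝ) ^ (C1 / 2) * (C2 * L) :=
              mul_le_mul_of_nonneg_left hlx2 h7.le
          _ ≤ (N : ℝ) ^ (C1 / 2) * (ε / 40 * (C2 * (40 / ε) * (L + 1))) := by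
              apply mul_le_mul_of_nonneg_left _ h7.le
              have : ε / 40 * (C2 * (40 / ε) * (L + 1)) = C2 * (L + 1) := by field_simp
              rw [this]
              nlinarith
          _ ≤ (N : ℝ) ^ (C1 / 2) * (ε / 40 * (N : ℝ) ^ (C1 / 2)) := by
              apply mul_le_mul_of_nonneg_left _ h7.le
              exact mul_le_mul_of_nonneg_left f2 (by positivity)
          _ = ε / 40 * (N : ℝ) ^ C1 := by rw [h8]; ring
          _ ≤ ε / 40 * x := mul_le_mul_of_nonneg_left hx1 (by positivity)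
      have h9 := hxm.2
      have h10 : (0 : ℝ) < Nat.primeCounting x := lt_of_lt_of_le (by positivity) (f3 x hx1)
      have h11 : 0 < ε * (Nat.primeCounting x : ℝ) := by positivity
      linarith
    · obtain ⟨j, hj⟩ : ∃ j : ℝ, j = (Nat.log 2 z : ℝ) + 1 := ⟨_, rfl⟩
      rw [← hj] at hSsum
      have hj1 : 1 ≤ j := by
        rw [hj]
        have : (0 : ℝ) ≤ (Nat.log 2 z : ℝ) := Nat.cast_nonneg _
        linarith
      have hjJ : Q ≤ j := by
        have h1 : J ≤ Nat.log 2 z := Nat.le_log_of_pow_le (by norm_num) hzJ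
        have h2 : (J : ℝ) ≤ Nat.log 2 z := by exact_mod_cast h1
        linarith
      rw [← hL]
      calc 2 / τ * ∑ p ∈ SBz N z (C1 / 2) C2 n, 1 / (p : ℝ) ≤ 2 / τ * (Cw / j ^ 2) :=
            mul_le_mul_of_nonneg_left hSsum (by positivity)
        _ ≤ 2 / τ * (Cw / j) := by
            apply mul_le_mul_of_nonneg_left _ (by positivity)
            apply div_le_div_of_nonneg_left (by linarith) (by linarith)
            nlinarith
        _ = (ε * Q) / j * L := by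
            rw [hτ, hQ]
            field_simp
            norm_num
        _ ≤ ε * L := by
            apply mul_le_mul_of_nonneg_right _ hL0.le
            rw [div_le_iff₀ (by linarith)]
            exact mul_le_mul_of_nonneg_left hjJ hε.le

end Pool.Agent.KS6_18
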