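import Mathlib
import Pool.Agent.KS6_18.FBUA
import Pool.Agent.KS6_18.GenT

set_option autoImplicit false

/-! The primes `l ≤ (log N) ^ (1 - κ)`. -/

namespace Pool.Agent.KS6_18

open Finset Filter MulChar NumberField IsCyclotomicExtension

/-- the integral part of the `l`-th root -/
noncomputable def rt (l μ : ℕ) : ℕ :=
  (μ.factorization.mapRange (· / l) (Nat.zero_div l)).prod (· ^ ·)

lemma rt_fac (l μ q : ℕ) : (rt l μ).factorization q = μ.factorization q / l := by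
  unfold rt
  rw [Nat.prod_pow_factorization_eq_self]
  · rfl
  · intro p hp
    have h1 : p ∈ μ.factorization.support := by
      rw [Finsupp.mem_support_iff] at hp ⊢
      intro h
      apply hp
      rw [Finsupp.mapRange_apply, h, Nat.zero_div]
    rw [Nat.support_factorization] at h1
    exact Nat.prime_of_mem_primeFactors h1

lemma rt_ne (l μ : ℕ) : rt l μ ≠ 0 := by
  unfold rt
  rw [Finsupp.prod, Finset.prod_ne_zero_iff]
  intro p hp
  apply pow_ne_zero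
  have h1 : p ∈ μ.factorization.support := by
    rw [Finsupp.mem_support_iff] at hp ⊢
    intro h
    apply hp
    rw [Finsupp.mapRange_apply, h, Nat.zero_div]
  rw [Nat.support_factorization] at h1
  exact (Nat.prime_of_mem_primeFactors h1).ne_zero

lemma rt_pow {l μ : ℕ} (hμ : μ ≠ 0) : (rt l μ) ^ l ≤ μ := by
  apply Nat.le_of_dvd (Nat.pos_of_ne_zero hμ)
  rw [← Nat.factorization_le_iff_dvd (pow_ne_zero _ (rt_ne l μ)) hμ]
  intro q
  rw [Nat.factorization_pow]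
  simp only [Finsupp.coe_smul, Pi.smul_apply, smul_eq_mul]
  rw [rt_fac]
  exact Nat.mul_div_le _ _

open Classical in
/-- the class of `ν` -/
noncomputable def Cla (N l ν : ℕ) : Finset ℕ :=
  (Icc 1 N).filter (fun μ => ∀ q : ℕ, q.Prime → μ.factorization q ≡ ν.factorization q [MOD l])

lemma Cla_card (N : ℕ) {l : ℕ} (hl : 0 < l) (ν : ℕ) :
    ((Cla N l ν).card : ℝ) ≤ (N : ℝ) ^ (1 / (l : ℝ)) := by
  classical
  have hl0 : (0 : ℝ) < l := by exact_mod_cast hl
  have h1 : (Cla N l ν).card ≤ (Icc 1 ⌊(N : ℝ) ^ (1 / (l : ℝ))⌋₊).card := by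
    apply card_le_card_of_injOn (rt l)
    · intro μ hμ
      have hμ' : μ ∈ Cla N l ν := hμ
      unfold Cla at hμ'
      rw [mem_filter, mem_Icc] at hμ'
      have hμ0 : μ ≠ 0 := by omega
      have h2 : ((rt l μ : ℕ) : ℝ) ^ (l : ℝ) ≤ N := by
        rw [Real.rpow_natCast]
        exact_mod_cast (rt_pow hμ0).trans hμ'.1.2
      have h3 : ((rt l μ : ℕ) : ℝ) ≤ (N : ℝ) ^ (1 / (l : ℝ)) := by
        calc ((rt l μ : ℕ) : ℝ) = (((rt l μ : ℕ) : ℝ) ^ (l : ℝ)) ^ (1 / (l : ℝ)) := by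
              rw [← Real.rpow_mul (Nat.cast_nonneg _), mul_one_div, div_self hl0.ne', Real.rpow_one]
          _ ≤ _ := Real.rpow_le_rpow (by positivity) h2 (by positivity)
      have h4 : rt l μ ∈ Icc 1 ⌊(N : ℝ) ^ (1 / (l : ℝ))⌋₊ :=
        mem_Icc.2 ⟨Nat.one_le_iff_ne_zero.2 (rt_ne l μ), Nat.le_floor h3⟩
      exact h4
    · intro μ hμ μ' hμ' he
      have h2 : μ ∈ Cla N l ν := hμ
      have h3 : μ' ∈ Cla N l ν := hμ'
      unfold Cla at h2 h3
      rw [mem_filter, mem_Icc] at h2 h3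
      apply Nat.eq_of_factorization_eq (by omega) (by omega)
      intro q
      by_cases hq : q.Prime
      · have h4 : μ.factorization q / l = μ'.factorization q / l := by
          rw [← rt_fac, ← rt_fac, he]
        have h5 : μ.factorization q % l = μ'.factorization q % l :=
          (h2.2 q hq).trans (h3.2 q hq).symm
        rw [← Nat.div_add_mod (μ.factorization q) l, ← Nat.div_add_mod (μ'.factorization q) l, h4, h5]
      · rw [Nat.factorization_eq_zero_of_not_prime _ hq, Nat.factorization_eq_zero_of_not_prime _ hq]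
  rw [Nat.card_Icc, Nat.add_sub_cancel] at h1
  calc ((Cla N l ν).card : ℝ) ≤ (⌊(N : ℝ) ^ (1 / (l : ℝ))⌋₊ : ℝ) := by exact_mod_cast h1
    _ ≤ _ := Nat.floor_le (by positivity)

/-- the primes `p ≤ x`, `p ≡ 1 mod l` -/
def Tl (l x : ℕ) : Finset ℕ := (Icc 1 x).filter (fun p => p.Prime ∧ l ∣ p - 1)

lemma mem_Tl {l x p : ℕ} : p ∈ Tl l x ↔ (p.Prime ∧ l ∣ p - 1) ∧ p ≤ x := by
  unfold Tl
  rw [mem_filter, mem_Icc]
  constructor
  · rintro ⟨⟨_, h2⟩, h3⟩
    exact ⟨h3, h2⟩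
  · rintro ⟨h1, h2⟩
    exact ⟨⟨h1.1.one_le, h2⟩, h1⟩

open Classical in
/-- the primes modulo which `n` is an `l`-th power -/
noncomputable def Al (l x : ℕ) (n : ℤ) : Finset ℕ :=
  (Tl l x).filter (fun p => ¬ (p : ℤ) ∣ n ∧ (n : ZMod p) ^ ((p - 1) / l) = 1)

section
variable {l : ℕ} [NeZero l]

lemma XX_neg {p : ℕ} (hl : l.Prime) (hlo : Odd l) (hp : p.Prime ∧ l ∣ p - 1) :
    XX l (CyclotomicField l ℚ) (IO l) l p (-1) = 1 := by
  have hlm : l ∈ l.primeFactors := Nat.mem_primeFactors.2 ⟨hl, dvd_refl _, hl.ne_zero⟩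
  have h1 := XX_mu l (CyclotomicField l ℚ) (IO l) hlm hp (-1) (by
    rw [Int.dvd_neg]
    intro h
    have h2 : p ∣ 1 := by exact_mod_cast h
    exact hp.1.one_lt.ne' (Nat.dvd_one.1 h2))
  have h2 : XX l (CyclotomicField l ℚ) (IO l) l p (-1) ^ 2 = 1 := by
    have h3 := XX_mul l (CyclotomicField l ℚ) (IO l) (l := l) hp (-1) (-1)
    rw [show (-1 : ℤ) * (-1) = 1 by norm_num, XX_one l _ (IO l) hp] at h3
    rw [sq, ← h3]
  have key : ∀ c : ℂ, c ^ l = 1 → c ^ 2 = 1 → c = 1 := by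
    intro c hc1 hc2
    obtain ⟨k, hk⟩ := hlo
    rw [hk, pow_add, pow_mul, hc2, one_pow, one_mul, pow_one] at hc1
    exact hc1
  exact key _ h1 h2

lemma XY_abs {p : ℕ} (hl : l.Prime) (hlo : Odd l) (hp : p.Prime ∧ l ∣ p - 1) (n : ℤ) :
    XY l l p n = XX l (CyclotomicField l ℚ) (IO l) l p (n.natAbs : ℤ) := by
  unfold XY
  rcases Int.natAbs_eq n with h | h
  · rw [← h]
  · conv_lhs => rw [h, ← neg_one_mul]
    rw [XX_mul l _ (IO l) hp, XX_neg hl hlo hp, one_mul]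

lemma XPo_one (hl : l.Prime) (j p ν : ℕ) : XP l (CyclotomicField l ℚ) (IO l) (fun _ => j) 0 p ν =
    XX l (CyclotomicField l ℚ) (IO l) l p ν ^ j := by
  unfold XP
  rw [hl.primeFactors, prod_singleton, pow_zero, mul_one]

/-- the count from the character sums -/
lemma Al_le (hl : l.Prime) (hlo : Odd l) (x : ℕ) (n : ℤ) (τ : ℝ) (hτ : 0 ≤ τ)
    (h : ∀ j ∈ Ico 1 l, ‖∑ p ∈ Tl l x, (1 : ℂ) * XP l (CyclotomicField l ℚ) (IO l) (fun _ => j) 0 p
      n.natAbs‖ ≤ τ) :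
    ((Al l x n).card : ℝ) ≤ 1 / (l : ℝ) * (Tl l x).card + τ := by
  classical
  have hl0 : (0 : ℝ) < l := by exact_mod_cast hl.pos
  have hlm : l ∈ l.primeFactors := Nat.mem_primeFactors.2 ⟨hl, dvd_refl _, hl.ne_zero⟩
  set T' := (Tl l x).filter (fun p : ℕ => ¬ (p : ℤ) ∣ n) with hT'
  have h1 : ∑ p ∈ T', gl l p n = (l : ℝ) * (Al l x n).card - T'.card := by
    have h2 : ∀ p ∈ T', gl l p n =
        (l : ℝ) * (if (n : ZMod p) ^ ((p - 1) / l) = 1 then 1 else 0) - 1 := by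
      intro p _
      unfold gl
      split_ifs <;> ring
    rw [sum_congr rfl h2, sum_sub_distrib, ← mul_sum, sum_const, nsmul_eq_mul, mul_one]
    congr 2
    unfold Al
    rw [← filter_filter, card_filter]
    push_cast
    rfl
  have h3 : ((∑ p ∈ T', gl l p n : ℝ) : ℂ) = ∑ j ∈ Ico 1 l, ∑ p ∈ Tl l x,
      (1 : ℂ) * XP l (CyclotomicField l ℚ) (IO l) (fun _ => j) 0 p n.natAbs := by
    rw [sum_comm, hT', sum_filter]
    push_cast
    apply sum_congr rfl
    intro p hp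
    have hp' := (mem_Tl.1 hp).1
    by_cases hn : (p : ℤ) ∣ n
    · rw [if_neg (not_not.2 hn)]
      symm
      push_cast
      apply sum_eq_zero
      intro j hj
      rw [one_mul, XPo_one hl, XX_zero l _ (IO l) _ (by
        rw [Int.dvd_natAbs]
        exact hn), zero_pow]
      have := (mem_Ico.1 hj).1
      omega
    · rw [if_pos hn, gl_sum l hlm hp' n hn]
      apply sum_congr rfl
      intro j _
      rw [one_mul, XPo_one hl, XY_abs hl hlo hp']
  have h4 : |∑ p ∈ T', gl l p n| ≤ l * τ := by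
    rw [← Real.norm_eq_abs, ← Complex.norm_real, h3]
    refine (norm_sum_le _ _).trans ((sum_le_sum h).trans ?_)
    rw [sum_const, nsmul_eq_mul, Nat.card_Ico]
    apply mul_le_mul_of_nonneg_right _ hτ
    exact_mod_cast Nat.sub_le _ _
  rw [h1] at h4
  have h5 := (abs_le.1 h4).2
  have h6 : (T'.card : ℝ) ≤ (Tl l x).card := by exact_mod_cast card_le_card (filter_subset _ _)
  have h7 : (l : ℝ) * (Al l x n).card ≤ l * (1 / (l : ℝ) * (Tl l x).card + τ) := by
    have h8 : (l : ℝ) * (1 / (l : ℝ) * (Tl l x).card + τ) = (Tl l x).card + l * τ := by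
      field_simp
    rw [h8]
    linarith
  exact le_of_mul_le_mul_left h7 hl0

end

open Classical in
/-- **one prime `l`** -/
theorem ra_one (C1 C2 κ : ℝ) (hC1 : 0 < C1) (hC2 : 0 < C2) (hκ : 0 < κ) (hκ1 : κ < 1) :
    ∀ᶠ N : ℕ in atTop, ∀ l : ℕ, l.Prime → Odd l → (l : ℝ) ≤ (Real.log N) ^ (1 - κ) →
      ∀ x : ℕ, (N : ℝ) ^ C1 ≤ x → (x : ℝ) ≤ (N : ℝ) ^ C2 →
      (((ZN N).filter (fun n => 1 / (l : ℝ) * (Tl l x).card +
        1 / (Real.log N) ^ 2 * (x / Real.log x) < ((Al l x n).card : ℝ))).card : ℝ) ≤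
        2 * l * (Real.exp ((Real.log N) ^ (1 - κ / 2)) * (N : ℝ) ^ (1 / (l : ℝ))) := by
  have e1 := fba_u C1 C2 κ 2 hC1 hC2 hκ hκ1
  have e2 := x_log_large C1 C2 0 hC1 hC2 le_rfl
  filter_upwards [e1, e2, log_tend.eventually_ge_atTop 1] with N g1 g2 g3 l hl hlo hlN x hx1 hx2
  haveI : NeZero l := ⟨hl.ne_zero⟩
  have hX : 0 ≤ (x : ℝ) / Real.log x := g2 x hx1 hx2
  set τ : ℝ := 1 / (Real.log N) ^ 2 * (x / Real.log x) with hτ
  have hτ0 : 0 ≤ τ := by positivity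
  set Y : ℕ → Finset ℕ := fun j => (Icc 1 N).filter (fun ν => τ ≤
    ‖∑ p ∈ Tl l x, (1 : ℂ) * XP l (CyclotomicField l ℚ) (IO l) (fun _ => j) 0 p ν‖) with hY
  have hYc : ∀ j ∈ Ico 1 l, ((Y j).card : ℝ) ≤
      Real.exp ((Real.log N) ^ (1 - κ / 2)) * (N : ℝ) ^ (1 / (l : ℝ)) := by
    intro j hj
    obtain ⟨S, hS1, hS2, hS3⟩ := cover l (Y j)
    have h1 := g1 l hl hlo hlN (CyclotomicField l ℚ) (IO l) (fun _ => j) (by
      intro h
      have h2 := mem_Ico.1 hj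
      have := Nat.le_of_dvd (by omega) h
      omega) x hx1 hx2 (Tl l x) (fun p hp => mem_Tl.1 hp) (fun _ => 1) (fun _ _ => by simp) S
      (by
        intro ν hν
        have h2 := hS1 hν
        simp only [hY] at h2
        rw [mem_filter, mem_Icc] at h2
        exact ⟨by omega, h2.1.2⟩)
      (by
        intro ν hν ν' hν' hne
        have h2 := hS2 ν hν ν' hν' hne
        unfold rel at h2
        push Not at h2
        obtain ⟨q, l', hq, hl', hl'l, h3⟩ := h2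
        have h4 : l' = l := (Nat.prime_dvd_prime_iff_eq hl' hl).1 hl'l
        rw [h4] at h3
        exact ⟨q, hq, h3⟩)
      (by
        intro ν hν
        have h2 := hS1 hν
        simp only [hY] at h2
        rw [mem_filter] at h2
        exact h2.2)
    have h2 : Y j ⊆ S.biUnion (fun ν => Cla N l ν) := by
      intro μ hμ
      obtain ⟨s, hs, hr⟩ := hS3 μ hμ
      rw [mem_biUnion]
      refine ⟨s, hs, ?_⟩
      unfold Cla
      rw [mem_filter]
      refine ⟨?_, fun q hq => hr q l hq hl (dvd_refl _)⟩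
      simp only [hY] at hμ
      exact (mem_filter.1 hμ).1
    have h3 : ((Y j).card : ℝ) ≤ ∑ ν ∈ S, ((Cla N l ν).card : ℝ) := by
      exact_mod_cast (card_le_card h2).trans card_biUnion_le
    refine h3.trans ((sum_le_sum fun ν _ => Cla_card N hl.pos ν).trans ?_)
    rw [sum_const, nsmul_eq_mul]
    exact mul_le_mul_of_nonneg_right h1 (by positivity)
  have hsub : (ZN N).filter (fun n => 1 / (l : ℝ) * (Tl l x).card + τ < ((Al l x n).card : ℝ)) ⊆
      (Ico 1 l).biUnion (fun j => (Y j).image (fun ν : ℕ => (ν : ℤ)) ∪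
        (Y j).image (fun ν : ℕ => -(ν : ℤ))) := by
    intro n hn
    rw [mem_filter, mem_ZN] at hn
    have h1 : ∃ j ∈ Ico 1 l, n.natAbs ∈ Y j := by
      by_contra hcon
      push Not at hcon
      apply absurd hn.2
      rw [not_lt]
      apply Al_le hl hlo x n τ hτ0
      intro j hj
      have h2 := hcon j hj
      simp only [hY] at h2
      rw [mem_filter, mem_Icc] at h2
      by_contra h3
      rw [not_le] at h3
      exact h2 ⟨⟨Int.natAbs_pos.2 hn.1.1, hn.1.2⟩, h3.le⟩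
    obtain ⟨j, hj, hjY⟩ := h1
    rw [mem_biUnion]
    refine ⟨j, hj, ?_⟩
    rw [mem_union, mem_image, mem_image]
    rcases Int.natAbs_eq n with h | h
    · left; exact ⟨_, hjY, h.symm⟩
    · right; exact ⟨_, hjY, h.symm⟩
  have h1 : (((ZN N).filter (fun n => 1 / (l : ℝ) * (Tl l x).card + τ <
      ((Al l x n).card : ℝ))).card : ℝ) ≤ ∑ j ∈ Ico 1 l, (2 * (Y j).card : ℝ) := by
    have h2 : ((ZN N).filter (fun n => 1 / (l : ℝ) * (Tl l x).card + τ <
        ((Al l x n).card : ℝ))).card ≤ ∑ j ∈ Ico 1 l, 2 * (Y j).card := by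
      refine (card_le_card hsub).trans (card_biUnion_le.trans (sum_le_sum fun j _ => ?_))
      refine (card_union_le _ _).trans ?_
      have h3 := card_image_le (s := Y j) (f := fun ν : ℕ => (ν : ℤ))
      have h4 := card_image_le (s := Y j) (f := fun ν : ℕ => -(ν : ℤ))
      omega
    exact_mod_cast h2
  refine h1.trans ?_
  calc ∑ j ∈ Ico 1 l, (2 * (Y j).card : ℝ) ≤ ∑ j ∈ Ico 1 l,
        2 * (Real.exp ((Real.log N) ^ (1 - κ / 2)) * (N : ℝ) ^ (1 / (l : ℝ))) :=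
        sum_le_sum fun j hj => mul_le_mul_of_nonneg_left (hYc j hj) (by norm_num)
    _ = ((l - 1 : ℕ) : ℝ) * (2 * (Real.exp ((Real.log N) ^ (1 - κ / 2)) * (N : ℝ) ^ (1 / (l : ℝ)))) := by
        rw [sum_const, nsmul_eq_mul, Nat.card_Ico]
    _ ≤ (l : ℝ) * (2 * (Real.exp ((Real.log N) ^ (1 - κ / 2)) * (N : ℝ) ^ (1 / (l : ℝ)))) := by
        apply mul_le_mul_of_nonneg_right _ (by positivity)
        exact_mod_cast Nat.sub_le _ _
    _ = _ := by ring

open Classical in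
/-- the primes modulo which `n` is an `l`-th power, `z < l ≤ y` -/
noncomputable def BA (z : ℕ) (y : ℝ) (x : ℕ) (n : ℤ) : Finset ℕ :=
  (Icc 1 x).filter (fun p => p.Prime ∧ ¬ (p : ℤ) ∣ n ∧ ∃ l : ℕ, l.Prime ∧ z < l ∧ (l : ℝ) ≤ y ∧
    l ∣ p - 1 ∧ (n : ZMod p) ^ ((p - 1) / l) = 1)

lemma BA_le (z : ℕ) (hz : 2 ≤ z) (y : ℝ) (x : ℕ) (n : ℤ) (τ : ℝ) (hτ : 0 ≤ τ) (hy : 0 ≤ y)
    (h : ∀ l : ℕ, l.Prime → z < l → (l : ℝ) ≤ y → ((Al l x n).card : ℝ) ≤
      1 / (l : ℝ) * (Tl l x).card + τ) :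
    ((BA z y x n).card : ℝ) ≤ ∑ p ∈ OX x, ∑ l ∈ Lb z p, 1 / (l : ℝ) + y * τ := by
  classical
  set Ls := (Icc 1 ⌊y⌋₊).filter (fun l => l.Prime ∧ z < l) with hLs
  have hmem : ∀ l ∈ Ls, l.Prime ∧ z < l ∧ (l : ℝ) ≤ y := by
    intro l hl
    rw [hLs, mem_filter, mem_Icc] at hl
    exact ⟨hl.2.1, hl.2.2, (Nat.le_floor_iff hy).1 hl.1.2⟩
  have h1 : BA z y x n ⊆ Ls.biUnion (fun l => Al l x n) := by
    intro p hp
    unfold BA at hp
    rw [mem_filter, mem_Icc] at hp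
    obtain ⟨⟨h1, h2⟩, h3, h4, l, hl, hzl, hly, hlp, hln⟩ := hp
    rw [mem_biUnion]
    refine ⟨l, ?_, ?_⟩
    · rw [hLs, mem_filter, mem_Icc]
      exact ⟨⟨hl.one_le, Nat.le_floor hly⟩, hl, hzl⟩
    · unfold Al
      rw [mem_filter, mem_Tl]
      exact ⟨⟨⟨h3, hlp⟩, h2⟩, h4, hln⟩
  have h2 : ((BA z y x n).card : ℝ) ≤ ∑ l ∈ Ls, ((Al l x n).card : ℝ) := by
    exact_mod_cast (card_le_card h1).trans card_biUnion_le
  refine h2.trans ((sum_le_sum fun l hl => h l (hmem l hl).1 (hmem l hl).2.1 (hmem l hl).2.2).trans ?_)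
  rw [sum_add_distrib, sum_const, nsmul_eq_mul]
  apply add_le_add
  · have h3 : ∀ l ∈ Ls, 1 / (l : ℝ) * (Tl l x).card =
        ∑ p ∈ OX x, if l ∣ p - 1 then 1 / (l : ℝ) else 0 := by
      intro l hl
      rw [← sum_filter, sum_const, nsmul_eq_mul, mul_comm]
      congr 2
      have h4 : Tl l x = (OX x).filter (fun p => l ∣ p - 1) := by
        ext p
        unfold OX
        rw [mem_Tl, mem_filter, mem_filter, mem_Icc]
        constructor
        · rintro ⟨⟨h5, h6⟩, h7⟩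
          refine ⟨⟨⟨h5.one_le, h7⟩, h5, ?_⟩, h6⟩
          rintro rfl
          have h8 := (hmem l hl).1.one_lt
          have h9 := Nat.le_of_dvd (by norm_num) h6
          omega
        · rintro ⟨⟨⟨h5, h6⟩, h7, h8⟩, h9⟩
          exact ⟨⟨h7, h9⟩, h6⟩
      rw [h4]
    rw [sum_congr rfl h3, sum_comm]
    apply sum_le_sum
    intro p hp
    rw [← sum_filter]
    apply sum_le_sum_of_subset_of_nonneg
    · intro l hl
      rw [mem_filter] at hl
      unfold OX at hp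
      rw [mem_filter] at hp
      unfold Lb
      rw [mem_filter, Nat.mem_primeFactors]
      have h4 := hmem l hl.1
      exact ⟨⟨h4.1, hl.2, by have := hp.2.1.two_le; omega⟩, h4.2.1⟩
    · intro l _ _
      positivity
  · apply mul_le_mul_of_nonneg_right _ hτ
    have h3 : Ls.card ≤ ⌊y⌋₊ := by
      rw [hLs]
      refine (card_filter_le _ _).trans ?_
      rw [Nat.card_Icc, Nat.add_sub_cancel]
    calc (Ls.card : ℝ) ≤ (⌊y⌋₊ : ℝ) := by exact_mod_cast h3
      _ ≤ y := Nat.floor_le hy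

open Classical in
/-- **the primes `l ≤ (log N) ^ (1 - κ)`** -/
theorem ra_all (θ η κ : ℝ) (hθ : 0 < θ) (hη : 0 < η) (hκ : 0 < κ) (hκ1 : κ < 1) :
    ∃ z₀ : ℕ, 2 ≤ z₀ ∧ ∀ z : ℕ, z₀ ≤ z → ∀ C1 C2 : ℝ, 0 < C1 → 0 < C2 →
    ∀ᶠ N : ℕ in atTop, ∀ x : ℕ, (N : ℝ) ^ C1 ≤ x → (x : ℝ) ≤ (N : ℝ) ^ C2 →
      (((ZN N).filter (fun n => η * (x / Real.log x) <
        ((BA z ((Real.log N) ^ (1 - κ)) x n).card : ℝ))).card : ℝ) ≤ (N : ℝ) ^ θ := by
  obtain ⟨z₁, hz₁, htail⟩ := tail_sum (η / 2) (by positivity)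
  obtain ⟨z₂, hz₂⟩ : ∃ z₂ : ℕ, 4 / θ ≤ z₂ := exists_nat_ge _
  refine ⟨max z₁ z₂, hz₁.trans (le_max_left _ _), fun z hz C1 C2 hC1 hC2 => ?_⟩
  have hzz1 : z₁ ≤ z := (le_max_left _ _).trans hz
  have hz2 : 2 ≤ z := hz₁.trans hzz1
  have hz0 : (0 : ℝ) < z := by exact_mod_cast (by omega : 0 < z)
  have hzθ : 1 / (z : ℝ) ≤ θ / 4 := by
    have h1 : (z₂ : ℝ) ≤ z := by exact_mod_cast (le_max_right _ _).trans hz
    have h2 : 4 / θ ≤ z := hz₂.trans h1
    rw [div_le_iff₀ hθ] at h2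
    rw [div_le_div_iff₀ hz0 (by norm_num)]
    linarith
  have e1 := ra_one C1 C2 κ hC1 hC2 hκ hκ1
  have e2 := ev_x _ C1 hC1 (htail z hzz1)
  have e3 := log_tend.eventually_ge_atTop (max 1 (2 / η))
  have e4 := log_tend.eventually (pow_sub (κ / 2) (θ / 4) (by positivity) (by positivity))
  have e5 := ev_pow 2 1 2 (θ / 4) (by positivity)
  have e6 := x_log_large C1 C2 0 hC1 hC2 le_rfl
  filter_upwards [e1, e2, e3, e4, e5, e6, eventually_ge_atTop 1] with N g1 g2 g3 g4 g5 g6 hN1 x hx1 hx2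
  have hN0 : (0 : ℝ) < N := by exact_mod_cast hN1
  have hN1' : (1 : ℝ) ≤ N := by exact_mod_cast hN1
  set L := Real.log (N : ℝ) with hL
  have hL1 : 1 ≤ L := (le_max_left _ _).trans g3
  have hLη : 2 / η ≤ L := (le_max_right _ _).trans g3
  have hL0 : 0 < L := by linarith
  have hX : 0 ≤ (x : ℝ) / Real.log x := g6 x hx1 hx2
  set y : ℝ := L ^ (1 - κ) with hy
  have hy0 : 0 ≤ y := by positivity
  have hyL : y ≤ L := by
    calc y ≤ L ^ (1 : ℝ) := Real.rpow_le_rpow_of_exponent_le hL1 (by linarith)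
      _ = L := Real.rpow_one L
  set τ : ℝ := 1 / L ^ 2 * (x / Real.log x) with hτ
  have hτ0 : 0 ≤ τ := by positivity
  set Ls := (Icc 1 ⌊y⌋₊).filter (fun l => l.Prime ∧ z < l) with hLs
  have hmem : ∀ l ∈ Ls, l.Prime ∧ z < l ∧ (l : ℝ) ≤ y := by
    intro l hl
    rw [hLs, mem_filter, mem_Icc] at hl
    exact ⟨hl.2.1, hl.2.2, (Nat.le_floor_iff hy0).1 hl.1.2⟩
  have hsub : (ZN N).filter (fun n => η * (x / Real.log x) < ((BA z y x n).card : ℝ)) ⊆
      Ls.biUnion (fun l => (ZN N).filter (fun n => 1 / (l : ℝ) * (Tl l x).card +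
        τ < ((Al l x n).card : ℝ))) := by
    intro n hn
    rw [mem_filter] at hn
    by_contra hcon
    rw [mem_biUnion] at hcon
    push Not at hcon
    apply absurd hn.2
    rw [not_lt]
    have h1 := BA_le z hz2 y x n τ hτ0 hy0 (by
      intro l hl hzl hly
      have h2 := hcon l (by
        rw [hLs, mem_filter, mem_Icc]
        exact ⟨⟨hl.one_le, Nat.le_floor hly⟩, hl, hzl⟩)
      rw [mem_filter] at h2
      by_contra h3
      exact h2 ⟨hn.1, not_le.1 h3⟩)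
    refine h1.trans ?_
    have h2 := g2 x hx1
    have h3 : y * τ ≤ η / 2 * (x / Real.log x) := by
      calc y * τ ≤ L * τ := mul_le_mul_of_nonneg_right hyL hτ0
        _ = 1 / L * (x / Real.log x) := by
            rw [hτ]
            field_simp
        _ ≤ η / 2 * (x / Real.log x) := by
            apply mul_le_mul_of_nonneg_right _ hX
            rw [div_le_div_iff₀ hL0 (by norm_num)]
            rw [div_le_iff₀ hη] at hLη
            linarith
    linarith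
  have h1 : (((ZN N).filter (fun n => η * (x / Real.log x) < ((BA z y x n).card : ℝ))).card : ℝ) ≤
      ∑ l ∈ Ls, (((ZN N).filter (fun n => 1 / (l : ℝ) * (Tl l x).card +
        τ < ((Al l x n).card : ℝ))).card : ℝ) := by
    exact_mod_cast (card_le_card hsub).trans card_biUnion_le
  refine h1.trans ?_
  have h2 : ∀ l ∈ Ls, (((ZN N).filter (fun n => 1 / (l : ℝ) * (Tl l x).card +
        τ < ((Al l x n).card : ℝ))).card : ℝ) ≤ 2 * L * ((N : ℝ) ^ (θ / 4) * (N : ℝ) ^ (θ / 4)) := by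
    intro l hl
    obtain ⟨hlp, hzl, hly⟩ := hmem l hl
    have hlo : Odd l := hlp.odd_of_ne_two (by omega)
    refine (g1 l hlp hlo hly x hx1 hx2).trans ?_
    have h3 : (l : ℝ) ≤ L := hly.trans hyL
    have h4 : Real.exp (L ^ (1 - κ / 2)) ≤ (N : ℝ) ^ (θ / 4) := by
      rw [Real.rpow_def_of_pos hN0, Real.exp_le_exp]
      rw [← hL]
      linarith
    have h5 : (N : ℝ) ^ (1 / (l : ℝ)) ≤ (N : ℝ) ^ (θ / 4) := by
      apply Real.rpow_le_rpow_of_exponent_le hN1'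
      refine le_trans ?_ hzθ
      apply one_div_le_one_div_of_le hz0
      exact_mod_cast hzl.le
    apply mul_le_mul
    · linarith
    · exact mul_le_mul h4 h5 (by positivity) (by positivity)
    · positivity
    · positivity
  refine (sum_le_sum h2).trans ?_
  rw [sum_const, nsmul_eq_mul]
  have h3 : (Ls.card : ℝ) ≤ L := by
    have h4 : Ls.card ≤ ⌊y⌋₊ := by
      rw [hLs]
      refine (card_filter_le _ _).trans ?_
      rw [Nat.card_Icc, Nat.add_sub_cancel]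
    calc (Ls.card : ℝ) ≤ (⌊y⌋₊ : ℝ) := by exact_mod_cast h4
      _ ≤ y := Nat.floor_le hy0
      _ ≤ L := hyL
  calc (Ls.card : ℝ) * (2 * L * ((N : ℝ) ^ (θ / 4) * (N : ℝ) ^ (θ / 4)))
      ≤ L * (2 * L * ((N : ℝ) ^ (θ / 4) * (N : ℝ) ^ (θ / 4))) :=
        mul_le_mul_of_nonneg_right h3 (by positivity)
    _ = (2 * L ^ 2) * ((N : ℝ) ^ (θ / 4) * (N : ℝ) ^ (θ / 4)) := by ring
    _ ≤ (N : ℝ) ^ (θ / 4) * ((N : ℝ) ^ (θ / 4) * (N : ℝ) ^ (θ / 4)) := by
        apply mul_le_mul_of_nonneg_right _ (by positivity)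
        refine le_trans ?_ g5
        rw [one_mul]
        nlinarith
    _ = (N : ℝ) ^ (3 * (θ / 4)) := by
        rw [← Real.rpow_add hN0, ← Real.rpow_add hN0]
        congr 1
        ring
    _ ≤ (N : ℝ) ^ θ := Real.rpow_le_rpow_of_exponent_le hN1' (by linarith)

end Pool.Agent.KS6_18
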