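import Mathlib
import Pool.Agent.KS6_18.RngA

set_option autoImplicit false

/-! The primes `l > (log N) ^ (1 - κ)`. -/

namespace Pool.Agent.KS6_18

open Finset Filter

/-- the primes `p ≤ x` such that `p - 1` has a prime factor in `(y, y']` -/
noncomputable def BM (y y' : ℝ) (x : ℕ) : Finset ℕ :=
  open Classical in (Icc 1 x).filter (fun p => p.Prime ∧ ∃ l : ℕ, l.Prime ∧ y < l ∧ (l : ℝ) ≤ y' ∧ l ∣ p - 1)

/-- the middle range -/
theorem rb : ∃ C : ℝ, 1 ≤ C ∧ ∀ κ : ℝ, 0 < κ → κ ≤ 1 / 2 → ∀ C1 : ℝ, 0 < C1 →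
    ∀ᶠ N : ℕ in atTop, ∀ x : ℕ, (N : ℝ) ^ C1 ≤ x →
      ((BM ((Real.log N) ^ (1 - κ)) ((Real.log N) ^ (1 + κ)) x).card : ℝ) ≤
        C * κ * (x / Real.log x) := by
  classical
  obtain ⟨Ct, hCt, hbt⟩ := bt_one
  obtain ⟨Cb, hCb, hblk⟩ := blk_sum
  refine ⟨Ct * (8 * Cb), by nlinarith, fun κ hκ hκ1 C1 hC1 => ?_⟩
  have hl2 : 0 < Real.log 2 := Real.log_pos (by norm_num)
  have e1 := ev_pow 1 1 4 C1 hC1
  have e2 : ∀ᶠ N : ℕ in atTop, max 1 (4 / κ) ≤ Real.log (Real.log N) / Real.log 2 := by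
    have h1 : Tendsto (fun N : ℕ => Real.log (Real.log (N : ℝ)) / Real.log 2) atTop atTop :=
      (Real.tendsto_log_atTop.comp log_tend).atTop_div_const hl2
    exact h1.eventually_ge_atTop _
  have e3 := log_tend.eventually_ge_atTop 2
  have e4 : ∀ᶠ N : ℕ in atTop, (2 : ℝ) ≤ (N : ℝ) ^ C1 :=
    ((tendsto_rpow_atTop hC1).comp tendsto_natCast_atTop_atTop).eventually_ge_atTop _
  filter_upwards [e1, e2, e3, e4] with N g1 g2 g3 g4 x hx1
  set L := Real.log (N : ℝ) with hL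
  have hL0 : 0 < L := by linarith
  set M := Real.log L / Real.log 2 with hM
  have hM1 : 1 ≤ M := (le_max_left _ _).trans g2
  have hMκ : 4 / κ ≤ M := (le_max_right _ _).trans g2
  have hM0 : 0 < M := by linarith
  have hx2 : (2 : ℝ) ≤ x := g4.trans hx1
  have hx2' : 2 ≤ x := by exact_mod_cast hx2
  have hlx : 0 < Real.log x := Real.log_pos (by linarith)
  have hX : 0 < x / Real.log x := by positivity
  set y := L ^ (1 - κ) with hy
  set y' := L ^ (1 + κ) with hy'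
  have hy'2 : y' ≤ L ^ 2 := by
    calc y' ≤ L ^ (2 : ℝ) := Real.rpow_le_rpow_of_exponent_le (by linarith) (by linarith)
      _ = L ^ 2 := Real.rpow_two L
  set Ls := (Icc 1 ⌊y'⌋₊).filter (fun l : ℕ => l.Prime ∧ y < (l : ℝ)) with hLs
  have hmem : ∀ l ∈ Ls, l.Prime ∧ y < l ∧ (l : ℝ) ≤ y' := by
    intro l hl
    rw [hLs, mem_filter, mem_Icc] at hl
    exact ⟨hl.2.1, hl.2.2, (Nat.le_floor_iff (by positivity)).1 hl.1.2⟩
  have h1 : BM y y' x ⊆ Ls.biUnion (fun l => Tl l x) := by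
    intro p hp
    unfold BM at hp
    rw [mem_filter, mem_Icc] at hp
    obtain ⟨⟨h1, h2⟩, h3, l, hl, hyl, hly, hlp⟩ := hp
    rw [mem_biUnion]
    refine ⟨l, ?_, mem_Tl.2 ⟨⟨h3, hlp⟩, h2⟩⟩
    rw [hLs, mem_filter, mem_Icc]
    exact ⟨⟨hl.one_le, Nat.le_floor hly⟩, hl, hyl⟩
  have h2 : ∀ l ∈ Ls, ((Tl l x).card : ℝ) ≤ Ct * (x / Real.log x) * (1 / ((l : ℝ) - 1)) := by
    intro l hl
    obtain ⟨hlp, hyl, hly⟩ := hmem l hl
    have h3 : l ^ 2 ≤ x := by
      have h4 : ((l : ℝ)) ^ 2 ≤ x := by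
        calc ((l : ℝ)) ^ 2 ≤ (L ^ 2) ^ 2 := pow_le_pow_left₀ (by positivity) (hly.trans hy'2) 2
          _ = L ^ 4 := by ring
          _ ≤ 1 * (1 * L + 1) ^ 4 := by
              rw [one_mul, one_mul]
              exact pow_le_pow_left₀ hL0.le (by linarith) 4
          _ ≤ (N : ℝ) ^ C1 := g1
          _ ≤ x := hx1
      exact_mod_cast h4
    have h4 := hbt x l hlp.one_le h3 hx2'
    have h5 : Tl l x = (Icc 1 x).filter (fun p : ℕ => p.Prime ∧ l ∣ p - 1) := rfl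
    rw [h5]
    refine h4.trans (le_of_eq ?_)
    rw [Nat.totient_prime hlp, Nat.cast_sub hlp.one_le, Nat.cast_one]
    have h6 : (0 : ℝ) < (l : ℝ) - 1 := by
      have : (2 : ℝ) ≤ l := by exact_mod_cast hlp.two_le
      linarith
    field_simp
  have h3 : ((BM y y' x).card : ℝ) ≤ ∑ l ∈ Ls, ((Tl l x).card : ℝ) := by
    exact_mod_cast (card_le_card h1).trans card_biUnion_le
  refine h3.trans ((sum_le_sum h2).trans ?_)
  rw [← mul_sum]
  -- the sum over the blocks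
  have h4 : ∑ l ∈ Ls, 1 / ((l : ℝ) - 1) ≤
      ∑ j ∈ Icc ⌊(1 - κ) * M⌋₊ ⌊(1 + κ) * M⌋₊, ∑ l ∈ Pb j, if y < l then 1 / ((l : ℝ) - 1) else 0 := by
    have h5 : ∀ l ∈ Ls, Nat.log 2 l ∈ Icc ⌊(1 - κ) * M⌋₊ ⌊(1 + κ) * M⌋₊ := by
      intro l hl
      obtain ⟨hlp, hyl, hly⟩ := hmem l hl
      have hl0 : (0 : ℝ) < l := by exact_mod_cast hlp.pos
      rw [mem_Icc]
      constructor
      · have h6 : l < 2 ^ (Nat.log 2 l + 1) := Nat.lt_pow_succ_log_self (by norm_num) l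
        have h7 : (l : ℝ) < 2 ^ (Nat.log 2 l + 1) := by exact_mod_cast h6
        have h8 : y < 2 ^ (Nat.log 2 l + 1) := hyl.trans h7
        have h9 := Real.log_lt_log (by positivity) h8
        rw [hy, Real.log_rpow hL0, Real.log_pow] at h9
        have h10 : (1 - κ) * M < (Nat.log 2 l : ℝ) + 1 := by
          rw [hM, mul_div_assoc', div_lt_iff₀ hl2]
          push_cast at h9
          exact h9
        have h11 : (⌊(1 - κ) * M⌋₊ : ℝ) < ((Nat.log 2 l + 1 : ℕ) : ℝ) := by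
          push_cast
          refine lt_of_le_of_lt (Nat.floor_le ?_) h10
          have : 0 ≤ 1 - κ := by linarith
          positivity
        have h12 : ⌊(1 - κ) * M⌋₊ < Nat.log 2 l + 1 := by exact_mod_cast h11
        omega
      · apply Nat.le_floor
        have h6 : 2 ^ Nat.log 2 l ≤ l := Nat.pow_log_le_self 2 hlp.ne_zero
        have h7 : (2 : ℝ) ^ Nat.log 2 l ≤ y' := by
          refine le_trans ?_ hly
          exact_mod_cast h6
        have h8 := Real.log_le_log (by positivity) h7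
        rw [hy', Real.log_rpow hL0, Real.log_pow] at h8
        rw [hM, mul_div_assoc', le_div_iff₀ hl2]
        exact h8
    rw [← sum_fiberwise_of_maps_to h5]
    apply sum_le_sum
    intro j _
    rw [← sum_filter]
    apply sum_le_sum_of_subset_of_nonneg
    · intro l hl
      rw [mem_filter] at hl ⊢
      obtain ⟨hlp, hyl, hly⟩ := hmem l hl.1
      exact ⟨mem_Pb.2 ⟨hlp, hl.2⟩, hyl⟩
    · intro l hl _
      have : (2 : ℝ) ≤ l := by exact_mod_cast (mem_Pb.1 (mem_filter.1 hl).1).1.two_le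
      have : (0 : ℝ) < (l : ℝ) - 1 := by linarith
      positivity
  have h5 : ∀ j ∈ Icc ⌊(1 - κ) * M⌋₊ ⌊(1 + κ) * M⌋₊,
      (∑ l ∈ Pb j, if y < l then 1 / ((l : ℝ) - 1) else 0) ≤ 2 * Cb / M := by
    intro j hj
    have h6 : (1 - κ) * M < (j : ℝ) + 1 := by
      have h7 := Nat.lt_floor_add_one ((1 - κ) * M)
      have h8 : (⌊(1 - κ) * M⌋₊ : ℝ) ≤ j := by exact_mod_cast (mem_Icc.1 hj).1
      linarith
    have h7 : M / 2 < (j : ℝ) + 1 := by nlinarith
    calc (∑ l ∈ Pb j, if y < l then 1 / ((l : ℝ) - 1) else 0) ≤ ∑ l ∈ Pb j, 1 / ((l : ℝ) - 1) := by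
          apply sum_le_sum
          intro l hl
          have : (2 : ℝ) ≤ l := by exact_mod_cast (mem_Pb.1 hl).1.two_le
          have : (0 : ℝ) < (l : ℝ) - 1 := by linarith
          split_ifs
          · exact le_rfl
          · positivity
      _ ≤ Cb / (j + 1) := hblk j
      _ ≤ Cb / (M / 2) := div_le_div_of_nonneg_left (by linarith) (by positivity) h7.le
      _ = 2 * Cb / M := by field_simp
  have h6 : ∑ l ∈ Ls, 1 / ((l : ℝ) - 1) ≤ 8 * Cb * κ := by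
    refine h4.trans ((sum_le_sum h5).trans ?_)
    rw [sum_const, nsmul_eq_mul, Nat.card_Icc]
    have h7 : ((⌊(1 + κ) * M⌋₊ + 1 - ⌊(1 - κ) * M⌋₊ : ℕ) : ℝ) ≤ 2 * κ * M + 2 := by
      have h8 : (⌊(1 + κ) * M⌋₊ : ℝ) ≤ (1 + κ) * M := Nat.floor_le (by positivity)
      have h9 := Nat.lt_floor_add_one ((1 - κ) * M)
      have h10 : ⌊(1 - κ) * M⌋₊ ≤ ⌊(1 + κ) * M⌋₊ := by
        apply Nat.floor_le_floor
        nlinarith
      rw [Nat.cast_sub (by omega)]
      push_cast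
      linarith
    have h11 : 4 ≤ κ * M := by
      rw [div_le_iff₀ hκ] at hMκ
      linarith
    calc ((⌊(1 + κ) * M⌋₊ + 1 - ⌊(1 - κ) * M⌋₊ : ℕ) : ℝ) * (2 * Cb / M)
        ≤ (2 * κ * M + 2) * (2 * Cb / M) := mul_le_mul_of_nonneg_right h7 (by positivity)
      _ ≤ (4 * (κ * M)) * (2 * Cb / M) := by
          apply mul_le_mul_of_nonneg_right _ (by positivity)
          linarith
      _ = 8 * Cb * κ := by field_simp; ring
  calc Ct * (x / Real.log x) * ∑ l ∈ Ls, 1 / ((l : ℝ) - 1) ≤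
        Ct * (x / Real.log x) * (8 * Cb * κ) := mul_le_mul_of_nonneg_left h6 (by positivity)
    _ = _ := by ring

end Pool.Agent.KS6_18
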