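import Mathlib
import Pool.Agent.KS6_18.RngA

set_option autoImplicit false

/-! The primes `l > (log N) ^ (1 - κ)`. -/

namespace Pool.Agent.KS6_18

open Finset Filter

open Classical in
/-- the primes with a large prime factor of the index -/
noncomputable def BC (y : ℝ) (x : ℕ) (n : ℤ) : Finset ℕ :=
  (Icc 1 x).filter (fun p => p.Prime ∧ ∃ l : ℕ, l.Prime ∧ y < l ∧
    l ∣ p - 1 ∧ (n : ZMod p) ^ ((p - 1) / l) = 1)

open Classical in
/-- the large primes up to `x` -/
noncomputable def W2 (x : ℕ) : Finset ℕ := (Icc 1 x).filter (fun p => p.Prime ∧ √(x : ℝ) ≤ p)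

lemma mem_W2 {x p : ℕ} : p ∈ W2 x ↔ p.Prime ∧ √(x : ℝ) ≤ p ∧ p ≤ x := by
  unfold W2
  rw [mem_filter, mem_Icc]
  constructor
  · rintro ⟨⟨_, h2⟩, h3, h4⟩
    exact ⟨h3, h4, h2⟩
  · rintro ⟨h1, h2, h3⟩
    exact ⟨⟨h1.one_le, h3⟩, h1, h2⟩

lemma BC_le (j0 : ℕ) (y : ℝ) (hj : (2 : ℝ) ^ j0 ≤ y) (x : ℕ) (n : ℤ) :
    ((BC y x n).card : ℝ) ≤ √(x : ℝ) +
      ((open Classical in (W2 x).filter (fun p => Bd one' j0 p n)).card : ℝ) := by
  classical
  have h1 : BC y x n ⊆ Icc 1 ⌊√(x : ℝ)⌋₊ ∪ (W2 x).filter (fun p => Bd one' j0 p n) := by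
    intro p hp
    unfold BC at hp
    rw [mem_filter, mem_Icc] at hp
    obtain ⟨⟨h1, h2⟩, h3, l, hl, hyl, hlp, hln⟩ := hp
    rw [mem_union]
    by_cases h : √(x : ℝ) ≤ p
    · right
      rw [mem_filter, mem_W2]
      refine ⟨⟨h3, h, h2⟩, l, hl, hlp, ?_, hln⟩
      have h4 : (2 : ℝ) ^ j0 < l := lt_of_le_of_lt hj hyl
      exact_mod_cast h4.le
    · left
      rw [mem_Icc]
      exact ⟨h1, Nat.le_floor (not_le.1 h).le⟩
  have h2 := (card_le_card h1).trans (card_union_le _ _)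
  rw [Nat.card_Icc, Nat.add_sub_cancel] at h2
  have h3 : (⌊√(x : ℝ)⌋₊ : ℝ) ≤ √(x : ℝ) := Nat.floor_le (by positivity)
  have h4 : ((BC y x n).card : ℝ) ≤ (⌊√(x : ℝ)⌋₊ : ℝ) +
      (((W2 x).filter (fun p => Bd one' j0 p n)).card : ℝ) := by exact_mod_cast h2
  linarith

open Classical in
/-- **the primes `l > (log N) ^ (1 + κ)`** -/
theorem rc (θ η κ C1 C2 : ℝ) (hθ : 0 < θ) (hη : 0 < η) (hκ : 0 < κ) (hκ1 : κ ≤ 1)
    (hC1 : 0 < C1) (hC12 : C1 ≤ C2) :
    ∀ᶠ N : ℕ in atTop, ∀ x : ℕ, (N : ℝ) ^ C1 ≤ x → (x : ℝ) ≤ (N : ℝ) ^ C2 →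
      (((ZN N).filter (fun n => η * (x / Real.log x) <
        ((BC ((Real.log N) ^ (1 + κ)) x n).card : ℝ))).card : ℝ) ≤ (N : ℝ) ^ θ := by
  have hC2 : 0 < C2 := by linarith
  have hl2 : 0 < Real.log 2 := Real.log_pos (by norm_num)
  obtain ⟨k, hk⟩ : ∃ k : ℕ, (C2 + 2) / θ ≤ k := exists_nat_ge _
  have hkθ : C2 + 2 ≤ θ * k := by
    rw [div_le_iff₀ hθ] at hk
    linarith
  set a : ℝ := κ / 4 with ha
  have ha0 : 0 < a := by positivity
  obtain ⟨Cm, hCm, hmaster⟩ := master a ha0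
  obtain ⟨R, hR1, hbt⟩ := bt_one
  obtain ⟨Ce, hCe, hexp⟩ := exp_dec a ha0 (4 * k + 3)
  obtain ⟨NE, hNE⟩ := Eqp_bound k 1 one_pos
  have hR0 : 0 ≤ R := by linarith
  set C1' : ℝ := 2 * (k + 1) / C1 with hC1'
  have hC1'0 : 0 ≤ C1' := by positivity
  set R' : ℝ := C2 * C1' * Ce * 2 with hR'
  have hR'0 : 0 ≤ R' := by positivity
  set cc : ℝ := 1 / (8 * Real.log 2) with hcc
  have hcc0 : 0 < cc := by positivity
  -- eventual facts
  have e1 := ev_pow 2 (C2 / Real.log 2) (4 * k) 1 one_pos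
  have e2 := log_tend.eventually_ge_atTop (max 2 (max (8 * Real.log 2 / C1) (8 / C1)))
  have e3 : ∀ᶠ N : ℕ in atTop, 1 / (cc * Real.log 2) ≤ (2 : ℝ) ^ (a * (cc * (C1 * Real.log N))) := by
    have h1 : Tendsto (fun N : ℕ => (2 : ℝ) ^ (a * (cc * (C1 * Real.log N)))) atTop atTop := by
      have h2 : Tendsto (fun t : ℝ => (2 : ℝ) ^ t) atTop atTop :=
        tendsto_rpow_atTop_of_base_gt_one 2 (by norm_num)
      refine h2.comp ?_
      have h3 : Tendsto (fun N : ℕ => (a * cc * C1) * Real.log (N : ℝ)) atTop atTop :=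
        log_tend.const_mul_atTop (by positivity)
      refine h3.congr fun N => by ring
    exact h1.eventually_ge_atTop _
  have e4 : ∀ᶠ N : ℕ in atTop, (4 : ℝ) ≤ (N : ℝ) ^ C1 :=
    ((tendsto_rpow_atTop hC1).comp tendsto_natCast_atTop_atTop).eventually_ge_atTop _
  have e5 : ∀ᶠ N : ℕ in atTop, Cm * (R + R') * (4 / η) + 1 ≤
      (1 + κ) * (Real.log (Real.log N) / Real.log 2) := by
    have h1 : Tendsto (fun N : ℕ => (1 + κ) * (Real.log (Real.log (N : ℝ)) / Real.log 2)) atTop atTop :=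
      ((Real.tendsto_log_atTop.comp log_tend).atTop_div_const hl2).const_mul_atTop (by linarith)
    exact h1.eventually_ge_atTop _
  have e6 : ∀ᶠ N : ℕ in atTop, Cm * R / cc ^ 3 * (4 / η) + 1 ≤ C1 * Real.log N := by
    have h1 : Tendsto (fun N : ℕ => C1 * Real.log (N : ℝ)) atTop atTop :=
      log_tend.const_mul_atTop hC1
    exact h1.eventually_ge_atTop _
  have e7 : ∀ᶠ x : ℕ in atTop, Real.log x ≤ η / 2 * √(x : ℝ) := by
    have h1 := (isLittleO_log_rpow_atTop (show (0 : ℝ) < 1 / 2 by norm_num)).bound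
      (show (0 : ℝ) < η / 2 by positivity)
    have h2 := tendsto_natCast_atTop_atTop.eventually h1
    filter_upwards [h2, eventually_ge_atTop 1] with x hx hx1
    rw [Real.norm_of_nonneg (Real.log_nonneg (by exact_mod_cast hx1)),
      Real.norm_of_nonneg (by positivity), ← Real.sqrt_eq_rpow] at hx
    exact hx
  have e7' := ev_x _ C1 hC1 e7
  filter_upwards [e1, e2, e3, e4, e5, e6, e7', eventually_ge_atTop (max NE 2)] with
    N f1 f2 f3 f4 f5 f6 f7 hN x hx1 hx2
  have hNNE : NE ≤ N := (le_max_left _ _).trans hN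
  have hN2 : 2 ≤ N := (le_max_right _ _).trans hN
  have hNr : (2 : ℝ) ≤ N := by exact_mod_cast hN2
  have hN0 : (0 : ℝ) < N := by linarith
  set L := Real.log (N : ℝ) with hL
  have hL2 : 2 ≤ L := (le_max_left _ _).trans f2
  have hL1 : 1 ≤ L := by linarith
  have hL0 : 0 < L := by linarith
  have hL8 : 8 * Real.log 2 / C1 ≤ L := (le_max_left _ _).trans ((le_max_right _ _).trans f2)
  have hL8' : 8 / C1 ≤ L := (le_max_right _ _).trans ((le_max_right _ _).trans f2)
  have hx4 : (4 : ℝ) ≤ x := f4.trans hx1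
  have hx0 : (0 : ℝ) < x := by linarith
  have hx4' : 4 ≤ x := by exact_mod_cast hx4
  set l := Real.log (x : ℝ) with hl
  have hlC1 : C1 * L ≤ l := by
    rw [hl, hL, ← Real.log_rpow hN0]
    exact Real.log_le_log (by positivity) hx1
  have hlC2 : l ≤ C2 * L := by
    rw [hl, hL, ← Real.log_rpow hN0]
    exact Real.log_le_log hx0 hx2
  have hl0 : 0 < l := lt_of_lt_of_le (by positivity) hlC1
  by_contra hcon
  push Not at hcon
  set E := (ZN N).filter (fun n => η * (x / l) < ((BC (L ^ (1 + κ)) x n).card : ℝ)) with hE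
  have hEne : E.Nonempty := by
    rw [nonempty_iff_ne_empty]
    intro h
    rw [h, card_empty, Nat.cast_zero] at hcon
    have : (0 : ℝ) < (N : ℝ) ^ θ := by positivity
    linarith
  have hEc : (0 : ℝ) < E.card := by exact_mod_cast hEne.card_pos
  have hEm : ∀ n ∈ E, n ≠ 0 ∧ n.natAbs ≤ N := fun n hn => mem_ZN.1 (mem_filter.1 hn).1
  have hsq0 : 0 < √(x : ℝ) := Real.sqrt_pos.2 hx0
  have hsq2 : √(x : ℝ) * √(x : ℝ) = x := Real.mul_self_sqrt hx0.le
  have hsq : (2 : ℝ) ≤ √(x : ℝ) := by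
    rw [Real.le_sqrt (by norm_num) hx0.le]
    linarith
  have hly : Real.log (√(x : ℝ)) = l / 2 := Real.log_sqrt hx0.le
  have hW : ∀ p ∈ W2 x, p.Prime ∧ √(x : ℝ) ≤ p ∧ (p : ℝ) ≤ x := fun p hp => by
    obtain ⟨h1, h2, h3⟩ := mem_W2.1 hp
    exact ⟨h1, h2, by exact_mod_cast h3⟩
  set j0 : ℕ := ⌊(1 + κ) * (Real.log L / Real.log 2)⌋₊ with hj0
  have hj0nn : 0 ≤ (1 + κ) * (Real.log L / Real.log 2) := by
    have : 0 ≤ Real.log L := Real.log_nonneg hL1
    positivity
  have hj0a : (j0 : ℝ) ≤ (1 + κ) * (Real.log L / Real.log 2) := Nat.floor_le hj0nn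
  have hj0b : (1 + κ) * (Real.log L / Real.log 2) < j0 + 1 := Nat.lt_floor_add_one _
  have h2j0 : (2 : ℝ) ^ j0 ≤ L ^ (1 + κ) := by
    rw [← Real.rpow_natCast, Real.rpow_def_of_pos (by norm_num : (0 : ℝ) < 2),
      Real.rpow_def_of_pos hL0, Real.exp_le_exp]
    calc Real.log 2 * (j0 : ℝ) ≤ Real.log 2 * ((1 + κ) * (Real.log L / Real.log 2)) :=
          mul_le_mul_of_nonneg_left hj0a hl2.le
      _ = Real.log L * (1 + κ) := by field_simp
  set j1 : ℕ := ⌊2 * cc * l⌋₊ with hj1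
  set j2 : ℕ := Nat.log 2 x + 1 with hj2
  have hl8 : 8 * Real.log 2 ≤ l := by
    rw [div_le_iff₀ hC1] at hL8
    linarith
  have h2cc : 2 ≤ 2 * cc * l := by
    have h1 : 2 * cc * (8 * Real.log 2) = 2 := by
      rw [hcc]
      field_simp
    calc (2 : ℝ) = 2 * cc * (8 * Real.log 2) := h1.symm
      _ ≤ 2 * cc * l := mul_le_mul_of_nonneg_left hl8 (by positivity)
  have hj1r : (j1 : ℝ) ≤ 2 * cc * l := Nat.floor_le (by positivity)
  have hj1l : cc * l ≤ j1 := by
    have := Nat.lt_floor_add_one (2 * cc * l)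
    rw [← hj1] at this
    linarith
  have hj11 : 1 ≤ j1 := by
    have : (0 : ℝ) < j1 := by nlinarith
    exact_mod_cast this
  have hj2r : (j2 : ℝ) ≤ C2 / Real.log 2 * L + 1 := by
    rw [hj2]
    push_cast
    apply add_le_add_left
    have h1 : 2 ^ Nat.log 2 x ≤ x := Nat.pow_log_le_self 2 (by omega)
    have h2 : (2 : ℝ) ^ Nat.log 2 x ≤ x := by exact_mod_cast h1
    have h4 := Real.log_le_log (by positivity) h2
    rw [Real.log_pow, ← hl] at h4
    rw [div_mul_eq_mul_div, le_div_iff₀ hl2]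
    linarith
  have hplt : ∀ p ∈ W2 x, p.Prime ∧ p < 2 ^ j2 := by
    intro p hp
    obtain ⟨h1, h2, h3⟩ := mem_W2.1 hp
    refine ⟨h1, ?_⟩
    have h5 : x < 2 ^ (Nat.log 2 x + 1) := Nat.lt_pow_succ_log_self (by norm_num) _
    rw [hj2]
    omega
  have hm := hmaster one' k N E hEne (fun n hn => (hEm n hn).2) (by omega) (W2 x)
    (fun _ => l / x) (√(x : ℝ)) x C1' l R R' (√(x : ℝ)) j0 j1 j2 (by linarith) hW
    (fun p hp => ⟨by positivity, div_le_div_of_nonneg_left hl0.le (by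
      exact_mod_cast (hW p hp).1.pos) (hW p hp).2.2⟩) hl0.le (by linarith) hR0 hR'0
    ?_ ?_ ?_ hj11 ?_ ?_ ?_
  · -- conclusion
    have hlt := exc_abs one' j0 j2 E hEne (W2 x) (fun _ => l / x) (fun p _ => by positivity)
      hplt (η / 2) (fun n hn => by
        have h1 := (mem_filter.1 hn).2
        have h2 := BC_le j0 _ h2j0 x n
        rw [sum_const, nsmul_eq_mul]
        have h3 := f7 x hx1
        have h4 : √(x : ℝ) ≤ η / 2 * (x / l) := by
          rw [mul_div_assoc', le_div_iff₀ hl0]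
          calc √(x : ℝ) * l ≤ √(x : ℝ) * (η / 2 * √(x : ℝ)) :=
                mul_le_mul_of_nonneg_left h3 hsq0.le
            _ = η / 2 * (√(x : ℝ) * √(x : ℝ)) := by ring
            _ = η / 2 * x := by rw [hsq2]
        have h5 : η / 2 * (x / l) < ((open Classical in (W2 x).filter
            (fun p => Bd one' j0 p n)).card : ℝ) := by linarith
        have h6 : 0 < l / (x : ℝ) := by positivity
        have h7 := mul_lt_mul_of_pos_right h5 h6
        have h8 : η / 2 * ((x : ℝ) / l) * (l / x) = η / 2 := by field_simp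
        rw [h8] at h7
        exact h7) _ hm
    have h1 : Cm * ((R + R') / ((j0 : ℝ) + 1) ^ 2 + R * Real.log (x : ℝ) / (j1 : ℝ) ^ 3) ≤ η / 2 := by
      have h2 : Cm * ((R + R') / ((j0 : ℝ) + 1) ^ 2) ≤ η / 4 := by
        have h3 : Cm * (R + R') * (4 / η) + 1 ≤ (j0 : ℝ) + 1 := f5.trans hj0b.le
        have h4 : (1 : ℝ) ≤ (j0 : ℝ) + 1 := by
          have : (0 : ℝ) ≤ j0 := Nat.cast_nonneg _
          linarith
        rw [mul_div_assoc', div_le_iff₀ (by positivity)]
        have h5 : Cm * (R + R') ≤ η / 4 * ((j0 : ℝ) + 1) := by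
          have h6 : Cm * (R + R') = η / 4 * (Cm * (R + R') * (4 / η)) := by field_simp
          rw [h6]
          apply mul_le_mul_of_nonneg_left _ (by positivity)
          linarith
        refine h5.trans ?_
        apply mul_le_mul_of_nonneg_left _ (by positivity)
        nlinarith
      have h3 : Cm * (R * Real.log (x : ℝ) / (j1 : ℝ) ^ 3) ≤ η / 4 := by
        rw [← hl]
        have h4 : (cc * l) ^ 3 ≤ (j1 : ℝ) ^ 3 := pow_le_pow_left₀ (by positivity) hj1l 3
        have h5 : Cm * R / cc ^ 3 * (4 / η) + 1 ≤ l := f6.trans hlC1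
        have h6 : (1 : ℝ) ≤ l := by
          have : 0 ≤ Cm * R / cc ^ 3 * (4 / η) := by positivity
          linarith
        have h7 : Cm * R / cc ^ 3 ≤ η / 4 * l := by
          have h8 : Cm * R / cc ^ 3 = η / 4 * (Cm * R / cc ^ 3 * (4 / η)) := by field_simp
          rw [h8]
          apply mul_le_mul_of_nonneg_left _ (by positivity)
          linarith
        calc Cm * (R * l / (j1 : ℝ) ^ 3) ≤ Cm * (R * l / (cc * l) ^ 3) := by
              apply mul_le_mul_of_nonneg_left _ (by linarith)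
              exact div_le_div_of_nonneg_left (by positivity) (by positivity) h4
          _ = (Cm * R / cc ^ 3) / l ^ 2 := by field_simp
          _ ≤ (η / 4 * l) / l ^ 2 := div_le_div_of_nonneg_right h7 (by positivity)
          _ = η / 4 / l := by field_simp
          _ ≤ η / 4 := div_le_self (by positivity) h6
      rw [mul_add]
      linarith
    linarith
  · -- `C1'`
    rw [hly, hC1', div_le_div_iff₀ (by positivity) hC1]
    have h1 : Real.log (2 * N ^ k : ℝ) ≤ (k + 1) * L := by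
      rw [Real.log_mul (by norm_num) (by positivity), Real.log_pow]
      have h2 : Real.log 2 ≤ L := Real.log_le_log (by norm_num) hNr
      linarith
    calc Real.log (2 * N ^ k : ℝ) * C1 ≤ (k + 1) * L * C1 := mul_le_mul_of_nonneg_right h1 hC1.le
      _ = 2 * (k + 1) * ((C1 * L) / 2) := by ring
      _ ≤ 2 * (k + 1) * (l / 2) := by
          apply mul_le_mul_of_nonneg_left _ (by positivity)
          linarith
  · -- Brun-Titchmarsh
    intro d hd hdD
    have hd2 : d ^ 2 ≤ x := by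
      have h2 : (d : ℝ) ^ 2 ≤ (√(x : ℝ)) ^ 2 := pow_le_pow_left₀ (by positivity) hdD 2
      rw [Real.sq_sqrt hx0.le] at h2
      exact_mod_cast h2
    have h1 := hbt x d hd hd2 (by omega)
    rw [sum_const, nsmul_eq_mul]
    have h2 : (((W2 x).filter (fun p => d ∣ p - 1)).card : ℝ) ≤
        (((Icc 1 x).filter (fun p : ℕ => p.Prime ∧ d ∣ p - 1)).card : ℝ) := by
      have : ((W2 x).filter (fun p => d ∣ p - 1)).card ≤
          ((Icc 1 x).filter (fun p : ℕ => p.Prime ∧ d ∣ p - 1)).card := by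
        apply card_le_card
        intro p hp
        rw [mem_filter, mem_W2] at hp
        rw [mem_filter, mem_Icc]
        exact ⟨⟨hp.1.1.one_le, hp.1.2.2⟩, hp.1.1, hp.2⟩
      exact_mod_cast this
    have hphi : (0 : ℝ) < Nat.totient d := by exact_mod_cast Nat.totient_pos.2 hd
    calc (((W2 x).filter (fun p => d ∣ p - 1)).card : ℝ) * (l / x) ≤
          (R * (x / (Nat.totient d * l))) * (l / x) :=
          mul_le_mul_of_nonneg_right (h2.trans h1) (by positivity)
      _ = R / Nat.totient d := by field_simp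
  · -- `4 ^ j1 ≤ D0`
    have h1 : (4 : ℝ) ^ j1 = (2 : ℝ) ^ ((2 * j1 : ℕ) : ℝ) := by
      rw [Real.rpow_natCast, pow_mul]
      norm_num
    rw [h1, Real.sqrt_eq_rpow, Real.rpow_def_of_pos (by norm_num), Real.rpow_def_of_pos hx0]
    apply Real.exp_le_exp.2
    push_cast
    calc Real.log 2 * (2 * (j1 : ℝ)) ≤ Real.log 2 * (2 * (2 * cc * l)) := by
          apply mul_le_mul_of_nonneg_left _ hl2.le
          linarith
      _ = Real.log x * (1 / 2) := by
          rw [hcc, ← hl]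
          field_simp
          norm_num
  · -- `log P`
    have h1 : (2 : ℝ) ^ (a * (cc * (C1 * L))) ≤ (2 : ℝ) ^ (a * (j1 : ℝ)) := by
      apply Real.rpow_le_rpow_of_exponent_le (by norm_num)
      apply mul_le_mul_of_nonneg_left _ ha0.le
      refine le_trans ?_ hj1l
      exact mul_le_mul_of_nonneg_left hlC1 hcc0.le
    have h2 : 1 / (cc * Real.log 2) ≤ (2 : ℝ) ^ (a * (j1 : ℝ)) := f3.trans h1
    rw [← hl]
    calc l = 1 / (cc * Real.log 2) * (cc * l * Real.log 2) := by field_simp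
      _ ≤ (2 : ℝ) ^ (a * (j1 : ℝ)) * (j1 * Real.log 2) := by
          apply mul_le_mul h2 _ (by positivity) (by positivity)
          exact mul_le_mul_of_nonneg_right hj1l hl2.le
  · -- the decay
    intro j hj
    have hj00 : j0 ≤ j := (mem_Ico.1 hj).1
    have hjr : (0 : ℝ) < (j : ℝ) + 1 := by positivity
    rw [le_div_iff₀ (by positivity), hR']
    have h1 := hexp j
    have ha1 : 0 ≤ 1 - 2 * a := by rw [ha]; linarith
    have h2 : (2 : ℝ) ^ j = (2 : ℝ) ^ (a * (j : ℝ)) * (2 : ℝ) ^ (a * (j : ℝ)) *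
        (2 : ℝ) ^ ((1 - 2 * a) * (j : ℝ)) := by
      rw [← Real.rpow_add (by norm_num), ← Real.rpow_add (by norm_num), ← Real.rpow_natCast]
      congr 1
      ring
    have h3 : (0 : ℝ) < (2 : ℝ) ^ (a * (j : ℝ)) := by positivity
    have h4 : (0 : ℝ) < (2 : ℝ) ^ ((1 - 2 * a) * (j : ℝ)) := by positivity
    have h5 : L / 2 ≤ (2 : ℝ) ^ ((1 - 2 * a) * (j : ℝ)) := by
      have h6 : (2 : ℝ) ^ ((1 - 2 * a) * ((1 + κ) * (Real.log L / Real.log 2) - 1)) ≤
          (2 : ℝ) ^ ((1 - 2 * a) * (j : ℝ)) := by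
        apply Real.rpow_le_rpow_of_exponent_le (by norm_num)
        apply mul_le_mul_of_nonneg_left _ ha1
        have h7 : (j0 : ℝ) ≤ j := by exact_mod_cast hj00
        linarith
      refine le_trans ?_ h6
      have h7 : L / 2 = Real.exp (Real.log L - Real.log 2) := by
        rw [Real.exp_sub, Real.exp_log hL0, Real.exp_log (by norm_num)]
      rw [h7, Real.rpow_def_of_pos (by norm_num), Real.exp_le_exp]
      have h8 : 0 ≤ Real.log L := Real.log_nonneg hL1
      have h9 : Real.log 2 * ((1 - 2 * a) * ((1 + κ) * (Real.log L / Real.log 2) - 1)) =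
          (1 - 2 * a) * (1 + κ) * Real.log L - (1 - 2 * a) * Real.log 2 := by
        field_simp
      rw [h9]
      have h10 : 1 ≤ (1 - 2 * a) * (1 + κ) := by
        rw [ha]
        nlinarith
      have h11 : (1 - 2 * a) * Real.log 2 ≤ Real.log 2 := by nlinarith
      nlinarith
    calc l * C1' * ((2 : ℝ) ^ (a * (j : ℝ)) * ((j : ℝ) + 1) ^ (4 * k) / 2 ^ j) * ((j : ℝ) + 1) ^ 3
        = l * C1' * (((j : ℝ) + 1) ^ (4 * k + 3) / (2 : ℝ) ^ (a * (j : ℝ))) /
            (2 : ℝ) ^ ((1 - 2 * a) * (j : ℝ)) := by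
          rw [h2, pow_add]
          field_simp
      _ ≤ l * C1' * Ce / (2 : ℝ) ^ ((1 - 2 * a) * (j : ℝ)) := by
          apply div_le_div_of_nonneg_right _ h4.le
          apply mul_le_mul_of_nonneg_left _ (by positivity)
          rw [div_le_iff₀ h3]
          exact h1
      _ ≤ l * C1' * Ce / (L / 2) :=
          div_le_div_of_nonneg_left (by positivity) (by positivity) h5
      _ ≤ (C2 * L) * C1' * Ce / (L / 2) := by
          apply div_le_div_of_nonneg_right _ (by positivity)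
          apply mul_le_mul_of_nonneg_right _ (by linarith)
          exact mul_le_mul_of_nonneg_right hlC2 hC1'0
      _ = C2 * C1' * Ce * 2 := by field_simp
  · -- few equal products
    have h1 := hNE N hNNE E hEm
    rw [Real.rpow_one] at h1
    have h2 : 2 * (j2 : ℝ) ^ (4 * k) ≤ N := by
      calc 2 * (j2 : ℝ) ^ (4 * k) ≤ 2 * (C2 / Real.log 2 * L + 1) ^ (4 * k) := by
            apply mul_le_mul_of_nonneg_left _ (by norm_num)
            exact pow_le_pow_left₀ (by positivity) hj2r _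
        _ ≤ (N : ℝ) ^ (1 : ℝ) := f1
        _ = N := Real.rpow_one _
    have h3 : (N : ℝ) * N * x ≤ (E.card : ℝ) ^ k := by
      calc (N : ℝ) * N * x ≤ (N : ℝ) * N * (N : ℝ) ^ C2 :=
            mul_le_mul_of_nonneg_left hx2 (by positivity)
        _ = (N : ℝ) ^ (C2 + 2) := by
            rw [Real.rpow_add hN0, Real.rpow_two]
            ring
        _ ≤ (N : ℝ) ^ (θ * k) := Real.rpow_le_rpow_of_exponent_le (by linarith) hkθ
        _ = ((N : ℝ) ^ θ) ^ k := by rw [Real.rpow_mul hN0.le, Real.rpow_natCast]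
        _ ≤ _ := pow_le_pow_left₀ (by positivity) hcon.le k
    calc ((Eqp k E).card : ℝ) * (2 * (j2 : ℝ) ^ (4 * k) * x)
        ≤ ((E.card : ℝ) ^ k * N) * (N * x) := by
          apply mul_le_mul h1 _ (by positivity) (by positivity)
          exact mul_le_mul_of_nonneg_right h2 hx0.le
      _ = (E.card : ℝ) ^ k * (N * N * x) := by ring
      _ ≤ (E.card : ℝ) ^ k * (E.card : ℝ) ^ k := mul_le_mul_of_nonneg_left h3 (by positivity)
      _ = _ := by rw [← pow_add, two_mul]

end Pool.Agent.KS6_18
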