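import Mathlib
import Pool.Agent.KS6_18.RngB
import Pool.Agent.KS6_18.RngC
import Pool.Agent.KS6_18.T0

set_option autoImplicit false

/-! All primes `l > z`, all `x`. -/

namespace Pool.Agent.KS6_18

open Finset Filter Topology
open Pool.Agent.H730R2.AA (dens)
open Pool.Agent.H730R2.AA.MTLib (pi_lower)

open Classical in
/-- the primes `p ≤ x` such that the index of `n` has a prime factor `> z` -/
noncomputable def LB (z x : ℕ) (n : ℤ) : Finset ℕ :=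
  (Icc 1 x).filter (fun p => p.Prime ∧ ¬ (p : ℤ) ∣ n ∧ ∃ l : ℕ, l.Prime ∧ z < l ∧
    l ∣ p - 1 ∧ (n : ZMod p) ^ ((p - 1) / l) = 1)

lemma LB_le (z x : ℕ) (n : ℤ) (y y' : ℝ) :
    ((LB z x n).card : ℝ) ≤ (BA z y x n).card + (BM y y' x).card + (BC y' x n).card := by
  classical
  have h1 : LB z x n ⊆ (BA z y x n ∪ BM y y' x) ∪ BC y' x n := by
    intro p hp
    unfold LB at hp
    rw [mem_filter, mem_Icc] at hp
    obtain ⟨⟨h1, h2⟩, h3, h4, l, hl, hzl, hlp, hln⟩ := hp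
    rw [mem_union, mem_union]
    by_cases ha : (l : ℝ) ≤ y
    · left; left
      unfold BA
      rw [mem_filter, mem_Icc]
      exact ⟨⟨h1, h2⟩, h3, h4, l, hl, hzl, ha, hlp, hln⟩
    · by_cases hb : (l : ℝ) ≤ y'
      · left; right
        unfold BM
        rw [mem_filter, mem_Icc]
        exact ⟨⟨h1, h2⟩, h3, l, hl, not_le.1 ha, hb, hlp⟩
      · right
        unfold BC
        rw [mem_filter, mem_Icc]
        exact ⟨⟨h1, h2⟩, h3, l, hl, not_le.1 hb, hlp, hln⟩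
  have h2 := (card_le_card h1).trans ((card_union_le _ _).trans
    (Nat.add_le_add_right (card_union_le _ _) _))
  exact_mod_cast h2

open Classical in
/-- **one `x`** -/
theorem big_x (θ η : ℝ) (hθ : 0 < θ) (hη : 0 < η) : ∃ z₀ : ℕ, 2 ≤ z₀ ∧ ∀ z : ℕ, z₀ ≤ z →
    ∀ C1 C2 : ℝ, 0 < C1 → C1 ≤ C2 → ∀ᶠ N : ℕ in atTop, ∀ x : ℕ, (N : ℝ) ^ C1 ≤ x →
      (x : ℝ) ≤ (N : ℝ) ^ C2 →
      (((ZN N).filter (fun n => η * (x / Real.log x) < ((LB z x n).card : ℝ))).card : ℝ) ≤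
        (N : ℝ) ^ θ := by
  obtain ⟨C, hC, hB⟩ := rb
  obtain ⟨κ, hκ⟩ : ∃ κ : ℝ, κ = min (1 / 2) (η / (3 * C)) := ⟨_, rfl⟩
  have hκ0 : 0 < κ := by rw [hκ]; positivity
  have hκ1 : κ ≤ 1 / 2 := by rw [hκ]; exact min_le_left _ _
  have hκC : C * κ ≤ η / 3 := by
    have h1 : κ ≤ η / (3 * C) := by rw [hκ]; exact min_le_right _ _
    calc C * κ ≤ C * (η / (3 * C)) := mul_le_mul_of_nonneg_left h1 (by linarith)
      _ = η / 3 := by field_simp
  obtain ⟨z₀, hz₀, hA⟩ := ra_all (θ / 2) (η / 3) κ (by positivity) (by positivity) hκ0 (by linarith)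
  refine ⟨z₀, hz₀, fun z hz C1 C2 hC1 hC12 => ?_⟩
  have hC2 : 0 < C2 := by linarith
  have e1 := hA z hz C1 C2 hC1 hC2
  have e2 := hB κ hκ0 hκ1 C1 hC1
  have e3 := rc (θ / 2) (η / 3) κ C1 C2 (by positivity) (by positivity) hκ0 (by linarith) hC1 hC12
  have e4 : ∀ᶠ N : ℕ in atTop, (2 : ℝ) ≤ (N : ℝ) ^ (θ / 2) :=
    ((tendsto_rpow_atTop (by positivity)).comp tendsto_natCast_atTop_atTop).eventually_ge_atTop _
  have e5 := x_log_large C1 C2 0 hC1 hC2 le_rfl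
  filter_upwards [e1, e2, e3, e4, e5, eventually_ge_atTop 1] with N g1 g2 g3 g4 g5 hN1 x hx1 hx2
  have hN0 : (0 : ℝ) < N := by exact_mod_cast hN1
  have hX : 0 ≤ (x : ℝ) / Real.log x := g5 x hx1 hx2
  have h1 := g1 x hx1 hx2
  have h3 := g3 x hx1 hx2
  have h2 := g2 x hx1
  have hsub : (ZN N).filter (fun n => η * (x / Real.log x) < ((LB z x n).card : ℝ)) ⊆
      (ZN N).filter (fun n => η / 3 * (x / Real.log x) <
        ((BA z ((Real.log N) ^ (1 - κ)) x n).card : ℝ)) ∪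
      (ZN N).filter (fun n => η / 3 * (x / Real.log x) <
        ((BC ((Real.log N) ^ (1 + κ)) x n).card : ℝ)) := by
    intro n hn
    rw [mem_filter] at hn
    rw [mem_union, mem_filter, mem_filter]
    by_contra hcon
    push Not at hcon
    have h4 := hcon.1 hn.1
    have h5 := hcon.2 hn.1
    have h6 := LB_le z x n ((Real.log N) ^ (1 - κ)) ((Real.log N) ^ (1 + κ))
    have h7 : C * κ * (x / Real.log x) ≤ η / 3 * (x / Real.log x) :=
      mul_le_mul_of_nonneg_right hκC hX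
    have h8 := hn.2
    linarith
  have h4 : (((ZN N).filter (fun n => η * (x / Real.log x) < ((LB z x n).card : ℝ))).card : ℝ) ≤
      (((ZN N).filter (fun n => η / 3 * (x / Real.log x) <
        ((BA z ((Real.log N) ^ (1 - κ)) x n).card : ℝ))).card : ℝ) +
      (((ZN N).filter (fun n => η / 3 * (x / Real.log x) <
        ((BC ((Real.log N) ^ (1 + κ)) x n).card : ℝ))).card : ℝ) := by
    exact_mod_cast (card_le_card hsub).trans (card_union_le _ _)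
  have h5 : (N : ℝ) ^ θ = (N : ℝ) ^ (θ / 2) * (N : ℝ) ^ (θ / 2) := by
    rw [← Real.rpow_add hN0]
    congr 1
    ring
  rw [h5]
  have h6 : (0 : ℝ) < (N : ℝ) ^ (θ / 2) := by positivity
  nlinarith

lemma LB_diff (z : ℕ) (n : ℤ) {x x' : ℕ} (h : x' ≤ x) :
    ((LB z x n).card : ℝ) ≤ (LB z x' n).card +
      ((Nat.primeCounting x : ℝ) - Nat.primeCounting x') := by
  classical
  rw [← pi_diff h]
  have h1 : LB z x n ⊆ LB z x' n ∪ (Ioc x' x).filter Nat.Prime := by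
    intro p hp
    unfold LB at hp
    rw [mem_filter, mem_Icc] at hp
    obtain ⟨⟨h1, h2⟩, h3⟩ := hp
    rw [mem_union]
    by_cases hx : p ≤ x'
    · left
      unfold LB
      rw [mem_filter, mem_Icc]
      exact ⟨⟨h1, hx⟩, h3⟩
    · right
      rw [mem_filter, mem_Ioc]
      exact ⟨⟨by omega, h2⟩, h3.1⟩
  exact_mod_cast (card_le_card h1).trans (card_union_le _ _)

/-- **all `x`** -/
theorem big_all (θ η : ℝ) (hθ : 0 < θ) (hη : 0 < η) : ∃ z₀ : ℕ, 2 ≤ z₀ ∧ ∀ z : ℕ, z₀ ≤ z →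
    ∀ C1 C2 : ℝ, 0 < C1 → C1 ≤ C2 → ∀ᶠ N : ℕ in atTop, ∃ E : Finset ℤ,
      (E.card : ℝ) ≤ (N : ℝ) ^ θ ∧ ∀ n : ℤ, n ≠ 0 → n.natAbs ≤ N → n ∉ E →
        ∀ x : ℕ, (N : ℝ) ^ C1 ≤ x → (x : ℝ) ≤ (N : ℝ) ^ C2 →
          ((LB z x n).card : ℝ) ≤ η * (x / Real.log x) := by
  classical
  obtain ⟨κ, hκ0, hκ1, x₀, hshort⟩ := pi_short (η / 4) (by positivity)
  obtain ⟨z₀, hz₀, hbig⟩ := big_x (θ / 2) (η / 4) (by positivity) (by positivity)
  refine ⟨z₀, hz₀, fun z hz C1 C2 hC1 hC12 => ?_⟩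
  have hC2 : 0 < C2 := by linarith
  have hlog : 0 < Real.log (1 + κ) := Real.log_pos (by linarith)
  have e2 := hbig z hz (C1 / 2) C2 (by positivity) (by linarith)
  have e3 := Gr_near κ hκ0 hκ1 (C1 / 2) C1 C2 (by positivity) (by linarith)
  have e4 := ev_pow 1 (C2 / Real.log (1 + κ)) 1 (θ / 2) (by positivity)
  have e5 : ∀ᶠ N : ℕ in atTop, ((max x₀ 4 : ℕ) : ℝ) ≤ (N : ℝ) ^ (C1 / 2) :=
    ((tendsto_rpow_atTop (by positivity)).comp tendsto_natCast_atTop_atTop).eventually_ge_atTop _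
  filter_upwards [e2, e3, e4, e5, eventually_ge_atTop 1] with N g2 g3 g4 g5 hN1
  have hN0 : (0 : ℝ) < N := by exact_mod_cast hN1
  have hmemG : ∀ x ∈ Gr κ N (C1 / 2) C2, (N : ℝ) ^ (C1 / 2) ≤ x ∧ (x : ℝ) ≤ (N : ℝ) ^ C2 := by
    intro x hx
    unfold Gr at hx
    exact (mem_filter.1 hx).2
  have hcardG : ((Gr κ N (C1 / 2) C2).card : ℝ) ≤ (N : ℝ) ^ (θ / 2) := by
    refine (Gr_card κ hκ0 N (C1 / 2) C2 hN1 hC2.le).trans ?_
    rw [one_mul, pow_one] at g4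
    refine le_trans (le_of_eq ?_) g4
    ring
  refine ⟨(Gr κ N (C1 / 2) C2).biUnion (fun x => (ZN N).filter (fun n => η / 4 * (x / Real.log x) <
    ((LB z x n).card : ℝ))), ?_, ?_⟩
  · have h3 : ((((Gr κ N (C1 / 2) C2).biUnion (fun x => (ZN N).filter (fun n =>
        η / 4 * (x / Real.log x) < ((LB z x n).card : ℝ)))).card : ℕ) : ℝ) ≤
        ∑ x ∈ Gr κ N (C1 / 2) C2, ((((ZN N).filter (fun n => η / 4 * (x / Real.log x) <
          ((LB z x n).card : ℝ))).card : ℕ) : ℝ) := by exact_mod_cast card_biUnion_le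
    refine h3.trans ?_
    calc _ ≤ ∑ x ∈ Gr κ N (C1 / 2) C2, (N : ℝ) ^ (θ / 2) := by
          apply sum_le_sum
          intro x hx
          exact g2 x (hmemG x hx).1 (hmemG x hx).2
      _ = ((Gr κ N (C1 / 2) C2).card : ℝ) * (N : ℝ) ^ (θ / 2) := by
          rw [sum_const, nsmul_eq_mul]
      _ ≤ (N : ℝ) ^ (θ / 2) * (N : ℝ) ^ (θ / 2) :=
          mul_le_mul_of_nonneg_right hcardG (by positivity)
      _ = (N : ℝ) ^ θ := by
          rw [← Real.rpow_add hN0]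
          congr 1
          ring
  · intro n hn0 hnN hnE x hx1 hx2
    obtain ⟨x', hx'G, hx'x, hx'near⟩ := g3 x hx1 hx2
    have hx'mem := hmemG x' hx'G
    have hx'3 : max x₀ 4 ≤ x' := by exact_mod_cast g5.trans hx'mem.1
    have hx'3' : 4 ≤ x' := (le_max_right _ _).trans hx'3
    have hx'0 : (0 : ℝ) < x' := by exact_mod_cast (by omega : 0 < x')
    have hx0 : (0 : ℝ) < x := by exact_mod_cast (by omega : 0 < x)
    have hlx' : 0 < Real.log x' := Real.log_pos (by exact_mod_cast (by omega : 1 < x'))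
    have hlx : 0 < Real.log x := Real.log_pos (by exact_mod_cast (by omega : 1 < x))
    have q2 : ((LB z x' n).card : ℝ) ≤ η / 4 * (x' / Real.log x') := by
      by_contra hcon
      apply hnE
      rw [mem_biUnion]
      refine ⟨x', hx'G, ?_⟩
      rw [mem_filter, mem_ZN]
      exact ⟨⟨hn0, hnN⟩, not_le.1 hcon⟩
    have q3 := hshort x x' ((le_max_left _ _).trans hx'3) hx'x hx'near
    have q4 := LB_diff z n hx'x
    have q6 : x' / Real.log x' ≤ 1.5 * (x / Real.log x) := by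
      have hll : Real.log x ≤ 1.5 * Real.log x' := by
        have h3 : (x : ℝ) ≤ 2 * x' := by nlinarith
        have h4 : Real.log x ≤ Real.log 2 + Real.log x' := by
          rw [← Real.log_mul (by norm_num) hx'0.ne']
          exact Real.log_le_log hx0 h3
        have h6 : Real.log 4 ≤ Real.log x' := Real.log_le_log (by norm_num) (by exact_mod_cast hx'3')
        have h7 : Real.log 4 = 2 * Real.log 2 := by
          rw [show (4 : ℝ) = 2 ^ 2 by norm_num, Real.log_pow]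
          push_cast
          ring
        linarith
      rw [mul_div_assoc', div_le_div_iff₀ hlx' hlx]
      have h3 : (x' : ℝ) ≤ x := by exact_mod_cast hx'x
      nlinarith
    have hX : 0 < x / Real.log x := by positivity
    have q8 : η / 4 * (x' / Real.log x') ≤ η / 4 * (1.5 * (x / Real.log x)) :=
      mul_le_mul_of_nonneg_left q6 (by positivity)
    have q12 : 0 < η * (x / Real.log x) := by positivity
    linarith

lemma Pp_ge2 (z x : ℕ) (n : ℤ) : ((PZ n x z).card : ℝ) ≤ (Pp n x).card + (LB z x n).card := by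
  classical
  have h1 : PZ n x z ⊆ Pp n x ∪ LB z x n := by
    intro p hp
    have hp' := hp
    unfold PZ at hp'
    rw [mem_filter, mem_UU] at hp'
    obtain ⟨⟨⟨h1, h2, h3⟩, h4⟩, h5, h6⟩ := hp'
    rw [mem_union]
    by_cases hall : ∀ l : ℕ, l.Prime → z < l → l ∣ p - 1 → (n : ZMod p) ^ ((p - 1) / l) ≠ 1
    · left
      unfold Pp
      rw [mem_filter, mem_Icc]
      exact ⟨⟨h1.one_le, h3⟩, h1, h4, prim_of hp hall⟩
    · right
      push Not at hall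
      obtain ⟨l, hl, hzl, hlp, hln⟩ := hall
      unfold LB
      rw [mem_filter, mem_Icc]
      exact ⟨⟨h1.one_le, h3⟩, h1, h4, l, hl, hzl, hlp, hln⟩
  exact_mod_cast (card_le_card h1).trans (card_union_le _ _)

/-- **Artin's density, all `x`.** -/
theorem t5 (θ ε C1 C2 : ℝ) (hθ : 0 < θ) (hε : 0 < ε) (hC1 : 0 < C1) (hC12 : C1 ≤ C2) :
    ∃ z A : ℕ, ∀ B : ℕ, ∀ᶠ N : ℕ in atTop,
      ∃ (E : Finset ℤ) (F : Finset ℕ) (G : Finset ℤ), (E.card : ℝ) ≤ (N : ℝ) ^ θ ∧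
        (F.card : ℝ) ≤ (Real.log N) ^ A ∧ (∀ f ∈ F, (Real.log N) ^ B < f) ∧
        (G.card : ℝ) ≤ (Real.log N) ^ A ∧ (∀ g ∈ G, g ≠ 0) ∧
        ∀ n D m : ℤ, n = D * m ^ 2 → n ≠ 0 → n.natAbs ≤ N → Squarefree D → D % 4 = 1 → D ≠ 1 →
          D.natAbs ∉ F →
          (∀ g ∈ G, ∀ l : ℕ, l.Prime → 3 ≤ l → l ≤ z → ∀ y : ℚ, (n : ℚ) ≠ g * y ^ l) →
          ∀ x : ℕ, (N : ℝ) ^ C1 ≤ x → (x : ℝ) ≤ (N : ℝ) ^ C2 →
            ((Pp n x).card : ℝ) ≤ (dens D + ε) * Nat.primeCounting x ∧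
            (n ∉ E → (dens D - ε) * Nat.primeCounting x ≤ ((Pp n x).card : ℝ)) := by
  have hC2 : 0 < C2 := lt_of_lt_of_le hC1 hC12
  obtain ⟨z₀, hz₀, hall⟩ := pz_all (ε / 40) (by positivity)
  obtain ⟨z₁, hz₁, hbig⟩ := big_all θ (ε / 40) hθ (by positivity)
  obtain ⟨z, hz⟩ : ∃ z : ℕ, z = max z₀ z₁ := ⟨_, rfl⟩
  have hzz₀ : z₀ ≤ z := by rw [hz]; exact le_max_left _ _
  have hzz₁ : z₁ ≤ z := by rw [hz]; exact le_max_right _ _
  obtain ⟨A, hA⟩ := hall z hzz₀ C1 C2 hC1 hC2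
  refine ⟨z, A, fun B => ?_⟩
  have e1 := hA B
  have e2 := hbig z hzz₁ C1 C2 hC1 hC12
  have e3 : ∀ᶠ x : ℕ in atTop, 4 / ε ≤ (Nat.primeCounting x : ℝ) := pi_tend.eventually_ge_atTop _
  have e4 := ev_x _ C1 hC1 e3
  have e5 := ev_x _ C1 hC1 (eventually_ge_atTop 3)
  filter_upwards [e1, e2, e4, e5] with N f1 f2 f3 f5
  obtain ⟨F, G, hF1, hF2, hG1, hG2, hmain⟩ := f1
  obtain ⟨E, hE1, hE2⟩ := f2
  refine ⟨E, F, G, hE1, hF1, hF2, hG1, hG2, ?_⟩
  intro n D m hn hn0 hnN hD hD1 hD2 hDF hnG x hx1 hx2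
  have hx := hmain n D m hn hn0 hnN hD hD1 hD2 hDF hnG x hx1 hx2
  have hpi : ε / 40 * (x / Real.log x) ≤ ε / 4 * Nat.primeCounting x := by
    have h1 := pi_lower x (by have := f5 x hx1; omega)
    have h2 : (x : ℝ) / Real.log x = 10 * (x / (10 * Real.log x)) := by
      rw [mul_div_assoc', mul_div_mul_left _ _ (by norm_num)]
    rw [h2]
    nlinarith
  have h4 := f3 x hx1
  have h10 : (0 : ℝ) < Nat.primeCounting x := lt_of_lt_of_le (by positivity) h4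
  have h11 : 0 < ε * (Nat.primeCounting x : ℝ) := by positivity
  rw [div_le_iff₀ hε] at h4
  refine ⟨?_, fun hnE => ?_⟩
  · have h1 := (abs_le.1 hx).2
    have h2 : ((Pp n x).card : ℝ) ≤ (PZ n x z).card + 1 := by exact_mod_cast Pp_le n x z
    linarith
  · have h1 := (abs_le.1 hx).1
    have h2 := Pp_ge2 z x n
    have h3 := hE2 n hn0 hnN hnE x hx1 hx2
    linarith

lemma CT_ge2 (σ : Sys) (z x : ℕ) (n : ℤ) : ((PG σ n x z).card : ℝ) ≤
    (CT σ n x).card + (LB z x n).card := by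
  classical
  have h1 : PG σ n x z ⊆ CT σ n x ∪ LB z x n := by
    intro p hp
    have hp' := hp
    unfold PG at hp'
    rw [mem_filter, mem_UT] at hp'
    obtain ⟨⟨⟨⟨h2, h3⟩, h1'⟩, h4⟩, h6⟩ := hp'
    have h1 := σ.hT p h1'
    rw [mem_union]
    by_cases hall : ∀ l : ℕ, l.Prime → z < l → l ∣ p - 1 → (n : ZMod p) ^ ((p - 1) / l) ≠ 1
    · left
      unfold CT
      rw [mem_filter, mem_Icc]
      refine ⟨⟨h1.one_le, h3⟩, h1', h4, fun l hl => ?_⟩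
      by_cases hlz : l ≤ z
      · apply h6
        unfold Lz
        exact mem_filter.2 ⟨hl, hlz⟩
      · have h7 := σ.hΛ p h1' l hl
        exact hall l h7.1 (by omega) h7.2
    · right
      push Not at hall
      obtain ⟨l, hl, hzl, hlp, hln⟩ := hall
      unfold LB
      rw [mem_filter, mem_Icc]
      exact ⟨⟨h1.one_le, h3⟩, h1, h4, l, hl, hzl, hlp, hln⟩
  exact_mod_cast (card_le_card h1).trans (card_union_le _ _)

/-- **Arbitrary sets of primes, all `x`.** -/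
theorem gen5 (θ ε C1 C2 : ℝ) (hθ : 0 < θ) (hε : 0 < ε) (hC1 : 0 < C1) (hC12 : C1 ≤ C2) :
    ∃ z A : ℕ, ∀ᶠ N : ℕ in atTop,
      ∃ (E : Finset ℤ), (E.card : ℝ) ≤ (N : ℝ) ^ θ ∧ ∀ σ : Sys, ∃ (G : Finset ℤ),
        (G.card : ℝ) ≤ (Real.log N) ^ A ∧ (∀ g ∈ G, g ≠ 0) ∧
        ∀ n : ℤ, n ≠ 0 → n.natAbs ≤ N →
          (∀ g ∈ G, ∀ l : ℕ, l.Prime → l ≤ z → (∃ p ∈ σ.T, l ∈ σ.Λ p) →
            ∀ y : ℚ, (n : ℚ) ≠ g * y ^ l) →
          ∀ x : ℕ, (N : ℝ) ^ C1 ≤ x → (x : ℝ) ≤ (N : ℝ) ^ C2 →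
            ((CT σ n x).card : ℝ) ≤ Rf σ x + ε * Nat.primeCounting x ∧
            (n ∉ E → Rf σ x - ε * Nat.primeCounting x ≤ ((CT σ n x).card : ℝ)) := by
  have hC2 : 0 < C2 := lt_of_lt_of_le hC1 hC12
  obtain ⟨z₀, hz₀, hall⟩ := pg_all (ε / 40) (by positivity)
  obtain ⟨z₁, hz₁, hbig⟩ := big_all θ (ε / 40) hθ (by positivity)
  obtain ⟨z, hz⟩ : ∃ z : ℕ, z = max z₀ z₁ := ⟨_, rfl⟩
  have hzz₀ : z₀ ≤ z := by rw [hz]; exact le_max_left _ _
  have hzz₁ : z₁ ≤ z := by rw [hz]; exact le_max_right _ _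
  obtain ⟨A, hA⟩ := hall z hzz₀ C1 C2 hC1 hC2
  refine ⟨z, A, ?_⟩
  have e1 := hA
  have e2 := hbig z hzz₁ C1 C2 hC1 hC12
  have e3 : ∀ᶠ x : ℕ in atTop, 4 / ε ≤ (Nat.primeCounting x : ℝ) := pi_tend.eventually_ge_atTop _
  have e4 := ev_x _ C1 hC1 e3
  have e5 := ev_x _ C1 hC1 (eventually_ge_atTop 3)
  filter_upwards [e1, e2, e4, e5] with N f1 f2 f3 f5
  obtain ⟨E, hE1, hE2⟩ := f2
  refine ⟨E, hE1, fun σ => ?_⟩
  obtain ⟨G, hG1, hG2, hmain⟩ := f1 σ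
  refine ⟨G, hG1, hG2, ?_⟩
  intro n hn0 hnN hnG x hx1 hx2
  have hx := hmain n hn0 hnN hnG x hx1 hx2
  have hpi : ε / 40 * (x / Real.log x) ≤ ε / 4 * Nat.primeCounting x := by
    have h1 := pi_lower x (by have := f5 x hx1; omega)
    have h2 : (x : ℝ) / Real.log x = 10 * (x / (10 * Real.log x)) := by
      rw [mul_div_assoc', mul_div_mul_left _ _ (by norm_num)]
    rw [h2]
    nlinarith
  have h4 := f3 x hx1
  have h10 : (0 : ℝ) < Nat.primeCounting x := lt_of_lt_of_le (by positivity) h4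
  have h11 : 0 < ε * (Nat.primeCounting x : ℝ) := by positivity
  rw [div_le_iff₀ hε] at h4
  refine ⟨?_, fun hnE => ?_⟩
  · have h1 := (abs_le.1 hx).2
    have h2 : ((CT σ n x).card : ℝ) ≤ (PG σ n x z).card + 1 := by exact_mod_cast CT_le σ n x z
    linarith
  · have h1 := (abs_le.1 hx).1
    have h2 := CT_ge2 σ z x n
    have h3 := hE2 n hn0 hnN hnE x hx1 hx2
    linarith

end Pool.Agent.KS6_18
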