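import Mathlib
import Pool.Agent.KS6_18.GenT
import Pool.Graph.R_seed8.W171.LG.CoreR

set_option autoImplicit false

/-! Lenstra's problem for the groups generated by `W₀` and `D n ^ r`: the system of conditions. -/

namespace Pool.Agent.KS6_18

open Finset Filter Topology NumberField
open Pool.Agent.W171.LG
open Pool.Agent.W401.Cheb
open Pool.Agent.H386R2.Artin (LC_pos)
open Pool.Agent.H981R3.LN (ql Sk mem_Sk Sk_prime Sk_dvd)

/-- the unit `D` -/
noncomputable def Du (D : ℤ) (hD : D ≠ 0) : ℚˣ := Units.mk0 (D : ℚ) (by exact_mod_cast hD)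

section
variable (F : IntermediateField ℚ QA) [NumberField F] [IsGalois ℚ F] (C : Set Gal(F/ℚ))
  (W0 : Subgroup ℚˣ) (k : ℕ) (D : ℤ) (hD : D ≠ 0) (r : ℕ)

lemma Tp_mem {p : ℕ} (hp : p.Prime) {l : ℕ} (hr : r ≠ 0) (hk : k ≠ 0)
    (hkr : ∀ l : ℕ, l.Prime → l ∣ k * r → ql k l ∣ r) :
    l ∈ Tp W0 k r.primeFactors p ↔ l.Prime ∧ l ∣ p - 1 ∧ ¬ l ∣ r ∧ PW W0 l p ∧ ql k l = l := by
  classical
  have : Fact p.Prime := ⟨hp⟩
  have hp1 : p - 1 ≠ 0 := (LC_pos (p := p)).ne'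
  have hql : ∀ l : ℕ, l.Prime → ¬ l ∣ r → ql k l = l := by
    intro l hl hlr
    have h1 : ¬ l ∣ k := by
      intro h
      have h2 := hkr l hl (h.mul_right _)
      apply hlr
      refine dvd_trans ?_ h2
      unfold ql
      exact dvd_pow_self l (Nat.succ_ne_zero _)
    unfold ql
    rw [Nat.factorization_eq_zero_of_not_dvd h1, zero_add, pow_one]
  unfold Tp
  rw [mem_filter, mem_Sk hp1]
  constructor
  · rintro ⟨⟨h1, h2⟩, h3, h4⟩
    have h5 : ¬ l ∣ r := fun h => h3 (Nat.mem_primeFactors.2 ⟨h1, h, hr⟩)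
    rw [hql l h1 h5] at h2 h4
    exact ⟨h1, h2, h5, h4, hql l h1 h5⟩
  · rintro ⟨h1, h2, h3, h4, h5⟩
    rw [h5]
    exact ⟨⟨h1, h2⟩, fun h => h3 (Nat.dvd_of_mem_primeFactors h), h4⟩

/-- the system of conditions -/
noncomputable def lenSys (p₁ : ℕ) (hr : r ≠ 0) (hk : k ≠ 0)
    (hkr : ∀ l : ℕ, l.Prime → l ∣ k * r → ql k l ∣ r) : Sys where
  T := {p | p.Prime ∧ p₁ ≤ p ∧ gd F C (W0 ⊔ Subgroup.zpowers (Du D hD)) k r.primeFactors p}
  Λ := fun p => Tp W0 k r.primeFactors p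
  hT := fun p hp => hp.1
  hΛ := by
    intro p hp l hl
    have h := (Tp_mem W0 k r hp.1 hr hk hkr).1 hl
    exact ⟨h.1, h.2.1⟩

lemma rd_int (p : ℕ) : rd p ((Du D hD : ℚˣ) : ℚ) = (D : ZMod p) := by
  unfold rd Du
  rw [Units.val_mk0, Rat.num_intCast, Rat.den_intCast]
  simp

lemma un_int (p : ℕ) [Fact p.Prime] : Un p ((Du D hD : ℚˣ) : ℚ) ↔ ¬ (p : ℤ) ∣ D := by
  unfold Un Du
  rw [Units.val_mk0, Rat.num_intCast, Rat.den_intCast, Ne, ZMod.intCast_zmod_eq_zero_iff_dvd]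
  simp

lemma QR_iff (p₁ : ℕ) (hr : r ≠ 0) (hk : k ≠ 0)
    (hkr : ∀ l : ℕ, l.Prime → l ∣ k * r → ql k l ∣ r)
    (hU : ∀ p : ℕ, p.Prime → p₁ ≤ p → UnW W0 p) (hUD : ∀ p : ℕ, p.Prime → p₁ ≤ p → ¬ (p : ℤ) ∣ D)
    {p : ℕ} (hp : p.Prime) (hpp : p₁ ≤ p) {n : ℕ} :
    QR F C W0 k (Du D hD) r p (n : ZMod p) ↔
      p ∈ (lenSys F C W0 k D hD r p₁ hr hk hkr).T ∧ ¬ (p : ℤ) ∣ D * (n : ℤ) ^ r ∧
      ∀ l ∈ (lenSys F C W0 k D hD r p₁ hr hk hkr).Λ p,
        ((D * (n : ℤ) ^ r : ℤ) : ZMod p) ^ ((p - 1) / l) ≠ 1 := by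
  have : Fact p.Prime := ⟨hp⟩
  have hp1 : p - 1 ≠ 0 := (LC_pos (p := p)).ne'
  have h1 := hU p hp hpp
  have h2 := (un_int D hD p).2 (hUD p hp hpp)
  have hcast : ((D * (n : ℤ) ^ r : ℤ) : ZMod p) = rd p ((Du D hD : ℚˣ) : ℚ) * (n : ZMod p) ^ r := by
    rw [rd_int]
    push_cast
    rfl
  have hn : ¬ (p : ℤ) ∣ D * (n : ℤ) ^ r ↔ (n : ZMod p) ≠ 0 := by
    rw [← ZMod.intCast_zmod_eq_zero_iff_dvd]
    push_cast
    rw [mul_eq_zero, pow_eq_zero_iff hr, not_or]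
    constructor
    · exact fun h => h.2
    · intro h
      refine ⟨?_, h⟩
      rw [ZMod.intCast_zmod_eq_zero_iff_dvd]
      exact hUD p hp hpp
  rw [hn, hcast]
  have hrk : ∀ l : ℕ, l.Prime → l ∣ r → ql k l ∣ r := fun l hl h => hkr l hl (h.mul_left _)
  unfold QR lenSys
  simp only [Set.mem_ofPred_eq]
  unfold gd
  constructor
  · rintro ⟨hG, -, -, ha, h⟩
    refine ⟨⟨hp, hpp, hG, fun l hl hPW => ?_⟩, ha, fun l hl h3 => ?_⟩
    · rw [Nat.mem_primeFactors] at hl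
      have hlS : l ∈ Sk k (p - 1) := (mem_Sk hp1).2 ⟨hl.1, hPW.1⟩
      rw [PW_sup h1 h2] at hPW
      refine h l hlS ⟨hPW.1, ?_⟩
      rw [pow_R k r _ _ ha hPW.1.1 (hrk l hl.1 hl.2.1)]
      exact hPW.2
    · have hl' := (Tp_mem W0 k r hp hr hk hkr).1 hl
      have hlS : l ∈ Sk k (p - 1) := (mem_Sk hp1).2 ⟨hl'.1, by rw [hl'.2.2.2.2]; exact hl'.2.1⟩
      apply h l hlS
      rw [hl'.2.2.2.2]
      exact ⟨hl'.2.2.2.1, h3⟩
  · rintro ⟨⟨-, -, hG, hR⟩, ha, h⟩
    refine ⟨hG, h1, h2, ha, fun l hl h3 => ?_⟩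
    by_cases hlr : l ∣ r
    · refine hR l (Nat.mem_primeFactors.2 ⟨Sk_prime hl, hlr, hr⟩) ?_
      rw [PW_sup h1 h2]
      refine ⟨h3.1, ?_⟩
      have h4 := h3.2
      rwa [pow_R k r _ _ ha h3.1.1 (hrk l (Sk_prime hl) hlr)] at h4
    · have hql : ql k l = l := by
        have h5 : ¬ l ∣ k := by
          intro h
          have h6 := hkr l (Sk_prime hl) (h.mul_right _)
          apply hlr
          refine dvd_trans ?_ h6
          unfold ql
          exact dvd_pow_self l (Nat.succ_ne_zero _)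
        unfold ql
        rw [Nat.factorization_eq_zero_of_not_dvd h5, zero_add, pow_one]
      rw [hql] at h3
      refine h l ((Tp_mem W0 k r hp hr hk hkr).2 ⟨Sk_prime hl, ?_, hlr, h3.1, hql⟩) h3.2
      have := Sk_dvd hl
      rwa [hql] at this

/-- the counting functions -/
lemma Sc_CT (p₁ : ℕ) (hr : r ≠ 0) (hk : k ≠ 0)
    (hkr : ∀ l : ℕ, l.Prime → l ∣ k * r → ql k l ∣ r)
    (hU : ∀ p : ℕ, p.Prime → p₁ ≤ p → UnW W0 p) (hUD : ∀ p : ℕ, p.Prime → p₁ ≤ p → ¬ (p : ℤ) ∣ D)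
    {n : ℕ} (hn : n ≠ 0) (x : ℕ) :
    |(Sc F C (W0 ⊔ Subgroup.zpowers (DR (Du D hD) r n)) k x : ℝ) -
      (CT (lenSys F C W0 k D hD r p₁ hr hk hkr) (D * (n : ℤ) ^ r) x).card| ≤ p₁ := by
  classical
  rw [Sc_eq]
  set A := (range (x + 1)).filter (fun p : ℕ => p.Prime ∧
    LC F C k (W0 ⊔ Subgroup.zpowers (DR (Du D hD) r n)) p) with hA
  set B := CT (lenSys F C W0 k D hD r p₁ hr hk hkr) (D * (n : ℤ) ^ r) x with hB
  have hiff : ∀ p : ℕ, p.Prime → p₁ ≤ p →
      (LC F C k (W0 ⊔ Subgroup.zpowers (DR (Du D hD) r n)) p ↔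
      p ∈ (lenSys F C W0 k D hD r p₁ hr hk hkr).T ∧ ¬ (p : ℤ) ∣ D * (n : ℤ) ^ r ∧
      ∀ l ∈ (lenSys F C W0 k D hD r p₁ hr hk hkr).Λ p,
        ((D * (n : ℤ) ^ r : ℤ) : ZMod p) ^ ((p - 1) / l) ≠ 1) := by
    intro p hp hpP
    have : Fact p.Prime := ⟨hp⟩
    rw [LC_iffR F C W0 k (Du D hD) r hk hr hp ((un_int D hD p).2 (hUD p hp hpP)) hn,
      QR_iff F C W0 k D hD r p₁ hr hk hkr hU hUD hp hpP]
  have hAB : A ⊆ B ∪ range p₁ := by
    intro p hp
    rw [hA, mem_filter, Finset.mem_range] at hp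
    rw [Finset.mem_union, Finset.mem_range]
    by_cases h : p < p₁
    · exact Or.inr h
    · left
      rw [hB]
      unfold CT
      rw [mem_filter, mem_Icc]
      exact ⟨⟨hp.2.1.one_le, by omega⟩, (hiff p hp.2.1 (not_lt.1 h)).1 hp.2.2⟩
  have hBA : B ⊆ A ∪ range p₁ := by
    intro p hp
    rw [hB] at hp
    unfold CT at hp
    rw [mem_filter, mem_Icc] at hp
    have hpp : p.Prime := hp.2.1.1
    rw [Finset.mem_union, Finset.mem_range]
    by_cases h : p < p₁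
    · exact Or.inr h
    · left
      rw [hA, mem_filter, Finset.mem_range]
      exact ⟨by omega, hpp, (hiff p hpp (not_lt.1 h)).2 hp.2⟩
  have h1 := (card_le_card hAB).trans (card_union_le _ _)
  have h2 := (card_le_card hBA).trans (card_union_le _ _)
  rw [card_range] at h1 h2
  have h1' : (#A : ℝ) ≤ #B + p₁ := by exact_mod_cast h1
  have h2' : (#B : ℝ) ≤ #A + p₁ := by exact_mod_cast h2
  have h3 : |(#A : ℝ) - #B| ≤ p₁ := by
    rw [abs_le]
    constructor <;> linarith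
  refine le_trans (le_of_eq ?_) h3
  congr!

open Classical in
/-- the expected number -/
lemma Rf_M (p₁ : ℕ) (hr : r ≠ 0) (hk : k ≠ 0)
    (hkr : ∀ l : ℕ, l.Prime → l ∣ k * r → ql k l ∣ r) (x : ℕ) :
    |Rf (lenSys F C W0 k D hD r p₁ hr hk hkr) x -
      M (fun p => if gd F C (W0 ⊔ Subgroup.zpowers (Du D hD)) k r.primeFactors p then
        gT k (Tp W0 k r.primeFactors p) else 0) x * Nat.primeCounting x| ≤ p₁ := by
  by_cases hx : Nat.primeCounting x = 0
  · have h0 : TA (lenSys F C W0 k D hD r p₁ hr hk hkr) x = ∅ := by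
      rw [Finset.eq_empty_iff_forall_notMem]
      intro p hp
      rw [mem_TA] at hp
      have hpp : p.Prime := hp.2.1
      have h2 : 0 < Nat.primeCounting x := by
        have := Nat.monotone_primeCounting (hpp.two_le.trans hp.1)
        have h3 : Nat.primeCounting 2 = 1 := by decide
        omega
      omega
    unfold Rf
    rw [h0, hx]
    simp
  · have hx' : (Nat.primeCounting x : ℝ) ≠ 0 := by exact_mod_cast hx
    rw [Pool.Agent.W171.LG.M_eq, div_mul_cancel₀ _ hx']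
    have hTA : TA (lenSys F C W0 k D hD r p₁ hr hk hkr) x = (Pool.Agent.H386R2.Artin.PP x).filter (fun p => p₁ ≤ p ∧
        gd F C (W0 ⊔ Subgroup.zpowers (Du D hD)) k r.primeFactors p) := by
      ext p
      rw [mem_TA, mem_filter]
      unfold Pool.Agent.H386R2.Artin.PP
      rw [mem_filter, Finset.mem_range]
      constructor
      · rintro ⟨h1, h2, h3, h4⟩
        exact ⟨⟨by omega, h2⟩, h3, h4⟩
      · rintro ⟨⟨h1, h2⟩, h3, h4⟩
        exact ⟨by omega, h2, h3, h4⟩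
    have hrf : ∀ p ∈ Pool.Agent.H386R2.Artin.PP x, rf (lenSys F C W0 k D hD r p₁ hr hk hkr) p =
        gT k (Tp W0 k r.primeFactors p) := by
      intro p hp
      unfold Pool.Agent.H386R2.Artin.PP at hp
      rw [mem_filter] at hp
      unfold rf gT
      apply prod_congr rfl
      intro l hl
      have h5 : l ∈ Tp W0 k r.primeFactors p := hl
      rw [((Tp_mem W0 k r hp.2 hr hk hkr).1 h5).2.2.2.2]
    have h1 : Rf (lenSys F C W0 k D hD r p₁ hr hk hkr) x = ∑ p ∈ Pool.Agent.H386R2.Artin.PP x,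
        (if p₁ ≤ p then (if gd F C (W0 ⊔ Subgroup.zpowers (Du D hD)) k r.primeFactors p then
        gT k (Tp W0 k r.primeFactors p) else 0) else 0) := by
      unfold Rf
      rw [hTA, sum_filter]
      apply sum_congr rfl
      intro p hp
      rw [hrf p hp]
      by_cases h2 : p₁ ≤ p
      · by_cases h3 : gd F C (W0 ⊔ Subgroup.zpowers (Du D hD)) k r.primeFactors p
        · rw [if_pos ⟨h2, h3⟩, if_pos h2, if_pos h3]
        · rw [if_neg (fun h => h3 h.2), if_pos h2, if_neg h3]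
      · rw [if_neg (fun h => h2 h.1), if_neg h2]
    rw [h1, ← sum_sub_distrib]
    refine (abs_sum_le_sum_abs _ _).trans ?_
    have h2 : ∀ p ∈ Pool.Agent.H386R2.Artin.PP x, |(if p₁ ≤ p then (if gd F C (W0 ⊔ Subgroup.zpowers (Du D hD)) k
        r.primeFactors p then gT k (Tp W0 k r.primeFactors p) else 0) else 0) -
        (if gd F C (W0 ⊔ Subgroup.zpowers (Du D hD)) k r.primeFactors p then
        gT k (Tp W0 k r.primeFactors p) else 0)| ≤ if p < p₁ then (1 : ℝ) else 0 := by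
      intro p hp
      by_cases h3 : p₁ ≤ p
      · rw [if_pos h3, sub_self, abs_zero, if_neg (by omega)]
      · have h3' : p < p₁ := by omega
        rw [if_neg h3, if_pos h3', zero_sub, abs_neg]
        unfold Pool.Agent.H386R2.Artin.PP at hp
        rw [mem_filter] at hp
        split_ifs with h4
        · have h5 : ∀ l ∈ Tp W0 k r.primeFactors p, 0 ≤ 1 - 1 / (ql k l : ℝ) ∧
              1 - 1 / (ql k l : ℝ) ≤ 1 := by
            intro l hl
            have h6 := (Tp_mem W0 k r hp.2 hr hk hkr).1 hl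
            rw [h6.2.2.2.2]
            exact l_frac' h6.1
          unfold gT
          rw [abs_of_nonneg (prod_nonneg fun l hl => (h5 l hl).1)]
          exact prod_le_one (fun l hl => (h5 l hl).1) fun l hl => (h5 l hl).2
        · simp
    refine (sum_le_sum h2).trans ?_
    rw [← sum_filter, sum_const, nsmul_eq_mul, mul_one]
    have h3 : (Pool.Agent.H386R2.Artin.PP x).filter (fun p => p < p₁) ⊆ range p₁ := by
      intro p hp
      rw [mem_filter] at hp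
      exact Finset.mem_range.2 hp.2
    have h4 := card_le_card h3
    rw [card_range] at h4
    exact_mod_cast h4

end

end Pool.Agent.KS6_18
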