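import Mathlib
import Pool.Agent.KS6_18.LenApp

set_option autoImplicit false

/-! Lenstra's density for the groups generated by `W₀` and `D n ^ r`, squarefree `n`. -/

namespace Pool.Agent.KS6_18

open Finset Filter Topology NumberField
open Pool.Agent.W171.LG
open Pool.Agent.W401.Cheb
open Pool.Agent.H386R2.Artin (LC_pos)
open Pool.Agent.H981R3.LN (ql Sk mem_Sk Sk_prime Sk_dvd)

lemma class_uniq {n n' r l : ℕ} (hn : Squarefree n) (hn' : Squarefree n') (hl : l.Prime)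
    (hlr : ¬ l ∣ r) {D g : ℤ} (hD : D ≠ 0) (hg : g ≠ 0) {y y' : ℚ}
    (h : ((D * (n : ℤ) ^ r : ℤ) : ℚ) = g * y ^ l) (h' : ((D * (n' : ℤ) ^ r : ℤ) : ℚ) = g * y' ^ l) :
    n = n' := by
  have hn0 := hn.ne_zero
  have hn0' := hn'.ne_zero
  apply Nat.eq_of_factorization_eq hn0 hn0'
  intro q
  by_cases hq : q.Prime
  swap
  · rw [Nat.factorization_eq_zero_of_not_prime _ hq, Nat.factorization_eq_zero_of_not_prime _ hq]
  have : Fact q.Prime := ⟨hq⟩
  have hval : ∀ (m : ℕ) (w : ℚ), m ≠ 0 → ((D * (m : ℤ) ^ r : ℤ) : ℚ) = g * w ^ l →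
      padicValRat q (D : ℚ) + r * (m.factorization q : ℤ) = padicValRat q (g : ℚ) +
        l * padicValRat q w := by
    intro m w hm hmw
    have hDq : (D : ℚ) ≠ 0 := by exact_mod_cast hD
    have hgq : (g : ℚ) ≠ 0 := by exact_mod_cast hg
    have hmq : (m : ℚ) ≠ 0 := by exact_mod_cast hm
    have hw : w ≠ 0 := by
      rintro rfl
      rw [zero_pow hl.ne_zero, mul_zero] at hmw
      push_cast at hmw
      exact mul_ne_zero hDq (pow_ne_zero _ hmq) hmw
    push_cast at hmw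
    have h1 := congrArg (padicValRat q) hmw
    rw [padicValRat.mul hDq (pow_ne_zero _ hmq), padicValRat.mul hgq (pow_ne_zero _ hw),
      padicValRat.pow, padicValRat.pow, padicValRat.of_nat, ← Nat.factorization_def _ hq] at h1
    exact h1
  have e1 := hval n y hn0 h
  have e2 := hval n' y' hn0' h'
  have hsq1 : n.factorization q ≤ 1 := hn.natFactorization_le_one q
  have hsq2 : n'.factorization q ≤ 1 := hn'.natFactorization_le_one q
  have h3 : (l : ℤ) ∣ (r : ℤ) * ((n.factorization q : ℤ) - n'.factorization q) := by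
    refine ⟨padicValRat q y - padicValRat q y', ?_⟩
    linear_combination e1 - e2
  have hlp : Prime (l : ℤ) := Nat.prime_iff_prime_int.1 hl
  rcases hlp.dvd_or_dvd h3 with h4 | h4
  · exact absurd (Int.natCast_dvd_natCast.1 h4) hlr
  · by_contra hne
    have h5 : ((n.factorization q : ℤ) - n'.factorization q) ≠ 0 := by
      intro h6
      apply hne
      omega
    have h6 := Int.le_of_dvd (by positivity) (dvd_abs (l : ℤ) _ |>.2 h4)
    have h7 := hl.two_le
    have h8 : |((n.factorization q : ℤ) - n'.factorization q)| ≤ 1 := by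
      rw [abs_le]
      constructor <;> omega
    omega

lemma nongen_div {P n : ℕ} (hn : Squarefree n) (h : ¬ Gen P n) : n ∈ (primorial P).divisors := by
  have h1 : ∀ p ∈ n.primeFactors, p ≤ P := by
    intro p hp
    by_contra hcon
    apply h
    refine ⟨p, Nat.prime_of_mem_primeFactors hp, by omega, Nat.dvd_of_mem_primeFactors hp, ?_⟩
    intro h2
    have h3 := hn p (by rwa [← sq])
    exact (Nat.prime_of_mem_primeFactors hp).one_lt.ne' (Nat.isUnit_iff.1 h3)
  rw [Nat.mem_divisors]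
  refine ⟨?_, (primorial_pos P).ne'⟩
  rw [← Nat.prod_primeFactors_of_squarefree hn]
  unfold primorial
  apply prod_dvd_prod_of_subset
  intro p hp
  rw [mem_filter, Finset.mem_range]
  exact ⟨by have := h1 p hp; omega, Nat.prime_of_mem_primeFactors hp⟩

open Classical in
theorem len_fin (θ ε C1 C2 : ℝ) (hθ : 0 < θ) (hε : 0 < ε) (hC1 : 0 < C1) (hC12 : C1 ≤ C2)
    (D : ℤ) (hD : D ≠ 0) (r : ℕ) (hr : r ≠ 0) :
    ∃ E : ℕ → Finset ℕ, (∀ N, ((E N).card : ℝ) ≤ (N : ℝ) ^ θ) ∧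
      ∀ (F : IntermediateField ℚ QA) [NumberField F] [IsGalois ℚ F] (C : Set Gal(F/ℚ))
        (W0 : Subgroup ℚˣ) (k : ℕ), (∀ τ ∈ C, ∀ ρ : Gal(F/ℚ), ρ * τ * ρ⁻¹ ∈ C) → W0.FG → k ≠ 0 →
        (∀ l : ℕ, l.Prime → l ∣ k * r → ql k l ∣ r) →
        ∃ A N₀ : ℕ, ∀ N : ℕ, N₀ ≤ N → ∃ E₀ : Finset ℕ, (E₀.card : ℝ) ≤ (Real.log N) ^ A ∧
          ∀ n : ℕ, n ≤ N → Squarefree n → n ∉ E₀ →
            (∀ x : ℕ, (N : ℝ) ^ C1 ≤ x → (x : ℝ) ≤ (N : ℝ) ^ C2 →
              (Sc F C (W0 ⊔ Subgroup.zpowers (DR (Du D hD) r n)) k x : ℝ) ≤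
                ((∑' e : ℕ, tW F C (W0 ⊔ Subgroup.zpowers (DR (Du D hD) r n)) k e) + ε) *
                  Nat.primeCounting x) ∧
            (n ∉ E N → ∑ x ∈ (WX N C1 C2).filter (fun x : ℕ =>
                (Sc F C (W0 ⊔ Subgroup.zpowers (DR (Du D hD) r n)) k x : ℝ) <
                ((∑' e : ℕ, tW F C (W0 ⊔ Subgroup.zpowers (DR (Du D hD) r n)) k e) - ε) *
                  Nat.primeCounting x), 1 / (x : ℝ) ≤ ε * Real.log N) := by
  have hr0 : (0 : ℝ) < (r : ℝ) + 1 := by positivity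
  have hr1 : 1 ≤ r := Nat.one_le_iff_ne_zero.2 hr
  have hC2 : 0 < C2 := lt_of_lt_of_le hC1 hC12
  have hDn : 1 ≤ D.natAbs := Int.natAbs_pos.2 hD
  obtain ⟨z, A, hgen⟩ := gen (θ / (r + 1)) (ε / (8 * (r + 1))) (C1 / (r + 1)) C2 (by positivity)
    (by positivity) (by positivity) (by
      refine le_trans ?_ hC12
      rw [div_le_iff₀ hr0]
      have : (0 : ℝ) ≤ r := Nat.cast_nonneg _
      nlinarith)
  obtain ⟨N1, hN1⟩ := eventually_atTop.1 hgen
  have hch : ∀ N' : ℕ, ∃ E' : Finset ℤ, N1 ≤ N' → ((E'.card : ℝ) ≤ (N' : ℝ) ^ (θ / (r + 1)) ∧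
      ∀ σ : Sys, ∃ (G : Finset ℤ),
        (G.card : ℝ) ≤ (Real.log N') ^ A ∧ (∀ g ∈ G, g ≠ 0) ∧
        ∀ n : ℤ, n ≠ 0 → n.natAbs ≤ N' →
          (∀ g ∈ G, ∀ l : ℕ, l.Prime → l ≤ z → (∃ p ∈ σ.T, l ∈ σ.Λ p) →
            ∀ y : ℚ, (n : ℚ) ≠ g * y ^ l) →
          (∀ x : ℕ, (N' : ℝ) ^ (C1 / (r + 1)) ≤ x → (x : ℝ) ≤ (N' : ℝ) ^ C2 →
            ((CT σ n x).card : ℝ) ≤ Rf σ x + ε / (8 * (r + 1)) * Nat.primeCounting x) ∧
          (n ∉ E' → ∑ x ∈ (WX N' (C1 / (r + 1)) C2).filter (fun x : ℕ =>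
              ((CT σ n x).card : ℝ) < Rf σ x - ε / (8 * (r + 1)) * Nat.primeCounting x),
              1 / (x : ℝ) ≤ ε / (8 * (r + 1)) * Real.log N')) := by
    intro N'
    by_cases h : N1 ≤ N'
    · obtain ⟨E', hE'⟩ := hN1 N' h
      exact ⟨E', fun _ => hE'⟩
    · exact ⟨∅, fun h' => absurd h' h⟩
  choose E' hE' using hch
  set Nr : ℕ → ℕ := fun N => D.natAbs * N ^ r with hNr
  have hNrge : ∀ N : ℕ, N ≤ Nr N := by
    intro N
    rw [hNr]
    calc N = 1 * N ^ 1 := by ring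
      _ ≤ D.natAbs * N ^ r := by
        rcases Nat.eq_zero_or_pos N with h | h
        · rw [h]; simp
        · exact Nat.mul_le_mul hDn (Nat.pow_le_pow_right h hr1)
  refine ⟨fun N => if N1 ≤ Nr N ∧ ((Nr N : ℕ) : ℝ) ^ (θ / (r + 1)) ≤ (N : ℝ) ^ θ then
    (Icc 1 N).filter (fun n : ℕ => D * (n : ℤ) ^ r ∈ E' (Nr N)) else ∅, ?_, ?_⟩
  · intro N
    show ((if N1 ≤ Nr N ∧ ((Nr N : ℕ) : ℝ) ^ (θ / (r + 1)) ≤ (N : ℝ) ^ θ then
      (Icc 1 N).filter (fun n : ℕ => D * (n : ℤ) ^ r ∈ E' (Nr N)) else ∅ : Finset ℕ).card : ℝ) ≤ _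
    split_ifs with h
    · refine le_trans ?_ (((hE' (Nr N) h.1).1).trans h.2)
      have : ((Icc 1 N).filter (fun n : ℕ => D * (n : ℤ) ^ r ∈ E' (Nr N))).card ≤
          (E' (Nr N)).card := by
        apply card_le_card_of_injOn (fun n : ℕ => D * (n : ℤ) ^ r)
        · intro n hn
          exact (mem_filter.1 hn).2
        · intro a _ b _ hab
          have h1 : (a : ℤ) ^ r = (b : ℤ) ^ r := mul_left_cancel₀ hD hab
          have h2 : a ^ r = b ^ r := by exact_mod_cast h1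
          exact Nat.pow_left_injective hr h2
      exact_mod_cast this
    · rw [card_empty]
      push_cast
      positivity
  · intro F _ _ C W0 k hC hW0 hk hkr
    have hrk : ∀ l : ℕ, l.Prime → l ∣ r → ql k l ∣ r := fun l hl h => hkr l hl (h.mul_left _)
    have hRp : ∀ l ∈ r.primeFactors, l.Prime := fun l hl => Nat.prime_of_mem_primeFactors hl
    have hW1 : (W0 ⊔ Subgroup.zpowers (Du D hD)).FG :=
      hW0.sup ⟨{Du D hD}, by simp [Subgroup.zpowers_eq_closure]⟩
    obtain ⟨Ew, hEw, hUw⟩ := exists_unW hW0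
    set p₁ : ℕ := Ew + D.natAbs + 1 with hp₁
    have hU : ∀ p : ℕ, p.Prime → p₁ ≤ p → UnW W0 p := by
      intro p hp hpp
      have : Fact p.Prime := ⟨hp⟩
      exact hUw p (fun h => by
        have := Nat.le_of_dvd hEw h
        omega)
    have hUD : ∀ p : ℕ, p.Prime → p₁ ≤ p → ¬ (p : ℤ) ∣ D := by
      intro p hp hpp h
      have h1 := Nat.le_of_dvd hDn (Int.natCast_dvd.1 h)
      omega
    have hlim := lim_lenR F C k r.primeFactors hC hW1 hW0 hRp
    set A₀ : ℝ := ∑' e : ℕ, aR F C (W0 ⊔ Subgroup.zpowers (Du D hD)) W0 k r.primeFactors e with hA₀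
    obtain ⟨P0, hP0⟩ := closeR F C k hW0 (Du D hD) hr1 hrk (ε / 8) (by positivity)
    set K₀ : ℕ := (primorial P0).divisors.card with hK₀
    refine ⟨A + 1, ?_⟩
    -- eventual facts
    have e1 : ∀ᶠ x : ℕ in atTop, |M (fun p => if gd F C (W0 ⊔ Subgroup.zpowers (Du D hD)) k
        r.primeFactors p then gT k (Tp W0 k r.primeFactors p) else 0) x - A₀| < ε / 8 := by
      have := (Metric.tendsto_nhds.1 hlim) (ε / 8) (by positivity)
      simpa [Real.dist_eq] using this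
    have e2 : ∀ᶠ x : ℕ in atTop, 8 * (p₁ : ℝ) / ε ≤ (Nat.primeCounting x : ℝ) :=
      pi_tend.eventually_ge_atTop _
    have e3 := ev_x _ C1 hC1 (e1.and e2)
    have e4 : ∀ᶠ N : ℕ in atTop, max 1 (((r : ℝ) + 1) ^ A * (z + 1) + K₀) ≤ Real.log N :=
      log_tend.eventually_ge_atTop _
    obtain ⟨N2, hN2⟩ := eventually_atTop.1 ((e3.and e4).and (eventually_ge_atTop
      (max (max N1 D.natAbs) 2)))
    refine ⟨N2, fun N hN => ?_⟩
    obtain ⟨⟨f3, f4⟩, f5⟩ := hN2 N hN
    have hNN1 : N1 ≤ N := ((le_max_left _ _).trans (le_max_left _ _)).trans f5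
    have hND : D.natAbs ≤ N := ((le_max_right _ _).trans (le_max_left _ _)).trans f5
    have hNtwo : 2 ≤ N := (le_max_right _ _).trans f5
    have hN0 : (0 : ℝ) < N := by exact_mod_cast (by omega : 0 < N)
    have hN1r : (1 : ℝ) ≤ N := by exact_mod_cast (by omega : 1 ≤ N)
    have hlN : 1 ≤ Real.log N := (le_max_left _ _).trans f4
    have hN' : N1 ≤ Nr N := hNN1.trans (hNrge N)
    have hNrle : ((Nr N : ℕ) : ℝ) ≤ (N : ℝ) ^ ((r : ℝ) + 1) := by
      have h1 : Nr N ≤ N ^ (r + 1) := by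
        rw [hNr, pow_succ, mul_comm (N ^ r)]
        exact Nat.mul_le_mul_right _ hND
      calc ((Nr N : ℕ) : ℝ) ≤ ((N ^ (r + 1) : ℕ) : ℝ) := by exact_mod_cast h1
        _ = (N : ℝ) ^ ((r : ℝ) + 1) := by
            rw [← Nat.cast_succ, Real.rpow_natCast]
            push_cast
            rfl
    have hNrN : (N : ℝ) ≤ (Nr N : ℕ) := by exact_mod_cast hNrge N
    have hNr0 : (0 : ℝ) < (Nr N : ℕ) := lt_of_lt_of_le hN0 hNrN
    have hlogr : Real.log (Nr N : ℕ) ≤ (r + 1) * Real.log N := by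
      rw [← Real.log_rpow hN0]
      exact Real.log_le_log hNr0 hNrle
    have hlogr0 : 0 ≤ Real.log (Nr N : ℕ) := by
      have := Real.log_le_log hN0 hNrN
      linarith
    have hEN : N1 ≤ Nr N ∧ ((Nr N : ℕ) : ℝ) ^ (θ / (r + 1)) ≤ (N : ℝ) ^ θ := by
      refine ⟨hN', ?_⟩
      calc ((Nr N : ℕ) : ℝ) ^ (θ / (r + 1)) ≤ ((N : ℝ) ^ ((r : ℝ) + 1)) ^ (θ / (r + 1)) :=
            Real.rpow_le_rpow hNr0.le hNrle (by positivity)
        _ = (N : ℝ) ^ θ := by
            rw [← Real.rpow_mul hN0.le]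
            congr 1
            field_simp
    have hx1' : ∀ x : ℕ, (N : ℝ) ^ C1 ≤ x → ((Nr N : ℕ) : ℝ) ^ (C1 / (r + 1)) ≤ x := by
      intro x hx
      refine le_trans ?_ hx
      calc ((Nr N : ℕ) : ℝ) ^ (C1 / (r + 1)) ≤ ((N : ℝ) ^ ((r : ℝ) + 1)) ^ (C1 / (r + 1)) :=
            Real.rpow_le_rpow hNr0.le hNrle (by positivity)
        _ = (N : ℝ) ^ C1 := by
            rw [← Real.rpow_mul hN0.le]
            congr 1
            field_simp
    have hx2' : ∀ x : ℕ, (x : ℝ) ≤ (N : ℝ) ^ C2 → (x : ℝ) ≤ ((Nr N : ℕ) : ℝ) ^ C2 := by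
      intro x hx
      exact hx.trans (Real.rpow_le_rpow hN0.le hNrN hC2.le)
    set σ := lenSys F C W0 k D hD r p₁ hr hk hkr with hσ
    obtain ⟨G, hG1, hG2, hmain⟩ := (hE' (Nr N) hN').2 σ
    set E₁ : Finset ℕ := (Icc 1 N).filter (fun n : ℕ => Squarefree n ∧ ∃ gl : ℤ × ℕ,
      gl ∈ G ×ˢ range (z + 1) ∧ gl.2.Prime ∧ ¬ gl.2 ∣ r ∧
        ∃ y : ℚ, ((D * (n : ℤ) ^ r : ℤ) : ℚ) = gl.1 * y ^ gl.2) with hE₁
    refine ⟨(primorial P0).divisors ∪ E₁, ?_, ?_⟩
    · have h1 : E₁.card ≤ (G ×ˢ range (z + 1)).card := by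
        have hex : ∀ n : ℕ, ∃ gl : ℤ × ℕ, n ∈ E₁ → (gl ∈ G ×ˢ range (z + 1) ∧ gl.2.Prime ∧
            ¬ gl.2 ∣ r ∧ ∃ y : ℚ, ((D * (n : ℤ) ^ r : ℤ) : ℚ) = gl.1 * y ^ gl.2) := by
          intro n
          by_cases h : n ∈ E₁
          · obtain ⟨gl, hgl⟩ := (mem_filter.1 h).2.2
            exact ⟨gl, fun _ => hgl⟩
          · exact ⟨(0, 0), fun h' => absurd h' h⟩
        choose f hf using hex
        apply card_le_card_of_injOn f
        · intro n hn
          exact (hf n hn).1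
        · intro a ha b hb hab
          obtain ⟨h1, h2, h3, y, hy⟩ := hf a ha
          obtain ⟨h1', h2', h3', y', hy'⟩ := hf b hb
          have ha' := (mem_filter.1 ha).2.1
          have hb' := (mem_filter.1 hb).2.1
          rw [← hab] at hy'
          exact class_uniq ha' hb' h2 h3 hD (hG2 _ (mem_product.1 h1).1) hy hy'
      rw [card_product, card_range] at h1
      have h2 := card_union_le (primorial P0).divisors E₁
      have h3 : ((((primorial P0).divisors ∪ E₁).card : ℕ) : ℝ) ≤ K₀ + (G.card : ℝ) * (z + 1) := by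
        have : ((primorial P0).divisors ∪ E₁).card ≤ K₀ + G.card * (z + 1) := by
          refine h2.trans ?_
          omega
        exact_mod_cast this
      refine h3.trans ?_
      have h4 : (G.card : ℝ) ≤ ((r : ℝ) + 1) ^ A * (Real.log N) ^ A := by
        refine hG1.trans ?_
        rw [← mul_pow]
        exact pow_le_pow_left₀ hlogr0 hlogr A
      have h5 : ((r : ℝ) + 1) ^ A * (z + 1) + K₀ ≤ Real.log N := (le_max_right _ _).trans f4
      have h6 : (1 : ℝ) ≤ (Real.log N) ^ A := one_le_pow₀ hlN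
      have h7 : (0 : ℝ) ≤ K₀ := Nat.cast_nonneg _
      calc (K₀ : ℝ) + (G.card : ℝ) * (z + 1) ≤ K₀ * (Real.log N) ^ A +
            (((r : ℝ) + 1) ^ A * (Real.log N) ^ A) * (z + 1) := by
            apply add_le_add
            · exact le_mul_of_one_le_right h7 h6
            · exact mul_le_mul_of_nonneg_right h4 (by positivity)
        _ = (((r : ℝ) + 1) ^ A * (z + 1) + K₀) * (Real.log N) ^ A := by ring
        _ ≤ Real.log N * (Real.log N) ^ A := mul_le_mul_of_nonneg_right h5 (by positivity)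
        _ = (Real.log N) ^ (A + 1) := by rw [pow_succ]; ring
    · intro n hnN hnsq hnE
      rw [mem_union, not_or] at hnE
      have hn0 : n ≠ 0 := hnsq.ne_zero
      have hn1 : 1 ≤ n := Nat.one_le_iff_ne_zero.2 hn0
      have hgen' : Gen P0 n := by
        by_contra h
        exact hnE.1 (nongen_div hnsq h)
      have hδ := hP0 n hn0 hgen'
      set δ : ℝ := ∑' e : ℕ, tW F C (W0 ⊔ Subgroup.zpowers (DR (Du D hD) r n)) k e with hδdef
      have hn' : D * (n : ℤ) ^ r ≠ 0 := mul_ne_zero hD (pow_ne_zero _ (by exact_mod_cast hn0))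
      have hnN' : (D * (n : ℤ) ^ r).natAbs ≤ Nr N := by
        rw [Int.natAbs_mul, Int.natAbs_pow, Int.natAbs_natCast, hNr]
        exact Nat.mul_le_mul_left _ (Nat.pow_le_pow_left hnN r)
      obtain ⟨hup, hlow⟩ := hmain (D * (n : ℤ) ^ r) hn' hnN' (by
        intro g hg l hl hlz hex y hy
        obtain ⟨p, hpT, hlΛ⟩ := hex
        have hp : p.Prime := hpT.1
        have h1 := (Tp_mem W0 k r hp hr hk hkr).1 hlΛ
        apply hnE.2
        rw [hE₁, mem_filter, mem_Icc]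
        exact ⟨⟨hn1, hnN⟩, hnsq, (g, l), mem_product.2 ⟨hg, Finset.mem_range.2 (by omega)⟩, hl,
          h1.2.2.1, y, hy⟩)
      -- the comparison for `x` in the range
      have hcmp : ∀ x : ℕ, (N : ℝ) ^ C1 ≤ x → 0 ≤ (Nat.primeCounting x : ℝ) ∧
          (p₁ : ℝ) ≤ ε / 8 * Nat.primeCounting x ∧
          |Rf σ x - δ * Nat.primeCounting x| ≤ 3 * (ε / 8) * Nat.primeCounting x := by
        intro x hx
        obtain ⟨h1, h2⟩ := f3 x hx
        have h3 : (0 : ℝ) ≤ Nat.primeCounting x := Nat.cast_nonneg _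
        have h4 : (p₁ : ℝ) ≤ ε / 8 * Nat.primeCounting x := by
          rw [div_le_iff₀ hε] at h2
          linarith
        refine ⟨h3, h4, ?_⟩
        have h5 := Rf_M F C W0 k D hD r p₁ hr hk hkr x
        rw [← hσ] at h5
        set Mx := M (fun p => if gd F C (W0 ⊔ Subgroup.zpowers (Du D hD)) k
          r.primeFactors p then gT k (Tp W0 k r.primeFactors p) else 0) x with hMx
        have h6 : |(Mx - A₀) * Nat.primeCounting x| ≤ ε / 8 * Nat.primeCounting x := by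
          rw [abs_mul, abs_of_nonneg h3]
          exact mul_le_mul_of_nonneg_right h1.le h3
        have h7 : |(δ - A₀) * Nat.primeCounting x| ≤ ε / 8 * Nat.primeCounting x := by
          rw [abs_mul, abs_of_nonneg h3]
          exact mul_le_mul_of_nonneg_right hδ h3
        rw [abs_le] at h5 h6 h7 ⊢
        constructor
        · linarith [h5.1, h5.2, h6.1, h6.2, h7.1, h7.2]
        · linarith [h5.1, h5.2, h6.1, h6.2, h7.1, h7.2]
      have hε' : ε / (8 * (r + 1)) ≤ ε / 8 := by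
        apply div_le_div_of_nonneg_left hε.le (by norm_num)
        have : (0 : ℝ) ≤ r := Nat.cast_nonneg _
        linarith
      have hSc := Sc_CT F C W0 k D hD r p₁ hr hk hkr hU hUD hn0
      rw [← hσ] at hSc
      refine ⟨fun x hx1 hx2 => ?_, fun hnE' => ?_⟩
      · have h1 := hup x (hx1' x hx1) (hx2' x hx2)
        obtain ⟨h2, h3, h4⟩ := hcmp x hx1
        have h5 := (abs_le.1 (hSc x)).2
        have h6 := (abs_le.1 h4).2
        have h7 := mul_le_mul_of_nonneg_right hε' h2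
        have h8 : 0 ≤ ε * (Nat.primeCounting x : ℝ) := by positivity
        linarith
      · have hnE'' : D * (n : ℤ) ^ r ∉ E' (Nr N) := by
          intro h
          apply hnE'
          show n ∈ (if N1 ≤ Nr N ∧ ((Nr N : ℕ) : ℝ) ^ (θ / (r + 1)) ≤ (N : ℝ) ^ θ then
            (Icc 1 N).filter (fun n : ℕ => D * (n : ℤ) ^ r ∈ E' (Nr N)) else ∅ : Finset ℕ)
          rw [if_pos hEN, mem_filter, mem_Icc]
          exact ⟨⟨hn1, hnN⟩, h⟩
        have h1 := hlow hnE''
        refine le_trans (sum_le_sum_of_subset_of_nonneg ?_ fun _ _ _ => by positivity) (h1.trans ?_)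
        · intro x hx
          rw [mem_filter, mem_WX] at hx ⊢
          obtain ⟨⟨hx1, hx2⟩, hx3⟩ := hx
          refine ⟨⟨hx1' x hx1, hx2' x hx2⟩, ?_⟩
          by_contra hcon
          rw [not_lt] at hcon
          obtain ⟨h2, h3, h4⟩ := hcmp x hx1
          have h5 := (abs_le.1 (hSc x)).1
          have h6 := (abs_le.1 h4).1
          have h7 := mul_le_mul_of_nonneg_right hε' h2
          have h8 : 0 ≤ ε * (Nat.primeCounting x : ℝ) := by positivity
          linarith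
        · calc ε / (8 * (r + 1)) * Real.log (Nr N : ℕ) ≤ ε / (8 * (r + 1)) * ((r + 1) * Real.log N) :=
                mul_le_mul_of_nonneg_left hlogr (by positivity)
            _ = ε / 8 * Real.log N := by field_simp
            _ ≤ ε * Real.log N := by
                apply mul_le_mul_of_nonneg_right _ (by linarith)
                linarith

end Pool.Agent.KS6_18
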