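import Mathlib
import Pool.Agent.KS6_18.LenFin5

set_option autoImplicit false

/-! From windows to `x` between powers of `n`. -/

namespace Pool.Agent.KS6_18

open Finset Filter Topology NumberField
open Pool.Agent.H730R2.AA (dens)
open Pool.Agent.W171.LG
open Pool.Agent.W401.Cheb
open Pool.Agent.H981R3.LN (ql)

/-- gluing the exceptional sets of the windows -/
lemma glue {α : Type*} (ν : α → ℕ) (S : ℕ → Finset α) (f : ℕ → ℝ)
    (hf : ∀ M M' : ℕ, M ≤ M' → f M ≤ f M') (hf0 : ∀ M, 0 ≤ f M) (M₀ : ℕ) (hM₀ : 1 ≤ M₀)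
    (h : ∀ M : ℕ, M₀ ≤ M → ((S M).card : ℝ) ≤ f M) (N : ℕ) :
    ({a | ν a ≤ N ∧ M₀ ≤ ν a ∧ a ∈ S (2 ^ (Nat.log 2 (ν a) + 1))}.ncard : ℝ) ≤
      (Nat.log 2 N + 1) * f (2 * N) := by
  classical
  set U : Finset α := (range (Nat.log 2 N + 1)).biUnion (fun i =>
      if M₀ ≤ 2 ^ (i + 1) ∧ 2 ^ (i + 1) ≤ 2 * N then S (2 ^ (i + 1)) else ∅) with hU
  have h1 : {a | ν a ≤ N ∧ M₀ ≤ ν a ∧ a ∈ S (2 ^ (Nat.log 2 (ν a) + 1))} ⊆ (U : Set α) := by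
    rintro a ⟨ha1, ha2, ha3⟩
    rw [Finset.mem_coe, hU, mem_biUnion]
    have hpos : ν a ≠ 0 := by omega
    have h2 : 2 ^ Nat.log 2 (ν a) ≤ ν a := Nat.pow_log_le_self 2 hpos
    have h3 : ν a < 2 ^ (Nat.log 2 (ν a) + 1) := Nat.lt_pow_succ_log_self (by norm_num) _
    refine ⟨Nat.log 2 (ν a), ?_, ?_⟩
    · rw [Finset.mem_range]
      have := Nat.log_mono_right (b := 2) ha1
      omega
    · have h4 : 2 ^ (Nat.log 2 (ν a) + 1) = 2 * 2 ^ Nat.log 2 (ν a) := by rw [pow_succ]; ring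
      rw [if_pos ⟨by omega, by omega⟩]
      exact ha3
  have h2 : {a | ν a ≤ N ∧ M₀ ≤ ν a ∧ a ∈ S (2 ^ (Nat.log 2 (ν a) + 1))}.ncard ≤ U.card := by
    rw [← Set.ncard_coe_finset]
    exact Set.ncard_le_ncard h1 U.finite_toSet
  have h3 : (U.card : ℝ) ≤ ∑ i ∈ range (Nat.log 2 N + 1),
      ((if M₀ ≤ 2 ^ (i + 1) ∧ 2 ^ (i + 1) ≤ 2 * N then S (2 ^ (i + 1)) else ∅ : Finset α).card : ℝ) := by
    rw [hU]
    exact_mod_cast card_biUnion_le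
  have h4 : ∀ i ∈ range (Nat.log 2 N + 1), ((if M₀ ≤ 2 ^ (i + 1) ∧ 2 ^ (i + 1) ≤ 2 * N then
        S (2 ^ (i + 1)) else ∅ : Finset α).card : ℝ) ≤ f (2 * N) := by
    intro i _
    split_ifs with hc
    · exact (h _ hc.1).trans (hf _ _ hc.2)
    · rw [card_empty, Nat.cast_zero]
      exact hf0 _
  calc ({a | ν a ≤ N ∧ M₀ ≤ ν a ∧ a ∈ S (2 ^ (Nat.log 2 (ν a) + 1))}.ncard : ℝ) ≤ U.card := by
        exact_mod_cast h2
    _ ≤ _ := h3
    _ ≤ ∑ i ∈ range (Nat.log 2 N + 1), f (2 * N) := sum_le_sum h4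
    _ = _ := by
        rw [sum_const, nsmul_eq_mul, card_range]
        push_cast
        rfl

/-- the exceptional elements -/
lemma glue_bad {α : Type*} (ν : α → ℕ) (hfin : ∀ N, {a | ν a ≤ N}.Finite) (S : ℕ → Finset α)
    (f : ℕ → ℝ) (hf : ∀ M M' : ℕ, M ≤ M' → f M ≤ f M') (hf0 : ∀ M, 0 ≤ f M) (M₀ : ℕ) (hM₀ : 1 ≤ M₀)
    (h : ∀ M : ℕ, M₀ ≤ M → ((S M).card : ℝ) ≤ f M) (Q : α → Prop)
    (hQ : ∀ a, M₀ ≤ ν a → Q a → a ∈ S (2 ^ (Nat.log 2 (ν a) + 1))) (N : ℕ) :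
    ({a | ν a ≤ N ∧ Q a}.ncard : ℝ) ≤ {a | ν a ≤ M₀}.ncard + (Nat.log 2 N + 1) * f (2 * N) := by
  have h1 : {a | ν a ≤ N ∧ Q a} ⊆ {a | ν a ≤ M₀} ∪
      {a | ν a ≤ N ∧ M₀ ≤ ν a ∧ a ∈ S (2 ^ (Nat.log 2 (ν a) + 1))} := by
    rintro a ⟨ha1, ha2⟩
    by_cases hM : ν a ≤ M₀
    · exact Or.inl hM
    · exact Or.inr ⟨ha1, by omega, hQ a (by omega) ha2⟩
  have h2 : {a | ν a ≤ N ∧ Q a}.ncard ≤ {a | ν a ≤ M₀}.ncard +
      {a | ν a ≤ N ∧ M₀ ≤ ν a ∧ a ∈ S (2 ^ (Nat.log 2 (ν a) + 1))}.ncard := by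
    refine (Set.ncard_le_ncard h1 ?_).trans (Set.ncard_union_le _ _)
    exact (hfin M₀).union ((hfin N).subset fun a ha => ha.1)
  have h3 := glue ν S f hf hf0 M₀ hM₀ h N
  have h4 : ({a | ν a ≤ N ∧ Q a}.ncard : ℝ) ≤ {a | ν a ≤ M₀}.ncard +
      ({a | ν a ≤ N ∧ M₀ ≤ ν a ∧ a ∈ S (2 ^ (Nat.log 2 (ν a) + 1))}.ncard : ℝ) := by
    exact_mod_cast h2
  linarith

lemma fin_int (N : ℕ) : {n : ℤ | n.natAbs ≤ N}.Finite := by
  apply (Finset.Icc (-(N : ℤ)) N).finite_toSet.subset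
  intro n hn
  have hn' : n.natAbs ≤ N := hn
  rw [Finset.mem_coe, Finset.mem_Icc]
  omega

lemma mono_log (A : ℕ) (M M' : ℕ) (h : M ≤ M') : (Real.log M) ^ A ≤ (Real.log M') ^ A := by
  apply pow_le_pow_left₀ (Real.log_natCast_nonneg _)
  rcases Nat.eq_zero_or_pos M with h0 | h0
  · rw [h0, Nat.cast_zero, Real.log_zero]
    exact Real.log_natCast_nonneg _
  · exact Real.log_le_log (by exact_mod_cast h0) (by exact_mod_cast h)

lemma mono_pow (θ : ℝ) (hθ : 0 ≤ θ) (M M' : ℕ) (h : M ≤ M') : (M : ℝ) ^ θ ≤ (M' : ℝ) ^ θ :=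
  Real.rpow_le_rpow (Nat.cast_nonneg _) (by exact_mod_cast h) hθ

lemma win_two {n : ℕ} (hn : n ≠ 0) : n ≤ 2 ^ (Nat.log 2 n + 1) ∧ 2 ^ (Nat.log 2 n + 1) ≤ 2 * n := by
  have h2 : 2 ^ Nat.log 2 n ≤ n := Nat.pow_log_le_self 2 hn
  have h3 : n < 2 ^ (Nat.log 2 n + 1) := Nat.lt_pow_succ_log_self (by norm_num) _
  refine ⟨h3.le, ?_⟩
  rw [pow_succ]
  omega

lemma log2_le : ∀ᶠ N : ℕ in atTop, ((Nat.log 2 N : ℕ) : ℝ) + 1 ≤ 3 * Real.log N := by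
  filter_upwards [log_tend.eventually_ge_atTop 1, eventually_ge_atTop 1] with N h1 hN
  have h2 : 2 ^ Nat.log 2 N ≤ N := Nat.pow_log_le_self 2 (by omega)
  have h3 : (2 : ℝ) ^ Nat.log 2 N ≤ N := by exact_mod_cast h2
  have h4 := Real.log_le_log (by positivity) h3
  rw [Real.log_pow] at h4
  have h5 : (1 : ℝ) / 2 < Real.log 2 := by
    have := Real.log_two_gt_d9
    linarith
  have h6 : (0 : ℝ) ≤ (Nat.log 2 N : ℕ) := Nat.cast_nonneg _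
  nlinarith

lemma log_2N {N : ℕ} (h : 1 ≤ Real.log N) (hN : 1 ≤ N) :
    Real.log ((2 * N : ℕ) : ℝ) ≤ 2 * Real.log N := by
  have hN0 : (0 : ℝ) < N := by exact_mod_cast hN
  push_cast
  rw [Real.log_mul (by norm_num) hN0.ne']
  have := Real.log_two_lt_d9
  linarith

lemma ev_polylog (C₀ : ℝ) (A : ℕ) : ∀ᶠ N : ℕ in atTop,
    C₀ + ((Nat.log 2 N : ℕ) + 1) * (Real.log ((2 * N : ℕ) : ℝ)) ^ A ≤ (Real.log N) ^ (A + 2) := by
  filter_upwards [log2_le, log_tend.eventually_ge_atTop (max 1 (|C₀| + 3 * 2 ^ A)),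
    eventually_ge_atTop 1] with N h1 h2 hN
  have hL1 : 1 ≤ Real.log N := (le_max_left _ _).trans h2
  have hL2 : |C₀| + 3 * 2 ^ A ≤ Real.log N := (le_max_right _ _).trans h2
  have h3 := log_2N hL1 hN
  have h4 : 0 ≤ Real.log ((2 * N : ℕ) : ℝ) := Real.log_natCast_nonneg _
  have h5 : (Real.log ((2 * N : ℕ) : ℝ)) ^ A ≤ 2 ^ A * (Real.log N) ^ A := by
    rw [← mul_pow]
    exact pow_le_pow_left₀ h4 h3 A
  have h6 : (1 : ℝ) ≤ (Real.log N) ^ (A + 1) := one_le_pow₀ hL1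
  have h7 : (0 : ℝ) ≤ |C₀| := abs_nonneg _
  calc C₀ + ((Nat.log 2 N : ℕ) + 1) * (Real.log ((2 * N : ℕ) : ℝ)) ^ A
      ≤ |C₀| * (Real.log N) ^ (A + 1) + (3 * Real.log N) * (2 ^ A * (Real.log N) ^ A) := by
        apply add_le_add
        · exact (le_abs_self _).trans (le_mul_of_one_le_right h7 h6)
        · exact mul_le_mul h1 h5 (by positivity) (by positivity)
    _ = (|C₀| + 3 * 2 ^ A) * (Real.log N) ^ (A + 1) := by rw [pow_succ]; ring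
    _ ≤ Real.log N * (Real.log N) ^ (A + 1) := mul_le_mul_of_nonneg_right hL2 (by positivity)
    _ = _ := by rw [pow_succ _ (A + 1)]; ring

lemma ev_npow (C₀ θ : ℝ) (hθ : 0 < θ) : ∀ᶠ N : ℕ in atTop,
    C₀ + ((Nat.log 2 N : ℕ) + 1) * ((2 * N : ℕ) : ℝ) ^ (θ / 2) ≤ (N : ℝ) ^ θ := by
  have e1 := ev_pow (|C₀| + 3 * 2 ^ (θ / 2)) 1 1 (θ / 2) (by positivity)
  filter_upwards [log2_le, log_tend.eventually_ge_atTop 1, e1, eventually_ge_atTop 1] with N h1 h2 h3 hN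
  have hN0 : (0 : ℝ) < N := by exact_mod_cast hN
  have hN1 : (1 : ℝ) ≤ N := by exact_mod_cast hN
  have h4 : (0 : ℝ) < (N : ℝ) ^ (θ / 2) := by positivity
  have h5 : (1 : ℝ) ≤ (N : ℝ) ^ (θ / 2) := Real.one_le_rpow hN1 (by positivity)
  have h6 : ((2 * N : ℕ) : ℝ) ^ (θ / 2) = 2 ^ (θ / 2) * (N : ℝ) ^ (θ / 2) := by
    push_cast
    rw [Real.mul_rpow (by norm_num) hN0.le]
  rw [h6]
  rw [one_mul, pow_one] at h3
  have h7 : (0 : ℝ) < 2 ^ (θ / 2) := by positivity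
  calc C₀ + ((Nat.log 2 N : ℕ) + 1) * (2 ^ (θ / 2) * (N : ℝ) ^ (θ / 2))
      ≤ |C₀| * (N : ℝ) ^ (θ / 2) + (3 * Real.log N) * (2 ^ (θ / 2) * (N : ℝ) ^ (θ / 2)) := by
        apply add_le_add
        · exact (le_abs_self _).trans (le_mul_of_one_le_right (abs_nonneg _) h5)
        · exact mul_le_mul_of_nonneg_right h1 (by positivity)
    _ = (|C₀| + 3 * 2 ^ (θ / 2) * Real.log N) * (N : ℝ) ^ (θ / 2) := by ring
    _ ≤ ((|C₀| + 3 * 2 ^ (θ / 2)) * (Real.log N + 1)) * (N : ℝ) ^ (θ / 2) := by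
        apply mul_le_mul_of_nonneg_right _ h4.le
        have : 0 ≤ |C₀| := abs_nonneg _
        nlinarith
    _ ≤ (N : ℝ) ^ (θ / 2) * (N : ℝ) ^ (θ / 2) := mul_le_mul_of_nonneg_right h3 h4.le
    _ = (N : ℝ) ^ θ := by
        rw [← Real.rpow_add hN0]
        congr 1
        ring

lemma sf_neg {n : ℤ} (h : Squarefree n) : Squarefree n.natAbs := Int.squarefree_natAbs.2 h

open Classical in
/-- few squarefree integers are in the classes -/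
lemma cls_few (N z : ℕ) (G : Finset ℤ) (hG : ∀ g ∈ G, g ≠ 0) :
    ((((Icc (-(N : ℤ)) N).filter (fun n : ℤ => Squarefree n ∧ ∃ g ∈ G, ∃ l : ℕ, l.Prime ∧ 3 ≤ l ∧
      l ≤ z ∧ ∃ y : ℚ, (n : ℚ) = g * y ^ l)).card : ℕ) : ℝ) ≤ 2 * (G.card * (z + 1)) := by
  set X := (Icc (-(N : ℤ)) N).filter (fun n : ℤ => Squarefree n ∧ ∃ g ∈ G, ∃ l : ℕ, l.Prime ∧ 3 ≤ l ∧
      l ≤ z ∧ ∃ y : ℚ, (n : ℚ) = g * y ^ l) with hX
  have hex : ∀ n : ℤ, ∃ gl : ℤ × ℕ, n ∈ X → (gl.1 ∈ G ∧ gl.2 ∈ range (z + 1) ∧ gl.2.Prime ∧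
      ∃ y : ℚ, (n : ℚ) = gl.1 * y ^ gl.2) := by
    intro n
    by_cases h : n ∈ X
    · obtain ⟨-, -, g, hg, l, hl, hl3, hlz, y, hy⟩ := mem_filter.1 h
      exact ⟨(g, l), fun _ => ⟨hg, Finset.mem_range.2 (by omega), hl, y, hy⟩⟩
    · exact ⟨(0, 0), fun h' => absurd h' h⟩
  choose f hf using hex
  have hcard : X.card ≤ ((univ : Finset Bool) ×ˢ (G ×ˢ range (z + 1))).card := by
    apply card_le_card_of_injOn (fun n => (decide (0 ≤ n), f n))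
    · intro n hn
      have h1 := hf n hn
      have h2 : (decide (0 ≤ n), f n) ∈ (univ : Finset Bool) ×ˢ (G ×ˢ range (z + 1)) := by
        rw [mem_product, mem_product]
        exact ⟨mem_univ _, h1.1, h1.2.1⟩
      exact h2
    · intro a ha b hb hab
      simp only [Prod.mk.injEq, decide_eq_decide] at hab
      obtain ⟨h1, h2, h3, y, hy⟩ := hf a ha
      obtain ⟨h1', h2', h3', y', hy'⟩ := hf b hb
      have ha' := (mem_filter.1 ha).2.1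
      have hb' := (mem_filter.1 hb).2.1
      rw [← hab.2] at hy'
      have hnl : ¬ (f a).2 ∣ 1 := fun h => h3.one_lt.ne' (Nat.dvd_one.1 h)
      by_cases hs : 0 ≤ a
      · have hs' : 0 ≤ b := hab.1.1 hs
        have e1 : a = (1 : ℤ) * ((a.natAbs : ℕ) : ℤ) ^ 1 := by
          rw [pow_one, one_mul]; omega
        have e2 : b = (1 : ℤ) * ((b.natAbs : ℕ) : ℤ) ^ 1 := by
          rw [pow_one, one_mul]; omega
        have h4 := class_uniq (sf_neg ha') (sf_neg hb') h3 hnl one_ne_zero (hG _ h1)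
          (by rw [← e1]; exact hy) (by rw [← e2]; exact hy')
        omega
      · have hs' : ¬ 0 ≤ b := fun h => hs (hab.1.2 h)
        have e1 : a = (-1 : ℤ) * ((a.natAbs : ℕ) : ℤ) ^ 1 := by
          rw [pow_one]; omega
        have e2 : b = (-1 : ℤ) * ((b.natAbs : ℕ) : ℤ) ^ 1 := by
          rw [pow_one]; omega
        have h4 := class_uniq (D := -1) (sf_neg ha') (sf_neg hb') h3 hnl (by norm_num) (hG _ h1)
          (by rw [← e1]; exact hy) (by rw [← e2]; exact hy')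
        omega
  rw [card_product, card_product, card_range, Finset.card_univ, Fintype.card_bool] at hcard
  exact_mod_cast hcard

open Classical in
/-- few integers have absolute value in `F` -/
lemma abs_few (F : Finset ℕ) (X : Finset ℤ) (h : ∀ n ∈ X, n.natAbs ∈ F) : (X.card : ℝ) ≤ 2 * F.card := by
  have hcard : X.card ≤ ((univ : Finset Bool) ×ˢ F).card := by
    apply card_le_card_of_injOn (fun n => (decide (0 ≤ n), n.natAbs))
    · intro n hn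
      have h2 : (decide (0 ≤ n), n.natAbs) ∈ (univ : Finset Bool) ×ˢ F := by
        rw [mem_product]
        exact ⟨mem_univ _, h n hn⟩
      exact h2
    · intro a ha b hb hab
      simp only [Prod.mk.injEq, decide_eq_decide] at hab
      by_cases hs : 0 ≤ a
      · have hs' : 0 ≤ b := hab.1.1 hs
        omega
      · have hs' : ¬ 0 ≤ b := fun h => hs (hab.1.2 h)
        omega
  rw [card_product, Finset.card_univ, Fintype.card_bool] at hcard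
  exact_mod_cast hcard

lemma half_pow {M : ℕ} (hM : 4 ≤ M) {a : ℕ} (ha : M ≤ 2 * a) {C1 : ℝ} (hC1 : 0 < C1) :
    (M : ℝ) ^ (C1 / 2) ≤ (a : ℝ) ^ C1 := by
  have h1 : (M : ℝ) ≤ (a : ℝ) ^ (2 : ℝ) := by
    rw [Real.rpow_two]
    have h2 : M ≤ a ^ 2 := by nlinarith
    exact_mod_cast h2
  calc (M : ℝ) ^ (C1 / 2) ≤ ((a : ℝ) ^ (2 : ℝ)) ^ (C1 / 2) :=
        Real.rpow_le_rpow (by positivity) h1 (by positivity)
    _ = (a : ℝ) ^ C1 := by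
        rw [← Real.rpow_mul (Nat.cast_nonneg _)]
        congr 1
        ring

/-- the class of squarefree integers of the problem -/
def Sq4 (n : ℤ) : Prop := Squarefree n ∧ n % 4 = 1 ∧ n ≠ 1

/-- the windows: squarefree integers -/
theorem t5w (θ ε C1 C2 : ℝ) (hθ : 0 < θ) (hε : 0 < ε) (hC1 : 0 < C1) (hC12 : C1 ≤ C2) :
    ∃ A M₀ : ℕ, 1 ≤ M₀ ∧ ∀ M : ℕ, M₀ ≤ M → ∃ S S' : Finset ℤ, (S.card : ℝ) ≤ (Real.log M) ^ A ∧
      (S'.card : ℝ) ≤ (M : ℝ) ^ (θ / 2) ∧ ∀ n : ℤ, Sq4 n → n.natAbs ≤ M → M ≤ 2 * n.natAbs →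
        ∀ x : ℕ, (n.natAbs : ℝ) ^ C1 ≤ x → (x : ℝ) ≤ (n.natAbs : ℝ) ^ C2 →
          (n ∉ S → ((Pp n x).card : ℝ) ≤ (dens n + ε) * Nat.primeCounting x) ∧
          (n ∉ S' → (dens n - ε) * Nat.primeCounting x ≤ ((Pp n x).card : ℝ)) := by
  classical
  have hC2 : 0 < C2 := by linarith
  obtain ⟨z, A, h⟩ := t5 (θ / 4) ε (C1 / 2) C2 (by positivity) hε (by positivity) (by linarith)
  have e2 := ev_pow 2 1 (A + 1) (θ / 4) (by positivity)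
  obtain ⟨M₁, hM₁⟩ := eventually_atTop.1 ((h 0).and (e2.and (log_tend.eventually_ge_atTop
    (max 1 (2 * z + 4 : ℝ)))))
  refine ⟨A + 1, max M₁ 4, by omega, fun M hM => ?_⟩
  obtain ⟨⟨E, F, G, hE, hF, -, hG, hG0, hmain⟩, g2, g3⟩ := hM₁ M ((le_max_left _ _).trans hM)
  have hM4 : 4 ≤ M := (le_max_right _ _).trans hM
  have hM0 : (0 : ℝ) < M := by exact_mod_cast (by omega : 0 < M)
  have hL1 : 1 ≤ Real.log M := (le_max_left _ _).trans g3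
  have hLz : (2 * z + 4 : ℝ) ≤ Real.log M := (le_max_right _ _).trans g3
  set X1 := (Icc (-(M : ℤ)) M).filter (fun n : ℤ => n.natAbs ∈ F) with hX1
  set X2 := (Icc (-(M : ℤ)) M).filter (fun n : ℤ => Squarefree n ∧ ∃ g ∈ G, ∃ l : ℕ, l.Prime ∧ 3 ≤ l ∧
      l ≤ z ∧ ∃ y : ℚ, (n : ℚ) = g * y ^ l) with hX2
  have hX1c := abs_few F X1 (fun n hn => (mem_filter.1 hn).2)
  have hX2c : (X2.card : ℝ) ≤ 2 * (G.card * (z + 1)) := by
    refine le_trans (le_of_eq ?_) (cls_few M z G hG0)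
    rw [hX2]
  have hXc : (X1.card : ℝ) + X2.card ≤ (Real.log M) ^ (A + 1) := by
    have h1 : (0 : ℝ) ≤ (z : ℝ) + 1 := by positivity
    calc (X1.card : ℝ) + X2.card ≤ 2 * (Real.log M) ^ A + 2 * ((Real.log M) ^ A * (z + 1)) := by
          apply add_le_add
          · exact hX1c.trans (mul_le_mul_of_nonneg_left hF (by norm_num))
          · refine hX2c.trans (mul_le_mul_of_nonneg_left ?_ (by norm_num))
            exact mul_le_mul_of_nonneg_right hG h1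
      _ = (2 * z + 4) * (Real.log M) ^ A := by ring
      _ ≤ Real.log M * (Real.log M) ^ A := mul_le_mul_of_nonneg_right hLz (by positivity)
      _ = _ := by rw [pow_succ]; ring
  have hcu : ((X1 ∪ X2).card : ℝ) ≤ (Real.log M) ^ (A + 1) := by
    refine le_trans ?_ hXc
    exact_mod_cast card_union_le _ _
  refine ⟨X1 ∪ X2, (X1 ∪ X2) ∪ E, hcu, ?_, ?_⟩
  · have h2 : ((((X1 ∪ X2) ∪ E).card : ℕ) : ℝ) ≤ (X1 ∪ X2).card + E.card := by
      exact_mod_cast card_union_le _ _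
    refine h2.trans ?_
    have h4 : (1 : ℝ) ≤ (M : ℝ) ^ (θ / 4) := Real.one_le_rpow (by exact_mod_cast (by omega : 1 ≤ M))
      (by positivity)
    have h5 : 2 * (Real.log M) ^ (A + 1) ≤ (M : ℝ) ^ (θ / 4) := by
      refine le_trans ?_ g2
      apply mul_le_mul_of_nonneg_left _ (by norm_num)
      apply pow_le_pow_left₀ (by linarith)
      linarith
    have h6 : (2 : ℝ) ≤ (M : ℝ) ^ (θ / 4) := by
      have : (1 : ℝ) ≤ (Real.log M) ^ (A + 1) := one_le_pow₀ hL1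
      linarith
    have h7 : (M : ℝ) ^ (θ / 2) = (M : ℝ) ^ (θ / 4) * (M : ℝ) ^ (θ / 4) := by
      rw [← Real.rpow_add hM0]
      congr 1
      ring
    rw [h7]
    nlinarith
  · intro n hs hnM hMn x hx1 hx2
    have hn : n ∈ Icc (-(M : ℤ)) M := by
      rw [mem_Icc]
      omega
    have hkey : n ∉ X1 ∪ X2 → ((Pp n x).card : ℝ) ≤ (dens n + ε) * Nat.primeCounting x ∧
            (n ∉ E → (dens n - ε) * Nat.primeCounting x ≤ ((Pp n x).card : ℝ)) := by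
      intro h12
      rw [mem_union, not_or] at h12
      obtain ⟨hs1, hs2, hs3⟩ := hs
      refine hmain n n 1 (by ring) hs1.ne_zero hnM hs1 hs2 hs3 ?_ ?_ x
        ((half_pow hM4 hMn hC1).trans hx1) (hx2.trans ?_)
      · intro h3
        exact h12.1 (mem_filter.2 ⟨hn, h3⟩)
      · intro g hg l hl hl3 hlz y hy
        exact h12.2 (mem_filter.2 ⟨hn, hs1, g, hg, l, hl, hl3, hlz, y, hy⟩)
      · exact Real.rpow_le_rpow (Nat.cast_nonneg _) (by exact_mod_cast hnM) hC2.le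
    refine ⟨fun h => (hkey h).1, fun h => ?_⟩
    rw [mem_union, not_or] at h
    exact (hkey h.1).2 h.2

/-- the upper bound fails -/
def QU (ε C1 C2 : ℝ) (n : ℤ) : Prop := Sq4 n ∧
  ∃ x : ℕ, (n.natAbs : ℝ) ^ C1 ≤ x ∧ (x : ℝ) ≤ (n.natAbs : ℝ) ^ C2 ∧
    (dens n + ε) * Nat.primeCounting x < ((Pp n x).card : ℝ)

/-- the lower bound fails -/
def QL (ε C1 C2 : ℝ) (n : ℤ) : Prop := Sq4 n ∧
  ∃ x : ℕ, (n.natAbs : ℝ) ^ C1 ≤ x ∧ (x : ℝ) ≤ (n.natAbs : ℝ) ^ C2 ∧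
    ((Pp n x).card : ℝ) < (dens n - ε) * Nat.primeCounting x

/-- **squarefree integers** -/
theorem t5a (ε C1 C2 : ℝ) (hε : 0 < ε) (hC1 : 0 < C1) (hC12 : C1 ≤ C2) :
    (∃ A N₀ : ℕ, ∀ N : ℕ, N₀ ≤ N → ({n : ℤ | n.natAbs ≤ N ∧ QU ε C1 C2 n}.ncard : ℝ) ≤
        (Real.log N) ^ A) ∧
    ∀ θ : ℝ, 0 < θ → ∃ N₀ : ℕ, ∀ N : ℕ, N₀ ≤ N →
      ({n : ℤ | n.natAbs ≤ N ∧ QL ε C1 C2 n}.ncard : ℝ) ≤ (N : ℝ) ^ θ := by
  constructor
  · obtain ⟨A, M₀, hM₀, h⟩ := t5w 1 ε C1 C2 one_pos hε hC1 hC12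
    have hch : ∀ M : ℕ, ∃ S : Finset ℤ, M₀ ≤ M → ((S.card : ℝ) ≤ (Real.log M) ^ A ∧
        ∀ n : ℤ, Sq4 n → n.natAbs ≤ M → M ≤ 2 * n.natAbs →
        ∀ x : ℕ, (n.natAbs : ℝ) ^ C1 ≤ x → (x : ℝ) ≤ (n.natAbs : ℝ) ^ C2 →
          (n ∉ S → ((Pp n x).card : ℝ) ≤ (dens n + ε) * Nat.primeCounting x)) := by
      intro M
      by_cases hM : M₀ ≤ M
      · obtain ⟨S, S', h1, h2, h3⟩ := h M hM
        exact ⟨S, fun _ => ⟨h1, fun n hn1 hn2 hn3 x hx1 hx2 => (h3 n hn1 hn2 hn3 x hx1 hx2).1⟩⟩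
      · exact ⟨∅, fun h' => absurd h' hM⟩
    choose S hS using hch
    have e1 := ev_polylog ({n : ℤ | n.natAbs ≤ M₀}.ncard : ℝ) A
    obtain ⟨N₀, hN₀⟩ := eventually_atTop.1 e1
    refine ⟨A + 2, N₀, fun N hN => ?_⟩
    have h1 := glue_bad (fun n : ℤ => n.natAbs) fin_int S (fun M => (Real.log M) ^ A) (mono_log A)
      (fun M => pow_nonneg (Real.log_natCast_nonneg _) _) M₀ hM₀ (fun M hM => (hS M hM).1)
      (QU ε C1 C2) (by
        intro n hn hQ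
        obtain ⟨hs, x, hx1, hx2, hx3⟩ := hQ
        have hw := win_two (n := n.natAbs) (by omega)
        by_contra hcon
        have h5 := (hS _ (hn.trans hw.1)).2 n hs hw.1 hw.2 x hx1 hx2 hcon
        linarith) N
    exact h1.trans (hN₀ N hN)
  · intro θ hθ
    obtain ⟨A, M₀, hM₀, h⟩ := t5w θ ε C1 C2 hθ hε hC1 hC12
    have hch : ∀ M : ℕ, ∃ S : Finset ℤ, M₀ ≤ M → ((S.card : ℝ) ≤ (M : ℝ) ^ (θ / 2) ∧
        ∀ n : ℤ, Sq4 n → n.natAbs ≤ M → M ≤ 2 * n.natAbs →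
        ∀ x : ℕ, (n.natAbs : ℝ) ^ C1 ≤ x → (x : ℝ) ≤ (n.natAbs : ℝ) ^ C2 →
          (n ∉ S → (dens n - ε) * Nat.primeCounting x ≤ ((Pp n x).card : ℝ))) := by
      intro M
      by_cases hM : M₀ ≤ M
      · obtain ⟨S, S', h1, h2, h3⟩ := h M hM
        exact ⟨S', fun _ => ⟨h2, fun n hn1 hn2 hn3 x hx1 hx2 => (h3 n hn1 hn2 hn3 x hx1 hx2).2⟩⟩
      · exact ⟨∅, fun h' => absurd h' hM⟩
    choose S hS using hch
    have e1 := ev_npow ({n : ℤ | n.natAbs ≤ M₀}.ncard : ℝ) θ hθ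
    obtain ⟨N₀, hN₀⟩ := eventually_atTop.1 e1
    refine ⟨N₀, fun N hN => ?_⟩
    have h1 := glue_bad (fun n : ℤ => n.natAbs) fin_int S (fun M => (M : ℝ) ^ (θ / 2))
      (mono_pow (θ / 2) (by positivity))
      (fun M => Real.rpow_nonneg (Nat.cast_nonneg _) _) M₀ hM₀ (fun M hM => (hS M hM).1)
      (QL ε C1 C2) (by
        intro n hn hQ
        obtain ⟨hs, x, hx1, hx2, hx3⟩ := hQ
        have hw := win_two (n := n.natAbs) (by omega)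
        by_contra hcon
        have h5 := (hS _ (hn.trans hw.1)).2 n hs hw.1 hw.2 x hx1 hx2 hcon
        linarith) N
    exact h1.trans (hN₀ N hN)

lemma fin_nat (N : ℕ) : {n : ℕ | n ≤ N}.Finite := Set.finite_le_nat N

/-- **Lenstra's density, `x` between powers of `n`** -/
theorem len_rel (θ ε C1 C2 : ℝ) (hθ : 0 < θ) (hε : 0 < ε) (hC1 : 0 < C1) (hC12 : C1 ≤ C2)
    (D : ℤ) (hD : D ≠ 0) (r : ℕ) (hr : r ≠ 0) :
    ∃ E : Set ℕ, (∃ N₀ : ℕ, ∀ N : ℕ, N₀ ≤ N → ({n : ℕ | n ≤ N ∧ n ∈ E}.ncard : ℝ) ≤ (N : ℝ) ^ θ) ∧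
      ∀ (F : IntermediateField ℚ QA) [NumberField F] [IsGalois ℚ F] (C : Set Gal(F/ℚ))
        (W0 : Subgroup ℚˣ) (k : ℕ), (∀ τ ∈ C, ∀ ρ : Gal(F/ℚ), ρ * τ * ρ⁻¹ ∈ C) → W0.FG → k ≠ 0 →
        (∀ l : ℕ, l.Prime → l ∣ k * r → ql k l ∣ r) →
        ∃ (A N₀ : ℕ) (X : Set ℕ), (∀ N : ℕ, N₀ ≤ N →
            ({n : ℕ | n ≤ N ∧ n ∈ X}.ncard : ℝ) ≤ (Real.log N) ^ A) ∧
          ∀ n : ℕ, Squarefree n → n ∉ X → ∀ x : ℕ, (n : ℝ) ^ C1 ≤ x → (x : ℝ) ≤ (n : ℝ) ^ C2 →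
            (Sc F C (W0 ⊔ Subgroup.zpowers (DR (Du D hD) r n)) k x : ℝ) ≤
              ((∑' e : ℕ, tW F C (W0 ⊔ Subgroup.zpowers (DR (Du D hD) r n)) k e) + ε) *
                  Nat.primeCounting x ∧
            (n ∉ E → ((∑' e : ℕ, tW F C (W0 ⊔ Subgroup.zpowers (DR (Du D hD) r n)) k e) - ε) *
                  Nat.primeCounting x ≤
                (Sc F C (W0 ⊔ Subgroup.zpowers (DR (Du D hD) r n)) k x : ℝ)) := by
  have hC2 : 0 < C2 := by linarith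
  obtain ⟨E, hE, hmain⟩ := len_fin5 (θ / 2) ε (C1 / 2) C2 (by positivity) hε (by positivity)
    (by linarith) D hD r hr
  refine ⟨{n | n ∈ E (2 ^ (Nat.log 2 n + 1))}, ?_, ?_⟩
  · have e1 := ev_npow ({n : ℕ | n ≤ 1}.ncard : ℝ) θ hθ
    obtain ⟨N₀, hN₀⟩ := eventually_atTop.1 e1
    refine ⟨N₀, fun N hN => ?_⟩
    have h1 := glue_bad (fun n : ℕ => n) fin_nat E (fun M => (M : ℝ) ^ (θ / 2))
      (mono_pow (θ / 2) (by positivity)) (fun M => Real.rpow_nonneg (Nat.cast_nonneg _) _) 1 le_rfl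
      (fun M _ => hE M) (fun n => n ∈ {n | n ∈ E (2 ^ (Nat.log 2 n + 1))}) (fun n _ h => h) N
    exact h1.trans (hN₀ N hN)
  · intro F _ _ C W0 k hC hW0 hk hkr
    obtain ⟨A, N₁, h⟩ := hmain F C W0 k hC hW0 hk hkr
    choose! S hS1 hS2 using h
    have e1 := ev_polylog ({n : ℕ | n ≤ max N₁ 4}.ncard : ℝ) A
    obtain ⟨N₀, hN₀⟩ := eventually_atTop.1 e1
    refine ⟨A + 2, N₀, {n | n < max N₁ 4 ∨ n ∈ S (2 ^ (Nat.log 2 n + 1))}, fun N hN => ?_, ?_⟩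
    · have h1 := glue_bad (fun n : ℕ => n) fin_nat S (fun M => (Real.log M) ^ A)
        (mono_log A) (fun M => pow_nonneg (Real.log_natCast_nonneg _) _) (max N₁ 4) (by omega)
        (fun M hM => hS1 M ((le_max_left _ _).trans hM))
        (fun n => n ∈ {n | n < max N₁ 4 ∨ n ∈ S (2 ^ (Nat.log 2 n + 1))}) (fun n hn h => by
          rcases h with h | h
          · omega
          · exact h) N
      exact h1.trans (hN₀ N hN)
    · intro n hsq hnX x hx1 hx2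
      rw [Set.mem_ofPred_eq, not_or, not_lt] at hnX
      have hn4 : 4 ≤ n := (le_max_right _ _).trans hnX.1
      have hnN : N₁ ≤ n := (le_max_left _ _).trans hnX.1
      have hw := win_two (n := n) (by omega)
      exact hS2 _ (hnN.trans hw.1) n hw.1 hsq hnX.2 x
        ((half_pow (hn4.trans hw.1) hw.2 hC1).trans hx1)
        (hx2.trans (Real.rpow_le_rpow (Nat.cast_nonneg _) (by exact_mod_cast hw.1) hC2.le))

end Pool.Agent.KS6_18
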