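import Mathlib
import Pool.Agent.KS6_18.Avg

set_option autoImplicit false

/-! Primitive roots modulo the sifted primes: very few exceptional integers. -/

namespace Pool.Agent.KS6_18

open Finset Filter
open Pool.Agent.Y855
open Pool.Agent.N430.LK (TT_prime TT_le jac_sum few_biased dl_half dl_third BadP)

/-- the trivial coset -/
def one : ℕ → (p : ℕ) → ZMod p := fun _ _ => 1

open Classical in
/-- the bad primes of the window -/
noncomputable def SB (N z : ℕ) (C1 C2 : ℝ) (n : ℤ) : Finset ℕ :=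
  (WW N C1 C2).filter (fun p => Bd one (Nat.log 2 z) p n)

lemma BadP_card (N z : ℕ) (C0 C2 : ℝ) (hz : 1 ≤ z) (n : ℤ) (x : ℕ) (hx : (x : ℝ) ≤ (N : ℝ) ^ C2) :
    ((BadP n x z).card : ℝ) ≤ (N : ℝ) ^ C0 + (((SB N z C0 C2 n).filter (fun p => p ≤ x)).card : ℝ) := by
  classical
  have h1 : BadP n x z ⊆ Icc 1 ⌊(N : ℝ) ^ C0⌋₊ ∪ (SB N z C0 C2 n).filter (fun p => p ≤ x) := by
    intro p hp
    unfold BadP at hp
    rw [mem_filter] at hp
    obtain ⟨hpT, -, l, hl, hl3, hlp, hln⟩ := hp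
    have hpp := TT_prime hpT
    have hpx := TT_le hpT
    rw [mem_union]
    by_cases h : (p : ℝ) ≤ (N : ℝ) ^ C0
    · left
      rw [mem_Icc]
      exact ⟨hpp.one_le, Nat.le_floor h⟩
    · right
      rw [mem_filter]
      refine ⟨?_, hpx⟩
      unfold SB
      rw [mem_filter, mem_WW]
      refine ⟨⟨hpp, (not_le.1 h).le, ?_⟩, l, hl, hlp, ?_, hln⟩
      · exact le_trans (by exact_mod_cast hpx) hx
      · have hzl : z < l := by
          by_contra hcon
          unfold TT at hpT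
          exact (mem_filter.1 hpT).2.2 l (mem_OP.2 ⟨hl, hl3, by omega⟩) hlp
        exact (Nat.pow_log_le_self 2 (by omega)).trans hzl.le
  have h2 := (card_le_card h1).trans (card_union_le _ _)
  rw [Nat.card_Icc, Nat.add_sub_cancel] at h2
  have h3 : ((⌊(N : ℝ) ^ C0⌋₊ : ℕ) : ℝ) ≤ (N : ℝ) ^ C0 := Nat.floor_le (by positivity)
  have h4 : ((BadP n x z).card : ℝ) ≤ ((⌊(N : ℝ) ^ C0⌋₊ : ℕ) : ℝ) +
      (((SB N z C0 C2 n).filter (fun p => p ≤ x)).card : ℝ) := by exact_mod_cast h2
  linarith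

/-- the goodness of `x` -/
def Good (ε : ℝ) (n D : ℤ) (x z : ℕ) : Prop :=
  |((PR n x z).card : ℝ) - dl D.natAbs * (TT x z).card| ≤ ε * (TT x z).card

open Classical in
theorem t1 (θ ε C1 C2 : ℝ) (hθ : 0 < θ) (hε : 0 < ε) (hC1 : 0 < C1) (hC12 : C1 ≤ C2) :
    ∃ K : ℝ, 1 ≤ K ∧ ∃ z₀ A : ℕ, 2 ≤ z₀ ∧ ∀ B : ℕ, ∀ᶠ N : ℕ in atTop, ∀ z : ℕ, z₀ ≤ z →
      (z : ℝ) ^ K ≤ (N : ℝ) ^ C1 →
      (∀ x ∈ WX N C1 C2, (x : ℝ) / (K * (Real.log x * Real.log z)) ≤ ((TT x z).card : ℝ)) ∧
      ∃ (E : Finset ℤ) (F : Finset ℕ), (E.card : ℝ) ≤ (N : ℝ) ^ θ ∧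
        (F.card : ℝ) ≤ (Real.log N) ^ A ∧ (∀ b ∈ F, (Real.log N) ^ B < b) ∧
        ∀ n D m : ℤ, n = D * m ^ 2 → n ≠ 0 → n.natAbs ≤ N → Squarefree D → D % 4 = 1 → n ∉ E →
          D.natAbs ∉ F →
          ∑ x ∈ (WX N C1 C2).filter (fun x => ¬ Good ε n D x z), 1 / (x : ℝ) ≤
            ε * Real.log N := by
  have hC2 : 0 < C2 := lt_of_lt_of_le hC1 hC12
  obtain ⟨K, hK1, zK, hzK2, hsmall⟩ := small_m (ε / 8) (by positivity)
  have hK0 : 0 < K := by linarith
  obtain ⟨Cw, hCw, Nw, hwin⟩ := win_exc θ (C1 / 2) C2 hθ (by positivity) (by linarith)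
  obtain ⟨M₀, hM₀⟩ := dl_half (ε / 8) (by positivity)
  obtain ⟨r, hr⟩ : ∃ r : ℕ, 2 / C1 ≤ r := exists_nat_ge _
  have hr0 : (0 : ℝ) < r := lt_of_lt_of_le (by positivity) hr
  have hr1 : 1 ≤ r := by exact_mod_cast hr0
  have hrC : 2 ≤ C1 * r := by
    rw [div_le_iff₀ hC1] at hr
    linarith
  obtain ⟨Q, hQ⟩ : ∃ Q : ℝ, Q = 24 * K * C2 * Cw / ε ^ 2 := ⟨_, rfl⟩
  obtain ⟨J, hJ⟩ : ∃ J : ℕ, Q ≤ J := exists_nat_ge _
  -- the exponent of the logarithm
  obtain ⟨A, hA⟩ : ∃ A : ℕ, A = 2 * r + 2 := ⟨_, rfl⟩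
  refine ⟨K, hK1, max zK (2 ^ J), A, hzK2.trans (le_max_left _ _), fun B₀ => ?_⟩
  obtain ⟨B, hB⟩ : ∃ B : ℕ, B = max B₀ 1 := ⟨_, rfl⟩
  have hB1 : 1 ≤ B := by rw [hB]; exact le_max_right _ _
  obtain ⟨X₀, hX₀⟩ := eventually_atTop.1 (hsmall (B + 1))
  -- eventual facts
  have e1 : ∀ᶠ N : ℕ in atTop, (X₀ : ℝ) ≤ (N : ℝ) ^ C1 :=
    ((tendsto_rpow_atTop hC1).comp tendsto_natCast_atTop_atTop).eventually_ge_atTop _
  obtain ⟨MM, hMM⟩ : ∃ MM : ℝ, MM = 12 * (r / (ε / 8) ^ 2 * (K * C2 ^ 2)) ^ r := ⟨_, rfl⟩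
  have hMM0 : 0 ≤ MM := by rw [hMM]; positivity
  have e2 := log_tend.eventually_ge_atTop (max (max 1 M₀) (max (1 / C1 ^ (B + 1))
    (MM * (3 * (C2 + 1) / ε))))
  have e3 := ev_pow (40 / ε * K * C2 ^ 2) 1 4 (C1 / 2) (by positivity)
  filter_upwards [e1, e2, e3, eventually_ge_atTop (max Nw 3)] with N f1 f2 f3 f4 z hz hzK
  have hN3 : 3 ≤ N := (le_max_right _ _).trans f4
  have hNw : Nw ≤ N := (le_max_left _ _).trans f4
  have hN3r : (3 : ℝ) ≤ N := by exact_mod_cast hN3
  have hN0 : (0 : ℝ) < N := by linarith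
  have hN1 : (1 : ℝ) ≤ N := by linarith
  obtain ⟨L, hL⟩ : ∃ L : ℝ, L = Real.log (N : ℝ) := ⟨_, rfl⟩
  rw [← hL] at f2 f3 ⊢
  have hL1 : 1 ≤ L := ((le_max_left _ _).trans (le_max_left _ _)).trans f2
  have hLM : (M₀ : ℝ) ≤ L := ((le_max_right _ _).trans (le_max_left _ _)).trans f2
  have hLC : 1 / C1 ^ (B + 1) ≤ L := ((le_max_left _ _).trans (le_max_right _ _)).trans f2
  have hLMM : MM * (3 * (C2 + 1) / ε) ≤ L := ((le_max_right _ _).trans (le_max_right _ _)).trans f2
  have hL0 : 0 < L := by linarith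
  have hzK' : zK ≤ z := (le_max_left _ _).trans hz
  have hzJ : 2 ^ J ≤ z := (le_max_right _ _).trans hz
  have hz2 : 2 ≤ z := hzK2.trans hzK'
  have hz2r : (2 : ℝ) ≤ z := by exact_mod_cast hz2
  obtain ⟨ℓ, hℓ⟩ : ∃ ℓ : ℝ, ℓ = Real.log z := ⟨_, rfl⟩
  have hℓ0 : 0 < ℓ := by rw [hℓ]; exact Real.log_pos (by linarith)
  have hℓL : ℓ ≤ C1 * L := by
    have h1 := Real.log_le_log (by positivity) hzK
    rw [Real.log_rpow (by linarith), Real.log_rpow hN0, ← hL, ← hℓ] at h1
    have : ℓ ≤ K * ℓ := le_mul_of_one_le_left hℓ0.le hK1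
    linarith
  -- facts for `x` in the window
  have hwx : ∀ x ∈ WX N C1 C2, X₀ ≤ x ∧ (z : ℝ) ^ K ≤ x ∧ C1 * L ≤ Real.log x ∧
      Real.log x ≤ C2 * L ∧ (0 : ℝ) < x := by
    intro x hx
    obtain ⟨h1, h2⟩ := mem_WX.1 hx
    have hx0 : (0 : ℝ) < x := lt_of_lt_of_le (by positivity) h1
    refine ⟨by exact_mod_cast f1.trans h1, hzK.trans h1, ?_, ?_, hx0⟩
    · have := Real.log_le_log (by positivity) h1
      rwa [Real.log_rpow hN0, ← hL] at this
    · have := Real.log_le_log hx0 h2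
      rwa [Real.log_rpow hN0, ← hL] at this
  refine ⟨?_, ?_⟩
  · intro x hx
    obtain ⟨h1, h2, -, -, -⟩ := hwx x hx
    exact (hX₀ x h1 z hzK' h2).2.1
  refine ⟨(ZN N).filter (fun n => Cw / ((Nat.log 2 z : ℕ) + 1 : ℝ) ^ 2 <
    ∑ p ∈ (WW N (C1 / 2) C2).filter (fun p => Bd one (Nat.log 2 z) p n), 1 / (p : ℝ)),
    BB (ε / 8) (ε / 3) N z C1 C2 (L ^ B), ?_, ?_, ?_, ?_⟩
  · exact hwin N hNw one (Nat.log 2 z)
  · -- the number of the biased moduli
    have h1 : ∀ x ∈ WX N C1 C2, ((BX (ε / 8) x z N).card : ℝ) ≤ MM * L ^ (2 * r) := by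
      intro x hx
      obtain ⟨hxX, hxz, hx1, hx2, hx0⟩ := hwx x hx
      obtain ⟨h2, h3, -⟩ := hX₀ x hxX z hzK' hxz
      have hlx : 0 < Real.log x := lt_of_lt_of_le (by positivity) hx1
      have h4 : (x : ℝ) ≤ (K * C2 ^ 2 * L ^ 2) * (TT x z).card := by
        rw [div_le_iff₀ (by rw [← hℓ]; positivity), ← hℓ] at h3
        refine h3.trans ?_
        rw [mul_comm]
        apply mul_le_mul_of_nonneg_right _ h2.le
        have h5 : Real.log x * ℓ ≤ (C2 * L) * (C2 * L) := by
          apply mul_le_mul hx2 _ hℓ0.le (by positivity)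
          refine hℓL.trans ?_
          exact mul_le_mul_of_nonneg_right hC12 hL0.le
        calc K * (Real.log x * ℓ) ≤ K * ((C2 * L) * (C2 * L)) :=
              mul_le_mul_of_nonneg_left h5 hK0.le
          _ = K * C2 ^ 2 * L ^ 2 := by ring
      have h5 : (N : ℝ) ^ 2 ≤ (x : ℝ) ^ r := by
        calc (N : ℝ) ^ 2 = (N : ℝ) ^ (2 : ℝ) := (Real.rpow_two _).symm
          _ ≤ (N : ℝ) ^ (C1 * r) := Real.rpow_le_rpow_of_exponent_le hN1 hrC
          _ = ((N : ℝ) ^ C1) ^ r := by rw [Real.rpow_mul hN0.le, Real.rpow_natCast]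
          _ ≤ (x : ℝ) ^ r := pow_le_pow_left₀ (by positivity) (mem_WX.1 hx).1 r
      have h6 := BX_card (ε / 8) (by positivity) r x z N hr1 h5 _ h4 h2
      refine h6.trans (le_of_eq ?_)
      rw [hMM]
      have e' : (r : ℝ) / (ε / 8) ^ 2 * (K * C2 ^ 2 * L ^ 2) =
          (r / (ε / 8) ^ 2 * (K * C2 ^ 2)) * L ^ 2 := by ring
      rw [e', mul_pow (_ * _) (L ^ 2) r, ← pow_mul]
      ring
    have h2 := BB_card (ε / 8) (ε / 3) (by positivity) N z C1 C2 (L ^ B) (by omega)
      (by rw [← hL]; exact hL0) hC2.le (MM * L ^ (2 * r)) (by positivity) h1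
    rw [← hL] at h2
    have h3 : ((BB (ε / 8) (ε / 3) N z C1 C2 (L ^ B)).card : ℝ) * (ε / 3 * L) ≤
        L ^ A * (ε / 3 * L) := by
      refine h2.trans ?_
      have h4 : C2 * L + 1 ≤ (C2 + 1) * L := by linarith
      calc MM * L ^ (2 * r) * (C2 * L + 1) ≤ MM * L ^ (2 * r) * ((C2 + 1) * L) :=
            mul_le_mul_of_nonneg_left h4 (by positivity)
        _ = (MM * (3 * (C2 + 1) / ε)) * L ^ (2 * r) * (ε / 3 * L) := by
            field_simp
        _ ≤ L * L ^ (2 * r) * (ε / 3 * L) := by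
            apply mul_le_mul_of_nonneg_right _ (by positivity)
            exact mul_le_mul_of_nonneg_right hLMM (by positivity)
        _ = L ^ (2 * r + 1) * (ε / 3 * L) := by ring
        _ ≤ L ^ A * (ε / 3 * L) := by
            apply mul_le_mul_of_nonneg_right _ (by positivity)
            exact pow_le_pow_right₀ hL1 (by omega)
    exact le_of_mul_le_mul_right h3 (by positivity)
  · intro b hb
    unfold BB at hb
    have h1 := (mem_filter.1 hb).2.1
    refine lt_of_le_of_lt ?_ h1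
    exact pow_le_pow_right₀ hL1 (by rw [hB]; exact le_max_left _ _)
  · intro n D m hn hn0 hnN hD hD4 hnE hDF
    have hodd : Odd D.natAbs := by rw [Nat.odd_iff]; omega
    have hsf : Squarefree D.natAbs := Int.squarefree_natAbs.2 hD
    have hDN : D.natAbs ≤ N := by
      refine le_trans ?_ hnN
      apply Nat.le_of_dvd (Int.natAbs_pos.2 hn0)
      exact Int.natAbs_dvd_natAbs.2 ⟨m ^ 2, hn⟩
    have hD1 : 1 ≤ D.natAbs := Nat.pos_of_ne_zero hsf.ne_zero
    set S := SB N z (C1 / 2) C2 n with hS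
    have hSsum : ∑ p ∈ S, 1 / (p : ℝ) ≤ Cw / ((Nat.log 2 z : ℕ) + 1 : ℝ) ^ 2 := by
      by_contra hcon
      apply hnE
      rw [mem_filter, mem_ZN]
      exact ⟨⟨hn0, hnN⟩, not_le.1 hcon⟩
    obtain ⟨τ, hτ⟩ : ∃ τ : ℝ, τ = ε / (4 * K * (C2 * L) * ℓ) := ⟨_, rfl⟩
    have hτ0 : 0 < τ := by rw [hτ]; positivity
    have havg := avg S (WX N C1 C2) (fun p hp => by
      rw [hS] at hp
      unfold SB at hp
      exact (mem_WW.1 (mem_filter.1 hp).1).1.two_le) (fun x hx => WX_pos (by omega) hx) τ hτ0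
    -- the first exceptional set
    have hsub : (WX N C1 C2).filter (fun x => ¬ Good ε n D x z) ⊆
        (WX N C1 C2).filter (fun x : ℕ => τ * x ≤ ((S.filter (fun p => p ≤ x)).card : ℝ)) ∪
        (if L ^ B < D.natAbs then (WX N C1 C2).filter (fun x => D.natAbs ∈ BX (ε / 8) x z N)
          else ∅) := by
      intro x hx
      rw [mem_filter] at hx
      obtain ⟨hxW, hbad⟩ := hx
      rw [mem_union, mem_filter]
      by_contra hcon
      rw [not_or] at hcon
      obtain ⟨hc1, hc2⟩ := hcon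
      apply hbad
      obtain ⟨hxX, hxz, hx1, hx2, hx0⟩ := hwx x hxW
      obtain ⟨ht0, ht1, htm⟩ := hX₀ x hxX z hzK' hxz
      have hlx : 0 < Real.log x := lt_of_lt_of_le (by positivity) hx1
      obtain ⟨t, ht⟩ : ∃ t : ℝ, t = ((TT x z).card : ℝ) := ⟨_, rfl⟩
      rw [← ht] at ht0 ht1 htm
      rw [← hℓ] at ht1
      have hxt : x / (K * (C2 * L) * ℓ) ≤ t := by
        refine le_trans ?_ ht1
        apply div_le_div_of_nonneg_left hx0.le (by positivity)
        calc K * (Real.log x * ℓ) ≤ K * ((C2 * L) * ℓ) := by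
              apply mul_le_mul_of_nonneg_left _ hK0.le
              exact mul_le_mul_of_nonneg_right hx2 hℓ0.le
          _ = K * (C2 * L) * ℓ := by ring
      -- the bad primes
      have hb : ((S.filter (fun p => p ≤ x)).card : ℝ) ≤ ε / 4 * t := by
        have h1 : ((S.filter (fun p => p ≤ x)).card : ℝ) < τ * x := by
          by_contra h
          exact hc1 ⟨hxW, not_lt.1 h⟩
        have h2 : τ * x = ε / 4 * (x / (K * (C2 * L) * ℓ)) := by
          rw [hτ]
          field_simp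
        rw [h2] at h1
        exact h1.le.trans (mul_le_mul_of_nonneg_left hxt (by positivity))
      -- the small quantities
      have hsm : 1 + 2 * L + (N : ℝ) ^ (C1 / 2) ≤ ε / 8 * t := by
        have h1 : 40 / ε * K * C2 ^ 2 * (1 * L + 1) ^ 4 ≤ (N : ℝ) ^ (C1 / 2) := f3
        have h2 : (N : ℝ) ^ C1 = (N : ℝ) ^ (C1 / 2) * (N : ℝ) ^ (C1 / 2) := by
          rw [← Real.rpow_add hN0]
          congr 1
          ring
        have h3 := (mem_WX.1 hxW).1
        have h4 : x / (K * (C2 * L) * (C2 * L)) ≤ t := by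
          refine le_trans ?_ hxt
          apply div_le_div_of_nonneg_left hx0.le (by positivity)
          apply mul_le_mul_of_nonneg_left _ (by positivity)
          exact hℓL.trans (mul_le_mul_of_nonneg_right hC12 hL0.le)
        have h5 : (0 : ℝ) < (N : ℝ) ^ (C1 / 2) := by positivity
        have h51 : (1 : ℝ) ≤ (N : ℝ) ^ (C1 / 2) := Real.one_le_rpow hN1 (by positivity)
        have h6 : 1 + 2 * L + (N : ℝ) ^ (C1 / 2) ≤ 5 * L * (N : ℝ) ^ (C1 / 2) := by
          have h61 : L ≤ L * (N : ℝ) ^ (C1 / 2) := le_mul_of_one_le_right hL0.le h51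
          have h62 : (N : ℝ) ^ (C1 / 2) ≤ L * (N : ℝ) ^ (C1 / 2) := le_mul_of_one_le_left h5.le hL1
          linarith
        refine h6.trans ?_
        have h7 : ε / 8 * (x / (K * (C2 * L) * (C2 * L))) ≤ ε / 8 * t :=
          mul_le_mul_of_nonneg_left h4 (by positivity)
        refine le_trans ?_ h7
        have h8 : 5 * L * (N : ℝ) ^ (C1 / 2) * (8 / ε * (K * (C2 * L) * (C2 * L))) ≤ x := by
          refine le_trans ?_ h3
          rw [h2]
          calc 5 * L * (N : ℝ) ^ (C1 / 2) * (8 / ε * (K * (C2 * L) * (C2 * L)))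
              = (40 / ε * K * C2 ^ 2 * L ^ 3) * (N : ℝ) ^ (C1 / 2) := by ring
            _ ≤ (N : ℝ) ^ (C1 / 2) * (N : ℝ) ^ (C1 / 2) := by
                apply mul_le_mul_of_nonneg_right _ h5.le
                refine le_trans ?_ h1
                apply mul_le_mul_of_nonneg_left _ (by positivity)
                rw [one_mul]
                calc L ^ 3 ≤ (L + 1) ^ 3 := pow_le_pow_left₀ hL0.le (by linarith) 3
                  _ ≤ (L + 1) ^ 4 := pow_le_pow_right₀ (by linarith) (by norm_num)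
        have h9 : ε / 8 * (x / (K * (C2 * L) * (C2 * L))) =
            x / (8 / ε * (K * (C2 * L) * (C2 * L))) := by
          field_simp
        rw [h9, le_div_iff₀ (by positivity)]
        exact h8
      have hω : (n.natAbs.primeFactors.card : ℝ) ≤ 2 * L := by
        rw [hL]
        exact Pool.Agent.N430.PS.card_pf n.natAbs N (Int.natAbs_pos.2 hn0) hnN
      have hbp := BadP_card N z (C1 / 2) C2 (by omega) n x (mem_WX.1 hxW).2
      rw [← hS] at hbp
      have hcl := Pool.Agent.N430.LK.PR_close n D m hn hD4 hn0 x z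
      -- the number of the nonresidues
      have hTQ : |((TQ x z D.natAbs).card : ℝ) - dl D.natAbs * t| ≤ ε / 2 * t := by
        by_cases hDL : L ^ B < D.natAbs
        · have h1 : D.natAbs ∉ BX (ε / 8) x z N := by
            intro h
            apply hc2
            rw [if_pos hDL, mem_filter]
            exact ⟨hxW, h⟩
          have h2 : |∑ p ∈ TT x z, (jacobiSym (p : ℤ) D.natAbs : ℝ)| ≤ ε / 8 * t := by
            by_contra h
            apply h1
            unfold BX
            rw [mem_filter, mem_Icc]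
            exact ⟨⟨hD1, hDN⟩, hodd, hsf, by rw [← ht]; exact not_le.1 h⟩
          have h3 := jac_sum x z D.natAbs (by omega)
          rw [← ht] at h3
          have h4 : (D.natAbs.primeFactors.card : ℝ) ≤ 2 * L := by
            rw [hL]
            exact Pool.Agent.N430.PS.card_pf D.natAbs N hD1 hDN
          have h5 : |t - 2 * ((TQ x z D.natAbs).card : ℝ)| ≤ ε / 4 * t := by
            have h51 : (0 : ℝ) ≤ (N : ℝ) ^ (C1 / 2) := by positivity
            linarith
          have h6 : |dl D.natAbs - 1 / 2| ≤ ε / 8 := by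
            apply hM₀ _ _ hsf hodd
            have h7 : (M₀ : ℝ) ≤ D.natAbs := by
              calc (M₀ : ℝ) ≤ L := hLM
                _ = L ^ 1 := (pow_one _).symm
                _ ≤ L ^ B := pow_le_pow_right₀ hL1 hB1
                _ ≤ _ := hDL.le
            exact_mod_cast h7
          have h8 : |(dl D.natAbs - 1 / 2) * t| ≤ ε / 8 * t := by
            rw [abs_mul, abs_of_pos ht0]
            exact mul_le_mul_of_nonneg_right h6 ht0.le
          have h9 := abs_le.1 h5
          have h10 := abs_le.1 h8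
          rw [abs_le]
          constructor <;> nlinarith
        · have h1 := htm D.natAbs hsf hodd (by
            refine (not_lt.1 hDL).trans ?_
            calc L ^ B = 1 / C1 ^ (B + 1) * (C1 ^ (B + 1) * L ^ B) := by field_simp
              _ ≤ L * (C1 ^ (B + 1) * L ^ B) := mul_le_mul_of_nonneg_right hLC (by positivity)
              _ = (C1 * L) ^ (B + 1) := by rw [mul_pow, pow_succ L]; ring
              _ ≤ (Real.log x) ^ (B + 1) := pow_le_pow_left₀ (by positivity) hx1 _)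
          refine h1.trans ?_
          apply mul_le_mul_of_nonneg_right _ ht0.le
          linarith
      unfold Good
      rw [← ht]
      have h7 : ((PR n x z).card : ℝ) - dl D.natAbs * t =
          (((PR n x z).card : ℝ) - (TQ x z D.natAbs).card) +
          (((TQ x z D.natAbs).card : ℝ) - dl D.natAbs * t) := by ring
      rw [h7]
      refine (abs_add_le _ _).trans ?_
      have h8 : 0 < ε * t := by positivity
      linarith
    -- the measure of the exceptional sets
    have hm1 : ∑ x ∈ (WX N C1 C2).filter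
        (fun x : ℕ => τ * x ≤ ((S.filter (fun p => p ≤ x)).card : ℝ)), 1 / (x : ℝ) ≤ ε / 3 * L := by
      refine havg.trans ?_
      obtain ⟨j, hj⟩ : ∃ j : ℝ, j = (Nat.log 2 z : ℝ) + 1 := ⟨_, rfl⟩
      rw [← hj] at hSsum
      have hj0 : 0 < j := by rw [hj]; positivity
      have hjJ : Q ≤ j := by
        have h1 : J ≤ Nat.log 2 z := Nat.le_log_of_pow_le (by norm_num) hzJ
        have h2 : (J : ℝ) ≤ Nat.log 2 z := by exact_mod_cast h1
        linarith
      have hℓj : ℓ ≤ j := by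
        have h1 : z < 2 ^ (Nat.log 2 z + 1) := Nat.lt_pow_succ_log_self (by norm_num) z
        have h2 : (z : ℝ) ≤ 2 ^ (Nat.log 2 z + 1) := by exact_mod_cast h1.le
        have h3 := Real.log_le_log (by linarith) h2
        rw [Real.log_pow, ← hℓ] at h3
        push_cast at h3
        rw [← hj] at h3
        have h4 : Real.log 2 ≤ 1 := by
          have := Real.log_two_lt_d9
          linarith
        calc ℓ ≤ j * Real.log 2 := h3
          _ ≤ j * 1 := mul_le_mul_of_nonneg_left h4 hj0.le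
          _ = j := mul_one _
      calc 2 / τ * ∑ p ∈ S, 1 / (p : ℝ) ≤ 2 / τ * (Cw / j ^ 2) :=
            mul_le_mul_of_nonneg_left hSsum (by positivity)
        _ = (8 * K * C2 * Cw / ε) * (ℓ / j ^ 2) * L := by
            rw [hτ]
            field_simp
            norm_num
        _ ≤ (8 * K * C2 * Cw / ε) * (1 / j) * L := by
            apply mul_le_mul_of_nonneg_right _ hL0.le
            apply mul_le_mul_of_nonneg_left _ (by positivity)
            rw [div_le_div_iff₀ (by positivity) hj0, one_mul, sq]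
            exact mul_le_mul_of_nonneg_right hℓj hj0.le
        _ ≤ ε / 3 * L := by
            apply mul_le_mul_of_nonneg_right _ hL0.le
            rw [mul_one_div, div_le_iff₀ hj0]
            rw [hQ] at hjJ
            calc 8 * K * C2 * Cw / ε = ε / 3 * (24 * K * C2 * Cw / ε ^ 2) := by
                  field_simp
                  norm_num
              _ ≤ ε / 3 * j := mul_le_mul_of_nonneg_left hjJ (by positivity)
    have hm2 : ∑ x ∈ (if L ^ B < D.natAbs then
        (WX N C1 C2).filter (fun x => D.natAbs ∈ BX (ε / 8) x z N) else ∅), 1 / (x : ℝ) ≤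
        ε / 3 * L := by
      split_ifs with h
      · by_contra hcon
        apply hDF
        unfold BB
        rw [mem_filter, mem_Icc, ← hL]
        exact ⟨⟨hD1, hDN⟩, h, not_le.1 hcon⟩
      · rw [sum_empty]
        positivity
    calc ∑ x ∈ (WX N C1 C2).filter (fun x => ¬ Good ε n D x z), 1 / (x : ℝ)
        ≤ ∑ x ∈ (WX N C1 C2).filter (fun x : ℕ => τ * x ≤ ((S.filter (fun p => p ≤ x)).card : ℝ)) ∪
        (if L ^ B < D.natAbs then (WX N C1 C2).filter (fun x => D.natAbs ∈ BX (ε / 8) x z N)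
          else ∅), 1 / (x : ℝ) :=
          sum_le_sum_of_subset_of_nonneg hsub fun _ _ _ => by positivity
      _ ≤ ε / 3 * L + ε / 3 * L := by
          have h1 := sum_union_inter (f := fun x : ℕ => 1 / (x : ℝ))
            (s₁ := (WX N C1 C2).filter (fun x : ℕ => τ * x ≤ ((S.filter (fun p => p ≤ x)).card : ℝ)))
            (s₂ := (if L ^ B < D.natAbs then
              (WX N C1 C2).filter (fun x => D.natAbs ∈ BX (ε / 8) x z N) else ∅))
          have h2 : 0 ≤ ∑ x ∈ ((WX N C1 C2).filter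
            (fun x : ℕ => τ * x ≤ ((S.filter (fun p => p ≤ x)).card : ℝ))) ∩
            (if L ^ B < D.natAbs then
              (WX N C1 C2).filter (fun x => D.natAbs ∈ BX (ε / 8) x z N) else ∅), 1 / (x : ℝ) :=
            sum_nonneg fun _ _ => by positivity
          linarith
      _ ≤ ε * L := by
          have : 0 < ε * L := by positivity
          linarith

end Pool.Agent.KS6_18
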